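import Pool.Agent.H93.Neg.TabN18_8_0

/-!
Certificates.
-/

set_option autoImplicit false
set_option maxRecDepth 100000
set_option linter.all false

namespace Pool.Agent.H93.Neg.N18_8_0

/-- part of the certificates -/
def L0 : List Prf := [(.br (nat_lit 14) (nat_lit 0) (.cons (.br (nat_lit 14) (nat_lit 0) .nil) .nil)),
 (.br (nat_lit 8) (nat_lit 0) (.cons (.br (nat_lit 8) (nat_lit 0) .nil) .nil)),
 (.br (nat_lit 11) (nat_lit 0) (.cons (.ev (nat_lit 309489732260167007384633344) (nat_lit 1)) .nil)),
 (.br (nat_lit 7) (nat_lit 0) (.cons (.ev (nat_lit 310693935713298766914125824) (nat_lit 1)) (.cons (.rf (nat_lit 2) (nat_lit 14242959524133701664)) .nil))),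
 (.br (nat_lit 11) (nat_lit 0) (.cons (.rf (nat_lit 1) (nat_lit 616255170253889)) (.cons (.rf (nat_lit 3) (nat_lit 20193522128555054145)) (.cons (.br (nat_lit 12) (nat_lit 0) (.cons (.rf (nat_lit 2) (nat_lit 20193488010408596545)) (.cons (.ev (nat_lit 87112291144339514785121717259743501811968) (nat_lit 1)) .nil))) .nil)))),
 (.br (nat_lit 11) (nat_lit 0) (.cons (.rf (nat_lit 1) (nat_lit 616255167111233)) (.cons (.rf (nat_lit 3) (nat_lit 20193522128551911489)) (.cons (.br (nat_lit 12) (nat_lit 0) (.cons (.rf (nat_lit 2) (nat_lit 20193488010405453889)) (.cons (.ev (nat_lit 87112291144339514785121717259743501811968) (nat_lit 1)) .nil))) .nil)))),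
 (.br (nat_lit 9) (nat_lit 0) (.cons (.ev (nat_lit 20282410817318303265519797534721) (nat_lit 1)) (.cons (.br (nat_lit 13) (nat_lit 0) (.cons (.ev (nat_lit 20361948464842388948182066266113) (nat_lit 1)) .nil)) .nil))),
 (.br (nat_lit 14) (nat_lit 0) (.cons (.ev (nat_lit 5212579269352146003853610147905793) (nat_lit 1)) .nil)),
 (.br (nat_lit 10) (nat_lit 0) (.cons (.ev (nat_lit 5192376087911008597767256440570113) (nat_lit 1)) (.cons (.rf (nat_lit 7) (nat_lit 583706118939841765935136)) .nil))),
 (.br (nat_lit 5) (nat_lit 0) (.cons (.ev (nat_lit 5253144090977319503579059046187521) (nat_lit 2)) (.cons (.br (nat_lit 8) (nat_lit 0) (.cons (.ev (nat_lit 2663668570839193355064081766011764737) (nat_lit 2)) (.cons (.rf (nat_lit 1) (nat_lit 616254968933441)) .nil))) (.cons (.br (nat_lit 8) (nat_lit 0) (.cons (.ev (nat_lit 2663668570839193355064081766011764737) (nat_lit 2)) (.cons (.ev (nat_lit 5253144090977319503016117682700291) (nat_lit 2)) (.cons (.rf (nat_lit 6) (nat_lit 20678166659640375478304)) .nil)))) (.cons (.br (nat_lit 8) (nat_lit 0) (.cons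 (.rf (nat_lit 1) (nat_lit 616255066451009)) (.cons (.rf (nat_lit 8) (nat_lit 661701333108527518025760)) (.cons (.ev (nat_lit 5253144090977319503016117682700291) (nat_lit 2)) .nil)))) .nil))))),
 (.br (nat_lit 11) (nat_lit 0) (.cons (.ev (nat_lit 1329228075323772322809385831012237568) (nat_lit 1)) (.cons (.br (nat_lit 15) (nat_lit 0) (.cons (.ev (nat_lit 1334440654591910802108340274592743680) (nat_lit 1)) .nil)) .nil))),
 (.br (nat_lit 10) (nat_lit 0) (.cons (.ev (nat_lit 5212579269352146003853610147905793) (nat_lit 1)) .nil)),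
 (.br (nat_lit 5) (nat_lit 0) (.cons (.ev (nat_lit 2663668570841601761970345285104304641) (nat_lit 2)) (.cons (.rf (nat_lit 9) (nat_lit 19926519232773908460475427)) (.cons (.rf (nat_lit 9) (nat_lit 19925374417748630880392227)) (.cons (.br (nat_lit 8) (nat_lit 0) (.cons (.ev (nat_lit 5253144090977319503016117682700291) (nat_lit 2)) (.cons (.ev (nat_lit 5253144088568912597315539953647617) (nat_lit 2)) (.cons (.br (nat_lit 11) (nat_lit 0) (.cons (.ev (nat_lit 341611594996261026860364097154334064641) (nat_lit 1)) (.cons (.br (nat_lit 12) (nat_lit 0) (.cons (.ev (nat_lit 341616807575529165339663051597914570753) (nat_lit 1)) .nil)) .nil))) .nil)))) (.cons (.br (nat_lit 8) (nat_lit 0) (.cons (.rf (nat_lit 10) (nat_lit 21174442659471745632798752)) (.cons (.rf (nat_lit 10) (nat_lit 21174406884002205708421152)) (.cons (.br (nat_lit 11) (nat_lit 0) (.cons (.ev (nat_lit 341611594996261026860364378633605742848) (nat_lit 1)) (.cons (.rf (nat_lit 11) (nat_lit 661701333108527518025760)) .nil))) (.cons (.ev (nat_lit 2663668570841601761969782343740817411)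 (nat_lit 2)) .nil))))) .nil)))))),
 (.br (nat_lit 15) (nat_lit 0) (.cons (.kr (nat_lit 5212579268143201665437317520687105) (nat_lit 2658455991571040671627510224728883200) (nat_lit 0) (nat_lit 1)) (.cons (.kr (nat_lit 2658455991571040671627510224712105985) (nat_lit 5212579268143201665437317537464320) (nat_lit 0) (nat_lit 1)) (.cons (.kr (nat_lit 5212579268143201665718788219207681) (nat_lit 2658455991571040671627228754030363136) (nat_lit 0) (nat_lit 2)) (.cons (.kr (nat_lit 20282409603651670423947251286016) (nat_lit 1329227995784915872903807060280344576) (nat_lit 13) (nat_lit 0)) (.cons (.kr (nat_lit 5192296858534827628530496329220096) (nat_lit 1329227995784915872903807060280344576) (nat_lit 14) (nat_lit 0)) (.cons (.br (nat_lit 2) (nat_lit 0) (.cons (.br (nat_lit 8) (nat_lit 0) (.cons (.ev (nat_lit 5253144090977319503016117649145857) (nat_lit 2)) (.cons (.ev (nat_lit 5253144088568912597315539987202051) (nat_lit 2)) (.cons (.ev (nat_lit 2663668570841601761969782343707262977) (nat_lit 2)) (.cons (.rf (nat_lit 4) (nat_lit 677582165103132179601393696))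 .nil))))) (.cons (.br (nat_lit 5) (nat_lit 0) (.cons (.ev (nat_lit 5253144090977319503579059012633091) (nat_lit 2)) (.cons (.ev (nat_lit 5253144088568912596752598623715841) (nat_lit 2)) (.cons (.ev (nat_lit 2663668570841601761970345285070750211) (nat_lit 2)) (.cons (.rf (nat_lit 5) (nat_lit 677582165103132179601393696)) .nil))))) (.cons (.rf (nat_lit 9) (nat_lit 19926519232773908561233952)) (.cons (.rf (nat_lit 9) (nat_lit 19925374417748630981150752)) (.cons (.rf (nat_lit 12) (nat_lit 19926519232773908561233952)) (.cons (.br (nat_lit 5) (nat_lit 0) (.cons (.rf (nat_lit 5) (nat_lit 677582165103132179500635171)) (.cons (.rf (nat_lit 9) (nat_lit 19926519232773908460475427)) (.cons (.rf (nat_lit 9) (nat_lit 19925374417748630880392227)) (.cons (.rf (nat_lit 12) (nat_lit 19926519232773908460475427)) (.cons (.br (nat_lit 8) (nat_lit 0) (.cons (.ev (nat_lit 5253144090977319503016117682700291) (nat_lit 2)) (.cons (.ev (nat_lit 5253144088568912597315539953647617) (nat_lit 2)) (.cons (.ev (nat_lit 2663668570841601761969782343740817411) (nat_lit 2))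 (.cons (.ev (nat_lit 87112285931760246646642418305299921305856) (nat_lit 1)) .nil))))) .nil)))))) .nil))))))) .nil))))))),
 (.br (nat_lit 8) (nat_lit 0) (.cons (.ev (nat_lit 5253462239177898694205862018286597) (nat_lit 3)) (.cons (.br (nat_lit 12) (nat_lit 0) (.cons (.ev (nat_lit 5212738344656657427830770965152257) (nat_lit 2)) (.cons (.rf (nat_lit 1) (nat_lit 582065955773505)) .nil))) .nil))),
 (.br (nat_lit 12) (nat_lit 0) (.cons (.ev (nat_lit 1329228234399072093491068842100720387) (nat_lit 2)) (.cons (.ev (nat_lit 5212738344656620389664494106706433) (nat_lit 2)) (.cons (.br (nat_lit 16) (nat_lit 0) (.cons (.ev (nat_lit 341611615199132982987949121018099990528) (nat_lit 1)) (.cons (.ev (nat_lit 340282387282886928287317093019379826945) (nat_lit 1)) .nil))) .nil)))),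
 (.br (nat_lit 5) (nat_lit 0) (.cons (.ev (nat_lit 2663668570841601724932179008245858307) (nat_lit 2)) (.cons (.rf (nat_lit 14) (nat_lit 583706118939841765935136)) (.cons (.rf (nat_lit 14) (nat_lit 582561303914564185851936)) (.cons (.br (nat_lit 11) (nat_lit 0) (.cons (.br (nat_lit 12) (nat_lit 0) (.cons (.ev (nat_lit 1329228234399072093491068842100720387) (nat_lit 2)) (.cons (.rf (nat_lit 1) (nat_lit 582066053291073)) .nil))) (.cons (.ev (nat_lit 5212738347065027296490954562732547) (nat_lit 2)) (.cons (.rf (nat_lit 15) (nat_lit 19926519232773908561233952)) (.cons (.br (nat_lit 12) (nat_lit 0) (.cons (.rf (nat_lit 1) (nat_lit 582032767294529)) (.cons (.rf (nat_lit 15) (nat_lit 19925374417748630981150752)) (.cons (.ev (nat_lit 5212738344656620389664494106706433) (nat_lit 2)) .nil)))) .nil))))) .nil))))),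
 (.br (nat_lit 8) (nat_lit 0) (.cons (.ev (nat_lit 2663668570839193355064081766011764737) (nat_lit 2)) (.cons (.ev (nat_lit 341611615199132983006467641206559014913) (nat_lit 1)) (.cons (.br (nat_lit 12) (nat_lit 0) (.cons (.ev (nat_lit 1369110170091265627621622843156778582529) (nat_lit 3)) (.cons (.br (nat_lit 16) (nat_lit 0) (.cons (.ev (nat_lit 2730239719859109666555153923193277124107) (nat_lit 4)) .nil)) .nil))) .nil)))),
 (.br (nat_lit 16) (nat_lit 0) (.cons (.ev (nat_lit 2663668570841601724932741949575790593) (nat_lit 2)) (.cons (.ev (nat_lit 5212738344656620389664494106706433) (nat_lit 2)) (.cons (.kr (nat_lit 680564754124286535300786403155409633281) (nat_lit 174224577055817353037001247150195139936256) (nat_lit 0) (nat_lit 1)) .nil)))),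
 (.br (nat_lit 5) (nat_lit 0) (.cons (.rf (nat_lit 16) (nat_lit 583706118939841665176611)) (.cons (.rf (nat_lit 16) (nat_lit 583706118938776513287203)) (.cons (.ev (nat_lit 5212738344656620389664494140260867) (nat_lit 2)) (.cons (.br (nat_lit 7) (nat_lit 0) (.cons (.kr (nat_lit 72057594037927936) (nat_lit 18446744073709551616) (nat_lit 7) (nat_lit 0)) (.cons (.rf (nat_lit 16) (nat_lit 41326548113978982576622)) (.cons (.rf (nat_lit 17) (nat_lit 19926519232773908561233952)) (.cons (.br (nat_lit 8) (nat_lit 0) (.cons (.rf (nat_lit 1) (nat_lit 581895328345153)) (.cons (.rf (nat_lit 17) (nat_lit 19926519232772843409344544)) (.cons (.br (nat_lit 12) (nat_lit 0) (.cons (.rf (nat_lit 18) (nat_lit 677582165103132179601393696)) (.cons (.ev (nat_lit 87112291124136644042623799813190080004353) (nat_lit 1)) .nil))) .nil)))) .nil))))) .nil))))),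
 (.br (nat_lit 8) (nat_lit 0) (.cons (.rf (nat_lit 16) (nat_lit 41326548112913864273389)) (.cons (.rf (nat_lit 16) (nat_lit 41326548112913830687214)) (.cons (.br (nat_lit 11) (nat_lit 0) (.cons (.ev (nat_lit 5212738347065027296490954562732547) (nat_lit 2)) (.cons (.rf (nat_lit 18) (nat_lit 640104319880053397605419040)) .nil))) (.cons (.ev (nat_lit 2663668570841601761969782343740817411) (nat_lit 2)) .nil))))),
 (.br (nat_lit 8) (nat_lit 0) (.cons (.rf (nat_lit 1) (nat_lit 582170201795746)) (.cons (.br (nat_lit 16) (nat_lit 0) (.cons (.ev (nat_lit 340282366920939677130079789177118982145) (nat_lit 1)) (.cons (.ev (nat_lit 341616787213583127830612126733728546817) (nat_lit 1)) .nil))) (.cons (.br (nat_lit 12) (nat_lit 0) (.cons (.br (nat_lit 16) (nat_lit 0) (.cons (.ev (nat_lit 1369110048237735138070337476184250778631) (nat_lit 3)) .nil)) (.cons (.ev (nat_lit 348457124389042761692155774133864631369731) (nat_lit 3)) .nil))) .nil)))),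
 (.br (nat_lit 16) (nat_lit 0) (.cons (.ev (nat_lit 1361134801957483264742937177506143535111) (nat_lit 3)) (.cons (.ev (nat_lit 1366451632810989330441682111113583656963) (nat_lit 3)) .nil))),
 (.br (nat_lit 12) (nat_lit 0) (.cons (.kr (nat_lit 5192296859743753448426600497414145) (nat_lit 20282409608374036906821191467520) (nat_lit 0) (nat_lit 2)) (.cons (.ev (nat_lit 1361134721146000256972910863204871045123) (nat_lit 3)) (.cons (.br (nat_lit 16) (nat_lit 0) (.cons (.kr (nat_lit 2658455991571040671627510224728883201) (nat_lit 5212579268143201665437317520687616) (nat_lit 0) (nat_lit 2)) (.cons (.ev (nat_lit 1366451714258773518257396386079539462151) (nat_lit 3)) .nil))) .nil)))),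
 (.br (nat_lit 5) (nat_lit 0) (.cons (.rf (nat_lit 5) (nat_lit 640105464695078675050140740)) (.cons (.rf (nat_lit 21) (nat_lit 677582165103132179601393696)) (.cons (.rf (nat_lit 21) (nat_lit 677581020288106902021310496)) (.cons (.br (nat_lit 8) (nat_lit 0) (.cons (.rf (nat_lit 22) (nat_lit 677582165103132179601393696)) (.cons (.rf (nat_lit 22) (nat_lit 677581020288106902021310496)) (.cons (.ev (nat_lit 340287579500207815609378743620716265729) (nat_lit 1)) (.cons (.br (nat_lit 16) (nat_lit 0) (.cons (.ev (nat_lit 1363793217384238705999215344887525539843) (nat_lit 3)) (.cons (.ev (nat_lit 1363793217384233889185403943732201652231) (nat_lit 3)) (.cons (.ev (nat_lit 1369110048237739954884148877339641774083) (nat_lit 3)) .nil)))) .nil))))) (.cons (.br (nat_lit 8) (nat_lit 0) (.cons (.rf (nat_lit 23) (nat_lit 21135445052388537735940128)) (.cons (.rf (nat_lit 23) (nat_lit 21134300237363260155856928)) (.cons (.br (nat_lit 16) (nat_lit 0) (.cons (.ev (nat_lit 341616787213583127830612126733728546817) (nat_lit 1)) (.cons (.ev (nat_lit 341611615199134196654654020184650612737)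 (nat_lit 1)) (.cons (.ev (nat_lit 340282366920938463481893410199044161536) (nat_lit 1)) .nil)))) (.cons (.br (nat_lit 11) (nat_lit 0) (.cons (.ev (nat_lit 348451807395929983614057477209834504847363) (nat_lit 3)) (.cons (.br (nat_lit 12) (nat_lit 0) (.cons (.ev (nat_lit 1369110048237735138070337476184250778631) (nat_lit 3)) .nil)) .nil))) .nil))))) .nil)))))),
 (.br (nat_lit 5) (nat_lit 0) (.cons (.ev (nat_lit 340282366920939677111560706030116602113) (nat_lit 1)) (.cons (.ev (nat_lit 341611615199132983006467641206575792385) (nat_lit 1)) .nil))),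
 (.br (nat_lit 5) (nat_lit 0) (.cons (.br (nat_lit 16) (nat_lit 0) (.cons (.ev (nat_lit 1369110048237735138070337476184250778113) (nat_lit 3)) .nil)) (.cons (.ev (nat_lit 1363793217384238705999215344887525541381) (nat_lit 3)) (.cons (.br (nat_lit 12) (nat_lit 0) (.cons (.ev (nat_lit 1369110048237735138070337476184250778113) (nat_lit 3)) .nil)) .nil)))),
 (.br (nat_lit 8) (nat_lit 0) (.cons (.rf (nat_lit 24) (nat_lit 677582165103131114449504288)) (.cons (.rf (nat_lit 24) (nat_lit 677582165103131114348745763)) (.cons (.rf (nat_lit 24) (nat_lit 639563085124251747283840493)) (.cons (.rf (nat_lit 24) (nat_lit 639563085124251747250254318)) (.cons (.br (nat_lit 2) (nat_lit 0) (.cons (.ev (nat_lit 340287579500207815609378743620716265729) (nat_lit 1)) (.cons (.rf (nat_lit 25) (nat_lit 677582165103132179601393696)) (.cons (.rf (nat_lit 25) (nat_lit 677581020288106902021310496)) (.cons (.br (nat_lit 5) (nat_lit 0) (.cons (.ev (nat_lit 341616787213583127830612126733728547072) (nat_lit 1)) (.cons (.ev (nat_lit 341611615199134196654654020184650612992)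 (nat_lit 1)) (.cons (.ev (nat_lit 340282366920938463481893410199044161793) (nat_lit 1)) .nil)))) .nil))))) (.cons (.br (nat_lit 2) (nat_lit 0) (.cons (.br (nat_lit 16) (nat_lit 0) (.cons (.ev (nat_lit 1363793217384238705999215344887525540353) (nat_lit 3)) (.cons (.ev (nat_lit 1363793217384233889185403943732201652741) (nat_lit 3)) (.cons (.ev (nat_lit 1369110048237739954884148877339641774593) (nat_lit 3)) .nil)))) (.cons (.rf (nat_lit 26) (nat_lit 677582165103132179601393696)) (.cons (.rf (nat_lit 26) (nat_lit 677581020288106902021310496)) (.cons (.br (nat_lit 5) (nat_lit 0) (.cons (.ev (nat_lit 1363793217384238705999215344887592650241) (nat_lit 3)) (.cons (.ev (nat_lit 1363793217384233889185403943732134544901) (nat_lit 3)) (.cons (.ev (nat_lit 1369110048237739954884148877339708884481) (nat_lit 3)) .nil)))) (.cons (.br (nat_lit 5) (nat_lit 0) (.cons (.rf (nat_lit 26) (nat_lit 677582165103132179500635171)) (.cons (.rf (nat_lit 26) (nat_lit 677581020288106901920551971)) (.cons (.ev (nat_lit 1369110048237739954884148877339641775621) (nat_lit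 3)) .nil)))) .nil)))))) .nil)))))))]

theorem c0 : chkAll C T R L0 (nat_lit 0) = true := by decide +kernel

theorem l0 : (nat_lit 0) + L0.length = (nat_lit 28) := by decide +kernel

/-- part of the certificates -/
def L1 : List Prf := [(.br (nat_lit 12) (nat_lit 1) (.cons (.br (nat_lit 12) (nat_lit 1) (.cons (.br (nat_lit 13) (nat_lit 0) (.cons (.br (nat_lit 13) (nat_lit 1) (.cons (.br (nat_lit 14) (nat_lit 0) (.cons (.kr (nat_lit 20282409603651670423947251286016) (nat_lit 5192296858534827628530496329220096) (nat_lit 13) (nat_lit 0)) .nil)) .nil)) .nil)) .nil)) .nil)),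
 (.br (nat_lit 5) (nat_lit 0) (.cons (.ev (nat_lit 1213685223982322226823683) (nat_lit 2)) (.cons (.rf (nat_lit 28) (nat_lit 14242959524133701664)) (.cons (.br (nat_lit 8) (nat_lit 0) (.cons (.ev (nat_lit 620212113140778547560973829) (nat_lit 3)) (.cons (.rf (nat_lit 28) (nat_lit 15395881028740548640)) (.cons (.br (nat_lit 12) (nat_lit 0) (.cons (.br (nat_lit 12) (nat_lit 0) (.cons (.rf (nat_lit 28) (nat_lit 16548802533347395616)) .nil)) (.cons (.rf (nat_lit 28) (nat_lit 16548802533347395616)) .nil))) .nil)))) .nil)))),
 (.br (nat_lit 8) (nat_lit 0) (.cons (.ev (nat_lit 1213685223982322193269249) (nat_lit 2)) (.cons (.ev (nat_lit 309485065378032650784146178) (nat_lit 2)) (.cons (.rf (nat_lit 28) (nat_lit 16548802533347395616)) .nil)))),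
 (.br (nat_lit 12) (nat_lit 0) (.cons (.ev (nat_lit 79228162514264620172344099073) (nat_lit 1)) (.cons (.ev (nat_lit 79538856449905579870243586305) (nat_lit 1)) (.cons (.rf (nat_lit 28) (nat_lit 16548802533347395616)) .nil)))),
 (.br (nat_lit 5) (nat_lit 0) (.cons (.br (nat_lit 12) (nat_lit 0) (.cons (.br (nat_lit 12) (nat_lit 0) (.cons (.rf (nat_lit 28) (nat_lit 16548802533347395616)) .nil)) (.cons (.rf (nat_lit 28) (nat_lit 16548802533347395616)) .nil))) (.cons (.br (nat_lit 12) (nat_lit 0) (.cons (.ev (nat_lit 79228162514264620172344098816) (nat_lit 1)) (.cons (.ev (nat_lit 79538856449905579870243586048) (nat_lit 1)) (.cons (.rf (nat_lit 28) (nat_lit 16548802533347395616)) .nil)))) (.cons (.br (nat_lit 8) (nat_lit 0) (.cons (.br (nat_lit 12) (nat_lit 0) (.cons (.ev (nat_lit 79229376162450436191892340993) (nat_lit 1)) (.cons (.rf (nat_lit 28) (nat_lit 16548802533347395616)) .nil))) (.cons (.ev (nat_lit 20282410812596009121723445149696) (nat_lit 1)) (.cons (.rf (nat_lit 28) (nat_lit 16548802533347395616)) .nil)))) (.cons (.rf (nat_lit 28)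 (nat_lit 16548802533347395616)) .nil))))),
 (.br (nat_lit 5) (nat_lit 0) (.cons (.rf (nat_lit 32) (nat_lit 493858305440481285155)) (.cons (.rf (nat_lit 32) (nat_lit 493857213659794641955)) (.cons (.ev (nat_lit 79229376162450717671164018945) (nat_lit 1)) (.cons (.br (nat_lit 12) (nat_lit 0) (.cons (.ev (nat_lit 79538856449905579870226808833) (nat_lit 1)) (.cons (.ev (nat_lit 79537652246452448110697316353) (nat_lit 1)) (.cons (.ev (nat_lit 79228162514264338693072420864) (nat_lit 1)) (.cons (.rf (nat_lit 28) (nat_lit 16548802533347395616)) .nil))))) (.cons (.rf (nat_lit 28) (nat_lit 16548802533347395616)) .nil)))))),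
 (.br (nat_lit 14) (nat_lit 0) (.cons (.br (nat_lit 14) (nat_lit 0) .nil) .nil)),
 (.br (nat_lit 15) (nat_lit 0) (.cons (.ev (nat_lit 1329227995784915891350833712773267456) (nat_lit 1)) (.cons (.ev (nat_lit 1329248357422682057285595253568503808) (nat_lit 1)) .nil))),
 (.br (nat_lit 8) (nat_lit 0) (.cons (.ev (nat_lit 5253144090986764236542599279673857) (nat_lit 2)) (.cons (.ev (nat_lit 5253144088559467863784660276346883) (nat_lit 2)) (.cons (.ev (nat_lit 2663668570841611206703308825371344897) (nat_lit 2)) (.cons (.br (nat_lit 5) (nat_lit 0) (.cons (.rf (nat_lit 1) (nat_lit 616254969060417)) (.cons (.br (nat_lit 12) (nat_lit 0) (.cons (.ev (nat_lit 341616807575530374265482948805872648192) (nat_lit 1)) (.cons (.br (nat_lit 16) (nat_lit 0) (.cons (.ev (nat_lit 340282387282886923564950611249263083520) (nat_lit 1)) .nil)) .nil))) (.cons (.rf (nat_lit 35) (nat_lit 661701333108527519141953)) .nil)))) .nil))))),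
 (.br (nat_lit 5) (nat_lit 0) (.cons (.ev (nat_lit 5253144088559467863784660309901313) (nat_lit 2)) (.cons (.ev (nat_lit 341611594996262235786183994362292142337) (nat_lit 1)) (.cons (.br (nat_lit 16) (nat_lit 0) (.cons (.ev (nat_lit 2663668570839183910330550886334464513) (nat_lit 2)) (.cons (.ev (nat_lit 340282387282886923564950611249246306305) (nat_lit 1)) .nil))) .nil)))),
 (.br (nat_lit 13) (nat_lit 0) (.cons (.ev (nat_lit 5192297169228763269772773012013056) (nat_lit 1)) .nil)),
 (.br (nat_lit 16) (nat_lit 0) (.cons (.ev (nat_lit 87112291144339515994047537154752436502785) (nat_lit 1)) .nil)),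
 (.br (nat_lit 12) (nat_lit 0) (.cons (.ev (nat_lit 87113615180038442375092812431316387627265) (nat_lit 1)) .nil)),
 (.br (nat_lit 16) (nat_lit 0) (.cons (.ev (nat_lit 340287559297334650537455586038811525120) (nat_lit 1)) .nil)),
 (.br (nat_lit 17) (nat_lit 0) (.cons (.ev (nat_lit 87112285931760246646623899785111462281216) (nat_lit 1)) (.cons (.ev (nat_lit 87112285931760246651364785068549326503936) (nat_lit 1)) (.cons (.ev (nat_lit 87112285931760247855568237918829601095681) (nat_lit 1)) (.cons (.ev (nat_lit 87113615180038441170889359299556858134528) (nat_lit 1)) .nil))))),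
 (.br (nat_lit 5) (nat_lit 0) (.cons (.rf (nat_lit 1) (nat_lit 616254968012865)) (.cons (.br (nat_lit 12) (nat_lit 0) (.cons (.ev (nat_lit 341616807575530374265482667326584193025) (nat_lit 1)) (.cons (.rf (nat_lit 41) (nat_lit 677582165103132179601393696)) .nil))) (.cons (.rf (nat_lit 42) (nat_lit 677582165103132179601393696)) .nil)))),
 (.br (nat_lit 16) (nat_lit 0) (.cons (.ev (nat_lit 340287559297334650537455586038794747905) (nat_lit 1)) .nil)),
 (.br (nat_lit 14) (nat_lit 0) (.cons (.ev (nat_lit 1329227995784920613789373076944716033) (nat_lit 1)) .nil)),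
 (.br (nat_lit 12) (nat_lit 0) (.cons (.ev (nat_lit 87113620352052890102065317406105936068865) (nat_lit 1)) .nil)),
 (.br (nat_lit 15) (nat_lit 0) (.cons (.kr (nat_lit 20282409603651670423947251286017) (nat_lit 1329227995784915872903807060280344832) (nat_lit 0) (nat_lit 2)) (.cons (.kr (nat_lit 1329227995784915872903807060280344832) (nat_lit 20282409603651670423947268063232) (nat_lit 1) (nat_lit 0)) (.cons (.kr (nat_lit 5212579268143201665718788219207681) (nat_lit 2658455991571040671627228754030363136) (nat_lit 0) (nat_lit 2)) (.cons (.kr (nat_lit 60847230019880831167945922052097) (nat_lit 2663648288428371295802627490830090752) (nat_lit 0) (nat_lit 2)) (.cons (.kr (nat_lit 5192296858534827628530496329220096) (nat_lit 1329227995784915872903807060280344576) (nat_lit 14) (nat_lit 0)) (.cons (.br (nat_lit 7) (nat_lit 0) (.cons (.rf (nat_lit 36) (nat_lit 19926519232773908561233952)) (.cons (.rf (nat_lit 36) (nat_lit 19926519232773908460475427)) (.cons (.ev (nat_lit 5253144090986764235979657916187137) (nat_lit 2)) (.cons (.br (nat_lit 8) (nat_lit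 0) (.cons (.ev (nat_lit 5253144088559467863784660276346883) (nat_lit 2)) (.cons (.ev (nat_lit 5253144088559467863784660309901313) (nat_lit 2)) (.cons (.ev (nat_lit 2663668570839183910330550886334464513) (nat_lit 2)) (.cons (.br (nat_lit 2) (nat_lit 0) (.cons (.rf (nat_lit 1) (nat_lit 616255036167233)) (.cons (.rf (nat_lit 37) (nat_lit 19926519232773908561233952)) (.cons (.br (nat_lit 5) (nat_lit 0) (.cons (.rf (nat_lit 37) (nat_lit 19926519232773908460475427)) (.cons (.ev (nat_lit 87112291144339514789844083741513652109313) (nat_lit 1)) .nil))) .nil)))) .nil))))) (.cons (.br (nat_lit 8) (nat_lit 0) (.cons (.ev (nat_lit 2663668570841611206703308825371344897) (nat_lit 2)) (.cons (.ev (nat_lit 2663668570841611206703308825337790467) (nat_lit 2)) (.cons (.ev (nat_lit 2663668570839183910330550886334464513) (nat_lit 2)) (.cons (.ev (nat_lit 5253144090986764236542599313228291) (nat_lit 2)) (.cons (.br (nat_lit 2) (nat_lit 0) (.cons (.br (nat_lit 12) (nat_lit 0) (.cons (.ev (nat_lit 340287559297335854740908717798341017857) (nat_lit 1)) (.cons (.rf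 (nat_lit 38) (nat_lit 20678166659641484973121)) .nil))) (.cons (.br (nat_lit 5) (nat_lit 0) (.cons (.ev (nat_lit 340287559297335854740908717798341017857) (nat_lit 1)) (.cons (.rf (nat_lit 39) (nat_lit 677582165103132179601393696)) .nil))) (.cons (.br (nat_lit 5) (nat_lit 0) (.cons (.ev (nat_lit 340287559297335854740908717798341017857) (nat_lit 1)) (.cons (.rf (nat_lit 40) (nat_lit 677582165103132179601393696)) .nil))) (.cons (.br (nat_lit 5) (nat_lit 0) (.cons (.rf (nat_lit 39) (nat_lit 677582165103132179500635171)) (.cons (.rf (nat_lit 40) (nat_lit 677582165103132179500635171)) (.cons (.ev (nat_lit 87113620352052891306268770537865465561088) (nat_lit 1)) .nil)))) .nil))))) .nil)))))) (.cons (.br (nat_lit 8) (nat_lit 0) (.cons (.rf (nat_lit 43) (nat_lit 677582165103132179601393696)) (.cons (.rf (nat_lit 43) (nat_lit 677582165103132179500635171)) (.cons (.br (nat_lit 2) (nat_lit 0) (.cons (.rf (nat_lit 1) (nat_lit 616255068673089)) (.cons (.br (nat_lit 5) (nat_lit 0) (.cons (.ev (nat_lit 341616807575529170062029817046343155969) (nat_lit 1))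 (.cons (.rf (nat_lit 44) (nat_lit 677582165103132179601393696)) .nil))) (.cons (.br (nat_lit 5) (nat_lit 0) (.cons (.rf (nat_lit 44) (nat_lit 677582165103132179500635171)) (.cons (.ev (nat_lit 87112291144339514789844084022992907010048) (nat_lit 1)) .nil))) .nil)))) (.cons (.br (nat_lit 2) (nat_lit 0) (.cons (.br (nat_lit 12) (nat_lit 0) (.cons (.ev (nat_lit 340287559297335854740908436319052562688) (nat_lit 1)) (.cons (.rf (nat_lit 2) (nat_lit 19073106443851109441)) .nil))) (.cons (.br (nat_lit 5) (nat_lit 0) (.cons (.ev (nat_lit 340287559297335854740908436319052562688) (nat_lit 1)) (.cons (.rf (nat_lit 45) (nat_lit 661698952883485750167584)) .nil))) (.cons (.br (nat_lit 5) (nat_lit 0) (.cons (.ev (nat_lit 340287559297335854740908436319052562688) (nat_lit 1)) (.cons (.rf (nat_lit 46) (nat_lit 677582165103132179601393696)) .nil))) (.cons (.br (nat_lit 5) (nat_lit 0) (.cons (.rf (nat_lit 45) (nat_lit 661698952883485649409059)) (.cons (.rf (nat_lit 46) (nat_lit 677582165103132179500635171)) (.cons (.ev (nat_lit 87113620352052891306268770256386210660353)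 (nat_lit 1)) .nil)))) .nil))))) (.cons (.ev (nat_lit 5253144090986764236542599313228291) (nat_lit 2)) .nil)))))) .nil))))))) .nil))))))),
 (.br (nat_lit 8) (nat_lit 0) (.cons (.kr (nat_lit 79537647524085682670858666240) (nat_lit 1329227995784915891422609827539517440) (nat_lit 1) (nat_lit 0)) (.cons (.br (nat_lit 12) (nat_lit 0) (.cons (.ev (nat_lit 5212738344656657427267829601665537) (nat_lit 2)) (.cons (.rf (nat_lit 1) (nat_lit 582066022880321)) .nil))) .nil))),
 (.br (nat_lit 8) (nat_lit 0) (.cons (.kr (nat_lit 79537647524085682670858666240) (nat_lit 1329227995784915891422609827539517440) (nat_lit 1) (nat_lit 0)) (.cons (.br (nat_lit 11) (nat_lit 0) (.cons (.ev (nat_lit 5212738347065064334094290057691651) (nat_lit 2)) (.cons (.rf (nat_lit 1) (nat_lit 582032736883777)) .nil))) .nil))),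
 (.br (nat_lit 5) (nat_lit 0) (.cons (.ev (nat_lit 7980580553986129291062370717512630277) (nat_lit 3)) (.cons (.ev (nat_lit 2663668570841601724932179008245858307) (nat_lit 2)) (.cons (.ev (nat_lit 2663668570839193318026478430516805633) (nat_lit 2)) (.cons (.br (nat_lit 8) (nat_lit 0) (.cons (.ev (nat_lit 5253144090986764236542599313227777) (nat_lit 2)) (.cons (.ev (nat_lit 5253144088559467863784660276346883) (nat_lit 2)) (.cons (.ev (nat_lit 1344804886361729337165419289803554818) (nat_lit 2)) (.cons (.br (nat_lit 11) (nat_lit 0) (.cons (.rf (nat_lit 1) (nat_lit 581929788742721)) (.cons (.br (nat_lit 12) (nat_lit 0) (.cons (.ev (nat_lit 4094027602969619027593453104450505281027) (nat_lit 4)) (.cons (.br (nat_lit 16) (nat_lit 0) (.cons (.zr (nat_lit 1361129569254877190771856299482404618759) (nat_lit 7980560271569239101983804090791362560) (nat_lit 16) (nat_lit 11)) .nil)) .nil))) (.cons (.br (nat_lit 12) (nat_lit 0) (.cons (.br (nat_lit 16) (nat_lit 0) (.cons (.zr (nat_lit 1363788025087375335394521095880023605248) (nat_lit 5192774084419972144033844825163269)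 (nat_lit 16) (nat_lit 5)) .nil)) (.cons (.ev (nat_lit 348449149183168256205714407735822125105667) (nat_lit 4)) .nil))) .nil)))) .nil))))) .nil))))),
 (.br (nat_lit 5) (nat_lit 0) (.cons (.ev (nat_lit 2663668570841601724932179008245858307) (nat_lit 2)) (.cons (.ev (nat_lit 2663668570841601724932741949575790593) (nat_lit 2)) (.cons (.kr (nat_lit 5212579269352127485051946712170497) (nat_lit 159075295048171646799514173952) (nat_lit 0) (nat_lit 2)) (.cons (.br (nat_lit 12) (nat_lit 0) (.cons (.kr (nat_lit 5192296858539549995013365974433793) (nat_lit 79537647524085682662268731648) (nat_lit 0) (nat_lit 2)) (.cons (.kr (nat_lit 20282410812577490038576425992193) (nat_lit 79537647524085682662268731648) (nat_lit 0) (nat_lit 2)) (.cons (.ev (nat_lit 2663709294733686224805725910266413571) (nat_lit 2)) (.cons (.br (nat_lit 7) (nat_lit 0) (.cons (.rf (nat_lit 1) (nat_lit 582062798515265)) (.cons (.br (nat_lit 16) (nat_lit 0) (.cons (.ev (nat_lit 341611615199132982987949121018099990528) (nat_lit 1)) (.cons (.ev (nat_lit 341611594996262235786183994362292142337)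 (nat_lit 1)) .nil))) (.cons (.br (nat_lit 8) (nat_lit 0) (.cons (.rf (nat_lit 2) (nat_lit 19073106443840760897)) (.cons (.ev (nat_lit 87112285952122193897818174410809929629953) (nat_lit 1)) .nil))) .nil)))) .nil))))) .nil))))),
 (.br (nat_lit 8) (nat_lit 0) (.cons (.kr (nat_lit 5212579269352127485333417393913857) (nat_lit 159075295048171365328832430592) (nat_lit 0) (nat_lit 2)) (.cons (.ev (nat_lit 340287579500207810887012259651542581248) (nat_lit 1)) (.cons (.br (nat_lit 12) (nat_lit 0) (.cons (.ev (nat_lit 341616807575530374265482948805872648449) (nat_lit 1)) (.cons (.ev (nat_lit 5212738344656657427267829601665537) (nat_lit 2)) .nil))) .nil)))),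
 (.br (nat_lit 7) (nat_lit 0) (.cons (.kr (nat_lit 5212579269352127485333417393913857) (nat_lit 159075295048171365328832430592) (nat_lit 0) (nat_lit 2)) (.cons (.ev (nat_lit 340287579500207810887011978172287680513) (nat_lit 1)) (.cons (.br (nat_lit 12) (nat_lit 0) (.cons (.ev (nat_lit 341616807575530374265482667326584193280) (nat_lit 1)) (.cons (.ev (nat_lit 5212738344656657427830770998706691) (nat_lit 2)) .nil))) .nil)))),
 (.br (nat_lit 7) (nat_lit 0) (.cons (.ev (nat_lit 4096685976718035478135346746068824621067) (nat_lit 4)) (.cons (.ev (nat_lit 341611594996262235786183994362292142337) (nat_lit 1)) (.cons (.br (nat_lit 8) (nat_lit 0) (.cons (.ev (nat_lit 341616807575529170062029817046343155969) (nat_lit 1)) (.cons (.br (nat_lit 12) (nat_lit 0) (.cons (.ev (nat_lit 2663668888992201377122374261512733697) (nat_lit 3)) .nil)) .nil))) .nil)))),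
 (.br (nat_lit 12) (nat_lit 0) (.cons (.ev (nat_lit 1361134681376564835244567466749869428239) (nat_lit 4)) (.cons (.ev (nat_lit 1329228234399072148903640127965823746) (nat_lit 2)) .nil))),
 (.br (nat_lit 12) (nat_lit 0) (.cons (.ev (nat_lit 2658476671668900944305091180381734147) (nat_lit 3)) (.cons (.ev (nat_lit 5212738344656657427267829601665537) (nat_lit 2)) (.cons (.br (nat_lit 16) (nat_lit 0) (.cons (.ev (nat_lit 340282366920938468204259891969177681921) (nat_lit 1)) (.cons (.ev (nat_lit 340287559297334645833607622258113642753) (nat_lit 1)) .nil))) .nil)))),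
 (.br (nat_lit 8) (nat_lit 0) (.cons (.kr (nat_lit 5212579269352127485333417393913857) (nat_lit 159075295048171365328832430592) (nat_lit 0) (nat_lit 2)) (.cons (.rf (nat_lit 56) (nat_lit 19926519232773908561233952)) (.cons (.rf (nat_lit 56) (nat_lit 21135445052388537635181603)) .nil))))]

theorem c1 : chkAll C T R L1 (nat_lit 28) = true := by decide +kernel

theorem l1 : (nat_lit 28) + L1.length = (nat_lit 58) := by decide +kernel

/-- part of the certificates -/
def L2 : List Prf := [(.br (nat_lit 11) (nat_lit 0) (.cons (.ev (nat_lit 2658476671673717758118744135519307015) (nat_lit 3)) (.cons (.ev (nat_lit 5212738347065064334094290057691651) (nat_lit 2)) (.cons (.br (nat_lit 16) (nat_lit 0) (.cons (.ev (nat_lit 340282366920939672407713305207962075136) (nat_lit 1)) (.cons (.ev (nat_lit 340287559297335859481794001236222017792) (nat_lit 1)) .nil))) .nil)))),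
 (.br (nat_lit 8) (nat_lit 0) (.cons (.kr (nat_lit 5212579269352127485333417393913857) (nat_lit 159075295048171365328832430592) (nat_lit 0) (nat_lit 2)) (.cons (.rf (nat_lit 58) (nat_lit 19926519232773908561233952)) (.cons (.rf (nat_lit 58) (nat_lit 21135445052388537635181603)) .nil)))),
 (.br (nat_lit 8) (nat_lit 0) (.cons (.rf (nat_lit 58) (nat_lit 19925374416656850294507552)) (.cons (.rf (nat_lit 56) (nat_lit 19925374416656850294507552)) (.cons (.br (nat_lit 11) (nat_lit 0) (.cons (.ev (nat_lit 5213056497664642446831089700832769) (nat_lit 3)) (.cons (.br (nat_lit 12) (nat_lit 0) (.cons (.ev (nat_lit 4099344351739039763063306625469146464771) (nat_lit 4)) .nil)) .nil))) (.cons (.ev (nat_lit 7980580553986129291064059575962828805) (nat_lit 3)) .nil))))),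
 (.br (nat_lit 8) (nat_lit 0) (.cons (.ev (nat_lit 5253144090986764236542599279673347) (nat_lit 2)) (.cons (.ev (nat_lit 5253144088559467863784660309901313) (nat_lit 2)) (.cons (.ev (nat_lit 2663668570841611206703308825337790977) (nat_lit 2)) (.cons (.br (nat_lit 11) (nat_lit 0) (.cons (.rf (nat_lit 1) (nat_lit 581929784548514)) (.cons (.br (nat_lit 12) (nat_lit 0) (.cons (.ev (nat_lit 340287559297335854740908717798324240640) (nat_lit 1)) (.cons (.br (nat_lit 16) (nat_lit 0) (.cons (.ev (nat_lit 341611594996262235786183994362275364865) (nat_lit 1)) .nil)) .nil))) (.cons (.br (nat_lit 17) (nat_lit 0) (.cons (.ev (nat_lit 87113620352052890102065317124626681167873) (nat_lit 1)) (.cons (.ev (nat_lit 87112285931760246651364784787070071603456) (nat_lit 1)) .nil))) .nil)))) .nil))))),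
 (.br (nat_lit 16) (nat_lit 0) (.cons (.ev (nat_lit 87113615180038442375092812431316404404480) (nat_lit 1)) .nil)),
 (.br (nat_lit 16) (nat_lit 0) (.cons (.ev (nat_lit 340287579500206601961192645018089684993) (nat_lit 1)) (.cons (.ev (nat_lit 340282366920938463481893690574509179136) (nat_lit 1)) .nil))),
 (.br (nat_lit 8) (nat_lit 0) (.cons (.ev (nat_lit 5253144090986764236542599279673347) (nat_lit 2)) (.cons (.ev (nat_lit 2663668570839183910330550886334464003) (nat_lit 2)) (.cons (.ev (nat_lit 5253144090986764236542599313228291) (nat_lit 2)) (.cons (.br (nat_lit 5) (nat_lit 0) (.cons (.rf (nat_lit 1) (nat_lit 581928576594082)) (.cons (.br (nat_lit 12) (nat_lit 0) (.cons (.ev (nat_lit 341616807575530374265482948805872648449) (nat_lit 1)) (.cons (.rf (nat_lit 62) (nat_lit 677582165103132179601393696)) .nil))) (.cons (.rf (nat_lit 63) (nat_lit 21174442659472880612509728)) .nil)))) .nil))))),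
 (.br (nat_lit 15) (nat_lit 0) (.cons (.ev (nat_lit 340287579500206601961192645018072908033) (nat_lit 1)) .nil)),
 (.br (nat_lit 8) (nat_lit 0) (.cons (.ev (nat_lit 5253144088559467863784660309901313) (nat_lit 2)) (.cons (.ev (nat_lit 2663668570839183910330550886334464003) (nat_lit 2)) (.cons (.ev (nat_lit 5253144088559467863784660276347393) (nat_lit 2)) (.cons (.br (nat_lit 5) (nat_lit 0) (.cons (.rf (nat_lit 1) (nat_lit 581929650334882)) (.cons (.br (nat_lit 11) (nat_lit 0) (.cons (.ev (nat_lit 341616807575529170062029535567054700800) (nat_lit 1)) (.cons (.rf (nat_lit 65) (nat_lit 21174442659472880612509728)) .nil))) (.cons (.br (nat_lit 17) (nat_lit 0) (.cons (.ev (nat_lit 87113620352052890102065317124626681167873) (nat_lit 1)) (.cons (.ev (nat_lit 87112291144339514789844083741513652109568) (nat_lit 1)) .nil))) .nil)))) .nil))))),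
 (.br (nat_lit 11) (nat_lit 0) (.cons (.ev (nat_lit 340282387282885719361497198010445135873) (nat_lit 1)) (.cons (.rf (nat_lit 2) (nat_lit 19071946425783267490)) .nil))),
 (.br (nat_lit 11) (nat_lit 0) (.cons (.ev (nat_lit 340287579500206601961192645018072908033) (nat_lit 1)) .nil)),
 (.br (nat_lit 8) (nat_lit 0) (.cons (.ev (nat_lit 2663668570841611206703308825337790977) (nat_lit 2)) (.cons (.ev (nat_lit 5253144090986764236542599313228291) (nat_lit 2)) (.cons (.ev (nat_lit 5253144088559467863784660276347393) (nat_lit 2)) (.cons (.ev (nat_lit 2663668570841611206703308825371344897) (nat_lit 2)) (.cons (.br (nat_lit 5) (nat_lit 0) (.cons (.br (nat_lit 12) (nat_lit 0) (.cons (.ev (nat_lit 340287559297335854740908717798341017600) (nat_lit 1)) (.cons (.br (nat_lit 16) (nat_lit 0) (.cons (.ev (nat_lit 341611594996262235786183994362292142337) (nat_lit 1)) .nil)) .nil))) (.cons (.rf (nat_lit 67) (nat_lit 677582165103132179601393696)) (.cons (.br (nat_lit 11) (nat_lit 0) (.cons (.ev (nat_lit 340287559297335854740908717798341017600) (nat_lit 1)) (.cons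 (.rf (nat_lit 68) (nat_lit 21174442659472880612509728)) .nil))) (.cons (.br (nat_lit 17) (nat_lit 0) (.cons (.ev (nat_lit 87112285931760246651364784787070071603456) (nat_lit 1)) (.cons (.ev (nat_lit 87112291144339514789844083741513652109568) (nat_lit 1)) (.cons (.ev (nat_lit 87113620352052891306268770537865465561088) (nat_lit 1)) .nil)))) .nil))))) .nil)))))),
 (.br (nat_lit 7) (nat_lit 0) (.cons (.rf (nat_lit 61) (nat_lit 19926519232773908561233952)) (.cons (.ev (nat_lit 2663668570841611206702745883974303747) (nat_lit 2)) (.cons (.rf (nat_lit 64) (nat_lit 19926519232773908561233952)) (.cons (.rf (nat_lit 66) (nat_lit 19926519232773908561233952)) (.cons (.rf (nat_lit 69) (nat_lit 19926519232773908561233952)) (.cons (.br (nat_lit 8) (nat_lit 0) (.cons (.rf (nat_lit 61) (nat_lit 19925374416656850294507552)) (.cons (.rf (nat_lit 66) (nat_lit 19925374416656850294507552)) (.cons (.rf (nat_lit 64) (nat_lit 19925374416656850294507552)) (.cons (.rf (nat_lit 69) (nat_lit 19925374416656850294507552)) (.cons (.ev (nat_lit 2663668570841611206703308825371344897)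 (nat_lit 2)) .nil)))))) .nil))))))),
 (.br (nat_lit 11) (nat_lit 0) (.cons (.br (nat_lit 12) (nat_lit 0) (.cons (.ev (nat_lit 2663709294733695706575729844698481155) (nat_lit 2)) (.cons (.rf (nat_lit 1) (nat_lit 582070310284450)) .nil))) (.cons (.ev (nat_lit 2663709294736104113482556305120952321) (nat_lit 2)) (.cons (.br (nat_lit 5) (nat_lit 0) (.cons (.ev (nat_lit 2663709294733695706575729844698481155) (nat_lit 2)) (.cons (.ev (nat_lit 341616787213583127812093043586709389313) (nat_lit 1)) (.cons (.br (nat_lit 16) (nat_lit 0) (.cons (.ev (nat_lit 2663709294733695706575729844664926211) (nat_lit 2)) (.cons (.ev (nat_lit 341616787213583127812093043586726166785) (nat_lit 1)) .nil))) .nil)))) (.cons (.br (nat_lit 12) (nat_lit 0) (.cons (.rf (nat_lit 1) (nat_lit 582035950547106)) (.cons (.br (nat_lit 5) (nat_lit 0) (.cons (.ev (nat_lit 341611615199134196636134937037631455233) (nat_lit 1)) (.cons (.br (nat_lit 16) (nat_lit 0) (.cons (.ev (nat_lit 341616787213581914163907227567161147648) (nat_lit 1)) .nil)) .nil))) (.cons (.ev (nat_lit 2663709294733695706575729844664926211)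 (nat_lit 2)) .nil)))) .nil))))),
 (.br (nat_lit 8) (nat_lit 0) (.cons (.rf (nat_lit 71) (nat_lit 19926519232773908460475427)) (.cons (.ev (nat_lit 5212738347065064333531348660649987) (nat_lit 2)) (.cons (.br (nat_lit 12) (nat_lit 0) (.cons (.ev (nat_lit 2663709294733695706575729844698481155) (nat_lit 2)) (.cons (.ev (nat_lit 2663709294733695706575729844664926211) (nat_lit 2)) (.cons (.rf (nat_lit 8) (nat_lit 661171665558892890762733)) .nil)))) (.cons (.br (nat_lit 12) (nat_lit 0) (.cons (.rf (nat_lit 1) (nat_lit 581932871430306)) (.cons (.rf (nat_lit 6) (nat_lit 20661614548717522071021)) (.cons (.ev (nat_lit 2663709294733695706575729844664926211) (nat_lit 2)) .nil)))) .nil))))),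
 (.br (nat_lit 5) (nat_lit 0) (.cons (.rf (nat_lit 71) (nat_lit 19926519232773908460475427)) (.cons (.rf (nat_lit 72) (nat_lit 19926519232773908460475427)) (.cons (.br (nat_lit 8) (nat_lit 0) (.cons (.ev (nat_lit 5212738344656657427830770998706177) (nat_lit 2)) (.cons (.ev (nat_lit 341616787213581914163907227567177924608) (nat_lit 1)) (.cons (.br (nat_lit 11) (nat_lit 0) (.cons (.ev (nat_lit 340282366920939677111560987509388279808) (nat_lit 1)) (.cons (.ev (nat_lit 2663709294733695706575729844664926211) (nat_lit 2)) .nil))) .nil)))) (.cons (.br (nat_lit 8) (nat_lit 0) (.cons (.ev (nat_lit 5212738344656657427830770998706177) (nat_lit 2)) (.cons (.br (nat_lit 11) (nat_lit 0) (.cons (.ev (nat_lit 2663709294733695706575729844664926211) (nat_lit 2)) (.cons (.rf (nat_lit 7) (nat_lit 661171665558892889682414)) .nil))) (.cons (.br (nat_lit 11) (nat_lit 0) (.cons (.rf (nat_lit 6) (nat_lit 20661614548717520990702)) (.cons (.ev (nat_lit 2663709294733695706575729844664926211) (nat_lit 2)) .nil))) .nil)))) .nil))))),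
 (.br (nat_lit 5) (nat_lit 0) (.cons (.rf (nat_lit 71) (nat_lit 19926519232773908460475427)) (.cons (.rf (nat_lit 72) (nat_lit 19926519232773908460475427)) (.cons (.rf (nat_lit 73) (nat_lit 19926519232773908460475427)) (.cons (.ev (nat_lit 340287579500207815590859941952968786177) (nat_lit 1)) (.cons (.br (nat_lit 16) (nat_lit 0) (.cons (.br (nat_lit 11) (nat_lit 0) (.cons (.ev (nat_lit 2663709294736104113482556305120952835) (nat_lit 2)) (.cons (.br (nat_lit 12) (nat_lit 0) (.cons (.ev (nat_lit 2663709294733695706575729844664926721) (nat_lit 2)) .nil)) .nil))) (.cons (.br (nat_lit 8) (nat_lit 0) (.cons (.ev (nat_lit 5212738347065064333531348660650497) (nat_lit 2)) (.cons (.br (nat_lit 12) (nat_lit 0) (.cons (.ev (nat_lit 2663709294733695706575729844664926721) (nat_lit 2)) .nil)) .nil))) (.cons (.br (nat_lit 8) (nat_lit 0) (.cons (.ev (nat_lit 5212738344656657427830770998706691) (nat_lit 2)) (.cons (.br (nat_lit 11) (nat_lit 0) (.cons (.ev (nat_lit 2663709294733695706575729844664926721) (nat_lit 2)) .nil)) .nil))) (.cons (.ev (nat_lit 340287579500207815590859941952952008705)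 (nat_lit 1)) .nil))))) .nil)))))),
 (.br (nat_lit 2) (nat_lit 0) (.cons (.br (nat_lit 8) (nat_lit 0) (.cons (.br (nat_lit 12) (nat_lit 0) (.cons (.ev (nat_lit 5212738344656657427830770998706691) (nat_lit 2)) (.cons (.rf (nat_lit 1) (nat_lit 582066048777442)) .nil))) (.cons (.br (nat_lit 11) (nat_lit 0) (.cons (.ev (nat_lit 5212738347065064333531348660650497) (nat_lit 2)) (.cons (.rf (nat_lit 1) (nat_lit 582032762780898)) .nil))) (.cons (.br (nat_lit 11) (nat_lit 0) (.cons (.ev (nat_lit 2663709294736104113482556305120952835) (nat_lit 2)) (.cons (.ev (nat_lit 341616787213583127812093043586709389568) (nat_lit 1)) (.cons (.br (nat_lit 12) (nat_lit 0) (.cons (.ev (nat_lit 341611615199134196636134937037631455488) (nat_lit 1)) (.cons (.ev (nat_lit 2663709294733695706575729844664926721) (nat_lit 2)) .nil))) .nil)))) (.cons (.br (nat_lit 11) (nat_lit 0) (.cons (.rf (nat_lit 1) (nat_lit 581929784229090)) (.cons (.br (nat_lit 12) (nat_lit 0) (.cons (.ev (nat_lit 340282366920939677111560987509388280065) (nat_lit 1)) (.cons (.ev (nat_lit 2663709294733695706575729844664926721)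 (nat_lit 2)) .nil))) (.cons (.br (nat_lit 12) (nat_lit 0) (.cons (.ev (nat_lit 2663709294733695706575729844664926721) (nat_lit 2)) (.cons (.ev (nat_lit 87113615159835569210039407793922958688256) (nat_lit 1)) .nil))) .nil)))) .nil))))) (.cons (.rf (nat_lit 71) (nat_lit 19926519232773908561233952)) (.cons (.rf (nat_lit 72) (nat_lit 19926519232773908561233952)) (.cons (.rf (nat_lit 73) (nat_lit 19926519232773908561233952)) (.cons (.rf (nat_lit 74) (nat_lit 19926519232773908561233952)) (.cons (.br (nat_lit 5) (nat_lit 0) (.cons (.rf (nat_lit 71) (nat_lit 19926519232773908460475427)) (.cons (.rf (nat_lit 72) (nat_lit 19926519232773908460475427)) (.cons (.rf (nat_lit 73) (nat_lit 19926519232773908460475427)) (.cons (.rf (nat_lit 74) (nat_lit 19926519232773908460475427)) (.cons (.br (nat_lit 8) (nat_lit 0) (.cons (.br (nat_lit 12) (nat_lit 0) (.cons (.ev (nat_lit 5212738344656657427830770998706691) (nat_lit 2)) (.cons (.ev (nat_lit 87113620372414838562166893127344630792192) (nat_lit 1)) .nil))) (.cons (.br (nat_lit 11) (nat_lit 0) (.cons (.ev (nat_lit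 5212738347065064333531348660650497) (nat_lit 2)) (.cons (.ev (nat_lit 87113620372414838562166893127344630792192) (nat_lit 1)) .nil))) (.cons (.br (nat_lit 16) (nat_lit 0) (.cons (.ev (nat_lit 341616787213583127812093043586726166785) (nat_lit 1)) (.cons (.ev (nat_lit 341616787213581914163907227567161147648) (nat_lit 1)) (.cons (.ev (nat_lit 174905141850506461197457014195652411916291) (nat_lit 2)) .nil)))) (.cons (.br (nat_lit 11) (nat_lit 0) (.cons (.ev (nat_lit 87113620372414838562166893127344630792192) (nat_lit 1)) (.cons (.br (nat_lit 12) (nat_lit 0) (.cons (.ev (nat_lit 340287579500206601942673562974877188353) (nat_lit 1)) .nil)) .nil))) .nil))))) .nil)))))) .nil))))))),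
 (.br (nat_lit 15) (nat_lit 0) (.cons (.ev (nat_lit 1334420292954144654620042427730296833) (nat_lit 1)) .nil)),
 (.br (nat_lit 11) (nat_lit 0) (.cons (.ev (nat_lit 340287579500206601961192645018072908033) (nat_lit 1)) .nil)),
 (.br (nat_lit 8) (nat_lit 0) (.cons (.ev (nat_lit 2663668570841611206703308825337790977) (nat_lit 2)) (.cons (.ev (nat_lit 5253144090986764236542599313227777) (nat_lit 2)) (.cons (.ev (nat_lit 5253144088559467863784660276346883) (nat_lit 2)) (.cons (.ev (nat_lit 2663668570841611206703308825371344897) (nat_lit 2)) (.cons (.br (nat_lit 5) (nat_lit 0) (.cons (.br (nat_lit 12) (nat_lit 0) (.cons (.ev (nat_lit 340287559297335854740908717798341017600) (nat_lit 1)) (.cons (.br (nat_lit 16) (nat_lit 0) (.cons (.ev (nat_lit 341611594996262235786183994362292142080) (nat_lit 1)) .nil)) .nil))) (.cons (.br (nat_lit 11) (nat_lit 0) (.cons (.ev (nat_lit 340287559297335854740908717798341017600) (nat_lit 1)) (.cons (.rf (nat_lit 76) (nat_lit 21174442659472880577906720)) .nil))) (.cons (.br (nat_lit 11) (nat_lit 0) (.cons (.ev (nat_lit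 340287559297335854740908717798341017600) (nat_lit 1)) (.cons (.rf (nat_lit 77) (nat_lit 21174442659472880612509728)) .nil))) (.cons (.rf (nat_lit 42) (nat_lit 677581020287015121334667296)) .nil))))) .nil)))))),
 (.br (nat_lit 15) (nat_lit 0) (.cons (.ev (nat_lit 1329248278505213478661935878652363008) (nat_lit 1)) .nil)),
 (.br (nat_lit 15) (nat_lit 0) (.cons (.ev (nat_lit 1334420292954144654620042427747074048) (nat_lit 1)) .nil)),
 (.br (nat_lit 5) (nat_lit 0) (.cons (.ev (nat_lit 341616807575530374265482948805872648449) (nat_lit 1)) (.cons (.br (nat_lit 12) (nat_lit 0) (.cons (.ev (nat_lit 340282387282886923564950611249246306305) (nat_lit 1)) .nil)) .nil))),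
 (.br (nat_lit 8) (nat_lit 0) (.cons (.ev (nat_lit 5253144090986764236542599313227777) (nat_lit 2)) (.cons (.ev (nat_lit 5253144090986764236542599279673347) (nat_lit 2)) (.cons (.ev (nat_lit 2663668570839183910330550886334464513) (nat_lit 2)) (.cons (.ev (nat_lit 5253144090986764236542599313228291) (nat_lit 2)) (.cons (.br (nat_lit 2) (nat_lit 0) (.cons (.br (nat_lit 12) (nat_lit 0) (.cons (.ev (nat_lit 341616807575530374265482948805872648449) (nat_lit 1)) (.cons (.rf (nat_lit 79) (nat_lit 21174442659472880577906720)) .nil))) (.cons (.br (nat_lit 5) (nat_lit 0) (.cons (.ev (nat_lit 341616807575530374265482948805872648449) (nat_lit 1)) (.cons (.rf (nat_lit 80) (nat_lit 21174442659472880577906720)) .nil))) (.cons (.rf (nat_lit 81) (nat_lit 677582165103132179601393696)) (.cons (.br (nat_lit 5) (nat_lit 0) (.cons (.rf (nat_lit 80) (nat_lit 21174442659472880477148195)) (.cons (.rf (nat_lit 81) (nat_lit 677582165103132179500635171)) (.cons (.ev (nat_lit 87112285931760246651364784787070071603201) (nat_lit 1)) .nil)))) .nil))))) .nil))))))]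

theorem c2 : chkAll C T R L2 (nat_lit 58) = true := by decide +kernel

theorem l2 : (nat_lit 58) + L2.length = (nat_lit 83) := by decide +kernel

/-- part of the certificates -/
def L3 : List Prf := [(.br (nat_lit 15) (nat_lit 0) (.cons (.ev (nat_lit 1329248278505213478661935878652363008) (nat_lit 1)) .nil)),
 (.br (nat_lit 15) (nat_lit 0) (.cons (.ev (nat_lit 1334440654591910820554803968542310400) (nat_lit 1)) .nil)),
 (.br (nat_lit 11) (nat_lit 0) (.cons (.ev (nat_lit 341616807575529170062029535567054700800) (nat_lit 1)) (.cons (.rf (nat_lit 77) (nat_lit 21157493308232076219560430)) .nil))),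
 (.br (nat_lit 8) (nat_lit 0) (.cons (.ev (nat_lit 5253144088559467863784660276346883) (nat_lit 2)) (.cons (.ev (nat_lit 5253144088559467863784660309901313) (nat_lit 2)) (.cons (.ev (nat_lit 2663668570839183910330550886334464513) (nat_lit 2)) (.cons (.ev (nat_lit 5253144088559467863784660276347393) (nat_lit 2)) (.cons (.br (nat_lit 2) (nat_lit 0) (.cons (.br (nat_lit 11) (nat_lit 0) (.cons (.ev (nat_lit 341616807575529170062029535567054700800) (nat_lit 1)) (.cons (.rf (nat_lit 83) (nat_lit 21174442659472880577906720)) .nil))) (.cons (.br (nat_lit 5) (nat_lit 0) (.cons (.ev (nat_lit 341616807575529170062029535567054700800) (nat_lit 1)) (.cons (.rf (nat_lit 84) (nat_lit 21174442659472880577906720)) .nil))) (.cons (.rf (nat_lit 85) (nat_lit 677582165103132179601393696)) (.cons (.br (nat_lit 5) (nat_lit 0) (.cons (.rf (nat_lit 84) (nat_lit 21174442659472880477148195)) (.cons (.rf (nat_lit 85) (nat_lit 677582165103132179500635171)) (.cons (.ev (nat_lit 87112291144339514789844083741513652109313) (nat_lit 1)) .nil)))) .nil))))) .nil)))))),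
 (.br (nat_lit 9) (nat_lit 0) (.cons (.ev (nat_lit 5192376396182351714495737381257216) (nat_lit 1)) .nil)),
 (.br (nat_lit 12) (nat_lit 0) (.cons (.ev (nat_lit 1329227995786124817242504836474208513) (nat_lit 1)) .nil)),
 (.br (nat_lit 11) (nat_lit 0) (.cons (.ev (nat_lit 340282387282885719361497198010445136128) (nat_lit 1)) (.cons (.rf (nat_lit 87) (nat_lit 20661614558820386943055)) .nil))),
 (.br (nat_lit 8) (nat_lit 0) (.cons (.ev (nat_lit 2663668570841611206703308825371344897) (nat_lit 2)) (.cons (.ev (nat_lit 2663668570841611206703308825337790467) (nat_lit 2)) (.cons (.ev (nat_lit 5253144090986764236542599313228291) (nat_lit 2)) (.cons (.ev (nat_lit 5253144088559467863784660276347393) (nat_lit 2)) (.cons (.br (nat_lit 2) (nat_lit 0) (.cons (.br (nat_lit 11) (nat_lit 0) (.cons (.ev (nat_lit 340287559297335854740908717798341017857) (nat_lit 1)) (.cons (.rf (nat_lit 87) (nat_lit 20678166659641484973121)) .nil))) (.cons (.br (nat_lit 5) (nat_lit 0) (.cons (.ev (nat_lit 340287559297335854740908717798341017857) (nat_lit 1)) (.cons (.rf (nat_lit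 88) (nat_lit 661698952883485750167584)) .nil))) (.cons (.rf (nat_lit 89) (nat_lit 677582165103132179601393696)) (.cons (.br (nat_lit 5) (nat_lit 0) (.cons (.rf (nat_lit 88) (nat_lit 661698952883485649409059)) (.cons (.rf (nat_lit 89) (nat_lit 677582165103132179500635171)) (.cons (.ev (nat_lit 87113620352052891306268770537865465561088) (nat_lit 1)) .nil)))) .nil))))) .nil)))))),
 (.br (nat_lit 13) (nat_lit 0) (.cons (.ev (nat_lit 20282720297587311384744662466816) (nat_lit 1)) (.cons (.ev (nat_lit 20361638975091754377269481636096) (nat_lit 1)) .nil))),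
 (.br (nat_lit 16) (nat_lit 0) (.cons (.ev (nat_lit 2663668570841611206703308825371345411) (nat_lit 2)) (.cons (.ev (nat_lit 340282366920939677111560987509388280065) (nat_lit 1)) (.cons (.ev (nat_lit 341611615199134196636135218516919910657) (nat_lit 1)) .nil)))),
 (.br (nat_lit 8) (nat_lit 0) (.cons (.rf (nat_lit 1) (nat_lit 582170201730274)) (.cons (.ev (nat_lit 5253144090986764236542599313228291) (nat_lit 2)) (.cons (.br (nat_lit 12) (nat_lit 0) (.cons (.rf (nat_lit 92) (nat_lit 677582165103132179601393696)) (.cons (.ev (nat_lit 87113615159835569210039407793922958688256) (nat_lit 1)) .nil))) .nil)))),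
 (.br (nat_lit 8) (nat_lit 0) (.cons (.rf (nat_lit 1) (nat_lit 582169127989474)) (.cons (.ev (nat_lit 5253144088559467863784660276347393) (nat_lit 2)) (.cons (.br (nat_lit 11) (nat_lit 0) (.cons (.br (nat_lit 16) (nat_lit 0) (.cons (.ev (nat_lit 341611615199132982987948839538811535616) (nat_lit 1)) .nil)) (.cons (.ev (nat_lit 87113615159835569210039407793922958688256) (nat_lit 1)) .nil))) .nil)))),
 (.br (nat_lit 15) (nat_lit 0) (.cons (.ev (nat_lit 1329227995784920613717035103163580673) (nat_lit 1)) (.cons (.ev (nat_lit 1334440575053059093015989546744086785) (nat_lit 1)) .nil))),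
 (.br (nat_lit 8) (nat_lit 0) (.cons (.br (nat_lit 11) (nat_lit 0) (.cons (.rf (nat_lit 1) (nat_lit 582170302455970)) (.cons (.rf (nat_lit 95) (nat_lit 21174442659472880577906720)) (.cons (.br (nat_lit 12) (nat_lit 0) (.cons (.rf (nat_lit 95) (nat_lit 21174406883969222406312995)) (.cons (.ev (nat_lit 87113620372414838562166892845865375891457) (nat_lit 1)) .nil))) .nil)))) (.cons (.ev (nat_lit 5253144090986764236542599313227777) (nat_lit 2)) (.cons (.ev (nat_lit 5253144088559467863784660276346883) (nat_lit 2)) (.cons (.br (nat_lit 5) (nat_lit 0) (.cons (.br (nat_lit 16) (nat_lit 0) (.cons (.ev (nat_lit 340287579500206601942673844454132089088) (nat_lit 1)) (.cons (.ev (nat_lit 341611615199132982987949121018083213568) (nat_lit 1)) .nil))) (.cons (.rf (nat_lit 95) (nat_lit 21174406879465627073909795)) (.cons (.ev (nat_lit 340282366920938463463374890010568359936) (nat_lit 1)) (.cons (.br (nat_lit 16) (nat_lit 0) (.cons (.ev (nat_lit 341611615199132982987949121018083213568) (nat_lit 1)) (.cons (.ev (nat_lit 341616787213581914163907227567161147648)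 (nat_lit 1)) (.cons (.ev (nat_lit 340287579500207815590859660473697108225) (nat_lit 1)) .nil)))) .nil))))) (.cons (.ev (nat_lit 2663668570841611206703308825371344897) (nat_lit 2)) .nil)))))),
 (.br (nat_lit 8) (nat_lit 0) (.cons (.ev (nat_lit 340282366920938463463374890010568359936) (nat_lit 1)) (.cons (.ev (nat_lit 5253144090986764236542599313228291) (nat_lit 2)) (.cons (.ev (nat_lit 5253144088559467863784660276347393) (nat_lit 2)) (.cons (.ev (nat_lit 2663668570841611206703308825371345411) (nat_lit 2)) .nil))))),
 (.br (nat_lit 5) (nat_lit 0) (.cons (.rf (nat_lit 96) (nat_lit 677582165103132179500635171)) (.cons (.rf (nat_lit 96) (nat_lit 677581020287015121233908771)) (.cons (.br (nat_lit 7) (nat_lit 0) (.cons (.rf (nat_lit 1) (nat_lit 582165873406114)) (.cons (.br (nat_lit 8) (nat_lit 0) (.cons (.ev (nat_lit 340287579500206601942673844454132089088) (nat_lit 1)) (.cons (.ev (nat_lit 2663668570841611206703308825371345411) (nat_lit 2)) .nil))) (.cons (.br (nat_lit 8) (nat_lit 0) (.cons (.ev (nat_lit 2663668570841611206703308825371345411)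 (nat_lit 2)) (.cons (.ev (nat_lit 87113620372414837348518706748366555971585) (nat_lit 1)) .nil))) .nil)))) (.cons (.br (nat_lit 16) (nat_lit 0) (.cons (.rf (nat_lit 97) (nat_lit 677582165103132179601393696)) (.cons (.rf (nat_lit 97) (nat_lit 677581020287015121334667296)) (.cons (.ev (nat_lit 340287579500206601942673562974860410881) (nat_lit 1)) (.cons (.ev (nat_lit 341611615199132982987948839538811535361) (nat_lit 1)) .nil))))) (.cons (.br (nat_lit 7) (nat_lit 0) (.cons (.br (nat_lit 12) (nat_lit 0) (.cons (.br (nat_lit 16) (nat_lit 0) (.cons (.ev (nat_lit 340287579500206601942673562974877188353) (nat_lit 1)) .nil)) (.cons (.ev (nat_lit 87112291124136644042642318896337099161600) (nat_lit 1)) .nil))) (.cons (.br (nat_lit 8) (nat_lit 0) (.cons (.ev (nat_lit 5253144088559467863784660276347393) (nat_lit 2)) (.cons (.ev (nat_lit 87112291124136644042642318896337099161600) (nat_lit 1)) .nil))) (.cons (.br (nat_lit 8) (nat_lit 0) (.cons (.ev (nat_lit 5253144088559467863784660276347393) (nat_lit 2)) (.cons (.ev (nat_lit 341611615199132982987949121018083213568)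 (nat_lit 1)) (.cons (.ev (nat_lit 2663668570841611206703308825371345411) (nat_lit 2)) .nil)))) (.cons (.br (nat_lit 8) (nat_lit 0) (.cons (.ev (nat_lit 87112291124136644042642318896337099161600) (nat_lit 1)) (.cons (.ev (nat_lit 2663668570841611206703308825371345411) (nat_lit 2)) .nil))) .nil))))) .nil)))))),
 (.br (nat_lit 5) (nat_lit 0) (.cons (.rf (nat_lit 96) (nat_lit 677582165103132179500635171)) (.cons (.rf (nat_lit 96) (nat_lit 677581020287015121233908771)) (.cons (.rf (nat_lit 98) (nat_lit 677582165103132179500635171)) (.cons (.rf (nat_lit 98) (nat_lit 677581020287015121233908771)) (.cons (.ev (nat_lit 340282366920938463463374608531279905024) (nat_lit 1)) (.cons (.br (nat_lit 16) (nat_lit 0) (.cons (.rf (nat_lit 97) (nat_lit 677582165103132179500635171)) (.cons (.rf (nat_lit 97) (nat_lit 677581020287015121233908771)) (.cons (.ev (nat_lit 341611615199132982987948839538828312576) (nat_lit 1)) (.cons (.ev (nat_lit 341616787213581914163906946087906246656) (nat_lit 1)) (.cons (.ev (nat_lit 340282366920938463463374608531296681984) (nat_lit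 1)) .nil)))))) .nil))))))),
 (.br (nat_lit 15) (nat_lit 0) (.cons (.ev (nat_lit 340287559297026369749533835324037332993) (nat_lit 1)) .nil)),
 (.br (nat_lit 13) (nat_lit 0) (.cons (.rf (nat_lit 100) (nat_lit 19926296754952522617161760)) (.cons (.ev (nat_lit 340282367000477319931726649896432893953) (nat_lit 1)) .nil))),
 (.br (nat_lit 5) (nat_lit 0) (.cons (.ev (nat_lit 20520716702158665265990057721857) (nat_lit 2)) (.cons (.ev (nat_lit 20520714274862292508051087949827) (nat_lit 2)) (.cons (.ev (nat_lit 2658476353830208875944204923530510337) (nat_lit 2)) (.cons (.br (nat_lit 8) (nat_lit 0) (.cons (.rf (nat_lit 1) (nat_lit 616257214061633)) (.cons (.br (nat_lit 14) (nat_lit 0) (.cons (.ev (nat_lit 341616807575220889274180404305383653632) (nat_lit 1)) (.cons (.rf (nat_lit 100) (nat_lit 21174442659472880577906720)) .nil))) (.cons (.rf (nat_lit 101) (nat_lit 21174442659472880577906720)) .nil)))) .nil))))),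
 (.br (nat_lit 15) (nat_lit 0) (.cons (.ev (nat_lit 1329248278504009256834398014916264193) (nat_lit 1)) .nil)),
 (.br (nat_lit 13) (nat_lit 0) (.cons (.ev (nat_lit 1334440654590706598727266104789434625) (nat_lit 1)) (.cons (.rf (nat_lit 103) (nat_lit 19926519232773908561233952)) .nil))),
 (.br (nat_lit 5) (nat_lit 0) (.cons (.ev (nat_lit 20520716702158665265990057721857) (nat_lit 2)) (.cons (.ev (nat_lit 20520714274862293070992417882113) (nat_lit 2)) (.cons (.ev (nat_lit 2658476353830208875943641982200578051) (nat_lit 2)) (.cons (.br (nat_lit 7) (nat_lit 0) (.cons (.rf (nat_lit 1) (nat_lit 616257180508225)) (.cons (.rf (nat_lit 104) (nat_lit 21174442659472880612509728)) (.cons (.br (nat_lit 17) (nat_lit 0) (.cons (.ev (nat_lit 87112285952122193902522022093111339057153) (nat_lit 1)) (.cons (.ev (nat_lit 87113615180038751860084114975816893399040) (nat_lit 1)) .nil))) .nil)))) .nil))))),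
 (.br (nat_lit 17) (nat_lit 0) (.cons (.ev (nat_lit 87112285931760557340559540744809361768448) (nat_lit 1)) (.cons (.ev (nat_lit 87113615159835570418946708889463186063360) (nat_lit 1)) .nil))),
 (.br (nat_lit 5) (nat_lit 0) (.cons (.ev (nat_lit 20520714274862292508051087949827) (nat_lit 2)) (.cons (.ev (nat_lit 20520714274862293070992417882113) (nat_lit 2)) (.cons (.ev (nat_lit 2658476353827781579572009925890670593) (nat_lit 2)) (.cons (.br (nat_lit 7) (nat_lit 0) (.cons (.rf (nat_lit 1) (nat_lit 616250738063425)) (.cons (.br (nat_lit 8) (nat_lit 0) (.cons (.ev (nat_lit 341616807575219685070727272545854161152) (nat_lit 1)) (.cons (.rf (nat_lit 100) (nat_lit 21174220181617176771397664)) .nil))) (.cons (.rf (nat_lit 106) (nat_lit 677582165103132179601393696)) .nil)))) .nil))))),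
 (.br (nat_lit 13) (nat_lit 0) (.cons (.ev (nat_lit 1329248357422686761277390539735433473) (nat_lit 1)) (.cons (.br (nat_lit 15) (nat_lit 0) (.cons (.ev (nat_lit 1334440575053059074641583442520703233) (nat_lit 1)) .nil)) .nil))),
 (.br (nat_lit 5) (nat_lit 0) (.cons (.ev (nat_lit 2658476353830208875944204923530510337) (nat_lit 2)) (.cons (.ev (nat_lit 2658476353830208875943641982200578051) (nat_lit 2)) (.cons (.ev (nat_lit 2658476353827781579572009925890670593) (nat_lit 2)) (.cons (.ev (nat_lit 20520716702158664703048727789571) (nat_lit 2)) (.cons (.br (nat_lit 7) (nat_lit 0) (.cons (.rf (nat_lit 108) (nat_lit 21174442659472880612509728)) (.cons (.br (nat_lit 8) (nat_lit 0) (.cons (.ev (nat_lit 340287579500207810887011978172270903553) (nat_lit 1)) (.cons (.rf (nat_lit 45) (nat_lit 661700886961751639530857)) .nil))) (.cons (.br (nat_lit 8) (nat_lit 0) (.cons (.ev (nat_lit 340287579500207810887011978172270903553) (nat_lit 1)) (.cons (.rf (nat_lit 46) (nat_lit 677580949552101580660350313)) .nil))) (.cons (.br (nat_lit 17) (nat_lit 0) (.cons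 (.ev (nat_lit 87113615180038751860084114975816893399040) (nat_lit 1)) (.cons (.ev (nat_lit 87113615180038750655880661562578075451393) (nat_lit 1)) (.cons (.ev (nat_lit 87112285952122195106725475506350157004800) (nat_lit 1)) .nil)))) .nil))))) .nil)))))),
 (.br (nat_lit 15) (nat_lit 0) (.cons (.kr (nat_lit 20361637770888301244414735417345) (nat_lit 2658455991571040671627510224728883200) (nat_lit 0) (nat_lit 1)) (.cons (.kr (nat_lit 2658455991571040671627510224712105985) (nat_lit 20361637770888301244414752194560) (nat_lit 0) (nat_lit 1)) (.cons (.kr (nat_lit 20282409608374036906816896499712) (nat_lit 1329227995786124798723421689455050752) (nat_lit 9) (nat_lit 0)) (.cons (.kr (nat_lit 79228162514264337593543950336) (nat_lit 1329227995784915872903807060280344576) (nat_lit 12) (nat_lit 0)) (.cons (.kr (nat_lit 20282409603651670423947251286016) (nat_lit 1329227995784915872903807060280344576) (nat_lit 13) (nat_lit 0)) (.cons (.br (nat_lit 2) (nat_lit 0) (.cons (.ev (nat_lit 20520716702158664703048694235137) (nat_lit 2)) (.cons (.rf (nat_lit 102)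 (nat_lit 19926519232773908561233952)) (.cons (.rf (nat_lit 105) (nat_lit 19926519232773908561233952)) (.cons (.rf (nat_lit 107) (nat_lit 19926519232773908561233952)) (.cons (.rf (nat_lit 109) (nat_lit 19926519232773908561233952)) (.cons (.br (nat_lit 5) (nat_lit 0) (.cons (.rf (nat_lit 102) (nat_lit 19926519232773908460475427)) (.cons (.rf (nat_lit 105) (nat_lit 19926519232773908460475427)) (.cons (.rf (nat_lit 107) (nat_lit 19926519232773908460475427)) (.cons (.rf (nat_lit 109) (nat_lit 19926519232773908460475427)) (.cons (.ev (nat_lit 20520716702158664703048727789571) (nat_lit 2)) .nil)))))) .nil))))))) .nil))))))),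
 (.br (nat_lit 8) (nat_lit 0) (.cons (.ev (nat_lit 2668861106003594152034013559094510081) (nat_lit 2)) (.cons (.ev (nat_lit 340282387282577443277495467570895061248) (nat_lit 1)) (.cons (.br (nat_lit 14) (nat_lit 0) (.cons (.ev (nat_lit 340282366920939677111560706030099824896) (nat_lit 1)) (.cons (.ev (nat_lit 2668861106001185745128312981432566275) (nat_lit 2)) .nil))) .nil))))]

theorem c3 : chkAll C T R L3 (nat_lit 83) = true := by decide +kernel

theorem l3 : (nat_lit 83) + L3.length = (nat_lit 112) := by decide +kernel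

/-- part of the certificates -/
def L4 : List Prf := [(.br (nat_lit 8) (nat_lit 0) (.cons (.br (nat_lit 14) (nat_lit 0) (.cons (.ev (nat_lit 2668861106001185745128312981399011841) (nat_lit 2)) (.cons (.rf (nat_lit 1) (nat_lit 582139163943074)) .nil))) (.cons (.ev (nat_lit 2668861106003594152034013559094509571) (nat_lit 2)) (.cons (.br (nat_lit 5) (nat_lit 0) (.cons (.ev (nat_lit 2668861106001185745128312981399011841) (nat_lit 2)) (.cons (.ev (nat_lit 340282387282577443277495467570895060993) (nat_lit 1)) (.cons (.br (nat_lit 16) (nat_lit 0) (.cons (.ev (nat_lit 2668861106001185745128312981432565761) (nat_lit 2)) (.cons (.ev (nat_lit 340282387282577443277495467570911838465) (nat_lit 1)) .nil))) .nil)))) (.cons (.br (nat_lit 14) (nat_lit 0) (.cons (.rf (nat_lit 1) (nat_lit 581933005519010)) (.cons (.rf (nat_lit 6) (nat_lit 20661614548717792468329)) (.cons (.ev (nat_lit 2668861106001185745128312981432565761) (nat_lit 2)) .nil)))) .nil))))),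
 (.br (nat_lit 8) (nat_lit 0) (.cons (.ev (nat_lit 2668861106001185745128312981399011841) (nat_lit 2)) (.cons (.ev (nat_lit 2668861106001185745128312981432565761) (nat_lit 2)) (.cons (.rf (nat_lit 6) (nat_lit 20661614548717785102698)) .nil)))),
 (.br (nat_lit 5) (nat_lit 0) (.cons (.rf (nat_lit 112) (nat_lit 19926519232773908460475427)) (.cons (.rf (nat_lit 112) (nat_lit 19775289513690499496547363)) (.cons (.br (nat_lit 7) (nat_lit 0) (.cons (.ev (nat_lit 2668861106001185745127750040035524611) (nat_lit 2)) (.cons (.ev (nat_lit 340282387282576229629309651551363596288) (nat_lit 1)) (.cons (.br (nat_lit 8) (nat_lit 0) (.cons (.ev (nat_lit 340282366920939677111560987509388279808) (nat_lit 1)) (.cons (.ev (nat_lit 2668861106001185745128312981432565761) (nat_lit 2)) .nil))) .nil)))) (.cons (.br (nat_lit 7) (nat_lit 0) (.cons (.ev (nat_lit 2668861106001185745127750040035524611) (nat_lit 2)) (.cons (.rf (nat_lit 113) (nat_lit 19926519232773908561233952)) (.cons (.br (nat_lit 8) (nat_lit 0) (.cons (.rf (nat_lit 6) (nat_lit 20661614548716578290157))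 (.cons (.ev (nat_lit 2668861106001185745128312981432565761) (nat_lit 2)) .nil))) .nil)))) .nil))))),
 (.br (nat_lit 8) (nat_lit 0) (.cons (.ev (nat_lit 2668861106003594152034013559094510081) (nat_lit 2)) (.cons (.br (nat_lit 14) (nat_lit 0) (.cons (.ev (nat_lit 2668861106001185745128312981432566275) (nat_lit 2)) .nil)) .nil))),
 (.br (nat_lit 5) (nat_lit 0) (.cons (.rf (nat_lit 112) (nat_lit 19926519232773908460475427)) (.cons (.rf (nat_lit 112) (nat_lit 19775289513690499496547363)) (.cons (.rf (nat_lit 114) (nat_lit 19926519232773908460475427)) (.cons (.ev (nat_lit 340282366920938463463374608531279905024) (nat_lit 1)) (.cons (.br (nat_lit 16) (nat_lit 0) (.cons (.rf (nat_lit 115) (nat_lit 677582165103132179601393696)) (.cons (.rf (nat_lit 115) (nat_lit 677430935384048770637465632)) (.cons (.br (nat_lit 7) (nat_lit 0) (.cons (.ev (nat_lit 2668861106001185745127750040035525121) (nat_lit 2)) (.cons (.br (nat_lit 8) (nat_lit 0) (.cons (.ev (nat_lit 2668861106001185745128312981432566275) (nat_lit 2)) .nil)) .nil))) (.cons (.ev (nat_lit 340282366920938463463374608531296681984)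 (nat_lit 1)) .nil))))) .nil)))))),
 (.br (nat_lit 16) (nat_lit 0) (.cons (.ev (nat_lit 340282366920938463463374890010551582976) (nat_lit 1)) (.cons (.kr (nat_lit 20283028573671313395559694336001) (nat_lit 79229376162450435096658838016) (nat_lit 0) (nat_lit 2)) (.cons (.ev (nat_lit 340282366920939677111560706030116602113) (nat_lit 1)) (.cons (.kr (nat_lit 2658455991571040671627510224728883201) (nat_lit 20361637770888301244414735417856) (nat_lit 0) (nat_lit 2)) (.cons (.ev (nat_lit 174905136617882467942868837267100814934017) (nat_lit 2)) .nil)))))),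
 (.br (nat_lit 10) (nat_lit 0) (.cons (.br (nat_lit 12) (nat_lit 0) (.cons (.rf (nat_lit 34) (nat_lit 15733177005133699057696)) (.cons (.br (nat_lit 14) (nat_lit 1) (.cons (.br (nat_lit 13) (nat_lit 0) (.cons (.br (nat_lit 1) (nat_lit 0) (.cons (.kr (nat_lit 1) (nat_lit 256) (nat_lit 0) (nat_lit 2)) (.cons (.kr (nat_lit 256) (nat_lit 16777216) (nat_lit 1) (nat_lit 0)) (.cons (.kr (nat_lit 20282409608374037188291889987585) (nat_lit 79229371440083952227013624320) (nat_lit 0) (nat_lit 2)) (.cons (.kr (nat_lit 79229371440084233697712144385) (nat_lit 20282409608374036906821191467520) (nat_lit 0) (nat_lit 2)) (.cons (.rf (nat_lit 110) (nat_lit 583706118939841765935136)) (.cons (.kr (nat_lit 20282410812577490320051419480065) (nat_lit 79228167236630820467484131840) (nat_lit 0) (nat_lit 2)) (.cons (.rf (nat_lit 110) (nat_lit 432476399856432802007072)) (.cons (.br (nat_lit 11) (nat_lit 0) (.cons (.kr (nat_lit 79229376162450435096658837505) (nat_lit 20283028573671313395559694336000) (nat_lit 0) (nat_lit 1)) (.cons (.kr (nat_lit 20283028573671313395559677558785)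 (nat_lit 79229376162450435096675614720) (nat_lit 0) (nat_lit 1)) (.cons (.kr (nat_lit 4722366482869645213696) (nat_lit 309485009821345068724781056) (nat_lit 9) (nat_lit 0)) (.cons (.kr (nat_lit 79229371440083952222718656512) (nat_lit 20282719088661491769015976067072) (nat_lit 10) (nat_lit 0)) (.cons (.kr (nat_lit 1208925819614629174706176) (nat_lit 309485009821345068724781056) (nat_lit 10) (nat_lit 0)) (.cons (.br (nat_lit 2) (nat_lit 0) (.cons (.br (nat_lit 7) (nat_lit 0) (.cons (.br (nat_lit 14) (nat_lit 0) (.cons (.ev (nat_lit 2668861106001185745127750040035525121) (nat_lit 2)) (.cons (.rf (nat_lit 1) (nat_lit 582139163877602)) .nil))) (.cons (.br (nat_lit 8) (nat_lit 0) (.cons (.ev (nat_lit 2668861106003594152034576500491551235) (nat_lit 2)) (.cons (.rf (nat_lit 1) (nat_lit 581933005453538)) .nil))) (.cons (.rf (nat_lit 111) (nat_lit 19926519232773908561233952)) (.cons (.br (nat_lit 8) (nat_lit 0) (.cons (.rf (nat_lit 1) (nat_lit 581898645715202)) (.cons (.rf (nat_lit 111) (nat_lit 19775289513690499597305888)) (.cons (.br (nat_lit 14)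 (nat_lit 0) (.cons (.ev (nat_lit 2668861106001185745128312981432566275) (nat_lit 2)) (.cons (.ev (nat_lit 87113620352053199582352771986825743958016) (nat_lit 1)) .nil))) .nil)))) .nil))))) (.cons (.rf (nat_lit 112) (nat_lit 19926519232773908561233952)) (.cons (.rf (nat_lit 112) (nat_lit 19775289513690499597305888)) (.cons (.rf (nat_lit 114) (nat_lit 19926519232773908561233952)) (.cons (.rf (nat_lit 116) (nat_lit 19926519232773908561233952)) (.cons (.br (nat_lit 5) (nat_lit 0) (.cons (.rf (nat_lit 112) (nat_lit 19926519232773908460475427)) (.cons (.rf (nat_lit 112) (nat_lit 19775289513690499496547363)) (.cons (.rf (nat_lit 114) (nat_lit 19926519232773908460475427)) (.cons (.rf (nat_lit 116) (nat_lit 19926519232773908460475427)) (.cons (.br (nat_lit 7) (nat_lit 0) (.cons (.br (nat_lit 14) (nat_lit 0) (.cons (.ev (nat_lit 2668861106001185745127750040035525121) (nat_lit 2)) (.cons (.ev (nat_lit 87113620372414838562166893127344630792192) (nat_lit 1)) .nil))) (.cons (.br (nat_lit 8) (nat_lit 0) (.cons (.ev (nat_lit 2668861106003594152034576500491551235)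 (nat_lit 2)) (.cons (.ev (nat_lit 87113620372414838562166893127344630792192) (nat_lit 1)) .nil))) (.cons (.rf (nat_lit 117) (nat_lit 677582165103132179601393696)) (.cons (.br (nat_lit 8) (nat_lit 0) (.cons (.ev (nat_lit 87113620372414838562166893127344630792192) (nat_lit 1)) (.cons (.rf (nat_lit 117) (nat_lit 677430935384048770637465632)) .nil))) .nil))))) .nil)))))) .nil))))))) (.cons (.kr (nat_lit 20283028573671313395559694336001) (nat_lit 79229376162450435096658838016) (nat_lit 0) (nat_lit 2)) (.cons (.br (nat_lit 15) (nat_lit 0) (.cons (.kr (nat_lit 20361637770888301244414735417345) (nat_lit 2658455991571040671627510224728883200) (nat_lit 0) (nat_lit 1)) (.cons (.kr (nat_lit 2658455991571040671627510224712105985) (nat_lit 20361637770888301244414752194560) (nat_lit 0) (nat_lit 1)) (.cons (.kr (nat_lit 20282409608374036906816896499712) (nat_lit 1329227995786124798723421689455050752) (nat_lit 9) (nat_lit 0)) (.cons (.kr (nat_lit 79228162514264337593543950336) (nat_lit 1329227995784915872903807060280344576) (nat_lit 12) (nat_lit 0)) (.cons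 (.kr (nat_lit 20282409603651670423947251286016) (nat_lit 1329227995784915872903807060280344576) (nat_lit 13) (nat_lit 0)) (.cons (.kr (nat_lit 2658455991571040671627510224728883201) (nat_lit 20361637770888301244414735417856) (nat_lit 0) (nat_lit 2)) (.cons (.kr (nat_lit 1329227995786124798723421689455050752) (nat_lit 20282719088661491769015976067072) (nat_lit 10) (nat_lit 0)) .nil)))))))) .nil))))))))) .nil))))))))) .nil)) .nil)) .nil))) .nil)),
 (.br (nat_lit 8) (nat_lit 0) (.cons (.ev (nat_lit 2689630611588342448358493127654639111) (nat_lit 3)) (.cons (.rf (nat_lit 1) (nat_lit 581932875626561)) .nil))),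
 (.br (nat_lit 16) (nat_lit 0) (.cons (.ev (nat_lit 340287579500517295878314804152048353537) (nat_lit 1)) (.cons (.ev (nat_lit 341611615199442472720136667477181530113) (nat_lit 1)) .nil))),
 (.br (nat_lit 5) (nat_lit 0) (.cons (.ev (nat_lit 10404955977446785393651795628261891) (nat_lit 2)) (.cons (.ev (nat_lit 10404955977446785393088854298329601) (nat_lit 2)) (.cons (.ev (nat_lit 2668861106620155727733967140044408327) (nat_lit 3)) (.cons (.br (nat_lit 15) (nat_lit 0) (.cons (.rf (nat_lit 119) (nat_lit 19926519232773908561233952)) (.cons (.rf (nat_lit 119) (nat_lit 19926405097027140168288288)) (.cons (.ev (nat_lit 2658476353827781579572009925890670593) (nat_lit 2)) (.cons (.br (nat_lit 7) (nat_lit 0) (.cons (.rf (nat_lit 1) (nat_lit 582165877602369)) (.cons (.rf (nat_lit 120) (nat_lit 677582165103132179601393696)) (.cons (.br (nat_lit 8) (nat_lit 0) (.cons (.rf (nat_lit 120) (nat_lit 677582050967385411208448032)) (.cons (.ev (nat_lit 87113615180038442375092812149837115949056) (nat_lit 1)) .nil))) .nil)))) .nil))))) .nil))))),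
 (.br (nat_lit 8) (nat_lit 0) (.cons (.ev (nat_lit 10404955358476802787999853286785027) (nat_lit 2)) (.cons (.ev (nat_lit 10404955358476802787999853320339457) (nat_lit 2)) (.cons (.ev (nat_lit 2668861105382215762524352079451914759) (nat_lit 3)) (.cons (.br (nat_lit 15) (nat_lit 0) (.cons (.rf (nat_lit 121) (nat_lit 547107778697602015528992)) (.cons (.rf (nat_lit 121) (nat_lit 547107778697601914770467)) (.cons (.ev (nat_lit 2658476353208811596966357983549194753) (nat_lit 2)) (.cons (.br (nat_lit 2) (nat_lit 0) (.cons (.rf (nat_lit 1) (nat_lit 582172323189825)) (.cons (.br (nat_lit 5) (nat_lit 0) (.cons (.ev (nat_lit 340287579500207810887011978172287680513) (nat_lit 1)) (.cons (.rf (nat_lit 44) (nat_lit 640100597063968412661716003)) .nil))) (.cons (.br (nat_lit 5) (nat_lit 0) (.cons (.rf (nat_lit 44) (nat_lit 640100597063968412762474528)) (.cons (.ev (nat_lit 87113615180038751860084114694337604944128) (nat_lit 1)) .nil))) .nil)))) .nil))))) .nil))))),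
 (.br (nat_lit 5) (nat_lit 0) (.cons (.ev (nat_lit 309485065377751180102402818) (nat_lit 2)) (.cons (.ev (nat_lit 2668861106625010320478357135223423489) (nat_lit 3)) (.cons (.br (nat_lit 8) (nat_lit 0) (.cons (.ev (nat_lit 8006542275956018564652013481699049989) (nat_lit 3)) (.cons (.ev (nat_lit 20838872118550592223067236598275) (nat_lit 3)) .nil))) .nil)))),
 (.br (nat_lit 7) (nat_lit 0) (.cons (.ev (nat_lit 2668861106625010320478357135223423489) (nat_lit 3)) (.cons (.ev (nat_lit 1363798328789136069616022218865127719425) (nat_lit 3)) (.cons (.br (nat_lit 8) (nat_lit 0) (.cons (.ev (nat_lit 2668861106625010320477231252563558917) (nat_lit 3)) (.cons (.ev (nat_lit 1363798328789136069616021092982333637125) (nat_lit 3)) .nil))) .nil)))),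
 (.br (nat_lit 8) (nat_lit 0) (.cons (.ev (nat_lit 340287579500517295878314804152048353537) (nat_lit 1)) (.cons (.ev (nat_lit 18681904620198474230089387005610426379) (nat_lit 4)) .nil))),
 (.br (nat_lit 8) (nat_lit 0) (.cons (.ev (nat_lit 20838872118550592223067236598275) (nat_lit 3)) (.cons (.rf (nat_lit 41) (nat_lit 677539519693080464623503392)) .nil))),
 (.br (nat_lit 5) (nat_lit 0) (.cons (.ev (nat_lit 309485065377751180102402818) (nat_lit 2)) (.cons (.rf (nat_lit 126) (nat_lit 677582165103132179601393696)) (.cons (.rf (nat_lit 126) (nat_lit 640068866354836435435096096)) .nil)))),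
 (.br (nat_lit 5) (nat_lit 0) (.cons (.rf (nat_lit 127) (nat_lit 677582165103132179500635171)) (.cons (.rf (nat_lit 127) (nat_lit 677582050967385411107689507)) (.cons (.ev (nat_lit 340287579500517295878314522672759898368) (nat_lit 1)) (.cons (.br (nat_lit 7) (nat_lit 0) (.cons (.ev (nat_lit 18681904617722594299668468060334983179) (nat_lit 4)) (.cons (.ev (nat_lit 341611594996262235786183994362275364865) (nat_lit 1)) (.cons (.ev (nat_lit 87112291144339824274835386286014124326913) (nat_lit 1)) .nil)))) .nil))))),
 (.br (nat_lit 8) (nat_lit 0) (.cons (.kr (nat_lit 1329227996094400882725152137595060480) (nat_lit 5192296858534846147333263588392960) (nat_lit 1) (nat_lit 0)) (.cons (.br (nat_lit 15) (nat_lit 0) (.cons (.ev (nat_lit 2658476353208811596966357983549194753) (nat_lit 2)) (.cons (.rf (nat_lit 1) (nat_lit 582169102062657)) .nil))) .nil))),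
 (.br (nat_lit 8) (nat_lit 0) (.cons (.ev (nat_lit 20520714284344063637868213436931) (nat_lit 2)) (.cons (.ev (nat_lit 340282366921247948491714754168240472064) (nat_lit 1)) (.cons (.br (nat_lit 15) (nat_lit 0) (.cons (.ev (nat_lit 4091405329766825631369871603469264620047) (nat_lit 4)) (.cons (.br (nat_lit 16) (nat_lit 0) (.cons (.zr (nat_lit 1361139872797571059369354606132301268992) (nat_lit 7975367976566410018718803018643406853) (nat_lit 16) (nat_lit 14)) .nil)) .nil))) .nil)))),
 (.br (nat_lit 5) (nat_lit 0) (.cons (.br (nat_lit 11) (nat_lit 0) (.cons (.ev (nat_lit 20520714284344063637868179882497) (nat_lit 2)) (.cons (.br (nat_lit 15) (nat_lit 0) (.cons (.ev (nat_lit 7985773406053518257341469003993973765) (nat_lit 3)) (.cons (.rf (nat_lit 1) (nat_lit 582165816876097)) .nil))) .nil))) (.cons (.ev (nat_lit 10404955977446785393651795661816321) (nat_lit 2)) (.cons (.ev (nat_lit 2668861105384624095353722285173375491) (nat_lit 2)) (.cons (.br (nat_lit 8) (nat_lit 0) (.cons (.ev (nat_lit 20520716692750969338445875380227) (nat_lit 2)) (.cons (.ev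 (nat_lit 2658476353211238893339115922586075137) (nat_lit 2)) (.cons (.br (nat_lit 11) (nat_lit 0) (.cons (.ev (nat_lit 2689630611593159262171020165772608003) (nat_lit 3)) (.cons (.ev (nat_lit 4083440346700891373119244339704335304197) (nat_lit 4)) (.cons (.br (nat_lit 15) (nat_lit 0) (.cons (.ev (nat_lit 1371794465792825853840657806810837026309) (nat_lit 4)) (.cons (.ev (nat_lit 1344804887292606903598409916742828545) (nat_lit 2)) .nil))) .nil)))) (.cons (.br (nat_lit 11) (nat_lit 0) (.cons (.rf (nat_lit 1) (nat_lit 581933009935425)) (.cons (.br (nat_lit 15) (nat_lit 0) (.cons (.ev (nat_lit 4096722242696984589211520905843336285707) (nat_lit 4)) (.cons (.ev (nat_lit 1334481378485213728090592177217929216) (nat_lit 2)) .nil))) (.cons (.br (nat_lit 15) (nat_lit 0) (.cons (.ev (nat_lit 1344804887292606903598409916742828545) (nat_lit 2)) (.cons (.ev (nat_lit 348467752939345485824736752803278009401867) (nat_lit 4)) .nil))) .nil)))) .nil))))) .nil))))),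
 (.br (nat_lit 5) (nat_lit 0) (.cons (.ev (nat_lit 10404955977446785393651795628261891) (nat_lit 2)) (.cons (.ev (nat_lit 10404955977446785393088854298329601) (nat_lit 2)) (.cons (.kr (nat_lit 20361638979814120859043926900737) (nat_lit 2658455992188801765450585732986962432) (nat_lit 0) (nat_lit 2)) (.cons (.br (nat_lit 15) (nat_lit 0) (.cons (.kr (nat_lit 20282409608374036906816896499713) (nat_lit 1329227996094400882725152129005125888) (nat_lit 0) (nat_lit 2)) (.cons (.kr (nat_lit 79229371440083952222718656513) (nat_lit 1329227996094400882725152129005125888) (nat_lit 0) (nat_lit 2)) (.cons (.ev (nat_lit 2668861105382215688447458766147944451) (nat_lit 2)) (.cons (.br (nat_lit 7) (nat_lit 0) (.cons (.rf (nat_lit 1) (nat_lit 582165877697601)) (.cons (.br (nat_lit 8) (nat_lit 0) (.cons (.ev (nat_lit 340287579500517295878314804152048353537) (nat_lit 1)) (.cons (.rf (nat_lit 7) (nat_lit 624835473417865025128480)) .nil))) (.cons (.br (nat_lit 8) (nat_lit 0) (.cons (.rf (nat_lit 7) (nat_lit 624798472972628070074400)) (.cons (.ev (nat_lit 87113615180038442375092812149837115949056)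 (nat_lit 1)) .nil))) .nil)))) .nil))))) .nil)))))]

theorem c4 : chkAll C T R L4 (nat_lit 112) = true := by decide +kernel

theorem l4 : (nat_lit 112) + L4.length = (nat_lit 133) := by decide +kernel

/-- part of the certificates -/
def L5 : List Prf := [(.br (nat_lit 16) (nat_lit 0) (.cons (.ev (nat_lit 341616787213581914163907227567177924865) (nat_lit 1)) (.cons (.ev (nat_lit 340287579500516091674861390913230405633) (nat_lit 1)) .nil))),
 (.br (nat_lit 5) (nat_lit 0) (.cons (.ev (nat_lit 2668861105384624095353722285206929921) (nat_lit 2)) (.cons (.ev (nat_lit 2668861105384624095354285226536862211) (nat_lit 2)) (.cons (.kr (nat_lit 20361638979814120859043926900737) (nat_lit 2658455992188801765450585732986962432) (nat_lit 0) (nat_lit 2)) (.cons (.br (nat_lit 11) (nat_lit 0) (.cons (.kr (nat_lit 20282409608374036906816896499713) (nat_lit 1329227996094400882725152129005125888) (nat_lit 0) (nat_lit 2)) (.cons (.kr (nat_lit 79229371440083952222718656513) (nat_lit 1329227996094400882725152129005125888) (nat_lit 0) (nat_lit 2)) (.cons (.ev (nat_lit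 10404955975019489021456797988421633) (nat_lit 2)) (.cons (.br (nat_lit 7) (nat_lit 0) (.cons (.rf (nat_lit 1) (nat_lit 582028438748225)) (.cons (.rf (nat_lit 133) (nat_lit 677582165103132179601393696)) (.cons (.br (nat_lit 8) (nat_lit 0) (.cons (.rf (nat_lit 133) (nat_lit 677582050967385411208448032)) (.cons (.ev (nat_lit 87112285931760556131652239649269134393344) (nat_lit 1)) .nil))) .nil)))) .nil))))) .nil))))),
 (.br (nat_lit 8) (nat_lit 0) (.cons (.kr (nat_lit 20361638979814121140514608644097) (nat_lit 2658455992188801765450304262305219072) (nat_lit 0) (nat_lit 2)) (.cons (.ev (nat_lit 340282387282886928305835894687127306240) (nat_lit 1)) (.cons (.br (nat_lit 15) (nat_lit 0) (.cons (.ev (nat_lit 341616807575220893978028086606793081089) (nat_lit 1)) (.cons (.ev (nat_lit 2658476353208811596966357983549194753) (nat_lit 2)) .nil))) .nil)))),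
 (.br (nat_lit 8) (nat_lit 0) (.cons (.ev (nat_lit 341611615199134191932287254736238804993) (nat_lit 1)) (.cons (.ev (nat_lit 20520714284344063637868213436931) (nat_lit 2)) .nil))),
 (.br (nat_lit 15) (nat_lit 0) (.cons (.ev (nat_lit 1374421768320773631510976840948080709127) (nat_lit 4)) (.cons (.br (nat_lit 16) (nat_lit 0) (.cons (.zr (nat_lit 1363787924072083491802104806647357507584) (nat_lit 31174063562021654374038157956349955) (nat_lit 16) (nat_lit 11)) .nil)) .nil))),
 (.br (nat_lit 15) (nat_lit 0) (.cons (.ev (nat_lit 340282387282577438573575728774959398913) (nat_lit 1)) .nil)),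
 (.br (nat_lit 15) (nat_lit 0) (.cons (.ev (nat_lit 2658476353208811596966357983549194753) (nat_lit 2)) (.cons (.rf (nat_lit 138) (nat_lit 21174442659472880577906720)) .nil))),
 (.br (nat_lit 8) (nat_lit 0) (.cons (.kr (nat_lit 20361638979814121140514608644097) (nat_lit 2658455992188801765450304262305219072) (nat_lit 0) (nat_lit 2)) (.cons (.rf (nat_lit 139) (nat_lit 677582165103132179601393696)) (.cons (.rf (nat_lit 139) (nat_lit 640105464695078675084743715)) .nil)))),
 (.br (nat_lit 15) (nat_lit 0) (.cons (.ev (nat_lit 1329228075323772341328187498759717120) (nat_lit 1)) .nil)),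
 (.br (nat_lit 11) (nat_lit 0) (.cons (.ev (nat_lit 20520714284344063637868213436931) (nat_lit 2)) (.cons (.rf (nat_lit 141) (nat_lit 21174442659436561260709920)) .nil))),
 (.br (nat_lit 8) (nat_lit 0) (.cons (.kr (nat_lit 20361638979814121140514608644097) (nat_lit 2658455992188801765450304262305219072) (nat_lit 0) (nat_lit 2)) (.cons (.rf (nat_lit 142) (nat_lit 677582165103132179601393696)) (.cons (.rf (nat_lit 142) (nat_lit 640105464695078675084743715)) .nil)))),
 (.br (nat_lit 8) (nat_lit 0) (.cons (.rf (nat_lit 140) (nat_lit 677582050967385411208448032)) (.cons (.rf (nat_lit 143) (nat_lit 677582050967385411208448032)) (.cons (.br (nat_lit 11) (nat_lit 0) (.cons (.ev (nat_lit 20520714284344063637868213436931) (nat_lit 2)) (.cons (.br (nat_lit 15) (nat_lit 0) (.cons (.ev (nat_lit 4102059923234961360606341481431640572427) (nat_lit 4)) .nil)) .nil))) (.cons (.br (nat_lit 15) (nat_lit 0) (.cons (.ev (nat_lit 1344804887288975403773083159573496066) (nat_lit 2)) (.cons (.rf (nat_lit 11) (nat_lit 661400167165137188390944)) (.cons (.rf (nat_lit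 11) (nat_lit 624842179136972688200739)) .nil)))) .nil))))),
 (.br (nat_lit 2) (nat_lit 0) (.cons (.br (nat_lit 11) (nat_lit 0) (.cons (.rf (nat_lit 129) (nat_lit 583706118939841765935136)) (.cons (.rf (nat_lit 129) (nat_lit 583591983193073372989472)) (.cons (.ev (nat_lit 10404955975019489021456798021976067) (nat_lit 2)) (.cons (.br (nat_lit 7) (nat_lit 0) (.cons (.br (nat_lit 15) (nat_lit 0) (.cons (.ev (nat_lit 7985773406053518257342594921080685573) (nat_lit 3)) (.cons (.rf (nat_lit 1) (nat_lit 582165883982913)) .nil))) (.cons (.br (nat_lit 8) (nat_lit 0) (.cons (.ev (nat_lit 20520714284344063637868213436931) (nat_lit 2)) (.cons (.rf (nat_lit 1) (nat_lit 616120818537537)) .nil))) (.cons (.rf (nat_lit 130) (nat_lit 19926519232773908561233952)) (.cons (.br (nat_lit 8) (nat_lit 0) (.cons (.rf (nat_lit 1) (nat_lit 616120851043393)) (.cons (.rf (nat_lit 130) (nat_lit 19926405097027140168288288)) (.cons (.br (nat_lit 17) (nat_lit 0) (.cons (.ev (nat_lit 87113615159835259729751953213203167576065) (nat_lit 1)) (.cons (.ev (nat_lit 174224577056055655299860519093200014607104)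 (nat_lit 2)) .nil))) .nil)))) .nil))))) .nil))))) (.cons (.rf (nat_lit 131) (nat_lit 583706118939841765935136)) (.cons (.rf (nat_lit 131) (nat_lit 583591983193073372989472)) (.cons (.rf (nat_lit 132) (nat_lit 583706118939841765935136)) (.cons (.rf (nat_lit 134) (nat_lit 583706118939841765935136)) (.cons (.br (nat_lit 5) (nat_lit 0) (.cons (.rf (nat_lit 131) (nat_lit 583706118939841665176611)) (.cons (.rf (nat_lit 131) (nat_lit 583591983193073272230947)) (.cons (.rf (nat_lit 132) (nat_lit 583706118939841665176611)) (.cons (.rf (nat_lit 134) (nat_lit 583706118939841665176611)) (.cons (.br (nat_lit 11) (nat_lit 0) (.cons (.rf (nat_lit 135) (nat_lit 19926519232773908561233952)) (.cons (.rf (nat_lit 135) (nat_lit 19926405097027140168288288)) (.cons (.ev (nat_lit 10404955975019489021456797988421633) (nat_lit 2)) (.cons (.ev (nat_lit 340287559297334650537455586038811525377) (nat_lit 1)) (.cons (.br (nat_lit 15) (nat_lit 0) (.cons (.rf (nat_lit 136) (nat_lit 677582165103132179601393696)) (.cons (.rf (nat_lit 136) (nat_lit 677582050967385411208448032))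 (.cons (.ev (nat_lit 341616807575220893978028086606793081089) (nat_lit 1)) (.cons (.br (nat_lit 17) (nat_lit 0) (.cons (.ev (nat_lit 1045355448107838523829296170344679857457671) (nat_lit 4)) (.cons (.ev (nat_lit 1045366081932436142904908386698444461834755) (nat_lit 4)) (.cons (.ev (nat_lit 88137131101342127841007705897146643513856) (nat_lit 2)) .nil)))) .nil))))) .nil)))))) (.cons (.br (nat_lit 7) (nat_lit 0) (.cons (.br (nat_lit 11) (nat_lit 0) (.cons (.ev (nat_lit 20520714284344063074926816395777) (nat_lit 2)) (.cons (.rf (nat_lit 137) (nat_lit 677582165103132179601393696)) (.cons (.rf (nat_lit 137) (nat_lit 640105464695078675084743715)) .nil)))) (.cons (.rf (nat_lit 140) (nat_lit 677582165103132179601393696)) (.cons (.rf (nat_lit 143) (nat_lit 677582165103132179601393696)) (.cons (.rf (nat_lit 144) (nat_lit 677582165103132179601393696)) (.cons (.rf (nat_lit 144) (nat_lit 640105464695078675084743715)) .nil)))))) .nil))))))) .nil))))))),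
 (.br (nat_lit 8) (nat_lit 0) (.cons (.ev (nat_lit 2658476353211238893339115922586075651) (nat_lit 2)) (.cons (.ev (nat_lit 340287559297334650537455304559523070208) (nat_lit 1)) (.cons (.br (nat_lit 15) (nat_lit 0) (.cons (.ev (nat_lit 340282387282576229629309651551346819328) (nat_lit 1)) (.cons (.ev (nat_lit 2668861106001185745128312981399011841) (nat_lit 2)) .nil))) .nil)))),
 (.br (nat_lit 16) (nat_lit 0) (.cons (.ev (nat_lit 340282387282576229647828452115304415233) (nat_lit 1)) (.cons (.ev (nat_lit 340282366920939672389266561129974333696) (nat_lit 1)) .nil))),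
 (.br (nat_lit 8) (nat_lit 0) (.cons (.ev (nat_lit 20520716692750969901387238866947) (nat_lit 2)) (.cons (.ev (nat_lit 10404955356049506415804855646945283) (nat_lit 2)) (.cons (.ev (nat_lit 20520716692750969901387272421891) (nat_lit 2)) (.cons (.br (nat_lit 5) (nat_lit 0) (.cons (.rf (nat_lit 1) (nat_lit 581928576564386)) (.cons (.br (nat_lit 15) (nat_lit 0) (.cons (.ev (nat_lit 341616807575220893978028086606793081089) (nat_lit 1)) (.cons (.br (nat_lit 16) (nat_lit 0) (.cons (.ev (nat_lit 341611594996262235786183994362292142080) (nat_lit 1)) .nil)) .nil))) (.cons (.rf (nat_lit 147) (nat_lit 21174442659472880612509728)) .nil)))) .nil))))),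
 (.br (nat_lit 8) (nat_lit 0) (.cons (.ev (nat_lit 2658476353211238893339115922552520707) (nat_lit 2)) (.cons (.ev (nat_lit 340287559297334650537455304559539847168) (nat_lit 1)) (.cons (.br (nat_lit 15) (nat_lit 0) (.cons (.ev (nat_lit 340282387282576229629309651551346819328) (nat_lit 1)) (.cons (.ev (nat_lit 2668861106001185745128312981399011841) (nat_lit 2)) .nil))) .nil)))),
 (.br (nat_lit 8) (nat_lit 0) (.cons (.ev (nat_lit 340287559297334650537455304559539847168) (nat_lit 1)) (.cons (.ev (nat_lit 2658476353211238893339115922586075651) (nat_lit 2)) (.cons (.br (nat_lit 15) (nat_lit 0) (.cons (.ev (nat_lit 340282387282576229629309651551346819328) (nat_lit 1)) (.cons (.ev (nat_lit 2668861106001185745128312981432565761) (nat_lit 2)) .nil))) .nil)))),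
 (.br (nat_lit 8) (nat_lit 0) (.cons (.ev (nat_lit 2658476353211238893339115922552520707) (nat_lit 2)) (.cons (.br (nat_lit 15) (nat_lit 0) (.cons (.ev (nat_lit 341616787213581914163907227567161147393) (nat_lit 1)) (.cons (.ev (nat_lit 2668861106001185745128312981399011841) (nat_lit 2)) .nil))) (.cons (.br (nat_lit 15) (nat_lit 0) (.cons (.ev (nat_lit 2668861106001185745128312981399011841) (nat_lit 2)) (.cons (.ev (nat_lit 87112291144339514789844083741513652109313) (nat_lit 1)) .nil))) .nil)))),
 (.br (nat_lit 16) (nat_lit 0) (.cons (.ev (nat_lit 2658476353211238893338552981189034497) (nat_lit 2)) (.cons (.ev (nat_lit 341611594996262235786183994362292142080) (nat_lit 1)) .nil))),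
 (.br (nat_lit 8) (nat_lit 0) (.cons (.ev (nat_lit 2658476353211238893339115922586075651) (nat_lit 2)) (.cons (.br (nat_lit 15) (nat_lit 0) (.cons (.ev (nat_lit 2668861106001185745128312981432565761) (nat_lit 2)) .nil)) (.cons (.br (nat_lit 15) (nat_lit 0) (.cons (.ev (nat_lit 2668861106001185745128312981432565761) (nat_lit 2)) .nil)) .nil)))),
 (.br (nat_lit 11) (nat_lit 0) (.cons (.br (nat_lit 7) (nat_lit 0) (.cons (.br (nat_lit 15) (nat_lit 0) (.cons (.ev (nat_lit 2668861106001185745127750040069079555) (nat_lit 2)) (.cons (.rf (nat_lit 1) (nat_lit 582165873503394)) .nil))) (.cons (.br (nat_lit 8) (nat_lit 0) (.cons (.ev (nat_lit 2658476353211238893338552981189034497) (nat_lit 2)) (.cons (.rf (nat_lit 1) (nat_lit 581932871527586)) .nil))) (.cons (.rf (nat_lit 146) (nat_lit 19926519232773908561233952)) (.cons (.br (nat_lit 8) (nat_lit 0) (.cons (.rf (nat_lit 1) (nat_lit 581898545343650)) (.cons (.rf (nat_lit 146) (nat_lit 19926405097027140168288288)) (.cons (.br (nat_lit 15) (nat_lit 0) (.cons (.ev (nat_lit 2668861106001185745128312981399011841)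 (nat_lit 2)) (.cons (.ev (nat_lit 87113615180038442375092812149837115949056) (nat_lit 1)) .nil))) .nil)))) .nil))))) (.cons (.rf (nat_lit 148) (nat_lit 19926519232773908561233952)) (.cons (.rf (nat_lit 148) (nat_lit 19926405097027140168288288)) (.cons (.kr (nat_lit 20361638979814120859043910123521) (nat_lit 10384594336039674900032605101490176) (nat_lit 0) (nat_lit 1)) (.cons (.br (nat_lit 5) (nat_lit 0) (.cons (.rf (nat_lit 149) (nat_lit 19926519232773908561233952)) (.cons (.rf (nat_lit 149) (nat_lit 19926405097027140168288288)) (.cons (.br (nat_lit 7) (nat_lit 0) (.cons (.ev (nat_lit 2668861106001185745127750040069079555) (nat_lit 2)) (.cons (.ev (nat_lit 340282366920939677111560706030116602113) (nat_lit 1)) (.cons (.br (nat_lit 8) (nat_lit 0) (.cons (.ev (nat_lit 340282387282576229629309370072091918593) (nat_lit 1)) (.cons (.ev (nat_lit 2668861106001185745128312981399011841) (nat_lit 2)) .nil))) .nil)))) (.cons (.ev (nat_lit 340287559297334650537455586038811525377) (nat_lit 1)) (.cons (.br (nat_lit 16) (nat_lit 0) (.cons (.rf (nat_lit 150)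 (nat_lit 19926519232773908561233952)) (.cons (.rf (nat_lit 150) (nat_lit 19926405097027140168288288)) (.cons (.br (nat_lit 7) (nat_lit 0) (.cons (.ev (nat_lit 2668861106001185745127750040035524611) (nat_lit 2)) (.cons (.br (nat_lit 8) (nat_lit 0) (.cons (.ev (nat_lit 2668861106001185745128312981432565761) (nat_lit 2)) .nil)) .nil))) (.cons (.ev (nat_lit 340287559297334650537455586038794747905) (nat_lit 1)) .nil))))) .nil)))))) (.cons (.br (nat_lit 5) (nat_lit 0) (.cons (.rf (nat_lit 151) (nat_lit 677582165103132179601393696)) (.cons (.rf (nat_lit 151) (nat_lit 677582050967385411208448032)) (.cons (.br (nat_lit 7) (nat_lit 0) (.cons (.rf (nat_lit 1) (nat_lit 582028434554018)) (.cons (.br (nat_lit 8) (nat_lit 0) (.cons (.ev (nat_lit 341616787213581914163907227567177924865) (nat_lit 1)) (.cons (.ev (nat_lit 2668861106001185745128312981399011841) (nat_lit 2)) .nil))) (.cons (.br (nat_lit 8) (nat_lit 0) (.cons (.ev (nat_lit 2668861106001185745128312981399011841) (nat_lit 2)) (.cons (.ev (nat_lit 87112285931760556131652239649269134393344) (nat_lit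 1)) .nil))) .nil)))) (.cons (.br (nat_lit 15) (nat_lit 0) (.cons (.rf (nat_lit 152) (nat_lit 677582165103132179601393696)) (.cons (.rf (nat_lit 152) (nat_lit 677582050967385411208448032)) (.cons (.ev (nat_lit 341616807575220893978028086606793081089) (nat_lit 1)) (.cons (.br (nat_lit 16) (nat_lit 0) (.cons (.ev (nat_lit 341611615199442472720136667477181530113) (nat_lit 1)) (.cons (.ev (nat_lit 341611615199442472720136948956469985280) (nat_lit 1)) (.cons (.ev (nat_lit 174905136617882465534461931003581755949571) (nat_lit 2)) .nil)))) .nil))))) (.cons (.br (nat_lit 7) (nat_lit 0) (.cons (.br (nat_lit 17) (nat_lit 0) (.cons (.ev (nat_lit 2668861106001185745127750040035524611) (nat_lit 2)) (.cons (.ev (nat_lit 87112285952122195111466360789788021227777) (nat_lit 1)) .nil))) (.cons (.br (nat_lit 8) (nat_lit 0) (.cons (.ev (nat_lit 2658476353211238893338552981189034497) (nat_lit 2)) (.cons (.ev (nat_lit 87112291144339514789844083741513652109313) (nat_lit 1)) .nil))) (.cons (.rf (nat_lit 153) (nat_lit 677582165103132179601393696)) (.cons (.br (nat_lit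 8) (nat_lit 0) (.cons (.ev (nat_lit 87112291144339514789844084022992907010048) (nat_lit 1)) (.cons (.rf (nat_lit 153) (nat_lit 677582050967385411208448032)) .nil))) .nil))))) .nil)))))) .nil)))))))]

theorem c5 : chkAll C T R L5 (nat_lit 133) = true := by decide +kernel

theorem l5 : (nat_lit 133) + L5.length = (nat_lit 155) := by decide +kernel

/-- part of the certificates -/
def L6 : List Prf := [(.br (nat_lit 5) (nat_lit 0) (.cons (.ev (nat_lit 1334420371872826862982773748485128448) (nat_lit 1)) (.cons (.br (nat_lit 15) (nat_lit 0) (.cons (.ev (nat_lit 1334420371872826862982773748501905408) (nat_lit 1)) .nil)) .nil))),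
 (.br (nat_lit 10) (nat_lit 0) (.cons (.ev (nat_lit 340287559297025160823786558664382349568) (nat_lit 1)) .nil)),
 (.br (nat_lit 17) (nat_lit 0) (.cons (.ev (nat_lit 87112285952122193897818174692289201307648) (nat_lit 1)) (.cons (.ev (nat_lit 87112285931760557345300425746767954313473) (nat_lit 1)) .nil))),
 (.br (nat_lit 8) (nat_lit 0) (.cons (.ev (nat_lit 10404955358476802787999853286785027) (nat_lit 2)) (.cons (.ev (nat_lit 10404955358476802787999853320339457) (nat_lit 2)) (.cons (.br (nat_lit 15) (nat_lit 0) (.cons (.ev (nat_lit 2658476353208811596966357983549194243) (nat_lit 2)) (.cons (.ev (nat_lit 2658476353208811596966357983582748673) (nat_lit 2)) (.cons (.ev (nat_lit 2658476353208811596966357983549194753) (nat_lit 2)) (.cons (.rf (nat_lit 4) (nat_lit 677039785532560545597923558)) .nil))))) (.cons (.br (nat_lit 11) (nat_lit 0) (.cons (.ev (nat_lit 20520714284344063637868213436417) (nat_lit 2)) (.cons (.ev (nat_lit 20520714284344063637868179881987) (nat_lit 2)) (.cons (.ev (nat_lit 20520714284344063637868213436931) (nat_lit 2)) (.cons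 (.rf (nat_lit 5) (nat_lit 677039785532560545597923558)) .nil))))) (.cons (.ev (nat_lit 10404955358476802787999853286785537) (nat_lit 2)) (.cons (.br (nat_lit 15) (nat_lit 0) (.cons (.rf (nat_lit 154) (nat_lit 19889920892531668810827808)) (.cons (.rf (nat_lit 154) (nat_lit 19889920892531668710069283)) (.cons (.kr (nat_lit 20282409608374036906816896499712) (nat_lit 5192297168019837449875565054001152) (nat_lit 9) (nat_lit 0)) (.cons (.br (nat_lit 2) (nat_lit 0) (.cons (.br (nat_lit 11) (nat_lit 0) (.cons (.ev (nat_lit 341611594996261031582730862602762649857) (nat_lit 1)) (.cons (.rf (nat_lit 83) (nat_lit 21174404685120822589884448)) .nil))) (.cons (.rf (nat_lit 155) (nat_lit 21174442659472880577906720)) (.cons (.br (nat_lit 5) (nat_lit 0) (.cons (.ev (nat_lit 341611594996261031582730862602762649857) (nat_lit 1)) (.cons (.rf (nat_lit 156) (nat_lit 21174442659472880612509728)) .nil))) (.cons (.br (nat_lit 5) (nat_lit 0) (.cons (.rf (nat_lit 155) (nat_lit 21174442659472880477148195)) (.cons (.rf (nat_lit 156) (nat_lit 21174442659472880609268771))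 (.cons (.ev (nat_lit 87112291144339515994047536873273181601793) (nat_lit 1)) .nil)))) .nil))))) (.cons (.br (nat_lit 11) (nat_lit 0) (.cons (.rf (nat_lit 157) (nat_lit 677582165103132179601393696)) (.cons (.rf (nat_lit 157) (nat_lit 677582165103132179500635171)) (.cons (.br (nat_lit 17) (nat_lit 0) (.cons (.ev (nat_lit 87112285931760557345300425746767954313473) (nat_lit 1)) (.cons (.ev (nat_lit 87112285931760557345300425746767971090688) (nat_lit 1)) (.cons (.ev (nat_lit 87112285931760557345300425746767954313216) (nat_lit 1)) .nil)))) (.cons (.ev (nat_lit 87113620352053199582352771986825743958016) (nat_lit 1)) .nil))))) .nil)))))) .nil))))))),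
 (.br (nat_lit 16) (nat_lit 0) (.cons (.ev (nat_lit 340282366920938463463374890010568359936) (nat_lit 1)) (.cons (.ev (nat_lit 341611594996262235786183994362292142080) (nat_lit 1)) .nil))),
 (.br (nat_lit 12) (nat_lit 0) (.cons (.ev (nat_lit 79228162514264620172327321856) (nat_lit 1)) .nil)),
 (.br (nat_lit 5) (nat_lit 0) (.cons (.rf (nat_lit 1) (nat_lit 582172449939618)) (.cons (.rf (nat_lit 159) (nat_lit 677582165103132179601393696)) (.cons (.br (nat_lit 8) (nat_lit 0) (.cons (.rf (nat_lit 160) (nat_lit 646192633205133248544)) (.cons (.ev (nat_lit 87112285931760557345300425746767971090433) (nat_lit 1)) .nil))) .nil)))),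
 (.br (nat_lit 5) (nat_lit 0) (.cons (.ev (nat_lit 79228162514264620172327321856) (nat_lit 1)) .nil)),
 (.br (nat_lit 8) (nat_lit 0) (.cons (.rf (nat_lit 161) (nat_lit 677582050967385411208448032)) (.cons (.rf (nat_lit 161) (nat_lit 677582050967385411107689507)) (.cons (.br (nat_lit 2) (nat_lit 0) (.cons (.ev (nat_lit 340287579500517295878314804152048353537) (nat_lit 1)) (.cons (.rf (nat_lit 162) (nat_lit 646192633205133248544)) .nil))) (.cons (.br (nat_lit 17) (nat_lit 0) (.cons (.ev (nat_lit 87112285931760557345300425746767954313473) (nat_lit 1)) (.cons (.ev (nat_lit 87112285931760557345300425746767971090688) (nat_lit 1)) (.cons (.ev (nat_lit 87112285931760557345300425746767954313216) (nat_lit 1)) .nil)))) .nil))))),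
 (.br (nat_lit 15) (nat_lit 0) (.cons (.kr (nat_lit 20361638979814120859043910123521) (nat_lit 2658455992188801765450585733003739136) (nat_lit 0) (nat_lit 1)) (.cons (.kr (nat_lit 2658455992188801765450585732986961921) (nat_lit 20361638979814120859043926900736) (nat_lit 0) (nat_lit 1)) (.cons (.kr (nat_lit 20282409608374036906816896499712) (nat_lit 1329227996094400882725152129005125632) (nat_lit 9) (nat_lit 0)) (.cons (.kr (nat_lit 79229371440083952222718656512) (nat_lit 1329227996094400882725152129005125632) (nat_lit 10) (nat_lit 0)) (.cons (.kr (nat_lit 2658455992188801765450585733003739137) (nat_lit 20361638979814120859043910124032) (nat_lit 0) (nat_lit 2)) (.cons (.br (nat_lit 7) (nat_lit 0) (.cons (.rf (nat_lit 161) (nat_lit 677582165103132179601393696)) (.cons (.rf (nat_lit 161) (nat_lit 677582165103132179500635171)) (.cons (.rf (nat_lit 4) (nat_lit 677039785532560545491066217)) (.cons (.rf (nat_lit 163) (nat_lit 677582165103132179601393696)) (.cons (.br (nat_lit 8) (nat_lit 0) (.cons (.rf (nat_lit 161) (nat_lit 677582050967385411208448032))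 (.cons (.rf (nat_lit 161) (nat_lit 677582050967385411107689507)) (.cons (.rf (nat_lit 163) (nat_lit 677582050967385411208448032)) (.cons (.ev (nat_lit 87113615180038442375092812149837115949056) (nat_lit 1)) .nil))))) .nil)))))) .nil))))))),
 (.br (nat_lit 8) (nat_lit 0) (.cons (.ev (nat_lit 341616807575220893978027805127521403137) (nat_lit 1)) (.cons (.ev (nat_lit 20520716692750969338445875380227) (nat_lit 2)) (.cons (.br (nat_lit 11) (nat_lit 0) (.cons (.ev (nat_lit 340282387282576229629309651551346819328) (nat_lit 1)) (.cons (.ev (nat_lit 2668861106001185745128312981432565761) (nat_lit 2)) .nil))) .nil)))),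
 (.br (nat_lit 7) (nat_lit 0) (.cons (.ev (nat_lit 340282366920939677111560706030116602113) (nat_lit 1)) (.cons (.ev (nat_lit 2668861106001185745127750040035524611) (nat_lit 2)) (.cons (.br (nat_lit 8) (nat_lit 0) (.cons (.ev (nat_lit 340282387282576229629309370072091918593) (nat_lit 1)) (.cons (.ev (nat_lit 2668861106001185745128312981432565761) (nat_lit 2)) .nil))) .nil)))),
 (.br (nat_lit 8) (nat_lit 0) (.cons (.ev (nat_lit 20520716692750969901387272421891) (nat_lit 2)) (.cons (.rf (nat_lit 79) (nat_lit 21173224129528902197544992)) .nil))),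
 (.br (nat_lit 8) (nat_lit 0) (.cons (.br (nat_lit 11) (nat_lit 0) (.cons (.ev (nat_lit 340287579500517295878314804152031576320) (nat_lit 1)) (.cons (.ev (nat_lit 2668861106001185745128312981399011841) (nat_lit 2)) .nil))) (.cons (.ev (nat_lit 20520716692750969338445875380227) (nat_lit 2)) (.cons (.br (nat_lit 11) (nat_lit 0) (.cons (.ev (nat_lit 340287579500517295878314804152048353280) (nat_lit 1)) (.cons (.ev (nat_lit 2668861106001185745128312981432565761) (nat_lit 2)) .nil))) (.cons (.br (nat_lit 11) (nat_lit 0) (.cons (.ev (nat_lit 2668861106001185745128312981399011841) (nat_lit 2)) (.cons (.ev (nat_lit 2668861106001185745128312981432565761) (nat_lit 2)) (.cons (.ev (nat_lit 87112291144339514789844083741513635332353) (nat_lit 1)) .nil)))) .nil))))),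
 (.br (nat_lit 8) (nat_lit 0) (.cons (.ev (nat_lit 340287579500517295878314804152031576065) (nat_lit 1)) (.cons (.ev (nat_lit 2668861106001185745128312981432565761) (nat_lit 2)) .nil))),
 (.br (nat_lit 5) (nat_lit 0) (.cons (.rf (nat_lit 168) (nat_lit 677582165103132179500635171)) (.cons (.rf (nat_lit 168) (nat_lit 677582050967385411107689507)) (.cons (.ev (nat_lit 340287579500517295878314522672759898368) (nat_lit 1)) (.cons (.br (nat_lit 16) (nat_lit 0) (.cons (.rf (nat_lit 169) (nat_lit 677582165103132179601393696)) (.cons (.rf (nat_lit 169) (nat_lit 677582050967385411208448032)) (.cons (.ev (nat_lit 340287559297334650537455586038794747905) (nat_lit 1)) .nil)))) .nil))))),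
 (.br (nat_lit 5) (nat_lit 0) (.cons (.rf (nat_lit 168) (nat_lit 677582165103132179500635171)) (.cons (.rf (nat_lit 168) (nat_lit 677582050967385411107689507)) (.cons (.ev (nat_lit 340287579500517295878314522672759898368) (nat_lit 1)) (.cons (.br (nat_lit 11) (nat_lit 0) (.cons (.ev (nat_lit 341611615199442472720136667477198307328) (nat_lit 1)) (.cons (.ev (nat_lit 341611594996262235786183712883020464128) (nat_lit 1)) (.cons (.ev (nat_lit 174905136617882465534461931003581755949057) (nat_lit 2)) .nil)))) .nil))))),
 (.br (nat_lit 15) (nat_lit 0) (.cons (.rf (nat_lit 154) (nat_lit 19889920892531668810827808)) (.cons (.rf (nat_lit 154) (nat_lit 19889920892531668710069283)) (.cons (.rf (nat_lit 158) (nat_lit 19889920892531668810827808)) (.cons (.rf (nat_lit 158) (nat_lit 19889806756784900417882144)) (.cons (.kr (nat_lit 10384594336039674900032605101490177) (nat_lit 20361638979814120859043910124032) (nat_lit 0) (nat_lit 2)) (.cons (.br (nat_lit 2) (nat_lit 0) (.cons (.ev (nat_lit 341616787213581914163906946087889469696) (nat_lit 1)) (.cons (.rf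 (nat_lit 165) (nat_lit 19926519232773908561233952)) (.cons (.rf (nat_lit 165) (nat_lit 19926405097027140168288288)) (.cons (.rf (nat_lit 166) (nat_lit 19926519232773908561233952)) (.cons (.br (nat_lit 5) (nat_lit 0) (.cons (.rf (nat_lit 165) (nat_lit 19926519232773908460475427)) (.cons (.rf (nat_lit 165) (nat_lit 19926405097027140067529763)) (.cons (.rf (nat_lit 166) (nat_lit 19926519232773908460475427)) (.cons (.ev (nat_lit 341616787213581914163906946087906246913) (nat_lit 1)) .nil))))) .nil)))))) (.cons (.br (nat_lit 2) (nat_lit 0) (.cons (.br (nat_lit 11) (nat_lit 0) (.cons (.rf (nat_lit 167) (nat_lit 677582165103132179601393696)) (.cons (.rf (nat_lit 167) (nat_lit 677582050967385411208448032)) (.cons (.ev (nat_lit 340287579500517295878314522672759898368) (nat_lit 1)) (.cons (.br (nat_lit 16) (nat_lit 0) (.cons (.ev (nat_lit 341611615199442472720136667477181530368) (nat_lit 1)) (.cons (.ev (nat_lit 341611615199442472720136948956469985537) (nat_lit 1)) (.cons (.ev (nat_lit 174905136617882465534461931003581755949057) (nat_lit 2)) .nil))))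 .nil))))) (.cons (.rf (nat_lit 168) (nat_lit 677582165103132179601393696)) (.cons (.rf (nat_lit 168) (nat_lit 677582050967385411208448032)) (.cons (.rf (nat_lit 170) (nat_lit 677582165103132179601393696)) (.cons (.rf (nat_lit 171) (nat_lit 677582165103132179601393696)) (.cons (.br (nat_lit 5) (nat_lit 0) (.cons (.rf (nat_lit 168) (nat_lit 677582165103132179500635171)) (.cons (.rf (nat_lit 168) (nat_lit 677582050967385411107689507)) (.cons (.rf (nat_lit 170) (nat_lit 677582165103132179500635171)) (.cons (.rf (nat_lit 171) (nat_lit 677582165103132179500635171)) (.cons (.br (nat_lit 16) (nat_lit 0) (.cons (.ev (nat_lit 174907805458467754844269901942214034063361) (nat_lit 2)) (.cons (.ev (nat_lit 174907805458467754844269902505155431104515) (nat_lit 2)) (.cons (.ev (nat_lit 340287559297334650537455586038794748160) (nat_lit 1)) .nil)))) .nil)))))) .nil))))))) .nil)))))))),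
 (.br (nat_lit 11) (nat_lit 0) (.cons (.ev (nat_lit 2668861106001185745127750040035524611) (nat_lit 2)) (.cons (.ev (nat_lit 2668861106001185745127750040069079041) (nat_lit 2)) (.cons (.ev (nat_lit 2668861106001185745127750040035525121) (nat_lit 2)) (.cons (.ev (nat_lit 87113620352053199582352771986825743958016) (nat_lit 1)) .nil))))),
 (.br (nat_lit 8) (nat_lit 0) (.cons (.ev (nat_lit 20520716692750969901387272421377) (nat_lit 2)) (.cons (.ev (nat_lit 20520716692750969901387238866947) (nat_lit 2)) (.cons (.ev (nat_lit 20520716692750969901387272421891) (nat_lit 2)) (.cons (.ev (nat_lit 87113620352053199582352771986825743958016) (nat_lit 1)) .nil))))),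
 (.br (nat_lit 5) (nat_lit 0) (.cons (.ev (nat_lit 5192376396182370160958336114098176) (nat_lit 1)) (.cons (.rf (nat_lit 162) (nat_lit 495758547548242121859)) .nil))),
 (.br (nat_lit 8) (nat_lit 0) (.cons (.br (nat_lit 11) (nat_lit 0) (.cons (.ev (nat_lit 2668861106001185745128312981399011841) (nat_lit 2)) (.cons (.ev (nat_lit 87113620372414838562166892845865375891457) (nat_lit 1)) .nil))) (.cons (.ev (nat_lit 20520716692750969338445875380227) (nat_lit 2)) (.cons (.br (nat_lit 11) (nat_lit 0) (.cons (.ev (nat_lit 2668861106001185745128312981399011841) (nat_lit 2)) (.cons (.ev (nat_lit 2668861106001185745128312981432565761) (nat_lit 2)) (.cons (.ev (nat_lit 87113620372414838562166892845865359114497) (nat_lit 1)) .nil)))) (.cons (.br (nat_lit 11) (nat_lit 0) (.cons (.ev (nat_lit 87112285931760557345300425746767971090433) (nat_lit 1)) (.cons (.ev (nat_lit 87112285931760557345300425746767954313473) (nat_lit 1)) .nil))) .nil))))),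
 (.br (nat_lit 5) (nat_lit 0) (.cons (.rf (nat_lit 176) (nat_lit 677582165103132179500635171)) (.cons (.rf (nat_lit 176) (nat_lit 677582050967385411107689507)) (.cons (.br (nat_lit 16) (nat_lit 0) (.cons (.ev (nat_lit 341616807575219680329841989107973160960) (nat_lit 1)) (.cons (.ev (nat_lit 341616807575219680329841707628684705793) (nat_lit 1)) (.cons (.ev (nat_lit 174905136617882465534461931003581755949571) (nat_lit 2)) .nil)))) (.cons (.br (nat_lit 7) (nat_lit 0) (.cons (.ev (nat_lit 2668861106001185745127750040035524611) (nat_lit 2)) (.cons (.br (nat_lit 8) (nat_lit 0) (.cons (.ev (nat_lit 2668861106001185745128312981432565761) (nat_lit 2)) .nil)) .nil))) .nil))))),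
 (.br (nat_lit 5) (nat_lit 0) (.cons (.rf (nat_lit 176) (nat_lit 677582165103132179500635171)) (.cons (.rf (nat_lit 176) (nat_lit 677582050967385411107689507)) (.cons (.rf (nat_lit 177) (nat_lit 677582165103132179500635171)) (.cons (.ev (nat_lit 340282366920938463463374608531279905024) (nat_lit 1)) (.cons (.br (nat_lit 7) (nat_lit 0) (.cons (.rf (nat_lit 173) (nat_lit 677582165103132179601393696)) (.cons (.rf (nat_lit 174) (nat_lit 677582165103132179601393696)) (.cons (.ev (nat_lit 174907805458467754844269901942214034063361) (nat_lit 2)) .nil)))) .nil)))))),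
 (.br (nat_lit 10) (nat_lit 0) (.cons (.ev (nat_lit 620183704938730040779079680) (nat_lit 2)) (.cons (.rf (nat_lit 1) (nat_lit 436861666428960)) .nil)))]

theorem c6 : chkAll C T R L6 (nat_lit 155) = true := by decide +kernel

theorem l6 : (nat_lit 155) + L6.length = (nat_lit 180) := by decide +kernel

/-- part of the certificates -/
def L7 : List Prf := [(.br (nat_lit 11) (nat_lit 0) (.cons (.ev (nat_lit 1339612827190109348702661712149676290) (nat_lit 2)) (.cons (.ev (nat_lit 20362260367722440665457810866177) (nat_lit 2)) (.cons (.br (nat_lit 14) (nat_lit 0) (.cons (.ev (nat_lit 10405113814801831317240180795113475) (nat_lit 2)) (.cons (.rf (nat_lit 2) (nat_lit 19075358488705340481)) .nil))) .nil)))),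
 (.br (nat_lit 12) (nat_lit 0) (.cons (.ev (nat_lit 40644975839069653016712394572288) (nat_lit 2)) (.cons (.rf (nat_lit 1) (nat_lit 509500302989377)) .nil))),
 (.br (nat_lit 11) (nat_lit 0) (.cons (.ev (nat_lit 1339612827190109348702943200011288579) (nat_lit 2)) (.cons (.ev (nat_lit 20362260367722441228399174353411) (nat_lit 2)) (.cons (.br (nat_lit 14) (nat_lit 0) (.cons (.ev (nat_lit 10405113814801831316677239431627265) (nat_lit 2)) (.cons (.rf (nat_lit 2) (nat_lit 19075358488702197825)) .nil))) .nil)))),
 (.br (nat_lit 5) (nat_lit 0) (.cons (.br (nat_lit 14) (nat_lit 0) (.cons (.kr (nat_lit 10384594336039674900032605084712961) (nat_lit 20361638979814120859043926900736) (nat_lit 0) (nat_lit 1)) (.cons (.br (nat_lit 15) (nat_lit 0) (.cons (.ev (nat_lit 2668860946925890659919344321400144387) (nat_lit 2)) (.cons (.rf (nat_lit 1) (nat_lit 582169041018945)) .nil))) .nil))) (.cons (.br (nat_lit 11) (nat_lit 0) (.cons (.kr (nat_lit 10384594336039674900032605084712961) (nat_lit 20361638979814120859043926900736) (nat_lit 0) (nat_lit 1)) (.cons (.br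 (nat_lit 15) (nat_lit 0) (.cons (.ev (nat_lit 2658476512284106608100119972591698433) (nat_lit 2)) (.cons (.rf (nat_lit 1) (nat_lit 582172259098689)) .nil))) .nil))) (.cons (.br (nat_lit 11) (nat_lit 0) (.cons (.ev (nat_lit 31174460324255116506264520995635715) (nat_lit 3)) (.cons (.rf (nat_lit 181) (nat_lit 19459491438255768963104)) .nil))) (.cons (.br (nat_lit 16) (nat_lit 0) (.cons (.ev (nat_lit 20362260367722441228399174353411) (nat_lit 2)) (.cons (.ev (nat_lit 10405113814801831316677239431627265) (nat_lit 2)) (.cons (.rf (nat_lit 182) (nat_lit 19926519232773908561233952)) (.cons (.br (nat_lit 16) (nat_lit 0) (.cons (.ev (nat_lit 20362260367722441228399174353411) (nat_lit 2)) (.cons (.ev (nat_lit 10405113814801831316677239431627265) (nat_lit 2)) (.cons (.rf (nat_lit 182) (nat_lit 19926519232773908561233952)) .nil)))) .nil))))) .nil))))),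
 (.br (nat_lit 5) (nat_lit 0) (.cons (.rf (nat_lit 183) (nat_lit 583706118939841665176611)) (.cons (.kr (nat_lit 79228167236630820467484131328) (nat_lit 5192297168019837450157040030711808) (nat_lit 4) (nat_lit 0)) (.cons (.ev (nat_lit 2658476512284106608100119972625252867) (nat_lit 2)) (.cons (.br (nat_lit 8) (nat_lit 0) (.cons (.kr (nat_lit 79228167236630820463189164033) (nat_lit 5192297168019837449875565054001408) (nat_lit 0) (nat_lit 2)) (.cons (.ev (nat_lit 2658476512284106608100682913988739073) (nat_lit 2)) (.cons (.br (nat_lit 14) (nat_lit 0) (.cons (.kr (nat_lit 20361638979814120859043910123521) (nat_lit 10384594336039674900032605101490176) (nat_lit 0) (nat_lit 1)) (.cons (.ev (nat_lit 340287559217797003031888423565001818113) (nat_lit 1)) (.cons (.br (nat_lit 15) (nat_lit 0) (.cons (.ev (nat_lit 341611594917032869068466523909690228736) (nat_lit 1)) (.cons (.ev (nat_lit 2668860946925890659919344321400144387) (nat_lit 2)) .nil))) .nil)))) (.cons (.br (nat_lit 14) (nat_lit 0) (.cons (.kr (nat_lit 20361638979814120859043910123521) (nat_lit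 10384594336039674900032605101490176) (nat_lit 0) (nat_lit 1)) (.cons (.br (nat_lit 15) (nat_lit 0) (.cons (.ev (nat_lit 2668860946925890659919344321400144387) (nat_lit 2)) (.cons (.rf (nat_lit 2) (nat_lit 19068677825886399553)) .nil))) (.cons (.br (nat_lit 17) (nat_lit 0) (.cons (.ev (nat_lit 2668860946925890659919344321400144387) (nat_lit 2)) (.cons (.ev (nat_lit 87112285931839784294166504269441461714945) (nat_lit 1)) .nil))) .nil)))) .nil))))) .nil))))),
 (.br (nat_lit 5) (nat_lit 0) (.cons (.rf (nat_lit 183) (nat_lit 583706118939841665176611)) (.cons (.kr (nat_lit 79228167236630820467484131328) (nat_lit 5192297168019837450157040030711808) (nat_lit 4) (nat_lit 0)) (.cons (.ev (nat_lit 2668860946925890659919344321366589953) (nat_lit 2)) (.cons (.br (nat_lit 8) (nat_lit 0) (.cons (.kr (nat_lit 79228167236630820463189164033) (nat_lit 5192297168019837449875565054001408) (nat_lit 0) (nat_lit 2)) (.cons (.ev (nat_lit 2668860946925890659918781380003102723) (nat_lit 2)) (.cons (.br (nat_lit 11) (nat_lit 0) (.cons (.kr (nat_lit 20361638979814120859043910123521)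 (nat_lit 10384594336039674900032605101490176) (nat_lit 0) (nat_lit 1)) (.cons (.ev (nat_lit 340282367000476111005979374340584570880) (nat_lit 1)) (.cons (.br (nat_lit 15) (nat_lit 0) (.cons (.ev (nat_lit 341616787292810076678171282581938503681) (nat_lit 1)) (.cons (.ev (nat_lit 2658476512284106608100119972591698433) (nat_lit 2)) .nil))) .nil)))) (.cons (.br (nat_lit 11) (nat_lit 0) (.cons (.kr (nat_lit 20361638979814120859043910123521) (nat_lit 10384594336039674900032605101490176) (nat_lit 0) (nat_lit 1)) (.cons (.br (nat_lit 16) (nat_lit 0) (.cons (.ev (nat_lit 2658476512284106608100119972591698433) (nat_lit 2)) (.cons (.ev (nat_lit 340287559217797003031888705044290273537) (nat_lit 1)) .nil))) (.cons (.br (nat_lit 17) (nat_lit 0) (.cons (.ev (nat_lit 2658476512284106608100119972591698433) (nat_lit 2)) (.cons (.ev (nat_lit 87112291124057105186192413318665912516608) (nat_lit 1)) .nil))) .nil)))) .nil))))) .nil))))),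
 (.br (nat_lit 5) (nat_lit 0) (.cons (.rf (nat_lit 183) (nat_lit 583706118939841665176611)) (.cons (.ev (nat_lit 2658476512284106608100119972625252867) (nat_lit 2)) (.cons (.ev (nat_lit 2668860946925890659919344321366589953) (nat_lit 2)) (.cons (.br (nat_lit 8) (nat_lit 0) (.cons (.ev (nat_lit 2658476512284106608100682913988739073) (nat_lit 2)) (.cons (.ev (nat_lit 2668860946925890659918781380003102723) (nat_lit 2)) (.cons (.br (nat_lit 11) (nat_lit 0) (.cons (.ev (nat_lit 31174460324255116507390403655501315) (nat_lit 3)) (.cons (.ev (nat_lit 1374421768956458249979813630813281586693) (nat_lit 4)) (.cons (.br (nat_lit 14) (nat_lit 0) (.cons (.ev (nat_lit 4102039153728769797698741073310606822917) (nat_lit 4)) (.cons (.ev (nat_lit 5192377017574982400502446472429571) (nat_lit 2)) .nil))) .nil)))) (.cons (.br (nat_lit 11) (nat_lit 0) (.cons (.ev (nat_lit 5327317257267719262817539982595458567) (nat_lit 3)) (.cons (.br (nat_lit 14) (nat_lit 0) (.cons (.ev (nat_lit 341611594917034073271919374189964820481) (nat_lit 1)) (.cons (.br (nat_lit 16) (nat_lit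 0) (.cons (.zr (nat_lit 1363788025087380166375433071522631254528) (nat_lit 31153862236295706063321080715542529) (nat_lit 16) (nat_lit 15)) .nil)) .nil))) (.cons (.br (nat_lit 14) (nat_lit 0) (.cons (.br (nat_lit 16) (nat_lit 0) (.cons (.zr (nat_lit 1363787924071464531264230717450390470656) (nat_lit 31174065421349453830491549936386567) (nat_lit 16) (nat_lit 5)) .nil)) (.cons (.ev (nat_lit 87113615159756342256432444550770130419968) (nat_lit 1)) .nil))) .nil)))) .nil))))) .nil))))),
 (.br (nat_lit 16) (nat_lit 0) (.cons (.ev (nat_lit 2668860946925890659919344321400144387) (nat_lit 2)) (.cons (.ev (nat_lit 340282367000476111005979374340567793665) (nat_lit 1)) .nil))),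
 (.br (nat_lit 16) (nat_lit 0) (.cons (.ev (nat_lit 2658476512284106608100119972591698433) (nat_lit 2)) (.cons (.ev (nat_lit 340287559217797003031888423565018595328) (nat_lit 1)) .nil))),
 (.br (nat_lit 14) (nat_lit 0) (.cons (.ev (nat_lit 341611594917034073271919655669236498688) (nat_lit 1)) (.cons (.br (nat_lit 16) (nat_lit 0) (.cons (.zr (nat_lit 1363788025087380166375433071522631255040) (nat_lit 31153862236295706063884022045474821) (nat_lit 16) (nat_lit 15)) .nil)) .nil))),
 (.br (nat_lit 17) (nat_lit 0) (.cons (.ev (nat_lit 20362260367722440665457844420611) (nat_lit 2)) (.cons (.ev (nat_lit 10405113814801831317240180761559041) (nat_lit 2)) (.cons (.br (nat_lit 17) (nat_lit 0) (.cons (.ev (nat_lit 20362260367722440665457844420611) (nat_lit 2)) (.cons (.ev (nat_lit 10405113814801831317240180761559041) (nat_lit 2)) (.cons (.kr (nat_lit 174224571863599721460484430107003490140163) (nat_lit 680564754124287739504239253444274160128) (nat_lit 0) (nat_lit 2)) .nil)))) (.cons (.br (nat_lit 17) (nat_lit 0) (.cons (.ev (nat_lit 20362260367722440665457844420611)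 (nat_lit 2)) (.cons (.ev (nat_lit 10405113814801831317240180761559041) (nat_lit 2)) (.cons (.kr (nat_lit 174224571863599721460484430107003490140163) (nat_lit 680564754124287739504239253444274160128) (nat_lit 0) (nat_lit 2)) .nil)))) .nil))))),
 (.br (nat_lit 2) (nat_lit 0) (.cons (.br (nat_lit 8) (nat_lit 0) (.cons (.br (nat_lit 14) (nat_lit 0) (.cons (.kr (nat_lit 5192297168019837449875573643936000) (nat_lit 1329227995784915891422609827539517440) (nat_lit 1) (nat_lit 0)) (.cons (.br (nat_lit 15) (nat_lit 0) (.cons (.ev (nat_lit 2668860946925890659919344321400144387) (nat_lit 2)) (.cons (.rf (nat_lit 1) (nat_lit 582169141679169)) .nil))) .nil))) (.cons (.br (nat_lit 11) (nat_lit 0) (.cons (.kr (nat_lit 5192297168019837449875573643936000) (nat_lit 1329227995784915891422609827539517440) (nat_lit 1) (nat_lit 0)) (.cons (.br (nat_lit 15) (nat_lit 0) (.cons (.ev (nat_lit 2658476512284106608100119972591698433) (nat_lit 2)) (.cons (.rf (nat_lit 1) (nat_lit 582172359758913)) .nil))) .nil))) (.cons (.br (nat_lit 11) (nat_lit 0) (.cons (.ev (nat_lit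 31174460324255116507390403722610183) (nat_lit 3)) (.cons (.rf (nat_lit 179) (nat_lit 19003409607671649345)) .nil))) (.cons (.br (nat_lit 16) (nat_lit 0) (.cons (.ev (nat_lit 20362260367722440665457810866177) (nat_lit 2)) (.cons (.ev (nat_lit 10405113814801831317240180795113475) (nat_lit 2)) (.cons (.rf (nat_lit 180) (nat_lit 19926519232773908561233952)) (.cons (.br (nat_lit 16) (nat_lit 0) (.cons (.ev (nat_lit 20362260367722440665457810866177) (nat_lit 2)) (.cons (.ev (nat_lit 10405113814801831317240180795113475) (nat_lit 2)) (.cons (.rf (nat_lit 180) (nat_lit 19926519232773908561233952)) .nil)))) .nil))))) .nil))))) (.cons (.rf (nat_lit 183) (nat_lit 583706118939841765935136)) (.cons (.rf (nat_lit 184) (nat_lit 583706118939841765935136)) (.cons (.rf (nat_lit 185) (nat_lit 583706118939841765935136)) (.cons (.rf (nat_lit 186) (nat_lit 583706118939841765935136)) (.cons (.br (nat_lit 5) (nat_lit 0) (.cons (.rf (nat_lit 183) (nat_lit 583706118939841665176611)) (.cons (.rf (nat_lit 184) (nat_lit 583706118939841665176611)) (.cons (.rf (nat_lit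 185) (nat_lit 583706118939841665176611)) (.cons (.rf (nat_lit 186) (nat_lit 583706118939841665176611)) (.cons (.br (nat_lit 8) (nat_lit 0) (.cons (.br (nat_lit 14) (nat_lit 0) (.cons (.kr (nat_lit 20361638979814121140514608644097) (nat_lit 10384594336039674899751134402970112) (nat_lit 0) (nat_lit 2)) (.cons (.ev (nat_lit 340287559217797003031888705044290273537) (nat_lit 1)) (.cons (.br (nat_lit 15) (nat_lit 0) (.cons (.ev (nat_lit 341611594917032869068466523909690228736) (nat_lit 1)) (.cons (.ev (nat_lit 2668860946925890659919344321400144387) (nat_lit 2)) .nil))) .nil)))) (.cons (.br (nat_lit 11) (nat_lit 0) (.cons (.kr (nat_lit 20361638979814121140514608644097) (nat_lit 10384594336039674899751134402970112) (nat_lit 0) (nat_lit 2)) (.cons (.ev (nat_lit 340282367000476111005979092861296115968) (nat_lit 1)) (.cons (.br (nat_lit 15) (nat_lit 0) (.cons (.ev (nat_lit 341616787292810076678171282581938503681) (nat_lit 1)) (.cons (.ev (nat_lit 2658476512284106608100119972591698433) (nat_lit 2)) .nil))) .nil)))) (.cons (.br (nat_lit 11) (nat_lit 0)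 (.cons (.ev (nat_lit 31174460324255116507390403655501315) (nat_lit 3)) (.cons (.ev (nat_lit 1374421768956458249979811941920370983941) (nat_lit 4)) (.cons (.br (nat_lit 14) (nat_lit 0) (.cons (.ev (nat_lit 4102039153728769797698740510369209778181) (nat_lit 4)) (.cons (.ev (nat_lit 5192377017574982400502446472429571) (nat_lit 2)) .nil))) .nil)))) (.cons (.br (nat_lit 11) (nat_lit 0) (.cons (.ev (nat_lit 1361139872640974095344998186562900723207) (nat_lit 3)) (.cons (.ev (nat_lit 340282367000477324654165471839404491009) (nat_lit 1)) (.cons (.br (nat_lit 14) (nat_lit 0) (.cons (.ev (nat_lit 340287579579434769197823466585085509889) (nat_lit 1)) (.cons (.ev (nat_lit 680569987145350271174972476456442135042) (nat_lit 2)) .nil))) .nil)))) (.cons (.br (nat_lit 17) (nat_lit 0) (.cons (.ev (nat_lit 20362260367722440665457844420611) (nat_lit 2)) (.cons (.ev (nat_lit 10405113814801831317240180761559041) (nat_lit 2)) (.cons (.br (nat_lit 17) (nat_lit 0) (.cons (.ev (nat_lit 20362260367722440665457844420611) (nat_lit 2)) (.cons (.ev (nat_lit 10405113814801831317240180761559041)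 (nat_lit 2)) (.cons (.kr (nat_lit 680564754124287739504240097864909324289) (nat_lit 174224571863599721460484429825541398331904) (nat_lit 0) (nat_lit 2)) .nil)))) (.cons (.br (nat_lit 17) (nat_lit 0) (.cons (.ev (nat_lit 20362260367722440665457844420611) (nat_lit 2)) (.cons (.ev (nat_lit 10405113814801831317240180761559041) (nat_lit 2)) (.cons (.kr (nat_lit 680564754124287739504240097864909324289) (nat_lit 174224571863599721460484429825541398331904) (nat_lit 0) (nat_lit 2)) .nil)))) .nil))))) .nil)))))) (.cons (.br (nat_lit 8) (nat_lit 0) (.cons (.br (nat_lit 14) (nat_lit 0) (.cons (.kr (nat_lit 20361638979814121140514608644097) (nat_lit 10384594336039674899751134402970112) (nat_lit 0) (nat_lit 2)) (.cons (.rf (nat_lit 187) (nat_lit 677582165103132179601393696)) (.cons (.rf (nat_lit 187) (nat_lit 640105464695078675084743715)) .nil)))) (.cons (.br (nat_lit 11) (nat_lit 0) (.cons (.kr (nat_lit 20361638979814121140514608644097) (nat_lit 10384594336039674899751134402970112) (nat_lit 0) (nat_lit 2)) (.cons (.rf (nat_lit 188) (nat_lit 677582165103132179601393696))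 (.cons (.rf (nat_lit 188) (nat_lit 640105464695078675084743715)) .nil)))) (.cons (.br (nat_lit 11) (nat_lit 0) (.cons (.ev (nat_lit 5327317257267719262818665865389539847) (nat_lit 3)) (.cons (.rf (nat_lit 189) (nat_lit 677582165103132179601393696)) (.cons (.rf (nat_lit 189) (nat_lit 640105464695078675084743715)) .nil)))) (.cons (.rf (nat_lit 190) (nat_lit 677582165103132179601393696)) (.cons (.rf (nat_lit 190) (nat_lit 640105464695078675084743715)) .nil)))))) .nil))))))) .nil))))))),
 (.br (nat_lit 7) (nat_lit 0) (.cons (.ev (nat_lit 10404955977446785393651795628261891) (nat_lit 2)) (.cons (.kr (nat_lit 79229376199343923244077940737) (nat_lit 10404876126673307071881602979069952) (nat_lit 0) (nat_lit 1)) (.cons (.ev (nat_lit 2668860946925890659919344321400143873) (nat_lit 2)) (.cons (.br (nat_lit 8) (nat_lit 0) (.cons (.ev (nat_lit 10404955977446785393088854298329601) (nat_lit 2)) (.cons (.ev (nat_lit 2668860946925890659918781380003102723) (nat_lit 2)) (.cons (.br (nat_lit 5) (nat_lit 0) (.cons (.ev (nat_lit 31174302486900144370778313360409605)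 (nat_lit 3)) (.cons (.ev (nat_lit 1361139872798811450317134798653195813889) (nat_lit 3)) (.cons (.br (nat_lit 15) (nat_lit 0) (.cons (.ev (nat_lit 1366477553968147313153476384242580586501) (nat_lit 3)) (.cons (.br (nat_lit 16) (nat_lit 0) (.cons (.zr (nat_lit 1361129488203849168140880929731872030720) (nat_lit 2668840585905871457746378160070590981) (nat_lit 16) (nat_lit 5)) .nil)) .nil))) .nil)))) (.cons (.br (nat_lit 5) (nat_lit 0) (.cons (.rf (nat_lit 1) (nat_lit 581932810614849)) (.cons (.br (nat_lit 15) (nat_lit 0) (.cons (.ev (nat_lit 341616787292810076678171564061193404416) (nat_lit 1)) (.cons (.ev (nat_lit 13323454259719525595736008462356840963) (nat_lit 4)) .nil))) (.cons (.br (nat_lit 15) (nat_lit 0) (.cons (.ev (nat_lit 2689630295925750097633238359269313035) (nat_lit 4)) (.cons (.ev (nat_lit 87112291124136644037901433331419946483968) (nat_lit 1)) .nil))) .nil)))) .nil))))) .nil))))),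
 (.br (nat_lit 5) (nat_lit 0) (.cons (.ev (nat_lit 2658476830439532408010109052950806529) (nat_lit 3)) (.cons (.rf (nat_lit 1) (nat_lit 616257180508225)) .nil))),
 (.br (nat_lit 16) (nat_lit 0) (.cons (.ev (nat_lit 341616787292810076678171564061193404416) (nat_lit 1)) (.cons (.ev (nat_lit 341611615199134191932287536215510483200) (nat_lit 1)) .nil))),
 (.br (nat_lit 5) (nat_lit 0) (.cons (.ev (nat_lit 20362260367722441228399207907331) (nat_lit 2)) (.cons (.ev (nat_lit 1329227996713385069611409370624754177) (nat_lit 2)) (.cons (.br (nat_lit 8) (nat_lit 0) (.cons (.ev (nat_lit 2658476353211238893339115922586075137) (nat_lit 2)) (.cons (.ev (nat_lit 31174302491716958183305351478378497) (nat_lit 3)) (.cons (.br (nat_lit 15) (nat_lit 0) (.cons (.ev (nat_lit 7975388812336420157060931163097531399) (nat_lit 3)) (.cons (.rf (nat_lit 2) (nat_lit 19068677825886526529)) .nil))) .nil)))) (.cons (.br (nat_lit 15) (nat_lit 0) (.cons (.ev (nat_lit 2658476353211238893339115922586075137) (nat_lit 2)) (.cons (.br (nat_lit 16) (nat_lit 0) (.cons (.ev (nat_lit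 5327317096954484212686628094805540869) (nat_lit 3)) (.cons (.ev (nat_lit 340287559297335854740908717798324240640) (nat_lit 1)) .nil))) (.cons (.ev (nat_lit 7975388812336420157060931163097531399) (nat_lit 3)) .nil)))) .nil))))),
 (.br (nat_lit 7) (nat_lit 0) (.cons (.ev (nat_lit 20362260367722441228399207907331) (nat_lit 2)) (.cons (.ev (nat_lit 2658476353211238893338552981189033987) (nat_lit 2)) (.cons (.br (nat_lit 5) (nat_lit 0) (.cons (.ev (nat_lit 10405115052741870891978930776178689) (nat_lit 3)) (.cons (.ev (nat_lit 1361139872798811450317134798653195813889) (nat_lit 3)) (.cons (.br (nat_lit 15) (nat_lit 0) (.cons (.ev (nat_lit 1366456784780713154879997584859996357633) (nat_lit 3)) (.cons (.ev (nat_lit 1334420293575546730111636510991385090) (nat_lit 2)) .nil))) .nil)))) (.cons (.br (nat_lit 5) (nat_lit 0) (.cons (.rf (nat_lit 1) (nat_lit 616223829499969)) (.cons (.br (nat_lit 15) (nat_lit 0) (.cons (.ev (nat_lit 1363808713701622689942244074084414914561) (nat_lit 3)) (.cons (.ev (nat_lit 1334420293575546730111636510991385090) (nat_lit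 2)) .nil))) (.cons (.br (nat_lit 15) (nat_lit 0) (.cons (.ev (nat_lit 1344865813745948873048692594871304705) (nat_lit 2)) (.cons (.ev (nat_lit 348451802203871421302089795592145548477441) (nat_lit 3)) .nil))) .nil)))) .nil)))))]

theorem c7 : chkAll C T R L7 (nat_lit 180) = true := by decide +kernel

theorem l7 : (nat_lit 180) + L7.length = (nat_lit 197) := by decide +kernel

/-- part of the certificates -/
def L8 : List Prf := [(.br (nat_lit 14) (nat_lit 0) (.cons (.ev (nat_lit 1329248278504004534467916249077710848) (nat_lit 1)) .nil)),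
 (.br (nat_lit 5) (nat_lit 0) (.cons (.ev (nat_lit 1329227996713385069611409370607976962) (nat_lit 2)) (.cons (.rf (nat_lit 196) (nat_lit 19926519232773908460475427)) (.cons (.ev (nat_lit 10404955975019489021456797988421633) (nat_lit 2)) (.cons (.br (nat_lit 7) (nat_lit 0) (.cons (.rf (nat_lit 1) (nat_lit 616216378326081)) (.cons (.br (nat_lit 16) (nat_lit 0) (.cons (.ev (nat_lit 341616787292811290326357380080741646593) (nat_lit 1)) (.cons (.ev (nat_lit 340287559297335854740908717798324240640) (nat_lit 1)) .nil))) (.cons (.br (nat_lit 8) (nat_lit 0) (.cons (.rf (nat_lit 197) (nat_lit 661701333108527519141953)) (.cons (.ev (nat_lit 87112285931839785507814690366940298412032) (nat_lit 1)) .nil))) .nil)))) .nil))))),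
 (.br (nat_lit 5) (nat_lit 0) (.cons (.rf (nat_lit 195) (nat_lit 19926519232773908460475427)) (.cons (.rf (nat_lit 196) (nat_lit 19926519232773908460475427)) (.cons (.ev (nat_lit 10404955975019489021456797988421633) (nat_lit 2)) (.cons (.br (nat_lit 7) (nat_lit 0) (.cons (.ev (nat_lit 20362260367722441228399174352897) (nat_lit 2)) (.cons (.ev (nat_lit 1369104856496095128603303750885517164551) (nat_lit 3)) (.cons (.br (nat_lit 8) (nat_lit 0) (.cons (.ev (nat_lit 7996157999775395244353946442216375297) (nat_lit 3)) (.cons (.ev (nat_lit 20362260367722440665457844420611) (nat_lit 2)) .nil))) .nil)))) (.cons (.br (nat_lit 7) (nat_lit 0) (.cons (.br (nat_lit 15) (nat_lit 0) (.cons (.ev (nat_lit 341611615199134191932287254736222028033) (nat_lit 1)) (.cons (.br (nat_lit 16) (nat_lit 0) (.cons (.ev (nat_lit 341616787292811290326357661560030101760) (nat_lit 1)) .nil)) .nil))) (.cons (.br (nat_lit 8) (nat_lit 0) (.cons (.ev (nat_lit 341616787292811290326357380080741646593) (nat_lit 1)) (.cons (.br (nat_lit 16) (nat_lit 0) (.cons (.ev (nat_lit 2724990104038294473573007431941390732289)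 (nat_lit 4)) .nil)) .nil))) (.cons (.br (nat_lit 8) (nat_lit 0) (.cons (.ev (nat_lit 341616787292811290326357380080741646593) (nat_lit 1)) (.cons (.ev (nat_lit 20362260367722440665457844420611) (nat_lit 2)) .nil))) (.cons (.br (nat_lit 8) (nat_lit 0) (.cons (.br (nat_lit 16) (nat_lit 0) (.cons (.zr (nat_lit 1363787924072083501431303244976455024640) (nat_lit 31336322841268608696469442850193411) (nat_lit 16) (nat_lit 8)) .nil)) (.cons (.ev (nat_lit 20362260367722440665457844420611) (nat_lit 2)) (.cons (.ev (nat_lit 87112291144339825479038839699252942274560) (nat_lit 1)) .nil)))) .nil))))) .nil)))))),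
 (.br (nat_lit 14) (nat_lit 0) (.cons (.rf (nat_lit 192) (nat_lit 583706118939841765935136)) (.cons (.rf (nat_lit 192) (nat_lit 583706118939841665176611)) (.cons (.br (nat_lit 15) (nat_lit 0) (.cons (.ev (nat_lit 2668860946925890659919344321400143873) (nat_lit 2)) (.cons (.ev (nat_lit 2668860946925890659919344321366589443) (nat_lit 2)) (.cons (.ev (nat_lit 10664998584443383258291293606685704719) (nat_lit 4)) (.cons (.br (nat_lit 8) (nat_lit 0) (.cons (.rf (nat_lit 193) (nat_lit 19926519232773908561233952)) (.cons (.rf (nat_lit 193) (nat_lit 19926519232773908460475427)) (.cons (.ev (nat_lit 2658476353208811596966357983549194753) (nat_lit 2)) (.cons (.br (nat_lit 2) (nat_lit 0) (.cons (.rf (nat_lit 1) (nat_lit 616257183650881)) (.cons (.rf (nat_lit 194) (nat_lit 677582165103132179601393696)) (.cons (.br (nat_lit 5) (nat_lit 0) (.cons (.rf (nat_lit 194) (nat_lit 677582165103132179500635171)) (.cons (.ev (nat_lit 87112285931839784294166504269441478492417) (nat_lit 1)) .nil))) .nil)))) .nil))))) .nil))))) (.cons (.br (nat_lit 7) (nat_lit 0) (.cons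 (.kr (nat_lit 4740813226943354765313) (nat_lit 5192296858534827700588090367148288) (nat_lit 0) (nat_lit 2)) (.cons (.kr (nat_lit 5192296858534827700588090367148288) (nat_lit 4740813226943371542528) (nat_lit 1) (nat_lit 0)) (.cons (.kr (nat_lit 20282410817336750291068483796993) (nat_lit 10384672945232169665513778573214208) (nat_lit 0) (nat_lit 2)) (.cons (.br (nat_lit 15) (nat_lit 0) (.cons (.ev (nat_lit 2668860946925890659918781380003102723) (nat_lit 2)) (.cons (.ev (nat_lit 2668860946925890659918781380036657153) (nat_lit 2)) (.cons (.ev (nat_lit 2658476353208811596966357983549194753) (nat_lit 2)) (.cons (.br (nat_lit 2) (nat_lit 0) (.cons (.rf (nat_lit 1) (nat_lit 582172355695681)) (.cons (.br (nat_lit 5) (nat_lit 0) (.cons (.ev (nat_lit 340282387203658765791571558193111826689) (nat_lit 1)) (.cons (.rf (nat_lit 138) (nat_lit 19993735678034207414686755)) .nil))) (.cons (.br (nat_lit 5) (nat_lit 0) (.cons (.rf (nat_lit 138) (nat_lit 19993735678034207515445280)) (.cons (.ev (nat_lit 87113620372335300914624288643014614581248) (nat_lit 1)) .nil)))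 .nil)))) .nil))))) .nil))))) (.cons (.ev (nat_lit 2668860946928299066825607840459129347) (nat_lit 2)) (.cons (.br (nat_lit 2) (nat_lit 0) (.cons (.br (nat_lit 7) (nat_lit 0) (.cons (.ev (nat_lit 20362260367722441228399207907331) (nat_lit 2)) (.cons (.br (nat_lit 8) (nat_lit 0) (.cons (.ev (nat_lit 2668861424159038915196910412906234883) (nat_lit 3)) (.cons (.rf (nat_lit 1) (nat_lit 616223897654337)) .nil))) (.cons (.br (nat_lit 8) (nat_lit 0) (.cons (.ev (nat_lit 18671520659078483390709093365694467087) (nat_lit 4)) (.cons (.ev (nat_lit 20362260367722440665457810866177) (nat_lit 2)) (.cons (.br (nat_lit 15) (nat_lit 0) (.cons (.ev (nat_lit 340287579500516091674861390913230405888) (nat_lit 1)) (.cons (.rf (nat_lit 2) (nat_lit 19068677825888621633)) .nil))) .nil)))) (.cons (.br (nat_lit 8) (nat_lit 0) (.cons (.rf (nat_lit 1) (nat_lit 616223930160193)) (.cons (.br (nat_lit 16) (nat_lit 0) (.cons (.ev (nat_lit 340287579500516091674861672392518861057) (nat_lit 1)) (.cons (.ev (nat_lit 340282367000476111005979374340584571137) (nat_lit 1)) .nil)))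 (.cons (.ev (nat_lit 20362260367722440665457810866177) (nat_lit 2)) .nil)))) .nil))))) (.cons (.rf (nat_lit 195) (nat_lit 19926519232773908561233952)) (.cons (.rf (nat_lit 196) (nat_lit 19926519232773908561233952)) (.cons (.rf (nat_lit 198) (nat_lit 19926519232773908561233952)) (.cons (.rf (nat_lit 199) (nat_lit 19926519232773908561233952)) (.cons (.br (nat_lit 5) (nat_lit 0) (.cons (.rf (nat_lit 195) (nat_lit 19926519232773908460475427)) (.cons (.rf (nat_lit 196) (nat_lit 19926519232773908460475427)) (.cons (.rf (nat_lit 198) (nat_lit 19926519232773908460475427)) (.cons (.rf (nat_lit 199) (nat_lit 19926519232773908460475427)) (.cons (.br (nat_lit 7) (nat_lit 0) (.cons (.ev (nat_lit 20362260367722441228399174352897) (nat_lit 2)) (.cons (.br (nat_lit 8) (nat_lit 0) (.cons (.br (nat_lit 16) (nat_lit 0) (.cons (.zr (nat_lit 1361129569095801895723682963833030182912) (nat_lit 2668840665135242897829204482932736003) (nat_lit 16) (nat_lit 11)) .nil)) (.cons (.ev (nat_lit 348451802203871421302089796155121305256967) (nat_lit 3)) .nil))) (.cons (.br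 (nat_lit 16) (nat_lit 0) (.cons (.ev (nat_lit 20362260367722440665457844420611) (nat_lit 2)) (.cons (.ev (nat_lit 340287559297335854740908717798324240640) (nat_lit 1)) (.cons (.br (nat_lit 8) (nat_lit 0) (.cons (.ev (nat_lit 1363787944514193386261509664697177473029) (nat_lit 3)) .nil)) .nil)))) (.cons (.br (nat_lit 8) (nat_lit 0) (.cons (.ev (nat_lit 7975388812336420157061494104494572549) (nat_lit 3)) (.cons (.br (nat_lit 15) (nat_lit 0) (.cons (.ev (nat_lit 340287559297335854740908436319069339905) (nat_lit 1)) .nil)) .nil))) .nil))))) .nil)))))) .nil))))))) .nil))))))),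
 (.br (nat_lit 14) (nat_lit 0) (.cons (.kr (nat_lit 79229376199343923244077940737) (nat_lit 10404876126673307071881602979069952) (nat_lit 0) (nat_lit 1)) (.cons (.kr (nat_lit 10404876126673307071881602962292737) (nat_lit 79229376199343923244094717952) (nat_lit 0) (nat_lit 1)) (.cons (.kr (nat_lit 5192296858534827700588090367148032) (nat_lit 1208944266358702884257792) (nat_lit 7) (nat_lit 0)) (.cons (.kr (nat_lit 10404876126673307071881602979069953) (nat_lit 79229376199343923244077941248) (nat_lit 0) (nat_lit 2)) (.cons (.kr (nat_lit 5212579268138479443069631656361984) (nat_lit 310693972534447845318590464) (nat_lit 7) (nat_lit 0)) .nil)))))),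
 (.br (nat_lit 8) (nat_lit 0) (.cons (.kr (nat_lit 79228162514336395187581878272) (nat_lit 309485028268089142434332672) (nat_lit 7) (nat_lit 0)) (.cons (.br (nat_lit 14) (nat_lit 0) (.cons (.ev (nat_lit 2668860946925890659918781380003103233) (nat_lit 2)) (.cons (.rf (nat_lit 1) (nat_lit 582139063217378)) .nil))) (.cons (.br (nat_lit 14) (nat_lit 0) (.cons (.ev (nat_lit 2658476353208811596966357983549194753) (nat_lit 2)) (.cons (.ev (nat_lit 340287559217797003031888423565001818368) (nat_lit 1)) (.cons (.br (nat_lit 15) (nat_lit 0) (.cons (.ev (nat_lit 2658476512284106608100119972591698433) (nat_lit 2)) (.cons (.rf (nat_lit 79) (nat_lit 21166104803209398416672800)) .nil))) .nil)))) (.cons (.br (nat_lit 15) (nat_lit 0) (.cons (.rf (nat_lit 1) (nat_lit 581933106113762)) (.cons (.ev (nat_lit 2658476512284106608100119972591698433) (nat_lit 2)) (.cons (.br (nat_lit 14) (nat_lit 0) (.cons (.rf (nat_lit 2) (nat_lit 19068677825882139874)) (.cons (.ev (nat_lit 87113620352053199582352771986825743958016) (nat_lit 1)) .nil))) .nil)))) .nil))))),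
 (.br (nat_lit 12) (nat_lit 0) (.cons (.ev (nat_lit 20282719093402377335028345470976) (nat_lit 1)) .nil)),
 (.br (nat_lit 8) (nat_lit 0) (.cons (.kr (nat_lit 79228167236630820463189164032) (nat_lit 5192297168019837449875565054001152) (nat_lit 9) (nat_lit 0)) (.cons (.br (nat_lit 11) (nat_lit 0) (.cons (.ev (nat_lit 2658476512284106608100682913988739587) (nat_lit 2)) (.cons (.rf (nat_lit 1) (nat_lit 582035984005346)) .nil))) (.cons (.br (nat_lit 11) (nat_lit 0) (.cons (.ev (nat_lit 2658476353208811596966357983549194753) (nat_lit 2)) (.cons (.ev (nat_lit 340282367000476111005979374340584571137) (nat_lit 1)) (.cons (.br (nat_lit 15) (nat_lit 0) (.cons (.ev (nat_lit 2668860946925890659919344321400144387) (nat_lit 2)) (.cons (.rf (nat_lit 83) (nat_lit 21166104803209398416672800)) .nil))) .nil)))) (.cons (.br (nat_lit 15) (nat_lit 0) (.cons (.rf (nat_lit 1) (nat_lit 581933005453538)) (.cons (.ev (nat_lit 2668860946925890659919344321400144387) (nat_lit 2)) (.cons (.br (nat_lit 11) (nat_lit 0) (.cons (.rf (nat_lit 203) (nat_lit 646192708113796404289))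 (.cons (.ev (nat_lit 87113620352053199582352771986825743958016) (nat_lit 1)) .nil))) .nil)))) .nil))))),
 (.br (nat_lit 8) (nat_lit 0) (.cons (.rf (nat_lit 204) (nat_lit 19922863430251378991269920)) (.cons (.rf (nat_lit 202) (nat_lit 19922863430251378991269920)) (.cons (.ev (nat_lit 2658476353211238893338552981189034497) (nat_lit 2)) (.cons (.br (nat_lit 11) (nat_lit 0) (.cons (.rf (nat_lit 1) (nat_lit 581931931712738)) (.cons (.ev (nat_lit 2658476512284106608100119972591698433) (nat_lit 2)) (.cons (.br (nat_lit 14) (nat_lit 0) (.cons (.ev (nat_lit 2668861106003594152034576500491551235) (nat_lit 2)) (.cons (.ev (nat_lit 87113615180038442375092812149837115949056) (nat_lit 1)) .nil))) .nil)))) .nil))))),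
 (.br (nat_lit 14) (nat_lit 0) (.cons (.kr (nat_lit 79228167236630820467484131584) (nat_lit 5192297168019837450157040047489024) (nat_lit 1) (nat_lit 0)) (.cons (.kr (nat_lit 5192297168019837450157040030711809) (nat_lit 79228167236630820467484131584) (nat_lit 0) (nat_lit 2)) (.cons (.kr (nat_lit 10384594336039674900032605101490177) (nat_lit 20361638979814120859043910124032) (nat_lit 0) (nat_lit 2)) (.cons (.br (nat_lit 15) (nat_lit 0) (.cons (.ev (nat_lit 5348086602539194730078675133410575875) (nat_lit 3)) (.cons (.ev (nat_lit 5348086602539194730078675133343467015) (nat_lit 3)) (.cons (.ev (nat_lit 5327317096954484212686628094805541379) (nat_lit 3)) .nil)))) .nil))))),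
 (.br (nat_lit 8) (nat_lit 0) (.cons (.rf (nat_lit 204) (nat_lit 19922863430251378991269920)) (.cons (.rf (nat_lit 202) (nat_lit 19922863430251378991269920)) (.cons (.ev (nat_lit 2658476353211238893339115922586075651) (nat_lit 2)) (.cons (.ev (nat_lit 340282366920938463463374890010568360193) (nat_lit 1)) (.cons (.br (nat_lit 11) (nat_lit 0) (.cons (.br (nat_lit 15) (nat_lit 0) (.cons (.ev (nat_lit 340287579500516091674861390913230405888) (nat_lit 1)) (.cons (.ev (nat_lit 2668861106001185745128312981432566275) (nat_lit 2)) .nil))) (.cons (.br (nat_lit 14) (nat_lit 0) (.cons (.kr (nat_lit 10384594336039674900032605101490177) (nat_lit 20361638979814120859043910124032) (nat_lit 0) (nat_lit 2)) (.cons (.br (nat_lit 16) (nat_lit 0) (.cons (.ev (nat_lit 1361139872798806595724389282775122052611) (nat_lit 3)) .nil)) .nil))) (.cons (.rf (nat_lit 206) (nat_lit 677582165103132179601393696)) (.cons (.br (nat_lit 16) (nat_lit 0) (.cons (.br (nat_lit 15) (nat_lit 0) (.cons (.ev (nat_lit 5337701532834189414325301239932257797) (nat_lit 3)) .nil)) (.cons (.ev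 (nat_lit 5316932663550621310686852542315365889) (nat_lit 3)) (.cons (.ev (nat_lit 1361129488047256997392289912487523123713) (nat_lit 3)) .nil)))) .nil))))) .nil)))))),
 (.br (nat_lit 15) (nat_lit 0) (.cons (.ev (nat_lit 5316932663550621310686852542315364869) (nat_lit 3)) (.cons (.ev (nat_lit 5316932663550621310686852542382473729) (nat_lit 3)) (.cons (.kr (nat_lit 10384594336039674900032605101490177) (nat_lit 20361638979814120859043910124032) (nat_lit 0) (nat_lit 2)) (.cons (.ev (nat_lit 5316932663550621310686852542315365889) (nat_lit 3)) (.cons (.ev (nat_lit 348454460659386391472376186393820649227781) (nat_lit 3)) .nil)))))),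
 (.br (nat_lit 14) (nat_lit 0) (.cons (.kr (nat_lit 10384594336039674900032605101490177) (nat_lit 20361638979814120859043910124032) (nat_lit 0) (nat_lit 2)) (.cons (.ev (nat_lit 1361129488362931707336564262550940942851) (nat_lit 3)) (.cons (.br (nat_lit 15) (nat_lit 0) (.cons (.ev (nat_lit 5316932663550621310686852542416029187) (nat_lit 3)) (.cons (.ev (nat_lit 5337701532834189414325301239898703367) (nat_lit 3)) .nil))) .nil)))),
 (.br (nat_lit 14) (nat_lit 0) (.cons (.kr (nat_lit 5192297168019837450157040030711809) (nat_lit 79228167236630820467484131584) (nat_lit 0) (nat_lit 2)) (.cons (.kr (nat_lit 10384594336039674900032605101490177) (nat_lit 20361638979814120859043910124032) (nat_lit 0) (nat_lit 2)) (.cons (.kr (nat_lit 5192297168019837450157040047489025) (nat_lit 79228167236630820467484131840) (nat_lit 0) (nat_lit 2)) (.cons (.br (nat_lit 15) (nat_lit 0) (.cons (.ev (nat_lit 5348086602539194730078675133343466497) (nat_lit 3)) (.cons (.ev (nat_lit 5348086602539194730078675133410574337) (nat_lit 3)) (.cons (.ev (nat_lit 5327317096954484212686628094805540869)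 (nat_lit 3)) .nil)))) .nil))))),
 (.br (nat_lit 15) (nat_lit 0) (.cons (.ev (nat_lit 5316932663550621310686852542382473219) (nat_lit 3)) (.cons (.ev (nat_lit 5316932663550621310686852542315365379) (nat_lit 3)) (.cons (.ev (nat_lit 5337701532834189414325301239932257287) (nat_lit 3)) .nil)))),
 (.br (nat_lit 8) (nat_lit 0) (.cons (.br (nat_lit 11) (nat_lit 0) (.cons (.br (nat_lit 15) (nat_lit 0) (.cons (.ev (nat_lit 2668861106001185745128312981399011841) (nat_lit 2)) (.cons (.rf (nat_lit 1) (nat_lit 582172449939618)) .nil))) (.cons (.br (nat_lit 14) (nat_lit 0) (.cons (.kr (nat_lit 10384594336039674900032605101490177) (nat_lit 20361638979814120859043910124032) (nat_lit 0) (nat_lit 2)) (.cons (.rf (nat_lit 1) (nat_lit 582139163943074)) .nil))) (.cons (.rf (nat_lit 209) (nat_lit 19926519232773908561233952)) (.cons (.br (nat_lit 14) (nat_lit 0) (.cons (.rf (nat_lit 1) (nat_lit 582036185391266)) (.cons (.rf (nat_lit 209) (nat_lit 19922863430251378890511395)) (.cons (.br (nat_lit 15) (nat_lit 0) (.cons (.ev (nat_lit 5322205694221093053876050407748273152)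 (nat_lit 3)) (.cons (.ev (nat_lit 87113615159835259729751952931723895898113) (nat_lit 1)) .nil))) .nil)))) .nil))))) (.cons (.br (nat_lit 15) (nat_lit 0) (.cons (.ev (nat_lit 2658476512284106608100682913955184643) (nat_lit 2)) (.cons (.ev (nat_lit 2658476353208811596966357983549194243) (nat_lit 2)) (.cons (.ev (nat_lit 2658476512284106608100682913988739587) (nat_lit 2)) (.cons (.br (nat_lit 5) (nat_lit 0) (.cons (.rf (nat_lit 1) (nat_lit 582169128056994)) (.cons (.br (nat_lit 14) (nat_lit 0) (.cons (.ev (nat_lit 340287579579435973401276316865326547200) (nat_lit 1)) (.cons (.br (nat_lit 16) (nat_lit 0) (.cons (.ev (nat_lit 340287559297334650537455304559523069953) (nat_lit 1)) .nil)) .nil))) (.cons (.br (nat_lit 17) (nat_lit 0) (.cons (.ev (nat_lit 87113615180038442375092812431316387627008) (nat_lit 1)) (.cons (.ev (nat_lit 87113615180117980022598379030831653978368) (nat_lit 1)) .nil))) .nil)))) .nil))))) (.cons (.br (nat_lit 15) (nat_lit 0) (.cons (.ev (nat_lit 2668860946925890659918781380036657153) (nat_lit 2)) (.cons (.ev (nat_lit 2658476353208811596966357983549194243)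 (nat_lit 2)) (.cons (.ev (nat_lit 2668860946925890659918781380003103233) (nat_lit 2)) (.cons (.br (nat_lit 5) (nat_lit 0) (.cons (.rf (nat_lit 1) (nat_lit 582172349279394)) (.cons (.br (nat_lit 11) (nat_lit 0) (.cons (.ev (nat_lit 340282387203658765791571558193111826689) (nat_lit 1)) (.cons (.br (nat_lit 16) (nat_lit 0) (.cons (.ev (nat_lit 340287559297334650537455304559523069953) (nat_lit 1)) .nil)) .nil))) (.cons (.br (nat_lit 17) (nat_lit 0) (.cons (.ev (nat_lit 87113615180038442375092812431316387627008) (nat_lit 1)) (.cons (.ev (nat_lit 87113620372335300914624288643014614581505) (nat_lit 1)) .nil))) .nil)))) .nil))))) (.cons (.ev (nat_lit 2658476353211238893339115922586075137) (nat_lit 2)) (.cons (.br (nat_lit 5) (nat_lit 0) (.cons (.br (nat_lit 14) (nat_lit 0) (.cons (.kr (nat_lit 10384594336039674900032605084712961) (nat_lit 20361638979814120859043926900736) (nat_lit 0) (nat_lit 1)) (.cons (.ev (nat_lit 1361129488362931707336564262550940942851) (nat_lit 3)) (.cons (.br (nat_lit 15) (nat_lit 0) (.cons (.ev (nat_lit 5316932663550621310686852542348919299)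 (nat_lit 3)) (.cons (.ev (nat_lit 5337701532834189414325301239898703367) (nat_lit 3)) .nil))) .nil)))) (.cons (.br (nat_lit 11) (nat_lit 0) (.cons (.kr (nat_lit 10384594336039674900032605084712961) (nat_lit 20361638979814120859043926900736) (nat_lit 0) (nat_lit 1)) (.cons (.ev (nat_lit 1361129488362931707336564262550840279043) (nat_lit 3)) (.cons (.br (nat_lit 15) (nat_lit 0) (.cons (.ev (nat_lit 5327317096954484212686628094771986949) (nat_lit 3)) (.cons (.ev (nat_lit 5348086602539194730078675133309912577) (nat_lit 3)) .nil))) .nil)))) (.cons (.br (nat_lit 11) (nat_lit 0) (.cons (.ev (nat_lit 2668861106001185745128312981399011841) (nat_lit 2)) (.cons (.ev (nat_lit 5316932663550621310686852542382473219) (nat_lit 3)) (.cons (.br (nat_lit 14) (nat_lit 0) (.cons (.ev (nat_lit 5327317096954484212686628094872650757) (nat_lit 3)) (.cons (.ev (nat_lit 5322205694221093053876050407714719232) (nat_lit 3)) .nil))) .nil)))) (.cons (.ev (nat_lit 340282366920938463463374890010568359936) (nat_lit 1)) (.cons (.br (nat_lit 16) (nat_lit 0) (.cons (.br (nat_lit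 14) (nat_lit 0) (.cons (.kr (nat_lit 10384594336039674900032605101490177) (nat_lit 20361638979814120859043910124032) (nat_lit 0) (nat_lit 2)) (.cons (.br (nat_lit 15) (nat_lit 0) (.cons (.ev (nat_lit 5337701532834189414325301239932257287) (nat_lit 3)) .nil)) .nil))) (.cons (.br (nat_lit 11) (nat_lit 0) (.cons (.kr (nat_lit 10384594336039674900032605101490177) (nat_lit 20361638979814120859043910124032) (nat_lit 0) (nat_lit 2)) (.cons (.br (nat_lit 15) (nat_lit 0) (.cons (.ev (nat_lit 5348086602539194730078675133410574337) (nat_lit 3)) .nil)) .nil))) (.cons (.br (nat_lit 11) (nat_lit 0) (.cons (.ev (nat_lit 2668861106001185745128312981432565761) (nat_lit 2)) (.cons (.ev (nat_lit 340282367000477324654165471839387713537) (nat_lit 1)) .nil))) (.cons (.ev (nat_lit 340282366920938463463374890010551582976) (nat_lit 1)) .nil))))) .nil)))))) (.cons (.br (nat_lit 5) (nat_lit 0) (.cons (.br (nat_lit 14) (nat_lit 0) (.cons (.kr (nat_lit 10384594336039674900032605084712961) (nat_lit 20361638979814120859043926900736) (nat_lit 0) (nat_lit 1)) (.cons (.kr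 (nat_lit 5192297168019837450157040030711809) (nat_lit 79228167236630820467484131584) (nat_lit 0) (nat_lit 2)) (.cons (.br (nat_lit 15) (nat_lit 0) (.cons (.ev (nat_lit 5348086602539194730078675133343466497) (nat_lit 3)) (.cons (.ev (nat_lit 5327317096954484212686628094805540869) (nat_lit 3)) .nil))) .nil)))) (.cons (.br (nat_lit 11) (nat_lit 0) (.cons (.kr (nat_lit 10384594336039674900032605084712961) (nat_lit 20361638979814120859043926900736) (nat_lit 0) (nat_lit 1)) (.cons (.kr (nat_lit 5192297168019837450157040030711809) (nat_lit 79228167236630820467484131584) (nat_lit 0) (nat_lit 2)) (.cons (.br (nat_lit 15) (nat_lit 0) (.cons (.ev (nat_lit 5316932663550621310686852542315365379) (nat_lit 3)) (.cons (.ev (nat_lit 5337701532834189414325301239865147399) (nat_lit 3)) .nil))) .nil)))) (.cons (.br (nat_lit 11) (nat_lit 0) (.cons (.rf (nat_lit 1) (nat_lit 581931931778210)) (.cons (.rf (nat_lit 210) (nat_lit 677582165103132179601393696)) (.cons (.ev (nat_lit 5316932663550621310686852542382473219) (nat_lit 3)) .nil)))) (.cons (.br (nat_lit 11)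 (nat_lit 0) (.cons (.br (nat_lit 15) (nat_lit 0) (.cons (.ev (nat_lit 340287579500516091674861390913230405633) (nat_lit 1)) (.cons (.ev (nat_lit 2668861106001185745128312981432565761) (nat_lit 2)) .nil))) (.cons (.br (nat_lit 14) (nat_lit 0) (.cons (.kr (nat_lit 10384594336039674900032605101490177) (nat_lit 20361638979814120859043910124032) (nat_lit 0) (nat_lit 2)) (.cons (.br (nat_lit 16) (nat_lit 0) (.cons (.ev (nat_lit 1361139872798806595724389282775122051073) (nat_lit 3)) .nil)) .nil))) (.cons (.rf (nat_lit 210) (nat_lit 677582165103132179601393696)) (.cons (.br (nat_lit 16) (nat_lit 0) (.cons (.rf (nat_lit 211) (nat_lit 677582165103132179601393696)) (.cons (.ev (nat_lit 5316932663550621310686852542315365379) (nat_lit 3)) (.cons (.ev (nat_lit 1361129488047256997392289912487523123203) (nat_lit 3)) .nil)))) .nil))))) (.cons (.br (nat_lit 11) (nat_lit 0) (.cons (.br (nat_lit 15) (nat_lit 0) (.cons (.br (nat_lit 16) (nat_lit 0) (.cons (.ev (nat_lit 340287559297335854740908717798324240640) (nat_lit 1)) .nil)) (.cons (.ev (nat_lit 2668861106001185745128312981432565761)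 (nat_lit 2)) .nil))) (.cons (.br (nat_lit 14) (nat_lit 0) (.cons (.kr (nat_lit 10384594336039674900032605101490177) (nat_lit 20361638979814120859043910124032) (nat_lit 0) (nat_lit 2)) (.cons (.ev (nat_lit 348454491813325375191202831574650943700993) (nat_lit 3)) .nil))) (.cons (.rf (nat_lit 210) (nat_lit 677582165103132179601393696)) (.cons (.br (nat_lit 14) (nat_lit 0) (.cons (.ev (nat_lit 348454481428573825592723734712525971783683) (nat_lit 3)) (.cons (.rf (nat_lit 211) (nat_lit 677582165103132179601393696)) .nil))) .nil))))) .nil)))))) .nil)))))))]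

theorem c8 : chkAll C T R L8 (nat_lit 197) = true := by decide +kernel

theorem l8 : (nat_lit 197) + L8.length = (nat_lit 213) := by decide +kernel

/-- part of the certificates -/
def L9 : List Prf := [(.br (nat_lit 15) (nat_lit 0) (.cons (.ev (nat_lit 1329248278194524265459798123724472320) (nat_lit 1)) .nil)),
 (.br (nat_lit 5) (nat_lit 0) (.cons (.rf (nat_lit 212) (nat_lit 19926519232773908460475427)) (.cons (.rf (nat_lit 212) (nat_lit 19922863430251378890511395)) (.cons (.kr (nat_lit 79228167236630820467484131328) (nat_lit 5192297168019837450157040030711808) (nat_lit 4) (nat_lit 0)) (.cons (.br (nat_lit 14) (nat_lit 0) (.cons (.ev (nat_lit 2668860946925890659919344321366589443) (nat_lit 2)) (.cons (.ev (nat_lit 2668860946925890659918781380036657153) (nat_lit 2)) (.cons (.kr (nat_lit 79228167236630820467484131584) (nat_lit 5192297168019837450157040047489024) (nat_lit 1) (nat_lit 0)) (.cons (.br (nat_lit 7) (nat_lit 0) (.cons (.kr (nat_lit 20361637770888445359602811273217) (nat_lit 620178982356074389036859392) (nat_lit 0) (nat_lit 1))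 (.cons (.br (nat_lit 8) (nat_lit 0) (.cons (.ev (nat_lit 5316932663550621310686852542382473219) (nat_lit 3)) (.cons (.ev (nat_lit 5348086602539194730078675133343465987) (nat_lit 3)) .nil))) (.cons (.br (nat_lit 8) (nat_lit 0) (.cons (.ev (nat_lit 5327317096954484212686628094872651267) (nat_lit 3)) (.cons (.ev (nat_lit 5316932663550621310686852542382473219) (nat_lit 3)) .nil))) .nil)))) .nil))))) (.cons (.br (nat_lit 15) (nat_lit 0) (.cons (.ev (nat_lit 2658476512284106608100119972591697923) (nat_lit 2)) (.cons (.ev (nat_lit 2658476512284106608100682913988739073) (nat_lit 2)) (.cons (.kr (nat_lit 20361638979814120859043910123521) (nat_lit 10384594336039674900032605101490176) (nat_lit 0) (nat_lit 1)) (.cons (.br (nat_lit 7) (nat_lit 0) (.cons (.kr (nat_lit 20361637770888445359602811273217) (nat_lit 620178982356074389036859392) (nat_lit 0) (nat_lit 1)) (.cons (.ev (nat_lit 2668860946925890659919344321400144387) (nat_lit 2)) (.cons (.br (nat_lit 8) (nat_lit 0) (.cons (.ev (nat_lit 2668860946925890659918781380003103233) (nat_lit 2)) (.cons (.ev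 (nat_lit 5316932663550621310686852542315365379) (nat_lit 3)) .nil))) .nil)))) (.cons (.br (nat_lit 7) (nat_lit 0) (.cons (.kr (nat_lit 20361637770888445359602811273217) (nat_lit 620178982356074389036859392) (nat_lit 0) (nat_lit 1)) (.cons (.br (nat_lit 8) (nat_lit 0) (.cons (.ev (nat_lit 340282387203658765791571276713823371520) (nat_lit 1)) (.cons (.rf (nat_lit 213) (nat_lit 21174441469360359728056352)) .nil))) (.cons (.br (nat_lit 8) (nat_lit 0) (.cons (.ev (nat_lit 340282387203658765791571558193111826689) (nat_lit 1)) (.cons (.br (nat_lit 14) (nat_lit 0) (.cons (.ev (nat_lit 5327317096954484212686628094805541379) (nat_lit 3)) .nil)) .nil))) (.cons (.br (nat_lit 16) (nat_lit 0) (.cons (.br (nat_lit 14) (nat_lit 0) (.cons (.ev (nat_lit 5348086602539194730078675133410575875) (nat_lit 3)) .nil)) (.cons (.kr (nat_lit 79228167236630820467484131584) (nat_lit 5192297168019837450157040047489024) (nat_lit 1) (nat_lit 0)) (.cons (.ev (nat_lit 87113615180117980022598379312310925656320) (nat_lit 1)) .nil)))) .nil))))) .nil)))))) (.cons (.br (nat_lit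 15) (nat_lit 0) (.cons (.ev (nat_lit 2658476512284106608100119972591697923) (nat_lit 2)) (.cons (.ev (nat_lit 2658476512284106608100682913988739073) (nat_lit 2)) (.cons (.kr (nat_lit 20361638979814120859043910123521) (nat_lit 10384594336039674900032605101490176) (nat_lit 0) (nat_lit 1)) (.cons (.br (nat_lit 14) (nat_lit 0) (.cons (.ev (nat_lit 2668860946925890659919344321400144387) (nat_lit 2)) (.cons (.ev (nat_lit 2668860946925890659918781380003103233) (nat_lit 2)) (.cons (.kr (nat_lit 79228167236630820467484131584) (nat_lit 5192297168019837450157040047489024) (nat_lit 1) (nat_lit 0)) (.cons (.br (nat_lit 7) (nat_lit 0) (.cons (.kr (nat_lit 20361637770888445359602811273217) (nat_lit 620178982356074389036859392) (nat_lit 0) (nat_lit 1)) (.cons (.br (nat_lit 8) (nat_lit 0) (.cons (.ev (nat_lit 5348086602539194730078675133410575875) (nat_lit 3)) .nil)) (.cons (.br (nat_lit 8) (nat_lit 0) (.cons (.ev (nat_lit 5327317096954484212686628094805541379) (nat_lit 3)) .nil)) .nil)))) .nil))))) (.cons (.br (nat_lit 7) (nat_lit 0) (.cons (.kr (nat_lit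 20361637770888445359602811273217) (nat_lit 620178982356074389036859392) (nat_lit 0) (nat_lit 1)) (.cons (.br (nat_lit 17) (nat_lit 0) (.cons (.ev (nat_lit 87113615180117980022598379030831653978113) (nat_lit 1)) (.cons (.ev (nat_lit 87113620372335300914624288361535359680768) (nat_lit 1)) .nil))) (.cons (.br (nat_lit 8) (nat_lit 0) (.cons (.rf (nat_lit 80) (nat_lit 21164805349318474890053664)) (.cons (.br (nat_lit 14) (nat_lit 0) (.cons (.ev (nat_lit 5337701532834189414325301239932256259) (nat_lit 3)) .nil)) (.cons (.ev (nat_lit 87113615180117980022598379030831653978113) (nat_lit 1)) .nil)))) (.cons (.ev (nat_lit 87113615180117980022598379312310908878848) (nat_lit 1)) .nil))))) .nil)))))) .nil))))))),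
 (.br (nat_lit 11) (nat_lit 0) (.cons (.kr (nat_lit 620178982356074389020082177) (nat_lit 20361637770888445359602828050432) (nat_lit 0) (nat_lit 1)) (.cons (.ev (nat_lit 2668861106001185745127750040035524611) (nat_lit 2)) (.cons (.kr (nat_lit 620178982356074389036859393) (nat_lit 20361637770888445359602811273728) (nat_lit 0) (nat_lit 2)) (.cons (.rf (nat_lit 201) (nat_lit 677582165103132179601393696)) .nil))))),
 (.br (nat_lit 8) (nat_lit 0) (.cons (.ev (nat_lit 2658476512284106608100682913988739073) (nat_lit 2)) (.cons (.ev (nat_lit 2668860946925890659918781380003102723) (nat_lit 2)) (.cons (.br (nat_lit 11) (nat_lit 0) (.cons (.ev (nat_lit 340287579500516091674861390913230405633) (nat_lit 1)) (.cons (.ev (nat_lit 5316932663550621310686852542315364869) (nat_lit 3)) .nil))) .nil)))),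
 (.br (nat_lit 8) (nat_lit 0) (.cons (.ev (nat_lit 2658476512284106608100682913988739073) (nat_lit 2)) (.cons (.ev (nat_lit 2668860946925890659918781380003102723) (nat_lit 2)) (.cons (.br (nat_lit 11) (nat_lit 0) (.cons (.ev (nat_lit 2668861106001185745128312981432565761) (nat_lit 2)) (.cons (.ev (nat_lit 340282367000477324654165471839387713792) (nat_lit 1)) .nil))) (.cons (.br (nat_lit 11) (nat_lit 0) (.cons (.rf (nat_lit 197) (nat_lit 661686233773830542889035)) (.cons (.rf (nat_lit 206) (nat_lit 677582165103132179601393696)) (.cons (.ev (nat_lit 5316932663550621310686852542315364869) (nat_lit 3)) .nil)))) .nil))))),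
 (.br (nat_lit 5) (nat_lit 0) (.cons (.rf (nat_lit 212) (nat_lit 19926519232773908460475427)) (.cons (.rf (nat_lit 212) (nat_lit 19922863430251378890511395)) (.cons (.rf (nat_lit 214) (nat_lit 19926519232773908460475427)) (.cons (.rf (nat_lit 214) (nat_lit 19922863430251378890511395)) (.cons (.br (nat_lit 7) (nat_lit 0) (.cons (.rf (nat_lit 215) (nat_lit 19926519232773908561233952)) (.cons (.ev (nat_lit 2658476512284106608100119972591697923) (nat_lit 2)) (.cons (.ev (nat_lit 2668860946925890659919344321400143873) (nat_lit 2)) (.cons (.rf (nat_lit 216) (nat_lit 19926519232773908561233952)) (.cons (.br (nat_lit 8) (nat_lit 0) (.cons (.ev (nat_lit 2658476512284106608100682913988739073) (nat_lit 2)) (.cons (.ev (nat_lit 2668860946925890659918781380003102723) (nat_lit 2)) (.cons (.rf (nat_lit 216) (nat_lit 19922863430251378991269920)) (.cons (.br (nat_lit 16) (nat_lit 0) (.cons (.ev (nat_lit 5316932663550621310686852542315364869) (nat_lit 3)) (.cons (.ev (nat_lit 5327317096954484212686628094805542407) (nat_lit 3)) (.cons (.ev (nat_lit 174905136617882465534461931566523152990721)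 (nat_lit 2)) .nil)))) .nil))))) .nil)))))) (.cons (.br (nat_lit 7) (nat_lit 0) (.cons (.rf (nat_lit 215) (nat_lit 19926519232773908561233952)) (.cons (.ev (nat_lit 2658476512284106608100119972591697923) (nat_lit 2)) (.cons (.ev (nat_lit 2668860946925890659919344321400143873) (nat_lit 2)) (.cons (.rf (nat_lit 217) (nat_lit 677582165103132179601393696)) (.cons (.br (nat_lit 8) (nat_lit 0) (.cons (.ev (nat_lit 2658476512284106608100682913988739073) (nat_lit 2)) (.cons (.ev (nat_lit 2668860946925890659918781380003102723) (nat_lit 2)) (.cons (.rf (nat_lit 217) (nat_lit 677578509300609650031429664)) (.cons (.br (nat_lit 11) (nat_lit 0) (.cons (.ev (nat_lit 2668861106001185745128312981432565761) (nat_lit 2)) (.cons (.ev (nat_lit 5316932663550621310686852542315364869) (nat_lit 3)) .nil))) .nil))))) .nil)))))) .nil))))))),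
 (.br (nat_lit 8) (nat_lit 0) (.cons (.br (nat_lit 14) (nat_lit 0) (.cons (.ev (nat_lit 2658476353208811596966357983549194753) (nat_lit 2)) (.cons (.ev (nat_lit 340287579500517295878314804152031576065) (nat_lit 1)) .nil))) (.cons (.br (nat_lit 11) (nat_lit 0) (.cons (.ev (nat_lit 2658476353208811596966357983549194753) (nat_lit 2)) (.cons (.ev (nat_lit 340287559297334650537455304559539847168) (nat_lit 1)) .nil))) (.cons (.ev (nat_lit 2658476353211238893339115922586075651) (nat_lit 2)) (.cons (.br (nat_lit 17) (nat_lit 0) (.cons (.ev (nat_lit 1361129488047256997392289912487590233601) (nat_lit 3)) (.cons (.br (nat_lit 11) (nat_lit 0) (.cons (.ev (nat_lit 1361139872798806595724389282775189160451) (nat_lit 3)) .nil)) (.cons (.ev (nat_lit 174905136617882465534461931566523152990211) (nat_lit 2)) .nil)))) .nil))))),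
 (.br (nat_lit 15) (nat_lit 0) (.cons (.ev (nat_lit 2658476512284106608100119972591698433) (nat_lit 2)) (.cons (.ev (nat_lit 2658476512284106608100682913988739587) (nat_lit 2)) (.cons (.kr (nat_lit 10384594336039674900032605101490177) (nat_lit 20361638979814120859043910124032) (nat_lit 0) (nat_lit 2)) (.cons (.br (nat_lit 7) (nat_lit 0) (.cons (.kr (nat_lit 620178982356074389036859393) (nat_lit 20361637770888445359602811273728) (nat_lit 0) (nat_lit 2)) (.cons (.br (nat_lit 8) (nat_lit 0) (.cons (.ev (nat_lit 340287559217797003031888705044273496065) (nat_lit 1)) .nil)) (.cons (.ev (nat_lit 87113615180117980022598379312310908879105) (nat_lit 1)) .nil)))) .nil))))),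
 (.br (nat_lit 5) (nat_lit 0) (.cons (.rf (nat_lit 212) (nat_lit 19926519232773908460475427)) (.cons (.rf (nat_lit 212) (nat_lit 19922863430251378890511395)) (.cons (.rf (nat_lit 214) (nat_lit 19926519232773908460475427)) (.cons (.rf (nat_lit 214) (nat_lit 19922863430251378890511395)) (.cons (.rf (nat_lit 218) (nat_lit 19926519232773908460475427)) (.cons (.ev (nat_lit 340282366920938463463374608531279905024) (nat_lit 1)) (.cons (.br (nat_lit 16) (nat_lit 0) (.cons (.rf (nat_lit 219) (nat_lit 677582165103132179601393696)) (.cons (.rf (nat_lit 219) (nat_lit 677578509300609650031429664)) (.cons (.rf (nat_lit 220) (nat_lit 677582165103132179601393696)) (.cons (.rf (nat_lit 220) (nat_lit 677578509300609650031429664)) (.cons (.br (nat_lit 7) (nat_lit 0) (.cons (.br (nat_lit 11) (nat_lit 0) (.cons (.ev (nat_lit 2668861106001185745127750040035525121) (nat_lit 2)) (.cons (.ev (nat_lit 340282367000477324654165471839387713537) (nat_lit 1)) .nil))) (.cons (.ev (nat_lit 2658476512284106608100119972591698433) (nat_lit 2)) (.cons (.ev (nat_lit 2668860946925890659919344321400144387)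 (nat_lit 2)) (.cons (.br (nat_lit 8) (nat_lit 0) (.cons (.ev (nat_lit 2658476512284106608100682913988739587) (nat_lit 2)) (.cons (.ev (nat_lit 2668860946925890659918781380003103233) (nat_lit 2)) (.cons (.ev (nat_lit 174905136617882465534461931566523152990211) (nat_lit 2)) .nil)))) .nil))))) (.cons (.ev (nat_lit 340282366920938463463374608531296681984) (nat_lit 1)) .nil))))))) .nil)))))))),
 (.br (nat_lit 15) (nat_lit 0) (.cons (.br (nat_lit 14) (nat_lit 0) (.cons (.ev (nat_lit 2668860946925890659918781380003103233) (nat_lit 2)) (.cons (.ev (nat_lit 87113620372414838562166893127344630792192) (nat_lit 1)) .nil))) (.cons (.br (nat_lit 8) (nat_lit 0) (.cons (.ev (nat_lit 2658476353208811596966357983549194753) (nat_lit 2)) (.cons (.ev (nat_lit 87113620372414838562166893127344630792192) (nat_lit 1)) .nil))) (.cons (.ev (nat_lit 2658476512284106608100119972591698433) (nat_lit 2)) (.cons (.ev (nat_lit 87113615180117980022598379312310908878848) (nat_lit 1)) .nil))))),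
 (.br (nat_lit 15) (nat_lit 0) (.cons (.br (nat_lit 11) (nat_lit 0) (.cons (.ev (nat_lit 2658476512284106608100682913988739587) (nat_lit 2)) (.cons (.ev (nat_lit 87113620372414838562166893127344630792192) (nat_lit 1)) .nil))) (.cons (.br (nat_lit 8) (nat_lit 0) (.cons (.ev (nat_lit 2658476353208811596966357983549194753) (nat_lit 2)) (.cons (.ev (nat_lit 87113620372414838562166893127344630792192) (nat_lit 1)) .nil))) (.cons (.ev (nat_lit 2668860946925890659919344321400144387) (nat_lit 2)) (.cons (.ev (nat_lit 87113620352132118259838696459162087325696) (nat_lit 1)) .nil))))),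
 (.br (nat_lit 8) (nat_lit 0) (.cons (.rf (nat_lit 223) (nat_lit 677578509300609650031429664)) (.cons (.rf (nat_lit 222) (nat_lit 677578509300609650031429664)) (.cons (.ev (nat_lit 2658476353211238893338552981189034497) (nat_lit 2)) (.cons (.br (nat_lit 11) (nat_lit 0) (.cons (.ev (nat_lit 87113620372414838562166893127344630792192) (nat_lit 1)) (.cons (.ev (nat_lit 2658476512284106608100119972591698433) (nat_lit 2)) .nil))) .nil))))),
 (.br (nat_lit 8) (nat_lit 0) (.cons (.rf (nat_lit 223) (nat_lit 677578509300609650031429664)) (.cons (.rf (nat_lit 222) (nat_lit 677578509300609650031429664)) (.cons (.ev (nat_lit 2658476353211238893339115922586075651) (nat_lit 2)) (.cons (.ev (nat_lit 340282366920938463463374890010551582976) (nat_lit 1)) (.cons (.br (nat_lit 16) (nat_lit 0) (.cons (.rf (nat_lit 206) (nat_lit 677582165103132179601393696)) (.cons (.br (nat_lit 11) (nat_lit 0) (.cons (.zr (nat_lit 87453933872755908224783403643624851832838) (nat_lit 316917504705141972624943877376) (nat_lit 8) (nat_lit 7)) .nil)) (.cons (.ev (nat_lit 87113615180038441170889359018077603233793)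 (nat_lit 1)) .nil)))) .nil)))))),
 (.br (nat_lit 13) (nat_lit 0) (.cons (.br (nat_lit 1) (nat_lit 0) (.cons (.kr (nat_lit 1) (nat_lit 256) (nat_lit 0) (nat_lit 2)) (.cons (.kr (nat_lit 256) (nat_lit 16777216) (nat_lit 1) (nat_lit 0)) (.cons (.rf (nat_lit 191) (nat_lit 583706118939841765935136)) (.cons (.rf (nat_lit 191) (nat_lit 580050316417312195971104)) (.cons (.rf (nat_lit 200) (nat_lit 583706118939841765935136)) (.cons (.rf (nat_lit 200) (nat_lit 580050316417312195971104)) (.cons (.kr (nat_lit 20282410812577490320051419480065) (nat_lit 79228167236630820467484131840) (nat_lit 0) (nat_lit 2)) (.cons (.br (nat_lit 2) (nat_lit 0) (.cons (.br (nat_lit 7) (nat_lit 0) (.cons (.br (nat_lit 11) (nat_lit 0) (.cons (.br (nat_lit 15) (nat_lit 0) (.cons (.ev (nat_lit 2668861106001185745127750040035525121) (nat_lit 2)) (.cons (.rf (nat_lit 1) (nat_lit 582172449874146)) .nil))) (.cons (.kr (nat_lit 20282409603651742481541289213952) (nat_lit 309485028268089142434332672) (nat_lit 7) (nat_lit 0)) (.cons (.kr (nat_lit 620178982356074389036859393) (nat_lit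 20361637770888445359602811273728) (nat_lit 0) (nat_lit 2)) (.cons (.rf (nat_lit 201) (nat_lit 677582165103132179601393696)) .nil))))) (.cons (.rf (nat_lit 202) (nat_lit 19926519232773908561233952)) (.cons (.rf (nat_lit 204) (nat_lit 19926519232773908561233952)) (.cons (.rf (nat_lit 205) (nat_lit 19926519232773908561233952)) (.cons (.rf (nat_lit 207) (nat_lit 19926519232773908561233952)) (.cons (.br (nat_lit 8) (nat_lit 0) (.cons (.rf (nat_lit 204) (nat_lit 19922863430251378991269920)) (.cons (.rf (nat_lit 202) (nat_lit 19922863430251378991269920)) (.cons (.rf (nat_lit 205) (nat_lit 19922863430251378991269920)) (.cons (.rf (nat_lit 207) (nat_lit 19922863430251378991269920)) (.cons (.br (nat_lit 11) (nat_lit 0) (.cons (.br (nat_lit 15) (nat_lit 0) (.cons (.ev (nat_lit 2668861106001185745128312981432566275) (nat_lit 2)) (.cons (.ev (nat_lit 87113620352053199582352771986825743958016) (nat_lit 1)) .nil))) (.cons (.br (nat_lit 14) (nat_lit 0) (.cons (.kr (nat_lit 10384594336039674900032605101490177) (nat_lit 20361638979814120859043910124032) (nat_lit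 0) (nat_lit 2)) (.cons (.ev (nat_lit 87113620352053199582352771986825743958016) (nat_lit 1)) .nil))) (.cons (.rf (nat_lit 208) (nat_lit 677582165103132179601393696)) (.cons (.br (nat_lit 14) (nat_lit 0) (.cons (.ev (nat_lit 87113615180117978818394925899072107708416) (nat_lit 1)) (.cons (.rf (nat_lit 208) (nat_lit 677578509300609650031429664)) .nil))) .nil))))) .nil)))))) .nil))))))) (.cons (.rf (nat_lit 212) (nat_lit 19926519232773908561233952)) (.cons (.rf (nat_lit 212) (nat_lit 19922863430251378991269920)) (.cons (.rf (nat_lit 214) (nat_lit 19926519232773908561233952)) (.cons (.rf (nat_lit 214) (nat_lit 19922863430251378991269920)) (.cons (.rf (nat_lit 218) (nat_lit 19926519232773908561233952)) (.cons (.rf (nat_lit 221) (nat_lit 19926519232773908561233952)) (.cons (.br (nat_lit 5) (nat_lit 0) (.cons (.rf (nat_lit 212) (nat_lit 19926519232773908460475427)) (.cons (.rf (nat_lit 212) (nat_lit 19922863430251378890511395)) (.cons (.rf (nat_lit 214) (nat_lit 19926519232773908460475427)) (.cons (.rf (nat_lit 214) (nat_lit 19922863430251378890511395))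 (.cons (.rf (nat_lit 218) (nat_lit 19926519232773908460475427)) (.cons (.rf (nat_lit 221) (nat_lit 19926519232773908460475427)) (.cons (.br (nat_lit 7) (nat_lit 0) (.cons (.br (nat_lit 11) (nat_lit 0) (.cons (.br (nat_lit 15) (nat_lit 0) (.cons (.ev (nat_lit 2668861106001185745127750040035525121) (nat_lit 2)) (.cons (.ev (nat_lit 87113620372414838562166893127344630792192) (nat_lit 1)) .nil))) (.cons (.kr (nat_lit 20282409603651742481541289213952) (nat_lit 309485028268089142434332672) (nat_lit 7) (nat_lit 0)) (.cons (.kr (nat_lit 620178982356074389036859393) (nat_lit 20361637770888445359602811273728) (nat_lit 0) (nat_lit 2)) (.cons (.rf (nat_lit 201) (nat_lit 677582165103132179601393696)) .nil))))) (.cons (.rf (nat_lit 222) (nat_lit 677582165103132179601393696)) (.cons (.rf (nat_lit 223) (nat_lit 677582165103132179601393696)) (.cons (.rf (nat_lit 224) (nat_lit 677582165103132179601393696)) (.cons (.rf (nat_lit 225) (nat_lit 677582165103132179601393696)) (.cons (.br (nat_lit 8) (nat_lit 0) (.cons (.rf (nat_lit 223) (nat_lit 677578509300609650031429664))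 (.cons (.rf (nat_lit 222) (nat_lit 677578509300609650031429664)) (.cons (.rf (nat_lit 224) (nat_lit 677578509300609650031429664)) (.cons (.rf (nat_lit 225) (nat_lit 677578509300609650031429664)) .nil))))) .nil))))))) .nil)))))))) .nil))))))))) .nil))))))))) .nil))]

theorem c9 : chkAll C T R L9 (nat_lit 213) = true := by decide +kernel

theorem l9 : (nat_lit 213) + L9.length = (nat_lit 227) := by decide +kernel

/-- part of the certificates -/
def L10 : List Prf := [(.br (nat_lit 6) (nat_lit 0) (.cons (.br (nat_lit 6) (nat_lit 0) (.cons (.br (nat_lit 7) (nat_lit 1) (.cons (.br (nat_lit 9) (nat_lit 1) (.cons (.br (nat_lit 9) (nat_lit 0) (.cons (.br (nat_lit 10) (nat_lit 0) (.cons (.br (nat_lit 10) (nat_lit 0) (.cons (.br (nat_lit 11) (nat_lit 1) (.cons (.br (nat_lit 13) (nat_lit 1) (.cons (.br (nat_lit 12) (nat_lit 1) (.cons (.rf (nat_lit 0) (nat_lit 17022140995484340291616)) (.cons (.br (nat_lit 13) (nat_lit 0) (.cons (.br (nat_lit 14) (nat_lit 0) (.cons (.br (nat_lit 1) (nat_lit 0) (.cons (.kr (nat_lit 1) (nat_lit 256) (nat_lit 0) (nat_lit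 2)) (.cons (.kr (nat_lit 256) (nat_lit 16777216) (nat_lit 1) (nat_lit 0)) (.cons (.rf (nat_lit 13) (nat_lit 583706118939841765935136)) (.cons (.rf (nat_lit 13) (nat_lit 583706118938776614045728)) (.cons (.kr (nat_lit 20282410812577490320051419480065) (nat_lit 5192296858539549995013370269401600) (nat_lit 0) (nat_lit 2)) (.cons (.kr (nat_lit 5192296859743753448426600497414145) (nat_lit 20282409608374036906821191467520) (nat_lit 0) (nat_lit 2)) (.cons (.br (nat_lit 2) (nat_lit 0) (.cons (.ev (nat_lit 2663668570841601724932741949609345027) (nat_lit 2)) (.cons (.rf (nat_lit 16) (nat_lit 583706118939841765935136)) (.cons (.rf (nat_lit 16) (nat_lit 583706118938776614045728)) (.cons (.rf (nat_lit 19) (nat_lit 583706118939841765935136)) (.cons (.rf (nat_lit 19) (nat_lit 582561303914564185851936)) (.cons (.br (nat_lit 5) (nat_lit 0) (.cons (.rf (nat_lit 16) (nat_lit 583706118939841665176611)) (.cons (.rf (nat_lit 16) (nat_lit 583706118938776513287203)) (.cons (.rf (nat_lit 19) (nat_lit 583706118939841665176611)) (.cons (.rf (nat_lit 19) (nat_lit 582561303914564085093411))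 (.cons (.ev (nat_lit 2663668570841601724932741949575790593) (nat_lit 2)) (.cons (.br (nat_lit 7) (nat_lit 0) (.cons (.kr (nat_lit 72057594037927936) (nat_lit 18446744073709551616) (nat_lit 7) (nat_lit 0)) (.cons (.rf (nat_lit 16) (nat_lit 41326548113979016162797)) (.cons (.rf (nat_lit 16) (nat_lit 41326548113978982576622)) (.cons (.rf (nat_lit 20) (nat_lit 677582165103132179601393696)) (.cons (.rf (nat_lit 20) (nat_lit 640105464695078675084743715)) .nil)))))) .nil))))))) .nil))))))) (.cons (.br (nat_lit 15) (nat_lit 0) (.cons (.kr (nat_lit 5212579268143201665437317520687105) (nat_lit 2658455991571040671627510224728883200) (nat_lit 0) (nat_lit 1)) (.cons (.kr (nat_lit 2658455991571040671627510224712105985) (nat_lit 5212579268143201665437317537464320) (nat_lit 0) (nat_lit 1)) (.cons (.rf (nat_lit 13) (nat_lit 41326548113979016162797)) (.cons (.rf (nat_lit 13) (nat_lit 41326548112913864273389)) (.cons (.kr (nat_lit 20282409603651670423947251286016) (nat_lit 1329227995784915872903807060280344576) (nat_lit 13) (nat_lit 0)) (.cons (.kr (nat_lit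 5192296858534827628530496329220096) (nat_lit 1329227995784915872903807060280344576) (nat_lit 14) (nat_lit 0)) (.cons (.kr (nat_lit 2658455991571040671627510224728883201) (nat_lit 5212579268143201665437317520687616) (nat_lit 0) (nat_lit 2)) (.cons (.br (nat_lit 7) (nat_lit 0) (.cons (.rf (nat_lit 24) (nat_lit 677582165103132179601393696)) (.cons (.rf (nat_lit 24) (nat_lit 677582165103132179500635171)) (.cons (.kr (nat_lit 72057594037927936) (nat_lit 18446744073709551616) (nat_lit 7) (nat_lit 0)) (.cons (.rf (nat_lit 24) (nat_lit 639563085124252812435729901)) (.cons (.rf (nat_lit 24) (nat_lit 639563085124252812402143726)) (.cons (.rf (nat_lit 27) (nat_lit 677582165103132179601393696)) (.cons (.rf (nat_lit 27) (nat_lit 639563085124252812435729901)) .nil)))))))) .nil))))))))) .nil))))))))) .nil)) .nil)) .nil))) .nil)) .nil)) .nil)) .nil)) (.cons (.br (nat_lit 8) (nat_lit 1) (.cons (.br (nat_lit 10) (nat_lit 0) (.cons (.br (nat_lit 1) (nat_lit 0) (.cons (.kr (nat_lit 1) (nat_lit 256) (nat_lit 0) (nat_lit 2)) (.cons (.kr (nat_lit 256) (nat_lit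 16777216) (nat_lit 1) (nat_lit 0)) (.cons (.kr (nat_lit 4722366764344638701569) (nat_lit 1208925819614633469673984) (nat_lit 0) (nat_lit 2)) (.cons (.kr (nat_lit 1208925819896104168194049) (nat_lit 4722366482873940181504) (nat_lit 0) (nat_lit 2)) (.cons (.br (nat_lit 2) (nat_lit 0) (.cons (.ev (nat_lit 620183667829634264568299523) (nat_lit 2)) (.cons (.rf (nat_lit 29) (nat_lit 407901468851537952)) (.cons (.rf (nat_lit 29) (nat_lit 406809688164894752)) (.cons (.rf (nat_lit 28) (nat_lit 14242959524133701664)) (.cons (.br (nat_lit 5) (nat_lit 0) (.cons (.rf (nat_lit 29) (nat_lit 407901468750779427)) (.cons (.rf (nat_lit 29) (nat_lit 406809688064136227)) (.cons (.ev (nat_lit 620183667829634264534745089) (nat_lit 2)) (.cons (.rf (nat_lit 28) (nat_lit 15395881028740548640)) (.cons (.br (nat_lit 7) (nat_lit 0) (.cons (.ev (nat_lit 1213685224545263590310403) (nat_lit 2)) (.cons (.rf (nat_lit 30) (nat_lit 493858305440582043680)) (.cons (.rf (nat_lit 30) (nat_lit 458117738797669028899)) (.cons (.rf (nat_lit 28) (nat_lit 16548802533347395616)) .nil)))))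 .nil)))))) .nil)))))) (.cons (.rf (nat_lit 28) (nat_lit 14242959524133701664)) (.cons (.br (nat_lit 11) (nat_lit 0) (.cons (.kr (nat_lit 1213648186097503114887169) (nat_lit 618970019642971612443049984) (nat_lit 0) (nat_lit 1)) (.cons (.kr (nat_lit 618970019642971612426272769) (nat_lit 1213648186097503131664384) (nat_lit 0) (nat_lit 1)) (.cons (.kr (nat_lit 4722366482869645213696) (nat_lit 309485009821345068724781056) (nat_lit 9) (nat_lit 0)) (.cons (.kr (nat_lit 1208925819614629174706176) (nat_lit 309485009821345068724781056) (nat_lit 10) (nat_lit 0)) (.cons (.kr (nat_lit 618970019642971612443049985) (nat_lit 1213648186097503114887680) (nat_lit 0) (nat_lit 2)) (.cons (.rf (nat_lit 28) (nat_lit 15395881028740548640)) (.cons (.br (nat_lit 2) (nat_lit 0) (.cons (.br (nat_lit 7) (nat_lit 0) (.cons (.br (nat_lit 12) (nat_lit 0) (.cons (.br (nat_lit 12) (nat_lit 0) (.cons (.rf (nat_lit 28) (nat_lit 16548802533347395616)) .nil)) (.cons (.rf (nat_lit 28) (nat_lit 16548802533347395616)) .nil))) (.cons (.rf (nat_lit 31) (nat_lit 493858305440582043680))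 (.cons (.rf (nat_lit 33) (nat_lit 457749249396505386345)) (.cons (.rf (nat_lit 28) (nat_lit 16548802533347395616)) .nil))))) (.cons (.rf (nat_lit 32) (nat_lit 493858305440582043680)) (.cons (.rf (nat_lit 32) (nat_lit 493857213659895400480)) (.cons (.rf (nat_lit 33) (nat_lit 493858305440582043680)) (.cons (.br (nat_lit 5) (nat_lit 0) (.cons (.rf (nat_lit 32) (nat_lit 493858305440481285155)) (.cons (.rf (nat_lit 32) (nat_lit 493857213659794641955)) (.cons (.rf (nat_lit 33) (nat_lit 493858305440481285155)) (.cons (.br (nat_lit 7) (nat_lit 0) (.cons (.ev (nat_lit 20282720302328196949661815144448) (nat_lit 1)) (.cons (.br (nat_lit 8) (nat_lit 0) (.cons (.ev (nat_lit 79229376162450436191892340993) (nat_lit 1)) (.cons (.rf (nat_lit 28) (nat_lit 16548802533347395616)) .nil))) (.cons (.rf (nat_lit 28) (nat_lit 16548802533347395616)) .nil)))) (.cons (.rf (nat_lit 28) (nat_lit 16548802533347395616)) .nil)))))) (.cons (.rf (nat_lit 28) (nat_lit 16548802533347395616)) .nil))))))) .nil)))))))) .nil)))))))) (.cons (.br (nat_lit 11) (nat_lit 1) (.cons (.br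 (nat_lit 13) (nat_lit 1) (.cons (.br (nat_lit 12) (nat_lit 1) (.cons (.rf (nat_lit 34) (nat_lit 17022140995484340291616)) (.cons (.br (nat_lit 13) (nat_lit 0) (.cons (.br (nat_lit 14) (nat_lit 0) (.cons (.br (nat_lit 1) (nat_lit 0) (.cons (.kr (nat_lit 1) (nat_lit 256) (nat_lit 0) (nat_lit 2)) (.cons (.kr (nat_lit 256) (nat_lit 16777216) (nat_lit 1) (nat_lit 0)) (.cons (.kr (nat_lit 5192296858539549995294840967921665) (nat_lit 20282410812577490038580720960000) (nat_lit 0) (nat_lit 2)) (.cons (.kr (nat_lit 20282410812577490320051419480065) (nat_lit 5192296858539549995013370269401600) (nat_lit 0) (nat_lit 2)) (.cons (.rf (nat_lit 47) (nat_lit 583706118939841765935136)) (.cons (.rf (nat_lit 47) (nat_lit 582561302822783499208736)) (.cons (.br (nat_lit 2) (nat_lit 0) (.cons (.br (nat_lit 7) (nat_lit 0) (.cons (.ev (nat_lit 7980580553986129291063496634599342085) (nat_lit 3)) (.cons (.rf (nat_lit 48) (nat_lit 583706118939841765935136)) (.cons (.rf (nat_lit 49) (nat_lit 583706118939841765935136)) (.cons (.br (nat_lit 8) (nat_lit 0) (.cons (.rf (nat_lit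 49) (nat_lit 582561302822783499208736)) (.cons (.rf (nat_lit 48) (nat_lit 582561302822783499208736)) (.cons (.br (nat_lit 11) (nat_lit 0) (.cons (.ev (nat_lit 5213056497664642446831089700832769) (nat_lit 3)) (.cons (.ev (nat_lit 4096685976718035478135343931293153492995) (nat_lit 4)) (.cons (.br (nat_lit 12) (nat_lit 0) (.cons (.ev (nat_lit 4086052315011018416735395226831762358279) (nat_lit 4)) (.cons (.br (nat_lit 16) (nat_lit 0) (.cons (.ev (nat_lit 681893962076275999075653136462183990018) (nat_lit 2)) .nil)) .nil))) .nil)))) (.cons (.br (nat_lit 11) (nat_lit 0) (.cons (.ev (nat_lit 5322124721486737963645252291598221829) (nat_lit 3)) (.cons (.br (nat_lit 12) (nat_lit 0) (.cons (.ev (nat_lit 4094027683781111687807069402224407349767) (nat_lit 4)) (.cons (.ev (nat_lit 1344865813126978890443040635333181697) (nat_lit 2)) .nil))) (.cons (.br (nat_lit 12) (nat_lit 0) (.cons (.ev (nat_lit 1344865813126978890443040635333181697) (nat_lit 2)) (.cons (.ev (nat_lit 1045358070298957222204920761247642782532099) (nat_lit 4)) .nil))) .nil)))) .nil))))) .nil)))))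 (.cons (.rf (nat_lit 50) (nat_lit 583706118939841765935136)) (.cons (.rf (nat_lit 50) (nat_lit 582561302822783499208736)) (.cons (.rf (nat_lit 51) (nat_lit 583706118939841765935136)) (.cons (.rf (nat_lit 51) (nat_lit 582561302822783499208736)) (.cons (.br (nat_lit 5) (nat_lit 0) (.cons (.rf (nat_lit 50) (nat_lit 583706118939841665176611)) (.cons (.rf (nat_lit 50) (nat_lit 582561302822783398450211)) (.cons (.rf (nat_lit 51) (nat_lit 583706118939841665176611)) (.cons (.rf (nat_lit 51) (nat_lit 582561302822783398450211)) (.cons (.br (nat_lit 11) (nat_lit 0) (.cons (.rf (nat_lit 52) (nat_lit 19926519232773908561233952)) (.cons (.rf (nat_lit 53) (nat_lit 19926519232773908561233952)) (.cons (.ev (nat_lit 5322124721486737963645252291531112961) (nat_lit 3)) (.cons (.rf (nat_lit 54) (nat_lit 19926519232773908561233952)) (.cons (.br (nat_lit 12) (nat_lit 0) (.cons (.rf (nat_lit 53) (nat_lit 19925374416656850294507552)) (.cons (.rf (nat_lit 52) (nat_lit 19925374416656850294507552)) (.cons (.rf (nat_lit 54) (nat_lit 19925374416656850294507552)) (.cons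 (.br (nat_lit 17) (nat_lit 0) (.cons (.ev (nat_lit 1045358070461852809885733368143435268622863) (nat_lit 4)) (.cons (.ev (nat_lit 1045358070298957222204920761247642916749835) (nat_lit 4)) (.cons (.ev (nat_lit 88135791488673708377456189248400166879746) (nat_lit 2)) .nil)))) .nil))))) .nil)))))) (.cons (.br (nat_lit 7) (nat_lit 0) (.cons (.br (nat_lit 11) (nat_lit 0) (.cons (.ev (nat_lit 5213056497664642447956972494915077) (nat_lit 3)) (.cons (.rf (nat_lit 55) (nat_lit 677582165103132179601393696)) (.cons (.rf (nat_lit 55) (nat_lit 640105464695078675084743715)) .nil)))) (.cons (.rf (nat_lit 57) (nat_lit 677582165103132179601393696)) (.cons (.rf (nat_lit 59) (nat_lit 677582165103132179601393696)) (.cons (.rf (nat_lit 60) (nat_lit 677582165103132179601393696)) (.cons (.rf (nat_lit 60) (nat_lit 640105464695078675084743715)) .nil)))))) .nil))))))) .nil))))))) (.cons (.br (nat_lit 15) (nat_lit 0) (.cons (.rf (nat_lit 70) (nat_lit 19926519232773908561233952)) (.cons (.rf (nat_lit 70) (nat_lit 19926519232773908460475427)) (.cons (.rf (nat_lit 75)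 (nat_lit 19926519232773908561233952)) (.cons (.rf (nat_lit 75) (nat_lit 19925374416656850294507552)) (.cons (.kr (nat_lit 20282409603651670423947251286016) (nat_lit 1329227995784915872903807060280344576) (nat_lit 13) (nat_lit 0)) (.cons (.kr (nat_lit 5192296858534827628530496329220096) (nat_lit 1329227995784915872903807060280344576) (nat_lit 14) (nat_lit 0)) (.cons (.br (nat_lit 7) (nat_lit 0) (.cons (.rf (nat_lit 78) (nat_lit 19926519232773908561233952)) (.cons (.rf (nat_lit 78) (nat_lit 19926519232773908460475427)) (.cons (.ev (nat_lit 2663668570841611206702745883974304257) (nat_lit 2)) (.cons (.rf (nat_lit 82) (nat_lit 19926519232773908561233952)) (.cons (.rf (nat_lit 86) (nat_lit 19926519232773908561233952)) (.cons (.rf (nat_lit 90) (nat_lit 19926519232773908561233952)) (.cons (.br (nat_lit 8) (nat_lit 0) (.cons (.rf (nat_lit 78) (nat_lit 19925374416656850294507552)) (.cons (.rf (nat_lit 78) (nat_lit 19925374416656850193749027)) (.cons (.rf (nat_lit 86) (nat_lit 19925374416656850294507552)) (.cons (.rf (nat_lit 82) (nat_lit 19925374416656850294507552))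 (.cons (.rf (nat_lit 90) (nat_lit 19925374416656850294507552)) (.cons (.ev (nat_lit 2663668570841611206703308825371345411) (nat_lit 2)) .nil))))))) .nil)))))))) (.cons (.br (nat_lit 2) (nat_lit 0) (.cons (.br (nat_lit 7) (nat_lit 0) (.cons (.br (nat_lit 11) (nat_lit 0) (.cons (.rf (nat_lit 1) (nat_lit 582170302390498)) (.cons (.rf (nat_lit 91) (nat_lit 20678166659570514102304)) (.cons (.br (nat_lit 12) (nat_lit 0) (.cons (.rf (nat_lit 91) (nat_lit 20678131722588541519904)) (.cons (.ev (nat_lit 87113615159835569210039407793922958688256) (nat_lit 1)) .nil))) .nil)))) (.cons (.rf (nat_lit 93) (nat_lit 677582165103132179601393696)) (.cons (.rf (nat_lit 94) (nat_lit 677582165103132179601393696)) (.cons (.br (nat_lit 8) (nat_lit 0) (.cons (.ev (nat_lit 5253144090986764236542599313228291) (nat_lit 2)) (.cons (.ev (nat_lit 5253144088559467863784660276347393) (nat_lit 2)) (.cons (.ev (nat_lit 340282366920938463463374890010568360193) (nat_lit 1)) (.cons (.ev (nat_lit 2663668570841611206703308825371345411) (nat_lit 2)) .nil))))) (.cons (.br (nat_lit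 8) (nat_lit 0) (.cons (.rf (nat_lit 94) (nat_lit 677581020287015121334667296)) (.cons (.rf (nat_lit 93) (nat_lit 677581020287015121334667296)) (.cons (.ev (nat_lit 2663668570841611206703308825371345411) (nat_lit 2)) (.cons (.br (nat_lit 11) (nat_lit 0) (.cons (.ev (nat_lit 87113615159835569210039407793922958688256) (nat_lit 1)) (.cons (.rf (nat_lit 92) (nat_lit 677581020287015121334667296)) .nil))) .nil))))) .nil)))))) (.cons (.rf (nat_lit 96) (nat_lit 677582165103132179601393696)) (.cons (.rf (nat_lit 96) (nat_lit 677581020287015121334667296)) (.cons (.rf (nat_lit 98) (nat_lit 677582165103132179601393696)) (.cons (.rf (nat_lit 98) (nat_lit 677581020287015121334667296)) (.cons (.rf (nat_lit 99) (nat_lit 677582165103132179601393696)) (.cons (.br (nat_lit 5) (nat_lit 0) (.cons (.rf (nat_lit 96) (nat_lit 677582165103132179500635171)) (.cons (.rf (nat_lit 96) (nat_lit 677581020287015121233908771)) (.cons (.rf (nat_lit 98) (nat_lit 677582165103132179500635171)) (.cons (.rf (nat_lit 98) (nat_lit 677581020287015121233908771)) (.cons (.rf (nat_lit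 99) (nat_lit 677582165103132179500635171)) (.cons (.br (nat_lit 7) (nat_lit 0) (.cons (.br (nat_lit 11) (nat_lit 0) (.cons (.ev (nat_lit 87113620372414838562166893127344630792192) (nat_lit 1)) (.cons (.br (nat_lit 12) (nat_lit 0) (.cons (.ev (nat_lit 340287579500206601942673562974877188353) (nat_lit 1)) .nil)) .nil))) (.cons (.br (nat_lit 8) (nat_lit 0) (.cons (.ev (nat_lit 87113620372414838562166893127344630792192) (nat_lit 1)) (.cons (.ev (nat_lit 5253144090986764236542599313228291) (nat_lit 2)) .nil))) (.cons (.br (nat_lit 8) (nat_lit 0) (.cons (.ev (nat_lit 87113620372414838562166893127344630792192) (nat_lit 1)) (.cons (.ev (nat_lit 5253144088559467863784660276347393) (nat_lit 2)) .nil))) (.cons (.br (nat_lit 8) (nat_lit 0) (.cons (.ev (nat_lit 5253144090986764236542599313228291) (nat_lit 2)) (.cons (.ev (nat_lit 5253144088559467863784660276347393) (nat_lit 2)) (.cons (.ev (nat_lit 340287579500207815590859660473697108225) (nat_lit 1)) .nil)))) .nil))))) .nil))))))) .nil)))))))) .nil))))))))) .nil))))))))) .nil)) .nil)) .nil))) .nil))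 .nil)) .nil))) (.cons (.br (nat_lit 12) (nat_lit 1) (.cons (.br (nat_lit 10) (nat_lit 0) (.cons (.rf (nat_lit 118) (nat_lit 493858305440582043680)) (.cons (.br (nat_lit 10) (nat_lit 0) (.cons (.rf (nat_lit 118) (nat_lit 493858305440582043680)) (.cons (.br (nat_lit 11) (nat_lit 1) (.cons (.br (nat_lit 14) (nat_lit 1) (.cons (.br (nat_lit 13) (nat_lit 0) (.cons (.br (nat_lit 1) (nat_lit 0) (.cons (.kr (nat_lit 1) (nat_lit 256) (nat_lit 0) (nat_lit 2)) (.cons (.kr (nat_lit 256) (nat_lit 16777216) (nat_lit 1) (nat_lit 0)) (.cons (.kr (nat_lit 20282409608374037188291889987585) (nat_lit 79229371440083952227013624320) (nat_lit 0) (nat_lit 2)) (.cons (.kr (nat_lit 79229371440084233697712144385) (nat_lit 20282409608374036906821191467520) (nat_lit 0) (nat_lit 2)) (.cons (.br (nat_lit 14) (nat_lit 0) (.cons (.rf (nat_lit 121) (nat_lit 583706118939841765935136)) (.cons (.rf (nat_lit 121) (nat_lit 583706118939841665176611)) (.cons (.rf (nat_lit 122) (nat_lit 583706118939841765935136)) (.cons (.rf (nat_lit 122) (nat_lit 583591983193073372989472)) (.cons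 (.kr (nat_lit 5192296858534827628530496329220096) (nat_lit 1329227995784915872903807060280344576) (nat_lit 14) (nat_lit 0)) (.cons (.br (nat_lit 15) (nat_lit 0) (.cons (.rf (nat_lit 121) (nat_lit 547107778697602015528992)) (.cons (.rf (nat_lit 121) (nat_lit 547107778697601914770467)) (.cons (.rf (nat_lit 122) (nat_lit 547107778697602015528992)) (.cons (.rf (nat_lit 122) (nat_lit 546993642950833622583328)) (.cons (.br (nat_lit 2) (nat_lit 0) (.cons (.br (nat_lit 7) (nat_lit 0) (.cons (.ev (nat_lit 309485065378314121465889538) (nat_lit 2)) (.cons (.ev (nat_lit 1369136009960952666976106137088801636869) (nat_lit 3)) (.cons (.br (nat_lit 8) (nat_lit 0) (.cons (.ev (nat_lit 1369136009960952666976105011206007554561) (nat_lit 3)) (.cons (.br (nat_lit 16) (nat_lit 0) (.cons (.zr (nat_lit 1361129468079894690036652532073083439104) (nat_lit 2668860868316684035235853786593492995) (nat_lit 16) (nat_lit 11)) .nil)) .nil))) .nil)))) (.cons (.rf (nat_lit 123) (nat_lit 19926519232773908561233952)) (.cons (.rf (nat_lit 123) (nat_lit 19926405097027140168288288))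 (.cons (.rf (nat_lit 124) (nat_lit 19926519232773908561233952)) (.cons (.br (nat_lit 5) (nat_lit 0) (.cons (.rf (nat_lit 123) (nat_lit 19926519232773908460475427)) (.cons (.rf (nat_lit 123) (nat_lit 19926405097027140067529763)) (.cons (.rf (nat_lit 124) (nat_lit 19926519232773908460475427)) (.cons (.br (nat_lit 16) (nat_lit 0) (.cons (.ev (nat_lit 1369136009960952666976106137088734528001) (nat_lit 3)) (.cons (.ev (nat_lit 1369136009960952666976105011206074663429) (nat_lit 3)) (.cons (.kr (nat_lit 680564733921105094163380035331037331457) (nat_lit 174224571883802904105825289325116726968832) (nat_lit 0) (nat_lit 2)) .nil)))) .nil))))) .nil)))))) (.cons (.br (nat_lit 2) (nat_lit 0) (.cons (.br (nat_lit 7) (nat_lit 0) (.cons (.ev (nat_lit 309485065378314121465889538) (nat_lit 2)) (.cons (.rf (nat_lit 125) (nat_lit 677582165103132179601393696)) (.cons (.rf (nat_lit 125) (nat_lit 640068866354836435435096096)) .nil)))) (.cons (.rf (nat_lit 127) (nat_lit 677582165103132179601393696)) (.cons (.rf (nat_lit 127) (nat_lit 677582050967385411208448032))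 (.cons (.rf (nat_lit 128) (nat_lit 677582165103132179601393696)) (.cons (.rf (nat_lit 128) (nat_lit 640068866354836435435096096)) .nil)))))) .nil))))))) .nil))))))) (.cons (.rf (nat_lit 145) (nat_lit 583706118939841765935136)) (.cons (.rf (nat_lit 145) (nat_lit 547107778697602015528992)) (.cons (.br (nat_lit 14) (nat_lit 0) (.cons (.rf (nat_lit 154) (nat_lit 19926519232773908561233952)) (.cons (.rf (nat_lit 154) (nat_lit 19926519232773908460475427)) (.cons (.rf (nat_lit 158) (nat_lit 19926519232773908561233952)) (.cons (.rf (nat_lit 158) (nat_lit 19926405097027140168288288)) (.cons (.rf (nat_lit 164) (nat_lit 19926519232773908561233952)) (.cons (.kr (nat_lit 5192296858534827628530496329220096) (nat_lit 1329227995784915872903807060280344576) (nat_lit 14) (nat_lit 0)) (.cons (.rf (nat_lit 172) (nat_lit 19926519232773908561233952)) (.cons (.br (nat_lit 15) (nat_lit 0) (.cons (.rf (nat_lit 154) (nat_lit 19889920892531668810827808)) (.cons (.rf (nat_lit 154) (nat_lit 19889920892531668710069283)) (.cons (.rf (nat_lit 158) (nat_lit 19889920892531668810827808))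 (.cons (.rf (nat_lit 158) (nat_lit 19889806756784900417882144)) (.cons (.rf (nat_lit 164) (nat_lit 19889920892531668810827808)) (.cons (.rf (nat_lit 172) (nat_lit 19889920892531668810827808)) (.cons (.br (nat_lit 2) (nat_lit 0) (.cons (.br (nat_lit 7) (nat_lit 0) (.cons (.rf (nat_lit 173) (nat_lit 677582165103132179601393696)) (.cons (.rf (nat_lit 174) (nat_lit 677582165103132179601393696)) (.cons (.br (nat_lit 8) (nat_lit 0) (.cons (.ev (nat_lit 20520716692750969338445875380737) (nat_lit 2)) (.cons (.ev (nat_lit 340282387282577443277495467570895061248) (nat_lit 1)) (.cons (.rf (nat_lit 162) (nat_lit 609937221587146513670)) .nil)))) (.cons (.rf (nat_lit 175) (nat_lit 20678166659641484973121)) .nil))))) (.cons (.rf (nat_lit 176) (nat_lit 677582165103132179601393696)) (.cons (.rf (nat_lit 176) (nat_lit 677582050967385411208448032)) (.cons (.rf (nat_lit 177) (nat_lit 677582165103132179601393696)) (.cons (.rf (nat_lit 178) (nat_lit 677582165103132179601393696)) (.cons (.br (nat_lit 5) (nat_lit 0) (.cons (.rf (nat_lit 176) (nat_lit 677582165103132179500635171))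 (.cons (.rf (nat_lit 176) (nat_lit 677582050967385411107689507)) (.cons (.rf (nat_lit 177) (nat_lit 677582165103132179500635171)) (.cons (.rf (nat_lit 178) (nat_lit 677582165103132179500635171)) .nil))))) .nil))))))) .nil)))))))) .nil))))))))) .nil))))))))) .nil)) .nil)) (.cons (.br (nat_lit 12) (nat_lit 0) (.cons (.rf (nat_lit 226) (nat_lit 583706118939841765935136)) (.cons (.rf (nat_lit 226) (nat_lit 547107778697602015528992)) .nil))) .nil))) .nil))) .nil))) .nil)) .nil))) .nil))) .nil)) .nil)) .nil)) .nil))]

theorem c10 : chkAll C T R L10 (nat_lit 227) = true := by decide +kernel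

theorem l10 : (nat_lit 227) + L10.length = (nat_lit 228) := by decide +kernel

/-- part of the certificates -/
def L11 : List Prf := [(.br (nat_lit 14) (nat_lit 0) (.cons (.br (nat_lit 14) (nat_lit 0) .nil) .nil)),
 (.br (nat_lit 12) (nat_lit 1) (.cons (.rf (nat_lit 228) (nat_lit 17022140995484340291616)) (.cons (.br (nat_lit 13) (nat_lit 0) (.cons (.br (nat_lit 14) (nat_lit 0) (.cons (.rf (nat_lit 227) (nat_lit 10077285869)) .nil)) .nil)) .nil))),
 (.br (nat_lit 14) (nat_lit 0) (.cons (.br (nat_lit 14) (nat_lit 0) .nil) .nil)),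
 (.br (nat_lit 10) (nat_lit 0) (.cons (.br (nat_lit 12) (nat_lit 0) (.cons (.rf (nat_lit 230) (nat_lit 15733177005133699057696)) (.cons (.br (nat_lit 14) (nat_lit 1) (.cons (.br (nat_lit 13) (nat_lit 0) (.cons (.kr (nat_lit 20282409608374037188291873210369) (nat_lit 79229371440083952227030401024) (nat_lit 0) (nat_lit 1)) .nil)) .nil)) .nil))) .nil)),
 (.br (nat_lit 11) (nat_lit 0) (.cons (.ev (nat_lit 1339612827190109348702661712116122370) (nat_lit 2)) (.cons (.ev (nat_lit 20362260367722440665457844421121) (nat_lit 2)) (.cons (.br (nat_lit 14) (nat_lit 0) (.cons (.ev (nat_lit 10405113814801831317240180761559555) (nat_lit 2)) (.cons (.rf (nat_lit 2) (nat_lit 19075358488705340481)) .nil))) .nil)))),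
 (.br (nat_lit 11) (nat_lit 0) (.cons (.ev (nat_lit 1339612827190109348702943200011288579) (nat_lit 2)) (.cons (.ev (nat_lit 20362260367722441228399207907331) (nat_lit 2)) (.cons (.br (nat_lit 14) (nat_lit 0) (.cons (.ev (nat_lit 10405113814801831316677239398072321) (nat_lit 2)) (.cons (.rf (nat_lit 2) (nat_lit 19075358488702197825)) .nil))) .nil)))),
 (.br (nat_lit 11) (nat_lit 0) (.cons (.ev (nat_lit 1339612827190109348702943200028065794) (nat_lit 2)) (.cons (.ev (nat_lit 20362260367722441228399174352897) (nat_lit 2)) (.cons (.br (nat_lit 14) (nat_lit 0) (.cons (.ev (nat_lit 10405113814801831316677239431626755) (nat_lit 2)) (.cons (.rf (nat_lit 2) (nat_lit 19075358488699052193)) .nil))) .nil)))),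
 (.br (nat_lit 15) (nat_lit 0) (.cons (.ev (nat_lit 2658476512284106608100685121602060291) (nat_lit 2)) (.cons (.ev (nat_lit 2658476512284106608100682913955184643) (nat_lit 2)) (.cons (.ev (nat_lit 341611594917032869068466523909690228736) (nat_lit 1)) (.cons (.ev (nat_lit 2668860946925890659919344321366589443) (nat_lit 2)) .nil))))),
 (.br (nat_lit 15) (nat_lit 0) (.cons (.ev (nat_lit 2668860946925890659918783570436554753) (nat_lit 2)) (.cons (.ev (nat_lit 2668860946925890659918781380036657153) (nat_lit 2)) (.cons (.ev (nat_lit 341616787292810076678171282581938503681) (nat_lit 1)) (.cons (.ev (nat_lit 2658476512284106608100119972625252353) (nat_lit 2)) .nil))))),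
 (.br (nat_lit 2) (nat_lit 0) (.cons (.br (nat_lit 8) (nat_lit 0) (.cons (.br (nat_lit 14) (nat_lit 0) (.cons (.kr (nat_lit 20361638979814121140514591866881) (nat_lit 10384594336039674899751134419746816) (nat_lit 0) (nat_lit 1)) (.cons (.br (nat_lit 15) (nat_lit 0) (.cons (.ev (nat_lit 2668860946925890659919344321366589443) (nat_lit 2)) (.cons (.rf (nat_lit 1) (nat_lit 582169141679169)) .nil))) .nil))) (.cons (.br (nat_lit 11) (nat_lit 0) (.cons (.kr (nat_lit 20361638979814121140514591866881) (nat_lit 10384594336039674899751134419746816) (nat_lit 0) (nat_lit 1)) (.cons (.br (nat_lit 15) (nat_lit 0) (.cons (.ev (nat_lit 2658476512284106608100119972625252353) (nat_lit 2)) (.cons (.rf (nat_lit 1) (nat_lit 582172359758913)) .nil))) .nil))) (.cons (.br (nat_lit 11) (nat_lit 0) (.cons (.ev (nat_lit 31174460324255116507390403621946375) (nat_lit 3)) (.cons (.rf (nat_lit 179) (nat_lit 19003409607671649345)) .nil))) (.cons (.br (nat_lit 16) (nat_lit 0) (.cons (.ev (nat_lit 20362260367722440665457844421121) (nat_lit 2)) (.cons (.ev (nat_lit 10405113814801831317240180761559555)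 (nat_lit 2)) (.cons (.rf (nat_lit 232) (nat_lit 19926519232773908561233952)) (.cons (.br (nat_lit 16) (nat_lit 0) (.cons (.ev (nat_lit 20362260367722440665457844421121) (nat_lit 2)) (.cons (.ev (nat_lit 10405113814801831317240180761559555) (nat_lit 2)) (.cons (.rf (nat_lit 232) (nat_lit 19926519232773908561233952)) .nil)))) .nil))))) .nil))))) (.cons (.br (nat_lit 5) (nat_lit 0) (.cons (.br (nat_lit 14) (nat_lit 0) (.cons (.kr (nat_lit 20361638979814121703468840255491) (nat_lit 2658455991569831782845219655095812096) (nat_lit 0) (nat_lit 1)) (.cons (.br (nat_lit 15) (nat_lit 0) (.cons (.ev (nat_lit 2668860946925890659919344321366589443) (nat_lit 2)) (.cons (.rf (nat_lit 1) (nat_lit 582169041018945)) .nil))) .nil))) (.cons (.br (nat_lit 11) (nat_lit 0) (.cons (.kr (nat_lit 20361638979814121703468840255491) (nat_lit 2658455991569831782845219655095812096) (nat_lit 0) (nat_lit 1)) (.cons (.br (nat_lit 15) (nat_lit 0) (.cons (.ev (nat_lit 2658476512284106608100119972625252353) (nat_lit 2)) (.cons (.rf (nat_lit 1) (nat_lit 582172259098689)) .nil)))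 .nil))) (.cons (.br (nat_lit 11) (nat_lit 0) (.cons (.ev (nat_lit 31174460324255116506264520894971907) (nat_lit 3)) (.cons (.rf (nat_lit 181) (nat_lit 19459491438255768963104)) .nil))) (.cons (.br (nat_lit 16) (nat_lit 0) (.cons (.ev (nat_lit 20362260367722441228399207907331) (nat_lit 2)) (.cons (.ev (nat_lit 10405113814801831316677239398072321) (nat_lit 2)) (.cons (.rf (nat_lit 233) (nat_lit 19926519232773908561233952)) (.cons (.br (nat_lit 16) (nat_lit 0) (.cons (.ev (nat_lit 20362260367722441228399207907331) (nat_lit 2)) (.cons (.ev (nat_lit 10405113814801831316677239398072321) (nat_lit 2)) (.cons (.rf (nat_lit 233) (nat_lit 19926519232773908561233952)) .nil)))) .nil))))) .nil))))) (.cons (.br (nat_lit 14) (nat_lit 0) (.cons (.kr (nat_lit 5192297168019837450157040030712320) (nat_lit 79228167236630820467517685760) (nat_lit 1) (nat_lit 0)) (.cons (.kr (nat_lit 79228167236630820463189164033) (nat_lit 5192297168019837449875565054001408) (nat_lit 0) (nat_lit 2)) (.cons (.kr (nat_lit 20361638979814120859043926900737) (nat_lit 10384594336039674900032605084713472)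 (nat_lit 0) (nat_lit 2)) (.cons (.br (nat_lit 15) (nat_lit 0) (.cons (.ev (nat_lit 2658476512284106608100119972591697923) (nat_lit 2)) (.cons (.ev (nat_lit 2658476512284106608100682913955185153) (nat_lit 2)) (.cons (.ev (nat_lit 2668860946925890659919344321366589443) (nat_lit 2)) (.cons (.br (nat_lit 5) (nat_lit 0) (.cons (.rf (nat_lit 1) (nat_lit 582165819796545)) (.cons (.br (nat_lit 8) (nat_lit 0) (.cons (.ev (nat_lit 340287579579435973401276598344615002112) (nat_lit 1)) (.cons (.rf (nat_lit 2) (nat_lit 19068677825886399553)) .nil))) (.cons (.br (nat_lit 17) (nat_lit 0) (.cons (.ev (nat_lit 87113615180117980022598379030831653978113) (nat_lit 1)) (.cons (.ev (nat_lit 87113620372335300914624288361535359680768) (nat_lit 1)) .nil))) .nil)))) .nil))))) .nil))))) (.cons (.br (nat_lit 11) (nat_lit 0) (.cons (.kr (nat_lit 5192297168019837450157040030712320) (nat_lit 79228167236630820467517685760) (nat_lit 1) (nat_lit 0)) (.cons (.kr (nat_lit 79228167236630820463189164033) (nat_lit 5192297168019837449875565054001408) (nat_lit 0) (nat_lit 2)) (.cons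 (.kr (nat_lit 20361638979814120859043926900737) (nat_lit 10384594336039674900032605084713472) (nat_lit 0) (nat_lit 2)) (.cons (.br (nat_lit 15) (nat_lit 0) (.cons (.ev (nat_lit 2668860946925890659919344321400143873) (nat_lit 2)) (.cons (.ev (nat_lit 2668860946925890659918781380036657667) (nat_lit 2)) (.cons (.ev (nat_lit 2658476512284106608100119972625252353) (nat_lit 2)) (.cons (.br (nat_lit 5) (nat_lit 0) (.cons (.rf (nat_lit 1) (nat_lit 582165816653889)) (.cons (.br (nat_lit 8) (nat_lit 0) (.cons (.ev (nat_lit 340282387203658765791571276713823371265) (nat_lit 1)) (.cons (.rf (nat_lit 203) (nat_lit 646192708113796242469)) .nil))) (.cons (.br (nat_lit 17) (nat_lit 0) (.cons (.ev (nat_lit 87113620372335300914624288643014614581248) (nat_lit 1)) (.cons (.ev (nat_lit 87113615180117980022598379312310908879105) (nat_lit 1)) .nil))) .nil)))) .nil))))) .nil))))) (.cons (.br (nat_lit 11) (nat_lit 0) (.cons (.ev (nat_lit 2658476512284106608100119972591697923) (nat_lit 2)) (.cons (.ev (nat_lit 2658476512284106608100682913955185153) (nat_lit 2)) (.cons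 (.ev (nat_lit 5327317257267719262817539982629012487) (nat_lit 3)) (.cons (.br (nat_lit 14) (nat_lit 0) (.cons (.ev (nat_lit 2668860946925890659919344321400143873) (nat_lit 2)) (.cons (.ev (nat_lit 2668860946925890659918781380036657667) (nat_lit 2)) (.cons (.ev (nat_lit 2663709136589268780103261291632656898) (nat_lit 2)) (.cons (.br (nat_lit 5) (nat_lit 0) (.cons (.rf (nat_lit 1) (nat_lit 582131456916545)) (.cons (.br (nat_lit 8) (nat_lit 0) (.cons (.ev (nat_lit 1374421768956458249979813630813315140613) (nat_lit 4)) (.cons (.br (nat_lit 16) (nat_lit 0) (.cons (.zr (nat_lit 1363788025087380166375433071522631255040) (nat_lit 31153862236295706063321080749096961) (nat_lit 16) (nat_lit 15)) .nil)) .nil))) (.cons (.br (nat_lit 8) (nat_lit 0) (.cons (.br (nat_lit 16) (nat_lit 0) (.cons (.zr (nat_lit 1363787924229920846848027271310115733507) (nat_lit 31214630238138905530139891401228288) (nat_lit 16) (nat_lit 8)) .nil)) (.cons (.ev (nat_lit 1045366081931800467995625039814521233212421) (nat_lit 4)) .nil))) .nil)))) .nil))))) .nil))))) (.cons (.br (nat_lit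 5) (nat_lit 0) (.cons (.br (nat_lit 16) (nat_lit 0) (.cons (.ev (nat_lit 20362260367722441228399174352897) (nat_lit 2)) (.cons (.ev (nat_lit 10405113814801831316677239431626755) (nat_lit 2)) (.cons (.rf (nat_lit 234) (nat_lit 19926519232773908561233952)) (.cons (.br (nat_lit 16) (nat_lit 0) (.cons (.ev (nat_lit 20362260367722441228399174352897) (nat_lit 2)) (.cons (.ev (nat_lit 10405113814801831316677239431626755) (nat_lit 2)) (.cons (.rf (nat_lit 234) (nat_lit 19926519232773908561233952)) .nil)))) .nil))))) (.cons (.br (nat_lit 8) (nat_lit 0) (.cons (.kr (nat_lit 5192297168019837449875565054001408) (nat_lit 79228167236630820463205941248) (nat_lit 1) (nat_lit 0)) (.cons (.ev (nat_lit 2658476512284106608100682913988739587) (nat_lit 2)) (.cons (.br (nat_lit 14) (nat_lit 0) (.cons (.kr (nat_lit 10384594336039674900032605084713473) (nat_lit 20361638979814120859043960455168) (nat_lit 0) (nat_lit 2)) (.cons (.ev (nat_lit 340287559217797003031888423565018595328) (nat_lit 1)) (.cons (.br (nat_lit 15) (nat_lit 0) (.cons (.ev (nat_lit 341611594917032869068466523909690228736)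 (nat_lit 1)) (.cons (.ev (nat_lit 2668860946925890659919344321366589443) (nat_lit 2)) .nil))) .nil)))) (.cons (.br (nat_lit 14) (nat_lit 0) (.cons (.kr (nat_lit 10384594336039674900032605084713473) (nat_lit 20361638979814120859043960455168) (nat_lit 0) (nat_lit 2)) (.cons (.br (nat_lit 15) (nat_lit 0) (.cons (.ev (nat_lit 2668860946925890659919344321366589443) (nat_lit 2)) (.cons (.rf (nat_lit 2) (nat_lit 19068677825883253921)) .nil))) (.cons (.br (nat_lit 17) (nat_lit 0) (.cons (.ev (nat_lit 2668860946925890659919344321366589443) (nat_lit 2)) (.cons (.ev (nat_lit 87112285931839784294166504269441478492160) (nat_lit 1)) .nil))) .nil)))) .nil))))) (.cons (.br (nat_lit 8) (nat_lit 0) (.cons (.kr (nat_lit 5192297168019837449875565054001408) (nat_lit 79228167236630820463205941248) (nat_lit 1) (nat_lit 0)) (.cons (.ev (nat_lit 2668860946925890659918781380003103233) (nat_lit 2)) (.cons (.br (nat_lit 11) (nat_lit 0) (.cons (.kr (nat_lit 10384594336039674900032605084713473) (nat_lit 20361638979814120859043960455168) (nat_lit 0) (nat_lit 2)) (.cons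 (.ev (nat_lit 340282367000476111005979374340567793665) (nat_lit 1)) (.cons (.br (nat_lit 15) (nat_lit 0) (.cons (.ev (nat_lit 341616787292810076678171282581938503681) (nat_lit 1)) (.cons (.ev (nat_lit 2658476512284106608100119972625252353) (nat_lit 2)) .nil))) .nil)))) (.cons (.br (nat_lit 11) (nat_lit 0) (.cons (.kr (nat_lit 10384594336039674900032605084713473) (nat_lit 20361638979814120859043960455168) (nat_lit 0) (nat_lit 2)) (.cons (.br (nat_lit 15) (nat_lit 0) (.cons (.ev (nat_lit 2658476512284106608100119972625252353) (nat_lit 2)) (.cons (.rf (nat_lit 203) (nat_lit 646192708113796340770)) .nil))) (.cons (.br (nat_lit 17) (nat_lit 0) (.cons (.ev (nat_lit 2658476512284106608100119972625252353) (nat_lit 2)) (.cons (.ev (nat_lit 87112291124057105186192413318665895739393) (nat_lit 1)) .nil))) .nil)))) .nil))))) (.cons (.br (nat_lit 8) (nat_lit 0) (.cons (.ev (nat_lit 2658476512284106608100682913988739587) (nat_lit 2)) (.cons (.ev (nat_lit 2668860946925890659918781380003103233) (nat_lit 2)) (.cons (.br (nat_lit 11) (nat_lit 0) (.cons (.ev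 (nat_lit 31174460324255116507390403689055235) (nat_lit 3)) (.cons (.ev (nat_lit 1374421768956458249979813630813214477323) (nat_lit 4)) (.cons (.br (nat_lit 14) (nat_lit 0) (.cons (.ev (nat_lit 4102039153728769797698741073310741038087) (nat_lit 4)) (.cons (.ev (nat_lit 5192377017574982400502446438875651) (nat_lit 2)) .nil))) .nil)))) (.cons (.br (nat_lit 11) (nat_lit 0) (.cons (.ev (nat_lit 5327317257267719262817539982561903619) (nat_lit 3)) (.cons (.br (nat_lit 14) (nat_lit 0) (.cons (.ev (nat_lit 341611594917034073271919374189964820481) (nat_lit 1)) (.cons (.br (nat_lit 16) (nat_lit 0) (.cons (.zr (nat_lit 1363788025087380166375433071522631255040) (nat_lit 31153862236295706063321080715542531) (nat_lit 16) (nat_lit 15)) .nil)) .nil))) (.cons (.br (nat_lit 14) (nat_lit 0) (.cons (.br (nat_lit 16) (nat_lit 0) (.cons (.zr (nat_lit 1363788065652196955827134971633761125376) (nat_lit 31154020692611289858749062159794177) (nat_lit 16) (nat_lit 15)) .nil)) (.cons (.ev (nat_lit 87113615159756342256432444550770113642753) (nat_lit 1)) .nil))) .nil))))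 .nil))))) (.cons (.br (nat_lit 8) (nat_lit 0) (.cons (.br (nat_lit 14) (nat_lit 0) (.cons (.kr (nat_lit 20361638979814121140514591866881) (nat_lit 10384594336039674899751134419746816) (nat_lit 0) (nat_lit 1)) (.cons (.ev (nat_lit 340287559217797003031888705044290273537) (nat_lit 1)) (.cons (.rf (nat_lit 235) (nat_lit 677582165103132179601393696)) .nil)))) (.cons (.br (nat_lit 11) (nat_lit 0) (.cons (.kr (nat_lit 20361638979814121140514591866881) (nat_lit 10384594336039674899751134419746816) (nat_lit 0) (nat_lit 1)) (.cons (.ev (nat_lit 340282367000476111005979092861296115968) (nat_lit 1)) (.cons (.rf (nat_lit 236) (nat_lit 677582165103132179601393696)) .nil)))) (.cons (.br (nat_lit 11) (nat_lit 0) (.cons (.ev (nat_lit 31174460324255116507390403689055235) (nat_lit 3)) (.cons (.ev (nat_lit 1374421768956458249979811941920337430021) (nat_lit 4)) (.cons (.br (nat_lit 14) (nat_lit 0) (.cons (.ev (nat_lit 4102039153728769797698740510369176224261) (nat_lit 4)) (.cons (.ev (nat_lit 5192377017574982400502446438875651) (nat_lit 2)) .nil))) .nil))))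 (.cons (.br (nat_lit 11) (nat_lit 0) (.cons (.ev (nat_lit 1361139872640974095344998186562800059399) (nat_lit 3)) (.cons (.ev (nat_lit 340282367000477324654165471839404491009) (nat_lit 1)) (.cons (.br (nat_lit 14) (nat_lit 0) (.cons (.ev (nat_lit 340287579579434769197823466585085509889) (nat_lit 1)) (.cons (.ev (nat_lit 680569987145350271174972476456442135042) (nat_lit 2)) .nil))) .nil)))) (.cons (.br (nat_lit 17) (nat_lit 0) (.cons (.ev (nat_lit 20362260367722440665457810866691) (nat_lit 2)) (.cons (.ev (nat_lit 10405113814801831317240180795113985) (nat_lit 2)) (.cons (.br (nat_lit 17) (nat_lit 0) (.cons (.ev (nat_lit 20362260367722440665457810866691) (nat_lit 2)) (.cons (.ev (nat_lit 10405113814801831317240180795113985) (nat_lit 2)) (.cons (.kr (nat_lit 680564754124287739504240097864892548097) (nat_lit 174224571863599721460484429825541482217472) (nat_lit 0) (nat_lit 2)) .nil)))) (.cons (.br (nat_lit 17) (nat_lit 0) (.cons (.ev (nat_lit 20362260367722440665457810866691) (nat_lit 2)) (.cons (.ev (nat_lit 10405113814801831317240180795113985)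 (nat_lit 2)) (.cons (.kr (nat_lit 680564754124287739504240097864892548097) (nat_lit 174224571863599721460484429825541482217472) (nat_lit 0) (nat_lit 2)) .nil)))) .nil))))) .nil)))))) (.cons (.br (nat_lit 8) (nat_lit 0) (.cons (.br (nat_lit 14) (nat_lit 0) (.cons (.kr (nat_lit 20361638979814121140514591866881) (nat_lit 10384594336039674899751134419746816) (nat_lit 0) (nat_lit 1)) (.cons (.br (nat_lit 16) (nat_lit 0) (.cons (.ev (nat_lit 2668860946925890659919344321366589443) (nat_lit 2)) (.cons (.ev (nat_lit 340282367000476111005979374340567793665) (nat_lit 1)) .nil))) (.cons (.br (nat_lit 17) (nat_lit 0) (.cons (.ev (nat_lit 2668860946925890659919344321366589443) (nat_lit 2)) (.cons (.ev (nat_lit 87112285931839784294166504269441478492160) (nat_lit 1)) .nil))) .nil)))) (.cons (.br (nat_lit 11) (nat_lit 0) (.cons (.kr (nat_lit 20361638979814121140514591866881) (nat_lit 10384594336039674899751134419746816) (nat_lit 0) (nat_lit 1)) (.cons (.br (nat_lit 16) (nat_lit 0) (.cons (.ev (nat_lit 2658476512284106608100119972625252353) (nat_lit 2)) (.cons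 (.ev (nat_lit 340287559217797003031888423565018595328) (nat_lit 1)) .nil))) (.cons (.br (nat_lit 17) (nat_lit 0) (.cons (.ev (nat_lit 2658476512284106608100119972625252353) (nat_lit 2)) (.cons (.ev (nat_lit 87112291124057105186192413318665895739393) (nat_lit 1)) .nil))) .nil)))) (.cons (.br (nat_lit 11) (nat_lit 0) (.cons (.ev (nat_lit 5327317257267719262818665865288876039) (nat_lit 3)) (.cons (.br (nat_lit 14) (nat_lit 0) (.cons (.ev (nat_lit 341611594917034073271919655669236498688) (nat_lit 1)) (.cons (.br (nat_lit 16) (nat_lit 0) (.cons (.zr (nat_lit 1363788025087380166375433071522648031744) (nat_lit 31153862236295706063884022028697605) (nat_lit 16) (nat_lit 15)) .nil)) .nil))) (.cons (.br (nat_lit 14) (nat_lit 0) (.cons (.br (nat_lit 16) (nat_lit 0) (.cons (.zr (nat_lit 1363788065652196955827134690158784414208) (nat_lit 31154020692611289859030528479461379) (nat_lit 16) (nat_lit 15)) .nil)) (.cons (.ev (nat_lit 87113615159756342256432444550770113642753) (nat_lit 1)) .nil))) .nil)))) (.cons (.br (nat_lit 17) (nat_lit 0) (.cons (.ev (nat_lit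 20362260367722440665457810866691) (nat_lit 2)) (.cons (.ev (nat_lit 10405113814801831317240180795113985) (nat_lit 2)) (.cons (.br (nat_lit 17) (nat_lit 0) (.cons (.ev (nat_lit 20362260367722440665457810866691) (nat_lit 2)) (.cons (.ev (nat_lit 10405113814801831317240180795113985) (nat_lit 2)) (.cons (.kr (nat_lit 174224571863599721460484430107003490140163) (nat_lit 680564754124287739504239253444307714048) (nat_lit 0) (nat_lit 1)) .nil)))) (.cons (.br (nat_lit 17) (nat_lit 0) (.cons (.ev (nat_lit 20362260367722440665457810866691) (nat_lit 2)) (.cons (.ev (nat_lit 10405113814801831317240180795113985) (nat_lit 2)) (.cons (.kr (nat_lit 174224571863599721460484430107003490140163) (nat_lit 680564754124287739504239253444307714048) (nat_lit 0) (nat_lit 1)) .nil)))) .nil))))) (.cons (.br (nat_lit 16) (nat_lit 0) (.cons (.ev (nat_lit 20362260367722440665457810866691) (nat_lit 2)) (.cons (.ev (nat_lit 10405113814801831317240180795113985) (nat_lit 2)) (.cons (.br (nat_lit 16) (nat_lit 0) (.cons (.ev (nat_lit 20362260367722440665457810866691) (nat_lit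 2)) (.cons (.ev (nat_lit 10405113814801831317240180795113985) (nat_lit 2)) (.cons (.kr (nat_lit 174224571883802904105825289043646045224961) (nat_lit 680564733921105094163380316801719074816) (nat_lit 0) (nat_lit 1)) .nil)))) (.cons (.br (nat_lit 16) (nat_lit 0) (.cons (.ev (nat_lit 20362260367722440665457810866691) (nat_lit 2)) (.cons (.ev (nat_lit 10405113814801831317240180795113985) (nat_lit 2)) (.cons (.kr (nat_lit 174224571883802904105825289043646045224961) (nat_lit 680564733921105094163380316801719074816) (nat_lit 0) (nat_lit 1)) .nil)))) .nil))))) .nil)))))) .nil))))))) .nil)))))))]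

theorem c11 : chkAll C T R L11 (nat_lit 228) = true := by decide +kernel

theorem l11 : (nat_lit 228) + L11.length = (nat_lit 238) := by decide +kernel

/-- part of the certificates -/
def L12 : List Prf := [(.br (nat_lit 8) (nat_lit 0) (.cons (.ev (nat_lit 341611594917032869068466525004923731968) (nat_lit 1)) (.cons (.rf (nat_lit 203) (nat_lit 610448655026012329032)) .nil))),
 (.br (nat_lit 8) (nat_lit 0) (.cons (.rf (nat_lit 2) (nat_lit 20185570533476504641)) (.cons (.ev (nat_lit 87112291144418744156561801492341702263040) (nat_lit 1)) .nil))),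
 (.br (nat_lit 15) (nat_lit 0) (.cons (.ev (nat_lit 1339653233550564327142073177730974208) (nat_lit 2)) (.cons (.rf (nat_lit 1) (nat_lit 582172256083009)) .nil))),
 (.br (nat_lit 8) (nat_lit 0) (.cons (.ev (nat_lit 5192377017574982400503541638823937) (nat_lit 2)) (.cons (.ev (nat_lit 20362260367722440665457810866177) (nat_lit 2)) (.cons (.br (nat_lit 15) (nat_lit 0) (.cons (.ev (nat_lit 2658476512284106608100122163025149953) (nat_lit 2)) (.cons (.rf (nat_lit 2) (nat_lit 19068677825886526529)) .nil))) .nil)))),
 (.br (nat_lit 15) (nat_lit 0) (.cons (.ev (nat_lit 1339653233550564327142073177730974208) (nat_lit 2)) (.cons (.rf (nat_lit 1) (nat_lit 582172255035457)) .nil))),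
 (.br (nat_lit 7) (nat_lit 0) (.cons (.ev (nat_lit 5192377017574982400785012370898946) (nat_lit 2)) (.cons (.ev (nat_lit 20362260367722441228399207907331) (nat_lit 2)) (.cons (.br (nat_lit 15) (nat_lit 0) (.cons (.ev (nat_lit 2658476512284106608100685121602060291) (nat_lit 2)) (.cons (.rf (nat_lit 203) (nat_lit 646189221668824588357)) .nil))) .nil)))),
 (.br (nat_lit 15) (nat_lit 0) (.cons (.ev (nat_lit 1339653233550564327142073177714196993) (nat_lit 2)) (.cons (.rf (nat_lit 1) (nat_lit 582164739897409)) .nil))),
 (.br (nat_lit 15) (nat_lit 0) (.cons (.ev (nat_lit 1339653233550564327142073177714196993) (nat_lit 2)) (.cons (.rf (nat_lit 1) (nat_lit 582165812590657)) .nil))),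
 (.br (nat_lit 13) (nat_lit 0) (.cons (.ev (nat_lit 5192297168019855896902213251956736) (nat_lit 1)) .nil)),
 (.br (nat_lit 15) (nat_lit 0) (.cons (.ev (nat_lit 340282387203349276059383729150935171073) (nat_lit 1)) .nil)),
 (.br (nat_lit 15) (nat_lit 0) (.cons (.ev (nat_lit 341616787292810076678171282581938503681) (nat_lit 1)) (.cons (.rf (nat_lit 247) (nat_lit 21174441469360359728056352)) .nil))),
 (.br (nat_lit 8) (nat_lit 0) (.cons (.ev (nat_lit 5192377017574982400503541672378371) (nat_lit 2)) (.cons (.ev (nat_lit 20362260367722440665457844420611) (nat_lit 2)) (.cons (.br (nat_lit 15) (nat_lit 0) (.cons (.ev (nat_lit 2658476512284106608100122163025149953) (nat_lit 2)) (.cons (.rf (nat_lit 2) (nat_lit 19068677825883380897)) .nil))) .nil)))),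
 (.br (nat_lit 7) (nat_lit 0) (.cons (.ev (nat_lit 5192377017574982400785012337344512) (nat_lit 2)) (.cons (.ev (nat_lit 20362260367722441228399174352897) (nat_lit 2)) (.cons (.br (nat_lit 15) (nat_lit 0) (.cons (.ev (nat_lit 2658476512284106608100685121602060291) (nat_lit 2)) (.cons (.rf (nat_lit 203) (nat_lit 646189221668824588450)) .nil))) .nil)))),
 (.br (nat_lit 15) (nat_lit 0) (.cons (.ev (nat_lit 1334420292954144636173298358332489985) (nat_lit 1)) .nil)),
 (.br (nat_lit 8) (nat_lit 0) (.cons (.ev (nat_lit 87113615180117980022598379031935460638720) (nat_lit 1)) .nil)),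
 (.br (nat_lit 15) (nat_lit 0) (.cons (.ev (nat_lit 340282387203349276059383447680253427713) (nat_lit 1)) .nil)),
 (.br (nat_lit 14) (nat_lit 0) (.cons (.rf (nat_lit 253) (nat_lit 21174441469360359728056352)) (.cons (.ev (nat_lit 87113620352132119473486882275181652345088) (nat_lit 1)) .nil))),
 (.br (nat_lit 15) (nat_lit 0) (.cons (.ev (nat_lit 340287559218107692226644380200502100225) (nat_lit 1)) .nil)),
 (.br (nat_lit 14) (nat_lit 0) (.cons (.ev (nat_lit 340282387203349276059383447680253427713) (nat_lit 1)) .nil)),
 (.br (nat_lit 14) (nat_lit 0) (.cons (.ev (nat_lit 1329248278195728468912928779447304193) (nat_lit 1)) .nil)),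
 (.br (nat_lit 13) (nat_lit 0) (.cons (.ev (nat_lit 5192297168019855896902217546858496) (nat_lit 1)) .nil)),
 (.br (nat_lit 14) (nat_lit 0) (.cons (.rf (nat_lit 258) (nat_lit 20678165497422226296897)) (.cons (.ev (nat_lit 87113620352132119473486882275181652345088) (nat_lit 1)) .nil))),
 (.br (nat_lit 2) (nat_lit 0) (.cons (.br (nat_lit 15) (nat_lit 0) (.cons (.ev (nat_lit 2658476512284106608100122163058704387) (nat_lit 2)) (.cons (.ev (nat_lit 2658476512284106608100685121568505857) (nat_lit 2)) (.cons (.ev (nat_lit 5348086126553657994430391466869261317) (nat_lit 3)) (.cons (.br (nat_lit 14) (nat_lit 0) (.cons (.br (nat_lit 8) (nat_lit 0) (.cons (.ev (nat_lit 7985773090378808165494859590250398215) (nat_lit 3)) (.cons (.rf (nat_lit 1) (nat_lit 616257183650881)) .nil))) (.cons (.br (nat_lit 7) (nat_lit 0) (.cons (.ev (nat_lit 7985773090378808165494296648920465925) (nat_lit 3)) (.cons (.rf (nat_lit 1) (nat_lit 616257216156737)) .nil))) (.cons (.ev (nat_lit 2668860946925890659919344321366589443) (nat_lit 2)) (.cons (.br (nat_lit 7) (nat_lit 0)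 (.cons (.rf (nat_lit 1) (nat_lit 616250747491393)) (.cons (.rf (nat_lit 238) (nat_lit 677582165103132179601393696)) (.cons (.rf (nat_lit 239) (nat_lit 677582165103132179601393696)) .nil)))) .nil))))) .nil))))) (.cons (.br (nat_lit 5) (nat_lit 0) (.cons (.br (nat_lit 14) (nat_lit 0) (.cons (.kr (nat_lit 1329227995784915891422608728027824384) (nat_lit 5192297168019837449876664565694464) (nat_lit 1) (nat_lit 0)) (.cons (.br (nat_lit 15) (nat_lit 0) (.cons (.ev (nat_lit 2668860946925890659919344321366589443) (nat_lit 2)) (.cons (.rf (nat_lit 1) (nat_lit 582165819923521)) .nil))) .nil))) (.cons (.br (nat_lit 8) (nat_lit 0) (.cons (.ev (nat_lit 31174460324255116507388213188494855) (nat_lit 3)) (.cons (.rf (nat_lit 240) (nat_lit 19926519232773908561233952)) .nil))) (.cons (.br (nat_lit 8) (nat_lit 0) (.cons (.kr (nat_lit 1329227995784915891422608728027824384) (nat_lit 5192297168019837449876664565694464) (nat_lit 1) (nat_lit 0)) (.cons (.br (nat_lit 14) (nat_lit 0) (.cons (.ev (nat_lit 10405113814801831317237990328107011) (nat_lit 2)) (.cons (.rf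 (nat_lit 1) (nat_lit 582138970086465)) .nil))) .nil))) (.cons (.br (nat_lit 16) (nat_lit 0) (.cons (.ev (nat_lit 20362260367722440665457810866177) (nat_lit 2)) (.cons (.rf (nat_lit 241) (nat_lit 19926519232773908561233952)) (.cons (.ev (nat_lit 2658476512284106608100122163025149953) (nat_lit 2)) (.cons (.br (nat_lit 16) (nat_lit 0) (.cons (.ev (nat_lit 20362260367722440665457810866177) (nat_lit 2)) (.cons (.rf (nat_lit 241) (nat_lit 19926519232773908561233952)) (.cons (.ev (nat_lit 2658476512284106608100122163025149953) (nat_lit 2)) .nil)))) .nil))))) .nil))))) (.cons (.br (nat_lit 5) (nat_lit 0) (.cons (.br (nat_lit 14) (nat_lit 0) (.cons (.kr (nat_lit 1329227995784915891422608728027824384) (nat_lit 5192297168019837449876664565694464) (nat_lit 1) (nat_lit 0)) (.cons (.br (nat_lit 15) (nat_lit 0) (.cons (.ev (nat_lit 2668860946925890659919344321366589443) (nat_lit 2)) (.cons (.rf (nat_lit 1) (nat_lit 582164746182721)) .nil))) .nil))) (.cons (.br (nat_lit 7) (nat_lit 0) (.cons (.ev (nat_lit 31174460324255116506825271858562565) (nat_lit 3))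 (.cons (.rf (nat_lit 242) (nat_lit 19926519232773908561233952)) .nil))) (.cons (.br (nat_lit 7) (nat_lit 0) (.cons (.kr (nat_lit 1329227995784915891422608728027824384) (nat_lit 5192297168019837449876664565694464) (nat_lit 1) (nat_lit 0)) (.cons (.br (nat_lit 14) (nat_lit 0) (.cons (.ev (nat_lit 10405113814801831317237990328107011) (nat_lit 2)) (.cons (.rf (nat_lit 1) (nat_lit 582138969038913)) .nil))) .nil))) (.cons (.br (nat_lit 16) (nat_lit 0) (.cons (.ev (nat_lit 20362260367722441228399207907331) (nat_lit 2)) (.cons (.rf (nat_lit 243) (nat_lit 19926519232773908561233952)) (.cons (.ev (nat_lit 2658476512284106608100685121602060291) (nat_lit 2)) (.cons (.br (nat_lit 16) (nat_lit 0) (.cons (.ev (nat_lit 20362260367722441228399207907331) (nat_lit 2)) (.cons (.rf (nat_lit 243) (nat_lit 19926519232773908561233952)) (.cons (.ev (nat_lit 2658476512284106608100685121602060291) (nat_lit 2)) .nil)))) .nil))))) .nil))))) (.cons (.br (nat_lit 5) (nat_lit 0) (.cons (.br (nat_lit 8) (nat_lit 0) (.cons (.ev (nat_lit 31174460324255116507388213222049285)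 (nat_lit 3)) (.cons (.rf (nat_lit 244) (nat_lit 19926519232773908561233952)) .nil))) (.cons (.br (nat_lit 7) (nat_lit 0) (.cons (.ev (nat_lit 31174460324255116506825271892116995) (nat_lit 3)) (.cons (.rf (nat_lit 245) (nat_lit 19926519232773908561233952)) .nil))) (.cons (.ev (nat_lit 2658476512286533904472317160698544641) (nat_lit 2)) (.cons (.br (nat_lit 7) (nat_lit 0) (.cons (.ev (nat_lit 10405113814801831316675031818305537) (nat_lit 2)) (.cons (.br (nat_lit 8) (nat_lit 0) (.cons (.ev (nat_lit 20362257959315534401938751881731) (nat_lit 2)) (.cons (.rf (nat_lit 1) (nat_lit 581932875626561)) .nil))) (.cons (.br (nat_lit 8) (nat_lit 0) (.cons (.ev (nat_lit 20362257959315534401938751881731) (nat_lit 2)) (.cons (.ev (nat_lit 10405113814801831317237990328107011) (nat_lit 2)) (.cons (.br (nat_lit 15) (nat_lit 0) (.cons (.ev (nat_lit 341616787292810076678171564061193404416) (nat_lit 1)) (.cons (.rf (nat_lit 246) (nat_lit 20678165497422226296897)) .nil))) .nil)))) (.cons (.br (nat_lit 8) (nat_lit 0) (.cons (.rf (nat_lit 1) (nat_lit 581898549442625))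 (.cons (.rf (nat_lit 248) (nat_lit 677582165103132179601393696)) (.cons (.ev (nat_lit 10405113814801831317237990328107011) (nat_lit 2)) .nil)))) .nil))))) .nil))))) (.cons (.br (nat_lit 5) (nat_lit 0) (.cons (.br (nat_lit 8) (nat_lit 0) (.cons (.kr (nat_lit 1329227995784915891422608728027824384) (nat_lit 5192297168019837449876664565694464) (nat_lit 1) (nat_lit 0)) (.cons (.br (nat_lit 14) (nat_lit 0) (.cons (.ev (nat_lit 10405113814801831317237990361661441) (nat_lit 2)) (.cons (.rf (nat_lit 1) (nat_lit 582130380160065)) .nil))) .nil))) (.cons (.br (nat_lit 7) (nat_lit 0) (.cons (.kr (nat_lit 1329227995784915891422608728027824384) (nat_lit 5192297168019837449876664565694464) (nat_lit 1) (nat_lit 0)) (.cons (.br (nat_lit 14) (nat_lit 0) (.cons (.ev (nat_lit 10405113814801831317237990361661441) (nat_lit 2)) (.cons (.rf (nat_lit 1) (nat_lit 582131452853313)) .nil))) .nil))) (.cons (.ev (nat_lit 2658476512286533904472317160664990211) (nat_lit 2)) (.cons (.br (nat_lit 7) (nat_lit 0) (.cons (.br (nat_lit 14) (nat_lit 0) (.cons (.ev (nat_lit 2668861424159038915197473388663014401)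 (nat_lit 3)) (.cons (.rf (nat_lit 1) (nat_lit 582131517865025)) .nil))) (.cons (.br (nat_lit 8) (nat_lit 0) (.cons (.ev (nat_lit 20362257959315534401938751881731) (nat_lit 2)) (.cons (.rf (nat_lit 1) (nat_lit 581931801885761)) .nil))) (.cons (.br (nat_lit 8) (nat_lit 0) (.cons (.ev (nat_lit 20362257959315534401938751881731) (nat_lit 2)) (.cons (.ev (nat_lit 340282387203657552143385179215003451393) (nat_lit 1)) (.cons (.br (nat_lit 14) (nat_lit 0) (.cons (.ev (nat_lit 1371773697559236575464260401991806225419) (nat_lit 4)) (.cons (.br (nat_lit 16) (nat_lit 0) (.cons (.zr (nat_lit 1361139852832695493608985848636709667840) (nat_lit 7975428821938320470646654293917040641) (nat_lit 16) (nat_lit 14)) .nil)) .nil))) .nil)))) (.cons (.br (nat_lit 8) (nat_lit 0) (.cons (.rf (nat_lit 1) (nat_lit 581897475701825)) (.cons (.br (nat_lit 14) (nat_lit 0) (.cons (.ev (nat_lit 1371773697559236575464263779708505295879) (nat_lit 4)) (.cons (.br (nat_lit 16) (nat_lit 0) (.cons (.zr (nat_lit 1363787944195421408330634380993017938951) (nat_lit 31153783008119024699260000362954752)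 (nat_lit 16) (nat_lit 8)) .nil)) .nil))) (.cons (.br (nat_lit 17) (nat_lit 0) (.cons (.ev (nat_lit 87112291144418744156561801492341702263040) (nat_lit 1)) (.cons (.ev (nat_lit 174225901152522584737753447850105739805187) (nat_lit 2)) .nil))) .nil)))) .nil))))) .nil))))) (.cons (.br (nat_lit 5) (nat_lit 0) (.cons (.br (nat_lit 16) (nat_lit 0) (.cons (.ev (nat_lit 20362260367722440665457844420611) (nat_lit 2)) (.cons (.rf (nat_lit 249) (nat_lit 19926519232773908561233952)) (.cons (.ev (nat_lit 2658476512284106608100122163025149953) (nat_lit 2)) (.cons (.br (nat_lit 16) (nat_lit 0) (.cons (.ev (nat_lit 20362260367722440665457844420611) (nat_lit 2)) (.cons (.rf (nat_lit 249) (nat_lit 19926519232773908561233952)) (.cons (.ev (nat_lit 2658476512284106608100122163025149953) (nat_lit 2)) .nil)))) .nil))))) (.cons (.br (nat_lit 16) (nat_lit 0) (.cons (.ev (nat_lit 20362260367722441228399174352897) (nat_lit 2)) (.cons (.rf (nat_lit 250) (nat_lit 19926519232773908561233952)) (.cons (.ev (nat_lit 2658476512284106608100685121602060291) (nat_lit 2)) (.cons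 (.br (nat_lit 16) (nat_lit 0) (.cons (.ev (nat_lit 20362260367722441228399174352897) (nat_lit 2)) (.cons (.rf (nat_lit 250) (nat_lit 19926519232773908561233952)) (.cons (.ev (nat_lit 2658476512284106608100685121602060291) (nat_lit 2)) .nil)))) .nil))))) (.cons (.br (nat_lit 7) (nat_lit 0) (.cons (.ev (nat_lit 10405113814801831316675031784751107) (nat_lit 2)) (.cons (.br (nat_lit 8) (nat_lit 0) (.cons (.ev (nat_lit 20362257959315534401938751881731) (nat_lit 2)) (.cons (.rf (nat_lit 1) (nat_lit 581932872480929)) .nil))) (.cons (.br (nat_lit 8) (nat_lit 0) (.cons (.ev (nat_lit 20362257959315534401938751881731) (nat_lit 2)) (.cons (.ev (nat_lit 10405113814801831317237990361661441) (nat_lit 2)) (.cons (.br (nat_lit 15) (nat_lit 0) (.cons (.ev (nat_lit 341616787292810076678171564061193404416) (nat_lit 1)) (.cons (.rf (nat_lit 251) (nat_lit 21174442622281864334903328)) .nil))) .nil)))) (.cons (.br (nat_lit 8) (nat_lit 0) (.cons (.rf (nat_lit 1) (nat_lit 581898546296993)) (.cons (.br (nat_lit 15) (nat_lit 0) (.cons (.ev (nat_lit 341616787292810076678171282581938503681)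 (nat_lit 1)) (.cons (.rf (nat_lit 258) (nat_lit 20666420105030645818433)) .nil))) (.cons (.ev (nat_lit 10405113814801831317237990361661441) (nat_lit 2)) .nil)))) .nil))))) (.cons (.br (nat_lit 7) (nat_lit 0) (.cons (.br (nat_lit 14) (nat_lit 0) (.cons (.ev (nat_lit 2668861424159038915197473388629459971) (nat_lit 3)) (.cons (.rf (nat_lit 1) (nat_lit 582131514719393)) .nil))) (.cons (.br (nat_lit 8) (nat_lit 0) (.cons (.ev (nat_lit 20362257959315534401938751881731) (nat_lit 2)) (.cons (.rf (nat_lit 1) (nat_lit 581931798740129)) .nil))) (.cons (.br (nat_lit 8) (nat_lit 0) (.cons (.ev (nat_lit 20362257959315534401938751881731) (nat_lit 2)) (.cons (.ev (nat_lit 340282387203657552143385179215020228608) (nat_lit 1)) (.cons (.br (nat_lit 14) (nat_lit 0) (.cons (.ev (nat_lit 1371773697559236575464260401991739116559) (nat_lit 4)) (.cons (.br (nat_lit 16) (nat_lit 0) (.cons (.zr (nat_lit 1361139953690137935398584687465523708928) (nat_lit 7975368053938866788619604603820834819) (nat_lit 16) (nat_lit 11)) .nil)) .nil))) .nil)))) (.cons (.br (nat_lit 8)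 (nat_lit 0) (.cons (.rf (nat_lit 1) (nat_lit 581897472556193)) (.cons (.br (nat_lit 14) (nat_lit 0) (.cons (.ev (nat_lit 1371773697559236575464263779708706622475) (nat_lit 4)) (.cons (.br (nat_lit 16) (nat_lit 0) (.cons (.zr (nat_lit 1363787944195421408330634380993017938949) (nat_lit 31153783008119024699260000329400320) (nat_lit 16) (nat_lit 8)) .nil)) .nil))) (.cons (.br (nat_lit 17) (nat_lit 0) (.cons (.ev (nat_lit 87112291144418744156561801492341702263040) (nat_lit 1)) (.cons (.ev (nat_lit 174225901152522584737753447850105723027968) (nat_lit 2)) .nil))) .nil)))) .nil))))) (.cons (.br (nat_lit 15) (nat_lit 0) (.cons (.ev (nat_lit 2658476512284106608100122163025149953) (nat_lit 2)) (.cons (.ev (nat_lit 2658476512284106608100685121602060291) (nat_lit 2)) (.cons (.br (nat_lit 7) (nat_lit 0) (.cons (.ev (nat_lit 7996157523787450102374729676706809349) (nat_lit 3)) (.cons (.ev (nat_lit 1371836004169558229703138388412369078283) (nat_lit 4)) (.cons (.br (nat_lit 8) (nat_lit 0) (.cons (.ev (nat_lit 1371836004169558229703137262529709213703) (nat_lit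 4)) (.cons (.br (nat_lit 16) (nat_lit 0) (.cons (.ev (nat_lit 681899154135451250563941506665752494338) (nat_lit 2)) .nil)) .nil))) .nil)))) (.cons (.ev (nat_lit 341611594917032869068466243534225211393) (nat_lit 1)) (.cons (.br (nat_lit 14) (nat_lit 0) (.cons (.br (nat_lit 16) (nat_lit 0) (.cons (.ev (nat_lit 340282387203658765791571276713823371520) (nat_lit 1)) (.cons (.ev (nat_lit 683228442978466195706852479458049458178) (nat_lit 2)) .nil))) (.cons (.br (nat_lit 16) (nat_lit 0) (.cons (.ev (nat_lit 340282387203658765791571558193111826689) (nat_lit 1)) (.cons (.ev (nat_lit 683228442978466195706853323887224225793) (nat_lit 2)) .nil))) (.cons (.br (nat_lit 7) (nat_lit 0) (.cons (.ev (nat_lit 340287579579435973401276597240791564545) (nat_lit 1)) (.cons (.rf (nat_lit 252) (nat_lit 677582165103132179601393696)) .nil))) (.cons (.ev (nat_lit 2668860946925890659919344321366589443) (nat_lit 2)) .nil))))) .nil)))))) (.cons (.br (nat_lit 7) (nat_lit 0) (.cons (.br (nat_lit 14) (nat_lit 0) (.cons (.ev (nat_lit 7996157523787450102374729676706809349) (nat_lit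 3)) (.cons (.br (nat_lit 15) (nat_lit 0) (.cons (.ev (nat_lit 2668860946925890659919344321366589443) (nat_lit 2)) (.cons (.br (nat_lit 16) (nat_lit 0) (.cons (.ev (nat_lit 341616787292811290326357661560030101760) (nat_lit 1)) .nil)) .nil))) (.cons (.br (nat_lit 15) (nat_lit 0) (.cons (.br (nat_lit 16) (nat_lit 0) (.cons (.ev (nat_lit 340282367000477324654165471839387713537) (nat_lit 1)) .nil)) (.cons (.ev (nat_lit 2668860946925890659919344321366589443) (nat_lit 2)) .nil))) .nil)))) (.cons (.br (nat_lit 8) (nat_lit 0) (.cons (.ev (nat_lit 10405113812374534945042992688267777) (nat_lit 2)) (.cons (.br (nat_lit 15) (nat_lit 0) (.cons (.ev (nat_lit 1374463306695022977780179758899261342211) (nat_lit 4)) (.cons (.br (nat_lit 16) (nat_lit 0) (.cons (.zr (nat_lit 1363787924071464521819499156873974645251) (nat_lit 31174065418931602189298568115126272) (nat_lit 16) (nat_lit 8)) .nil)) .nil))) (.cons (.br (nat_lit 15) (nat_lit 0) (.cons (.br (nat_lit 16) (nat_lit 0) (.cons (.zr (nat_lit 1363787924229920856292761360750289617413) (nat_lit 31214630240556757169375729573822464)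 (nat_lit 16) (nat_lit 8)) .nil)) (.cons (.ev (nat_lit 348462477566052255710422279339302769918471) (nat_lit 4)) .nil))) .nil)))) (.cons (.br (nat_lit 8) (nat_lit 0) (.cons (.ev (nat_lit 10405113812374534944480034178466307) (nat_lit 2)) (.cons (.br (nat_lit 14) (nat_lit 0) (.cons (.ev (nat_lit 341616787292811290326357380080741646593) (nat_lit 1)) (.cons (.br (nat_lit 16) (nat_lit 0) (.cons (.ev (nat_lit 340287559217798207235341554229314584576) (nat_lit 1)) .nil)) .nil))) (.cons (.rf (nat_lit 254) (nat_lit 677582165103132179601393696)) .nil)))) (.cons (.br (nat_lit 8) (nat_lit 0) (.cons (.br (nat_lit 15) (nat_lit 0) (.cons (.ev (nat_lit 1374463306695022977780178633016601477647) (nat_lit 4)) (.cons (.br (nat_lit 16) (nat_lit 0) (.cons (.zr (nat_lit 1363787924071464521819497749520666591744) (nat_lit 31174065418931602189580038796869635) (nat_lit 16) (nat_lit 7)) .nil)) .nil))) (.cons (.br (nat_lit 14) (nat_lit 0) (.cons (.ev (nat_lit 341616787292811290326357380080741646593) (nat_lit 1)) (.cons (.rf (nat_lit 255) (nat_lit 21174442622281864334903328))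 .nil))) (.cons (.br (nat_lit 14) (nat_lit 0) (.cons (.ev (nat_lit 1379780218361259606026971966017672056327) (nat_lit 4)) (.cons (.br (nat_lit 15) (nat_lit 0) (.cons (.ev (nat_lit 2668860946925890659919344321366589443) (nat_lit 2)) .nil)) .nil))) (.cons (.br (nat_lit 14) (nat_lit 0) (.cons (.ev (nat_lit 1344865971584527011891060539803107585) (nat_lit 2)) (.cons (.rf (nat_lit 256) (nat_lit 21174441469360359728056352)) (.cons (.rf (nat_lit 257) (nat_lit 21174441469360359728056352)) .nil)))) .nil))))) (.cons (.br (nat_lit 8) (nat_lit 0) (.cons (.br (nat_lit 15) (nat_lit 0) (.cons (.br (nat_lit 16) (nat_lit 0) (.cons (.zr (nat_lit 1363788025087377748523795247440158786051) (nat_lit 31153862236286261330080454878298112) (nat_lit 16) (nat_lit 15)) .nil)) (.cons (.ev (nat_lit 348462477566052255710422278213420110053891) (nat_lit 4)) .nil))) (.cons (.rf (nat_lit 259) (nat_lit 677582165103132179601393696)) (.cons (.br (nat_lit 14) (nat_lit 0) (.cons (.ev (nat_lit 1344865971584527011891060539803107585) (nat_lit 2)) (.cons (.br (nat_lit 15) (nat_lit 0)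 (.cons (.ev (nat_lit 341611594917034073271919656764436447488) (nat_lit 1)) .nil)) (.cons (.br (nat_lit 15) (nat_lit 0) (.cons (.ev (nat_lit 340287559217798207235341554229314584576) (nat_lit 1)) .nil)) .nil)))) (.cons (.br (nat_lit 14) (nat_lit 0) (.cons (.ev (nat_lit 348467794477718492338669071546421180632587) (nat_lit 4)) (.cons (.br (nat_lit 15) (nat_lit 0) (.cons (.ev (nat_lit 2668860946925890659919344321366589443) (nat_lit 2)) .nil)) .nil))) .nil))))) .nil)))))) .nil))))))) .nil)))))))]

theorem c12 : chkAll C T R L12 (nat_lit 238) = true := by decide +kernel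

theorem l12 : (nat_lit 238) + L12.length = (nat_lit 261) := by decide +kernel

/-- part of the certificates -/
def L13 : List Prf := [(.br (nat_lit 14) (nat_lit 0) (.cons (.ev (nat_lit 2663709136589268780103826440609464322) (nat_lit 2)) (.cons (.rf (nat_lit 1) (nat_lit 582131457170497)) .nil))),
 (.br (nat_lit 11) (nat_lit 0) (.cons (.ev (nat_lit 1339612827190109348702659521699446786) (nat_lit 2)) (.cons (.ev (nat_lit 20362260367722440663250231099393) (nat_lit 2)) (.cons (.br (nat_lit 14) (nat_lit 0) (.cons (.ev (nat_lit 10405113814801831317237990328107011) (nat_lit 2)) (.cons (.rf (nat_lit 251) (nat_lit 21169462144413064480429091)) .nil))) .nil)))),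
 (.br (nat_lit 5) (nat_lit 0) (.cons (.br (nat_lit 11) (nat_lit 0) (.cons (.ev (nat_lit 31174460324255116507386022822151175) (nat_lit 3)) (.cons (.rf (nat_lit 261) (nat_lit 19926519232773908561233952)) .nil))) (.cons (.br (nat_lit 8) (nat_lit 0) (.cons (.kr (nat_lit 5192297168019837449875573643936000) (nat_lit 1329227995784915891422609827539517440) (nat_lit 1) (nat_lit 0)) (.cons (.br (nat_lit 14) (nat_lit 0) (.cons (.ev (nat_lit 10405113814801831317237990328107011) (nat_lit 2)) (.cons (.rf (nat_lit 1) (nat_lit 582134675250241)) .nil))) .nil))) (.cons (.br (nat_lit 8) (nat_lit 0) (.cons (.kr (nat_lit 5192297168019837449875573643936000) (nat_lit 1329227995784915891422609827539517440) (nat_lit 1) (nat_lit 0)) (.cons (.br (nat_lit 11) (nat_lit 0) (.cons (.ev (nat_lit 20362260367722440663250231099393) (nat_lit 2)) (.cons (.rf (nat_lit 1) (nat_lit 582034817260609)) .nil))) .nil))) (.cons (.br (nat_lit 16) (nat_lit 0) (.cons (.rf (nat_lit 262) (nat_lit 19926519232773908561233952)) (.cons (.ev (nat_lit 2658476512284106608100122163025149953) (nat_lit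 2)) (.cons (.ev (nat_lit 2668860946925890659919346529013465091) (nat_lit 2)) (.cons (.br (nat_lit 16) (nat_lit 0) (.cons (.rf (nat_lit 262) (nat_lit 19926519232773908561233952)) (.cons (.ev (nat_lit 2658476512284106608100122163025149953) (nat_lit 2)) (.cons (.ev (nat_lit 2668860946925890659919346529013465091) (nat_lit 2)) .nil)))) .nil))))) .nil))))),
 (.br (nat_lit 11) (nat_lit 0) (.cons (.ev (nat_lit 1339612827190109348702378051034480641) (nat_lit 2)) (.cons (.ev (nat_lit 20362260367722440663250231099393) (nat_lit 2)) (.cons (.br (nat_lit 16) (nat_lit 0) (.cons (.ev (nat_lit 10405113814801831317237990328107011) (nat_lit 2)) (.cons (.ev (nat_lit 341611615278671839437854136834549940480) (nat_lit 1)) .nil))) .nil)))),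
 (.br (nat_lit 5) (nat_lit 0) (.cons (.br (nat_lit 11) (nat_lit 0) (.cons (.ev (nat_lit 31174460324255116507386022822151175) (nat_lit 3)) (.cons (.br (nat_lit 14) (nat_lit 0) (.cons (.ev (nat_lit 5192377017574982400500238825554433) (nat_lit 2)) (.cons (.rf (nat_lit 1) (nat_lit 582130383429697)) .nil))) .nil))) (.cons (.br (nat_lit 7) (nat_lit 0) (.cons (.kr (nat_lit 20361638979814121703468840255491) (nat_lit 2658455991569831782845219655095812096) (nat_lit 0) (nat_lit 1)) (.cons (.br (nat_lit 14) (nat_lit 0) (.cons (.ev (nat_lit 10405113814801831317237990328107011) (nat_lit 2)) (.cons (.rf (nat_lit 1) (nat_lit 582134674202689)) .nil))) .nil))) (.cons (.br (nat_lit 7) (nat_lit 0) (.cons (.kr (nat_lit 20361638979814121703468840255491) (nat_lit 2658455991569831782845219655095812096) (nat_lit 0) (nat_lit 1)) (.cons (.br (nat_lit 11) (nat_lit 0) (.cons (.ev (nat_lit 20362260367722440663250231099393) (nat_lit 2)) (.cons (.rf (nat_lit 1) (nat_lit 582034816213057)) .nil))) .nil))) (.cons (.br (nat_lit 16) (nat_lit 0) (.cons (.rf (nat_lit 264) (nat_lit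 19926519232773908561233952)) (.cons (.ev (nat_lit 2658476512284106608100685121602060291) (nat_lit 2)) (.cons (.ev (nat_lit 2668860946925890659918783570436554753) (nat_lit 2)) (.cons (.br (nat_lit 16) (nat_lit 0) (.cons (.rf (nat_lit 264) (nat_lit 19926519232773908561233952)) (.cons (.ev (nat_lit 2658476512284106608100685121602060291) (nat_lit 2)) (.cons (.ev (nat_lit 2668860946925890659918783570436554753) (nat_lit 2)) .nil)))) .nil))))) .nil))))),
 (.br (nat_lit 5) (nat_lit 0) (.cons (.rf (nat_lit 265) (nat_lit 580050316417309949826083)) (.cons (.rf (nat_lit 263) (nat_lit 580050316417309949826083)) (.cons (.ev (nat_lit 2658476512286533904472317160664990211) (nat_lit 2)) (.cons (.br (nat_lit 7) (nat_lit 0) (.cons (.ev (nat_lit 20362260367722441226208740900867) (nat_lit 2)) (.cons (.kr (nat_lit 20361638979814120859043926900737) (nat_lit 10384594336039674900032605084713472) (nat_lit 0) (nat_lit 2)) (.cons (.br (nat_lit 8) (nat_lit 0) (.cons (.kr (nat_lit 20361638979814121140514591866883) (nat_lit 10384594336039674899751134419747328) (nat_lit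 0) (nat_lit 2)) (.cons (.ev (nat_lit 20362260367722440663250231099393) (nat_lit 2)) (.cons (.br (nat_lit 16) (nat_lit 0) (.cons (.ev (nat_lit 341611615278670635234401286545718968320) (nat_lit 1)) (.cons (.ev (nat_lit 340282367000477324654165189264916087040) (nat_lit 1)) .nil))) .nil)))) (.cons (.br (nat_lit 8) (nat_lit 0) (.cons (.kr (nat_lit 20361638979814121140514591866883) (nat_lit 10384594336039674899751134419747328) (nat_lit 0) (nat_lit 2)) (.cons (.br (nat_lit 16) (nat_lit 0) (.cons (.ev (nat_lit 341611615278670635234401005075020447745) (nat_lit 1)) (.cons (.ev (nat_lit 340282367000477324654165470735581053185) (nat_lit 1)) .nil))) (.cons (.ev (nat_lit 20362260367722440663250231099393) (nat_lit 2)) .nil)))) .nil))))) .nil))))),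
 (.br (nat_lit 5) (nat_lit 0) (.cons (.rf (nat_lit 265) (nat_lit 580050316417309949826083)) (.cons (.rf (nat_lit 263) (nat_lit 580050316417309949826083)) (.cons (.ev (nat_lit 2658476512286533904472317160698544641) (nat_lit 2)) (.cons (.br (nat_lit 7) (nat_lit 0) (.cons (.ev (nat_lit 10405113814801831316675031818305537) (nat_lit 2)) (.cons (.kr (nat_lit 20361638979814120859043926900737) (nat_lit 10384594336039674900032605084713472) (nat_lit 0) (nat_lit 2)) (.cons (.br (nat_lit 8) (nat_lit 0) (.cons (.kr (nat_lit 20361638979814121140514591866883) (nat_lit 10384594336039674899751134419747328) (nat_lit 0) (nat_lit 2)) (.cons (.ev (nat_lit 10405113814801831317237990328107011) (nat_lit 2)) (.cons (.br (nat_lit 16) (nat_lit 0) (.cons (.ev (nat_lit 341616807495991517815577370039435722753) (nat_lit 1)) (.cons (.ev (nat_lit 340287559217798207235341835699996328193) (nat_lit 1)) .nil))) .nil)))) (.cons (.br (nat_lit 8) (nat_lit 0) (.cons (.kr (nat_lit 20361638979814121140514591866883) (nat_lit 10384594336039674899751134419747328) (nat_lit 0) (nat_lit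 2)) (.cons (.br (nat_lit 16) (nat_lit 0) (.cons (.ev (nat_lit 341616807495991517815577651510134243328) (nat_lit 1)) (.cons (.ev (nat_lit 340287559217798207235341554229331362048) (nat_lit 1)) .nil))) (.cons (.ev (nat_lit 10405113814801831317237990328107011) (nat_lit 2)) .nil)))) .nil))))) .nil))))),
 (.br (nat_lit 14) (nat_lit 0) (.cons (.ev (nat_lit 340282367000476111005979091766096167168) (nat_lit 1)) (.cons (.ev (nat_lit 341611615278670635234401285450485465088) (nat_lit 1)) (.cons (.ev (nat_lit 523354290729360577048161645419573006041095) (nat_lit 3)) .nil)))),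
 (.br (nat_lit 7) (nat_lit 0) (.cons (.ev (nat_lit 4091363791390102889135013259046516296197) (nat_lit 4)) (.cons (.ev (nat_lit 2668860946925890659919346529013465091) (nat_lit 2)) (.cons (.br (nat_lit 8) (nat_lit 0) (.cons (.ev (nat_lit 2668860946925890659918783570436554753) (nat_lit 2)) (.cons (.rf (nat_lit 268) (nat_lit 677582165103132179601393696)) .nil))) .nil)))),
 (.br (nat_lit 8) (nat_lit 0) (.cons (.ev (nat_lit 20362257959315534399731172114947) (nat_lit 2)) (.cons (.br (nat_lit 16) (nat_lit 0) (.cons (.ev (nat_lit 340282387203658765791571275618606645248) (nat_lit 1)) (.cons (.ev (nat_lit 341611615278671839437854136834566717697) (nat_lit 1)) .nil))) (.cons (.br (nat_lit 17) (nat_lit 0) (.cons (.ev (nat_lit 87112285931839784294166504268337655054336) (nat_lit 1)) (.cons (.ev (nat_lit 87113615180117980022598379031935443861760) (nat_lit 1)) .nil))) .nil)))),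
 (.br (nat_lit 11) (nat_lit 0) (.cons (.rf (nat_lit 246) (nat_lit 19519223940054093312449)) (.cons (.ev (nat_lit 87112291124057105186192413317570695790593) (nat_lit 1)) .nil))),
 (.br (nat_lit 8) (nat_lit 0) (.cons (.ev (nat_lit 20362257959315534962689681916417) (nat_lit 2)) (.cons (.br (nat_lit 11) (nat_lit 0) (.cons (.ev (nat_lit 340287579579435973401276597240808341505) (nat_lit 1)) (.cons (.rf (nat_lit 255) (nat_lit 20001890469722837634520099)) .nil))) (.cons (.rf (nat_lit 271) (nat_lit 677582165103132179601393696)) .nil)))),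
 (.br (nat_lit 8) (nat_lit 0) (.cons (.rf (nat_lit 271) (nat_lit 640101808892556143369393187)) (.cons (.rf (nat_lit 270) (nat_lit 640101808892556143369393187)) (.cons (.br (nat_lit 11) (nat_lit 0) (.cons (.ev (nat_lit 31174460324255116507386022755042307) (nat_lit 3)) (.cons (.ev (nat_lit 341611594917032869068466525004906955008) (nat_lit 1)) .nil))) (.cons (.br (nat_lit 11) (nat_lit 0) (.cons (.ev (nat_lit 7996157523785041695469035704671405575) (nat_lit 3)) (.cons (.ev (nat_lit 1363787944038207887452941961865700967939) (nat_lit 3)) (.cons (.ev (nat_lit 348451802203395440620095042668152003626499) (nat_lit 3)) .nil)))) .nil))))),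
 (.br (nat_lit 11) (nat_lit 0) (.cons (.kr (nat_lit 2668840585905871457744968586180427777) (nat_lit 20520095314287382781445265162752) (nat_lit 0) (nat_lit 2)) (.cons (.ev (nat_lit 20362260367722441226208740901377) (nat_lit 2)) (.cons (.br (nat_lit 14) (nat_lit 0) (.cons (.ev (nat_lit 10405113814801831316675031818306051) (nat_lit 2)) (.cons (.rf (nat_lit 2) (nat_lit 19075358488697938146)) .nil))) .nil)))),
 (.br (nat_lit 8) (nat_lit 0) (.cons (.kr (nat_lit 79228167236630820463189164032) (nat_lit 5192297168019837449875565054001152) (nat_lit 9) (nat_lit 0)) (.cons (.ev (nat_lit 2658476512284106608100682913955184643) (nat_lit 2)) (.cons (.br (nat_lit 14) (nat_lit 0) (.cons (.kr (nat_lit 5192297168019837450157040030712064) (nat_lit 1329227995784915891422608728044601344) (nat_lit 1) (nat_lit 0)) (.cons (.ev (nat_lit 340287559217797003031888423565001818368) (nat_lit 1)) (.cons (.br (nat_lit 15) (nat_lit 0) (.cons (.ev (nat_lit 341611615278671839437854136834549940225) (nat_lit 1)) (.cons (.ev (nat_lit 2668860946925890659919344321366589443) (nat_lit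 2)) .nil))) .nil)))) (.cons (.br (nat_lit 14) (nat_lit 0) (.cons (.kr (nat_lit 10384594336039674900032605084712961) (nat_lit 20361638979814120859043926900736) (nat_lit 0) (nat_lit 1)) (.cons (.br (nat_lit 15) (nat_lit 0) (.cons (.ev (nat_lit 2668860946925890659919344321366589443) (nat_lit 2)) (.cons (.rf (nat_lit 2) (nat_lit 19068677825882139874)) .nil))) (.cons (.br (nat_lit 17) (nat_lit 0) (.cons (.ev (nat_lit 2668860946925890659919344321366589443) (nat_lit 2)) (.cons (.ev (nat_lit 87112285931839784294166504268337671831808) (nat_lit 1)) .nil))) .nil)))) .nil))))),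
 (.br (nat_lit 8) (nat_lit 0) (.cons (.kr (nat_lit 79228167236630820463189164032) (nat_lit 5192297168019837449875565054001152) (nat_lit 9) (nat_lit 0)) (.cons (.ev (nat_lit 2668860946925890659918781380036657153) (nat_lit 2)) (.cons (.br (nat_lit 11) (nat_lit 0) (.cons (.kr (nat_lit 5192297168019837450157040030712064) (nat_lit 1329227995784915891422608728044601344) (nat_lit 1) (nat_lit 0)) (.cons (.ev (nat_lit 340282367000476111005979374340584571137) (nat_lit 1)) (.cons (.br (nat_lit 15) (nat_lit 0) (.cons (.ev (nat_lit 341616807495992731463763749008954163200) (nat_lit 1)) (.cons (.ev (nat_lit 2658476512284106608100119972625252353) (nat_lit 2)) .nil))) .nil)))) (.cons (.br (nat_lit 11) (nat_lit 0) (.cons (.kr (nat_lit 10384594336039674900032605084712961) (nat_lit 20361638979814120859043926900736) (nat_lit 0) (nat_lit 1)) (.cons (.br (nat_lit 15) (nat_lit 0) (.cons (.ev (nat_lit 2658476512284106608100119972625252353) (nat_lit 2)) (.cons (.rf (nat_lit 203) (nat_lit 646192708113796404289)) .nil))) (.cons (.br (nat_lit 17) (nat_lit 0) (.cons (.ev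 (nat_lit 2658476512284106608100119972625252353) (nat_lit 2)) (.cons (.ev (nat_lit 87112291124057105186192413317570679013633) (nat_lit 1)) .nil))) .nil)))) .nil))))),
 (.br (nat_lit 8) (nat_lit 0) (.cons (.ev (nat_lit 2658476512284106608100682913955184643) (nat_lit 2)) (.cons (.ev (nat_lit 2668860946925890659918781380036657153) (nat_lit 2)) (.cons (.br (nat_lit 11) (nat_lit 0) (.cons (.ev (nat_lit 31174460324255116507386022755042307) (nat_lit 3)) (.cons (.ev (nat_lit 1363787944038207887452943089938827837959) (nat_lit 3)) (.cons (.br (nat_lit 14) (nat_lit 0) (.cons (.ev (nat_lit 1369125625207543750141710727319537321479) (nat_lit 3)) (.cons (.ev (nat_lit 5192377017574982400500238859108867) (nat_lit 2)) .nil))) .nil)))) (.cons (.br (nat_lit 11) (nat_lit 0) (.cons (.ev (nat_lit 5327317257267719262817539982629011459) (nat_lit 3)) (.cons (.br (nat_lit 14) (nat_lit 0) (.cons (.ev (nat_lit 341611615278670635234401286545718968320) (nat_lit 1)) (.cons (.br (nat_lit 16) (nat_lit 0) (.cons (.ev (nat_lit 1363819097977196423093401923724259885569) (nat_lit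 3)) .nil)) .nil))) (.cons (.br (nat_lit 14) (nat_lit 0) (.cons (.br (nat_lit 16) (nat_lit 0) (.cons (.ev (nat_lit 1369136010277248755457465227129968133637) (nat_lit 3)) .nil)) (.cons (.ev (nat_lit 87113615159756342256432444550770130419713) (nat_lit 1)) .nil))) .nil)))) .nil))))),
 (.br (nat_lit 14) (nat_lit 0) (.cons (.ev (nat_lit 340287559217798207235341555324531310848) (nat_lit 1)) (.cons (.ev (nat_lit 680569946422077147250008653935333736960) (nat_lit 2)) .nil))),
 (.br (nat_lit 11) (nat_lit 0) (.cons (.ev (nat_lit 1339612827190109348702658426499498241) (nat_lit 2)) (.cons (.ev (nat_lit 681893961917512602166575300757485125889) (nat_lit 2)) (.cons (.ev (nat_lit 20362260367722440663250231099907) (nat_lit 2)) .nil)))),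
 (.br (nat_lit 8) (nat_lit 0) (.cons (.rf (nat_lit 276) (nat_lit 19922863430251376745124899)) (.cons (.rf (nat_lit 275) (nat_lit 19922863430251376745124899)) (.cons (.rf (nat_lit 277) (nat_lit 19922863430251376745124899)) (.cons (.br (nat_lit 11) (nat_lit 0) (.cons (.ev (nat_lit 1361139872640974095344998186562800059399) (nat_lit 3)) (.cons (.ev (nat_lit 340282367000477324654165471839404491009) (nat_lit 1)) (.cons (.rf (nat_lit 278) (nat_lit 677582165103132179601393696)) .nil)))) (.cons (.br (nat_lit 17) (nat_lit 0) (.cons (.ev (nat_lit 20362260367722440663250231099907) (nat_lit 2)) (.cons (.ev (nat_lit 10405113814801831317237990328107521) (nat_lit 2)) (.cons (.rf (nat_lit 279) (nat_lit 677582165103132179601393696)) (.cons (.br (nat_lit 17) (nat_lit 0) (.cons (.ev (nat_lit 20362260367722440663250231099907) (nat_lit 2)) (.cons (.ev (nat_lit 10405113814801831317237990328107521) (nat_lit 2)) (.cons (.rf (nat_lit 279) (nat_lit 677582165103132179601393696)) .nil)))) .nil))))) .nil)))))),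
 (.br (nat_lit 16) (nat_lit 0) (.cons (.ev (nat_lit 20362260367722440663250231099907) (nat_lit 2)) (.cons (.ev (nat_lit 10405113814801831317237990328107521) (nat_lit 2)) (.cons (.br (nat_lit 11) (nat_lit 0) (.cons (.ev (nat_lit 681893961917510193759669037238426140929) (nat_lit 2)) .nil)) .nil)))),
 (.br (nat_lit 11) (nat_lit 0) (.cons (.ev (nat_lit 1339612827190109348702658426516275970) (nat_lit 2)) (.cons (.ev (nat_lit 20362260367722440663250197545473) (nat_lit 2)) (.cons (.br (nat_lit 14) (nat_lit 0) (.cons (.ev (nat_lit 10405113814801831317237990361661955) (nat_lit 2)) (.cons (.rf (nat_lit 2) (nat_lit 19075358488698003618)) .nil))) .nil)))),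
 (.br (nat_lit 8) (nat_lit 0) (.cons (.ev (nat_lit 5192377017574982400500238808777473) (nat_lit 2)) (.cons (.ev (nat_lit 20362260367722440663250197545473) (nat_lit 2)) (.cons (.br (nat_lit 15) (nat_lit 0) (.cons (.ev (nat_lit 2658476512284106608100119972591698433) (nat_lit 2)) (.cons (.rf (nat_lit 2) (nat_lit 19068677825882205346)) .nil))) .nil))))]

theorem c13 : chkAll C T R L13 (nat_lit 261) = true := by decide +kernel

theorem l13 : (nat_lit 261) + L13.length = (nat_lit 284) := by decide +kernel

/-- part of the certificates -/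
def L14 : List Prf := [(.br (nat_lit 8) (nat_lit 0) (.cons (.ev (nat_lit 5192377017574982400500238842331393) (nat_lit 2)) (.cons (.ev (nat_lit 20362260367722440663250231099393) (nat_lit 2)) (.cons (.br (nat_lit 15) (nat_lit 0) (.cons (.ev (nat_lit 2658476512284106608100119972625252353) (nat_lit 2)) (.cons (.rf (nat_lit 203) (nat_lit 646192708113796340801)) .nil))) .nil)))),
 (.br (nat_lit 11) (nat_lit 0) (.cons (.ev (nat_lit 1339612827190109348702658426482721026) (nat_lit 2)) (.cons (.ev (nat_lit 20362260367722440663250231099393) (nat_lit 2)) (.cons (.br (nat_lit 14) (nat_lit 0) (.cons (.ev (nat_lit 10405113814801831317237990328107011) (nat_lit 2)) (.cons (.rf (nat_lit 80) (nat_lit 21157493297952845367491853)) .nil))) .nil)))),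
 (.br (nat_lit 11) (nat_lit 0) (.cons (.ev (nat_lit 1339612827190109348702658426499497986) (nat_lit 2)) (.cons (.ev (nat_lit 681893961917512602166575300757485126144) (nat_lit 2)) (.cons (.ev (nat_lit 20362260367722440663250231099393) (nat_lit 2)) .nil)))),
 (.br (nat_lit 5) (nat_lit 0) (.cons (.br (nat_lit 16) (nat_lit 0) (.cons (.ev (nat_lit 20362260367722440663250197545473) (nat_lit 2)) (.cons (.ev (nat_lit 10405113814801831317237990361661955) (nat_lit 2)) (.cons (.rf (nat_lit 282) (nat_lit 19926519232773908561233952)) (.cons (.br (nat_lit 16) (nat_lit 0) (.cons (.ev (nat_lit 20362260367722440663250197545473) (nat_lit 2)) (.cons (.ev (nat_lit 10405113814801831317237990361661955) (nat_lit 2)) (.cons (.rf (nat_lit 282) (nat_lit 19926519232773908561233952)) .nil)))) .nil))))) (.cons (.br (nat_lit 16) (nat_lit 0) (.cons (.ev (nat_lit 20362260367722440663250197545473) (nat_lit 2)) (.cons (.rf (nat_lit 283) (nat_lit 19926519232773908561233952)) (.cons (.ev (nat_lit 2658476512284106608100119972591698433) (nat_lit 2)) (.cons (.br (nat_lit 16) (nat_lit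 0) (.cons (.ev (nat_lit 20362260367722440663250197545473) (nat_lit 2)) (.cons (.rf (nat_lit 283) (nat_lit 19926519232773908561233952)) (.cons (.ev (nat_lit 2658476512284106608100119972591698433) (nat_lit 2)) .nil)))) .nil))))) (.cons (.br (nat_lit 16) (nat_lit 0) (.cons (.ev (nat_lit 10405113814801831317237990361661955) (nat_lit 2)) (.cons (.rf (nat_lit 284) (nat_lit 19926519232773908561233952)) (.cons (.ev (nat_lit 2668860946925890659919344321400144387) (nat_lit 2)) (.cons (.br (nat_lit 16) (nat_lit 0) (.cons (.ev (nat_lit 10405113814801831317237990361661955) (nat_lit 2)) (.cons (.rf (nat_lit 284) (nat_lit 19926519232773908561233952)) (.cons (.ev (nat_lit 2668860946925890659919344321400144387) (nat_lit 2)) .nil)))) .nil))))) (.cons (.br (nat_lit 16) (nat_lit 0) (.cons (.rf (nat_lit 285) (nat_lit 19926519232773908561233952)) (.cons (.ev (nat_lit 2658476512284106608100119972591698433) (nat_lit 2)) (.cons (.ev (nat_lit 2668860946925890659919344321400144387) (nat_lit 2)) (.cons (.br (nat_lit 16) (nat_lit 0) (.cons (.rf (nat_lit 285) (nat_lit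 19926519232773908561233952)) (.cons (.ev (nat_lit 2658476512284106608100119972591698433) (nat_lit 2)) (.cons (.ev (nat_lit 2668860946925890659919344321400144387) (nat_lit 2)) .nil)))) .nil))))) (.cons (.br (nat_lit 8) (nat_lit 0) (.cons (.br (nat_lit 14) (nat_lit 0) (.cons (.kr (nat_lit 20361638979814121140514591866881) (nat_lit 1334420292952935728872484293098602496) (nat_lit 0) (nat_lit 1)) (.cons (.ev (nat_lit 340287559217797003031888705044290273537) (nat_lit 1)) (.cons (.br (nat_lit 15) (nat_lit 0) (.cons (.ev (nat_lit 341611615278671839437854136834549940480) (nat_lit 1)) (.cons (.ev (nat_lit 2668860946925890659919344321366589443) (nat_lit 2)) .nil))) .nil)))) (.cons (.br (nat_lit 11) (nat_lit 0) (.cons (.kr (nat_lit 20361638979814121140514591866881) (nat_lit 1334420292952935728872484293098602496) (nat_lit 0) (nat_lit 1)) (.cons (.ev (nat_lit 340282367000476111005979092861296115968) (nat_lit 1)) (.cons (.br (nat_lit 15) (nat_lit 0) (.cons (.ev (nat_lit 341616807495992731463763749008954163457) (nat_lit 1)) (.cons (.ev (nat_lit 2658476512284106608100119972625252353)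 (nat_lit 2)) .nil))) .nil)))) (.cons (.br (nat_lit 11) (nat_lit 0) (.cons (.ev (nat_lit 31174460324255116507386022755041287) (nat_lit 3)) (.cons (.ev (nat_lit 1363787944038207887452943652914517509127) (nat_lit 3)) (.cons (.br (nat_lit 14) (nat_lit 0) (.cons (.ev (nat_lit 1369125625207543750141712416177886856199) (nat_lit 3)) (.cons (.ev (nat_lit 5192377017574982400500238859108353) (nat_lit 2)) .nil))) .nil)))) (.cons (.br (nat_lit 11) (nat_lit 0) (.cons (.ev (nat_lit 1361139872640974095344998186562800059399) (nat_lit 3)) (.cons (.ev (nat_lit 340282367000477324654165471839404491009) (nat_lit 1)) (.cons (.br (nat_lit 14) (nat_lit 0) (.cons (.ev (nat_lit 340287579579434769197823466585085509889) (nat_lit 1)) (.cons (.ev (nat_lit 680569987145350271174972476456442135042) (nat_lit 2)) .nil))) .nil)))) (.cons (.br (nat_lit 17) (nat_lit 0) (.cons (.ev (nat_lit 20362260367722440663250231099393) (nat_lit 2)) (.cons (.ev (nat_lit 10405113814801831317237990328107011) (nat_lit 2)) (.cons (.rf (nat_lit 286) (nat_lit 677582165103132179601393696)) (.cons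 (.br (nat_lit 17) (nat_lit 0) (.cons (.ev (nat_lit 20362260367722440663250231099393) (nat_lit 2)) (.cons (.ev (nat_lit 10405113814801831317237990328107011) (nat_lit 2)) (.cons (.rf (nat_lit 286) (nat_lit 677582165103132179601393696)) .nil)))) .nil))))) .nil)))))) (.cons (.br (nat_lit 8) (nat_lit 0) (.cons (.br (nat_lit 14) (nat_lit 0) (.cons (.kr (nat_lit 20361638979814121140514591866881) (nat_lit 1334420292952935728872484293098602496) (nat_lit 0) (nat_lit 1)) (.cons (.br (nat_lit 16) (nat_lit 0) (.cons (.ev (nat_lit 2668860946925890659919344321366589443) (nat_lit 2)) (.cons (.ev (nat_lit 340287559217797003031888705044273496065) (nat_lit 1)) .nil))) (.cons (.br (nat_lit 17) (nat_lit 0) (.cons (.ev (nat_lit 2668860946925890659919344321366589443) (nat_lit 2)) (.cons (.ev (nat_lit 87112291124057105186192413599041360756993) (nat_lit 1)) .nil))) .nil)))) (.cons (.br (nat_lit 11) (nat_lit 0) (.cons (.kr (nat_lit 20361638979814121140514591866881) (nat_lit 1334420292952935728872484293098602496) (nat_lit 0) (nat_lit 1)) (.cons (.br (nat_lit 16) (nat_lit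 0) (.cons (.ev (nat_lit 2658476512284106608100119972625252353) (nat_lit 2)) (.cons (.ev (nat_lit 340282367000476111005979092861312892928) (nat_lit 1)) .nil))) (.cons (.br (nat_lit 17) (nat_lit 0) (.cons (.ev (nat_lit 2658476512284106608100119972625252353) (nat_lit 2)) (.cons (.ev (nat_lit 87112285931839784294166503986866990088448) (nat_lit 1)) .nil))) .nil)))) (.cons (.br (nat_lit 11) (nat_lit 0) (.cons (.ev (nat_lit 31174460324255116507386022755041287) (nat_lit 3)) (.cons (.br (nat_lit 16) (nat_lit 0) (.cons (.ev (nat_lit 5192377017574982400500238859108353) (nat_lit 2)) (.cons (.ev (nat_lit 1363787944038207887452943652914584616967) (nat_lit 3)) .nil))) (.cons (.br (nat_lit 17) (nat_lit 0) (.cons (.ev (nat_lit 5192377017574982400500238859108353) (nat_lit 2)) (.cons (.ev (nat_lit 348451802203395440620095043228902933660679) (nat_lit 3)) .nil))) .nil)))) (.cons (.br (nat_lit 16) (nat_lit 0) (.cons (.ev (nat_lit 20362260367722440663250231099393) (nat_lit 2)) (.cons (.ev (nat_lit 10405113814801831317237990328107011) (nat_lit 2)) (.cons (.br (nat_lit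 11) (nat_lit 0) (.cons (.ev (nat_lit 1339612827190109348702658426499497986) (nat_lit 2)) (.cons (.ev (nat_lit 341611615278671839437854136834566717440) (nat_lit 1)) .nil))) (.cons (.br (nat_lit 11) (nat_lit 0) (.cons (.ev (nat_lit 1361139872640974095344998186562867167239) (nat_lit 3)) (.cons (.ev (nat_lit 340282367000477324654165471839387713537) (nat_lit 1)) (.cons (.br (nat_lit 14) (nat_lit 0) (.cons (.ev (nat_lit 340287559217798207235341555324548087808) (nat_lit 1)) .nil)) .nil)))) .nil))))) (.cons (.br (nat_lit 17) (nat_lit 0) (.cons (.ev (nat_lit 20362260367722440663250231099393) (nat_lit 2)) (.cons (.ev (nat_lit 10405113814801831317237990328107011) (nat_lit 2)) (.cons (.br (nat_lit 11) (nat_lit 0) (.cons (.ev (nat_lit 1339612827190109348702658426499497986) (nat_lit 2)) (.cons (.ev (nat_lit 87113615180117980022598379030831653978368) (nat_lit 1)) .nil))) (.cons (.br (nat_lit 11) (nat_lit 0) (.cons (.ev (nat_lit 348449154131998206827987097762585575949319) (nat_lit 3)) (.cons (.ev (nat_lit 87112285931839785507814690365836474974465) (nat_lit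 1)) (.cons (.br (nat_lit 14) (nat_lit 0) (.cons (.ev (nat_lit 341611594917034073271919375293771481088) (nat_lit 1)) .nil)) .nil)))) .nil))))) .nil)))))) .nil))))))),
 (.br (nat_lit 11) (nat_lit 0) (.cons (.ev (nat_lit 1339612827190109348702658426516275970) (nat_lit 2)) (.cons (.ev (nat_lit 20362260367722440663250197545473) (nat_lit 2)) (.cons (.br (nat_lit 14) (nat_lit 0) (.cons (.ev (nat_lit 10405113814801831317237990361661955) (nat_lit 2)) (.cons (.rf (nat_lit 2) (nat_lit 19075358488698035362)) .nil))) .nil)))),
 (.br (nat_lit 7) (nat_lit 0) (.cons (.ev (nat_lit 5192377017574982400500238808777473) (nat_lit 2)) (.cons (.ev (nat_lit 20362260367722440663250197545473) (nat_lit 2)) (.cons (.br (nat_lit 15) (nat_lit 0) (.cons (.ev (nat_lit 2658476512284106608100119972591698433) (nat_lit 2)) (.cons (.rf (nat_lit 203) (nat_lit 646189221668824719425)) .nil))) .nil)))),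
 (.br (nat_lit 7) (nat_lit 0) (.cons (.ev (nat_lit 5192377017574982400500238842331393) (nat_lit 2)) (.cons (.ev (nat_lit 20362260367722440663250231099393) (nat_lit 2)) (.cons (.br (nat_lit 15) (nat_lit 0) (.cons (.ev (nat_lit 2658476512284106608100119972625252353) (nat_lit 2)) (.cons (.rf (nat_lit 2) (nat_lit 19067442971345696930)) .nil))) .nil)))),
 (.br (nat_lit 11) (nat_lit 0) (.cons (.ev (nat_lit 1339612827190109348702658426482721026) (nat_lit 2)) (.cons (.ev (nat_lit 20362260367722440663250231099393) (nat_lit 2)) (.cons (.br (nat_lit 14) (nat_lit 0) (.cons (.ev (nat_lit 10405113814801831317237990328107011) (nat_lit 2)) (.cons (.rf (nat_lit 84) (nat_lit 21157385971476159928777962)) .nil))) .nil)))),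
 (.br (nat_lit 11) (nat_lit 0) (.cons (.ev (nat_lit 1339612827190109348702658426499497986) (nat_lit 2)) (.cons (.ev (nat_lit 681893961917512602166575863698882167298) (nat_lit 2)) (.cons (.ev (nat_lit 20362260367722440663250231099393) (nat_lit 2)) .nil)))),
 (.br (nat_lit 13) (nat_lit 0) (.cons (.ev (nat_lit 1334420292954144636173579828997455873) (nat_lit 1)) .nil)),
 (.br (nat_lit 5) (nat_lit 0) (.cons (.br (nat_lit 16) (nat_lit 0) (.cons (.ev (nat_lit 20362260367722440663250197545473) (nat_lit 2)) (.cons (.ev (nat_lit 10405113814801831317237990361661955) (nat_lit 2)) (.cons (.rf (nat_lit 288) (nat_lit 19926519232773908561233952)) (.cons (.br (nat_lit 16) (nat_lit 0) (.cons (.ev (nat_lit 20362260367722440663250197545473) (nat_lit 2)) (.cons (.ev (nat_lit 10405113814801831317237990361661955) (nat_lit 2)) (.cons (.rf (nat_lit 288) (nat_lit 19926519232773908561233952)) .nil)))) .nil))))) (.cons (.br (nat_lit 16) (nat_lit 0) (.cons (.ev (nat_lit 20362260367722440663250197545473) (nat_lit 2)) (.cons (.rf (nat_lit 289) (nat_lit 19926519232773908561233952))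 (.cons (.ev (nat_lit 2658476512284106608100119972591698433) (nat_lit 2)) (.cons (.br (nat_lit 16) (nat_lit 0) (.cons (.ev (nat_lit 20362260367722440663250197545473) (nat_lit 2)) (.cons (.rf (nat_lit 289) (nat_lit 19926519232773908561233952)) (.cons (.ev (nat_lit 2658476512284106608100119972591698433) (nat_lit 2)) .nil)))) .nil))))) (.cons (.br (nat_lit 16) (nat_lit 0) (.cons (.ev (nat_lit 10405113814801831317237990361661955) (nat_lit 2)) (.cons (.rf (nat_lit 290) (nat_lit 19926519232773908561233952)) (.cons (.ev (nat_lit 2668860946925890659919344321400144387) (nat_lit 2)) (.cons (.br (nat_lit 16) (nat_lit 0) (.cons (.ev (nat_lit 10405113814801831317237990361661955) (nat_lit 2)) (.cons (.rf (nat_lit 290) (nat_lit 19926519232773908561233952)) (.cons (.ev (nat_lit 2668860946925890659919344321400144387) (nat_lit 2)) .nil)))) .nil))))) (.cons (.br (nat_lit 16) (nat_lit 0) (.cons (.rf (nat_lit 291) (nat_lit 19926519232773908561233952)) (.cons (.ev (nat_lit 2658476512284106608100119972591698433) (nat_lit 2)) (.cons (.ev (nat_lit 2668860946925890659919344321400144387)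 (nat_lit 2)) (.cons (.br (nat_lit 16) (nat_lit 0) (.cons (.rf (nat_lit 291) (nat_lit 19926519232773908561233952)) (.cons (.ev (nat_lit 2658476512284106608100119972591698433) (nat_lit 2)) (.cons (.ev (nat_lit 2668860946925890659919344321400144387) (nat_lit 2)) .nil)))) .nil))))) (.cons (.br (nat_lit 7) (nat_lit 0) (.cons (.br (nat_lit 14) (nat_lit 0) (.cons (.kr (nat_lit 5192297168019837450157040030711809) (nat_lit 1329227995784915891422608728044601344) (nat_lit 0) (nat_lit 1)) (.cons (.ev (nat_lit 340287559217797003031888423565001818368) (nat_lit 1)) (.cons (.br (nat_lit 15) (nat_lit 0) (.cons (.ev (nat_lit 341611615278671839437854136834549940480) (nat_lit 1)) (.cons (.ev (nat_lit 2668860946925890659919344321366589443) (nat_lit 2)) .nil))) .nil)))) (.cons (.br (nat_lit 11) (nat_lit 0) (.cons (.kr (nat_lit 5192297168019837450157040030711809) (nat_lit 1329227995784915891422608728044601344) (nat_lit 0) (nat_lit 1)) (.cons (.ev (nat_lit 340282367000476111005979374340584571137) (nat_lit 1)) (.cons (.br (nat_lit 15) (nat_lit 0) (.cons (.ev (nat_lit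 341616807495992731463763749008954163457) (nat_lit 1)) (.cons (.ev (nat_lit 2658476512284106608100119972625252353) (nat_lit 2)) .nil))) .nil)))) (.cons (.br (nat_lit 11) (nat_lit 0) (.cons (.ev (nat_lit 31174460324255116507386022755041287) (nat_lit 3)) (.cons (.ev (nat_lit 1363787944038207887452943089938827838469) (nat_lit 3)) (.cons (.br (nat_lit 14) (nat_lit 0) (.cons (.ev (nat_lit 1369125625207543750141710727319537320961) (nat_lit 3)) (.cons (.ev (nat_lit 5192377017574982400500238859108353) (nat_lit 2)) .nil))) .nil)))) (.cons (.br (nat_lit 11) (nat_lit 0) (.cons (.ev (nat_lit 1361139872640974095344998186562800059399) (nat_lit 3)) (.cons (.ev (nat_lit 340282367000477324654165471839404491009) (nat_lit 1)) (.cons (.br (nat_lit 14) (nat_lit 0) (.cons (.ev (nat_lit 340287579579434769197823466585085509889) (nat_lit 1)) (.cons (.ev (nat_lit 680569987145350271174972476456442135042) (nat_lit 2)) .nil))) .nil)))) (.cons (.br (nat_lit 17) (nat_lit 0) (.cons (.ev (nat_lit 20362260367722440663250231099393) (nat_lit 2)) (.cons (.ev (nat_lit 10405113814801831317237990328107011)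 (nat_lit 2)) (.cons (.rf (nat_lit 292) (nat_lit 677582165103132179601393696)) (.cons (.br (nat_lit 17) (nat_lit 0) (.cons (.ev (nat_lit 20362260367722440663250231099393) (nat_lit 2)) (.cons (.ev (nat_lit 10405113814801831317237990328107011) (nat_lit 2)) (.cons (.rf (nat_lit 292) (nat_lit 677582165103132179601393696)) .nil)))) .nil))))) .nil)))))) (.cons (.br (nat_lit 7) (nat_lit 0) (.cons (.br (nat_lit 14) (nat_lit 0) (.cons (.kr (nat_lit 5192297168019837450157040030711809) (nat_lit 1329227995784915891422608728044601344) (nat_lit 0) (nat_lit 1)) (.cons (.br (nat_lit 16) (nat_lit 0) (.cons (.ev (nat_lit 2668860946925890659919344321366589443) (nat_lit 2)) (.cons (.ev (nat_lit 340287559217797003031888423565018595328) (nat_lit 1)) .nil))) (.cons (.br (nat_lit 17) (nat_lit 0) (.cons (.ev (nat_lit 2668860946925890659919344321366589443) (nat_lit 2)) (.cons (.ev (nat_lit 87112291124057105186192413599041360756993) (nat_lit 1)) .nil))) .nil)))) (.cons (.br (nat_lit 11) (nat_lit 0) (.cons (.kr (nat_lit 5192297168019837450157040030711809) (nat_lit 1329227995784915891422608728044601344)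 (nat_lit 0) (nat_lit 1)) (.cons (.br (nat_lit 16) (nat_lit 0) (.cons (.ev (nat_lit 2658476512284106608100119972625252353) (nat_lit 2)) (.cons (.ev (nat_lit 340282367000476111005979374340567793665) (nat_lit 1)) .nil))) (.cons (.br (nat_lit 17) (nat_lit 0) (.cons (.ev (nat_lit 2658476512284106608100119972625252353) (nat_lit 2)) (.cons (.ev (nat_lit 87112285931839784294166503986866990088448) (nat_lit 1)) .nil))) .nil)))) (.cons (.br (nat_lit 11) (nat_lit 0) (.cons (.ev (nat_lit 31174460324255116507386022755041287) (nat_lit 3)) (.cons (.br (nat_lit 16) (nat_lit 0) (.cons (.ev (nat_lit 5192377017574982400500238859108353) (nat_lit 2)) (.cons (.ev (nat_lit 1363787944038207887452943089938894946309) (nat_lit 3)) .nil))) (.cons (.br (nat_lit 17) (nat_lit 0) (.cons (.ev (nat_lit 5192377017574982400500238859108353) (nat_lit 2)) (.cons (.ev (nat_lit 348451802203395440620095041540044449907713) (nat_lit 3)) .nil))) .nil)))) (.cons (.br (nat_lit 16) (nat_lit 0) (.cons (.ev (nat_lit 20362260367722440663250231099393) (nat_lit 2)) (.cons (.ev (nat_lit 10405113814801831317237990328107011)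 (nat_lit 2)) (.cons (.br (nat_lit 11) (nat_lit 0) (.cons (.ev (nat_lit 1339612827190109348702658426499497986) (nat_lit 2)) (.cons (.ev (nat_lit 341611615278671839437854136834566717440) (nat_lit 1)) .nil))) (.cons (.br (nat_lit 11) (nat_lit 0) (.cons (.ev (nat_lit 1361139872640974095344998186562867167239) (nat_lit 3)) (.cons (.ev (nat_lit 340282367000477324654165471839387713537) (nat_lit 1)) (.cons (.br (nat_lit 14) (nat_lit 0) (.cons (.ev (nat_lit 340287559217798207235341555324548087808) (nat_lit 1)) .nil)) .nil)))) .nil))))) (.cons (.br (nat_lit 17) (nat_lit 0) (.cons (.ev (nat_lit 20362260367722440663250231099393) (nat_lit 2)) (.cons (.ev (nat_lit 10405113814801831317237990328107011) (nat_lit 2)) (.cons (.br (nat_lit 11) (nat_lit 0) (.cons (.ev (nat_lit 1339612827190109348702658426499497986) (nat_lit 2)) (.cons (.ev (nat_lit 87113615180117980022598379312310908879105) (nat_lit 1)) .nil))) (.cons (.br (nat_lit 11) (nat_lit 0) (.cons (.ev (nat_lit 348449154131998206827987096636668422128643) (nat_lit 3)) (.cons (.ev (nat_lit 87112285931839785507814690084365810008320)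 (nat_lit 1)) (.cons (.rf (nat_lit 293) (nat_lit 21174442622281864334903328)) .nil)))) .nil))))) .nil)))))) .nil))))))),
 (.br (nat_lit 13) (nat_lit 0) (.cons (.ev (nat_lit 5192297168019855896902217546858496) (nat_lit 1)) .nil)),
 (.br (nat_lit 5) (nat_lit 0) (.cons (.rf (nat_lit 294) (nat_lit 19922863430251376745124899)) (.cons (.rf (nat_lit 287) (nat_lit 19922863430251376745124899)) (.cons (.br (nat_lit 15) (nat_lit 0) (.cons (.ev (nat_lit 2663709136589268780103261291682988033) (nat_lit 2)) (.cons (.ev (nat_lit 2663709136589268780103824250192789507) (nat_lit 2)) (.cons (.ev (nat_lit 2658476512284106608100119972625252867) (nat_lit 2)) (.cons (.br (nat_lit 7) (nat_lit 0) (.cons (.ev (nat_lit 20362260367722441226208740900867) (nat_lit 2)) (.cons (.br (nat_lit 8) (nat_lit 0) (.cons (.ev (nat_lit 20362260367722440663250231099393) (nat_lit 2)) (.cons (.rf (nat_lit 258) (nat_lit 20662922037439713751077)) .nil))) (.cons (.br (nat_lit 8) (nat_lit 0) (.cons (.rf (nat_lit 258) (nat_lit 20666420105030645818402)) (.cons (.ev (nat_lit 20362260367722440663250231099393)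 (nat_lit 2)) .nil))) .nil)))) .nil))))) (.cons (.ev (nat_lit 2658476512284106608100119972591697923) (nat_lit 2)) (.cons (.br (nat_lit 7) (nat_lit 0) (.cons (.ev (nat_lit 20362260367722441226208740900867) (nat_lit 2)) (.cons (.br (nat_lit 8) (nat_lit 0) (.cons (.ev (nat_lit 2668860946925890659918781380036657153) (nat_lit 2)) (.cons (.ev (nat_lit 340282367000476111005979374340584571137) (nat_lit 1)) (.cons (.br (nat_lit 16) (nat_lit 0) (.cons (.ev (nat_lit 2658476512284106608100119972625252867) (nat_lit 2)) (.cons (.ev (nat_lit 340287559217797003031888705044290273280) (nat_lit 1)) .nil))) .nil)))) (.cons (.br (nat_lit 8) (nat_lit 0) (.cons (.ev (nat_lit 2668860946925890659918781380036657153) (nat_lit 2)) (.cons (.ev (nat_lit 1363787944038207887452943089938827837959) (nat_lit 3)) (.cons (.br (nat_lit 14) (nat_lit 0) (.cons (.ev (nat_lit 341611615278670635234401286545718968320) (nat_lit 1)) (.cons (.br (nat_lit 16) (nat_lit 0) (.cons (.ev (nat_lit 1363819097977196423093401923724259885059) (nat_lit 3)) .nil)) .nil))) .nil)))) (.cons (.br (nat_lit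 8) (nat_lit 0) (.cons (.ev (nat_lit 340282367000476111005979092861296115968) (nat_lit 1)) (.cons (.ev (nat_lit 1363787944038207887452943652914517508609) (nat_lit 3)) (.cons (.br (nat_lit 14) (nat_lit 0) (.cons (.ev (nat_lit 341611615278670635234401286545718968320) (nat_lit 1)) (.cons (.ev (nat_lit 10405113814801831317237990328107521) (nat_lit 2)) .nil))) .nil)))) (.cons (.br (nat_lit 8) (nat_lit 0) (.cons (.br (nat_lit 16) (nat_lit 0) (.cons (.ev (nat_lit 2658476512284106608100119972625252867) (nat_lit 2)) (.cons (.ev (nat_lit 340287559217797003031888423565001818113) (nat_lit 1)) .nil))) (.cons (.br (nat_lit 14) (nat_lit 0) (.cons (.ev (nat_lit 341611615278670635234401005075020447745) (nat_lit 1)) (.cons (.br (nat_lit 16) (nat_lit 0) (.cons (.ev (nat_lit 1363819097977196423093401360748570214401) (nat_lit 3)) .nil)) .nil))) (.cons (.br (nat_lit 14) (nat_lit 0) (.cons (.ev (nat_lit 341611615278670635234401005075020447745) (nat_lit 1)) (.cons (.ev (nat_lit 10405113814801831317237990328107521) (nat_lit 2)) .nil))) (.cons (.ev (nat_lit 20362260367722440663250231099393)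 (nat_lit 2)) .nil))))) .nil)))))) (.cons (.br (nat_lit 7) (nat_lit 0) (.cons (.ev (nat_lit 20362260367722441226208740900867) (nat_lit 2)) (.cons (.br (nat_lit 15) (nat_lit 0) (.cons (.ev (nat_lit 2668860946925890659918781380036657153) (nat_lit 2)) (.cons (.ev (nat_lit 2658476512284106608100119972625252867) (nat_lit 2)) (.cons (.br (nat_lit 17) (nat_lit 0) (.cons (.ev (nat_lit 87113615180117980022598379030831653978113) (nat_lit 1)) (.cons (.ev (nat_lit 87113620372335300914624288361535359680768) (nat_lit 1)) .nil))) .nil)))) (.cons (.br (nat_lit 14) (nat_lit 0) (.cons (.ev (nat_lit 2668860946925890659918781380036657153) (nat_lit 2)) (.cons (.ev (nat_lit 2663709136589268780103261291632657153) (nat_lit 2)) (.cons (.br (nat_lit 8) (nat_lit 0) (.cons (.br (nat_lit 16) (nat_lit 0) (.cons (.ev (nat_lit 1363787944038207887452943089938894947847) (nat_lit 3)) .nil)) (.cons (.ev (nat_lit 348457129500131372619881812779589569609731) (nat_lit 3)) .nil))) .nil)))) (.cons (.br (nat_lit 16) (nat_lit 0) (.cons (.ev (nat_lit 20362260367722440663250231099393)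 (nat_lit 2)) (.cons (.br (nat_lit 8) (nat_lit 0) (.cons (.ev (nat_lit 5192377017574982400500238859108608) (nat_lit 2)) (.cons (.ev (nat_lit 340282367000476111005979092861312892928) (nat_lit 1)) .nil))) (.cons (.ev (nat_lit 2658476512284106608100119972625252867) (nat_lit 2)) (.cons (.br (nat_lit 8) (nat_lit 0) (.cons (.ev (nat_lit 340282367000476111005979092861312892928) (nat_lit 1)) (.cons (.ev (nat_lit 1363787944038207887452943652914584618497) (nat_lit 3)) (.cons (.br (nat_lit 14) (nat_lit 0) (.cons (.ev (nat_lit 341611594917034073271919375293771481345) (nat_lit 1)) .nil)) .nil)))) .nil))))) (.cons (.br (nat_lit 15) (nat_lit 0) (.cons (.br (nat_lit 14) (nat_lit 0) (.cons (.ev (nat_lit 2663709136589268780103824250209567491) (nat_lit 2)) (.cons (.ev (nat_lit 348457129500131372619881812216613879939073) (nat_lit 3)) .nil))) (.cons (.br (nat_lit 8) (nat_lit 0) (.cons (.rf (nat_lit 295) (nat_lit 20678165497422226296897)) (.cons (.ev (nat_lit 20362260367722440663250231099393) (nat_lit 2)) .nil))) (.cons (.ev (nat_lit 2658476512284106608100119972625252867)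 (nat_lit 2)) (.cons (.ev (nat_lit 87113615180117980022598379312310908878848) (nat_lit 1)) .nil))))) .nil)))))) .nil)))))))]

theorem c14 : chkAll C T R L14 (nat_lit 284) = true := by decide +kernel

theorem l14 : (nat_lit 284) + L14.length = (nat_lit 297) := by decide +kernel

/-- part of the certificates -/
def L15 : List Prf := [(.br (nat_lit 9) (nat_lit 0) (.cons (.ev (nat_lit 1329227995786129539608988805631049728) (nat_lit 1)) .nil)),
 (.br (nat_lit 15) (nat_lit 0) (.cons (.ev (nat_lit 1334440654281216866467381671893205248) (nat_lit 1)) .nil)),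
 (.br (nat_lit 5) (nat_lit 0) (.cons (.rf (nat_lit 294) (nat_lit 19922863430251376745124899)) (.cons (.rf (nat_lit 287) (nat_lit 19922863430251376745124899)) (.cons (.br (nat_lit 15) (nat_lit 0) (.cons (.ev (nat_lit 2663709136589268780103261291649433603) (nat_lit 2)) (.cons (.ev (nat_lit 2663709136589268780103824250226343937) (nat_lit 2)) (.cons (.ev (nat_lit 2658476512284106608100119972591698433) (nat_lit 2)) (.cons (.br (nat_lit 7) (nat_lit 0) (.cons (.ev (nat_lit 20362260367722441226208774455297) (nat_lit 2)) (.cons (.br (nat_lit 8) (nat_lit 0) (.cons (.ev (nat_lit 20362260367722440663250197544963) (nat_lit 2)) (.cons (.rf (nat_lit 246) (nat_lit 20678165497422226165829)) .nil))) (.cons (.br (nat_lit 8) (nat_lit 0) (.cons (.rf (nat_lit 246) (nat_lit 20678054142285136828578)) (.cons (.ev (nat_lit 20362260367722440663250197544963) (nat_lit 2)) .nil))) .nil)))) .nil))))) (.cons (.ev (nat_lit 2668860946925890659919344321400143873) (nat_lit 2)) (.cons (.br (nat_lit 7) (nat_lit 0) (.cons (.ev (nat_lit 10405113814801831316675031818305537) (nat_lit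 2)) (.cons (.br (nat_lit 8) (nat_lit 0) (.cons (.ev (nat_lit 2658476512284106608100682913955184643) (nat_lit 2)) (.cons (.ev (nat_lit 340287559217797003031888423565001818368) (nat_lit 1)) (.cons (.br (nat_lit 16) (nat_lit 0) (.cons (.ev (nat_lit 2668860946925890659919344321366589953) (nat_lit 2)) (.cons (.ev (nat_lit 340282367000476111005979092861296115713) (nat_lit 1)) .nil))) .nil)))) (.cons (.br (nat_lit 8) (nat_lit 0) (.cons (.ev (nat_lit 2658476512284106608100682913955184643) (nat_lit 2)) (.cons (.ev (nat_lit 1369125625207543750141710727319537321479) (nat_lit 3)) (.cons (.br (nat_lit 11) (nat_lit 0) (.cons (.ev (nat_lit 341611615278670635234401286545718968577) (nat_lit 1)) (.cons (.br (nat_lit 16) (nat_lit 0) (.cons (.ev (nat_lit 1369136010277248755457465227129968132099) (nat_lit 3)) .nil)) .nil))) .nil)))) (.cons (.br (nat_lit 8) (nat_lit 0) (.cons (.ev (nat_lit 340287559217797003031888705044290273537) (nat_lit 1)) (.cons (.ev (nat_lit 1369125625207543750141712416177886856709) (nat_lit 3)) (.cons (.br (nat_lit 11) (nat_lit 0) (.cons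 (.ev (nat_lit 341616807495991517815577370039435722753) (nat_lit 1)) (.cons (.ev (nat_lit 20362260367722440663250231099907) (nat_lit 2)) .nil))) .nil)))) (.cons (.br (nat_lit 8) (nat_lit 0) (.cons (.br (nat_lit 16) (nat_lit 0) (.cons (.ev (nat_lit 2668860946925890659919344321366589953) (nat_lit 2)) (.cons (.ev (nat_lit 340282367000476111005979374340584570880) (nat_lit 1)) .nil))) (.cons (.br (nat_lit 11) (nat_lit 0) (.cons (.ev (nat_lit 341611615278670635234401005075020448000) (nat_lit 1)) (.cons (.br (nat_lit 16) (nat_lit 0) (.cons (.ev (nat_lit 1369136010277248755457463538271618596869) (nat_lit 3)) .nil)) .nil))) (.cons (.br (nat_lit 11) (nat_lit 0) (.cons (.ev (nat_lit 341616807495991517815577651510134243328) (nat_lit 1)) (.cons (.ev (nat_lit 20362260367722440663250231099907) (nat_lit 2)) .nil))) (.cons (.ev (nat_lit 10405113814801831317237990328107011) (nat_lit 2)) .nil))))) .nil)))))) (.cons (.br (nat_lit 7) (nat_lit 0) (.cons (.ev (nat_lit 10405113814801831316675031818305537) (nat_lit 2)) (.cons (.br (nat_lit 15) (nat_lit 0) (.cons (.ev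 (nat_lit 2658476512284106608100682913955184643) (nat_lit 2)) (.cons (.ev (nat_lit 2668860946925890659919344321366589953) (nat_lit 2)) (.cons (.br (nat_lit 17) (nat_lit 0) (.cons (.ev (nat_lit 87113620372335300914624288643014614581248) (nat_lit 1)) (.cons (.ev (nat_lit 87113615180117980022598379312310908879105) (nat_lit 1)) .nil))) .nil)))) (.cons (.br (nat_lit 11) (nat_lit 0) (.cons (.ev (nat_lit 2658476512284106608100682913955184643) (nat_lit 2)) (.cons (.ev (nat_lit 2663709136589268780103261291632656643) (nat_lit 2)) (.cons (.br (nat_lit 8) (nat_lit 0) (.cons (.br (nat_lit 16) (nat_lit 0) (.cons (.ev (nat_lit 1369125625207543750141710727319470211591) (nat_lit 3)) .nil)) (.cons (.ev (nat_lit 348451812588465145625410796039855014936579) (nat_lit 3)) .nil))) .nil)))) (.cons (.br (nat_lit 16) (nat_lit 0) (.cons (.ev (nat_lit 10405113814801831317237990328107011) (nat_lit 2)) (.cons (.br (nat_lit 8) (nat_lit 0) (.cons (.ev (nat_lit 5192377017574982400500238859109122) (nat_lit 2)) (.cons (.ev (nat_lit 340282367000476111005979092861312893185) (nat_lit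 1)) .nil))) (.cons (.ev (nat_lit 2668860946925890659919344321366589953) (nat_lit 2)) (.cons (.br (nat_lit 8) (nat_lit 0) (.cons (.ev (nat_lit 340287559217797003031888705044273496065) (nat_lit 1)) (.cons (.ev (nat_lit 1369125625207543750141712416177953964549) (nat_lit 3)) (.cons (.rf (nat_lit 297) (nat_lit 661701333108527519141953)) .nil)))) .nil))))) (.cons (.br (nat_lit 15) (nat_lit 0) (.cons (.br (nat_lit 11) (nat_lit 0) (.cons (.ev (nat_lit 2663709136589268780103824250209566977) (nat_lit 2)) (.cons (.ev (nat_lit 348451812588465145625410794350996531183621) (nat_lit 3)) .nil))) (.cons (.br (nat_lit 8) (nat_lit 0) (.cons (.rf (nat_lit 298) (nat_lit 21174442659471745632798752)) (.cons (.ev (nat_lit 10405113814801831317237990328107011) (nat_lit 2)) .nil))) (.cons (.ev (nat_lit 2668860946925890659919344321366589953) (nat_lit 2)) (.cons (.ev (nat_lit 87113620372335300914624288361535359680513) (nat_lit 1)) .nil))))) .nil)))))) .nil))))))),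
 (.br (nat_lit 17) (nat_lit 0) (.cons (.br (nat_lit 11) (nat_lit 0) (.cons (.ev (nat_lit 681893961917510193759669037238426140674) (nat_lit 2)) .nil)) (.cons (.ev (nat_lit 341611615278671839437854418305248460800) (nat_lit 1)) (.cons (.ev (nat_lit 341616787292810076678171565156426907648) (nat_lit 1)) .nil)))),
 (.br (nat_lit 16) (nat_lit 0) (.cons (.br (nat_lit 11) (nat_lit 0) (.cons (.ev (nat_lit 1339612827190109348702658426499498496) (nat_lit 2)) (.cons (.ev (nat_lit 341611615278671839437854136834566717697) (nat_lit 1)) .nil))) (.cons (.ev (nat_lit 2658476512284106608100119972625252867) (nat_lit 2)) (.cons (.ev (nat_lit 2668860946925890659919344321366589953) (nat_lit 2)) (.cons (.br (nat_lit 8) (nat_lit 0) (.cons (.ev (nat_lit 341611594917032869068466525004906955008) (nat_lit 1)) (.cons (.ev (nat_lit 341616787292810076678171283685745164545) (nat_lit 1)) (.cons (.br (nat_lit 11) (nat_lit 0) (.cons (.ev (nat_lit 1366477553810309958033766949860596253699) (nat_lit 3)) .nil)) .nil)))) .nil))))),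
 (.br (nat_lit 16) (nat_lit 0) (.cons (.rf (nat_lit 301) (nat_lit 677582165103132179601393696)) (.cons (.ev (nat_lit 2658476512284106608100119972625252867) (nat_lit 2)) (.cons (.ev (nat_lit 2668860946925890659919344321366589953) (nat_lit 2)) (.cons (.br (nat_lit 7) (nat_lit 0) (.cons (.ev (nat_lit 341611594917032869068466525004906955008) (nat_lit 1)) (.cons (.ev (nat_lit 341616787292810076678171283685745164545) (nat_lit 1)) (.cons (.br (nat_lit 11) (nat_lit 0) (.cons (.ev (nat_lit 1366477553810309958033765823943442433031) (nat_lit 3)) .nil)) .nil)))) .nil))))),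
 (.br (nat_lit 5) (nat_lit 0) (.cons (.rf (nat_lit 294) (nat_lit 19922863430251376745124899)) (.cons (.rf (nat_lit 287) (nat_lit 19922863430251376745124899)) (.cons (.ev (nat_lit 2658476512284106608100119972591697923) (nat_lit 2)) (.cons (.ev (nat_lit 2668860946925890659919344321400143873) (nat_lit 2)) (.cons (.br (nat_lit 16) (nat_lit 0) (.cons (.br (nat_lit 8) (nat_lit 0) (.cons (.ev (nat_lit 341611594917032869068466525004923731968) (nat_lit 1)) (.cons (.ev (nat_lit 341616787292810076678171283685728387073) (nat_lit 1)) (.cons (.br (nat_lit 11) (nat_lit 0) (.cons (.ev (nat_lit 1366477553810309958033766949860529143811) (nat_lit 3)) (.cons (.ev (nat_lit 20362260367722440663250231099907) (nat_lit 2)) .nil))) .nil)))) (.cons (.br (nat_lit 7) (nat_lit 0) (.cons (.ev (nat_lit 341611594917032869068466525004923731968) (nat_lit 1)) (.cons (.ev (nat_lit 341616787292810076678171283685728387073) (nat_lit 1)) (.cons (.br (nat_lit 11) (nat_lit 0) (.cons (.ev (nat_lit 1366477553810309958033765823943509540871) (nat_lit 3)) (.cons (.ev (nat_lit 20362260367722440663250231099907)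 (nat_lit 2)) .nil))) .nil)))) (.cons (.ev (nat_lit 2658476512284106608100119972625252867) (nat_lit 2)) (.cons (.ev (nat_lit 2668860946925890659919344321366589953) (nat_lit 2)) (.cons (.br (nat_lit 17) (nat_lit 0) (.cons (.rf (nat_lit 300) (nat_lit 677582165103132179601393696)) (.cons (.br (nat_lit 17) (nat_lit 0) (.cons (.rf (nat_lit 300) (nat_lit 677582165103132179601393696)) (.cons (.ev (nat_lit 341611615278671839437854418305248460800) (nat_lit 1)) (.cons (.ev (nat_lit 341616787292810076678171565156426907648) (nat_lit 1)) .nil)))) (.cons (.ev (nat_lit 341611615278671839437854418305248460800) (nat_lit 1)) (.cons (.ev (nat_lit 341616787292810076678171565156426907648) (nat_lit 1)) .nil))))) .nil)))))) (.cons (.br (nat_lit 16) (nat_lit 0) (.cons (.rf (nat_lit 301) (nat_lit 677582165103132179601393696)) (.cons (.rf (nat_lit 302) (nat_lit 677582165103132179601393696)) (.cons (.ev (nat_lit 2658476512284106608100119972625252867) (nat_lit 2)) (.cons (.ev (nat_lit 2668860946925890659919344321366589953) (nat_lit 2)) (.cons (.br (nat_lit 16) (nat_lit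 0) (.cons (.rf (nat_lit 301) (nat_lit 677582165103132179601393696)) (.cons (.rf (nat_lit 302) (nat_lit 677582165103132179601393696)) (.cons (.ev (nat_lit 2658476512284106608100119972625252867) (nat_lit 2)) (.cons (.ev (nat_lit 2668860946925890659919344321366589953) (nat_lit 2)) .nil))))) .nil)))))) .nil))))))),
 (.br (nat_lit 14) (nat_lit 0) (.cons (.ev (nat_lit 340282367000476111005979092861296115968) (nat_lit 1)) (.cons (.kr (nat_lit 10384594336039674900032605084712961) (nat_lit 20361638979814120859043926900736) (nat_lit 0) (nat_lit 1)) (.cons (.rf (nat_lit 236) (nat_lit 677578509300609647785284643)) .nil)))),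
 (.br (nat_lit 11) (nat_lit 0) (.cons (.ev (nat_lit 340282367000476111005979374340584571137) (nat_lit 1)) (.cons (.kr (nat_lit 10384594336039674900032605084712961) (nat_lit 20361638979814120859043926900736) (nat_lit 0) (nat_lit 1)) (.cons (.rf (nat_lit 235) (nat_lit 677578509300609647785284643)) .nil)))),
 (.br (nat_lit 8) (nat_lit 0) (.cons (.ev (nat_lit 2658476512284106608100682913955184643) (nat_lit 2)) (.cons (.ev (nat_lit 2668860946925890659918781380036657153) (nat_lit 2)) (.cons (.br (nat_lit 11) (nat_lit 0) (.cons (.ev (nat_lit 5327317257267719262817539982629011459) (nat_lit 3)) (.cons (.ev (nat_lit 340282367000477324654165190360116035840) (nat_lit 1)) .nil))) .nil)))),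
 (.br (nat_lit 10) (nat_lit 0) (.cons (.ev (nat_lit 20282719093402377054652880388096) (nat_lit 1)) .nil)),
 (.br (nat_lit 10) (nat_lit 0) (.cons (.ev (nat_lit 620193112778772781627080704) (nat_lit 2)) .nil)),
 (.br (nat_lit 5) (nat_lit 0) (.cons (.rf (nat_lit 294) (nat_lit 19922863430251376745124899)) (.cons (.rf (nat_lit 287) (nat_lit 19922863430251376745124899)) (.cons (.rf (nat_lit 299) (nat_lit 19922863430251376745124899)) (.cons (.rf (nat_lit 296) (nat_lit 19922863430251376745124899)) (.cons (.rf (nat_lit 303) (nat_lit 19922863430251376745124899)) (.cons (.br (nat_lit 7) (nat_lit 0) (.cons (.br (nat_lit 11) (nat_lit 0) (.cons (.ev (nat_lit 1361139872640974095344998186562800059399) (nat_lit 3)) (.cons (.ev (nat_lit 340282367000477324654165471839404491009) (nat_lit 1)) (.cons (.br (nat_lit 14) (nat_lit 0) (.cons (.ev (nat_lit 340287579579434769197823466585085509889) (nat_lit 1)) (.cons (.ev (nat_lit 680569987145350271174972476456442135042) (nat_lit 2)) .nil))) .nil)))) (.cons (.rf (nat_lit 304) (nat_lit 19926519232773908561233952)) (.cons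 (.rf (nat_lit 305) (nat_lit 19926519232773908561233952)) (.cons (.rf (nat_lit 306) (nat_lit 19926519232773908561233952)) (.cons (.br (nat_lit 8) (nat_lit 0) (.cons (.rf (nat_lit 305) (nat_lit 19922863430251376745124899)) (.cons (.rf (nat_lit 304) (nat_lit 19922863430251376745124899)) (.cons (.rf (nat_lit 306) (nat_lit 19922863430251376745124899)) (.cons (.br (nat_lit 11) (nat_lit 0) (.cons (.ev (nat_lit 1361139872640974095344997060680140194819) (nat_lit 3)) (.cons (.ev (nat_lit 340282367000477324654165190360116035840) (nat_lit 1)) (.cons (.rf (nat_lit 307) (nat_lit 646192708113796404289)) .nil)))) .nil))))) .nil)))))) (.cons (.br (nat_lit 7) (nat_lit 0) (.cons (.br (nat_lit 16) (nat_lit 0) (.cons (.ev (nat_lit 20362260367722441226208740901377) (nat_lit 2)) (.cons (.ev (nat_lit 10405113814801831316675031818306051) (nat_lit 2)) (.cons (.br (nat_lit 11) (nat_lit 0) (.cons (.kr (nat_lit 2668840585905871457744968586180427777) (nat_lit 20520095314287382781445265162752) (nat_lit 0) (nat_lit 2)) (.cons (.ev (nat_lit 341611615278671839437854418305231683840)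 (nat_lit 1)) .nil))) (.cons (.br (nat_lit 11) (nat_lit 0) (.cons (.ev (nat_lit 1361139872640974095344998186562867167239) (nat_lit 3)) (.cons (.ev (nat_lit 340282367000477324654165471839387713537) (nat_lit 1)) (.cons (.br (nat_lit 14) (nat_lit 0) (.cons (.ev (nat_lit 340287559217798207235341555324548087808) (nat_lit 1)) .nil)) .nil)))) .nil))))) (.cons (.br (nat_lit 8) (nat_lit 0) (.cons (.kr (nat_lit 79228167236630820463189164032) (nat_lit 5192297168019837449875565054001152) (nat_lit 9) (nat_lit 0)) (.cons (.ev (nat_lit 2658476512284106608100682913955184643) (nat_lit 2)) (.cons (.br (nat_lit 14) (nat_lit 0) (.cons (.kr (nat_lit 5192297168019837450157040030712064) (nat_lit 1329227995784915891422608728044601344) (nat_lit 1) (nat_lit 0)) (.cons (.br (nat_lit 15) (nat_lit 0) (.cons (.ev (nat_lit 2668860946925890659919344321366589443) (nat_lit 2)) .nil)) .nil))) (.cons (.br (nat_lit 14) (nat_lit 0) (.cons (.kr (nat_lit 10384594336039674900032605084712961) (nat_lit 20361638979814120859043926900736) (nat_lit 0) (nat_lit 1)) (.cons (.ev (nat_lit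 340282367000476111005979092861312892928) (nat_lit 1)) (.cons (.ev (nat_lit 87112285931839784294166504268337655054336) (nat_lit 1)) .nil)))) .nil))))) (.cons (.br (nat_lit 8) (nat_lit 0) (.cons (.kr (nat_lit 79228167236630820463189164032) (nat_lit 5192297168019837449875565054001152) (nat_lit 9) (nat_lit 0)) (.cons (.ev (nat_lit 2668860946925890659918781380036657153) (nat_lit 2)) (.cons (.br (nat_lit 11) (nat_lit 0) (.cons (.kr (nat_lit 5192297168019837450157040030712064) (nat_lit 1329227995784915891422608728044601344) (nat_lit 1) (nat_lit 0)) (.cons (.br (nat_lit 15) (nat_lit 0) (.cons (.ev (nat_lit 2658476512284106608100119972625252353) (nat_lit 2)) .nil)) .nil))) (.cons (.br (nat_lit 11) (nat_lit 0) (.cons (.kr (nat_lit 10384594336039674900032605084712961) (nat_lit 20361638979814120859043926900736) (nat_lit 0) (nat_lit 1)) (.cons (.ev (nat_lit 340287559217797003031888705044273496065) (nat_lit 1)) (.cons (.ev (nat_lit 87112291124057105186192413317570695790593) (nat_lit 1)) .nil)))) .nil))))) (.cons (.br (nat_lit 8) (nat_lit 0) (.cons (.ev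 (nat_lit 2658476512284106608100682913955184643) (nat_lit 2)) (.cons (.ev (nat_lit 2668860946925890659918781380036657153) (nat_lit 2)) (.cons (.br (nat_lit 11) (nat_lit 0) (.cons (.ev (nat_lit 31174460324255116507386022755042307) (nat_lit 3)) (.cons (.rf (nat_lit 308) (nat_lit 646192708113796404289)) .nil))) (.cons (.br (nat_lit 11) (nat_lit 0) (.cons (.ev (nat_lit 5327317257267719262817539982629011459) (nat_lit 3)) (.cons (.br (nat_lit 14) (nat_lit 0) (.cons (.ev (nat_lit 1363819097977196423093401923724326995457) (nat_lit 3)) .nil)) (.cons (.br (nat_lit 14) (nat_lit 0) (.cons (.ev (nat_lit 1369136010277248755457465227130035241477) (nat_lit 3)) .nil)) .nil)))) .nil))))) (.cons (.br (nat_lit 8) (nat_lit 0) (.cons (.br (nat_lit 14) (nat_lit 0) (.cons (.kr (nat_lit 20361638979814121140514591867136) (nat_lit 1334420292952935728872484293098602496) (nat_lit 1) (nat_lit 0)) (.cons (.br (nat_lit 15) (nat_lit 0) (.cons (.ev (nat_lit 2668860946925890659919344321366589443) (nat_lit 2)) .nil)) .nil))) (.cons (.br (nat_lit 11) (nat_lit 0) (.cons (.kr (nat_lit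 20361638979814121140514591867136) (nat_lit 1334420292952935728872484293098602496) (nat_lit 1) (nat_lit 0)) (.cons (.br (nat_lit 15) (nat_lit 0) (.cons (.ev (nat_lit 2658476512284106608100119972625252353) (nat_lit 2)) .nil)) .nil))) (.cons (.br (nat_lit 14) (nat_lit 0) (.cons (.ev (nat_lit 31174460324255116507386022755042307) (nat_lit 3)) (.cons (.rf (nat_lit 308) (nat_lit 646189221668824814657)) .nil))) (.cons (.br (nat_lit 17) (nat_lit 0) (.cons (.ev (nat_lit 20362260367722440663250231099907) (nat_lit 2)) (.cons (.ev (nat_lit 10405113814801831317237990328107521) (nat_lit 2)) (.cons (.br (nat_lit 11) (nat_lit 0) (.cons (.ev (nat_lit 1339612827190109348702658426499498241) (nat_lit 2)) .nil)) .nil)))) .nil))))) (.cons (.br (nat_lit 8) (nat_lit 0) (.cons (.br (nat_lit 14) (nat_lit 0) (.cons (.kr (nat_lit 20361638979814121140514591866881) (nat_lit 10384594336039674899751134419746816) (nat_lit 0) (nat_lit 1)) (.cons (.ev (nat_lit 340282367000476111005979374340567793665) (nat_lit 1)) (.cons (.ev (nat_lit 87112285931839784294166504268337655054336)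 (nat_lit 1)) .nil)))) (.cons (.br (nat_lit 11) (nat_lit 0) (.cons (.kr (nat_lit 20361638979814121140514591866881) (nat_lit 10384594336039674899751134419746816) (nat_lit 0) (nat_lit 1)) (.cons (.ev (nat_lit 340287559217797003031888423565018595328) (nat_lit 1)) (.cons (.ev (nat_lit 87112291124057105186192413317570695790593) (nat_lit 1)) .nil)))) (.cons (.br (nat_lit 11) (nat_lit 0) (.cons (.ev (nat_lit 5327317257267719262818665865288876039) (nat_lit 3)) (.cons (.br (nat_lit 14) (nat_lit 0) (.cons (.ev (nat_lit 1363819097977196423093401360748637324807) (nat_lit 3)) .nil)) (.cons (.br (nat_lit 14) (nat_lit 0) (.cons (.ev (nat_lit 1369136010277248755457463538271551488519) (nat_lit 3)) .nil)) .nil)))) (.cons (.br (nat_lit 17) (nat_lit 0) (.cons (.ev (nat_lit 20362260367722440663250231099907) (nat_lit 2)) (.cons (.ev (nat_lit 10405113814801831317237990328107521) (nat_lit 2)) (.cons (.br (nat_lit 11) (nat_lit 0) (.cons (.ev (nat_lit 1339612827190109348702658426499498241) (nat_lit 2)) .nil)) .nil)))) (.cons (.br (nat_lit 16) (nat_lit 0) (.cons (.ev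 (nat_lit 20362260367722440663250231099907) (nat_lit 2)) (.cons (.ev (nat_lit 10405113814801831317237990328107521) (nat_lit 2)) (.cons (.br (nat_lit 11) (nat_lit 0) (.cons (.ev (nat_lit 681893961917510193759669037238459695873) (nat_lit 2)) .nil)) .nil)))) .nil)))))) .nil))))))) .nil))))))))]

theorem c15 : chkAll C T R L15 (nat_lit 297) = true := by decide +kernel

theorem l15 : (nat_lit 297) + L15.length = (nat_lit 310) := by decide +kernel

/-- part of the certificates -/
def L16 : List Prf := [(.br (nat_lit 14) (nat_lit 0) (.cons (.kr (nat_lit 79228167236630820463189164032) (nat_lit 5192297168019837449875565054001152) (nat_lit 9) (nat_lit 0)) (.cons (.kr (nat_lit 10384594336039674900032605084712961) (nat_lit 20361638979814120859043926900736) (nat_lit 0) (nat_lit 1)) (.cons (.rf (nat_lit 236) (nat_lit 640101808892556143369393187)) (.cons (.br (nat_lit 8) (nat_lit 0) (.cons (.ev (nat_lit 2658476512284106608100682913955184643) (nat_lit 2)) (.cons (.ev (nat_lit 87112291124057105186192413599041360756993) (nat_lit 1)) .nil))) .nil))))),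
 (.br (nat_lit 11) (nat_lit 0) (.cons (.kr (nat_lit 79228167236630820463189164032) (nat_lit 5192297168019837449875565054001152) (nat_lit 9) (nat_lit 0)) (.cons (.kr (nat_lit 10384594336039674900032605084712961) (nat_lit 20361638979814120859043926900736) (nat_lit 0) (nat_lit 1)) (.cons (.rf (nat_lit 235) (nat_lit 640101808892556143369393187)) (.cons (.br (nat_lit 8) (nat_lit 0) (.cons (.ev (nat_lit 2668860946925890659918781380036657153) (nat_lit 2)) (.cons (.ev (nat_lit 87112285931839784294166503986866990088448) (nat_lit 1)) .nil))) .nil))))),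
 (.br (nat_lit 8) (nat_lit 0) (.cons (.ev (nat_lit 2658476512284106608100682913955184643) (nat_lit 2)) (.cons (.ev (nat_lit 2668860946925890659918781380036657153) (nat_lit 2)) (.cons (.br (nat_lit 11) (nat_lit 0) (.cons (.ev (nat_lit 31174460324255116507386022755042307) (nat_lit 3)) (.cons (.ev (nat_lit 1363787944038207887452943089938894946819) (nat_lit 3)) (.cons (.ev (nat_lit 348451802203395440620095041540044449907203) (nat_lit 3)) .nil)))) (.cons (.br (nat_lit 11) (nat_lit 0) (.cons (.ev (nat_lit 5327317257267719262817539982629011459) (nat_lit 3)) (.cons (.ev (nat_lit 87112285931839785507814690365836474974465) (nat_lit 1)) .nil))) .nil))))),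
 (.br (nat_lit 14) (nat_lit 0) (.cons (.ev (nat_lit 341611615278670635234401286545702191105) (nat_lit 1)) .nil)),
 (.br (nat_lit 8) (nat_lit 0) (.cons (.rf (nat_lit 311) (nat_lit 677578509300609647785284643)) (.cons (.rf (nat_lit 310) (nat_lit 677578509300609647785284643)) (.cons (.rf (nat_lit 312) (nat_lit 677578509300609647785284643)) (.cons (.br (nat_lit 11) (nat_lit 0) (.cons (.ev (nat_lit 1361139872640974095344998186562867168259) (nat_lit 3)) (.cons (.ev (nat_lit 340282367000477324654165471839387713792) (nat_lit 1)) (.cons (.rf (nat_lit 268) (nat_lit 640105464695078675185502240)) .nil)))) (.cons (.br (nat_lit 11) (nat_lit 0) (.cons (.ev (nat_lit 348449154131998206827987097762585575949319) (nat_lit 3)) (.cons (.ev (nat_lit 87112285931839785507814690365836474974465) (nat_lit 1)) (.cons (.rf (nat_lit 313) (nat_lit 677582165103132179601393696)) .nil)))) .nil)))))),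
 (.br (nat_lit 13) (nat_lit 0) (.cons (.br (nat_lit 1) (nat_lit 0) (.cons (.kr (nat_lit 1) (nat_lit 256) (nat_lit 0) (nat_lit 2)) (.cons (.kr (nat_lit 256) (nat_lit 16777216) (nat_lit 1) (nat_lit 0)) (.cons (.rf (nat_lit 237) (nat_lit 583706118939841765935136)) (.cons (.rf (nat_lit 237) (nat_lit 580050316417309949826083)) (.cons (.rf (nat_lit 260) (nat_lit 583706118939841765935136)) (.cons (.rf (nat_lit 260) (nat_lit 580050316417309949826083)) (.cons (.br (nat_lit 2) (nat_lit 0) (.cons (.br (nat_lit 11) (nat_lit 0) (.cons (.ev (nat_lit 2658476512284106608100122163058704387) (nat_lit 2)) (.cons (.ev (nat_lit 2658476512284106608100685121568505857) (nat_lit 2)) (.cons (.ev (nat_lit 5327317257267719262817544363495915527) (nat_lit 3)) (.cons (.br (nat_lit 14) (nat_lit 0) (.cons (.ev (nat_lit 2668860946925890659919346528979910657) (nat_lit 2)) (.cons (.ev (nat_lit 2668860946925890659918783570470109187) (nat_lit 2)) (.cons (.ev (nat_lit 2663709136589268780103263499245977602) (nat_lit 2)) (.cons (.br (nat_lit 7) (nat_lit 0) (.cons (.rf (nat_lit 1)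 (nat_lit 582131524277313)) (.cons (.br (nat_lit 8) (nat_lit 0) (.cons (.ev (nat_lit 1374421768956458249979813639575082500613) (nat_lit 4)) (.cons (.br (nat_lit 16) (nat_lit 0) (.cons (.zr (nat_lit 1363788025087380166375433071522631254528) (nat_lit 31153862236295706063321080715542529) (nat_lit 16) (nat_lit 15)) .nil)) .nil))) (.cons (.br (nat_lit 8) (nat_lit 0) (.cons (.br (nat_lit 16) (nat_lit 0) (.cons (.zr (nat_lit 1363787924229920846848027271310115734019) (nat_lit 31214630238138905530139891434782720) (nat_lit 16) (nat_lit 8)) .nil)) (.cons (.ev (nat_lit 1045366081931800467995625039823351787161093) (nat_lit 4)) .nil))) .nil)))) .nil))))) .nil))))) (.cons (.rf (nat_lit 263) (nat_lit 583706118939841765935136)) (.cons (.rf (nat_lit 265) (nat_lit 583706118939841765935136)) (.cons (.rf (nat_lit 266) (nat_lit 583706118939841765935136)) (.cons (.rf (nat_lit 267) (nat_lit 583706118939841765935136)) (.cons (.br (nat_lit 5) (nat_lit 0) (.cons (.rf (nat_lit 265) (nat_lit 580050316417309949826083)) (.cons (.rf (nat_lit 263) (nat_lit 580050316417309949826083))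 (.cons (.rf (nat_lit 267) (nat_lit 580050316417309949826083)) (.cons (.rf (nat_lit 266) (nat_lit 580050316417309949826083)) (.cons (.br (nat_lit 11) (nat_lit 0) (.cons (.ev (nat_lit 2658476512284106608100122163025149953) (nat_lit 2)) (.cons (.ev (nat_lit 2658476512284106608100685121602060291) (nat_lit 2)) (.cons (.ev (nat_lit 5327317257267719262817544363428806659) (nat_lit 3)) (.cons (.rf (nat_lit 269) (nat_lit 19926519232773908561233952)) (.cons (.br (nat_lit 14) (nat_lit 0) (.cons (.ev (nat_lit 2668860946925890659919346529013465091) (nat_lit 2)) (.cons (.ev (nat_lit 2668860946925890659918783570436554753) (nat_lit 2)) (.cons (.rf (nat_lit 269) (nat_lit 19922863430251376745124899)) (.cons (.ev (nat_lit 2663709136589268780103263499279532032) (nat_lit 2)) .nil))))) .nil)))))) (.cons (.br (nat_lit 7) (nat_lit 0) (.cons (.br (nat_lit 11) (nat_lit 0) (.cons (.ev (nat_lit 31174460324255116506260105735439367) (nat_lit 3)) (.cons (.br (nat_lit 14) (nat_lit 0) (.cons (.ev (nat_lit 340282387203658765791571275618606645248) (nat_lit 1)) (.cons (.br (nat_lit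 16) (nat_lit 0) (.cons (.zr (nat_lit 1363788025087380166375433071522648031744) (nat_lit 31153862236295706063884022028697605) (nat_lit 16) (nat_lit 15)) .nil)) .nil))) (.cons (.br (nat_lit 14) (nat_lit 0) (.cons (.br (nat_lit 16) (nat_lit 0) (.cons (.zr (nat_lit 1363788065652196955827134690158784414208) (nat_lit 31154020692611289859030528479461379) (nat_lit 16) (nat_lit 15)) .nil)) (.cons (.ev (nat_lit 87112285931839784294166504268337655054336) (nat_lit 1)) .nil))) .nil)))) (.cons (.rf (nat_lit 270) (nat_lit 677582165103132179601393696)) (.cons (.rf (nat_lit 272) (nat_lit 677582165103132179601393696)) (.cons (.rf (nat_lit 273) (nat_lit 677582165103132179601393696)) (.cons (.br (nat_lit 8) (nat_lit 0) (.cons (.rf (nat_lit 272) (nat_lit 640101808892556143369393187)) (.cons (.rf (nat_lit 270) (nat_lit 640101808892556143369393187)) (.cons (.br (nat_lit 11) (nat_lit 0) (.cons (.ev (nat_lit 7996157523785041695469035704671405575) (nat_lit 3)) (.cons (.ev (nat_lit 1363787944038207887452943087748360832519) (nat_lit 3)) (.cons (.ev (nat_lit 348451802203395440620095041542269209544199)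 (nat_lit 3)) .nil)))) (.cons (.rf (nat_lit 273) (nat_lit 640101808892556143369393187)) .nil))))) .nil)))))) .nil))))))) .nil))))))) (.cons (.br (nat_lit 2) (nat_lit 0) (.cons (.br (nat_lit 7) (nat_lit 0) (.cons (.br (nat_lit 16) (nat_lit 0) (.cons (.ev (nat_lit 20362260367722441226208740901377) (nat_lit 2)) (.cons (.ev (nat_lit 10405113814801831316675031818306051) (nat_lit 2)) (.cons (.rf (nat_lit 274) (nat_lit 19926519232773908561233952)) (.cons (.br (nat_lit 16) (nat_lit 0) (.cons (.ev (nat_lit 20362260367722441226208740901377) (nat_lit 2)) (.cons (.ev (nat_lit 10405113814801831316675031818306051) (nat_lit 2)) (.cons (.rf (nat_lit 274) (nat_lit 19926519232773908561233952)) .nil)))) .nil))))) (.cons (.rf (nat_lit 275) (nat_lit 19926519232773908561233952)) (.cons (.rf (nat_lit 276) (nat_lit 19926519232773908561233952)) (.cons (.rf (nat_lit 277) (nat_lit 19926519232773908561233952)) (.cons (.rf (nat_lit 280) (nat_lit 19926519232773908561233952)) (.cons (.br (nat_lit 8) (nat_lit 0) (.cons (.rf (nat_lit 276) (nat_lit 19922863430251376745124899))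 (.cons (.rf (nat_lit 275) (nat_lit 19922863430251376745124899)) (.cons (.rf (nat_lit 277) (nat_lit 19922863430251376745124899)) (.cons (.rf (nat_lit 280) (nat_lit 19922863430251376745124899)) (.cons (.br (nat_lit 16) (nat_lit 0) (.cons (.ev (nat_lit 20362260367722440663250231099907) (nat_lit 2)) (.cons (.ev (nat_lit 10405113814801831317237990328107521) (nat_lit 2)) (.cons (.rf (nat_lit 281) (nat_lit 677582165103132179601393696)) (.cons (.br (nat_lit 16) (nat_lit 0) (.cons (.ev (nat_lit 20362260367722440663250231099907) (nat_lit 2)) (.cons (.ev (nat_lit 10405113814801831317237990328107521) (nat_lit 2)) (.cons (.rf (nat_lit 281) (nat_lit 677582165103132179601393696)) .nil)))) .nil))))) .nil)))))) .nil))))))) (.cons (.rf (nat_lit 287) (nat_lit 19926519232773908561233952)) (.cons (.rf (nat_lit 294) (nat_lit 19926519232773908561233952)) (.cons (.rf (nat_lit 296) (nat_lit 19926519232773908561233952)) (.cons (.rf (nat_lit 299) (nat_lit 19926519232773908561233952)) (.cons (.rf (nat_lit 303) (nat_lit 19926519232773908561233952)) (.cons (.rf (nat_lit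 309) (nat_lit 19926519232773908561233952)) (.cons (.br (nat_lit 5) (nat_lit 0) (.cons (.rf (nat_lit 294) (nat_lit 19922863430251376745124899)) (.cons (.rf (nat_lit 287) (nat_lit 19922863430251376745124899)) (.cons (.rf (nat_lit 299) (nat_lit 19922863430251376745124899)) (.cons (.rf (nat_lit 296) (nat_lit 19922863430251376745124899)) (.cons (.rf (nat_lit 303) (nat_lit 19922863430251376745124899)) (.cons (.rf (nat_lit 309) (nat_lit 19922863430251376745124899)) (.cons (.br (nat_lit 7) (nat_lit 0) (.cons (.br (nat_lit 16) (nat_lit 0) (.cons (.ev (nat_lit 20362260367722441226208740901377) (nat_lit 2)) (.cons (.ev (nat_lit 10405113814801831316675031818306051) (nat_lit 2)) (.cons (.br (nat_lit 16) (nat_lit 0) (.cons (.ev (nat_lit 20362260367722441226208740901377) (nat_lit 2)) (.cons (.ev (nat_lit 10405113814801831316675031818306051) (nat_lit 2)) (.cons (.zr (nat_lit 2041694201763315282490140112577246920704) (nat_lit 174224571924367725730980269965232434054145) (nat_lit 16) (nat_lit 17)) .nil)))) (.cons (.br (nat_lit 16) (nat_lit 0) (.cons (.ev (nat_lit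 20362260367722441226208740901377) (nat_lit 2)) (.cons (.ev (nat_lit 10405113814801831316675031818306051) (nat_lit 2)) (.cons (.zr (nat_lit 2041694201763315282490140112577246920704) (nat_lit 174224571924367725730980269965232434054145) (nat_lit 16) (nat_lit 17)) .nil)))) .nil))))) (.cons (.rf (nat_lit 310) (nat_lit 677582165103132179601393696)) (.cons (.rf (nat_lit 311) (nat_lit 677582165103132179601393696)) (.cons (.rf (nat_lit 312) (nat_lit 677582165103132179601393696)) (.cons (.rf (nat_lit 314) (nat_lit 677582165103132179601393696)) (.cons (.br (nat_lit 8) (nat_lit 0) (.cons (.rf (nat_lit 311) (nat_lit 677578509300609647785284643)) (.cons (.rf (nat_lit 310) (nat_lit 677578509300609647785284643)) (.cons (.rf (nat_lit 312) (nat_lit 677578509300609647785284643)) (.cons (.rf (nat_lit 314) (nat_lit 677578509300609647785284643)) .nil))))) .nil))))))) .nil)))))))) .nil))))))))) .nil))))))))) .nil)),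
 (.br (nat_lit 9) (nat_lit 0) (.cons (.br (nat_lit 12) (nat_lit 0) (.cons (.rf (nat_lit 230) (nat_lit 15806924472679363872800)) (.cons (.br (nat_lit 14) (nat_lit 1) (.cons (.br (nat_lit 13) (nat_lit 0) (.cons (.kr (nat_lit 20282409603670117449495937548289) (nat_lit 79228167236630820467500908544) (nat_lit 0) (nat_lit 1)) .nil)) .nil)) .nil))) .nil)),
 (.br (nat_lit 11) (nat_lit 0) (.cons (.ev (nat_lit 1339612827190114052622400508051784450) (nat_lit 2)) (.cons (.ev (nat_lit 20362259168222907272494250590721) (nat_lit 2)) (.cons (.br (nat_lit 14) (nat_lit 0) (.cons (.ev (nat_lit 10405113813592923944369625296404995) (nat_lit 2)) (.cons (.rf (nat_lit 2) (nat_lit 19075322204823721025)) .nil))) .nil)))),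
 (.br (nat_lit 10) (nat_lit 0) (.cons (.br (nat_lit 14) (nat_lit 0) (.cons (.kr (nat_lit 20361637770906748269959126712321) (nat_lit 10384594336039674899751134419746816) (nat_lit 0) (nat_lit 1)) (.cons (.br (nat_lit 15) (nat_lit 0) (.cons (.ev (nat_lit 2668860946924672344706996174030110723) (nat_lit 2)) (.cons (.rf (nat_lit 1) (nat_lit 582169208788033)) .nil))) .nil))) (.cons (.br (nat_lit 11) (nat_lit 0) (.cons (.kr (nat_lit 20361637770906748269959126712321) (nat_lit 10384594336039674899751134419746816) (nat_lit 0) (nat_lit 1)) (.cons (.br (nat_lit 15) (nat_lit 0) (.cons (.ev (nat_lit 2658476512282897700727249417160097793) (nat_lit 2)) (.cons (.rf (nat_lit 1) (nat_lit 582172426867777)) .nil))) .nil))) (.cons (.br (nat_lit 11) (nat_lit 0) (.cons (.ev (nat_lit 31174460325445208201305775344452615) (nat_lit 3)) (.cons (.rf (nat_lit 179) (nat_lit 19003409606566450241)) .nil))) (.cons (.br (nat_lit 16) (nat_lit 0) (.cons (.ev (nat_lit 20362259168222907272494250590721) (nat_lit 2)) (.cons (.ev (nat_lit 10405113813592923944369625296404995) (nat_lit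 2)) (.cons (.rf (nat_lit 317) (nat_lit 19926519232773908561233952)) (.cons (.br (nat_lit 16) (nat_lit 0) (.cons (.ev (nat_lit 20362259168222907272494250590721) (nat_lit 2)) (.cons (.ev (nat_lit 10405113813592923944369625296404995) (nat_lit 2)) (.cons (.rf (nat_lit 317) (nat_lit 19926519232773908561233952)) .nil)))) .nil))))) .nil))))),
 (.br (nat_lit 14) (nat_lit 0) (.cons (.kr (nat_lit 79228162532711081671548469248) (nat_lit 5192297168019837450157040030711808) (nat_lit 4) (nat_lit 0)) (.cons (.kr (nat_lit 79228162532711081667253501953) (nat_lit 5192297168019837449875565070778368) (nat_lit 0) (nat_lit 1)) (.cons (.kr (nat_lit 20361637770906747988488444968961) (nat_lit 10384594336039674900032605101490176) (nat_lit 0) (nat_lit 1)) (.cons (.br (nat_lit 15) (nat_lit 0) (.cons (.ev (nat_lit 2658476512282897700727249417126543363) (nat_lit 2)) (.cons (.ev (nat_lit 2658476512282897700727812358523584513) (nat_lit 2)) (.cons (.ev (nat_lit 2668860946924672344706996174030110723) (nat_lit 2)) (.cons (.br (nat_lit 5) (nat_lit 0) (.cons (.rf (nat_lit 1)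 (nat_lit 582167967280193)) (.cons (.br (nat_lit 10) (nat_lit 0) (.cons (.ev (nat_lit 340287579579435978105196337140533887232) (nat_lit 1)) (.cons (.rf (nat_lit 2) (nat_lit 19070929625666530369)) .nil))) (.cons (.br (nat_lit 10) (nat_lit 0) (.cons (.rf (nat_lit 203) (nat_lit 646189185384938806314)) (.cons (.ev (nat_lit 87113615180117978818394925899072124485633) (nat_lit 1)) .nil))) .nil)))) .nil))))) .nil))))),
 (.br (nat_lit 11) (nat_lit 0) (.cons (.ev (nat_lit 1339612827190114052622681995913396994) (nat_lit 2)) (.cons (.ev (nat_lit 20362259168222907835435614077441) (nat_lit 2)) (.cons (.br (nat_lit 14) (nat_lit 0) (.cons (.ev (nat_lit 10405113813592923943806683932918275) (nat_lit 2)) (.cons (.rf (nat_lit 2) (nat_lit 19075322204815337633)) .nil))) .nil)))),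
 (.br (nat_lit 10) (nat_lit 0) (.cons (.kr (nat_lit 79228162532711081667253501952) (nat_lit 5192297168019837449875565054001152) (nat_lit 8) (nat_lit 0)) (.cons (.ev (nat_lit 2658476512282897700727812358490030083) (nat_lit 2)) (.cons (.br (nat_lit 14) (nat_lit 0) (.cons (.kr (nat_lit 10384594336039674900032605084712961) (nat_lit 20361637770906747988488461746176) (nat_lit 0) (nat_lit 1)) (.cons (.ev (nat_lit 340287559217798207235341555324531310848) (nat_lit 1)) (.cons (.br (nat_lit 15) (nat_lit 0) (.cons (.ev (nat_lit 341611594917032864364546785113754566656) (nat_lit 1)) (.cons (.ev (nat_lit 2668860946924672344706996174030110723) (nat_lit 2)) .nil))) .nil)))) (.cons (.br (nat_lit 14) (nat_lit 0) (.cons (.kr (nat_lit 10384594336039674900032605084712961) (nat_lit 20361637770906747988488461746176) (nat_lit 0) (nat_lit 1)) (.cons (.br (nat_lit 15) (nat_lit 0) (.cons (.ev (nat_lit 2668860946924672344706996174030110723) (nat_lit 2)) (.cons (.rf (nat_lit 2) (nat_lit 19070929625663384737)) .nil))) (.cons (.br (nat_lit 17) (nat_lit 0) (.cons (.ev (nat_lit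 2668860946924672344706996174030110723) (nat_lit 2)) (.cons (.ev (nat_lit 87112285931839785503073877139996926869760) (nat_lit 1)) .nil))) .nil)))) .nil))))),
 (.br (nat_lit 10) (nat_lit 0) (.cons (.kr (nat_lit 79228162532711081667253501952) (nat_lit 5192297168019837449875565054001152) (nat_lit 8) (nat_lit 0)) (.cons (.ev (nat_lit 2668860946924672344706433232700178433) (nat_lit 2)) (.cons (.br (nat_lit 11) (nat_lit 0) (.cons (.kr (nat_lit 10384594336039674900032605084712961) (nat_lit 20361637770906747988488461746176) (nat_lit 0) (nat_lit 1)) (.cons (.ev (nat_lit 340282367000477319913352244896049725697) (nat_lit 1)) (.cons (.br (nat_lit 15) (nat_lit 0) (.cons (.ev (nat_lit 341616787292810076678171282581938503681) (nat_lit 1)) (.cons (.ev (nat_lit 2658476512282897700727249417160097793) (nat_lit 2)) .nil))) .nil)))) (.cons (.br (nat_lit 11) (nat_lit 0) (.cons (.kr (nat_lit 10384594336039674900032605084712961) (nat_lit 20361637770906747988488461746176) (nat_lit 0) (nat_lit 1)) (.cons (.br (nat_lit 15) (nat_lit 0) (.cons (.ev (nat_lit 2658476512282897700727249417160097793)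 (nat_lit 2)) (.cons (.rf (nat_lit 203) (nat_lit 646192708112691141666)) .nil))) (.cons (.br (nat_lit 17) (nat_lit 0) (.cons (.ev (nat_lit 2658476512282897700727249417160097793) (nat_lit 2)) (.cons (.ev (nat_lit 87112291124057106390395866450425442009345) (nat_lit 1)) .nil))) .nil)))) .nil)))))]

theorem c16 : chkAll C T R L16 (nat_lit 310) = true := by decide +kernel

theorem l16 : (nat_lit 310) + L16.length = (nat_lit 323) := by decide +kernel

/-- part of the certificates -/
def L17 : List Prf := [(.br (nat_lit 10) (nat_lit 0) (.cons (.ev (nat_lit 2658476512282897700727812358490030083) (nat_lit 2)) (.cons (.ev (nat_lit 2668860946924672344706433232700178433) (nat_lit 2)) (.cons (.br (nat_lit 11) (nat_lit 0) (.cons (.ev (nat_lit 31174460325445208201305775411561475) (nat_lit 3)) (.cons (.ev (nat_lit 1374421768956457041072440760257648656907) (nat_lit 4)) (.cons (.br (nat_lit 14) (nat_lit 0) (.cons (.ev (nat_lit 4102039153728763734346197765349639063047) (nat_lit 4)) (.cons (.ev (nat_lit 5192377017579686320241242374537731) (nat_lit 2)) .nil)))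 .nil)))) (.cons (.br (nat_lit 11) (nat_lit 0) (.cons (.ev (nat_lit 5327317257264073725019973132490899459) (nat_lit 3)) (.cons (.br (nat_lit 14) (nat_lit 0) (.cons (.ev (nat_lit 341611594917032869068466242430435328001) (nat_lit 1)) (.cons (.br (nat_lit 16) (nat_lit 0) (.cons (.zr (nat_lit 1363788025087374154766006890316855116288) (nat_lit 31153862236281594304104692875001859) (nat_lit 16) (nat_lit 15)) .nil)) .nil))) (.cons (.br (nat_lit 14) (nat_lit 0) (.cons (.br (nat_lit 16) (nat_lit 0) (.cons (.zr (nat_lit 1363788065652193352624615053947043971584) (nat_lit 31154020692606585939010266190577665) (nat_lit 16) (nat_lit 15)) .nil)) (.cons (.ev (nat_lit 87113615159756341052228991419010600927233) (nat_lit 1)) .nil))) .nil)))) .nil))))),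
 (.br (nat_lit 10) (nat_lit 0) (.cons (.rf (nat_lit 322) (nat_lit 19922825374874966065088740)) (.cons (.rf (nat_lit 321) (nat_lit 19922825374874966065088740)) (.cons (.rf (nat_lit 323) (nat_lit 19922825374874966065088740)) (.cons (.br (nat_lit 11) (nat_lit 0) (.cons (.ev (nat_lit 1361139872640970468622879574896404595719) (nat_lit 3)) (.cons (.ev (nat_lit 340282367000477324654165471839404491009) (nat_lit 1)) (.cons (.rf (nat_lit 278) (nat_lit 677582165101973225692333120)) .nil)))) (.cons (.br (nat_lit 17) (nat_lit 0) (.cons (.ev (nat_lit 20362259168222907272494217036291) (nat_lit 2)) (.cons (.ev (nat_lit 10405113813592923944369625329959425) (nat_lit 2)) (.cons (.br (nat_lit 17) (nat_lit 0) (.cons (.ev (nat_lit 20362259168222907272494217036291) (nat_lit 2)) (.cons (.ev (nat_lit 10405113813592923944369625329959425) (nat_lit 2)) (.cons (.kr (nat_lit 680564754124286535300786966105363054593) (nat_lit 174224571863599721455780510086745479446528) (nat_lit 0) (nat_lit 1)) .nil)))) (.cons (.br (nat_lit 17) (nat_lit 0) (.cons (.ev (nat_lit 20362259168222907272494217036291)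 (nat_lit 2)) (.cons (.ev (nat_lit 10405113813592923944369625329959425) (nat_lit 2)) (.cons (.kr (nat_lit 680564754124286535300786966105363054593) (nat_lit 174224571863599721455780510086745479446528) (nat_lit 0) (nat_lit 1)) .nil)))) .nil))))) .nil)))))),
 (.br (nat_lit 15) (nat_lit 0) (.cons (.ev (nat_lit 1329227996095614530911250731648483585) (nat_lit 1)) .nil)),
 (.br (nat_lit 10) (nat_lit 0) (.cons (.ev (nat_lit 340282367000477319913280187297700053248) (nat_lit 1)) (.cons (.rf (nat_lit 2) (nat_lit 19070929625668752449)) .nil))),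
 (.br (nat_lit 17) (nat_lit 0) (.cons (.ev (nat_lit 87113620352132118264579509404626170413313) (nat_lit 1)) (.cons (.ev (nat_lit 87113620352132118264579581743695185051905) (nat_lit 1)) .nil))),
 (.br (nat_lit 15) (nat_lit 0) (.cons (.ev (nat_lit 340287579579434764456938180948164346113) (nat_lit 1)) .nil)),
 (.br (nat_lit 10) (nat_lit 0) (.cons (.ev (nat_lit 87113620352132118264579581462224503308545) (nat_lit 1)) .nil)),
 (.br (nat_lit 7) (nat_lit 0) (.cons (.kr (nat_lit 4294967296) (nat_lit 72057594037927936) (nat_lit 4) (nat_lit 0)) (.cons (.kr (nat_lit 72057594037927937) (nat_lit 4311744512) (nat_lit 0) (nat_lit 1)) (.cons (.kr (nat_lit 281474976710656) (nat_lit 72057594037927936) (nat_lit 6) (nat_lit 0)) (.cons (.kr (nat_lit 20282409603670261564684013404163) (nat_lit 79228167236630820476090843648) (nat_lit 0) (nat_lit 2)) (.cons (.kr (nat_lit 79228162532855196855329357825) (nat_lit 20282409608374037188296184954880) (nat_lit 0) (nat_lit 1)) (.cons (.br (nat_lit 14) (nat_lit 0) (.cons (.br (nat_lit 15) (nat_lit 0) (.cons (.ev (nat_lit 2668860946924672344706996174063665153)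 (nat_lit 2)) (.cons (.ev (nat_lit 2668860946924672344706433232666624003) (nat_lit 2)) (.cons (.ev (nat_lit 2668860946924672344851111370695901187) (nat_lit 2)) (.cons (.br (nat_lit 5) (nat_lit 0) (.cons (.rf (nat_lit 1) (nat_lit 582167960074305)) (.cons (.br (nat_lit 10) (nat_lit 0) (.cons (.ev (nat_lit 340282387203658765791571276713840148737) (nat_lit 1)) (.cons (.br (nat_lit 16) (nat_lit 0) (.cons (.ev (nat_lit 340282367000477319913279905827018309888) (nat_lit 1)) .nil)) .nil))) (.cons (.br (nat_lit 17) (nat_lit 0) (.cons (.ev (nat_lit 87113620372335299705716915772459149426688) (nat_lit 1)) (.cons (.ev (nat_lit 87113620372335299705716987548578210643968) (nat_lit 1)) .nil))) .nil)))) .nil))))) (.cons (.br (nat_lit 15) (nat_lit 0) (.cons (.ev (nat_lit 2668860946924672344706996174063665153) (nat_lit 2)) (.cons (.ev (nat_lit 2668860946924672344706433232700178433) (nat_lit 2)) (.cons (.ev (nat_lit 2668860946924672344851111370729455617) (nat_lit 2)) (.cons (.br (nat_lit 2) (nat_lit 0) (.cons (.rf (nat_lit 1) (nat_lit 582172255037505)) (.cons (.br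 (nat_lit 10) (nat_lit 0) (.cons (.ev (nat_lit 340282387203658765791571276713823371520) (nat_lit 1)) (.cons (.rf (nat_lit 325) (nat_lit 21174442659471745632798752)) .nil))) (.cons (.br (nat_lit 17) (nat_lit 0) (.cons (.ev (nat_lit 87113620372335299705716915772459149426688) (nat_lit 1)) (.cons (.ev (nat_lit 87113620372335299705716987548578210643968) (nat_lit 1)) .nil))) .nil)))) .nil))))) (.cons (.br (nat_lit 15) (nat_lit 0) (.cons (.ev (nat_lit 2668860946924672344706433232666624003) (nat_lit 2)) (.cons (.ev (nat_lit 2668860946924672344706433232700178433) (nat_lit 2)) (.cons (.ev (nat_lit 2668860946924672344850548412152545283) (nat_lit 2)) (.cons (.br (nat_lit 2) (nat_lit 0) (.cons (.rf (nat_lit 1) (nat_lit 582172422804545)) (.cons (.br (nat_lit 5) (nat_lit 0) (.cons (.ev (nat_lit 340282387203658765791571558193111826689) (nat_lit 1)) (.cons (.br (nat_lit 16) (nat_lit 0) (.cons (.ev (nat_lit 340282367000477319913279905827035087105) (nat_lit 1)) .nil)) .nil))) (.cons (.br (nat_lit 17) (nat_lit 0) (.cons (.ev (nat_lit 87113620372335299705716915772459149426688)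 (nat_lit 1)) (.cons (.ev (nat_lit 87113620372335299705716987830048909164545) (nat_lit 1)) .nil))) .nil)))) .nil))))) (.cons (.ev (nat_lit 2668860946924681752546473765934989827) (nat_lit 2)) (.cons (.br (nat_lit 15) (nat_lit 0) (.cons (.ev (nat_lit 2668860946924672344851111370695901187) (nat_lit 2)) (.cons (.ev (nat_lit 2668860946924672344851111370729455617) (nat_lit 2)) (.cons (.ev (nat_lit 2668860946924672344850548412152545283) (nat_lit 2)) (.cons (.ev (nat_lit 2668860946924672344706996174030110723) (nat_lit 2)) (.cons (.br (nat_lit 2) (nat_lit 0) (.cons (.rf (nat_lit 326) (nat_lit 677582165103132179601393696)) (.cons (.br (nat_lit 5) (nat_lit 0) (.cons (.ev (nat_lit 340282387203658765791499219124097188097) (nat_lit 1)) (.cons (.rf (nat_lit 203) (nat_lit 646189185384938776647)) .nil))) (.cons (.br (nat_lit 5) (nat_lit 0) (.cons (.ev (nat_lit 340282387203658765791499219124097188097) (nat_lit 1)) (.cons (.br (nat_lit 10) (nat_lit 0) (.cons (.ev (nat_lit 340282367000477319913279905827035087105) (nat_lit 1)) .nil)) .nil))) (.cons (.br (nat_lit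 17) (nat_lit 0) (.cons (.ev (nat_lit 87113620372335299705716987548578210643968) (nat_lit 1)) (.cons (.ev (nat_lit 87113620372335299705716987830048909164545) (nat_lit 1)) (.cons (.ev (nat_lit 87113620372335299705716915490979894525953) (nat_lit 1)) .nil)))) .nil))))) .nil)))))) (.cons (.br (nat_lit 15) (nat_lit 0) (.cons (.br (nat_lit 5) (nat_lit 0) (.cons (.rf (nat_lit 1) (nat_lit 582133600336961)) (.cons (.br (nat_lit 10) (nat_lit 0) (.cons (.ev (nat_lit 340282387203658761050758049770468605953) (nat_lit 1)) (.cons (.rf (nat_lit 100) (nat_lit 21164841982358349793344877)) .nil))) (.cons (.rf (nat_lit 327) (nat_lit 677582165103132179601393696)) .nil)))) (.cons (.br (nat_lit 2) (nat_lit 0) (.cons (.rf (nat_lit 1) (nat_lit 582138969040961)) (.cons (.br (nat_lit 10) (nat_lit 0) (.cons (.ev (nat_lit 340282387203658761050758049770485383168) (nat_lit 1)) (.cons (.rf (nat_lit 100) (nat_lit 21164841982255995353972077)) .nil))) (.cons (.rf (nat_lit 101) (nat_lit 21164841982255995353972077)) .nil)))) (.cons (.br (nat_lit 2) (nat_lit 0) (.cons (.rf (nat_lit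 1) (nat_lit 582139136808001)) (.cons (.br (nat_lit 5) (nat_lit 0) (.cons (.ev (nat_lit 340282387203658761050758331249740283905) (nat_lit 1)) (.cons (.br (nat_lit 16) (nat_lit 0) (.cons (.ev (nat_lit 340282367000477324654093132770373074945) (nat_lit 1)) .nil)) .nil))) (.cons (.br (nat_lit 17) (nat_lit 0) (.cons (.ev (nat_lit 87113620372335299700976102545515811438848) (nat_lit 1)) (.cons (.ev (nat_lit 87113620372335299700976174603105537622273) (nat_lit 1)) .nil))) .nil)))) (.cons (.br (nat_lit 2) (nat_lit 0) (.cons (.br (nat_lit 10) (nat_lit 0) (.cons (.ev (nat_lit 340282387203658761050685992180725645313) (nat_lit 1)) (.cons (.rf (nat_lit 328) (nat_lit 21174442659472845144426528)) .nil))) (.cons (.br (nat_lit 5) (nat_lit 0) (.cons (.ev (nat_lit 340282387203658761050685992180725645313) (nat_lit 1)) (.cons (.br (nat_lit 16) (nat_lit 0) (.cons (.ev (nat_lit 340282367000477324654165471839387713537) (nat_lit 1)) .nil)) .nil))) (.cons (.br (nat_lit 5) (nat_lit 0) (.cons (.ev (nat_lit 340282387203658761050685992180725645313) (nat_lit 1)) (.cons (.rf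 (nat_lit 329) (nat_lit 677582165103132179601393696)) .nil))) (.cons (.br (nat_lit 17) (nat_lit 0) (.cons (.ev (nat_lit 87113620372335299700976174321634872656128) (nat_lit 1)) (.cons (.ev (nat_lit 87113620372335299700976174603105537622273) (nat_lit 1)) (.cons (.ev (nat_lit 87113620372335299700976102264036522983681) (nat_lit 1)) .nil)))) .nil))))) (.cons (.ev (nat_lit 2668860946924672344706996174030110723) (nat_lit 2)) .nil)))))) .nil))))))) .nil))))))),
 (.br (nat_lit 10) (nat_lit 0) (.cons (.ev (nat_lit 1329248278195728468912648403965509888) (nat_lit 1)) (.cons (.br (nat_lit 15) (nat_lit 0) (.cons (.ev (nat_lit 1329248278195728468840872284904292608) (nat_lit 1)) .nil)) .nil))),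
 (.br (nat_lit 14) (nat_lit 0) (.cons (.ev (nat_lit 5192376086702064259632438790127616) (nat_lit 1)) (.cons (.ev (nat_lit 5192376086702064259633534006788096) (nat_lit 1)) .nil))),
 (.br (nat_lit 7) (nat_lit 0) (.cons (.kr (nat_lit 4294967296) (nat_lit 72057594037927936) (nat_lit 4) (nat_lit 0)) (.cons (.kr (nat_lit 72057594037927937) (nat_lit 4311744512) (nat_lit 0) (nat_lit 1)) (.cons (.kr (nat_lit 281474976710656) (nat_lit 72057594037927936) (nat_lit 6) (nat_lit 0)) (.cons (.kr (nat_lit 79228167236774935651281797121) (nat_lit 20282409603670117449500232516096) (nat_lit 0) (nat_lit 2)) (.cons (.kr (nat_lit 79228162532855196855329357825) (nat_lit 20282409608374037188296184954880) (nat_lit 0) (nat_lit 1)) (.cons (.br (nat_lit 11) (nat_lit 0) (.cons (.br (nat_lit 15) (nat_lit 0) (.cons (.ev (nat_lit 2658476512282897700727249417126543363) (nat_lit 2)) (.cons (.ev (nat_lit 2658476512282897700727812358523584513) (nat_lit 2)) (.cons (.ev (nat_lit 2658476512282897700871364596646019073) (nat_lit 2)) (.cons (.br (nat_lit 5) (nat_lit 0) (.cons (.rf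 (nat_lit 1) (nat_lit 582167960169537)) (.cons (.br (nat_lit 10) (nat_lit 0) (.cons (.ev (nat_lit 340287579579435978105196337140533887232) (nat_lit 1)) (.cons (.br (nat_lit 16) (nat_lit 0) (.cons (.ev (nat_lit 340287559217798207235269779205486870785) (nat_lit 1)) .nil)) .nil))) (.cons (.br (nat_lit 17) (nat_lit 0) (.cons (.ev (nat_lit 87113615180117978818394925899072124485633) (nat_lit 1)) (.cons (.ev (nat_lit 87113615180117978818394998238141139124225) (nat_lit 1)) .nil))) .nil)))) .nil))))) (.cons (.br (nat_lit 15) (nat_lit 0) (.cons (.ev (nat_lit 2658476512282897700727249417126543363) (nat_lit 2)) (.cons (.ev (nat_lit 2658476512282897700727812358490030083) (nat_lit 2)) (.cons (.ev (nat_lit 2658476512282897700871364596612464643) (nat_lit 2)) (.cons (.br (nat_lit 2) (nat_lit 0) (.cons (.rf (nat_lit 1) (nat_lit 582169033910337)) (.cons (.rf (nat_lit 331) (nat_lit 21174441469360359728056352)) (.cons (.rf (nat_lit 332) (nat_lit 20678166623322133139521)) .nil)))) .nil))))) (.cons (.br (nat_lit 15) (nat_lit 0) (.cons (.ev (nat_lit 2658476512282897700727812358523584513)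 (nat_lit 2)) (.cons (.ev (nat_lit 2658476512282897700727812358490030083) (nat_lit 2)) (.cons (.ev (nat_lit 2658476512282897700871927555189374977) (nat_lit 2)) (.cons (.br (nat_lit 2) (nat_lit 0) (.cons (.rf (nat_lit 1) (nat_lit 582169201677377)) (.cons (.br (nat_lit 5) (nat_lit 0) (.cons (.ev (nat_lit 340287579579435978105196055661262209280) (nat_lit 1)) (.cons (.br (nat_lit 16) (nat_lit 0) (.cons (.ev (nat_lit 340287559217798207235269779205470093568) (nat_lit 1)) .nil)) .nil))) (.cons (.br (nat_lit 17) (nat_lit 0) (.cons (.ev (nat_lit 87113615180117978818394925899072124485633) (nat_lit 1)) (.cons (.ev (nat_lit 87113615180117978818394997956670440603648) (nat_lit 1)) .nil))) .nil)))) .nil))))) (.cons (.ev (nat_lit 2658476512282907182353703303836074497) (nat_lit 2)) (.cons (.br (nat_lit 15) (nat_lit 0) (.cons (.ev (nat_lit 2658476512282897700871364596646019073) (nat_lit 2)) (.cons (.ev (nat_lit 2658476512282897700871364596612464643) (nat_lit 2)) (.cons (.ev (nat_lit 2658476512282897700871927555189374977) (nat_lit 2)) (.cons (.ev (nat_lit 2658476512282897700727249417160097793)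 (nat_lit 2)) (.cons (.br (nat_lit 2) (nat_lit 0) (.cons (.br (nat_lit 10) (nat_lit 0) (.cons (.ev (nat_lit 340287579579435978105124279542200992000) (nat_lit 1)) (.cons (.rf (nat_lit 203) (nat_lit 646192708112691008583)) .nil))) (.cons (.br (nat_lit 5) (nat_lit 0) (.cons (.ev (nat_lit 340287579579435978105124279542200992000) (nat_lit 1)) (.cons (.rf (nat_lit 2) (nat_lit 19065154887654778945)) .nil))) (.cons (.br (nat_lit 5) (nat_lit 0) (.cons (.ev (nat_lit 340287579579435978105124279542200992000) (nat_lit 1)) (.cons (.rf (nat_lit 87) (nat_lit 20668644847128308791330)) .nil))) (.cons (.br (nat_lit 17) (nat_lit 0) (.cons (.ev (nat_lit 87113615180117978818394998238141139124225) (nat_lit 1)) (.cons (.ev (nat_lit 87113615180117978818394997956670440603648) (nat_lit 1)) (.cons (.ev (nat_lit 87113615180117978818394926180551379386368) (nat_lit 1)) .nil)))) .nil))))) .nil)))))) (.cons (.br (nat_lit 15) (nat_lit 0) (.cons (.br (nat_lit 5) (nat_lit 0) (.cons (.rf (nat_lit 1) (nat_lit 582030521220161)) (.cons (.br (nat_lit 10) (nat_lit 0) (.cons (.ev (nat_lit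 340287579579435973401276598344615002112) (nat_lit 1)) (.cons (.rf (nat_lit 100) (nat_lit 21164841982358349696744905)) .nil))) (.cons (.br (nat_lit 10) (nat_lit 0) (.cons (.rf (nat_lit 62) (nat_lit 677039785536919047237744868)) (.cons (.ev (nat_lit 87113615180117978813691006160276172046593) (nat_lit 1)) .nil))) .nil)))) (.cons (.br (nat_lit 2) (nat_lit 0) (.cons (.rf (nat_lit 1) (nat_lit 582035889924161)) (.cons (.br (nat_lit 10) (nat_lit 0) (.cons (.ev (nat_lit 340287579579435973401276598344598224897) (nat_lit 1)) (.cons (.rf (nat_lit 100) (nat_lit 21164841982255995257372105)) .nil))) (.cons (.rf (nat_lit 101) (nat_lit 21164841982255995257372105)) .nil)))) (.cons (.br (nat_lit 2) (nat_lit 0) (.cons (.rf (nat_lit 1) (nat_lit 582036057691201)) (.cons (.br (nat_lit 5) (nat_lit 0) (.cons (.ev (nat_lit 340287579579435973401276316865343324160) (nat_lit 1)) (.cons (.br (nat_lit 16) (nat_lit 0) (.cons (.ev (nat_lit 340287559217798211939189518001422532608) (nat_lit 1)) .nil)) .nil))) (.cons (.br (nat_lit 17) (nat_lit 0) (.cons (.ev (nat_lit 87113615180117978813691006160276172046593)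 (nat_lit 1)) (.cons (.ev (nat_lit 87113615180117978813691078217874521719040) (nat_lit 1)) .nil))) .nil)))) (.cons (.br (nat_lit 2) (nat_lit 0) (.cons (.br (nat_lit 10) (nat_lit 0) (.cons (.ev (nat_lit 340287579579435973401204540746282106880) (nat_lit 1)) (.cons (.rf (nat_lit 328) (nat_lit 21174327226589294150912032)) .nil))) (.cons (.br (nat_lit 5) (nat_lit 0) (.cons (.ev (nat_lit 340287579579435973401204540746282106880) (nat_lit 1)) (.cons (.br (nat_lit 16) (nat_lit 0) (.cons (.ev (nat_lit 340287559217798211939261294120483749888) (nat_lit 1)) .nil)) .nil))) (.cons (.br (nat_lit 10) (nat_lit 0) (.cons (.ev (nat_lit 340287579579435973401204540746282106880) (nat_lit 1)) (.cons (.rf (nat_lit 329) (nat_lit 677578471245233446488999968)) .nil))) (.cons (.br (nat_lit 17) (nat_lit 0) (.cons (.ev (nat_lit 87113615180117978813691078499345186685185) (nat_lit 1)) (.cons (.ev (nat_lit 87113615180117978813691078217874521719040) (nat_lit 1)) (.cons (.ev (nat_lit 87113615180117978813691006441755460501760) (nat_lit 1)) .nil)))) .nil))))) (.cons (.ev (nat_lit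 2658476512282897700727249417160097793) (nat_lit 2)) .nil)))))) .nil))))))) .nil))))))),
 (.br (nat_lit 14) (nat_lit 0) (.cons (.kr (nat_lit 79228162532711081667253501953) (nat_lit 5192297168019837449875565070778368) (nat_lit 0) (nat_lit 1)) (.cons (.kr (nat_lit 79228162532711081667253501952) (nat_lit 5192297168019837449875565054001152) (nat_lit 8) (nat_lit 0)) (.cons (.kr (nat_lit 20361637770906748269959126712321) (nat_lit 10384594336039674899751134419746816) (nat_lit 0) (nat_lit 1)) (.cons (.kr (nat_lit 79228162532711081667253502208) (nat_lit 5192297168019837449875565070778368) (nat_lit 1) (nat_lit 0)) (.cons (.kr (nat_lit 79228162532783139261291429889) (nat_lit 5192297168019837449875569365745664) (nat_lit 0) (nat_lit 1)) .nil)))))),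
 (.br (nat_lit 11) (nat_lit 0) (.cons (.kr (nat_lit 79228162532711081667253501953) (nat_lit 5192297168019837449875565070778368) (nat_lit 0) (nat_lit 1)) (.cons (.kr (nat_lit 79228162532711081667253501952) (nat_lit 5192297168019837449875565054001152) (nat_lit 8) (nat_lit 0)) (.cons (.kr (nat_lit 20361637770906748269959126712321) (nat_lit 10384594336039674899751134419746816) (nat_lit 0) (nat_lit 1)) (.cons (.kr (nat_lit 79228162532711081667253502208) (nat_lit 5192297168019837449875565070778368) (nat_lit 1) (nat_lit 0)) (.cons (.kr (nat_lit 79228162532783139261291429889) (nat_lit 5192297168019837449875569365745664) (nat_lit 0) (nat_lit 1)) .nil)))))),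
 (.br (nat_lit 15) (nat_lit 0) (.cons (.ev (nat_lit 5327317257264073725019973132423790599) (nat_lit 3)) (.cons (.ev (nat_lit 5327317257264073725019973132490899459) (nat_lit 3)) (.cons (.ev (nat_lit 5327317257264073725021099015150764039) (nat_lit 3)) (.cons (.ev (nat_lit 5327317257264073725019973132423791619) (nat_lit 3)) (.cons (.ev (nat_lit 5327317257264073725308203491395633159) (nat_lit 3)) .nil))))))]

theorem c17 : chkAll C T R L17 (nat_lit 323) = true := by decide +kernel

theorem l17 : (nat_lit 323) + L17.length = (nat_lit 337) := by decide +kernel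

/-- part of the certificates -/
def L18 : List Prf := [(.br (nat_lit 14) (nat_lit 0) (.cons (.kr (nat_lit 20361637770906747988488444968961) (nat_lit 10384594336039674900032605101490176) (nat_lit 0) (nat_lit 1)) (.cons (.kr (nat_lit 10384594336039674900032605084712961) (nat_lit 20361637770906747988488461746176) (nat_lit 0) (nat_lit 1)) (.cons (.kr (nat_lit 20361637770906748269959126712321) (nat_lit 10384594336039674899751134419746816) (nat_lit 0) (nat_lit 1)) (.cons (.kr (nat_lit 10384594336039674900032605101490177) (nat_lit 20361637770906747988488444969472) (nat_lit 0) (nat_lit 2)) (.cons (.kr (nat_lit 20361637770906892103672225857537) (nat_lit 10384594336039674900032609396457472) (nat_lit 0) (nat_lit 1)) .nil)))))),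
 (.br (nat_lit 14) (nat_lit 0) (.cons (.kr (nat_lit 79228162532711081671548469504) (nat_lit 5192297168019837450157040047489024) (nat_lit 1) (nat_lit 0)) (.cons (.kr (nat_lit 5192297168019837450157040030711809) (nat_lit 79228162532711081671548469504) (nat_lit 0) (nat_lit 2)) (.cons (.kr (nat_lit 79228162532711081667253502208) (nat_lit 5192297168019837449875565070778368) (nat_lit 1) (nat_lit 0)) (.cons (.kr (nat_lit 10384594336039674900032605101490177) (nat_lit 20361637770906747988488444969472) (nat_lit 0) (nat_lit 2)) (.cons (.kr (nat_lit 5192297168019837450157040047489025) (nat_lit 79228162532711081671548469760) (nat_lit 0) (nat_lit 2)) (.cons (.kr (nat_lit 79228162532783139261291430144) (nat_lit 5192297168019837450157040047489024) (nat_lit 1) (nat_lit 0)) .nil))))))),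
 (.br (nat_lit 14) (nat_lit 0) (.cons (.kr (nat_lit 79228162532783139261291429889) (nat_lit 5192297168019837450157040047489024) (nat_lit 0) (nat_lit 1)) (.cons (.kr (nat_lit 5192297168019837450157040030711808) (nat_lit 79228162532783139261291429888) (nat_lit 6) (nat_lit 0)) (.cons (.kr (nat_lit 79228162532783139261291429889) (nat_lit 5192297168019837449875569365745664) (nat_lit 0) (nat_lit 1)) (.cons (.kr (nat_lit 20361637770906892103672225857537) (nat_lit 10384594336039674900032609396457472) (nat_lit 0) (nat_lit 1)) (.cons (.kr (nat_lit 79228162532783139261291430144) (nat_lit 5192297168019837450157040047489024) (nat_lit 1) (nat_lit 0)) (.cons (.kr (nat_lit 79228162532855196855329357825) (nat_lit 5192297168019837450157044342456320) (nat_lit 0) (nat_lit 1)) .nil))))))),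
 (.br (nat_lit 10) (nat_lit 0) (.cons (.rf (nat_lit 334) (nat_lit 677582165103132179601393696)) (.cons (.rf (nat_lit 335) (nat_lit 677582165103132179601393696)) (.cons (.br (nat_lit 11) (nat_lit 0) (.cons (.ev (nat_lit 5327317257264073725021099015150764039) (nat_lit 3)) (.cons (.ev (nat_lit 2658476512282897700727812358523585027) (nat_lit 2)) (.cons (.ev (nat_lit 2658476512282897700871927555189374977) (nat_lit 2)) .nil)))) (.cons (.br (nat_lit 11) (nat_lit 0) (.cons (.rf (nat_lit 336) (nat_lit 677582165103132179601393696)) (.cons (.rf (nat_lit 337) (nat_lit 677582165103132179601393696)) (.cons (.rf (nat_lit 338) (nat_lit 677582165103132179601393696)) (.cons (.rf (nat_lit 339) (nat_lit 677582165103132179601393696)) .nil))))) (.cons (.br (nat_lit 11) (nat_lit 0) (.cons (.rf (nat_lit 336) (nat_lit 677582165103132179601393696)) (.cons (.rf (nat_lit 337) (nat_lit 677582165103132179601393696)) (.cons (.rf (nat_lit 338) (nat_lit 677582165103132179601393696)) (.cons (.rf (nat_lit 339) (nat_lit 677582165103132179601393696)) .nil))))) .nil)))))),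
 (.br (nat_lit 14) (nat_lit 0) (.cons (.kr (nat_lit 79228162532711081671548469248) (nat_lit 5192297168019837450157040030711808) (nat_lit 4) (nat_lit 0)) (.cons (.kr (nat_lit 79228162532711081667253501953) (nat_lit 5192297168019837449875565070778368) (nat_lit 0) (nat_lit 1)) (.cons (.kr (nat_lit 20361637770906747988488444968961) (nat_lit 10384594336039674900032605101490176) (nat_lit 0) (nat_lit 1)) (.cons (.kr (nat_lit 79228162532711081671548469504) (nat_lit 5192297168019837450157040047489024) (nat_lit 1) (nat_lit 0)) (.cons (.kr (nat_lit 79228162532783139261291429889) (nat_lit 5192297168019837450157040047489024) (nat_lit 0) (nat_lit 1)) .nil)))))),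
 (.br (nat_lit 11) (nat_lit 0) (.cons (.rf (nat_lit 335) (nat_lit 640101770837179732689357028)) (.cons (.rf (nat_lit 334) (nat_lit 677582165103132179601393696)) (.cons (.rf (nat_lit 336) (nat_lit 677582165103132179601393696)) (.cons (.rf (nat_lit 337) (nat_lit 677582165103132179601393696)) (.cons (.rf (nat_lit 338) (nat_lit 677582165103132179601393696)) (.cons (.rf (nat_lit 339) (nat_lit 677582165103132179601393696)) .nil))))))),
 (.br (nat_lit 13) (nat_lit 0) (.cons (.br (nat_lit 1) (nat_lit 0) (.cons (.kr (nat_lit 1) (nat_lit 256) (nat_lit 0) (nat_lit 2)) (.cons (.kr (nat_lit 256) (nat_lit 16777216) (nat_lit 1) (nat_lit 0)) (.cons (.br (nat_lit 2) (nat_lit 0) (.cons (.rf (nat_lit 318) (nat_lit 583706118939841765935136)) (.cons (.rf (nat_lit 318) (nat_lit 580012261040899269789924)) (.cons (.rf (nat_lit 319) (nat_lit 583706118939841765935136)) (.cons (.rf (nat_lit 319) (nat_lit 580012261040899269789924)) (.cons (.br (nat_lit 11) (nat_lit 0) (.cons (.ev (nat_lit 2658476512282897700727249417126543363) (nat_lit 2)) (.cons (.ev (nat_lit 2658476512282897700727812358523584513)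 (nat_lit 2)) (.cons (.ev (nat_lit 5327317257264073725019973132423790599) (nat_lit 3)) (.cons (.br (nat_lit 14) (nat_lit 0) (.cons (.ev (nat_lit 2668860946924672344706996174063665153) (nat_lit 2)) (.cons (.ev (nat_lit 2668860946924672344706433232666624003) (nat_lit 2)) (.cons (.ev (nat_lit 2663709136585646761904388421206409218) (nat_lit 2)) (.cons (.br (nat_lit 5) (nat_lit 0) (.cons (.rf (nat_lit 1) (nat_lit 582133604400193)) (.cons (.br (nat_lit 10) (nat_lit 0) (.cons (.ev (nat_lit 1374421768956457041072440760257749320197) (nat_lit 4)) (.cons (.br (nat_lit 16) (nat_lit 0) (.cons (.zr (nat_lit 1363788025087374154766006890316855116288) (nat_lit 31153862236281594304104692908556289) (nat_lit 16) (nat_lit 15)) .nil)) .nil))) (.cons (.br (nat_lit 10) (nat_lit 0) (.cons (.br (nat_lit 16) (nat_lit 0) (.cons (.zr (nat_lit 1363787924229923241143174318441367732739) (nat_lit 31214630236934702077008131905290240) (nat_lit 16) (nat_lit 10)) .nil)) (.cons (.ev (nat_lit 1045366081931800461932272496506560399672837) (nat_lit 4)) .nil))) .nil)))) .nil))))) .nil)))))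 (.cons (.br (nat_lit 5) (nat_lit 0) (.cons (.br (nat_lit 16) (nat_lit 0) (.cons (.ev (nat_lit 20362259168222907835435614077441) (nat_lit 2)) (.cons (.ev (nat_lit 10405113813592923943806683932918275) (nat_lit 2)) (.cons (.rf (nat_lit 320) (nat_lit 19926519232773908561233952)) (.cons (.br (nat_lit 16) (nat_lit 0) (.cons (.ev (nat_lit 20362259168222907835435614077441) (nat_lit 2)) (.cons (.ev (nat_lit 10405113813592923943806683932918275) (nat_lit 2)) (.cons (.rf (nat_lit 320) (nat_lit 19926519232773908561233952)) .nil)))) .nil))))) (.cons (.rf (nat_lit 321) (nat_lit 19926519232773908561233952)) (.cons (.rf (nat_lit 322) (nat_lit 19926519232773908561233952)) (.cons (.rf (nat_lit 323) (nat_lit 19926519232773908561233952)) (.cons (.rf (nat_lit 324) (nat_lit 19926519232773908561233952)) (.cons (.br (nat_lit 10) (nat_lit 0) (.cons (.rf (nat_lit 322) (nat_lit 19922825374874966065088740)) (.cons (.rf (nat_lit 321) (nat_lit 19922825374874966065088740)) (.cons (.rf (nat_lit 323) (nat_lit 19922825374874966065088740)) (.cons (.rf (nat_lit 324) (nat_lit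 19922825374874966065088740)) (.cons (.br (nat_lit 16) (nat_lit 0) (.cons (.ev (nat_lit 20362259168222907272494217036291) (nat_lit 2)) (.cons (.ev (nat_lit 10405113813592923944369625329959425) (nat_lit 2)) (.cons (.br (nat_lit 16) (nat_lit 0) (.cons (.ev (nat_lit 20362259168222907272494217036291) (nat_lit 2)) (.cons (.ev (nat_lit 10405113813592923944369625329959425) (nat_lit 2)) (.cons (.kr (nat_lit 174224571883802902901621835911886515732481) (nat_lit 680564733921105089459460578005783412736) (nat_lit 0) (nat_lit 1)) .nil)))) (.cons (.br (nat_lit 16) (nat_lit 0) (.cons (.ev (nat_lit 20362259168222907272494217036291) (nat_lit 2)) (.cons (.ev (nat_lit 10405113813592923944369625329959425) (nat_lit 2)) (.cons (.kr (nat_lit 174224571883802902901621835911886515732481) (nat_lit 680564733921105089459460578005783412736) (nat_lit 0) (nat_lit 1)) .nil)))) .nil))))) .nil)))))) .nil))))))) .nil))))))) (.cons (.kr (nat_lit 281474976710657) (nat_lit 4294967552) (nat_lit 0) (nat_lit 2)) (.cons (.rf (nat_lit 330) (nat_lit 583706118939841765935136)) (.cons (.rf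 (nat_lit 333) (nat_lit 583706118939841765935136)) (.cons (.kr (nat_lit 20282409608374037188291889987585) (nat_lit 79228162532711081671548469760) (nat_lit 0) (nat_lit 2)) (.cons (.br (nat_lit 7) (nat_lit 0) (.cons (.kr (nat_lit 4294967296) (nat_lit 72057594037927936) (nat_lit 4) (nat_lit 0)) (.cons (.kr (nat_lit 72057594037927937) (nat_lit 4311744512) (nat_lit 0) (nat_lit 1)) (.cons (.kr (nat_lit 281474976710656) (nat_lit 72057594037927936) (nat_lit 6) (nat_lit 0)) (.cons (.rf (nat_lit 333) (nat_lit 580012261040899269789924)) (.cons (.rf (nat_lit 330) (nat_lit 580012261040899269789924)) (.cons (.kr (nat_lit 79228162532855196855329357825) (nat_lit 20282409608374037188296184954880) (nat_lit 0) (nat_lit 1)) (.cons (.kr (nat_lit 72057594037927937) (nat_lit 4294967552) (nat_lit 0) (nat_lit 2)) (.cons (.br (nat_lit 2) (nat_lit 0) (.cons (.rf (nat_lit 340) (nat_lit 677582165103132179601393696)) (.cons (.rf (nat_lit 340) (nat_lit 640101770837179732689357028)) (.cons (.rf (nat_lit 341) (nat_lit 677582165103132179601393696)) (.cons (.rf (nat_lit 341)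 (nat_lit 640101770837179732689357028)) (.cons (.br (nat_lit 11) (nat_lit 0) (.cons (.ev (nat_lit 2658476512282897700727249417126543363) (nat_lit 2)) (.cons (.ev (nat_lit 2658476512282897700727812358523584513) (nat_lit 2)) (.cons (.ev (nat_lit 5327317257264073725019973132423790599) (nat_lit 3)) (.cons (.ev (nat_lit 2658476512282897700727249417160098307) (nat_lit 2)) (.cons (.ev (nat_lit 2658476512282897700871364596646019073) (nat_lit 2)) .nil)))))) (.cons (.rf (nat_lit 342) (nat_lit 677582165103132179601393696)) (.cons (.rf (nat_lit 342) (nat_lit 640101770837179732689357028)) .nil)))))))) .nil))))))))) .nil))))))))) .nil)),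
 (.br (nat_lit 6) (nat_lit 0) (.cons (.br (nat_lit 8) (nat_lit 0) (.cons (.br (nat_lit 9) (nat_lit 0) (.cons (.br (nat_lit 9) (nat_lit 0) (.cons (.br (nat_lit 11) (nat_lit 1) (.cons (.br (nat_lit 13) (nat_lit 1) (.cons (.rf (nat_lit 229) (nat_lit 17022139836530431231040)) .nil)) .nil)) .nil)) .nil)) (.cons (.br (nat_lit 10) (nat_lit 1) (.cons (.br (nat_lit 9) (nat_lit 0) (.cons (.kr (nat_lit 18447025548686262273) (nat_lit 4722366482873956958208) (nat_lit 0) (nat_lit 1)) (.cons (.br (nat_lit 11) (nat_lit 1) (.cons (.br (nat_lit 13) (nat_lit 1) (.cons (.br (nat_lit 12) (nat_lit 1) (.cons (.rf (nat_lit 230) (nat_lit 16874534289544931543072)) (.cons (.br (nat_lit 13) (nat_lit 0) (.cons (.br (nat_lit 14) (nat_lit 0) (.cons (.kr (nat_lit 5192296858534846075556045015482369) (nat_lit 20282409608374036906821208244224) (nat_lit 0) (nat_lit 1)) .nil)) .nil)) .nil))) .nil)) .nil)) .nil))) (.cons (.br (nat_lit 12) (nat_lit 1) (.cons (.br (nat_lit 9) (nat_lit 0) (.cons (.rf (nat_lit 316) (nat_lit 493858305440582043680)) (.cons (.br (nat_lit 9) (nat_lit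 0) (.cons (.rf (nat_lit 316) (nat_lit 493858305440582043680)) (.cons (.br (nat_lit 11) (nat_lit 1) (.cons (.br (nat_lit 14) (nat_lit 1) (.cons (.br (nat_lit 13) (nat_lit 0) (.cons (.kr (nat_lit 20282409603670117449495937548289) (nat_lit 79228167236630820467500908544) (nat_lit 0) (nat_lit 1)) .nil)) .nil)) (.cons (.br (nat_lit 12) (nat_lit 0) (.cons (.rf (nat_lit 343) (nat_lit 583706118939841765935136)) (.cons (.rf (nat_lit 343) (nat_lit 547107778697602015528992)) .nil))) .nil))) .nil))) .nil))) .nil)) .nil))) .nil))) .nil)),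
 (.br (nat_lit 9) (nat_lit 0) (.cons (.kr (nat_lit 18447025548686262273) (nat_lit 4722366482873956958208) (nat_lit 0) (nat_lit 1)) (.cons (.br (nat_lit 11) (nat_lit 1) (.cons (.br (nat_lit 13) (nat_lit 1) (.cons (.br (nat_lit 12) (nat_lit 1) (.cons (.rf (nat_lit 34) (nat_lit 16831685801126997044550)) (.cons (.br (nat_lit 13) (nat_lit 0) (.cons (.br (nat_lit 14) (nat_lit 0) (.cons (.kr (nat_lit 5192296858534846075556045015482369) (nat_lit 20282409608374036906821208244224) (nat_lit 0) (nat_lit 1)) .nil)) .nil)) .nil))) .nil)) .nil)) .nil))),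
 (.br (nat_lit 5) (nat_lit 0) (.cons (.ev (nat_lit 20362259168222763155107117793283) (nat_lit 2)) (.cons (.ev (nat_lit 20790024445749414546790567765213185) (nat_lit 3)) (.cons (.br (nat_lit 11) (nat_lit 0) (.cons (.ev (nat_lit 20790024445740006417952284709357057) (nat_lit 3)) (.cons (.br (nat_lit 14) (nat_lit 0) (.cons (.ev (nat_lit 1344805045129971357145299804508652032) (nat_lit 2)) (.cons (.rf (nat_lit 1) (nat_lit 582138973104193)) .nil))) .nil))) (.cons (.br (nat_lit 14) (nat_lit 0) (.cons (.br (nat_lit 15) (nat_lit 0) (.cons (.ev (nat_lit 2668860946924672344850550619799420931) (nat_lit 2)) (.cons (.rf (nat_lit 1) (nat_lit 582172454135873)) .nil))) (.cons (.ev (nat_lit 2668860946924681752546473765934989827) (nat_lit 2)) (.cons (.br (nat_lit 11) (nat_lit 0) (.cons (.ev (nat_lit 2668860946924672344850550619799420931) (nat_lit 2)) (.cons (.ev (nat_lit 340282387203658765791499499499545427968) (nat_lit 1)) (.cons (.br (nat_lit 16) (nat_lit 0) (.cons (.ev (nat_lit 2668860946924672344706996174030110723) (nat_lit 2)) (.cons (.ev (nat_lit 340282387203658765791571276713840148480)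 (nat_lit 1)) .nil))) .nil)))) (.cons (.br (nat_lit 15) (nat_lit 0) (.cons (.rf (nat_lit 1) (nat_lit 582139168139329)) (.cons (.br (nat_lit 11) (nat_lit 0) (.cons (.ev (nat_lit 340282367000477324654093131666566414593) (nat_lit 1)) (.cons (.rf (nat_lit 2) (nat_lit 19072089643719829569)) .nil))) (.cons (.ev (nat_lit 2668860946924672344706996174030110723) (nat_lit 2)) .nil)))) .nil))))) .nil))))),
 (.br (nat_lit 2) (nat_lit 0) (.cons (.ev (nat_lit 20362259168222763155107117793283) (nat_lit 2)) (.cons (.ev (nat_lit 20790024445749414546790567765213185) (nat_lit 3)) (.cons (.br (nat_lit 11) (nat_lit 0) (.cons (.ev (nat_lit 20790024445740006417952284642248197) (nat_lit 3)) (.cons (.br (nat_lit 14) (nat_lit 0) (.cons (.ev (nat_lit 1344805045129971357145299804475097602) (nat_lit 2)) (.cons (.rf (nat_lit 1) (nat_lit 582133604400193)) .nil))) .nil))) (.cons (.br (nat_lit 14) (nat_lit 0) (.cons (.br (nat_lit 15) (nat_lit 0) (.cons (.ev (nat_lit 2668860946924672344850550619799420931) (nat_lit 2)) (.cons (.rf (nat_lit 1) (nat_lit 582172450990241)) .nil)))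 (.cons (.ev (nat_lit 2668860946924681752546473765934989827) (nat_lit 2)) (.cons (.br (nat_lit 11) (nat_lit 0) (.cons (.ev (nat_lit 2668860946924672344850550619799420931) (nat_lit 2)) (.cons (.ev (nat_lit 340282387203658765791499499499545427968) (nat_lit 1)) (.cons (.br (nat_lit 16) (nat_lit 0) (.cons (.ev (nat_lit 2668860946924672344706996174030110723) (nat_lit 2)) (.cons (.ev (nat_lit 340282387203658765791571276713840148480) (nat_lit 1)) .nil))) .nil)))) (.cons (.br (nat_lit 15) (nat_lit 0) (.cons (.rf (nat_lit 1) (nat_lit 582139164993697)) (.cons (.br (nat_lit 11) (nat_lit 0) (.cons (.ev (nat_lit 340282367000477324654093131666566414593) (nat_lit 1)) (.cons (.rf (nat_lit 2) (nat_lit 19072089643716683937)) .nil))) (.cons (.ev (nat_lit 2668860946924672344706996174030110723) (nat_lit 2)) .nil)))) .nil))))) .nil))))),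
 (.br (nat_lit 2) (nat_lit 0) (.cons (.ev (nat_lit 10384593719487543861837100566512384) (nat_lit 2)) (.cons (.rf (nat_lit 346) (nat_lit 547072003228062091151392)) (.cons (.rf (nat_lit 347) (nat_lit 391234057802203464209443)) (.cons (.br (nat_lit 5) (nat_lit 0) (.cons (.rf (nat_lit 347) (nat_lit 547072003228062091151392)) (.cons (.rf (nat_lit 346) (nat_lit 391234057802203464209443)) (.cons (.br (nat_lit 11) (nat_lit 0) (.cons (.ev (nat_lit 20362259158814923677515246469633) (nat_lit 2)) (.cons (.ev (nat_lit 340282367000477319913351963416761270528) (nat_lit 1)) (.cons (.br (nat_lit 15) (nat_lit 0) (.cons (.ev (nat_lit 341616807495991522556462936051821904129) (nat_lit 1)) (.cons (.br (nat_lit 16) (nat_lit 0) (.cons (.zr (nat_lit 1361160722878810014748383624576762905600) (nat_lit 13292280037089410520089415953214996481) (nat_lit 16) (nat_lit 11)) .nil)) .nil))) .nil)))) (.cons (.br (nat_lit 11) (nat_lit 0) (.cons (.ev (nat_lit 20362259158814923677515246469633) (nat_lit 2)) (.cons (.br (nat_lit 15) (nat_lit 0) (.cons (.ev (nat_lit 1363819097977195214185595014356660126213)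 (nat_lit 3)) (.cons (.ev (nat_lit 18640366246574170998729503876799662083) (nat_lit 4)) .nil))) (.cons (.br (nat_lit 15) (nat_lit 0) (.cons (.ev (nat_lit 18640366246574170998729503876799662083) (nat_lit 4)) (.cons (.ev (nat_lit 348451833357334427946827694594760302920193) (nat_lit 3)) .nil))) .nil)))) .nil))))) .nil))))),
 (.br (nat_lit 11) (nat_lit 0) (.cons (.rf (nat_lit 346) (nat_lit 547072003228062091151392)) (.cons (.rf (nat_lit 347) (nat_lit 547072003228062091151392)) (.cons (.ev (nat_lit 20362259158814923677515246469633) (nat_lit 2)) (.cons (.br (nat_lit 14) (nat_lit 0) (.cons (.rf (nat_lit 347) (nat_lit 427868173513983138993187)) (.cons (.rf (nat_lit 346) (nat_lit 427868173513983138993187)) (.cons (.ev (nat_lit 2689630293441388555616143288028890117) (nat_lit 3)) (.cons (.br (nat_lit 2) (nat_lit 0) (.cons (.rf (nat_lit 1) (nat_lit 582139140871233)) (.cons (.br (nat_lit 5) (nat_lit 0) (.cons (.ev (nat_lit 340282367000477324654093131666566414593) (nat_lit 1)) (.cons (.br (nat_lit 16) (nat_lit 0) (.cons (.zr (nat_lit 1363798308269662143126565600176621223939)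 (nat_lit 60926456978246983175552366937600) (nat_lit 16) (nat_lit 1)) .nil)) .nil))) (.cons (.br (nat_lit 5) (nat_lit 0) (.cons (.br (nat_lit 16) (nat_lit 0) (.cons (.zr (nat_lit 1363798308269662143126565600176554115079) (nat_lit 60926456978246983175552366937600) (nat_lit 16) (nat_lit 1)) .nil)) (.cons (.ev (nat_lit 87113620372335299700976102545515811438848) (nat_lit 1)) .nil))) .nil)))) .nil))))) .nil)))))]

theorem c18 : chkAll C T R L18 (nat_lit 337) = true := by decide +kernel

theorem l18 : (nat_lit 337) + L18.length = (nat_lit 350) := by decide +kernel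

/-- part of the certificates -/
def L19 : List Prf := [(.br (nat_lit 5) (nat_lit 0) (.cons (.ev (nat_lit 340282367000477319913280186202500104448) (nat_lit 1)) (.cons (.ev (nat_lit 2668860946924672344851113561162908161) (nat_lit 2)) .nil))),
 (.br (nat_lit 11) (nat_lit 0) (.cons (.ev (nat_lit 1339612827190114052406227738873233410) (nat_lit 2)) (.cons (.ev (nat_lit 20362259168222907272494217035777) (nat_lit 2)) (.cons (.br (nat_lit 14) (nat_lit 0) (.cons (.ev (nat_lit 10405113813592923800254445844037635) (nat_lit 2)) (.cons (.rf (nat_lit 2) (nat_lit 19072089643719924801)) .nil))) .nil)))),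
 (.br (nat_lit 7) (nat_lit 0) (.cons (.ev (nat_lit 1339612827190114052405946251011621121) (nat_lit 2)) (.cons (.ev (nat_lit 20362259168222907835435580523011) (nat_lit 2)) (.cons (.br (nat_lit 14) (nat_lit 0) (.cons (.ev (nat_lit 10405113813592923799691487300682241) (nat_lit 2)) (.cons (.rf (nat_lit 76) (nat_lit 19993475971864895907342796)) .nil))) .nil)))),
 (.br (nat_lit 15) (nat_lit 0) (.cons (.ev (nat_lit 340287559218106488023263304935482065153) (nat_lit 1)) .nil)),
 (.br (nat_lit 11) (nat_lit 0) (.cons (.ev (nat_lit 1339612827190114052406227738873233410) (nat_lit 2)) (.cons (.ev (nat_lit 20362259168222907272494250590211) (nat_lit 2)) (.cons (.br (nat_lit 14) (nat_lit 0) (.cons (.ev (nat_lit 10405113813592923800254445844037635) (nat_lit 2)) (.cons (.rf (nat_lit 2) (nat_lit 19072089643716779169)) .nil))) .nil)))),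
 (.br (nat_lit 7) (nat_lit 0) (.cons (.ev (nat_lit 1339612827190114052405946251011621121) (nat_lit 2)) (.cons (.ev (nat_lit 20362259168222907835435614077441) (nat_lit 2)) (.cons (.br (nat_lit 14) (nat_lit 0) (.cons (.ev (nat_lit 10405113813592923799691487300682241) (nat_lit 2)) (.cons (.rf (nat_lit 45) (nat_lit 661218152078460904805411)) .nil))) .nil)))),
 (.br (nat_lit 14) (nat_lit 0) (.cons (.ev (nat_lit 341616807495991517815577368935645839361) (nat_lit 1)) (.cons (.rf (nat_lit 353) (nat_lit 21174442622281864234144803)) .nil))),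
 (.br (nat_lit 15) (nat_lit 0) (.cons (.ev (nat_lit 344270091473114845681799918141640409856) (nat_lit 2)) .nil)),
 (.br (nat_lit 15) (nat_lit 0) (.cons (.ev (nat_lit 340282387203349280763231411452327821313) (nat_lit 1)) .nil)),
 (.br (nat_lit 15) (nat_lit 0) (.cons (.ev (nat_lit 341616787292810076678171564061193404416) (nat_lit 1)) (.cons (.rf (nat_lit 358) (nat_lit 21174441469360359728056352)) .nil))),
 (.br (nat_lit 15) (nat_lit 0) (.cons (.ev (nat_lit 2658476512282897700871364596646019073) (nat_lit 2)) (.cons (.ev (nat_lit 2658476512282897700871364596612464643) (nat_lit 2)) (.cons (.ev (nat_lit 341611594917032864364618561232832561153) (nat_lit 1)) (.cons (.ev (nat_lit 2668860946924672344706996174030110723) (nat_lit 2)) .nil))))),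
 (.br (nat_lit 13) (nat_lit 0) (.cons (.ev (nat_lit 1334420292952940432792504563994198273) (nat_lit 1)) .nil)),
 (.br (nat_lit 15) (nat_lit 0) (.cons (.ev (nat_lit 340287559218106488023263304935498842368) (nat_lit 1)) .nil)),
 (.br (nat_lit 15) (nat_lit 0) (.cons (.rf (nat_lit 362) (nat_lit 21174442622281864334903328)) (.cons (.ev (nat_lit 87113620372335299705716915490979877748736) (nat_lit 1)) .nil))),
 (.br (nat_lit 2) (nat_lit 0) (.cons (.br (nat_lit 14) (nat_lit 0) (.cons (.ev (nat_lit 10405113813592923800254445810483201) (nat_lit 2)) (.cons (.ev (nat_lit 10405113813592923799691487267127811) (nat_lit 2)) (.cons (.ev (nat_lit 7996157523783842195792086122054682117) (nat_lit 3)) (.cons (.br (nat_lit 15) (nat_lit 0) (.cons (.br (nat_lit 11) (nat_lit 0) (.cons (.ev (nat_lit 2668861424157839415662954508016026113) (nat_lit 3)) (.cons (.rf (nat_lit 1) (nat_lit 616223900767297)) .nil))) (.cons (.br (nat_lit 7) (nat_lit 0) (.cons (.ev (nat_lit 2668861424157839415664643366466225159) (nat_lit 3)) (.cons (.rf (nat_lit 1) (nat_lit 616224030790721))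 .nil))) (.cons (.ev (nat_lit 2668860946924672344706996174030110723) (nat_lit 2)) (.cons (.br (nat_lit 7) (nat_lit 0) (.cons (.rf (nat_lit 1) (nat_lit 582169108223041)) (.cons (.br (nat_lit 11) (nat_lit 0) (.cons (.ev (nat_lit 340287579579435978105123998071519248385) (nat_lit 1)) (.cons (.rf (nat_lit 45) (nat_lit 624941476936006464705571)) .nil))) (.cons (.br (nat_lit 11) (nat_lit 0) (.cons (.rf (nat_lit 2) (nat_lit 20188982351309902913)) (.cons (.ev (nat_lit 87113615180117978818394998238141122347008) (nat_lit 1)) .nil))) .nil)))) .nil))))) .nil))))) (.cons (.br (nat_lit 5) (nat_lit 0) (.cons (.br (nat_lit 14) (nat_lit 0) (.cons (.kr (nat_lit 5192297168019837521933159091929344) (nat_lit 1329227995786124798723422788966744064) (nat_lit 1) (nat_lit 0)) (.cons (.br (nat_lit 15) (nat_lit 0) (.cons (.ev (nat_lit 2668860946924672344706996174030110723) (nat_lit 2)) (.cons (.rf (nat_lit 1) (nat_lit 582169041116225)) .nil))) .nil))) (.cons (.br (nat_lit 11) (nat_lit 0) (.cons (.kr (nat_lit 5192297168019837521933159091929344) (nat_lit 1329227995786124798723422788966744064)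 (nat_lit 1) (nat_lit 0)) (.cons (.br (nat_lit 15) (nat_lit 0) (.cons (.ev (nat_lit 2658476512282897700871364596646019073) (nat_lit 2)) (.cons (.rf (nat_lit 1) (nat_lit 582172259195969)) .nil))) .nil))) (.cons (.br (nat_lit 11) (nat_lit 0) (.cons (.ev (nat_lit 31174460325445208057190595925639175) (nat_lit 3)) (.cons (.rf (nat_lit 240) (nat_lit 19889885114778443235559456)) .nil))) (.cons (.br (nat_lit 16) (nat_lit 0) (.cons (.ev (nat_lit 20362259168222907272494217035777) (nat_lit 2)) (.cons (.ev (nat_lit 10405113813592923800254445844037635) (nat_lit 2)) (.cons (.rf (nat_lit 351) (nat_lit 19926519232773908561233952)) (.cons (.br (nat_lit 16) (nat_lit 0) (.cons (.ev (nat_lit 20362259168222907272494217035777) (nat_lit 2)) (.cons (.ev (nat_lit 10405113813592923800254445844037635) (nat_lit 2)) (.cons (.rf (nat_lit 351) (nat_lit 19926519232773908561233952)) .nil)))) .nil))))) .nil))))) (.cons (.br (nat_lit 5) (nat_lit 0) (.cons (.br (nat_lit 14) (nat_lit 0) (.cons (.kr (nat_lit 5192297168019837521933159091929344) (nat_lit 1329227995786124798723422788966744064)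 (nat_lit 1) (nat_lit 0)) (.cons (.br (nat_lit 15) (nat_lit 0) (.cons (.ev (nat_lit 2668860946924672344706996174030110723) (nat_lit 2)) (.cons (.rf (nat_lit 1) (nat_lit 582164746153025)) .nil))) .nil))) (.cons (.br (nat_lit 7) (nat_lit 0) (.cons (.kr (nat_lit 5192297168019837521933159091929344) (nat_lit 1329227995786124798723422788966744064) (nat_lit 1) (nat_lit 0)) (.cons (.br (nat_lit 15) (nat_lit 0) (.cons (.ev (nat_lit 2658476512282897700871364596646019073) (nat_lit 2)) (.cons (.rf (nat_lit 1) (nat_lit 582172255005761)) .nil))) .nil))) (.cons (.br (nat_lit 7) (nat_lit 0) (.cons (.ev (nat_lit 31174460325445208055501737475442177) (nat_lit 3)) (.cons (.rf (nat_lit 242) (nat_lit 19889885114778443235559456)) .nil))) (.cons (.br (nat_lit 16) (nat_lit 0) (.cons (.ev (nat_lit 20362259168222907835435580523011) (nat_lit 2)) (.cons (.ev (nat_lit 10405113813592923799691487300682241) (nat_lit 2)) (.cons (.rf (nat_lit 352) (nat_lit 19926519232773908561233952)) (.cons (.br (nat_lit 16) (nat_lit 0) (.cons (.ev (nat_lit 20362259168222907835435580523011)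 (nat_lit 2)) (.cons (.ev (nat_lit 10405113813592923799691487300682241) (nat_lit 2)) (.cons (.rf (nat_lit 352) (nat_lit 19926519232773908561233952)) .nil)))) .nil))))) .nil))))) (.cons (.br (nat_lit 5) (nat_lit 0) (.cons (.br (nat_lit 11) (nat_lit 0) (.cons (.kr (nat_lit 5192297168019837521933159091929344) (nat_lit 1329227995786124798723422788966744064) (nat_lit 1) (nat_lit 0)) (.cons (.br (nat_lit 15) (nat_lit 0) (.cons (.ev (nat_lit 2658476512282897700871364596612464643) (nat_lit 2)) (.cons (.rf (nat_lit 1) (nat_lit 582164743010369)) .nil))) .nil))) (.cons (.br (nat_lit 7) (nat_lit 0) (.cons (.kr (nat_lit 5192297168019837521933159091929344) (nat_lit 1329227995786124798723422788966744064) (nat_lit 1) (nat_lit 0)) (.cons (.br (nat_lit 15) (nat_lit 0) (.cons (.ev (nat_lit 2658476512282897700871364596612464643) (nat_lit 2)) (.cons (.rf (nat_lit 1) (nat_lit 582169033783361)) .nil))) .nil))) (.cons (.ev (nat_lit 10405113813583442173800559100952577) (nat_lit 2)) (.cons (.br (nat_lit 7) (nat_lit 0) (.cons (.br (nat_lit 15) (nat_lit 0) (.cons (.ev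 (nat_lit 7985773090379988849637523348307181575) (nat_lit 3)) (.cons (.rf (nat_lit 1) (nat_lit 582169098795073)) .nil))) (.cons (.br (nat_lit 11) (nat_lit 0) (.cons (.ev (nat_lit 20362259158815067794902379266051) (nat_lit 2)) (.cons (.rf (nat_lit 1) (nat_lit 582035954808897)) .nil))) (.cons (.br (nat_lit 11) (nat_lit 0) (.cons (.ev (nat_lit 20362259158815067794902379266051) (nat_lit 2)) (.cons (.ev (nat_lit 340282367000477319913351963416761270273) (nat_lit 1)) (.cons (.br (nat_lit 15) (nat_lit 0) (.cons (.ev (nat_lit 1374463306695024130240374465690016549383) (nat_lit 4)) (.cons (.br (nat_lit 16) (nat_lit 0) (.cons (.zr (nat_lit 1363788065652193362069203623044756668928) (nat_lit 31154020692606623265125431339122689) (nat_lit 16) (nat_lit 15)) .nil)) .nil))) .nil)))) (.cons (.br (nat_lit 11) (nat_lit 0) (.cons (.rf (nat_lit 1) (nat_lit 581898650073153)) (.cons (.br (nat_lit 15) (nat_lit 0) (.cons (.ev (nat_lit 1374463306695024130240373339738570100227) (nat_lit 4)) (.cons (.br (nat_lit 16) (nat_lit 0) (.cons (.zr (nat_lit 1361139913204546881183366068488053456903)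 (nat_lit 7975367974716748792340536746685366784) (nat_lit 16) (nat_lit 11)) .nil)) .nil))) (.cons (.br (nat_lit 17) (nat_lit 0) (.cons (.ev (nat_lit 87113615159756341047525143456333726482433) (nat_lit 1)) (.cons (.ev (nat_lit 174224577055897510863526352389246967480833) (nat_lit 2)) .nil))) .nil)))) .nil))))) .nil))))) (.cons (.br (nat_lit 5) (nat_lit 0) (.cons (.br (nat_lit 11) (nat_lit 0) (.cons (.ev (nat_lit 31174460325445208057190595892084737) (nat_lit 3)) (.cons (.rf (nat_lit 244) (nat_lit 19889885114778443235559456)) .nil))) (.cons (.br (nat_lit 7) (nat_lit 0) (.cons (.ev (nat_lit 31174460325445208055501737441887747) (nat_lit 3)) (.cons (.rf (nat_lit 245) (nat_lit 19889885114778443235559456)) .nil))) (.cons (.ev (nat_lit 10405113813583442173800559134507011) (nat_lit 2)) (.cons (.br (nat_lit 7) (nat_lit 0) (.cons (.ev (nat_lit 2658476512282897700871927555189375491) (nat_lit 2)) (.cons (.br (nat_lit 11) (nat_lit 0) (.cons (.ev (nat_lit 20362259158815067794902379266051) (nat_lit 2)) (.cons (.rf (nat_lit 1) (nat_lit 582034881068097)) .nil)))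 (.cons (.br (nat_lit 11) (nat_lit 0) (.cons (.ev (nat_lit 20362259158815067794902379266051) (nat_lit 2)) (.cons (.ev (nat_lit 2658476512282897700871364596646019073) (nat_lit 2)) (.cons (.br (nat_lit 14) (nat_lit 0) (.cons (.ev (nat_lit 341616787292810081418984509525276492033) (nat_lit 1)) (.cons (.rf (nat_lit 246) (nat_lit 20677049694299523027009)) .nil))) .nil)))) (.cons (.br (nat_lit 11) (nat_lit 0) (.cons (.rf (nat_lit 1) (nat_lit 581897576332353)) (.cons (.rf (nat_lit 356) (nat_lit 677582165103132179500635171)) (.cons (.ev (nat_lit 2658476512282897700871364596646019073) (nat_lit 2)) .nil)))) .nil))))) .nil))))) (.cons (.br (nat_lit 5) (nat_lit 0) (.cons (.br (nat_lit 16) (nat_lit 0) (.cons (.ev (nat_lit 20362259168222907272494250590211) (nat_lit 2)) (.cons (.ev (nat_lit 10405113813592923800254445844037635) (nat_lit 2)) (.cons (.rf (nat_lit 354) (nat_lit 19926519232773908561233952)) (.cons (.br (nat_lit 16) (nat_lit 0) (.cons (.ev (nat_lit 20362259168222907272494250590211) (nat_lit 2)) (.cons (.ev (nat_lit 10405113813592923800254445844037635)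 (nat_lit 2)) (.cons (.rf (nat_lit 354) (nat_lit 19926519232773908561233952)) .nil)))) .nil))))) (.cons (.br (nat_lit 16) (nat_lit 0) (.cons (.ev (nat_lit 20362259168222907835435614077441) (nat_lit 2)) (.cons (.ev (nat_lit 10405113813592923799691487300682241) (nat_lit 2)) (.cons (.rf (nat_lit 355) (nat_lit 19926519232773908561233952)) (.cons (.br (nat_lit 16) (nat_lit 0) (.cons (.ev (nat_lit 20362259168222907835435614077441) (nat_lit 2)) (.cons (.ev (nat_lit 10405113813592923799691487300682241) (nat_lit 2)) (.cons (.rf (nat_lit 355) (nat_lit 19926519232773908561233952)) .nil)))) .nil))))) (.cons (.br (nat_lit 7) (nat_lit 0) (.cons (.br (nat_lit 15) (nat_lit 0) (.cons (.ev (nat_lit 7985773090379988849637523348273627137) (nat_lit 3)) (.cons (.rf (nat_lit 1) (nat_lit 582169095649441)) .nil))) (.cons (.br (nat_lit 11) (nat_lit 0) (.cons (.ev (nat_lit 20362259158815067794902379266051) (nat_lit 2)) (.cons (.rf (nat_lit 1) (nat_lit 582035951663265)) .nil))) (.cons (.br (nat_lit 11) (nat_lit 0) (.cons (.ev (nat_lit 20362259158815067794902379266051)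 (nat_lit 2)) (.cons (.ev (nat_lit 340282367000477319913351963416778047488) (nat_lit 1)) (.cons (.br (nat_lit 15) (nat_lit 0) (.cons (.ev (nat_lit 1374463306695024130240374465689949440523) (nat_lit 4)) (.cons (.br (nat_lit 16) (nat_lit 0) (.cons (.zr (nat_lit 1363787924071466916114502653966110818816) (nat_lit 31174065417727399168505784349753347) (nat_lit 16) (nat_lit 10)) .nil)) .nil))) .nil)))) (.cons (.br (nat_lit 11) (nat_lit 0) (.cons (.rf (nat_lit 1) (nat_lit 581898646927521)) (.cons (.br (nat_lit 15) (nat_lit 0) (.cons (.ev (nat_lit 1374463306695024130240373339738502991367) (nat_lit 4)) (.cons (.br (nat_lit 16) (nat_lit 0) (.cons (.zr (nat_lit 1363787924071466916114501528070498944512) (nat_lit 31174065417727399168505771464851463) (nat_lit 16) (nat_lit 10)) .nil)) .nil))) (.cons (.br (nat_lit 17) (nat_lit 0) (.cons (.ev (nat_lit 87113615159756341047525143456333726482433) (nat_lit 1)) (.cons (.ev (nat_lit 174224577055897510863526352389246950703618) (nat_lit 2)) .nil))) .nil)))) .nil))))) (.cons (.br (nat_lit 7) (nat_lit 0) (.cons (.ev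 (nat_lit 2658476512282897700871927555155821057) (nat_lit 2)) (.cons (.br (nat_lit 11) (nat_lit 0) (.cons (.ev (nat_lit 20362259158815067794902379266051) (nat_lit 2)) (.cons (.rf (nat_lit 1) (nat_lit 582034877922465)) .nil))) (.cons (.br (nat_lit 11) (nat_lit 0) (.cons (.ev (nat_lit 20362259158815067794902379266051) (nat_lit 2)) (.cons (.ev (nat_lit 2658476512282897700871364596612464643) (nat_lit 2)) (.cons (.br (nat_lit 14) (nat_lit 0) (.cons (.ev (nat_lit 341616787292810081418984509525276492033) (nat_lit 1)) (.cons (.br (nat_lit 16) (nat_lit 0) (.cons (.ev (nat_lit 340287559217798211939189236530740789505) (nat_lit 1)) .nil)) .nil))) .nil)))) (.cons (.br (nat_lit 11) (nat_lit 0) (.cons (.rf (nat_lit 1) (nat_lit 581897573186721)) (.cons (.rf (nat_lit 356) (nat_lit 677582165103132179601393696)) (.cons (.ev (nat_lit 2658476512282897700871364596612464643) (nat_lit 2)) .nil)))) .nil))))) (.cons (.br (nat_lit 14) (nat_lit 0) (.cons (.ev (nat_lit 10405113813592923800254445844037635) (nat_lit 2)) (.cons (.ev (nat_lit 10405113813592923799691487300682241)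 (nat_lit 2)) (.cons (.br (nat_lit 7) (nat_lit 0) (.cons (.ev (nat_lit 10404957216605214110704284576514049) (nat_lit 3)) (.cons (.ev (nat_lit 1379780218361256016935781740527040727563) (nat_lit 4)) (.cons (.br (nat_lit 11) (nat_lit 0) (.cons (.ev (nat_lit 1379780218361256016935780614644313755143) (nat_lit 4)) (.cons (.rf (nat_lit 357) (nat_lit 21174441469360359728056352)) .nil))) .nil)))) (.cons (.ev (nat_lit 340287579579435978105124279542200992000) (nat_lit 1)) (.cons (.br (nat_lit 15) (nat_lit 0) (.cons (.br (nat_lit 16) (nat_lit 0) (.cons (.ev (nat_lit 340282387203658761050758331249740283905) (nat_lit 1)) (.cons (.ev (nat_lit 681904346669067040979154879643832746498) (nat_lit 2)) .nil))) (.cons (.br (nat_lit 16) (nat_lit 0) (.cons (.ev (nat_lit 340282387203658761050758049770468606208) (nat_lit 1)) (.cons (.ev (nat_lit 681904346669067040979155724073057846017) (nat_lit 2)) .nil))) (.cons (.br (nat_lit 7) (nat_lit 0) (.cons (.ev (nat_lit 341611615278670635234473343040245202945) (nat_lit 1)) (.cons (.br (nat_lit 11) (nat_lit 0) (.cons (.ev (nat_lit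 341611594917032864364618842703497527553) (nat_lit 1)) .nil)) .nil))) (.cons (.ev (nat_lit 2668860946924672344706996174030110723) (nat_lit 2)) .nil))))) .nil)))))) (.cons (.br (nat_lit 7) (nat_lit 0) (.cons (.br (nat_lit 14) (nat_lit 0) (.cons (.ev (nat_lit 5348086126547632273387980945285448709) (nat_lit 3)) (.cons (.br (nat_lit 16) (nat_lit 0) (.cons (.ev (nat_lit 2668860946924672344706996174030110723) (nat_lit 2)) (.cons (.ev (nat_lit 340282367000477319913351963416778047488) (nat_lit 1)) .nil))) (.cons (.br (nat_lit 17) (nat_lit 0) (.cons (.ev (nat_lit 2668860946924672344706996174030110723) (nat_lit 2)) (.cons (.ev (nat_lit 87112285931839785503073876858517655191553) (nat_lit 1)) .nil))) .nil)))) (.cons (.br (nat_lit 11) (nat_lit 0) (.cons (.ev (nat_lit 2658476512282907182498381441865351681) (nat_lit 2)) (.cons (.br (nat_lit 15) (nat_lit 0) (.cons (.ev (nat_lit 341616787292810076678171564061193404416) (nat_lit 1)) (.cons (.br (nat_lit 16) (nat_lit 0) (.cons (.ev (nat_lit 341611594917032869068538300028751446016) (nat_lit 1)) .nil)) .nil)))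 (.cons (.br (nat_lit 15) (nat_lit 0) (.cons (.rf (nat_lit 253) (nat_lit 21173298886962711579691040)) (.cons (.ev (nat_lit 87113620372335299705716915490979877748736) (nat_lit 1)) .nil))) .nil)))) (.cons (.br (nat_lit 11) (nat_lit 0) (.cons (.ev (nat_lit 2658476512282907182497818483321995267) (nat_lit 2)) (.cons (.br (nat_lit 14) (nat_lit 0) (.cons (.ev (nat_lit 1371773697559220878484812041958266503687) (nat_lit 4)) (.cons (.br (nat_lit 16) (nat_lit 0) (.cons (.zr (nat_lit 1361139953690137911879129543524961223171) (nat_lit 7975368053944916028971357201284595712) (nat_lit 16) (nat_lit 11)) .nil)) .nil))) (.cons (.br (nat_lit 14) (nat_lit 0) (.cons (.br (nat_lit 16) (nat_lit 0) (.cons (.zr (nat_lit 1361139994254957119219364442516819542533) (nat_lit 7975368212401250502232998136269635584) (nat_lit 16) (nat_lit 11)) .nil)) (.cons (.ev (nat_lit 348459787956916453611126911622361775079947) (nat_lit 4)) .nil))) .nil)))) (.cons (.br (nat_lit 11) (nat_lit 0) (.cons (.rf (nat_lit 359) (nat_lit 677582165103132179601393696)) (.cons (.br (nat_lit 14) (nat_lit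 0) (.cons (.ev (nat_lit 1371773697559220878484815419675166901763) (nat_lit 4)) (.cons (.br (nat_lit 16) (nat_lit 0) (.cons (.zr (nat_lit 1361139953690137911879128136171552507904) (nat_lit 7975368053944916028971638671966339075) (nat_lit 16) (nat_lit 7)) .nil)) .nil))) (.cons (.br (nat_lit 14) (nat_lit 0) (.cons (.ev (nat_lit 1371836004169547387168569987972422699527) (nat_lit 4)) (.cons (.rf (nat_lit 360) (nat_lit 677582165103132179601393696)) .nil))) (.cons (.br (nat_lit 15) (nat_lit 0) (.cons (.ev (nat_lit 1344865971586935418652648111283044865) (nat_lit 2)) (.cons (.rf (nat_lit 256) (nat_lit 21173298886962711579691040)) (.cons (.rf (nat_lit 361) (nat_lit 21174442622281864334903328)) .nil)))) .nil))))) (.cons (.br (nat_lit 11) (nat_lit 0) (.cons (.rf (nat_lit 363) (nat_lit 677582165103132179601393696)) (.cons (.br (nat_lit 14) (nat_lit 0) (.cons (.br (nat_lit 16) (nat_lit 0) (.cons (.zr (nat_lit 1363787984601783081697927881318939623431) (nat_lit 31153783008119025131598954635461632) (nat_lit 16) (nat_lit 2)) .nil)) (.cons (.ev (nat_lit 348459787956916453611126915000078675478023)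 (nat_lit 4)) .nil))) (.cons (.br (nat_lit 15) (nat_lit 0) (.cons (.ev (nat_lit 1344865971586935418652648111283044865) (nat_lit 2)) (.cons (.rf (nat_lit 361) (nat_lit 20003295734530192221148195)) (.cons (.br (nat_lit 14) (nat_lit 0) (.cons (.ev (nat_lit 341611594917032869068538300028751446016) (nat_lit 1)) .nil)) .nil)))) (.cons (.br (nat_lit 14) (nat_lit 0) (.cons (.ev (nat_lit 348459850263526780119810669568375931275787) (nat_lit 4)) (.cons (.rf (nat_lit 360) (nat_lit 640105464695078675185502240)) .nil))) .nil))))) .nil)))))) .nil))))))) .nil)))))))]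

theorem c19 : chkAll C T R L19 (nat_lit 350) = true := by decide +kernel

theorem l19 : (nat_lit 350) + L19.length = (nat_lit 365) := by decide +kernel

/-- part of the certificates -/
def L20 : List Prf := [(.br (nat_lit 11) (nat_lit 0) (.cons (.ev (nat_lit 10405113813592923943804476319596547) (nat_lit 2)) (.cons (.br (nat_lit 14) (nat_lit 0) (.cons (.kr (nat_lit 10384594336039675043866318200635393) (nat_lit 20361637770906748269963421680128) (nat_lit 0) (nat_lit 2)) (.cons (.rf (nat_lit 1) (nat_lit 582139163879650)) .nil))) (.cons (.br (nat_lit 14) (nat_lit 0) (.cons (.kr (nat_lit 10384594336039675043866318200635393) (nat_lit 20361637770906748269963421680128) (nat_lit 0) (nat_lit 2)) (.cons (.ev (nat_lit 340287559217798207235269779205486870528) (nat_lit 1)) (.cons (.br (nat_lit 15) (nat_lit 0) (.cons (.ev (nat_lit 341611594917032864364546504738306326785) (nat_lit 1)) (.cons (.ev (nat_lit 2668860946924672344706996174030110723) (nat_lit 2)) .nil))) .nil)))) (.cons (.br (nat_lit 14) (nat_lit 0) (.cons (.rf (nat_lit 1) (nat_lit 582036185327842))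 (.cons (.br (nat_lit 15) (nat_lit 0) (.cons (.ev (nat_lit 2668860946924672344706996174030110723) (nat_lit 2)) (.cons (.br (nat_lit 16) (nat_lit 0) (.cons (.ev (nat_lit 341616787292810081419056568218842890240) (nat_lit 1)) .nil)) .nil))) (.cons (.br (nat_lit 15) (nat_lit 0) (.cons (.rf (nat_lit 2) (nat_lit 19072089643715569890)) (.cons (.ev (nat_lit 2668860946924672344706996174030110723) (nat_lit 2)) .nil))) .nil)))) .nil))))),
 (.br (nat_lit 11) (nat_lit 0) (.cons (.kr (nat_lit 1329227995786124798723421689455050752) (nat_lit 5192297168019837449875565054001152) (nat_lit 10) (nat_lit 0)) (.cons (.ev (nat_lit 340282367000477319913351963416761270528) (nat_lit 1)) (.cons (.br (nat_lit 15) (nat_lit 0) (.cons (.ev (nat_lit 341616807495991522556462936051821904129) (nat_lit 1)) (.cons (.ev (nat_lit 2658476512282897700871364596646019587) (nat_lit 2)) .nil))) .nil)))),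
 (.br (nat_lit 11) (nat_lit 0) (.cons (.ev (nat_lit 31174460325445208345416573963469317) (nat_lit 3)) (.cons (.ev (nat_lit 1363787944038206678545570782359052354049) (nat_lit 3)) (.cons (.br (nat_lit 14) (nat_lit 0) (.cons (.ev (nat_lit 1369125625207537705605136293793892663809) (nat_lit 3)) (.cons (.ev (nat_lit 5192377017579686248181445051810562) (nat_lit 2)) .nil))) .nil)))),
 (.br (nat_lit 11) (nat_lit 0) (.cons (.ev (nat_lit 1361139872640970468623023690110250254849) (nat_lit 3)) (.cons (.ev (nat_lit 340282367000477324654165471839404491009) (nat_lit 1)) (.cons (.br (nat_lit 14) (nat_lit 0) (.cons (.ev (nat_lit 340287579579435973401204540746282106880) (nat_lit 1)) (.cons (.ev (nat_lit 680569987145351475378497665805714587907) (nat_lit 2)) .nil))) .nil)))),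
 (.br (nat_lit 14) (nat_lit 0) (.cons (.kr (nat_lit 1329227995786124798723421689455050752) (nat_lit 5192297168019837449875565054001152) (nat_lit 10) (nat_lit 0)) (.cons (.br (nat_lit 15) (nat_lit 0) (.cons (.ev (nat_lit 2668860946924672344706996174030110723) (nat_lit 2)) (.cons (.rf (nat_lit 295) (nat_lit 20673409480546091245633)) .nil))) (.cons (.br (nat_lit 15) (nat_lit 0) (.cons (.rf (nat_lit 295) (nat_lit 20672293713739483914305)) (.cons (.ev (nat_lit 2668860946924672344706996174030110723) (nat_lit 2)) .nil))) .nil)))),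
 (.br (nat_lit 15) (nat_lit 0) (.cons (.ev (nat_lit 2658476512282897700871364596646019073) (nat_lit 2)) (.cons (.ev (nat_lit 2658476512282897700871364596612464643) (nat_lit 2)) (.cons (.ev (nat_lit 2658476512282897700871364596646019587) (nat_lit 2)) (.cons (.ev (nat_lit 87113615180117978818394998238141122347008) (nat_lit 1)) .nil))))),
 (.br (nat_lit 14) (nat_lit 0) (.cons (.ev (nat_lit 5192377017579686248181445051809793) (nat_lit 2)) (.cons (.ev (nat_lit 5192377017579686248181445035032578) (nat_lit 2)) (.cons (.ev (nat_lit 5192377017579686248181445051810562) (nat_lit 2)) (.cons (.ev (nat_lit 348457150269634475452970682354288291741701) (nat_lit 3)) .nil))))),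
 (.br (nat_lit 11) (nat_lit 0) (.cons (.ev (nat_lit 1365574391641818937338098300840050694) (nat_lit 3)) (.cons (.br (nat_lit 14) (nat_lit 0) (.cons (.ev (nat_lit 1369136010277242720328294547906611119109) (nat_lit 3)) (.cons (.ev (nat_lit 2663709136585646762121124166158516481) (nat_lit 2)) .nil))) (.cons (.rf (nat_lit 371) (nat_lit 677582165103132179601393696)) .nil)))),
 (.br (nat_lit 14) (nat_lit 0) (.cons (.rf (nat_lit 372) (nat_lit 677545530987420399926609952)) (.cons (.rf (nat_lit 369) (nat_lit 677426327157706320974451747)) (.cons (.ev (nat_lit 340287579579435978105124279542200992000) (nat_lit 1)) (.cons (.ev (nat_lit 10405113813592923944367434862952961) (nat_lit 2)) .nil))))),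
 (.br (nat_lit 11) (nat_lit 0) (.cons (.ev (nat_lit 1339612827190114052622397222451938050) (nat_lit 2)) (.cons (.ev (nat_lit 20362259168222763155107117793793) (nat_lit 2)) (.cons (.br (nat_lit 14) (nat_lit 0) (.cons (.ev (nat_lit 10405113813592923944367434896507395) (nat_lit 2)) (.cons (.rf (nat_lit 2) (nat_lit 19072089643715635362)) .nil))) .nil)))),
 (.br (nat_lit 16) (nat_lit 0) (.cons (.ev (nat_lit 20362259168222763155107117793793) (nat_lit 2)) (.cons (.ev (nat_lit 10405113813592923944367434896507395) (nat_lit 2)) (.cons (.rf (nat_lit 374) (nat_lit 19926519232773908561233952)) (.cons (.br (nat_lit 16) (nat_lit 0) (.cons (.ev (nat_lit 20362259168222763155107117793793) (nat_lit 2)) (.cons (.ev (nat_lit 10405113813592923944367434896507395) (nat_lit 2)) (.cons (.rf (nat_lit 374) (nat_lit 19926519232773908561233952)) .nil)))) .nil))))),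
 (.br (nat_lit 10) (nat_lit 0) (.cons (.ev (nat_lit 5192377017579686248181445035032833) (nat_lit 2)) (.cons (.ev (nat_lit 20362259168222763155107151347713) (nat_lit 2)) (.cons (.br (nat_lit 15) (nat_lit 0) (.cons (.ev (nat_lit 2658476512282897700871364596646019073) (nat_lit 2)) (.cons (.rf (nat_lit 2) (nat_lit 19076593101508425890)) .nil))) .nil)))),
 (.br (nat_lit 16) (nat_lit 0) (.cons (.ev (nat_lit 10405113813592923944367434896507395) (nat_lit 2)) (.cons (.rf (nat_lit 376) (nat_lit 19926519232773908561233952)) (.cons (.ev (nat_lit 2668860946924672344706996174063665667) (nat_lit 2)) (.cons (.br (nat_lit 16) (nat_lit 0) (.cons (.ev (nat_lit 10405113813592923944367434896507395) (nat_lit 2)) (.cons (.rf (nat_lit 376) (nat_lit 19926519232773908561233952)) (.cons (.ev (nat_lit 2668860946924672344706996174063665667) (nat_lit 2)) .nil)))) .nil))))),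
 (.br (nat_lit 11) (nat_lit 0) (.cons (.kr (nat_lit 1329227995786124798723421689455050752) (nat_lit 5192297168019837449875565054001152) (nat_lit 10) (nat_lit 0)) (.cons (.ev (nat_lit 340282367000477319913351963416761270528) (nat_lit 1)) (.cons (.br (nat_lit 15) (nat_lit 0) (.cons (.ev (nat_lit 341616807495991522556462936051821904129) (nat_lit 1)) (.cons (.ev (nat_lit 2658476512282897700871364596646019073) (nat_lit 2)) .nil))) .nil)))),
 (.br (nat_lit 11) (nat_lit 0) (.cons (.ev (nat_lit 31174460325445208345416573963468807) (nat_lit 3)) (.cons (.ev (nat_lit 1363787944038206678545570782359052354567) (nat_lit 3)) (.cons (.br (nat_lit 14) (nat_lit 0) (.cons (.ev (nat_lit 1369125625207537705605136293793892664327) (nat_lit 3)) (.cons (.ev (nat_lit 5192377017579686248181445051809793) (nat_lit 2)) .nil))) .nil)))),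
 (.br (nat_lit 11) (nat_lit 0) (.cons (.ev (nat_lit 1361139872640970468623023690110250255367) (nat_lit 3)) (.cons (.ev (nat_lit 340282367000477324654165471839404491009) (nat_lit 1)) (.cons (.br (nat_lit 14) (nat_lit 0) (.cons (.ev (nat_lit 340287579579435973401204540746282107137) (nat_lit 1)) (.cons (.ev (nat_lit 680569987145351475378497665805714588162) (nat_lit 2)) .nil))) .nil)))),
 (.br (nat_lit 16) (nat_lit 0) (.cons (.ev (nat_lit 2668860946924672344706996174030110723) (nat_lit 2)) (.cons (.ev (nat_lit 340287559217798207235269779205470093313) (nat_lit 1)) .nil))),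
 (.br (nat_lit 11) (nat_lit 0) (.cons (.kr (nat_lit 1329227995786124798723421689455050752) (nat_lit 5192297168019837449875565054001152) (nat_lit 10) (nat_lit 0)) (.cons (.br (nat_lit 16) (nat_lit 0) (.cons (.ev (nat_lit 2658476512282897700871364596646019073) (nat_lit 2)) (.cons (.ev (nat_lit 340282367000477319913351963416778047488) (nat_lit 1)) .nil))) (.cons (.br (nat_lit 17) (nat_lit 0) (.cons (.ev (nat_lit 2658476512282897700871364596646019073) (nat_lit 2)) (.cons (.ev (nat_lit 87112285931839785503073804799824122347776) (nat_lit 1)) .nil))) .nil)))),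
 (.br (nat_lit 11) (nat_lit 0) (.cons (.ev (nat_lit 31174460325445208345416573963468807) (nat_lit 3)) (.cons (.br (nat_lit 16) (nat_lit 0) (.cons (.ev (nat_lit 5192377017579686248181445051809793) (nat_lit 2)) (.cons (.ev (nat_lit 1363787944038206678545570782359119462407) (nat_lit 3)) .nil))) (.cons (.br (nat_lit 17) (nat_lit 0) (.cons (.ev (nat_lit 5192377017579686248181445051809793) (nat_lit 2)) (.cons (.ev (nat_lit 348451802203395439411187382127988496663559) (nat_lit 3)) .nil))) .nil)))),
 (.br (nat_lit 16) (nat_lit 0) (.cons (.ev (nat_lit 340287579579435973401204540746265329665) (nat_lit 1)) .nil)),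
 (.br (nat_lit 11) (nat_lit 0) (.cons (.rf (nat_lit 383) (nat_lit 677545530987420399926609952)) (.cons (.rf (nat_lit 382) (nat_lit 677545530987420399926609952)) (.cons (.ev (nat_lit 20362259168222763155107151347713) (nat_lit 2)) (.cons (.br (nat_lit 14) (nat_lit 0) (.cons (.rf (nat_lit 384) (nat_lit 677582165103132179601393696)) (.cons (.ev (nat_lit 10405113813592923944367434862952451) (nat_lit 2)) (.cons (.ev (nat_lit 87112285952042966948952024394600439349505) (nat_lit 1)) .nil)))) .nil))))),
 (.br (nat_lit 5) (nat_lit 0) (.cons (.rf (nat_lit 375) (nat_lit 19926519232773908561233952)) (.cons (.rf (nat_lit 375) (nat_lit 19889885117062128886450208)) (.cons (.rf (nat_lit 377) (nat_lit 19926519232773908561233952)) (.cons (.rf (nat_lit 377) (nat_lit 19889885117062128886450208)) (.cons (.br (nat_lit 10) (nat_lit 0) (.cons (.br (nat_lit 14) (nat_lit 0) (.cons (.kr (nat_lit 1329227995786124798723421689455050752) (nat_lit 5192297168019837449875565054001152) (nat_lit 10) (nat_lit 0)) (.cons (.ev (nat_lit 340287559217798207235269779205486870785) (nat_lit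 1)) (.cons (.br (nat_lit 15) (nat_lit 0) (.cons (.ev (nat_lit 341611615278670635234401005075020448000) (nat_lit 1)) (.cons (.ev (nat_lit 2668860946924672344706996174030110723) (nat_lit 2)) .nil))) .nil)))) (.cons (.rf (nat_lit 378) (nat_lit 19926519232773908561233952)) (.cons (.rf (nat_lit 379) (nat_lit 19926519232773908561233952)) (.cons (.rf (nat_lit 380) (nat_lit 19926519232773908561233952)) (.cons (.br (nat_lit 11) (nat_lit 0) (.cons (.rf (nat_lit 379) (nat_lit 19889885117062128886450208)) (.cons (.rf (nat_lit 378) (nat_lit 19889885117062128886450208)) (.cons (.rf (nat_lit 380) (nat_lit 19889885117062128886450208)) (.cons (.ev (nat_lit 20362259168222763155107151347713) (nat_lit 2)) .nil))))) .nil)))))) (.cons (.br (nat_lit 10) (nat_lit 0) (.cons (.br (nat_lit 14) (nat_lit 0) (.cons (.kr (nat_lit 1329227995786124798723421689455050752) (nat_lit 5192297168019837449875565054001152) (nat_lit 10) (nat_lit 0)) (.cons (.rf (nat_lit 381) (nat_lit 677582165103132179601393696)) (.cons (.br (nat_lit 15) (nat_lit 0) (.cons (.rf (nat_lit 381) (nat_lit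 677545530987420399926609952)) (.cons (.ev (nat_lit 2668860946924672344706996174030110723) (nat_lit 2)) .nil))) .nil)))) (.cons (.rf (nat_lit 382) (nat_lit 677582165103132179601393696)) (.cons (.rf (nat_lit 383) (nat_lit 677582165103132179601393696)) (.cons (.rf (nat_lit 385) (nat_lit 677582165103132179601393696)) (.cons (.br (nat_lit 11) (nat_lit 0) (.cons (.rf (nat_lit 383) (nat_lit 677545530987420399926609952)) (.cons (.rf (nat_lit 382) (nat_lit 677545530987420399926609952)) (.cons (.rf (nat_lit 385) (nat_lit 677545530987420399926609952)) (.cons (.ev (nat_lit 20362259168222763155107151347713) (nat_lit 2)) .nil))))) .nil)))))) .nil))))))),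
 (.br (nat_lit 11) (nat_lit 0) (.cons (.ev (nat_lit 1339612827190114052622397222418383106) (nat_lit 2)) (.cons (.ev (nat_lit 20362259168222763155107151348227) (nat_lit 2)) (.cons (.br (nat_lit 16) (nat_lit 0) (.cons (.ev (nat_lit 10405113813592923944367434862952451) (nat_lit 2)) (.cons (.ev (nat_lit 341611615278670635234401005075020448000) (nat_lit 1)) .nil))) .nil)))),
 (.br (nat_lit 16) (nat_lit 0) (.cons (.ev (nat_lit 10405113813592923944367434862952451) (nat_lit 2)) (.cons (.ev (nat_lit 20362259168222763155107151348227) (nat_lit 2)) (.cons (.ev (nat_lit 2668860946924672344706996174030110723) (nat_lit 2)) (.cons (.ev (nat_lit 340287559217798207235269497734788349953) (nat_lit 1)) .nil))))),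
 (.br (nat_lit 15) (nat_lit 0) (.cons (.ev (nat_lit 1329248278195733172760329610174988545) (nat_lit 1)) .nil)),
 (.br (nat_lit 5) (nat_lit 0) (.cons (.rf (nat_lit 386) (nat_lit 19770681287348049934292003)) (.cons (.ev (nat_lit 20362259168222763155107117793283) (nat_lit 2)) (.cons (.br (nat_lit 16) (nat_lit 0) (.cons (.ev (nat_lit 10405113813592923944367434896507395) (nat_lit 2)) (.cons (.ev (nat_lit 20362259168222763155107151348227) (nat_lit 2)) (.cons (.ev (nat_lit 2668860946924672344706996174063665667) (nat_lit 2)) (.cons (.br (nat_lit 16) (nat_lit 0) (.cons (.ev (nat_lit 10405113813592923944367434896507395) (nat_lit 2)) (.cons (.ev (nat_lit 20362259168222763155107151348227) (nat_lit 2)) (.cons (.ev (nat_lit 2668860946924672344706996174063665667) (nat_lit 2)) .nil)))) .nil))))) (.cons (.br (nat_lit 16) (nat_lit 0) (.cons (.rf (nat_lit 387) (nat_lit 19926519232773908561233952)) (.cons (.ev (nat_lit 20362259168222763155107151348227) (nat_lit 2)) (.cons (.ev (nat_lit 2668860946924672344706996174063665667) (nat_lit 2)) (.cons (.br (nat_lit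 16) (nat_lit 0) (.cons (.rf (nat_lit 387) (nat_lit 19926519232773908561233952)) (.cons (.ev (nat_lit 20362259168222763155107151348227) (nat_lit 2)) (.cons (.ev (nat_lit 2668860946924672344706996174063665667) (nat_lit 2)) .nil)))) .nil))))) (.cons (.br (nat_lit 16) (nat_lit 0) (.cons (.br (nat_lit 11) (nat_lit 0) (.cons (.ev (nat_lit 1361139872640970468623023690110250254849) (nat_lit 3)) (.cons (.ev (nat_lit 340282367000477324654165471839404491009) (nat_lit 1)) (.cons (.br (nat_lit 14) (nat_lit 0) (.cons (.ev (nat_lit 340287579579435973401204540746282106880) (nat_lit 1)) (.cons (.ev (nat_lit 680569987145351475378497665805714587907) (nat_lit 2)) .nil))) .nil)))) (.cons (.ev (nat_lit 20362259168222763155107151348227) (nat_lit 2)) (.cons (.ev (nat_lit 340287559217798207235269497734805127425) (nat_lit 1)) (.cons (.br (nat_lit 7) (nat_lit 0) (.cons (.ev (nat_lit 341611594917032864364546786208988070145) (nat_lit 1)) (.cons (.ev (nat_lit 340287559217798211939189236530724012033) (nat_lit 1)) (.cons (.br (nat_lit 11) (nat_lit 0) (.cons (.ev (nat_lit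 1363798329107911664897638339964964177409) (nat_lit 3)) (.cons (.ev (nat_lit 2658476512282897700871364596646019587) (nat_lit 2)) .nil))) .nil)))) (.cons (.br (nat_lit 7) (nat_lit 0) (.cons (.br (nat_lit 14) (nat_lit 0) (.cons (.kr (nat_lit 20361637770906748269963421679617) (nat_lit 2658455991572249597590958567002734592) (nat_lit 0) (nat_lit 1)) (.cons (.br (nat_lit 15) (nat_lit 0) (.cons (.ev (nat_lit 2668860946924672344706996174030110723) (nat_lit 2)) .nil)) .nil))) (.cons (.br (nat_lit 11) (nat_lit 0) (.cons (.kr (nat_lit 20361637770906748269963421679617) (nat_lit 2658455991572249597590958567002734592) (nat_lit 0) (nat_lit 1)) (.cons (.ev (nat_lit 340282367000477319913352244896032948225) (nat_lit 1)) .nil))) (.cons (.br (nat_lit 14) (nat_lit 0) (.cons (.ev (nat_lit 2658476512282907182497818483321995267) (nat_lit 2)) (.cons (.ev (nat_lit 341616787292810076678243341275471347713) (nat_lit 1)) .nil))) (.cons (.br (nat_lit 14) (nat_lit 0) (.cons (.ev (nat_lit 340282367000477319913352244896032948225) (nat_lit 1)) (.cons (.br (nat_lit 11) (nat_lit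 0) (.cons (.ev (nat_lit 341611594917032869068466525004906954753) (nat_lit 1)) .nil)) (.cons (.ev (nat_lit 10405113813592923944367434862952451) (nat_lit 2)) .nil)))) .nil))))) .nil)))))) (.cons (.br (nat_lit 11) (nat_lit 0) (.cons (.br (nat_lit 14) (nat_lit 0) (.cons (.kr (nat_lit 20361637770906748269963421679617) (nat_lit 2658455991572249597590958567002734592) (nat_lit 0) (nat_lit 1)) (.cons (.rf (nat_lit 388) (nat_lit 677582165103132179601393696)) (.cons (.br (nat_lit 17) (nat_lit 0) (.cons (.ev (nat_lit 2668860946924672344706996174030110723) (nat_lit 2)) (.cons (.ev (nat_lit 87112291124057106390395866730800890249473) (nat_lit 1)) .nil))) .nil)))) (.cons (.br (nat_lit 7) (nat_lit 0) (.cons (.ev (nat_lit 2658476512282907182497818483321995267) (nat_lit 2)) (.cons (.br (nat_lit 16) (nat_lit 0) (.cons (.ev (nat_lit 1339612827190114052622397222435160066) (nat_lit 2)) (.cons (.ev (nat_lit 1361139872640970468623023690110317364737) (nat_lit 3)) .nil))) (.cons (.br (nat_lit 15) (nat_lit 0) (.cons (.br (nat_lit 16) (nat_lit 0) (.cons (.ev (nat_lit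 1363798329107911664897638339964897067521) (nat_lit 3)) .nil)) (.cons (.ev (nat_lit 87112291144418744156561801210871003742208) (nat_lit 1)) .nil))) .nil)))) (.cons (.br (nat_lit 14) (nat_lit 0) (.cons (.kr (nat_lit 20361637770906748269963421679617) (nat_lit 2658455991572249597590958567002734592) (nat_lit 0) (nat_lit 1)) (.cons (.rf (nat_lit 388) (nat_lit 677582165103132179601393696)) (.cons (.br (nat_lit 7) (nat_lit 0) (.cons (.rf (nat_lit 298) (nat_lit 21169572723391689161705700)) (.cons (.ev (nat_lit 10405113813592923944367434862952451) (nat_lit 2)) .nil))) .nil)))) (.cons (.ev (nat_lit 20362259168222763155107151348227) (nat_lit 2)) (.cons (.br (nat_lit 14) (nat_lit 0) (.cons (.br (nat_lit 15) (nat_lit 0) (.cons (.br (nat_lit 16) (nat_lit 0) (.cons (.ev (nat_lit 340287559217798211939189236530740789505) (nat_lit 1)) .nil)) (.cons (.ev (nat_lit 87113620372335299705716915490979877748736) (nat_lit 1)) .nil))) (.cons (.br (nat_lit 7) (nat_lit 0) (.cons (.rf (nat_lit 389) (nat_lit 21174441469360359728056352)) (.cons (.ev (nat_lit 87112291144418744156561801210871003742208)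 (nat_lit 1)) .nil))) (.cons (.rf (nat_lit 388) (nat_lit 677582165103132179601393696)) (.cons (.ev (nat_lit 87112285952042966948952024394600439349248) (nat_lit 1)) .nil))))) .nil)))))) .nil)))))))]

theorem c20 : chkAll C T R L20 (nat_lit 365) = true := by decide +kernel

theorem l20 : (nat_lit 365) + L20.length = (nat_lit 391) := by decide +kernel

/-- part of the certificates -/
def L21 : List Prf := [(.br (nat_lit 10) (nat_lit 0) (.cons (.ev (nat_lit 5192377017579686248181445001478913) (nat_lit 2)) (.cons (.ev (nat_lit 20362259168222763155107117793793) (nat_lit 2)) (.cons (.br (nat_lit 15) (nat_lit 0) (.cons (.ev (nat_lit 2658476512282897700871364596612464643) (nat_lit 2)) (.cons (.rf (nat_lit 246) (nat_lit 20678165496290502283333)) .nil))) .nil)))),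
 (.br (nat_lit 14) (nat_lit 0) (.cons (.ev (nat_lit 1334420292952940432720448069467963393) (nat_lit 1)) .nil)),
 (.br (nat_lit 16) (nat_lit 0) (.cons (.ev (nat_lit 10405113813592923944367434862952451) (nat_lit 2)) (.cons (.ev (nat_lit 20362259168222763155107151347713) (nat_lit 2)) (.cons (.ev (nat_lit 2668860946924672344706996174030111233) (nat_lit 2)) (.cons (.ev (nat_lit 340287559217798207235269497734788349953) (nat_lit 1)) .nil))))),
 (.br (nat_lit 13) (nat_lit 0) (.cons (.ev (nat_lit 5192376086702064259633538301689856) (nat_lit 1)) .nil)),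
 (.br (nat_lit 15) (nat_lit 0) (.cons (.ev (nat_lit 1329248278195728468840872284904292608) (nat_lit 1)) .nil)),
 (.br (nat_lit 5) (nat_lit 0) (.cons (.rf (nat_lit 386) (nat_lit 19770681287348049934292003)) (.cons (.br (nat_lit 16) (nat_lit 0) (.cons (.ev (nat_lit 10405113813592923944367434896507395) (nat_lit 2)) (.cons (.ev (nat_lit 20362259168222763155107117793793) (nat_lit 2)) (.cons (.ev (nat_lit 2668860946924672344706996174030111233) (nat_lit 2)) (.cons (.br (nat_lit 16) (nat_lit 0) (.cons (.ev (nat_lit 10405113813592923944367434896507395) (nat_lit 2)) (.cons (.ev (nat_lit 20362259168222763155107117793793) (nat_lit 2)) (.cons (.ev (nat_lit 2668860946924672344706996174030111233) (nat_lit 2)) .nil)))) .nil))))) (.cons (.br (nat_lit 16) (nat_lit 0) (.cons (.rf (nat_lit 391) (nat_lit 19926519232773908561233952)) (.cons (.ev (nat_lit 20362259168222763155107117793793) (nat_lit 2)) (.cons (.ev (nat_lit 2668860946924672344706996174030111233) (nat_lit 2)) (.cons (.br (nat_lit 16) (nat_lit 0) (.cons (.rf (nat_lit 391) (nat_lit 19926519232773908561233952))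 (.cons (.ev (nat_lit 20362259168222763155107117793793) (nat_lit 2)) (.cons (.ev (nat_lit 2668860946924672344706996174030111233) (nat_lit 2)) .nil)))) .nil))))) (.cons (.ev (nat_lit 2668860946924672344706996174063665153) (nat_lit 2)) (.cons (.br (nat_lit 16) (nat_lit 0) (.cons (.br (nat_lit 10) (nat_lit 0) (.cons (.ev (nat_lit 340287559217798207235269779205486870528) (nat_lit 1)) (.cons (.ev (nat_lit 1369125625207537705605136293793892663809) (nat_lit 3)) (.cons (.br (nat_lit 11) (nat_lit 0) (.cons (.ev (nat_lit 341616807495991517815649427629178683648) (nat_lit 1)) (.cons (.ev (nat_lit 20362259168222763155107151347713) (nat_lit 2)) .nil))) .nil)))) (.cons (.ev (nat_lit 340287559217798207235269497734805127425) (nat_lit 1)) (.cons (.br (nat_lit 7) (nat_lit 0) (.cons (.ev (nat_lit 340287559217798207235269779205486870528) (nat_lit 1)) (.cons (.ev (nat_lit 341611594917032869068466243534225211648) (nat_lit 1)) (.cons (.br (nat_lit 10) (nat_lit 0) (.cons (.ev (nat_lit 1369136010277242720328294547906611119619) (nat_lit 3)) (.cons (.ev (nat_lit 10405113813592923944367434862952451)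 (nat_lit 2)) .nil))) .nil)))) (.cons (.ev (nat_lit 2668860946924672344706996174030111233) (nat_lit 2)) (.cons (.br (nat_lit 7) (nat_lit 0) (.cons (.br (nat_lit 15) (nat_lit 0) (.cons (.kr (nat_lit 20361637770906748269963421679617) (nat_lit 10384594336039675043866318200635392) (nat_lit 0) (nat_lit 1)) (.cons (.ev (nat_lit 341616787292810081419056568218842890240) (nat_lit 1)) .nil))) (.cons (.br (nat_lit 10) (nat_lit 0) (.cons (.ev (nat_lit 2658476512282897700871927555189374977) (nat_lit 2)) (.cons (.ev (nat_lit 340282367000477319913351963416761270273) (nat_lit 1)) .nil))) (.cons (.br (nat_lit 10) (nat_lit 0) (.cons (.kr (nat_lit 20361637770906748269963421679617) (nat_lit 10384594336039675043866318200635392) (nat_lit 0) (nat_lit 1)) (.cons (.br (nat_lit 11) (nat_lit 0) (.cons (.ev (nat_lit 20362259168222763155107151347713) (nat_lit 2)) .nil)) .nil))) (.cons (.br (nat_lit 10) (nat_lit 0) (.cons (.rf (nat_lit 392) (nat_lit 21174442622281864334903328)) (.cons (.ev (nat_lit 341616787292810081419056568218842890240) (nat_lit 1)) (.cons (.ev (nat_lit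 10405113813592923944367434862952451) (nat_lit 2)) .nil)))) .nil))))) .nil)))))) (.cons (.br (nat_lit 15) (nat_lit 0) (.cons (.br (nat_lit 10) (nat_lit 0) (.cons (.kr (nat_lit 20361637770906748269963421679617) (nat_lit 10384594336039675043866318200635392) (nat_lit 0) (nat_lit 1)) (.cons (.rf (nat_lit 393) (nat_lit 677582165103132179601393696)) (.cons (.br (nat_lit 17) (nat_lit 0) (.cons (.ev (nat_lit 20362259168222763155107151347713) (nat_lit 2)) (.cons (.ev (nat_lit 87112291124057106395099786188126160945408) (nat_lit 1)) .nil))) .nil)))) (.cons (.br (nat_lit 7) (nat_lit 0) (.cons (.ev (nat_lit 2658476512282897700871927555189374977) (nat_lit 2)) (.cons (.br (nat_lit 16) (nat_lit 0) (.cons (.ev (nat_lit 5192377017579686248181445051809793) (nat_lit 2)) (.cons (.ev (nat_lit 1369125625207537705605136293793959773697) (nat_lit 3)) .nil))) (.cons (.br (nat_lit 11) (nat_lit 0) (.cons (.br (nat_lit 16) (nat_lit 0) (.cons (.ev (nat_lit 1369136010277242720328294547906678227459) (nat_lit 3)) .nil)) (.cons (.ev (nat_lit 87112285952042966944211211167657101361153)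 (nat_lit 1)) .nil))) .nil)))) (.cons (.br (nat_lit 10) (nat_lit 0) (.cons (.kr (nat_lit 20361637770906748269963421679617) (nat_lit 10384594336039675043866318200635392) (nat_lit 0) (nat_lit 1)) (.cons (.rf (nat_lit 393) (nat_lit 677582165103132179601393696)) (.cons (.br (nat_lit 7) (nat_lit 0) (.cons (.rf (nat_lit 298) (nat_lit 21174442659428964533274852)) (.cons (.ev (nat_lit 10405113813592923944367434862952451) (nat_lit 2)) .nil))) .nil)))) (.cons (.ev (nat_lit 2668860946924672344706996174030111233) (nat_lit 2)) (.cons (.br (nat_lit 10) (nat_lit 0) (.cons (.br (nat_lit 11) (nat_lit 0) (.cons (.rf (nat_lit 394) (nat_lit 20678166623322133139521)) (.cons (.ev (nat_lit 87112285952042966944211211167657101361153) (nat_lit 1)) .nil))) (.cons (.br (nat_lit 7) (nat_lit 0) (.cons (.rf (nat_lit 395) (nat_lit 21174441469360359728056352)) (.cons (.ev (nat_lit 87112291144418744156561801210871003742208) (nat_lit 1)) .nil))) (.cons (.rf (nat_lit 393) (nat_lit 677582165103132179601393696)) (.cons (.ev (nat_lit 87113620372335299705716915772459149426688) (nat_lit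 1)) .nil))))) .nil)))))) .nil))))))),
 (.br (nat_lit 14) (nat_lit 0) (.cons (.ev (nat_lit 10405113813592923943804476319596547) (nat_lit 2)) (.cons (.ev (nat_lit 1369125625207537696049722863612445590529) (nat_lit 3)) (.cons (.br (nat_lit 15) (nat_lit 0) (.cons (.ev (nat_lit 341611594917032864364546504738306326785) (nat_lit 1)) (.cons (.ev (nat_lit 2668860946924672344706996174030110723) (nat_lit 2)) .nil))) .nil)))),
 (.br (nat_lit 7) (nat_lit 0) (.cons (.ev (nat_lit 2658476512282897700871927555189374977) (nat_lit 2)) (.cons (.ev (nat_lit 10405113813583442317913548186976257) (nat_lit 2)) (.cons (.br (nat_lit 11) (nat_lit 0) (.cons (.ev (nat_lit 340287579579435973401204259275600363777) (nat_lit 1)) (.cons (.rf (nat_lit 371) (nat_lit 677582165103132179601393696)) .nil))) .nil)))),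
 (.br (nat_lit 14) (nat_lit 0) (.cons (.kr (nat_lit 20361637770906748269963421679617) (nat_lit 10384594336039675043866318200635392) (nat_lit 0) (nat_lit 1)) (.cons (.kr (nat_lit 10384594336039675043866318200635393) (nat_lit 20361637770906748269963421680128) (nat_lit 0) (nat_lit 2)) (.cons (.rf (nat_lit 332) (nat_lit 20676865215079458901159)) .nil)))),
 (.br (nat_lit 11) (nat_lit 0) (.cons (.ev (nat_lit 10405113813592923943804476319596547) (nat_lit 2)) (.cons (.rf (nat_lit 399) (nat_lit 677582165103132179601393696)) (.cons (.br (nat_lit 14) (nat_lit 0) (.cons (.kr (nat_lit 10384594336039675043866318200635393) (nat_lit 20361637770906748269963421680128) (nat_lit 0) (nat_lit 2)) (.cons (.br (nat_lit 15) (nat_lit 0) (.cons (.ev (nat_lit 2668860946924672344706996174030110723) (nat_lit 2)) .nil)) .nil))) (.cons (.br (nat_lit 15) (nat_lit 0) (.cons (.br (nat_lit 16) (nat_lit 0) (.cons (.ev (nat_lit 1369125625207537696049722863612378480641) (nat_lit 3)) .nil)) (.cons (.ev (nat_lit 340282387203658761050758049770485383168) (nat_lit 1)) (.cons (.ev (nat_lit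 87112285931839785507814618026767460335616) (nat_lit 1)) .nil)))) .nil))))),
 (.br (nat_lit 12) (nat_lit 0) (.cons (.ev (nat_lit 5192296859743771966946793268183296) (nat_lit 1)) .nil)),
 (.br (nat_lit 10) (nat_lit 0) (.cons (.br (nat_lit 16) (nat_lit 0) (.cons (.kr (nat_lit 2658455991572249597590958567002734593) (nat_lit 20361637770906748269963421680128) (nat_lit 0) (nat_lit 2)) (.cons (.ev (nat_lit 1361139872640970468623023127134594138119) (nat_lit 3)) .nil))) (.cons (.ev (nat_lit 10405113813583442317913548186976257) (nat_lit 2)) (.cons (.br (nat_lit 11) (nat_lit 0) (.cons (.kr (nat_lit 2658455991572249597590958567002734593) (nat_lit 20361637770906748269963421680128) (nat_lit 0) (nat_lit 2)) (.cons (.ev (nat_lit 340282367000477319913352244896049725697) (nat_lit 1)) .nil))) (.cons (.br (nat_lit 11) (nat_lit 0) (.cons (.rf (nat_lit 332) (nat_lit 20672394125811898616999)) (.cons (.rf (nat_lit 401) (nat_lit 20678166659639268182048)) (.cons (.ev (nat_lit 20362259168222763155107151347713) (nat_lit 2)) .nil)))) .nil))))),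
 (.br (nat_lit 11) (nat_lit 0) (.cons (.kr (nat_lit 1329227995786124798723421689455050752) (nat_lit 5192297168019837449875565054001152) (nat_lit 10) (nat_lit 0)) (.cons (.br (nat_lit 15) (nat_lit 0) (.cons (.ev (nat_lit 87456561215531147273274081750098330583808) (nat_lit 2)) .nil)) .nil))),
 (.br (nat_lit 11) (nat_lit 0) (.cons (.ev (nat_lit 1344845928721142516640093202945147904) (nat_lit 3)) (.cons (.br (nat_lit 14) (nat_lit 0) (.cons (.ev (nat_lit 5233100293102610278789876100891392) (nat_lit 2)) .nil)) .nil))),
 (.br (nat_lit 14) (nat_lit 0) (.cons (.ev (nat_lit 340282387203349280763303467946870833408) (nat_lit 1)) .nil)),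
 (.br (nat_lit 17) (nat_lit 0) (.cons (.ev (nat_lit 87112291124057106390395866449330208505856) (nat_lit 1)) (.cons (.rf (nat_lit 370) (nat_lit 677582165103132179601393696)) (.cons (.rf (nat_lit 370) (nat_lit 677426327157706320974451747)) (.cons (.ev (nat_lit 87112291124057106390395866449330208506113) (nat_lit 1)) .nil))))),
 (.br (nat_lit 14) (nat_lit 0) (.cons (.ev (nat_lit 340282367000477319913352244896049725697) (nat_lit 1)) (.cons (.rf (nat_lit 405) (nat_lit 21169571677433740172298272)) (.cons (.ev (nat_lit 10405113813592923944367434862952961) (nat_lit 2)) .nil)))),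
 (.br (nat_lit 5) (nat_lit 0) (.cons (.rf (nat_lit 386) (nat_lit 19770681287348049934292003)) (.cons (.rf (nat_lit 396) (nat_lit 19770681287348049934292003)) (.cons (.rf (nat_lit 396) (nat_lit 19734047171636270259508259)) (.cons (.rf (nat_lit 390) (nat_lit 19770681287348049934292003)) (.cons (.rf (nat_lit 390) (nat_lit 19734047171636270259508259)) (.cons (.br (nat_lit 10) (nat_lit 0) (.cons (.rf (nat_lit 397) (nat_lit 19926519232773908561233952)) (.cons (.br (nat_lit 14) (nat_lit 0) (.cons (.ev (nat_lit 1361139872640970468623023127134527030279) (nat_lit 3)) (.cons (.ev (nat_lit 340287559217798211939189518001405755648) (nat_lit 1)) (.cons (.br (nat_lit 15) (nat_lit 0) (.cons (.ev (nat_lit 1363787944038206678545570219383329129479) (nat_lit 3)) (.cons (.ev (nat_lit 2668860946924672344706996174030110723) (nat_lit 2)) .nil))) .nil)))) (.cons (.ev (nat_lit 340287559217798207235269497734805127425) (nat_lit 1)) (.cons (.rf (nat_lit 398) (nat_lit 19926519232773908561233952)) (.cons (.br (nat_lit 11) (nat_lit 0) (.cons (.rf (nat_lit 397) (nat_lit 19889885117062128886450208))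 (.cons (.rf (nat_lit 398) (nat_lit 19889885117062128886450208)) (.cons (.ev (nat_lit 341611615278670635234401286545702191360) (nat_lit 1)) (.cons (.ev (nat_lit 20362259168222763155107151347713) (nat_lit 2)) .nil))))) .nil)))))) (.cons (.br (nat_lit 7) (nat_lit 0) (.cons (.rf (nat_lit 400) (nat_lit 677582165103132179601393696)) (.cons (.rf (nat_lit 400) (nat_lit 677545530987420399926609952)) (.cons (.rf (nat_lit 402) (nat_lit 677582165103132179601393696)) (.cons (.rf (nat_lit 402) (nat_lit 677545530987420399926609952)) (.cons (.br (nat_lit 10) (nat_lit 0) (.cons (.br (nat_lit 14) (nat_lit 0) (.cons (.kr (nat_lit 1329227995786124798723421689455050752) (nat_lit 5192297168019837449875565054001152) (nat_lit 10) (nat_lit 0)) (.cons (.br (nat_lit 15) (nat_lit 0) (.cons (.ev (nat_lit 2668860946924672344706996174030110723) (nat_lit 2)) .nil)) .nil))) (.cons (.rf (nat_lit 403) (nat_lit 677582165103132179601393696)) (.cons (.rf (nat_lit 404) (nat_lit 677582165103132179601393696)) (.cons (.br (nat_lit 11) (nat_lit 0) (.cons (.rf (nat_lit 404) (nat_lit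 677545530987420399926609952)) (.cons (.rf (nat_lit 403) (nat_lit 677545530987420399926609952)) (.cons (.ev (nat_lit 20362259168222763155107151347713) (nat_lit 2)) .nil)))) .nil))))) (.cons (.br (nat_lit 10) (nat_lit 0) (.cons (.br (nat_lit 14) (nat_lit 0) (.cons (.kr (nat_lit 1329227995786124798723421689455050752) (nat_lit 5192297168019837449875565054001152) (nat_lit 10) (nat_lit 0)) (.cons (.rf (nat_lit 405) (nat_lit 21174441469360359728056352)) (.cons (.br (nat_lit 15) (nat_lit 0) (.cons (.ev (nat_lit 340287559217798211939189518001422532608) (nat_lit 1)) .nil)) .nil)))) (.cons (.rf (nat_lit 406) (nat_lit 677582165103132179601393696)) (.cons (.br (nat_lit 11) (nat_lit 0) (.cons (.ev (nat_lit 1365574391641818937338098300840050694) (nat_lit 3)) (.cons (.ev (nat_lit 340282367000477324654165190360116035840) (nat_lit 1)) (.cons (.ev (nat_lit 87112285952042966944211211167657101361153) (nat_lit 1)) .nil)))) (.cons (.rf (nat_lit 407) (nat_lit 677582165103132179601393696)) (.cons (.br (nat_lit 11) (nat_lit 0) (.cons (.ev (nat_lit 87112285931839785503073805081303394025473)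 (nat_lit 1)) (.cons (.rf (nat_lit 370) (nat_lit 677545530987420399926609952)) (.cons (.rf (nat_lit 407) (nat_lit 677545530987420399926609952)) .nil)))) .nil)))))) .nil))))))) .nil)))))))),
 (.br (nat_lit 11) (nat_lit 0) (.cons (.ev (nat_lit 10405113813592923943804476319596547) (nat_lit 2)) (.cons (.rf (nat_lit 399) (nat_lit 677582165103132179601393696)) (.cons (.br (nat_lit 14) (nat_lit 0) (.cons (.kr (nat_lit 10384594336039675043866318200635393) (nat_lit 20361637770906748269963421680128) (nat_lit 0) (nat_lit 2)) (.cons (.ev (nat_lit 340287559217798207235269779205470093313) (nat_lit 1)) (.cons (.ev (nat_lit 87112291124057106390395866449330208505856) (nat_lit 1)) .nil)))) (.cons (.br (nat_lit 14) (nat_lit 0) (.cons (.ev (nat_lit 348451802203395439401631968697806915371013) (nat_lit 3)) (.cons (.br (nat_lit 15) (nat_lit 0) (.cons (.ev (nat_lit 2668860946924672344706996174030110723) (nat_lit 2)) .nil)) .nil))) .nil))))),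
 (.br (nat_lit 13) (nat_lit 0) (.cons (.ev (nat_lit 340287559218106488023263023464817099008) (nat_lit 1)) .nil)),
 (.br (nat_lit 11) (nat_lit 0) (.cons (.ev (nat_lit 1361139872640970468623023690110317363717) (nat_lit 3)) (.cons (.ev (nat_lit 340282367000477324654165471839387713792) (nat_lit 1)) (.cons (.rf (nat_lit 410) (nat_lit 21174442622281864334903328)) .nil)))),
 (.br (nat_lit 11) (nat_lit 0) (.cons (.ev (nat_lit 2658476512282897700727814566103351811) (nat_lit 2)) (.cons (.ev (nat_lit 340287579579435973401276315770109820928) (nat_lit 1)) (.cons (.br (nat_lit 14) (nat_lit 0) (.cons (.ev (nat_lit 10405113813583442173800559100953091) (nat_lit 2)) (.cons (.ev (nat_lit 1363798329107911693269017262449942855681) (nat_lit 3)) .nil))) .nil))))]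

theorem c21 : chkAll C T R L21 (nat_lit 391) = true := by decide +kernel

theorem l21 : (nat_lit 391) + L21.length = (nat_lit 413) := by decide +kernel

/-- part of the certificates -/
def L22 : List Prf := [(.br (nat_lit 13) (nat_lit 0) (.cons (.br (nat_lit 1) (nat_lit 0) (.cons (.kr (nat_lit 1) (nat_lit 256) (nat_lit 0) (nat_lit 2)) (.cons (.kr (nat_lit 256) (nat_lit 16777216) (nat_lit 1) (nat_lit 0)) (.cons (.br (nat_lit 10) (nat_lit 0) (.cons (.rf (nat_lit 346) (nat_lit 583706118939841765935136)) (.cons (.rf (nat_lit 347) (nat_lit 583706118939841765935136)) (.cons (.ev (nat_lit 20362259168222763718048514834947) (nat_lit 2)) (.cons (.rf (nat_lit 348) (nat_lit 583706118939841765935136)) (.cons (.rf (nat_lit 349) (nat_lit 583706118939841765935136)) (.cons (.br (nat_lit 11) (nat_lit 0) (.cons (.rf (nat_lit 346) (nat_lit 547072003228062091151392)) (.cons (.rf (nat_lit 347) (nat_lit 547072003228062091151392)) (.cons (.rf (nat_lit 349) (nat_lit 547072003228062091151392)) (.cons (.rf (nat_lit 348) (nat_lit 547072003228062091151392)) (.cons (.ev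 (nat_lit 20362259168222763155107151347713) (nat_lit 2)) (.cons (.br (nat_lit 14) (nat_lit 0) (.cons (.rf (nat_lit 347) (nat_lit 427868173513983138993187)) (.cons (.rf (nat_lit 346) (nat_lit 427868173513983138993187)) (.cons (.ev (nat_lit 2668860946924681752546473765934989827) (nat_lit 2)) (.cons (.br (nat_lit 15) (nat_lit 0) (.cons (.rf (nat_lit 347) (nat_lit 391234057802203464209443)) (.cons (.rf (nat_lit 346) (nat_lit 391234057802203464209443)) (.cons (.ev (nat_lit 2668860946924672344706996174030110723) (nat_lit 2)) (.cons (.br (nat_lit 2) (nat_lit 0) (.cons (.ev (nat_lit 10405113813592924016428327469515523) (nat_lit 2)) (.cons (.rf (nat_lit 350) (nat_lit 677582165103132179601393696)) (.cons (.rf (nat_lit 350) (nat_lit 640068830579366895510718496)) .nil)))) .nil))))) (.cons (.br (nat_lit 15) (nat_lit 0) (.cons (.rf (nat_lit 347) (nat_lit 391234057802203464209443)) (.cons (.rf (nat_lit 346) (nat_lit 391234057802203464209443)) (.cons (.ev (nat_lit 1344805045129971357145299804525429251) (nat_lit 2)) (.cons (.ev (nat_lit 2668860946924672344706996174030110723)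 (nat_lit 2)) .nil))))) .nil)))))) .nil))))))) .nil))))))) (.cons (.rf (nat_lit 364) (nat_lit 583706118939841765935136)) (.cons (.rf (nat_lit 364) (nat_lit 547072003228062091151392)) (.cons (.rf (nat_lit 364) (nat_lit 427868173513983138993187)) (.cons (.rf (nat_lit 364) (nat_lit 391234057802203464209443)) (.cons (.br (nat_lit 2) (nat_lit 0) (.cons (.br (nat_lit 7) (nat_lit 0) (.cons (.rf (nat_lit 365) (nat_lit 19926519232773908561233952)) (.cons (.rf (nat_lit 365) (nat_lit 19889885117062128886450208)) (.cons (.rf (nat_lit 365) (nat_lit 19770681287348049934292003)) (.cons (.rf (nat_lit 365) (nat_lit 19734047171636270259508259)) (.cons (.br (nat_lit 10) (nat_lit 0) (.cons (.br (nat_lit 14) (nat_lit 0) (.cons (.kr (nat_lit 1329227995786124798723421689455050752) (nat_lit 5192297168019837449875565054001152) (nat_lit 10) (nat_lit 0)) (.cons (.ev (nat_lit 340287559217798207235269779205486870528) (nat_lit 1)) (.cons (.br (nat_lit 15) (nat_lit 0) (.cons (.ev (nat_lit 341611615278670635234401005075020447745) (nat_lit 1)) (.cons (.ev (nat_lit 2668860946924672344706996174030110723)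 (nat_lit 2)) .nil))) .nil)))) (.cons (.rf (nat_lit 366) (nat_lit 19926519232773908561233952)) (.cons (.rf (nat_lit 367) (nat_lit 19926519232773908561233952)) (.cons (.rf (nat_lit 368) (nat_lit 19926519232773908561233952)) (.cons (.br (nat_lit 11) (nat_lit 0) (.cons (.rf (nat_lit 367) (nat_lit 19889885117062128886450208)) (.cons (.rf (nat_lit 366) (nat_lit 19889885117062128886450208)) (.cons (.rf (nat_lit 368) (nat_lit 19889885117062128886450208)) (.cons (.ev (nat_lit 20362259168222763155107151347713) (nat_lit 2)) .nil))))) .nil)))))) (.cons (.br (nat_lit 10) (nat_lit 0) (.cons (.rf (nat_lit 369) (nat_lit 677582165103132179601393696)) (.cons (.br (nat_lit 11) (nat_lit 0) (.cons (.kr (nat_lit 1329227995786124798723421689455050752) (nat_lit 5192297168019837449875565054001152) (nat_lit 10) (nat_lit 0)) (.cons (.rf (nat_lit 373) (nat_lit 677545530987420399926609952)) (.cons (.rf (nat_lit 370) (nat_lit 677582165103132179601393696)) .nil)))) (.cons (.rf (nat_lit 372) (nat_lit 677582165103132179601393696)) (.cons (.rf (nat_lit 373) (nat_lit 677582165103132179601393696))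 (.cons (.br (nat_lit 11) (nat_lit 0) (.cons (.rf (nat_lit 371) (nat_lit 677545530987420399926609952)) (.cons (.rf (nat_lit 370) (nat_lit 677545530987420399926609952)) (.cons (.rf (nat_lit 373) (nat_lit 677545530987420399926609952)) (.cons (.ev (nat_lit 20362259168222763155107151347713) (nat_lit 2)) .nil))))) .nil)))))) .nil))))))) (.cons (.rf (nat_lit 386) (nat_lit 19926519232773908561233952)) (.cons (.rf (nat_lit 390) (nat_lit 19926519232773908561233952)) (.cons (.rf (nat_lit 390) (nat_lit 19889885117062128886450208)) (.cons (.rf (nat_lit 396) (nat_lit 19926519232773908561233952)) (.cons (.rf (nat_lit 396) (nat_lit 19889885117062128886450208)) (.cons (.rf (nat_lit 408) (nat_lit 19926519232773908561233952)) (.cons (.br (nat_lit 5) (nat_lit 0) (.cons (.rf (nat_lit 386) (nat_lit 19770681287348049934292003)) (.cons (.rf (nat_lit 396) (nat_lit 19770681287348049934292003)) (.cons (.rf (nat_lit 396) (nat_lit 19734047171636270259508259)) (.cons (.rf (nat_lit 390) (nat_lit 19770681287348049934292003)) (.cons (.rf (nat_lit 390) (nat_lit 19734047171636270259508259))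 (.cons (.rf (nat_lit 408) (nat_lit 19770681287348049934292003)) (.cons (.br (nat_lit 7) (nat_lit 0) (.cons (.rf (nat_lit 409) (nat_lit 677582165103132179601393696)) (.cons (.rf (nat_lit 409) (nat_lit 677545530987420399926609952)) (.cons (.rf (nat_lit 409) (nat_lit 677426327157706320974451747)) (.cons (.rf (nat_lit 409) (nat_lit 677389693041994541299668003)) (.cons (.br (nat_lit 16) (nat_lit 0) (.cons (.rf (nat_lit 411) (nat_lit 677582165103132179601393696)) (.cons (.rf (nat_lit 411) (nat_lit 677545530987420399926609952)) (.cons (.rf (nat_lit 411) (nat_lit 677426327157706320974451747)) (.cons (.rf (nat_lit 411) (nat_lit 677389693041994541299668003)) (.cons (.zr (nat_lit 1020847100762815390390123825593839714560) (nat_lit 87112285931760246646624115675314809470978) (nat_lit 8) (nat_lit 17)) .nil)))))) (.cons (.br (nat_lit 10) (nat_lit 0) (.cons (.br (nat_lit 14) (nat_lit 0) (.cons (.ev (nat_lit 87112291144418744156561801210871003742208) (nat_lit 1)) (.cons (.br (nat_lit 15) (nat_lit 0) (.cons (.ev (nat_lit 2668860946924672344706996174030110723)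 (nat_lit 2)) .nil)) .nil))) (.cons (.ev (nat_lit 87112291124057106390395866449330208505856) (nat_lit 1)) (.cons (.rf (nat_lit 412) (nat_lit 21135445052388537735940128)) (.cons (.br (nat_lit 11) (nat_lit 0) (.cons (.rf (nat_lit 412) (nat_lit 21098810936676758061156384)) (.cons (.ev (nat_lit 87113615180117978818394998238141139124225) (nat_lit 1)) (.cons (.ev (nat_lit 20362259168222763155107151347713) (nat_lit 2)) .nil)))) .nil))))) .nil))))))) .nil)))))))) .nil))))))))) .nil))))))))) .nil)),
 (.br (nat_lit 12) (nat_lit 1) (.cons (.br (nat_lit 12) (nat_lit 1) (.cons (.br (nat_lit 13) (nat_lit 0) (.cons (.br (nat_lit 13) (nat_lit 1) (.cons (.br (nat_lit 14) (nat_lit 0) (.cons (.kr (nat_lit 20282409603651670423947251286016) (nat_lit 5192296858534827628530496329220096) (nat_lit 13) (nat_lit 0)) .nil)) .nil)) .nil)) .nil)) .nil)),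
 (.br (nat_lit 2) (nat_lit 0) (.cons (.ev (nat_lit 4740958188759729438723) (nat_lit 2)) (.cons (.br (nat_lit 5) (nat_lit 0) (.cons (.ev (nat_lit 4740957625818332398083) (nat_lit 2)) (.cons (.rf (nat_lit 414) (nat_lit 14242959524133701664)) (.cons (.br (nat_lit 11) (nat_lit 0) (.cons (.ev (nat_lit 1864168465483848448087294469) (nat_lit 3)) (.cons (.rf (nat_lit 414) (nat_lit 15395881028740548640)) (.cons (.br (nat_lit 12) (nat_lit 0) (.cons (.br (nat_lit 12) (nat_lit 0) (.cons (.rf (nat_lit 414) (nat_lit 16548802533347395616)) .nil)) (.cons (.rf (nat_lit 414) (nat_lit 16548802533347395616)) .nil))) .nil)))) .nil)))) (.cons (.br (nat_lit 5) (nat_lit 0) (.cons (.ev (nat_lit 4740957625818332398083) (nat_lit 2)) (.cons (.rf (nat_lit 414) (nat_lit 14242959524133701664)) (.cons (.br (nat_lit 10) (nat_lit 0) (.cons (.ev (nat_lit 621392723209933289070920707) (nat_lit 3)) (.cons (.rf (nat_lit 414) (nat_lit 15395881028740548640)) (.cons (.br (nat_lit 12) (nat_lit 0) (.cons (.br (nat_lit 12) (nat_lit 0) (.cons (.rf (nat_lit 414) (nat_lit 16548802533347395616))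 .nil)) (.cons (.rf (nat_lit 414) (nat_lit 16548802533347395616)) .nil))) .nil)))) .nil)))) (.cons (.rf (nat_lit 414) (nat_lit 14242959524133701664)) (.cons (.br (nat_lit 5) (nat_lit 0) (.cons (.br (nat_lit 11) (nat_lit 0) (.cons (.ev (nat_lit 1864168465483848447986631171) (nat_lit 3)) (.cons (.rf (nat_lit 414) (nat_lit 15395881028740548640)) (.cons (.br (nat_lit 12) (nat_lit 0) (.cons (.br (nat_lit 12) (nat_lit 0) (.cons (.rf (nat_lit 414) (nat_lit 16548802533347395616)) .nil)) (.cons (.rf (nat_lit 414) (nat_lit 16548802533347395616)) .nil))) .nil)))) (.cons (.br (nat_lit 10) (nat_lit 0) (.cons (.ev (nat_lit 621392723209933289037366277) (nat_lit 3)) (.cons (.rf (nat_lit 414) (nat_lit 15395881028740548640)) (.cons (.br (nat_lit 12) (nat_lit 0) (.cons (.br (nat_lit 12) (nat_lit 0) (.cons (.rf (nat_lit 414) (nat_lit 16548802533347395616)) .nil)) (.cons (.rf (nat_lit 414) (nat_lit 16548802533347395616)) .nil))) .nil)))) (.cons (.ev (nat_lit 4740958188759695884289) (nat_lit 2)) (.cons (.rf (nat_lit 414) (nat_lit 15395881028740548640)) (.cons (.br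 (nat_lit 10) (nat_lit 0) (.cons (.ev (nat_lit 621392612095990768429171203) (nat_lit 2)) (.cons (.br (nat_lit 11) (nat_lit 0) (.cons (.ev (nat_lit 621392612095427827065683969) (nat_lit 2)) (.cons (.ev (nat_lit 310693935857980216380162562) (nat_lit 2)) (.cons (.rf (nat_lit 414) (nat_lit 16548802533347395616)) .nil)))) (.cons (.br (nat_lit 11) (nat_lit 0) (.cons (.ev (nat_lit 310693935857980216380162562) (nat_lit 2)) (.cons (.ev (nat_lit 621392612095427827065683969) (nat_lit 2)) (.cons (.rf (nat_lit 414) (nat_lit 16548802533347395616)) .nil)))) (.cons (.rf (nat_lit 414) (nat_lit 16548802533347395616)) .nil))))) .nil)))))) .nil)))))),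
 (.br (nat_lit 12) (nat_lit 0) (.cons (.kr (nat_lit 2417851783344446442045441) (nat_lit 4740813508422626443776) (nat_lit 0) (nat_lit 2)) (.cons (.rf (nat_lit 414) (nat_lit 15395881028740548640)) (.cons (.br (nat_lit 12) (nat_lit 0) (.cons (.kr (nat_lit 2417851783344446442045441) (nat_lit 4740813508422626443776) (nat_lit 0) (nat_lit 2)) (.cons (.rf (nat_lit 414) (nat_lit 16548802533347395616)) .nil))) .nil)))),
 (.br (nat_lit 10) (nat_lit 0) (.cons (.kr (nat_lit 2417851783344446442045441) (nat_lit 4740813508422626443776) (nat_lit 0) (nat_lit 2)) (.cons (.ev (nat_lit 79228162532783140360819900416) (nat_lit 1)) (.cons (.rf (nat_lit 414) (nat_lit 15395881028740548640)) (.cons (.br (nat_lit 11) (nat_lit 0) (.cons (.ev (nat_lit 618974797493801895587741699) (nat_lit 2)) (.cons (.ev (nat_lit 621392612095427827065683969) (nat_lit 2)) (.cons (.rf (nat_lit 414) (nat_lit 16548802533347395616)) .nil)))) .nil))))),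
 (.br (nat_lit 10) (nat_lit 0) (.cons (.kr (nat_lit 18446744078004518912) (nat_lit 1208925891672223212634112) (nat_lit 4) (nat_lit 0)) (.cons (.kr (nat_lit 4740813508422626443265) (nat_lit 2417851783344446442045440) (nat_lit 0) (nat_lit 1)) (.cons (.kr (nat_lit 18446744078004519168) (nat_lit 1208925891672223229411328) (nat_lit 1) (nat_lit 0)) (.cons (.rf (nat_lit 414) (nat_lit 15395881028740548640)) (.cons (.br (nat_lit 11) (nat_lit 0) (.cons (.ev (nat_lit 618974797493801895621296129) (nat_lit 2)) (.cons (.ev (nat_lit 618974797493801895587742209) (nat_lit 2)) (.cons (.ev (nat_lit 621392612095427827065683969) (nat_lit 2)) (.cons (.rf (nat_lit 414) (nat_lit 16548802533347395616)) .nil))))) .nil)))))),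
 (.br (nat_lit 7) (nat_lit 0) (.cons (.kr (nat_lit 18446744078004518912) (nat_lit 1208925891672223212634112) (nat_lit 4) (nat_lit 0)) (.cons (.kr (nat_lit 4740813508422626443265) (nat_lit 2417851783344446442045440) (nat_lit 0) (nat_lit 1)) (.cons (.kr (nat_lit 18446744078004519168) (nat_lit 1208925891672223229411328) (nat_lit 1) (nat_lit 0)) (.cons (.rf (nat_lit 414) (nat_lit 15395881028740548640)) (.cons (.br (nat_lit 11) (nat_lit 0) (.cons (.ev (nat_lit 621392612095427827032129539) (nat_lit 2)) (.cons (.ev (nat_lit 621392612095427827065684483) (nat_lit 2)) (.cons (.ev (nat_lit 618974797493801895587741699) (nat_lit 2)) (.cons (.rf (nat_lit 414) (nat_lit 16548802533347395616)) .nil))))) .nil)))))),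
 (.br (nat_lit 7) (nat_lit 0) (.cons (.ev (nat_lit 618974797493801895621296129) (nat_lit 2)) (.cons (.ev (nat_lit 1240362705958002790714310661) (nat_lit 3)) (.cons (.ev (nat_lit 618974797493801895587742209) (nat_lit 2)) (.cons (.rf (nat_lit 414) (nat_lit 15395881028740548640)) (.cons (.br (nat_lit 10) (nat_lit 0) (.cons (.ev (nat_lit 621392612095427827032129539) (nat_lit 2)) (.cons (.ev (nat_lit 621392612095427827065684483) (nat_lit 2)) (.cons (.ev (nat_lit 620193112778770591193759744) (nat_lit 2)) (.cons (.rf (nat_lit 414) (nat_lit 16548802533347395616)) .nil))))) .nil)))))),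
 (.br (nat_lit 5) (nat_lit 0) (.cons (.rf (nat_lit 419) (nat_lit 14239471979454272547)) (.cons (.rf (nat_lit 418) (nat_lit 14239471979454272547)) (.cons (.rf (nat_lit 420) (nat_lit 14239471979454272547)) (.cons (.br (nat_lit 7) (nat_lit 0) (.cons (.ev (nat_lit 316915072649944126893173507073) (nat_lit 3)) (.cons (.ev (nat_lit 79228162532783421840091578625) (nat_lit 1)) (.cons (.rf (nat_lit 414) (nat_lit 15395881028740548640)) (.cons (.br (nat_lit 10) (nat_lit 0) (.cons (.ev (nat_lit 79229376180897180269896859905) (nat_lit 1)) (.cons (.ev (nat_lit 158457548158557683037354721794) (nat_lit 2)) (.cons (.rf (nat_lit 414) (nat_lit 16548802533347395616)) .nil)))) .nil))))) (.cons (.rf (nat_lit 414) (nat_lit 15395881028740548640)) (.cons (.br (nat_lit 7) (nat_lit 0) (.cons (.br (nat_lit 12) (nat_lit 0) (.cons (.ev (nat_lit 1240362705958002790714311681) (nat_lit 3)) (.cons (.ev (nat_lit 316915072649944126893106397185) (nat_lit 3)) (.cons (.rf (nat_lit 414) (nat_lit 16548802533347395616)) .nil)))) (.cons (.br (nat_lit 12) (nat_lit 0) (.cons (.kr (nat_lit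 2417851783344446442045441) (nat_lit 4740813508422626443776) (nat_lit 0) (nat_lit 2)) (.cons (.ev (nat_lit 79228162532783421840074801153) (nat_lit 1)) (.cons (.rf (nat_lit 414) (nat_lit 16548802533347395616)) .nil)))) (.cons (.br (nat_lit 10) (nat_lit 0) (.cons (.kr (nat_lit 2417851783344446442045441) (nat_lit 4740813508422626443776) (nat_lit 0) (nat_lit 2)) (.cons (.br (nat_lit 11) (nat_lit 0) (.cons (.ev (nat_lit 621392612095427827065683969) (nat_lit 2)) (.cons (.rf (nat_lit 414) (nat_lit 16548802533347395616)) .nil))) (.cons (.rf (nat_lit 414) (nat_lit 16548802533347395616)) .nil)))) (.cons (.br (nat_lit 11) (nat_lit 0) (.cons (.br (nat_lit 12) (nat_lit 0) (.cons (.ev (nat_lit 79229371440084234797223837696) (nat_lit 1)) (.cons (.rf (nat_lit 414) (nat_lit 16548802533347395616)) .nil))) (.cons (.ev (nat_lit 79228162532783421840074801153) (nat_lit 1)) (.cons (.ev (nat_lit 618974797493801895587741699) (nat_lit 2)) (.cons (.rf (nat_lit 414) (nat_lit 16548802533347395616)) .nil))))) (.cons (.rf (nat_lit 414) (nat_lit 16548802533347395616)) .nil))))))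 .nil))))))),
 (.br (nat_lit 11) (nat_lit 0) (.cons (.kr (nat_lit 2417851783344446442045441) (nat_lit 4740813508422626443776) (nat_lit 0) (nat_lit 2)) (.cons (.ev (nat_lit 618974797493801895587741699) (nat_lit 2)) (.cons (.ev (nat_lit 20282719093402377335028345471233) (nat_lit 1)) (.cons (.rf (nat_lit 414) (nat_lit 16548802533347395616)) .nil))))),
 (.br (nat_lit 14) (nat_lit 0) (.cons (.ev (nat_lit 5192297169233504154774735916433408) (nat_lit 1)) .nil)),
 (.br (nat_lit 16) (nat_lit 0) (.cons (.ev (nat_lit 87113620352052890097342950924335819325440) (nat_lit 1)) .nil)),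
 (.br (nat_lit 13) (nat_lit 0) (.cons (.ev (nat_lit 20282719093402377054652880388096) (nat_lit 1)) .nil)),
 (.br (nat_lit 9) (nat_lit 0) (.cons (.ev (nat_lit 20361637770906820047177699557376) (nat_lit 1)) (.cons (.rf (nat_lit 425) (nat_lit 17022140995484340291616)) .nil))),
 (.br (nat_lit 11) (nat_lit 0) (.cons (.rf (nat_lit 1) (nat_lit 616255163967649)) (.cons (.rf (nat_lit 426) (nat_lit 20678166659641484973121)) (.cons (.br (nat_lit 12) (nat_lit 0) (.cons (.rf (nat_lit 295) (nat_lit 19522787136285533780002)) (.cons (.ev (nat_lit 87112291144339514785121717259743501811968) (nat_lit 1)) .nil))) .nil)))),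
 (.br (nat_lit 12) (nat_lit 0) (.cons (.rf (nat_lit 258) (nat_lit 19522787136285533780033)) (.cons (.ev (nat_lit 87112291144339514785121717259743501811968) (nat_lit 1)) .nil))),
 (.br (nat_lit 15) (nat_lit 0) (.cons (.ev (nat_lit 340287559297025160823714502169856114688) (nat_lit 1)) .nil)),
 (.br (nat_lit 11) (nat_lit 0) (.cons (.rf (nat_lit 394) (nat_lit 19529596681317354284066)) (.cons (.ev (nat_lit 87112291144339514785121717259743501811968) (nat_lit 1)) .nil)))]

theorem c22 : chkAll C T R L22 (nat_lit 413) = true := by decide +kernel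

theorem l22 : (nat_lit 413) + L22.length = (nat_lit 431) := by decide +kernel

/-- part of the certificates -/
def L23 : List Prf := [(.br (nat_lit 15) (nat_lit 0) (.cons (.kr (nat_lit 5212579268138497745698521585025025) (nat_lit 2658455991569836468174378465199390720) (nat_lit 0) (nat_lit 1)) (.cons (.kr (nat_lit 2658455991569836468174378465182613505) (nat_lit 5212579268138497745698521601802240) (nat_lit 0) (nat_lit 1)) (.cons (.kr (nat_lit 5192296858534846075274570038771968) (nat_lit 1329227995784920595270289929942335488) (nat_lit 1) (nat_lit 0)) (.cons (.kr (nat_lit 20282409603651670423947251286016) (nat_lit 1329227995784915872903807060280344576) (nat_lit 13) (nat_lit 0)) (.cons (.kr (nat_lit 5192296858534827628530496329220096) (nat_lit 1329227995784915872903807060280344576) (nat_lit 14) (nat_lit 0)) (.cons (.br (nat_lit 2) (nat_lit 0) (.cons (.ev (nat_lit 5253144087360005223882043125006337) (nat_lit 2)) (.cons (.br (nat_lit 5) (nat_lit 0) (.cons (.ev (nat_lit 5253144087360005224444984522048001) (nat_lit 2)) (.cons (.ev (nat_lit 5253144087350523597428156415476227)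 (nat_lit 2)) (.cons (.ev (nat_lit 2663668570837984447691211210580165121) (nat_lit 2)) (.cons (.br (nat_lit 11) (nat_lit 0) (.cons (.rf (nat_lit 1) (nat_lit 616255167113281)) (.cons (.br (nat_lit 12) (nat_lit 0) (.cons (.ev (nat_lit 341616807575530378987849430575989391360) (nat_lit 1)) (.cons (.rf (nat_lit 423) (nat_lit 661701333108527519141953)) .nil))) (.cons (.br (nat_lit 17) (nat_lit 0) (.cons (.ev (nat_lit 87112291144339514785121717259743518589185) (nat_lit 1)) (.cons (.ev (nat_lit 87113620352052890102046870663131738210560) (nat_lit 1)) .nil))) .nil)))) .nil))))) (.cons (.br (nat_lit 5) (nat_lit 0) (.cons (.ev (nat_lit 5253144087360005224444984522048001) (nat_lit 2)) (.cons (.ev (nat_lit 5253144087350523597991097778962433) (nat_lit 2)) (.cons (.ev (nat_lit 2663668570837984447690648269216677891) (nat_lit 2)) (.cons (.br (nat_lit 10) (nat_lit 0) (.cons (.rf (nat_lit 1) (nat_lit 616255133559873)) (.cons (.rf (nat_lit 104) (nat_lit 21174370056907110189467680)) (.cons (.br (nat_lit 12) (nat_lit 0) (.cons (.rf (nat_lit 247) (nat_lit 20003176843056024296458272))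 (.cons (.ev (nat_lit 87112291144339514785121717259743518589185) (nat_lit 1)) .nil))) .nil)))) .nil))))) (.cons (.br (nat_lit 5) (nat_lit 0) (.cons (.ev (nat_lit 5253144087350523597428156415476227) (nat_lit 2)) (.cons (.ev (nat_lit 5253144087350523597991097778962433) (nat_lit 2)) (.cons (.ev (nat_lit 2663668570837974966064757323837079553) (nat_lit 2)) (.cons (.br (nat_lit 10) (nat_lit 0) (.cons (.rf (nat_lit 1) (nat_lit 616254059819073)) (.cons (.br (nat_lit 11) (nat_lit 0) (.cons (.ev (nat_lit 341616807575530374283929691780070506752) (nat_lit 1)) (.cons (.rf (nat_lit 424) (nat_lit 677582165103132179601393696)) .nil))) (.cons (.br (nat_lit 17) (nat_lit 0) (.cons (.ev (nat_lit 87112291144339514785121717259743518589185) (nat_lit 1)) (.cons (.ev (nat_lit 87113620352052890097342950642856547647745) (nat_lit 1)) .nil))) .nil)))) .nil))))) (.cons (.br (nat_lit 5) (nat_lit 0) (.cons (.ev (nat_lit 2663668570837984447691211210580165121) (nat_lit 2)) (.cons (.ev (nat_lit 2663668570837984447690648269216677891) (nat_lit 2)) (.cons (.ev (nat_lit 2663668570837974966064757323837079553)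 (nat_lit 2)) (.cons (.ev (nat_lit 5253144087360005223882043158560771) (nat_lit 2)) (.cons (.br (nat_lit 10) (nat_lit 0) (.cons (.rf (nat_lit 108) (nat_lit 21174370056907110189467680)) (.cons (.br (nat_lit 11) (nat_lit 0) (.cons (.ev (nat_lit 340287559297335859463274918089186083073) (nat_lit 1)) (.cons (.br (nat_lit 16) (nat_lit 0) (.cons (.ev (nat_lit 341611594996262235804630737336490000640) (nat_lit 1)) .nil)) .nil))) (.cons (.br (nat_lit 11) (nat_lit 0) (.cons (.ev (nat_lit 340287559297335859463274918089186083073) (nat_lit 1)) (.cons (.br (nat_lit 12) (nat_lit 0) (.cons (.ev (nat_lit 340282387282886928287316811540108148993) (nat_lit 1)) .nil)) .nil))) (.cons (.br (nat_lit 17) (nat_lit 0) (.cons (.ev (nat_lit 87113620352052890102046870663131738210560) (nat_lit 1)) (.cons (.ev (nat_lit 87113620352052890097342950642856547647745) (nat_lit 1)) (.cons (.ev (nat_lit 87112291144339514789825637280018709152000) (nat_lit 1)) .nil)))) .nil))))) .nil)))))) (.cons (.br (nat_lit 5) (nat_lit 0) (.cons (.rf (nat_lit 427) (nat_lit 677582165103132179601393696))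 (.cons (.br (nat_lit 10) (nat_lit 0) (.cons (.rf (nat_lit 1) (nat_lit 616255130414241)) (.cons (.rf (nat_lit 104) (nat_lit 21174370056907110186226723)) (.cons (.rf (nat_lit 428) (nat_lit 677582165103132179601393696)) .nil)))) (.cons (.br (nat_lit 10) (nat_lit 0) (.cons (.rf (nat_lit 1) (nat_lit 616254056673441)) (.cons (.br (nat_lit 11) (nat_lit 0) (.cons (.ev (nat_lit 341616807575530374283929691780053729537) (nat_lit 1)) (.cons (.rf (nat_lit 429) (nat_lit 21174442659472880577906720)) .nil))) (.cons (.rf (nat_lit 430) (nat_lit 677582165103132179601393696)) .nil)))) (.cons (.br (nat_lit 10) (nat_lit 0) (.cons (.rf (nat_lit 108) (nat_lit 21174370056907110186226723)) (.cons (.br (nat_lit 11) (nat_lit 0) (.cons (.ev (nat_lit 340287559297335859463274918089202860288) (nat_lit 1)) (.cons (.br (nat_lit 16) (nat_lit 0) (.cons (.ev (nat_lit 341611594996262235804630737336473223425) (nat_lit 1)) .nil)) .nil))) (.cons (.br (nat_lit 11) (nat_lit 0) (.cons (.ev (nat_lit 340287559297335859463274918089202860288) (nat_lit 1)) (.cons (.rf (nat_lit 156) (nat_lit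 21162145167414504698849774)) .nil))) (.cons (.br (nat_lit 17) (nat_lit 0) (.cons (.ev (nat_lit 87113620352052890102046870663131754987777) (nat_lit 1)) (.cons (.ev (nat_lit 87113620352052890097342950642856530870528) (nat_lit 1)) (.cons (.ev (nat_lit 87112291144339514789825637280018725929217) (nat_lit 1)) .nil)))) .nil))))) (.cons (.ev (nat_lit 5253144087360005223882043158560771) (nat_lit 2)) .nil)))))) .nil))))))) .nil))))))),
 (.br (nat_lit 7) (nat_lit 0) (.cons (.ev (nat_lit 5322165127229460238233629487735767047) (nat_lit 3)) (.cons (.ev (nat_lit 2663668570837984447690648269183123457) (nat_lit 2)) (.cons (.ev (nat_lit 2663668570837974966064757323870633987) (nat_lit 2)) (.cons (.br (nat_lit 10) (nat_lit 0) (.cons (.ev (nat_lit 2663668570840402262292274183481196547) (nat_lit 2)) (.cons (.ev (nat_lit 2663668570840392854453359550119673857) (nat_lit 2)) (.cons (.ev (nat_lit 2658496556390247993631558653383409667) (nat_lit 2)) (.cons (.br (nat_lit 11) (nat_lit 0) (.cons (.rf (nat_lit 1) (nat_lit 581998510314561)) (.cons (.br (nat_lit 12) (nat_lit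 0) (.cons (.ev (nat_lit 4091369187542862320835766581051963870733) (nat_lit 4)) (.cons (.br (nat_lit 16) (nat_lit 0) (.cons (.zr (nat_lit 1363787984681627815214323067886011286016) (nat_lit 36346078016997367196490900225130497) (nat_lit 16) (nat_lit 11)) .nil)) .nil))) (.cons (.br (nat_lit 12) (nat_lit 0) (.cons (.br (nat_lit 16) (nat_lit 0) (.cons (.zr (nat_lit 1363787923834398980776604619908719968768) (nat_lit 15597172992475857005778859427102729) (nat_lit 16) (nat_lit 5)) .nil)) (.cons (.ev (nat_lit 348451807436972029915486063597871786232333) (nat_lit 4)) .nil))) .nil)))) .nil))))) .nil))))),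
 (.br (nat_lit 15) (nat_lit 0) (.cons (.ev (nat_lit 340282387203658761050758048675268657408) (nat_lit 1)) .nil)),
 (.br (nat_lit 10) (nat_lit 0) (.cons (.ev (nat_lit 2663668570837984447691211210580164611) (nat_lit 2)) (.cons (.kr (nat_lit 20282409608392483932369877729281) (nat_lit 5192296860952679411874942771265536) (nat_lit 0) (nat_lit 1)) (.cons (.kr (nat_lit 5192296858539568442038918955663361) (nat_lit 20282412021503453768393693331456) (nat_lit 0) (nat_lit 1)) (.cons (.br (nat_lit 11) (nat_lit 0) (.cons (.br (nat_lit 12) (nat_lit 0) (.cons (.ev (nat_lit 5212738345856119923057457700536833) (nat_lit 2)) (.cons (.rf (nat_lit 1) (nat_lit 582065957870657)) .nil))) (.cons (.ev (nat_lit 5212738343447713161472076704383491) (nat_lit 2)) (.cons (.br (nat_lit 5) (nat_lit 0) (.cons (.ev (nat_lit 5212738345856119923057457700536833) (nat_lit 2)) (.cons (.ev (nat_lit 341611615199132983006467641206575792128) (nat_lit 1)) (.cons (.br (nat_lit 16) (nat_lit 0) (.cons (.ev (nat_lit 5212738343438305321431526256148993) (nat_lit 2)) (.cons (.ev (nat_lit 341611615199134191913768454172297986048)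 (nat_lit 1)) .nil))) .nil)))) (.cons (.br (nat_lit 12) (nat_lit 0) (.cons (.rf (nat_lit 1) (nat_lit 582032671874113)) (.cons (.br (nat_lit 5) (nat_lit 0) (.cons (.ev (nat_lit 341616787213581914182425747755653726208) (nat_lit 1)) (.cons (.rf (nat_lit 433) (nat_lit 21174442659472845144426528)) .nil))) (.cons (.ev (nat_lit 5212738343438305321431526256148993) (nat_lit 2)) .nil)))) .nil))))) .nil))))),
 (.br (nat_lit 7) (nat_lit 0) (.cons (.ev (nat_lit 2663668570837984447691211210546610177) (nat_lit 2)) (.cons (.kr (nat_lit 20282409608392483932369877729281) (nat_lit 5192296860952679411874942771265536) (nat_lit 0) (nat_lit 1)) (.cons (.kr (nat_lit 5192296858539568442038918955663361) (nat_lit 20282412021503453768393693331456) (nat_lit 0) (nat_lit 1)) (.cons (.br (nat_lit 11) (nat_lit 0) (.cons (.br (nat_lit 12) (nat_lit 0) (.cons (.ev (nat_lit 5212738343438305321431526289703427) (nat_lit 2)) (.cons (.rf (nat_lit 1) (nat_lit 582065954728001)) .nil))) (.cons (.ev (nat_lit 5212738345865601550074285773554177) (nat_lit 2)) (.cons (.br (nat_lit 5) (nat_lit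 0) (.cons (.ev (nat_lit 5212738343438305321431526289703427) (nat_lit 2)) (.cons (.ev (nat_lit 341611615199134191913768454172281208833) (nat_lit 1)) (.cons (.br (nat_lit 12) (nat_lit 0) (.cons (.ev (nat_lit 5212738345856119923057457734091267) (nat_lit 2)) (.cons (.rf (nat_lit 353) (nat_lit 21168199557930012324759584)) .nil))) .nil)))) (.cons (.br (nat_lit 12) (nat_lit 0) (.cons (.rf (nat_lit 1) (nat_lit 582032668731457)) (.cons (.br (nat_lit 5) (nat_lit 0) (.cons (.ev (nat_lit 341616787213583123089726560721359142913) (nat_lit 1)) (.cons (.rf (nat_lit 103) (nat_lit 19991411317385341323806752)) .nil))) (.cons (.ev (nat_lit 5212738345856119923057457734091267) (nat_lit 2)) .nil)))) .nil))))) .nil))))),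
 (.br (nat_lit 5) (nat_lit 0) (.cons (.rf (nat_lit 435) (nat_lit 582561300427019506422819)) (.cons (.rf (nat_lit 434) (nat_lit 582561300427019506422819)) (.cons (.br (nat_lit 7) (nat_lit 0) (.cons (.ev (nat_lit 5253462245203730271274571720033287) (nat_lit 3)) (.cons (.br (nat_lit 10) (nat_lit 0) (.cons (.ev (nat_lit 2658496556390257475257449598729453571) (nat_lit 2)) (.cons (.rf (nat_lit 1) (nat_lit 581998308994113)) .nil))) .nil))) (.cons (.br (nat_lit 7) (nat_lit 0) (.cons (.br (nat_lit 12) (nat_lit 0) (.cons (.ev (nat_lit 1329228234397863204564942356050150147) (nat_lit 2)) (.cons (.rf (nat_lit 1) (nat_lit 582064945998913)) .nil))) (.cons (.rf (nat_lit 434) (nat_lit 37892109720976841159150)) (.cons (.ev (nat_lit 2663668570837984447690648269216677891) (nat_lit 2)) (.cons (.br (nat_lit 10) (nat_lit 0) (.cons (.rf (nat_lit 1) (nat_lit 581895395454017)) (.cons (.ev (nat_lit 2663668570840402262292274183447642113) (nat_lit 2)) (.cons (.br (nat_lit 17) (nat_lit 0) (.cons (.ev (nat_lit 5212738343438305321431526256148993) (nat_lit 2)) (.cons (.ev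 (nat_lit 87113620352052891310991064964236289572865) (nat_lit 1)) .nil))) .nil)))) .nil))))) .nil))))),
 (.br (nat_lit 5) (nat_lit 0) (.cons (.rf (nat_lit 435) (nat_lit 582561300427019506422819)) (.cons (.rf (nat_lit 434) (nat_lit 582561300427019506422819)) (.cons (.br (nat_lit 7) (nat_lit 0) (.cons (.ev (nat_lit 5253462245203730271274571720033287) (nat_lit 3)) (.cons (.br (nat_lit 10) (nat_lit 0) (.cons (.ev (nat_lit 2658496556390257475257449598729453571) (nat_lit 2)) (.cons (.rf (nat_lit 1) (nat_lit 581997235253313)) .nil))) .nil))) (.cons (.br (nat_lit 7) (nat_lit 0) (.cons (.br (nat_lit 11) (nat_lit 0) (.cons (.ev (nat_lit 1329228234400276315247110962257396482) (nat_lit 2)) (.cons (.rf (nat_lit 1) (nat_lit 582030586261569)) .nil))) (.cons (.rf (nat_lit 435) (nat_lit 41326551563244698807789)) (.cons (.ev (nat_lit 2663668570837974966064757323837079553) (nat_lit 2)) (.cons (.br (nat_lit 10) (nat_lit 0) (.cons (.rf (nat_lit 1) (nat_lit 581894321713217)) (.cons (.ev (nat_lit 2663668570840392854453359550153228291) (nat_lit 2)) (.cons (.br (nat_lit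 11) (nat_lit 0) (.cons (.rf (nat_lit 362) (nat_lit 19993403709500987282663456)) (.cons (.ev (nat_lit 5212738343438305321431526256148993) (nat_lit 2)) .nil))) .nil)))) .nil))))) .nil))))),
 (.br (nat_lit 10) (nat_lit 0) (.cons (.ev (nat_lit 2663668570840402262292274183447642113) (nat_lit 2)) (.cons (.ev (nat_lit 2663668570840392854453359550153228291) (nat_lit 2)) (.cons (.br (nat_lit 11) (nat_lit 0) (.cons (.ev (nat_lit 4091369187542862311427926540518594842117) (nat_lit 4)) (.cons (.br (nat_lit 12) (nat_lit 0) (.cons (.ev (nat_lit 1363793258426280171577234170045242934791) (nat_lit 3)) .nil)) .nil))) .nil)))),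
 (.br (nat_lit 7) (nat_lit 0) (.cons (.ev (nat_lit 5322165127229460238233629487668658179) (nat_lit 3)) (.cons (.ev (nat_lit 2663668570837984447690648269216677891) (nat_lit 2)) (.cons (.ev (nat_lit 2663668570837974966064757323837079553) (nat_lit 2)) (.cons (.rf (nat_lit 438) (nat_lit 19926519232773908561233952)) (.cons (.br (nat_lit 10) (nat_lit 0) (.cons (.ev (nat_lit 2663668570840402262292274183447642113) (nat_lit 2)) (.cons (.ev (nat_lit 2663668570840392854453359550153228291) (nat_lit 2)) (.cons (.rf (nat_lit 438) (nat_lit 19925374414261086301721635)) (.cons (.ev (nat_lit 2658496556390247993631558653349855233) (nat_lit 2)) .nil))))) .nil)))))),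
 (.br (nat_lit 16) (nat_lit 0) (.cons (.ev (nat_lit 1361134801957486882020322823441838507011) (nat_lit 3)) (.cons (.ev (nat_lit 1366451632810988149868508137750219981831) (nat_lit 3)) .nil))),
 (.br (nat_lit 10) (nat_lit 0) (.cons (.kr (nat_lit 20282409608392483932369877729281) (nat_lit 5192296860952679411874942771265536) (nat_lit 0) (nat_lit 1)) (.cons (.kr (nat_lit 5192296860952679411874942754488321) (nat_lit 20282409608392483932369894506496) (nat_lit 0) (nat_lit 1)) (.cons (.kr (nat_lit 4722366764344621924352) (nat_lit 1208925891672223212634112) (nat_lit 6) (nat_lit 0)) (.cons (.kr (nat_lit 5192296860952679411874942771265537) (nat_lit 20282409608392483932369877729792) (nat_lit 0) (nat_lit 2)) (.cons (.kr (nat_lit 1329227995784920595270571404902268928) (nat_lit 5192296859743753520202719541854208) (nat_lit 6) (nat_lit 0)) .nil)))))),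
 (.br (nat_lit 10) (nat_lit 0) (.cons (.kr (nat_lit 5192296858539568442038918955663361) (nat_lit 20282412021503453768393693331456) (nat_lit 0) (nat_lit 1)) (.cons (.kr (nat_lit 20282412021503453768393676554241) (nat_lit 5192296858539568442038918972440576) (nat_lit 0) (nat_lit 1)) (.cons (.kr (nat_lit 4722366764344621924352) (nat_lit 1208925891672223212634112) (nat_lit 6) (nat_lit 0)) (.cons (.kr (nat_lit 20282412021503453768393693331457) (nat_lit 5192296858539568442038918955663872) (nat_lit 0) (nat_lit 2)) (.cons (.kr (nat_lit 1329227995784920595270571404902268928) (nat_lit 20282410812577562096170463920128) (nat_lit 6) (nat_lit 0)) .nil)))))),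
 (.br (nat_lit 10) (nat_lit 0) (.cons (.kr (nat_lit 18446744078004519168) (nat_lit 1208925891672223229411328) (nat_lit 1) (nat_lit 0)) (.cons (.kr (nat_lit 1208925891672223212634113) (nat_lit 18446744078004519168) (nat_lit 0) (nat_lit 2)) (.cons (.kr (nat_lit 5192296860952679411874942771265537) (nat_lit 20282409608392483932369877729792) (nat_lit 0) (nat_lit 2)) (.cons (.kr (nat_lit 20282412021503453768393693331457) (nat_lit 5192296858539568442038918955663872) (nat_lit 0) (nat_lit 2)) (.cons (.kr (nat_lit 1208925891672223229411329) (nat_lit 18446744078004519424) (nat_lit 0) (nat_lit 2)) (.cons (.kr (nat_lit 5212579270556331082298890022551553) (nat_lit 2658455991569836486621122543187132928) (nat_lit 0) (nat_lit 2)) .nil))))))),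
 (.br (nat_lit 7) (nat_lit 0) (.cons (.rf (nat_lit 441) (nat_lit 639559650685859810260726254)) (.cons (.br (nat_lit 5) (nat_lit 0) (.cons (.rf (nat_lit 1) (nat_lit 582168020889762)) (.cons (.br (nat_lit 16) (nat_lit 0) (.cons (.ev (nat_lit 1361134801957486882020322823441838505991) (nat_lit 3)) (.cons (.ev (nat_lit 1366451632810988149868508137750219980803) (nat_lit 3)) .nil))) (.cons (.br (nat_lit 12) (nat_lit 0) (.cons (.br (nat_lit 16) (nat_lit 0) (.cons (.ev (nat_lit 1361134801957486882020322823441771398151) (nat_lit 3)) .nil)) (.cons (.ev (nat_lit 348449148980503226973412344988023222435843) (nat_lit 3)) .nil))) .nil)))) (.cons (.rf (nat_lit 442) (nat_lit 677582165103132179601393696)) (.cons (.rf (nat_lit 443) (nat_lit 677582165103132179601393696)) (.cons (.rf (nat_lit 443) (nat_lit 639559650685859810260726254)) .nil)))))),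
 (.br (nat_lit 7) (nat_lit 0) (.cons (.rf (nat_lit 441) (nat_lit 639559650685859810260726254)) (.cons (.br (nat_lit 5) (nat_lit 0) (.cons (.rf (nat_lit 1) (nat_lit 582168020921506)) (.cons (.br (nat_lit 16) (nat_lit 0) (.cons (.ev (nat_lit 1361134801957486882020322823441838505991) (nat_lit 3)) (.cons (.ev (nat_lit 1366451632810988130905256355893954740231) (nat_lit 3)) .nil))) (.cons (.br (nat_lit 11) (nat_lit 0) (.cons (.br (nat_lit 16) (nat_lit 0) (.cons (.ev (nat_lit 1361134801957486882020322823441771398151) (nat_lit 3)) .nil)) (.cons (.ev (nat_lit 348449148980503226954449093206166822977543) (nat_lit 3)) .nil))) .nil)))) (.cons (.rf (nat_lit 441) (nat_lit 677582165103132179601393696)) (.cons (.rf (nat_lit 443) (nat_lit 677582165103132179601393696)) (.cons (.rf (nat_lit 443) (nat_lit 639559650685859810260726254)) .nil))))))]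

theorem c23 : chkAll C T R L23 (nat_lit 431) = true := by decide +kernel

theorem l23 : (nat_lit 431) + L23.length = (nat_lit 446) := by decide +kernel

/-- part of the certificates -/
def L24 : List Prf := [(.br (nat_lit 7) (nat_lit 0) (.cons (.rf (nat_lit 441) (nat_lit 639559650685859810260726254)) (.cons (.br (nat_lit 5) (nat_lit 0) (.cons (.rf (nat_lit 445) (nat_lit 677581020284619357341881379)) (.cons (.rf (nat_lit 444) (nat_lit 677581020284619357341881379)) (.cons (.ev (nat_lit 1361134801957486900983574605298103747591) (nat_lit 3)) (.cons (.br (nat_lit 16) (nat_lit 0) (.cons (.ev (nat_lit 1366451632810988149868508137750287089671) (nat_lit 3)) (.cons (.ev (nat_lit 1366451632810988130905256355893887631363) (nat_lit 3)) (.cons (.ev (nat_lit 1361134801957486900983574605298170855431) (nat_lit 3)) .nil)))) .nil))))) (.cons (.rf (nat_lit 441) (nat_lit 677582165103132179601393696)) (.cons (.rf (nat_lit 442) (nat_lit 677582165103132179601393696)) (.cons (.rf (nat_lit 443) (nat_lit 677582165103132179601393696)) (.cons (.rf (nat_lit 443) (nat_lit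 639559650685859810260726254)) .nil))))))),
 (.br (nat_lit 9) (nat_lit 0) (.cons (.br (nat_lit 1) (nat_lit 0) (.cons (.kr (nat_lit 1) (nat_lit 256) (nat_lit 0) (nat_lit 2)) (.cons (.kr (nat_lit 256) (nat_lit 16777216) (nat_lit 1) (nat_lit 0)) (.cons (.rf (nat_lit 415) (nat_lit 407901468851537952)) (.cons (.rf (nat_lit 415) (nat_lit 404413924172108835)) (.cons (.kr (nat_lit 4722366764344638701569) (nat_lit 18446744078004519424) (nat_lit 0) (nat_lit 2)) (.cons (.rf (nat_lit 414) (nat_lit 14242959524133701664)) (.cons (.br (nat_lit 2) (nat_lit 0) (.cons (.br (nat_lit 7) (nat_lit 0) (.cons (.br (nat_lit 12) (nat_lit 0) (.cons (.ev (nat_lit 1240362705958002790714311681) (nat_lit 3)) (.cons (.rf (nat_lit 414) (nat_lit 15395881028740548640)) (.cons (.br (nat_lit 12) (nat_lit 0) (.cons (.ev (nat_lit 1240362705958002790714311681) (nat_lit 3)) (.cons (.rf (nat_lit 414) (nat_lit 16548802533347395616)) .nil))) .nil)))) (.cons (.rf (nat_lit 416) (nat_lit 14242959524133701664)) (.cons (.rf (nat_lit 417) (nat_lit 14242959524133701664)) (.cons (.rf (nat_lit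 414) (nat_lit 15395881028740548640)) (.cons (.br (nat_lit 10) (nat_lit 0) (.cons (.rf (nat_lit 416) (nat_lit 14239471979454272547)) (.cons (.rf (nat_lit 417) (nat_lit 14239471979454272547)) (.cons (.br (nat_lit 11) (nat_lit 0) (.cons (.ev (nat_lit 620193112778770591193760258) (nat_lit 2)) (.cons (.ev (nat_lit 618974797493801895587741699) (nat_lit 2)) (.cons (.rf (nat_lit 414) (nat_lit 16548802533347395616)) .nil)))) (.cons (.rf (nat_lit 414) (nat_lit 16548802533347395616)) .nil))))) .nil)))))) (.cons (.rf (nat_lit 418) (nat_lit 14242959524133701664)) (.cons (.rf (nat_lit 419) (nat_lit 14242959524133701664)) (.cons (.rf (nat_lit 420) (nat_lit 14242959524133701664)) (.cons (.rf (nat_lit 421) (nat_lit 14242959524133701664)) (.cons (.rf (nat_lit 414) (nat_lit 15395881028740548640)) (.cons (.br (nat_lit 5) (nat_lit 0) (.cons (.rf (nat_lit 419) (nat_lit 14239471979454272547)) (.cons (.rf (nat_lit 418) (nat_lit 14239471979454272547)) (.cons (.rf (nat_lit 420) (nat_lit 14239471979454272547)) (.cons (.rf (nat_lit 421) (nat_lit 14239471979454272547))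 (.cons (.br (nat_lit 7) (nat_lit 0) (.cons (.br (nat_lit 11) (nat_lit 0) (.cons (.ev (nat_lit 1240362705958002790714311681) (nat_lit 3)) (.cons (.ev (nat_lit 81130883612941844076325335203845) (nat_lit 3)) (.cons (.rf (nat_lit 414) (nat_lit 16548802533347395616)) .nil)))) (.cons (.br (nat_lit 10) (nat_lit 0) (.cons (.kr (nat_lit 2417851783344446442045441) (nat_lit 4740813508422626443776) (nat_lit 0) (nat_lit 2)) (.cons (.ev (nat_lit 20282720302309677866514812764161) (nat_lit 1)) (.cons (.rf (nat_lit 414) (nat_lit 16548802533347395616)) .nil)))) (.cons (.rf (nat_lit 422) (nat_lit 493858305440582043680)) (.cons (.br (nat_lit 10) (nat_lit 0) (.cons (.ev (nat_lit 20282719093402377053557663727616) (nat_lit 1)) (.cons (.rf (nat_lit 422) (nat_lit 493854817895902614563)) (.cons (.rf (nat_lit 414) (nat_lit 16548802533347395616)) .nil)))) (.cons (.rf (nat_lit 414) (nat_lit 16548802533347395616)) .nil)))))) (.cons (.rf (nat_lit 414) (nat_lit 16548802533347395616)) .nil))))))) .nil)))))))) .nil)))))))) (.cons (.br (nat_lit 11) (nat_lit 1) (.cons (.br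 (nat_lit 13) (nat_lit 1) (.cons (.br (nat_lit 12) (nat_lit 1) (.cons (.rf (nat_lit 230) (nat_lit 17021019601378295777312)) (.cons (.br (nat_lit 13) (nat_lit 0) (.cons (.br (nat_lit 14) (nat_lit 0) (.cons (.br (nat_lit 1) (nat_lit 0) (.cons (.kr (nat_lit 1) (nat_lit 256) (nat_lit 0) (nat_lit 2)) (.cons (.kr (nat_lit 256) (nat_lit 16777216) (nat_lit 1) (nat_lit 0)) (.cons (.rf (nat_lit 431) (nat_lit 583706118939841765935136)) (.cons (.rf (nat_lit 431) (nat_lit 582561300427019506422819)) (.cons (.kr (nat_lit 20282409608374037188291889987585) (nat_lit 5192296858534846075274574333739520) (nat_lit 0) (nat_lit 2)) (.cons (.kr (nat_lit 5192296858539549995294840967921665) (nat_lit 20282409603670117168025255805440) (nat_lit 0) (nat_lit 2)) (.cons (.br (nat_lit 2) (nat_lit 0) (.cons (.rf (nat_lit 432) (nat_lit 583706118939841765935136)) (.cons (.rf (nat_lit 434) (nat_lit 583706118939841765935136)) (.cons (.rf (nat_lit 435) (nat_lit 583706118939841765935136)) (.cons (.rf (nat_lit 436) (nat_lit 583706118939841765935136)) (.cons (.rf (nat_lit 437) (nat_lit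 583706118939841765935136)) (.cons (.br (nat_lit 5) (nat_lit 0) (.cons (.rf (nat_lit 435) (nat_lit 582561300427019506422819)) (.cons (.rf (nat_lit 434) (nat_lit 582561300427019506422819)) (.cons (.rf (nat_lit 437) (nat_lit 582561300427019506422819)) (.cons (.rf (nat_lit 436) (nat_lit 582561300427019506422819)) (.cons (.rf (nat_lit 439) (nat_lit 19926519232773908561233952)) (.cons (.br (nat_lit 11) (nat_lit 0) (.cons (.rf (nat_lit 435) (nat_lit 41326551563244698807789)) (.cons (.rf (nat_lit 434) (nat_lit 41326551563244698807789)) (.cons (.rf (nat_lit 432) (nat_lit 41326551563244698807789)) (.cons (.br (nat_lit 12) (nat_lit 0) (.cons (.rf (nat_lit 434) (nat_lit 37892109720976841159150)) (.cons (.rf (nat_lit 435) (nat_lit 37892109720976841159150)) (.cons (.rf (nat_lit 439) (nat_lit 19384139665397311494106605)) (.cons (.br (nat_lit 7) (nat_lit 0) (.cons (.ev (nat_lit 2663790742526317723735740318237197827) (nat_lit 3)) (.cons (.ev (nat_lit 1369110170091264428232769351668275216899) (nat_lit 3)) (.cons (.ev (nat_lit 348457124429448497141911617150215518552579)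 (nat_lit 3)) .nil)))) .nil))))) (.cons (.br (nat_lit 12) (nat_lit 0) (.cons (.rf (nat_lit 434) (nat_lit 37892109720976841159150)) (.cons (.rf (nat_lit 435) (nat_lit 37892109720976841159150)) (.cons (.br (nat_lit 7) (nat_lit 0) (.cons (.ev (nat_lit 2663790742526317723735740318237197827) (nat_lit 3)) (.cons (.ev (nat_lit 1369110170091264409269517569811875758599) (nat_lit 3)) (.cons (.ev (nat_lit 348457124429448497160874868932071783793159) (nat_lit 3)) .nil)))) (.cons (.rf (nat_lit 439) (nat_lit 20593065485011940668812781)) .nil))))) .nil)))))) .nil))))))) .nil))))))) (.cons (.br (nat_lit 15) (nat_lit 0) (.cons (.kr (nat_lit 5212579268138497745698521585025025) (nat_lit 2658455991569836468174378465199390720) (nat_lit 0) (nat_lit 1)) (.cons (.kr (nat_lit 2658455991569836468174378465182613505) (nat_lit 5212579268138497745698521601802240) (nat_lit 0) (nat_lit 1)) (.cons (.rf (nat_lit 431) (nat_lit 37892109720976841159150)) (.cons (.rf (nat_lit 431) (nat_lit 41326551563244698807789)) (.cons (.kr (nat_lit 20282409603651670423947251286016) (nat_lit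 1329227995784915872903807060280344576) (nat_lit 13) (nat_lit 0)) (.cons (.kr (nat_lit 5192296858534827628530496329220096) (nat_lit 1329227995784915872903807060280344576) (nat_lit 14) (nat_lit 0)) (.cons (.kr (nat_lit 2658455991569836468174378465199390721) (nat_lit 5212579268138497745698521585025536) (nat_lit 0) (nat_lit 2)) (.cons (.br (nat_lit 2) (nat_lit 0) (.cons (.br (nat_lit 7) (nat_lit 0) (.cons (.br (nat_lit 11) (nat_lit 0) (.cons (.rf (nat_lit 1) (nat_lit 582170302392546)) (.cons (.rf (nat_lit 440) (nat_lit 677582165103132179601393696)) (.cons (.rf (nat_lit 446) (nat_lit 639563085127702078118374893)) .nil)))) (.cons (.rf (nat_lit 441) (nat_lit 677582165103132179601393696)) (.cons (.rf (nat_lit 442) (nat_lit 677582165103132179601393696)) (.cons (.rf (nat_lit 443) (nat_lit 677582165103132179601393696)) (.cons (.rf (nat_lit 443) (nat_lit 639559650685859810260726254)) .nil)))))) (.cons (.rf (nat_lit 442) (nat_lit 639559650685859810260726254)) (.cons (.rf (nat_lit 441) (nat_lit 639563085127702078118374893)) (.cons (.rf (nat_lit 444) (nat_lit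 677582165103132179601393696)) (.cons (.rf (nat_lit 445) (nat_lit 677582165103132179601393696)) (.cons (.rf (nat_lit 446) (nat_lit 677582165103132179601393696)) (.cons (.br (nat_lit 5) (nat_lit 0) (.cons (.rf (nat_lit 441) (nat_lit 639559650685859810260726254)) (.cons (.rf (nat_lit 442) (nat_lit 639563085127702078118374893)) (.cons (.rf (nat_lit 445) (nat_lit 677581020284619357341881379)) (.cons (.rf (nat_lit 444) (nat_lit 677581020284619357341881379)) (.cons (.rf (nat_lit 446) (nat_lit 677581020284619357341881379)) (.cons (.br (nat_lit 7) (nat_lit 0) (.cons (.br (nat_lit 11) (nat_lit 0) (.cons (.ev (nat_lit 348454465973616005051510641912053348958211) (nat_lit 3)) (.cons (.br (nat_lit 12) (nat_lit 0) (.cons (.ev (nat_lit 1361134801957486882020322823441771398151) (nat_lit 3)) .nil)) .nil))) (.cons (.rf (nat_lit 441) (nat_lit 677582165103132179601393696)) (.cons (.rf (nat_lit 442) (nat_lit 677582165103132179601393696)) (.cons (.rf (nat_lit 443) (nat_lit 677582165103132179601393696)) .nil))))) .nil))))))) .nil)))))))) .nil))))))))) .nil)))))))))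 .nil)) .nil)) .nil))) .nil)) .nil)) .nil))),
 (.br (nat_lit 15) (nat_lit 0) (.cons (.ev (nat_lit 1329228075323777063622331295078547713) (nat_lit 1)) .nil)),
 (.br (nat_lit 11) (nat_lit 0) (.cons (.ev (nat_lit 1334420292954149376986524197863817473) (nat_lit 1)) (.cons (.rf (nat_lit 448) (nat_lit 19926519232773908561233952)) .nil))),
 (.br (nat_lit 14) (nat_lit 0) (.cons (.ev (nat_lit 5192297169233504154774735916433408) (nat_lit 1)) .nil)),
 (.br (nat_lit 10) (nat_lit 0) (.cons (.ev (nat_lit 5212579269352146003853614442938368) (nat_lit 1)) (.cons (.rf (nat_lit 450) (nat_lit 583706118939841765935136)) .nil))),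
 (.br (nat_lit 14) (nat_lit 0) (.cons (.ev (nat_lit 5192297169233504154774735916433408) (nat_lit 1)) .nil)),
 (.br (nat_lit 13) (nat_lit 0) (.cons (.ev (nat_lit 5192296858534827700870664872329473) (nat_lit 1)) .nil)),
 (.br (nat_lit 11) (nat_lit 0) (.cons (.rf (nat_lit 429) (nat_lit 19926483420220040455227424)) (.cons (.ev (nat_lit 340282387282576229647756395620778180608) (nat_lit 1)) .nil))),
 (.br (nat_lit 9) (nat_lit 0) (.cons (.ev (nat_lit 20361948464842461006875599044608) (nat_lit 1)) (.cons (.rf (nat_lit 246) (nat_lit 15878326722704906949696)) .nil))),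
 (.br (nat_lit 13) (nat_lit 0) (.cons (.ev (nat_lit 20282719093402377054652880388096) (nat_lit 1)) .nil)),
 (.br (nat_lit 8) (nat_lit 0) (.cons (.ev (nat_lit 20361637770906820047177699557376) (nat_lit 1)) (.cons (.rf (nat_lit 456) (nat_lit 17022140995484340291616)) .nil))),
 (.br (nat_lit 13) (nat_lit 0) (.cons (.ev (nat_lit 20361637770906820047177699557376) (nat_lit 1)) .nil)),
 (.br (nat_lit 9) (nat_lit 0) (.cons (.ev (nat_lit 20282410817318375324213330313216) (nat_lit 1)) (.cons (.rf (nat_lit 458) (nat_lit 17022140995484340291616)) .nil))),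
 (.br (nat_lit 8) (nat_lit 0) (.cons (.ev (nat_lit 20282410817318375324213330313216) (nat_lit 1)) (.cons (.br (nat_lit 13) (nat_lit 0) (.cons (.ev (nat_lit 20361948464842461006875599044608) (nat_lit 1)) .nil)) .nil))),
 (.br (nat_lit 15) (nat_lit 0) (.cons (.kr (nat_lit 5212579268143201665437317537464321) (nat_lit 2658455991569831764254639669246951936) (nat_lit 0) (nat_lit 2)) (.cons (.kr (nat_lit 2658455991569831764254639669246951937) (nat_lit 5212579268143201665437317571018752) (nat_lit 0) (nat_lit 2)) (.cons (.kr (nat_lit 1329227995784915891350551133989896448) (nat_lit 20282409608374036906816913276928) (nat_lit 1) (nat_lit 0)) (.cons (.kr (nat_lit 5192296858534827628530496329220096) (nat_lit 1329227995784915872903807060280344576) (nat_lit 14) (nat_lit 0)) (.cons (.kr (nat_lit 20282409603651670423947251286016) (nat_lit 1329227995784915872903807060280344576) (nat_lit 13) (nat_lit 0)) (.cons (.br (nat_lit 2) (nat_lit 0) (.cons (.ev (nat_lit 5253144087350523597991097812516867) (nat_lit 2)) (.cons (.br (nat_lit 5) (nat_lit 0) (.cons (.ev (nat_lit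 5253144087350523597428156415476227) (nat_lit 2)) (.cons (.ev (nat_lit 5253144087360005224444984522048001) (nat_lit 2)) (.cons (.ev (nat_lit 2663668570837984447691211210580165121) (nat_lit 2)) (.cons (.br (nat_lit 11) (nat_lit 0) (.cons (.rf (nat_lit 1) (nat_lit 616255167113281)) (.cons (.rf (nat_lit 449) (nat_lit 21174442659472880612509728)) (.cons (.br (nat_lit 17) (nat_lit 0) (.cons (.ev (nat_lit 87112291144339514789825636998539437473793) (nat_lit 1)) (.cons (.ev (nat_lit 87113620352052890102046870381652466532353) (nat_lit 1)) .nil))) .nil)))) .nil))))) (.cons (.br (nat_lit 5) (nat_lit 0) (.cons (.ev (nat_lit 5253144087350523597428156415476227) (nat_lit 2)) (.cons (.ev (nat_lit 5253144087360005223882043158560771) (nat_lit 2)) (.cons (.ev (nat_lit 2663668570837984447690648269216677891) (nat_lit 2)) (.cons (.br (nat_lit 10) (nat_lit 0) (.cons (.rf (nat_lit 1) (nat_lit 616255133559873)) (.cons (.rf (nat_lit 451) (nat_lit 661701333108527519141953)) (.cons (.br (nat_lit 12) (nat_lit 0) (.cons (.rf (nat_lit 353) (nat_lit 19998602151860035551070240))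 (.cons (.ev (nat_lit 87112291144339514789825636998539437473793) (nat_lit 1)) .nil))) .nil)))) .nil))))) (.cons (.br (nat_lit 5) (nat_lit 0) (.cons (.ev (nat_lit 5253144087360005224444984522048001) (nat_lit 2)) (.cons (.ev (nat_lit 5253144087360005223882043158560771) (nat_lit 2)) (.cons (.ev (nat_lit 2663668570837974966064757323837079553) (nat_lit 2)) (.cons (.br (nat_lit 10) (nat_lit 0) (.cons (.rf (nat_lit 1) (nat_lit 616254059819073)) (.cons (.br (nat_lit 11) (nat_lit 0) (.cons (.ev (nat_lit 341616807575530378987849430575989391360) (nat_lit 1)) (.cons (.rf (nat_lit 452) (nat_lit 661701333108527519141953)) .nil))) (.cons (.br (nat_lit 17) (nat_lit 0) (.cons (.ev (nat_lit 87112291144339514789825636998539437473793) (nat_lit 1)) (.cons (.ev (nat_lit 87113620352052890097342950924335819325440) (nat_lit 1)) .nil))) .nil)))) .nil))))) (.cons (.br (nat_lit 5) (nat_lit 0) (.cons (.ev (nat_lit 2663668570837984447691211210580165121) (nat_lit 2)) (.cons (.ev (nat_lit 2663668570837984447690648269216677891) (nat_lit 2)) (.cons (.ev (nat_lit 2663668570837974966064757323837079553)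 (nat_lit 2)) (.cons (.ev (nat_lit 5253144087350523597991097778962433) (nat_lit 2)) (.cons (.br (nat_lit 10) (nat_lit 0) (.cons (.br (nat_lit 12) (nat_lit 0) (.cons (.ev (nat_lit 340287559297335859463275199568457760768) (nat_lit 1)) (.cons (.rf (nat_lit 453) (nat_lit 20678092277608895055904)) .nil))) (.cons (.br (nat_lit 11) (nat_lit 0) (.cons (.ev (nat_lit 340287559297335859463275199568457760768) (nat_lit 1)) (.cons (.br (nat_lit 16) (nat_lit 0) (.cons (.ev (nat_lit 341611594996262240508550476132408885248) (nat_lit 1)) .nil)) .nil))) (.cons (.br (nat_lit 11) (nat_lit 0) (.cons (.ev (nat_lit 340287559297335859463275199568457760768) (nat_lit 1)) (.cons (.br (nat_lit 12) (nat_lit 0) (.cons (.ev (nat_lit 340282387282886928287317093019379826688) (nat_lit 1)) .nil)) .nil))) (.cons (.br (nat_lit 17) (nat_lit 0) (.cons (.ev (nat_lit 87113620352052890102046870381652466532353) (nat_lit 1)) (.cons (.ev (nat_lit 87113620352052890097342950924335819325440) (nat_lit 1)) (.cons (.ev (nat_lit 87112285931760246651346338044095856967681) (nat_lit 1)) .nil))))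 .nil))))) .nil)))))) (.cons (.br (nat_lit 5) (nat_lit 0) (.cons (.br (nat_lit 11) (nat_lit 0) (.cons (.rf (nat_lit 1) (nat_lit 616255163967649)) (.cons (.rf (nat_lit 449) (nat_lit 21174442659472880609268771)) (.cons (.rf (nat_lit 454) (nat_lit 21174442659472880577906720)) .nil)))) (.cons (.br (nat_lit 10) (nat_lit 0) (.cons (.rf (nat_lit 1) (nat_lit 616255130414241)) (.cons (.rf (nat_lit 455) (nat_lit 20678166659641484973121)) (.cons (.br (nat_lit 12) (nat_lit 0) (.cons (.rf (nat_lit 353) (nat_lit 19998602151860035450311715)) (.cons (.ev (nat_lit 87112291144339514789825636998539454251008) (nat_lit 1)) .nil))) .nil)))) (.cons (.br (nat_lit 10) (nat_lit 0) (.cons (.rf (nat_lit 1) (nat_lit 616254056673441)) (.cons (.rf (nat_lit 457) (nat_lit 20678166659641484973121)) (.cons (.br (nat_lit 17) (nat_lit 0) (.cons (.ev (nat_lit 87112291144339514789825636998539454251008) (nat_lit 1)) (.cons (.ev (nat_lit 87113620352052890097342950924335802548225) (nat_lit 1)) .nil))) .nil)))) (.cons (.br (nat_lit 10) (nat_lit 0) (.cons (.rf (nat_lit 459) (nat_lit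 20678166659641484973121)) (.cons (.rf (nat_lit 460) (nat_lit 20678166659641484973121)) (.cons (.br (nat_lit 11) (nat_lit 0) (.cons (.ev (nat_lit 340287559297335859463275199568474537985) (nat_lit 1)) (.cons (.br (nat_lit 12) (nat_lit 0) (.cons (.ev (nat_lit 340282387282886928287317093019396603905) (nat_lit 1)) .nil)) .nil))) (.cons (.br (nat_lit 17) (nat_lit 0) (.cons (.ev (nat_lit 87113620352052890102046870381652483309568) (nat_lit 1)) (.cons (.ev (nat_lit 87113620352052890097342950924335802548225) (nat_lit 1)) (.cons (.ev (nat_lit 87112285931760246651346338044095873744896) (nat_lit 1)) .nil)))) .nil))))) (.cons (.ev (nat_lit 5253144087350523597991097778962433) (nat_lit 2)) .nil)))))) .nil))))))) .nil)))))))]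

theorem c24 : chkAll C T R L24 (nat_lit 446) = true := by decide +kernel

theorem l24 : (nat_lit 446) + L24.length = (nat_lit 462) := by decide +kernel

/-- part of the certificates -/
def L25 : List Prf := [(.br (nat_lit 11) (nat_lit 0) (.cons (.rf (nat_lit 65) (nat_lit 19910788546475190111316429)) (.cons (.ev (nat_lit 340282387282576234351747909440558334208) (nat_lit 1)) .nil))),
 (.br (nat_lit 14) (nat_lit 0) (.cons (.ev (nat_lit 1329228075322563415508573969079861248) (nat_lit 1)) .nil)),
 (.br (nat_lit 10) (nat_lit 0) (.cons (.ev (nat_lit 1329248357422682057357652847606366208) (nat_lit 1)) .nil)),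
 (.br (nat_lit 15) (nat_lit 0) (.cons (.ev (nat_lit 1329228075323772322809386926228963328) (nat_lit 1)) .nil)),
 (.br (nat_lit 15) (nat_lit 0) (.cons (.kr (nat_lit 5192296858534827628530496329220097) (nat_lit 1329227995784915872903807060280344832) (nat_lit 0) (nat_lit 2)) (.cons (.kr (nat_lit 1329227995784915872903807060280344832) (nat_lit 5192296858534827628530496345997312) (nat_lit 1) (nat_lit 0)) (.cons (.kr (nat_lit 2658455991569831764254639669246951425) (nat_lit 5212579268143201665437317537464320) (nat_lit 0) (nat_lit 1)) (.cons (.kr (nat_lit 5212579268143201665718788219207681) (nat_lit 2658455991569831764254358198565208576) (nat_lit 0) (nat_lit 2)) (.cons (.kr (nat_lit 20282409603651670423947251286016) (nat_lit 1329227995784915872903807060280344576) (nat_lit 13) (nat_lit 0)) (.cons (.br (nat_lit 7) (nat_lit 0) (.cons (.br (nat_lit 10) (nat_lit 0) (.cons (.ev (nat_lit 5253144089777819970183904985350147) (nat_lit 2)) (.cons (.ev (nat_lit 5253144089768412130143354570670593) (nat_lit 2)) (.cons (.ev (nat_lit 2663668570840392854596909580628787713)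 (nat_lit 2)) (.cons (.br (nat_lit 5) (nat_lit 0) (.cons (.rf (nat_lit 1) (nat_lit 616254971157569)) (.cons (.br (nat_lit 12) (nat_lit 0) (.cons (.ev (nat_lit 341616807575529170080476561115757740289) (nat_lit 1)) (.cons (.rf (nat_lit 63) (nat_lit 21157493297952810842107374)) .nil))) (.cons (.rf (nat_lit 106) (nat_lit 677568035678339478848740708)) .nil)))) .nil))))) (.cons (.br (nat_lit 10) (nat_lit 0) (.cons (.ev (nat_lit 5253144089777819970183904985350147) (nat_lit 2)) (.cons (.ev (nat_lit 5253144089768412130143354604225027) (nat_lit 2)) (.cons (.ev (nat_lit 2663668570840392854596909580662342147) (nat_lit 2)) (.cons (.br (nat_lit 2) (nat_lit 0) (.cons (.rf (nat_lit 1) (nat_lit 616249602453569)) (.cons (.br (nat_lit 12) (nat_lit 0) (.cons (.ev (nat_lit 341616807575529170080476561115740963072) (nat_lit 1)) (.cons (.br (nat_lit 16) (nat_lit 0) (.cons (.ev (nat_lit 340282387282885714639130715145111666945) (nat_lit 1)) .nil)) .nil))) (.cons (.rf (nat_lit 462) (nat_lit 21174442659472845144426528)) .nil)))) .nil))))) (.cons (.ev (nat_lit 5253144089777819969620946475549187)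 (nat_lit 2)) (.cons (.br (nat_lit 10) (nat_lit 0) (.cons (.ev (nat_lit 5253144089768412130143354570670593) (nat_lit 2)) (.cons (.ev (nat_lit 5253144089768412130143354604225027) (nat_lit 2)) (.cons (.ev (nat_lit 2663668570840402262436950131077021697) (nat_lit 2)) (.cons (.br (nat_lit 2) (nat_lit 0) (.cons (.rf (nat_lit 1) (nat_lit 616255038264385)) (.cons (.br (nat_lit 5) (nat_lit 0) (.cons (.ev (nat_lit 341616807575529165339663052701704454145) (nat_lit 1)) (.cons (.br (nat_lit 16) (nat_lit 0) (.cons (.ev (nat_lit 340282387282885714639130715145111666945) (nat_lit 1)) .nil)) .nil))) (.cons (.br (nat_lit 17) (nat_lit 0) (.cons (.ev (nat_lit 87112291144339515994029090129203767017728) (nat_lit 1)) (.cons (.ev (nat_lit 87113620352052891310991137020730832584705) (nat_lit 1)) .nil))) .nil)))) .nil))))) (.cons (.br (nat_lit 10) (nat_lit 0) (.cons (.ev (nat_lit 2663668570840392854596909580628787713) (nat_lit 2)) (.cons (.ev (nat_lit 2663668570840392854596909580662342147) (nat_lit 2)) (.cons (.ev (nat_lit 2663668570840402262436950131077021697) (nat_lit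 2)) (.cons (.ev (nat_lit 5253144089777819970183905018904577) (nat_lit 2)) (.cons (.br (nat_lit 2) (nat_lit 0) (.cons (.br (nat_lit 12) (nat_lit 0) (.cons (.ev (nat_lit 340287559297334645815088821694172823553) (nat_lit 1)) (.cons (.rf (nat_lit 45) (nat_lit 661687416806494152168483)) .nil))) (.cons (.br (nat_lit 5) (nat_lit 0) (.cons (.ev (nat_lit 340287559297334645815088821694172823553) (nat_lit 1)) (.cons (.rf (nat_lit 463) (nat_lit 661701333108527519141953)) .nil))) (.cons (.br (nat_lit 5) (nat_lit 0) (.cons (.ev (nat_lit 340287559297334645815088821694172823553) (nat_lit 1)) (.cons (.rf (nat_lit 464) (nat_lit 661701333108527519141953)) .nil))) (.cons (.br (nat_lit 5) (nat_lit 0) (.cons (.rf (nat_lit 2) (nat_lit 19061633008977424545)) (.cons (.rf (nat_lit 87) (nat_lit 20678131746706027752485)) (.cons (.ev (nat_lit 87113620352052891306250323512316796076288) (nat_lit 1)) .nil)))) .nil))))) .nil)))))) (.cons (.br (nat_lit 10) (nat_lit 0) (.cons (.br (nat_lit 5) (nat_lit 0) (.cons (.rf (nat_lit 1) (nat_lit 616254968014913)) (.cons (.br (nat_lit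 12) (nat_lit 0) (.cons (.ev (nat_lit 341616807575529170080476279645075996672) (nat_lit 1)) (.cons (.rf (nat_lit 100) (nat_lit 21174368933038886124398950)) .nil))) (.cons (.br (nat_lit 17) (nat_lit 0) (.cons (.ev (nat_lit 87112291144339515994029090410674448760833) (nat_lit 1)) (.cons (.ev (nat_lit 87113620352052891306250323793787477819393) (nat_lit 1)) .nil))) .nil)))) (.cons (.br (nat_lit 2) (nat_lit 0) (.cons (.rf (nat_lit 1) (nat_lit 616252820533313)) (.cons (.br (nat_lit 12) (nat_lit 0) (.cons (.ev (nat_lit 341616807575529170080476279645059219457) (nat_lit 1)) (.cons (.rf (nat_lit 100) (nat_lit 21174368932936531685026150)) .nil))) (.cons (.br (nat_lit 17) (nat_lit 0) (.cons (.ev (nat_lit 87112291144339515994029090410674448760833) (nat_lit 1)) (.cons (.ev (nat_lit 87113620352052891306250323793787477819393) (nat_lit 1)) .nil))) .nil)))) (.cons (.br (nat_lit 2) (nat_lit 0) (.cons (.rf (nat_lit 1) (nat_lit 616255135781953)) (.cons (.br (nat_lit 5) (nat_lit 0) (.cons (.ev (nat_lit 341616807575529165339663334172386197760) (nat_lit 1)) (.cons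 (.rf (nat_lit 465) (nat_lit 21174442659471745632798752)) .nil))) (.cons (.br (nat_lit 17) (nat_lit 0) (.cons (.ev (nat_lit 87112291144339515994029090410674448760833) (nat_lit 1)) (.cons (.ev (nat_lit 87113620352052891310991136739260150841600) (nat_lit 1)) .nil))) .nil)))) (.cons (.br (nat_lit 2) (nat_lit 0) (.cons (.br (nat_lit 12) (nat_lit 0) (.cons (.ev (nat_lit 340287559297334645815089103164854567168) (nat_lit 1)) (.cons (.rf (nat_lit 38) (nat_lit 20678131756534962885697)) .nil))) (.cons (.br (nat_lit 5) (nat_lit 0) (.cons (.ev (nat_lit 340287559297334645815089103164854567168) (nat_lit 1)) (.cons (.br (nat_lit 16) (nat_lit 0) (.cons (.ev (nat_lit 341611594996261026860364379728822468608) (nat_lit 1)) .nil)) .nil))) (.cons (.br (nat_lit 5) (nat_lit 0) (.cons (.ev (nat_lit 340287559297334645815089103164854567168) (nat_lit 1)) (.cons (.br (nat_lit 12) (nat_lit 0) (.cons (.ev (nat_lit 340282387282885714639130996615793410048) (nat_lit 1)) .nil)) .nil))) (.cons (.br (nat_lit 17) (nat_lit 0) (.cons (.ev (nat_lit 87113620352052891306250323793787477819393)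 (nat_lit 1)) (.cons (.ev (nat_lit 87113620352052891310991136739260150841600) (nat_lit 1)) (.cons (.ev (nat_lit 87112291144339515998769903356147121783040) (nat_lit 1)) .nil)))) .nil))))) (.cons (.ev (nat_lit 5253144089777819970183905018904577) (nat_lit 2)) .nil)))))) .nil))))))) .nil))))))),
 (.br (nat_lit 15) (nat_lit 0) (.cons (.ev (nat_lit 1329228075323772322809386926228963328) (nat_lit 1)) .nil)),
 (.br (nat_lit 14) (nat_lit 0) (.cons (.ev (nat_lit 1329227995786129539608706231142711553) (nat_lit 1)) .nil)),
 (.br (nat_lit 15) (nat_lit 0) (.cons (.kr (nat_lit 20282409603651670423947251286017) (nat_lit 1329227995784915872903807060280344832) (nat_lit 0) (nat_lit 2)) (.cons (.kr (nat_lit 1329227995784915872903807060280344832) (nat_lit 20282409603651670423947268063232) (nat_lit 1) (nat_lit 0)) (.cons (.kr (nat_lit 2658455991569831764254639669246951425) (nat_lit 5212579268143201665437317537464320) (nat_lit 0) (nat_lit 1)) (.cons (.kr (nat_lit 60847228815677378036186392559617) (nat_lit 2663648288428366591882888694894428672) (nat_lit 0) (nat_lit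 2)) (.cons (.kr (nat_lit 5192296858534827628530496329220096) (nat_lit 1329227995784915872903807060280344576) (nat_lit 14) (nat_lit 0)) (.cons (.br (nat_lit 7) (nat_lit 0) (.cons (.br (nat_lit 10) (nat_lit 0) (.cons (.ev (nat_lit 5253144089777819970183904985350147) (nat_lit 2)) (.cons (.ev (nat_lit 5253144089768412130143354570670593) (nat_lit 2)) (.cons (.ev (nat_lit 2663668570840402262436950131077022211) (nat_lit 2)) (.cons (.br (nat_lit 5) (nat_lit 0) (.cons (.rf (nat_lit 1) (nat_lit 616253897448513)) (.cons (.br (nat_lit 11) (nat_lit 0) (.cons (.ev (nat_lit 341616807575529170080476561115757740289) (nat_lit 1)) (.cons (.rf (nat_lit 63) (nat_lit 21157493297952810841092589)) .nil))) (.cons (.rf (nat_lit 327) (nat_lit 677274872359978278652577824)) .nil)))) .nil))))) (.cons (.br (nat_lit 10) (nat_lit 0) (.cons (.ev (nat_lit 5253144089777819970183904985350147) (nat_lit 2)) (.cons (.ev (nat_lit 5253144089768412130143354604225027) (nat_lit 2)) (.cons (.ev (nat_lit 2663668570840402262436950131043467777) (nat_lit 2)) (.cons (.br (nat_lit 2) (nat_lit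 0) (.cons (.rf (nat_lit 1) (nat_lit 616249602485313)) (.cons (.br (nat_lit 11) (nat_lit 0) (.cons (.ev (nat_lit 341616807575529170080476561115740963072) (nat_lit 1)) (.cons (.br (nat_lit 16) (nat_lit 0) (.cons (.ev (nat_lit 340282387282885719379944223559131398400) (nat_lit 1)) .nil)) .nil))) (.cons (.rf (nat_lit 462) (nat_lit 21174406884003305220048928)) .nil)))) .nil))))) (.cons (.ev (nat_lit 5253144089768412130706313114026497) (nat_lit 2)) (.cons (.br (nat_lit 10) (nat_lit 0) (.cons (.ev (nat_lit 5253144089768412130143354570670593) (nat_lit 2)) (.cons (.ev (nat_lit 5253144089768412130143354604225027) (nat_lit 2)) (.cons (.ev (nat_lit 2663668570840392854596909580628787203) (nat_lit 2)) (.cons (.br (nat_lit 2) (nat_lit 0) (.cons (.rf (nat_lit 1) (nat_lit 616253964555329)) (.cons (.br (nat_lit 5) (nat_lit 0) (.cons (.ev (nat_lit 341616807575529165339663052701704454145) (nat_lit 1)) (.cons (.br (nat_lit 16) (nat_lit 0) (.cons (.ev (nat_lit 340282387282885719379944223559131398400) (nat_lit 1)) .nil)) .nil))) (.cons (.br (nat_lit 17) (nat_lit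 0) (.cons (.ev (nat_lit 87112291144339515994029090129203767017728) (nat_lit 1)) (.cons (.ev (nat_lit 87113620352052891306250323512316779298816) (nat_lit 1)) .nil))) .nil)))) .nil))))) (.cons (.br (nat_lit 10) (nat_lit 0) (.cons (.ev (nat_lit 2663668570840402262436950131077022211) (nat_lit 2)) (.cons (.ev (nat_lit 2663668570840402262436950131043467777) (nat_lit 2)) (.cons (.ev (nat_lit 2663668570840392854596909580628787203) (nat_lit 2)) (.cons (.ev (nat_lit 5253144089777819970183905018904577) (nat_lit 2)) (.cons (.br (nat_lit 2) (nat_lit 0) (.cons (.br (nat_lit 11) (nat_lit 0) (.cons (.ev (nat_lit 340287559297334650555902330108226109440) (nat_lit 1)) (.cons (.br (nat_lit 16) (nat_lit 0) (.cons (.ev (nat_lit 341611594996261031601177606672177233920) (nat_lit 1)) .nil)) .nil))) (.cons (.br (nat_lit 5) (nat_lit 0) (.cons (.ev (nat_lit 340287559297334650555902330108226109440) (nat_lit 1)) (.cons (.rf (nat_lit 463) (nat_lit 661701333108527519141922)) .nil))) (.cons (.br (nat_lit 5) (nat_lit 0) (.cons (.ev (nat_lit 340287559297334650555902330108226109440)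 (nat_lit 1)) (.cons (.rf (nat_lit 88) (nat_lit 661217819650775266570733)) .nil))) (.cons (.br (nat_lit 5) (nat_lit 0) (.cons (.rf (nat_lit 2) (nat_lit 19061633008977456289)) (.cons (.rf (nat_lit 87) (nat_lit 20678166614418767786021)) (.cons (.ev (nat_lit 87113620352052891310991137020730815807745) (nat_lit 1)) .nil)))) .nil))))) .nil)))))) (.cons (.br (nat_lit 10) (nat_lit 0) (.cons (.br (nat_lit 5) (nat_lit 0) (.cons (.rf (nat_lit 1) (nat_lit 616253894305857)) (.cons (.br (nat_lit 11) (nat_lit 0) (.cons (.ev (nat_lit 341616807575529165339663334172386197505) (nat_lit 1)) (.cons (.rf (nat_lit 65) (nat_lit 21157385978231320923812333)) .nil))) (.cons (.br (nat_lit 17) (nat_lit 0) (.cons (.ev (nat_lit 87112291144339515998769903356147105005568) (nat_lit 1)) (.cons (.ev (nat_lit 87113620352052891306250323793787477819393) (nat_lit 1)) .nil))) .nil)))) (.cons (.br (nat_lit 2) (nat_lit 0) (.cons (.rf (nat_lit 1) (nat_lit 616252820565057)) (.cons (.br (nat_lit 11) (nat_lit 0) (.cons (.ev (nat_lit 341616807575529165339663334172402974720) (nat_lit 1))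 (.cons (.rf (nat_lit 65) (nat_lit 21157493308017640414327277)) .nil))) (.cons (.br (nat_lit 17) (nat_lit 0) (.cons (.ev (nat_lit 87112291144339515998769903356147105005568) (nat_lit 1)) (.cons (.ev (nat_lit 87113620352052891306250323793787477819393) (nat_lit 1)) .nil))) .nil)))) (.cons (.br (nat_lit 2) (nat_lit 0) (.cons (.rf (nat_lit 1) (nat_lit 616254062072897)) (.cons (.br (nat_lit 5) (nat_lit 0) (.cons (.ev (nat_lit 341616807575529170080476279645075996929) (nat_lit 1)) (.cons (.rf (nat_lit 467) (nat_lit 21174442659471745632798752)) .nil))) (.cons (.br (nat_lit 17) (nat_lit 0) (.cons (.ev (nat_lit 87112291144339515998769903356147105005568) (nat_lit 1)) (.cons (.ev (nat_lit 87113620352052891310991136739260150841600) (nat_lit 1)) .nil))) .nil)))) (.cons (.br (nat_lit 2) (nat_lit 0) (.cons (.rf (nat_lit 326) (nat_lit 677274871999681512235708584)) (.cons (.br (nat_lit 5) (nat_lit 0) (.cons (.ev (nat_lit 340287559297334645815089103164854567168) (nat_lit 1)) (.cons (.rf (nat_lit 468) (nat_lit 661698952883485750167584)) .nil))) (.cons (.br (nat_lit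 11) (nat_lit 0) (.cons (.ev (nat_lit 340287559297334645815089103164854567168) (nat_lit 1)) (.cons (.rf (nat_lit 68) (nat_lit 21157493308017640414327277)) .nil))) (.cons (.br (nat_lit 17) (nat_lit 0) (.cons (.ev (nat_lit 87113620352052891306250323793787477819393) (nat_lit 1)) (.cons (.ev (nat_lit 87113620352052891310991136739260150841600) (nat_lit 1)) (.cons (.ev (nat_lit 87112285931760247860290604401703541276928) (nat_lit 1)) .nil)))) .nil))))) (.cons (.ev (nat_lit 5253144089777819970183905018904577) (nat_lit 2)) .nil)))))) .nil))))))) .nil))))))),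
 (.br (nat_lit 16) (nat_lit 0) (.cons (.ev (nat_lit 341611615199132987710387661481766354945) (nat_lit 1)) (.cons (.ev (nat_lit 340287579500207810868565515573538062336) (nat_lit 1)) .nil))),
 (.br (nat_lit 7) (nat_lit 0) (.cons (.ev (nat_lit 7980580553980065864877890516721991685) (nat_lit 3)) (.cons (.ev (nat_lit 2663668570837984447690648269183123457) (nat_lit 2)) (.cons (.ev (nat_lit 2663668570837974966064757323870633987) (nat_lit 2)) (.cons (.br (nat_lit 10) (nat_lit 0) (.cons (.br (nat_lit 12) (nat_lit 0) (.cons (.ev (nat_lit 2663709294739730909677502741403009539) (nat_lit 3)) (.cons (.rf (nat_lit 1) (nat_lit 582066122495041)) .nil))) (.cons (.br (nat_lit 11) (nat_lit 0) (.cons (.ev (nat_lit 2663790742528745094038463848871233025) (nat_lit 3)) (.cons (.rf (nat_lit 1) (nat_lit 582032836498497)) .nil))) (.cons (.ev (nat_lit 5253144089777819970183905018904577) (nat_lit 2)) (.cons (.br (nat_lit 11) (nat_lit 0) (.cons (.rf (nat_lit 1) (nat_lit 581998510314561)) (.cons (.br (nat_lit 12) (nat_lit 0) (.cons (.ev (nat_lit 341616787213581914182425747755653726208)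 (nat_lit 1)) (.cons (.rf (nat_lit 2) (nat_lit 20188727085302780993)) .nil))) (.cons (.br (nat_lit 12) (nat_lit 0) (.cons (.rf (nat_lit 470) (nat_lit 677582165103132179601393696)) (.cons (.ev (nat_lit 87112291124136644042623800094669351682305) (nat_lit 1)) .nil))) .nil)))) .nil))))) .nil))))),
 (.br (nat_lit 16) (nat_lit 0) (.cons (.ev (nat_lit 174224571884041518271527431545033087517443) (nat_lit 2)) .nil)),
 (.br (nat_lit 5) (nat_lit 0) (.cons (.ev (nat_lit 5253144089777819970183904985350147) (nat_lit 2)) (.cons (.br (nat_lit 10) (nat_lit 0) (.cons (.kr (nat_lit 79537647524157740256306659584) (nat_lit 1329227995786124798723422788966744064) (nat_lit 1) (nat_lit 0)) (.cons (.br (nat_lit 12) (nat_lit 0) (.cons (.ev (nat_lit 5212738345856119923057457700536833) (nat_lit 2)) (.cons (.rf (nat_lit 1) (nat_lit 582065957870657)) .nil))) .nil))) (.cons (.br (nat_lit 10) (nat_lit 0) (.cons (.kr (nat_lit 79537647524157740256306659584) (nat_lit 1329227995786124798723422788966744064) (nat_lit 1) (nat_lit 0)) (.cons (.br (nat_lit 11) (nat_lit 0) (.cons (.ev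 (nat_lit 5212738345856119923057457700536833) (nat_lit 2)) (.cons (.rf (nat_lit 1) (nat_lit 582032671874113)) .nil))) .nil))) (.cons (.br (nat_lit 11) (nat_lit 0) (.cons (.br (nat_lit 12) (nat_lit 0) (.cons (.ev (nat_lit 2663709294732477354325780552300495361) (nat_lit 2)) (.cons (.rf (nat_lit 1) (nat_lit 582066120399937)) .nil))) (.cons (.rf (nat_lit 471) (nat_lit 37895457199619582635502)) (.cons (.br (nat_lit 10) (nat_lit 0) (.cons (.ev (nat_lit 2663709294732477354325780552300495361) (nat_lit 2)) (.cons (.ev (nat_lit 4091369145864532963748859051336685453315) (nat_lit 4)) (.cons (.br (nat_lit 12) (nat_lit 0) (.cons (.ev (nat_lit 341611615199132987710387661481766354945) (nat_lit 1)) (.cons (.br (nat_lit 16) (nat_lit 0) (.cons (.zr (nat_lit 1363803520848311311677735011131351760896) (nat_lit 477225889867313205882461881857) (nat_lit 16) (nat_lit 5)) .nil)) .nil))) .nil)))) (.cons (.br (nat_lit 10) (nat_lit 0) (.cons (.rf (nat_lit 1) (nat_lit 582032834403393)) (.cons (.br (nat_lit 12) (nat_lit 0) (.cons (.ev (nat_lit 4102002807571525846706783403826991726607)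 (nat_lit 4)) (.cons (.rf (nat_lit 472) (nat_lit 677582165103132179601393696)) .nil))) (.cons (.br (nat_lit 12) (nat_lit 0) (.cons (.br (nat_lit 16) (nat_lit 0) (.cons (.zr (nat_lit 1363824269753335847336578709169417355264) (nat_lit 61324454700822324477724215739905) (nat_lit 16) (nat_lit 5)) .nil)) (.cons (.ev (nat_lit 87112291124136644042623800094669351682305) (nat_lit 1)) .nil))) .nil)))) .nil))))) .nil))))),
 (.br (nat_lit 11) (nat_lit 0) (.cons (.ev (nat_lit 20521024968798005523139673457408) (nat_lit 2)) (.cons (.rf (nat_lit 1) (nat_lit 582032668731457)) .nil))),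
 (.br (nat_lit 5) (nat_lit 0) (.cons (.ev (nat_lit 5253144089777819970183904985350147) (nat_lit 2)) (.cons (.br (nat_lit 7) (nat_lit 0) (.cons (.ev (nat_lit 5213056498873623462562743371957767) (nat_lit 3)) (.cons (.br (nat_lit 12) (nat_lit 0) (.cons (.ev (nat_lit 20521024968798005523139673457408) (nat_lit 2)) (.cons (.rf (nat_lit 1) (nat_lit 582065954728001)) .nil))) .nil))) (.cons (.br (nat_lit 7) (nat_lit 0) (.cons (.ev (nat_lit 5293867986707468143948397790888449) (nat_lit 3)) (.cons (.rf (nat_lit 474) (nat_lit 19926519232773908561233952)) .nil))) (.cons (.br (nat_lit 11) (nat_lit 0) (.cons (.br (nat_lit 12) (nat_lit 0) (.cons (.ev (nat_lit 2663709294732477354325780552300495361) (nat_lit 2)) (.cons (.rf (nat_lit 1) (nat_lit 582066019739713)) .nil))) (.cons (.ev (nat_lit 5212738345865601550074285773554177) (nat_lit 2)) (.cons (.br (nat_lit 12) (nat_lit 0) (.cons (.ev (nat_lit 2663709294732477354325780552300495361) (nat_lit 2)) (.cons (.ev (nat_lit 5212738345856119923057457734091267) (nat_lit 2)) (.cons (.rf (nat_lit 356) (nat_lit 677384738830312982956741667))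 .nil)))) (.cons (.br (nat_lit 12) (nat_lit 0) (.cons (.rf (nat_lit 1) (nat_lit 582032733743169)) (.cons (.rf (nat_lit 363) (nat_lit 639798171580377446573583854)) (.cons (.ev (nat_lit 5212738345856119923057457734091267) (nat_lit 2)) .nil)))) .nil))))) .nil)))))]

theorem c25 : chkAll C T R L25 (nat_lit 462) = true := by decide +kernel

theorem l25 : (nat_lit 462) + L25.length = (nat_lit 476) := by decide +kernel

/-- part of the certificates -/
def L26 : List Prf := [(.br (nat_lit 10) (nat_lit 0) (.cons (.kr (nat_lit 79537647524157740256306659584) (nat_lit 1329227995786124798723422788966744064) (nat_lit 1) (nat_lit 0)) (.cons (.br (nat_lit 12) (nat_lit 0) (.cons (.ev (nat_lit 5212738345856119923057457734091267) (nat_lit 2)) (.cons (.rf (nat_lit 1) (nat_lit 582061662907457)) .nil))) .nil))),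
 (.br (nat_lit 7) (nat_lit 0) (.cons (.ev (nat_lit 5213056498873623462562743405512197) (nat_lit 3)) (.cons (.br (nat_lit 12) (nat_lit 0) (.cons (.ev (nat_lit 20521024968798005523139690234627) (nat_lit 2)) (.cons (.rf (nat_lit 1) (nat_lit 582064880987201)) .nil))) .nil))),
 (.br (nat_lit 10) (nat_lit 0) (.cons (.ev (nat_lit 680564754362901895724755300944556589825) (nat_lit 2)) (.cons (.rf (nat_lit 2) (nat_lit 20188727085295448129)) .nil))),
 (.br (nat_lit 5) (nat_lit 0) (.cons (.ev (nat_lit 20521024968798005523139690234627) (nat_lit 2)) (.cons (.ev (nat_lit 683228382209842941042933961210477019394) (nat_lit 2)) (.cons (.rf (nat_lit 478) (nat_lit 677582165103132179601393696)) .nil)))),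
 (.br (nat_lit 11) (nat_lit 0) (.cons (.br (nat_lit 7) (nat_lit 0) (.cons (.kr (nat_lit 79537647524157740256306659584) (nat_lit 1329227995786124798723422788966744064) (nat_lit 1) (nat_lit 0)) (.cons (.br (nat_lit 10) (nat_lit 0) (.cons (.ev (nat_lit 5253144089777819970183905018904577) (nat_lit 2)) (.cons (.rf (nat_lit 1) (nat_lit 581997235253313)) .nil))) .nil))) (.cons (.rf (nat_lit 475) (nat_lit 37895457199619582635502)) (.cons (.rf (nat_lit 473) (nat_lit 37895457199619582635502)) (.cons (.br (nat_lit 16) (nat_lit 0) (.cons (.ev (nat_lit 2663709294732486762165258144138265091) (nat_lit 2)) (.cons (.rf (nat_lit 479) (nat_lit 19926519232773908561233952)) (.cons (.ev (nat_lit 5212738345856119923057457734091267) (nat_lit 2)) (.cons (.br (nat_lit 16) (nat_lit 0) (.cons (.ev (nat_lit 2663709294732486762165258144138265091) (nat_lit 2)) (.cons (.rf (nat_lit 479) (nat_lit 19926519232773908561233952)) (.cons (.ev (nat_lit 5212738345856119923057457734091267) (nat_lit 2)) .nil)))) .nil))))) .nil))))),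
 (.br (nat_lit 10) (nat_lit 0) (.cons (.ev (nat_lit 2663709294732477354325780552300495361) (nat_lit 2)) (.cons (.ev (nat_lit 4091369145864532963748859051336752562191) (nat_lit 4)) (.cons (.br (nat_lit 12) (nat_lit 0) (.cons (.ev (nat_lit 341611615199132987710387661481766354945) (nat_lit 1)) (.cons (.br (nat_lit 16) (nat_lit 0) (.cons (.zr (nat_lit 1363803520848311311677735011131267874821) (nat_lit 477225889867313205882478659072) (nat_lit 16) (nat_lit 2)) .nil)) .nil))) .nil)))),
 (.br (nat_lit 7) (nat_lit 0) (.cons (.ev (nat_lit 4086052315011026916865791942580741734415) (nat_lit 4)) (.cons (.ev (nat_lit 2663668570837974966064757323837079553) (nat_lit 2)) (.cons (.br (nat_lit 10) (nat_lit 0) (.cons (.ev (nat_lit 340287559297335859463275199568474538240) (nat_lit 1)) (.cons (.ev (nat_lit 5253144089777819970183905018904577) (nat_lit 2)) .nil))) .nil)))),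
 (.br (nat_lit 10) (nat_lit 0) (.cons (.rf (nat_lit 1) (nat_lit 582032831257761)) (.cons (.br (nat_lit 12) (nat_lit 0) (.cons (.ev (nat_lit 4102002807571525846706783403827058835467) (nat_lit 4)) (.cons (.br (nat_lit 16) (nat_lit 0) (.cons (.ev (nat_lit 683223210195394024052522891756055953664) (nat_lit 2)) .nil)) .nil))) (.cons (.br (nat_lit 12) (nat_lit 0) (.cons (.br (nat_lit 16) (nat_lit 0) (.cons (.zr (nat_lit 1363824269753335847336578709169333469189) (nat_lit 61324454700822324477724232517120) (nat_lit 16) (nat_lit 2)) .nil)) (.cons (.ev (nat_lit 87112291124136644042623800094669351682305) (nat_lit 1)) .nil))) .nil)))),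
 (.br (nat_lit 12) (nat_lit 0) (.cons (.rf (nat_lit 1) (nat_lit 582032730597537)) (.cons (.br (nat_lit 7) (nat_lit 0) (.cons (.ev (nat_lit 340282366920939677130079506602630578176) (nat_lit 1)) (.cons (.rf (nat_lit 103) (nat_lit 19993771383699983692731427)) .nil))) (.cons (.ev (nat_lit 5212738345856119923057457700536833) (nat_lit 2)) .nil)))),
 (.br (nat_lit 7) (nat_lit 0) (.cons (.br (nat_lit 12) (nat_lit 0) (.cons (.ev (nat_lit 4096685976718019724561000474404796891147) (nat_lit 4)) (.cons (.br (nat_lit 16) (nat_lit 0) (.cons (.ev (nat_lit 681893962076278426334987446653613572864) (nat_lit 2)) .nil)) .nil))) (.cons (.ev (nat_lit 2663668570837974966064757323837079553) (nat_lit 2)) (.cons (.ev (nat_lit 341611615199132983006467641206575792128) (nat_lit 1)) (.cons (.br (nat_lit 10) (nat_lit 0) (.cons (.rf (nat_lit 483) (nat_lit 639559654033338453002202606)) (.cons (.br (nat_lit 12) (nat_lit 0) (.cons (.ev (nat_lit 340282387282886928287317093019396604160) (nat_lit 1)) .nil)) (.cons (.ev (nat_lit 5253144089777819970183905018904577) (nat_lit 2))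 .nil)))) .nil))))),
 (.br (nat_lit 15) (nat_lit 0) (.cons (.ev (nat_lit 1329228075323772322809105455530443008) (nat_lit 1)) .nil)),
 (.br (nat_lit 10) (nat_lit 0) (.cons (.ev (nat_lit 1334420292954144636173298358315712768) (nat_lit 1)) (.cons (.br (nat_lit 15) (nat_lit 0) (.cons (.ev (nat_lit 1329248278505213460215191809237778688) (nat_lit 1)) .nil)) .nil))),
 (.br (nat_lit 10) (nat_lit 0) (.cons (.ev (nat_lit 5253144089777819970183904985350147) (nat_lit 2)) (.cons (.ev (nat_lit 2663668570840392854596909580628787713) (nat_lit 2)) (.cons (.ev (nat_lit 2663668570840402262436950131077022211) (nat_lit 2)) (.cons (.ev (nat_lit 5253144089777819970183905018905091) (nat_lit 2)) (.cons (.br (nat_lit 5) (nat_lit 0) (.cons (.br (nat_lit 12) (nat_lit 0) (.cons (.ev (nat_lit 341616807575529170080476561115757740289) (nat_lit 1)) (.cons (.rf (nat_lit 486) (nat_lit 21174442659471745632798752)) .nil))) (.cons (.rf (nat_lit 487) (nat_lit 21174442659471745632798752)) (.cons (.br (nat_lit 11) (nat_lit 0) (.cons (.ev (nat_lit 341616807575529170080476561115757740289)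 (nat_lit 1)) (.cons (.br (nat_lit 12) (nat_lit 0) (.cons (.ev (nat_lit 341611594996261031601177606672177234177) (nat_lit 1)) .nil)) .nil))) (.cons (.br (nat_lit 17) (nat_lit 0) (.cons (.ev (nat_lit 87113620352052891306250323512316796076288) (nat_lit 1)) (.cons (.ev (nat_lit 87113620352052891310991137020730815807745) (nat_lit 1)) (.cons (.ev (nat_lit 87112291144339515998769903637617786749185) (nat_lit 1)) .nil)))) .nil))))) .nil)))))),
 (.br (nat_lit 15) (nat_lit 0) (.cons (.ev (nat_lit 1329228075323772322809105455547220225) (nat_lit 1)) .nil)),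
 (.br (nat_lit 15) (nat_lit 0) (.cons (.ev (nat_lit 1329248278505213460215191809254555905) (nat_lit 1)) .nil)),
 (.br (nat_lit 10) (nat_lit 0) (.cons (.ev (nat_lit 20282409603670189508193782071296) (nat_lit 1)) .nil)),
 (.br (nat_lit 10) (nat_lit 0) (.cons (.ev (nat_lit 5253144089777819970183904985350147) (nat_lit 2)) (.cons (.ev (nat_lit 2663668570840392854596909580662342147) (nat_lit 2)) (.cons (.ev (nat_lit 2663668570840402262436950131043467777) (nat_lit 2)) (.cons (.ev (nat_lit 5253144089777819970183904985350657) (nat_lit 2)) (.cons (.br (nat_lit 2) (nat_lit 0) (.cons (.br (nat_lit 12) (nat_lit 0) (.cons (.ev (nat_lit 341616807575529170080476561115740963072) (nat_lit 1)) (.cons (.rf (nat_lit 489) (nat_lit 21174442659471745632798752)) .nil))) (.cons (.br (nat_lit 11) (nat_lit 0) (.cons (.ev (nat_lit 341616807575529170080476561115740963072) (nat_lit 1)) (.cons (.rf (nat_lit 490) (nat_lit 21174442659471745632798752)) .nil))) (.cons (.br (nat_lit 11) (nat_lit 0) (.cons (.ev (nat_lit 341616807575529170080476561115740963072) (nat_lit 1)) (.cons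 (.rf (nat_lit 491) (nat_lit 646190383675279052865)) .nil))) (.cons (.br (nat_lit 16) (nat_lit 0) (.cons (.rf (nat_lit 77) (nat_lit 21174406908626972418511907)) (.cons (.rf (nat_lit 77) (nat_lit 21174442613164818212852771)) (.cons (.ev (nat_lit 87112291144339515998769903637617786749185) (nat_lit 1)) .nil)))) .nil))))) .nil)))))),
 (.br (nat_lit 11) (nat_lit 0) (.cons (.ev (nat_lit 1329248278505213460215191809237778433) (nat_lit 1)) (.cons (.br (nat_lit 15) (nat_lit 0) (.cons (.ev (nat_lit 1334440654591910802108059899110948865) (nat_lit 1)) .nil)) .nil))),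
 (.br (nat_lit 5) (nat_lit 0) (.cons (.ev (nat_lit 1329248278505213460215191809237778433) (nat_lit 1)) (.cons (.br (nat_lit 15) (nat_lit 0) (.cons (.ev (nat_lit 1329248278505213460215191809254555905) (nat_lit 1)) .nil)) .nil))),
 (.br (nat_lit 10) (nat_lit 0) (.cons (.ev (nat_lit 20282409603670189508193782071296) (nat_lit 1)) .nil)),
 (.br (nat_lit 10) (nat_lit 0) (.cons (.ev (nat_lit 2663668570840392854596909580628787713) (nat_lit 2)) (.cons (.ev (nat_lit 2663668570840392854596909580662342147) (nat_lit 2)) (.cons (.ev (nat_lit 5253144089768412130143354570670083) (nat_lit 2)) (.cons (.ev (nat_lit 2663668570840392854596909580628787203) (nat_lit 2)) (.cons (.br (nat_lit 2) (nat_lit 0) (.cons (.rf (nat_lit 493) (nat_lit 21174442659471745632798752)) (.cons (.rf (nat_lit 494) (nat_lit 21174442659471745632798752)) (.cons (.br (nat_lit 5) (nat_lit 0) (.cons (.ev (nat_lit 340287559297334645815088821694172823553) (nat_lit 1)) (.cons (.rf (nat_lit 495) (nat_lit 646190383675279052865)) .nil))) (.cons (.br (nat_lit 17) (nat_lit 0) (.cons (.ev (nat_lit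 87113620352052891306250323512316796076288) (nat_lit 1)) (.cons (.ev (nat_lit 87112291144339515994029090129203750240256) (nat_lit 1)) (.cons (.ev (nat_lit 87113620352052891306250323512316779298816) (nat_lit 1)) .nil)))) .nil))))) .nil)))))),
 (.br (nat_lit 5) (nat_lit 0) (.cons (.ev (nat_lit 1329228075323772322809105455530442753) (nat_lit 1)) (.cons (.br (nat_lit 15) (nat_lit 0) (.cons (.ev (nat_lit 1329228075323772322809105455547220225) (nat_lit 1)) .nil)) .nil))),
 (.br (nat_lit 10) (nat_lit 0) (.cons (.ev (nat_lit 2663668570840402262436950131077022211) (nat_lit 2)) (.cons (.ev (nat_lit 2663668570840402262436950131043467777) (nat_lit 2)) (.cons (.ev (nat_lit 5253144089768412130143354570670083) (nat_lit 2)) (.cons (.ev (nat_lit 2663668570840402262436950131077021697) (nat_lit 2)) (.cons (.br (nat_lit 2) (nat_lit 0) (.cons (.br (nat_lit 11) (nat_lit 0) (.cons (.ev (nat_lit 340287559297334650555902330108226109440) (nat_lit 1)) (.cons (.br (nat_lit 16) (nat_lit 0) (.cons (.ev (nat_lit 341611594996261031601177606672177233920) (nat_lit 1)) .nil))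 .nil))) (.cons (.rf (nat_lit 497) (nat_lit 21174442659471745632798752)) (.cons (.br (nat_lit 11) (nat_lit 0) (.cons (.ev (nat_lit 340287559297334650555902330108226109440) (nat_lit 1)) (.cons (.rf (nat_lit 491) (nat_lit 646182502375931383873)) .nil))) (.cons (.br (nat_lit 17) (nat_lit 0) (.cons (.ev (nat_lit 87113620352052891310991137020730815807745) (nat_lit 1)) (.cons (.ev (nat_lit 87112291144339515994029090129203750240256) (nat_lit 1)) (.cons (.ev (nat_lit 87113620352052891310991137020730832584705) (nat_lit 1)) .nil)))) .nil))))) .nil)))))),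
 (.br (nat_lit 10) (nat_lit 0) (.cons (.ev (nat_lit 5253144089777819970183905018905091) (nat_lit 2)) (.cons (.ev (nat_lit 5253144089777819970183904985350657) (nat_lit 2)) (.cons (.ev (nat_lit 2663668570840392854596909580628787203) (nat_lit 2)) (.cons (.ev (nat_lit 2663668570840402262436950131077021697) (nat_lit 2)) (.cons (.br (nat_lit 2) (nat_lit 0) (.cons (.br (nat_lit 12) (nat_lit 0) (.cons (.ev (nat_lit 341616807575529170080476561115757740032) (nat_lit 1)) (.cons (.rf (nat_lit 88) (nat_lit 661697471025488968291363)) .nil))) (.cons (.br (nat_lit 5) (nat_lit 0) (.cons (.ev (nat_lit 341616807575529170080476561115757740032) (nat_lit 1)) (.cons (.rf (nat_lit 464) (nat_lit 661701333108527519141922)) .nil))) (.cons (.br (nat_lit 5) (nat_lit 0) (.cons (.ev (nat_lit 341616807575529170080476561115757740032) (nat_lit 1)) (.cons (.rf (nat_lit 88) (nat_lit 661180962191424866431469)) .nil))) (.cons (.br (nat_lit 5) (nat_lit 0) (.cons (.rf (nat_lit 87) (nat_lit 20678131746706027752609)) (.cons (.rf (nat_lit 87) (nat_lit 20678166614418767786145)) (.cons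 (.ev (nat_lit 87112291144339515998769903637617786749185) (nat_lit 1)) .nil)))) .nil))))) .nil)))))),
 (.br (nat_lit 7) (nat_lit 0) (.cons (.rf (nat_lit 427) (nat_lit 640104320996911951679456320)) (.cons (.br (nat_lit 10) (nat_lit 0) (.cons (.ev (nat_lit 5253144089768412130143354570670083) (nat_lit 2)) (.cons (.rf (nat_lit 428) (nat_lit 640104320996911951679456320)) (.cons (.ev (nat_lit 2663668570840392854596909580628787203) (nat_lit 2)) .nil)))) (.cons (.br (nat_lit 10) (nat_lit 0) (.cons (.ev (nat_lit 5253144089768412130143354570670083) (nat_lit 2)) (.cons (.rf (nat_lit 430) (nat_lit 640104320996911951679456320)) (.cons (.ev (nat_lit 2663668570840402262436950131077021697) (nat_lit 2)) .nil)))) (.cons (.br (nat_lit 16) (nat_lit 0) (.cons (.ev (nat_lit 5253144089777819970183905018904577) (nat_lit 2)) (.cons (.ev (nat_lit 340287579500206601961192364642624667648) (nat_lit 1)) (.cons (.ev (nat_lit 340282366920938463481893410199044161536) (nat_lit 1)) (.cons (.ev (nat_lit 341611615199132983006467641206575792128) (nat_lit 1)) .nil))))) (.cons (.br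 (nat_lit 10) (nat_lit 0) (.cons (.ev (nat_lit 2663668570840392854596909580628787203) (nat_lit 2)) (.cons (.ev (nat_lit 2663668570840402262436950131077021697) (nat_lit 2)) (.cons (.br (nat_lit 16) (nat_lit 0) (.cons (.ev (nat_lit 341611615199132983006467922685847470337) (nat_lit 1)) (.cons (.ev (nat_lit 341616787213581914182426029234925404417) (nat_lit 1)) (.cons (.ev (nat_lit 340287579500206601961192646121896345857) (nat_lit 1)) .nil)))) (.cons (.ev (nat_lit 5253144089777819970183905018904577) (nat_lit 2)) .nil))))) .nil)))))),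
 (.br (nat_lit 15) (nat_lit 0) (.cons (.ev (nat_lit 1329227995784915872976147228823453696) (nat_lit 1)) (.cons (.ev (nat_lit 1334420371871613214869015318696624128) (nat_lit 1)) .nil))),
 (.br (nat_lit 9) (nat_lit 0) (.cons (.ev (nat_lit 5192297168024578335161201958322176) (nat_lit 1)) .nil)),
 (.br (nat_lit 8) (nat_lit 0) (.cons (.ev (nat_lit 5192296859748494333430762408247296) (nat_lit 1)) (.cons (.rf (nat_lit 502) (nat_lit 17022140995484340291616)) .nil))),
 (.br (nat_lit 10) (nat_lit 0) (.cons (.ev (nat_lit 5253144089777819970183904985350147) (nat_lit 2)) (.cons (.br (nat_lit 5) (nat_lit 0) (.cons (.rf (nat_lit 1) (nat_lit 582169195163810)) (.cons (.rf (nat_lit 501) (nat_lit 21174442659472880577906720)) (.cons (.rf (nat_lit 459) (nat_lit 19534468527071492772898)) .nil)))) (.cons (.br (nat_lit 5) (nat_lit 0) (.cons (.rf (nat_lit 1) (nat_lit 582170268904610)) (.cons (.br (nat_lit 16) (nat_lit 0) (.cons (.ev (nat_lit 340287579500206601961192364642624667648) (nat_lit 1)) (.cons (.ev (nat_lit 341611615199132983006467641206575792128) (nat_lit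 1)) .nil))) (.cons (.rf (nat_lit 460) (nat_lit 19534468527071492772898)) .nil)))) (.cons (.ev (nat_lit 5253144089777819970183905018905091) (nat_lit 2)) (.cons (.br (nat_lit 5) (nat_lit 0) (.cons (.rf (nat_lit 455) (nat_lit 19534468527071492772898)) (.cons (.rf (nat_lit 457) (nat_lit 19534468527071492772898)) (.cons (.br (nat_lit 16) (nat_lit 0) (.cons (.ev (nat_lit 340287579500206601961192364642624667648) (nat_lit 1)) (.cons (.ev (nat_lit 340287579500206606665112384917815230465) (nat_lit 1)) (.cons (.ev (nat_lit 341616787213581918886345768030844289025) (nat_lit 1)) .nil)))) (.cons (.rf (nat_lit 503) (nat_lit 20678166659641484973121)) .nil))))) .nil))))))]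

theorem c26 : chkAll C T R L26 (nat_lit 476) = true := by decide +kernel

theorem l26 : (nat_lit 476) + L26.length = (nat_lit 505) := by decide +kernel

/-- part of the certificates -/
def L27 : List Prf := [(.br (nat_lit 16) (nat_lit 0) (.cons (.ev (nat_lit 340282366920938463481893691678315839488) (nat_lit 1)) (.cons (.ev (nat_lit 341611615199132983006467922685847470080) (nat_lit 1)) .nil))),
 (.br (nat_lit 11) (nat_lit 0) (.cons (.br (nat_lit 16) (nat_lit 0) (.cons (.ev (nat_lit 340287579579745463133392086110163697665) (nat_lit 1)) .nil)) (.cons (.ev (nat_lit 340282387203658765791499218020290527233) (nat_lit 1)) .nil))),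
 (.br (nat_lit 15) (nat_lit 0) (.cons (.ev (nat_lit 1329248357422682057285595249290313985) (nat_lit 1)) .nil)),
 (.br (nat_lit 11) (nat_lit 0) (.cons (.ev (nat_lit 340287579579745463133392086110163697665) (nat_lit 1)) .nil)),
 (.br (nat_lit 11) (nat_lit 0) (.cons (.ev (nat_lit 340282367000477324654093131666583191553) (nat_lit 1)) (.cons (.ev (nat_lit 340282367000477324654093131666566414593) (nat_lit 1)) .nil))),
 (.br (nat_lit 7) (nat_lit 0) (.cons (.ev (nat_lit 5253144089777819970183904985350147) (nat_lit 2)) (.cons (.br (nat_lit 5) (nat_lit 0) (.cons (.rf (nat_lit 1) (nat_lit 582169094598818)) (.cons (.rf (nat_lit 505) (nat_lit 677582165103132179601393696)) (.cons (.rf (nat_lit 506) (nat_lit 21174442659472880612509728)) .nil)))) (.cons (.br (nat_lit 11) (nat_lit 0) (.cons (.rf (nat_lit 1) (nat_lit 582170168339618)) (.cons (.rf (nat_lit 506) (nat_lit 19986239188541826655531501)) (.cons (.br (nat_lit 17) (nat_lit 0) (.cons (.ev (nat_lit 87112291124136644037919880355873416019968) (nat_lit 1)) (.cons (.ev (nat_lit 87112291124136644037919880355873432797440)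 (nat_lit 1)) .nil))) .nil)))) (.cons (.ev (nat_lit 5253144089777819970183905018905091) (nat_lit 2)) (.cons (.br (nat_lit 11) (nat_lit 0) (.cons (.br (nat_lit 12) (nat_lit 0) (.cons (.rf (nat_lit 507) (nat_lit 21174442659472880577906720)) (.cons (.ev (nat_lit 87112291124136644042623799813190096781313) (nat_lit 1)) .nil))) (.cons (.rf (nat_lit 428) (nat_lit 677039785535755651193716078)) (.cons (.br (nat_lit 5) (nat_lit 0) (.cons (.rf (nat_lit 507) (nat_lit 21174406884003340653529120)) (.cons (.ev (nat_lit 341611615199132983006467922685847470080) (nat_lit 1)) (.cons (.rf (nat_lit 508) (nat_lit 21174442659472880612509728)) .nil)))) (.cons (.rf (nat_lit 509) (nat_lit 21174442659472880612509728)) .nil))))) .nil)))))),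
 (.br (nat_lit 10) (nat_lit 0) (.cons (.rf (nat_lit 1) (nat_lit 582170269031586)) (.cons (.ev (nat_lit 5253144089777819970183904985350657) (nat_lit 2)) (.cons (.rf (nat_lit 451) (nat_lit 625102992866287768604741)) .nil)))),
 (.br (nat_lit 15) (nat_lit 0) (.cons (.ev (nat_lit 1329248357422682057285595249290313985) (nat_lit 1)) .nil)),
 (.br (nat_lit 7) (nat_lit 0) (.cons (.rf (nat_lit 1) (nat_lit 582170168371362)) (.cons (.ev (nat_lit 5253144089777819970183904985350657) (nat_lit 2)) (.cons (.br (nat_lit 12) (nat_lit 0) (.cons (.rf (nat_lit 512) (nat_lit 21174442659472880577906720)) (.cons (.ev (nat_lit 87112291124136644042623799813190096781313) (nat_lit 1)) .nil))) .nil)))),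
 (.br (nat_lit 16) (nat_lit 0) (.cons (.ev (nat_lit 340287559297334645815089103164854567168) (nat_lit 1)) (.cons (.ev (nat_lit 340282366920938463481893691678299062528) (nat_lit 1)) .nil))),
 (.br (nat_lit 7) (nat_lit 0) (.cons (.rf (nat_lit 505) (nat_lit 677582165068229282489272352)) (.cons (.rf (nat_lit 513) (nat_lit 639559654033338453002202606)) (.cons (.ev (nat_lit 340287579500206601961192364642624667905) (nat_lit 1)) (.cons (.br (nat_lit 10) (nat_lit 0) (.cons (.ev (nat_lit 2663668570840402262436950131077021697) (nat_lit 2)) (.cons (.ev (nat_lit 341611615199132983006467922685847470080) (nat_lit 1)) (.cons (.ev (nat_lit 5253144089777819970183905018904577) (nat_lit 2)) .nil)))) .nil))))),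
 (.br (nat_lit 15) (nat_lit 0) (.cons (.ev (nat_lit 1329248357422682057285595249290313985) (nat_lit 1)) .nil)),
 (.br (nat_lit 10) (nat_lit 0) (.cons (.kr (nat_lit 1329227995784915891350832608966606849) (nat_lit 20282410812577490039675937685504) (nat_lit 0) (nat_lit 1)) (.cons (.ev (nat_lit 87113615159835570418965155632437367144448) (nat_lit 1)) .nil))),
 (.br (nat_lit 16) (nat_lit 0) (.cons (.ev (nat_lit 340287559297334645815089103164854567168) (nat_lit 1)) (.cons (.ev (nat_lit 340282366920938463481893691678299062528) (nat_lit 1)) .nil))),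
 (.br (nat_lit 10) (nat_lit 0) (.cons (.ev (nat_lit 5192296858534846147614742860071168) (nat_lit 1)) .nil)),
 (.br (nat_lit 11) (nat_lit 0) (.cons (.br (nat_lit 7) (nat_lit 0) (.cons (.rf (nat_lit 1) (nat_lit 582168020921506)) (.cons (.br (nat_lit 16) (nat_lit 0) (.cons (.ev (nat_lit 5253144089777819970183905018904577) (nat_lit 2)) (.cons (.ev (nat_lit 341616787213581914182425747755636948993) (nat_lit 1)) .nil))) (.cons (.br (nat_lit 10) (nat_lit 0) (.cons (.rf (nat_lit 518) (nat_lit 677582165103132179601393696)) (.cons (.ev (nat_lit 5253144089777819970183905018904577) (nat_lit 2)) .nil))) .nil)))) (.cons (.rf (nat_lit 510) (nat_lit 639559654033338453002202606)) (.cons (.rf (nat_lit 504) (nat_lit 639559654033338453002202606)) (.cons (.br (nat_lit 5) (nat_lit 0) (.cons (.br (nat_lit 10) (nat_lit 0) (.cons (.ev (nat_lit 5253144089777819970183904985350657) (nat_lit 2)) (.cons (.rf (nat_lit 452) (nat_lit 625102992866287768604741)) .nil))) (.cons (.br (nat_lit 7) (nat_lit 0) (.cons (.ev (nat_lit 5253144089777819970183904985350657) (nat_lit 2))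 (.cons (.rf (nat_lit 512) (nat_lit 21174406884003340653529120)) .nil))) (.cons (.br (nat_lit 7) (nat_lit 0) (.cons (.ev (nat_lit 340282366920938463481893691678315839488) (nat_lit 1)) (.cons (.br (nat_lit 10) (nat_lit 0) (.cons (.ev (nat_lit 5253144089777819970183905018904577) (nat_lit 2)) .nil)) .nil))) (.cons (.br (nat_lit 7) (nat_lit 0) (.cons (.rf (nat_lit 516) (nat_lit 21174406884003340653529120)) (.cons (.ev (nat_lit 341616787213581914182425747755636948993) (nat_lit 1)) (.cons (.rf (nat_lit 519) (nat_lit 661698952883485750167584)) .nil)))) .nil))))) (.cons (.br (nat_lit 10) (nat_lit 0) (.cons (.br (nat_lit 7) (nat_lit 0) (.cons (.ev (nat_lit 5253144089777819970183904985350657) (nat_lit 2)) (.cons (.ev (nat_lit 87112291124136644037919880355873416019968) (nat_lit 1)) .nil))) (.cons (.br (nat_lit 17) (nat_lit 0) (.cons (.ev (nat_lit 87112291124136644037919880355873416019968) (nat_lit 1)) (.cons (.ev (nat_lit 87112291124136644037919880355873432797440) (nat_lit 1)) .nil))) (.cons (.br (nat_lit 7) (nat_lit 0) (.cons (.ev (nat_lit 5253144089777819970183904985350657)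 (nat_lit 2)) (.cons (.ev (nat_lit 5253144089777819970183905018904577) (nat_lit 2)) (.cons (.ev (nat_lit 87112291124136644037919880355873432797440) (nat_lit 1)) .nil)))) (.cons (.ev (nat_lit 87113620372414838562148374325676883312640) (nat_lit 1)) .nil))))) .nil)))))),
 (.br (nat_lit 15) (nat_lit 0) (.cons (.ev (nat_lit 340282367000477324654093131666583191808) (nat_lit 1)) .nil)),
 (.br (nat_lit 7) (nat_lit 0) (.cons (.rf (nat_lit 521) (nat_lit 21174442659472880612509728)) (.cons (.ev (nat_lit 5253144089777819970183904985350657) (nat_lit 2)) (.cons (.rf (nat_lit 509) (nat_lit 21174442659472880609268771)) .nil)))),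
 (.br (nat_lit 15) (nat_lit 0) (.cons (.ev (nat_lit 340282367000477324654093131666583191808) (nat_lit 1)) .nil)),
 (.br (nat_lit 11) (nat_lit 0) (.cons (.rf (nat_lit 520) (nat_lit 639559654033338453002202606)) (.cons (.rf (nat_lit 510) (nat_lit 639559654033338453002202606)) (.cons (.rf (nat_lit 504) (nat_lit 639559654033338453002202606)) (.cons (.rf (nat_lit 500) (nat_lit 639559654033338453002202606)) (.cons (.br (nat_lit 5) (nat_lit 0) (.cons (.ev (nat_lit 340287579500206601961192364642624667648) (nat_lit 1)) (.cons (.br (nat_lit 7) (nat_lit 0) (.cons (.ev (nat_lit 340282366920938463481893691678299062273) (nat_lit 1)) (.cons (.ev (nat_lit 341611615199132983006467922685830692865) (nat_lit 1)) .nil))) (.cons (.br (nat_lit 7) (nat_lit 0) (.cons (.ev (nat_lit 340282366920938463481893691678299062273) (nat_lit 1)) (.cons (.br (nat_lit 10) (nat_lit 0) (.cons (.ev (nat_lit 5253144089777819970183905018904577) (nat_lit 2)) .nil)) .nil))) (.cons (.br (nat_lit 7) (nat_lit 0) (.cons (.ev (nat_lit 341611615199132983006467922685830692865) (nat_lit 1))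 (.cons (.br (nat_lit 10) (nat_lit 0) (.cons (.ev (nat_lit 2663668570840402262436950131077021697) (nat_lit 2)) .nil)) (.cons (.br (nat_lit 10) (nat_lit 0) (.cons (.ev (nat_lit 2663668570840402262436950131077021697) (nat_lit 2)) .nil)) .nil)))) .nil))))) (.cons (.br (nat_lit 5) (nat_lit 0) (.cons (.br (nat_lit 16) (nat_lit 0) (.cons (.ev (nat_lit 5253144089777819970183904985350657) (nat_lit 2)) (.cons (.ev (nat_lit 340282366920938463481893410199044161536) (nat_lit 1)) (.cons (.ev (nat_lit 341611615199132983006467641206575792128) (nat_lit 1)) .nil)))) (.cons (.rf (nat_lit 522) (nat_lit 677582165103132179601393696)) (.cons (.br (nat_lit 7) (nat_lit 0) (.cons (.rf (nat_lit 523) (nat_lit 21174442659472880612509728)) (.cons (.ev (nat_lit 340282366920938463481893410199027384576) (nat_lit 1)) (.cons (.br (nat_lit 10) (nat_lit 0) (.cons (.ev (nat_lit 341611615199132987710387380002511454208) (nat_lit 1)) .nil)) .nil)))) (.cons (.br (nat_lit 7) (nat_lit 0) (.cons (.ev (nat_lit 340287579500206601961192646121896345857) (nat_lit 1)) (.cons (.rf (nat_lit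 522) (nat_lit 639559654033338453002202606)) (.cons (.br (nat_lit 10) (nat_lit 0) (.cons (.ev (nat_lit 2663668570840402262436950131077021697) (nat_lit 2)) .nil)) .nil)))) (.cons (.br (nat_lit 12) (nat_lit 0) (.cons (.rf (nat_lit 522) (nat_lit 639559654033338453002202606)) (.cons (.ev (nat_lit 87112291124136644042623800094669368459265) (nat_lit 1)) (.cons (.rf (nat_lit 410) (nat_lit 21168273330303694240070688)) .nil)))) .nil)))))) .nil))))))),
 (.br (nat_lit 7) (nat_lit 0) (.cons (.br (nat_lit 16) (nat_lit 0) (.cons (.ev (nat_lit 340287579500206606665112103438560329985) (nat_lit 1)) .nil)) (.cons (.ev (nat_lit 5253144089777819970183904985350657) (nat_lit 2)) (.cons (.rf (nat_lit 508) (nat_lit 21174442659472880609268771)) .nil)))),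
 (.br (nat_lit 10) (nat_lit 0) (.cons (.ev (nat_lit 5192296858534846147614742860071168) (nat_lit 1)) .nil)),
 (.br (nat_lit 11) (nat_lit 1) (.cons (.rf (nat_lit 230) (nat_lit 16762701010250695280672)) (.cons (.br (nat_lit 13) (nat_lit 0) (.cons (.br (nat_lit 14) (nat_lit 0) (.cons (.br (nat_lit 1) (nat_lit 0) (.cons (.kr (nat_lit 1) (nat_lit 256) (nat_lit 0) (nat_lit 2)) (.cons (.kr (nat_lit 256) (nat_lit 16777216) (nat_lit 1) (nat_lit 0)) (.cons (.rf (nat_lit 461) (nat_lit 583706118939841765935136)) (.cons (.kr (nat_lit 20282409608374037188291889987585) (nat_lit 5192296858534846075274574333739520) (nat_lit 0) (nat_lit 2)) (.cons (.rf (nat_lit 466) (nat_lit 583706118939841765935136)) (.cons (.rf (nat_lit 469) (nat_lit 583706118939841765935136)) (.cons (.br (nat_lit 2) (nat_lit 0) (.cons (.rf (nat_lit 471) (nat_lit 583706118939841765935136)) (.cons (.rf (nat_lit 473) (nat_lit 583706118939841765935136)) (.cons (.rf (nat_lit 475) (nat_lit 583706118939841765935136)) (.cons (.br (nat_lit 5) (nat_lit 0) (.cons (.rf (nat_lit 476) (nat_lit 583706118939841765935136))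 (.cons (.rf (nat_lit 477) (nat_lit 583706118939841765935136)) (.cons (.br (nat_lit 7) (nat_lit 0) (.cons (.kr (nat_lit 79537647524157740256306659584) (nat_lit 1329227995786124798723422788966744064) (nat_lit 1) (nat_lit 0)) (.cons (.br (nat_lit 10) (nat_lit 0) (.cons (.ev (nat_lit 5253144089777819970183905018904577) (nat_lit 2)) (.cons (.rf (nat_lit 1) (nat_lit 581998308994113)) .nil))) .nil))) (.cons (.br (nat_lit 12) (nat_lit 0) (.cons (.rf (nat_lit 477) (nat_lit 37895457199619582635502)) (.cons (.rf (nat_lit 476) (nat_lit 37895457199619582635502)) (.cons (.ev (nat_lit 2663709294732477354326343510843851265) (nat_lit 2)) (.cons (.br (nat_lit 7) (nat_lit 0) (.cons (.rf (nat_lit 1) (nat_lit 582064945998913)) (.cons (.ev (nat_lit 2663668570837984447690648269216677891) (nat_lit 2)) (.cons (.br (nat_lit 10) (nat_lit 0) (.cons (.rf (nat_lit 448) (nat_lit 21162446510132408783833120)) (.cons (.ev (nat_lit 174224571884041518271527430982091724030723) (nat_lit 2)) .nil))) .nil)))) .nil))))) .nil))))) (.cons (.rf (nat_lit 480) (nat_lit 583706118939841765935136))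 (.cons (.br (nat_lit 11) (nat_lit 0) (.cons (.rf (nat_lit 480) (nat_lit 37895457199619582635502)) (.cons (.rf (nat_lit 475) (nat_lit 37895457199619582635502)) (.cons (.rf (nat_lit 473) (nat_lit 37895457199619582635502)) (.cons (.rf (nat_lit 471) (nat_lit 37895457199619582635502)) (.cons (.br (nat_lit 5) (nat_lit 0) (.cons (.rf (nat_lit 481) (nat_lit 19926519232773908561233952)) (.cons (.br (nat_lit 12) (nat_lit 0) (.cons (.ev (nat_lit 2663709294732477354325780552300495361) (nat_lit 2)) (.cons (.ev (nat_lit 5212738345856119923057457700536833) (nat_lit 2)) (.cons (.rf (nat_lit 356) (nat_lit 677384738830312983057500192)) .nil)))) (.cons (.ev (nat_lit 2663709294732486762165258144171819521) (nat_lit 2)) (.cons (.rf (nat_lit 482) (nat_lit 19926519232773908561233952)) (.cons (.br (nat_lit 12) (nat_lit 0) (.cons (.rf (nat_lit 356) (nat_lit 677274871988430950989475310)) (.cons (.rf (nat_lit 481) (nat_lit 19380708571033686377934318)) (.cons (.rf (nat_lit 482) (nat_lit 19380708571033686377934318)) (.cons (.br (nat_lit 16) (nat_lit 0) (.cons (.rf (nat_lit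 361) (nat_lit 19993692716925974599905773)) (.cons (.rf (nat_lit 361) (nat_lit 19997126457188720915256355)) (.cons (.kr (nat_lit 87112291124057105181451528033028991352833) (nat_lit 340282387203348067115045031379036274688) (nat_lit 0) (nat_lit 1)) .nil)))) .nil))))) .nil)))))) (.cons (.br (nat_lit 5) (nat_lit 0) (.cons (.rf (nat_lit 483) (nat_lit 677582165103132179601393696)) (.cons (.rf (nat_lit 484) (nat_lit 677582165103132179601393696)) (.cons (.br (nat_lit 7) (nat_lit 0) (.cons (.rf (nat_lit 1) (nat_lit 582030583115937)) (.cons (.ev (nat_lit 2663668570837974966064757323837079553) (nat_lit 2)) (.cons (.rf (nat_lit 478) (nat_lit 640105464695078675084743715)) .nil)))) (.cons (.rf (nat_lit 485) (nat_lit 677582165103132179601393696)) (.cons (.br (nat_lit 12) (nat_lit 0) (.cons (.rf (nat_lit 484) (nat_lit 639559654033338453002202606)) (.cons (.rf (nat_lit 483) (nat_lit 639559654033338453002202606)) (.cons (.br (nat_lit 7) (nat_lit 0) (.cons (.ev (nat_lit 1329228234401499408238231790110704386) (nat_lit 2)) (.cons (.rf (nat_lit 361) (nat_lit 19993692716925974633426414))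 (.cons (.br (nat_lit 10) (nat_lit 0) (.cons (.ev (nat_lit 341611615199132987710387380002511454208) (nat_lit 1)) .nil)) .nil)))) (.cons (.rf (nat_lit 485) (nat_lit 639559654033338453002202606)) .nil))))) .nil)))))) .nil))))))) .nil))))))) (.cons (.br (nat_lit 15) (nat_lit 0) (.cons (.rf (nat_lit 466) (nat_lit 37895457199619582635502)) (.cons (.rf (nat_lit 469) (nat_lit 37895457199619582635502)) (.cons (.kr (nat_lit 2658455991569831764254639669246951425) (nat_lit 5212579268143201665437317537464320) (nat_lit 0) (nat_lit 1)) (.cons (.rf (nat_lit 461) (nat_lit 37895457199619582635502)) (.cons (.kr (nat_lit 5192296858534827628530496329220096) (nat_lit 1329227995784915872903807060280344576) (nat_lit 14) (nat_lit 0)) (.cons (.kr (nat_lit 20282409603651670423947251286016) (nat_lit 1329227995784915872903807060280344576) (nat_lit 13) (nat_lit 0)) (.cons (.br (nat_lit 7) (nat_lit 0) (.cons (.rf (nat_lit 488) (nat_lit 19926519232773908561233952)) (.cons (.rf (nat_lit 492) (nat_lit 19926519232773908561233952)) (.cons (.ev (nat_lit 2663668570840392854597472539172143617)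 (nat_lit 2)) (.cons (.rf (nat_lit 496) (nat_lit 19926519232773908561233952)) (.cons (.rf (nat_lit 498) (nat_lit 19926519232773908561233952)) (.cons (.rf (nat_lit 499) (nat_lit 19926519232773908561233952)) (.cons (.br (nat_lit 10) (nat_lit 0) (.cons (.rf (nat_lit 496) (nat_lit 19380708571033686377934318)) (.cons (.rf (nat_lit 498) (nat_lit 19380708571033686377934318)) (.cons (.rf (nat_lit 488) (nat_lit 19380708571033686377934318)) (.cons (.rf (nat_lit 492) (nat_lit 19380708571033686377934318)) (.cons (.rf (nat_lit 499) (nat_lit 19380708571033686377934318)) (.cons (.ev (nat_lit 5253144089777819970183905018904577) (nat_lit 2)) .nil))))))) .nil)))))))) (.cons (.br (nat_lit 2) (nat_lit 0) (.cons (.rf (nat_lit 500) (nat_lit 677582165103132179601393696)) (.cons (.rf (nat_lit 504) (nat_lit 677582165103132179601393696)) (.cons (.rf (nat_lit 510) (nat_lit 677582165103132179601393696)) (.cons (.br (nat_lit 5) (nat_lit 0) (.cons (.rf (nat_lit 511) (nat_lit 677582165103132179601393696)) (.cons (.rf (nat_lit 513) (nat_lit 677582165103132179601393696))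 (.cons (.br (nat_lit 7) (nat_lit 0) (.cons (.rf (nat_lit 1) (nat_lit 582168020889762)) (.cons (.br (nat_lit 16) (nat_lit 0) (.cons (.ev (nat_lit 5253144089777819970183905018904577) (nat_lit 2)) (.cons (.ev (nat_lit 341616787213581914182425747755636948993) (nat_lit 1)) .nil))) (.cons (.br (nat_lit 10) (nat_lit 0) (.cons (.rf (nat_lit 514) (nat_lit 677582165103132179601393696)) (.cons (.ev (nat_lit 5253144089777819970183905018904577) (nat_lit 2)) .nil))) .nil)))) (.cons (.rf (nat_lit 515) (nat_lit 677582165103132179601393696)) (.cons (.br (nat_lit 12) (nat_lit 0) (.cons (.rf (nat_lit 513) (nat_lit 639559654033338453002202606)) (.cons (.rf (nat_lit 511) (nat_lit 639559654033338453002202606)) (.cons (.br (nat_lit 7) (nat_lit 0) (.cons (.rf (nat_lit 516) (nat_lit 21174442659472880577906720)) (.cons (.ev (nat_lit 341616787213581914182425747755636948993) (nat_lit 1)) (.cons (.rf (nat_lit 517) (nat_lit 677582165103132179601393696)) .nil)))) (.cons (.rf (nat_lit 515) (nat_lit 639559654033338453002202606)) .nil))))) .nil)))))) (.cons (.rf (nat_lit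 520) (nat_lit 677582165103132179601393696)) (.cons (.rf (nat_lit 524) (nat_lit 677582165103132179601393696)) (.cons (.br (nat_lit 11) (nat_lit 0) (.cons (.rf (nat_lit 520) (nat_lit 639559654033338453002202606)) (.cons (.rf (nat_lit 510) (nat_lit 639559654033338453002202606)) (.cons (.rf (nat_lit 504) (nat_lit 639559654033338453002202606)) (.cons (.rf (nat_lit 500) (nat_lit 639559654033338453002202606)) (.cons (.br (nat_lit 5) (nat_lit 0) (.cons (.br (nat_lit 16) (nat_lit 0) (.cons (.ev (nat_lit 5253144089777819970183904985350657) (nat_lit 2)) (.cons (.ev (nat_lit 341616787213581914182425747755653726465) (nat_lit 1)) (.cons (.ev (nat_lit 340287579500206601961192364642624667905) (nat_lit 1)) .nil)))) (.cons (.rf (nat_lit 525) (nat_lit 677582165103132179601393696)) (.cons (.br (nat_lit 7) (nat_lit 0) (.cons (.br (nat_lit 16) (nat_lit 0) (.cons (.ev (nat_lit 340287579500206606665112103438560329985) (nat_lit 1)) .nil)) (.cons (.ev (nat_lit 341616787213581914182425747755636948993) (nat_lit 1)) (.cons (.rf (nat_lit 526) (nat_lit 661698952883485750167584))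 .nil)))) (.cons (.br (nat_lit 7) (nat_lit 0) (.cons (.ev (nat_lit 341611615199132983006467922685847470080) (nat_lit 1)) (.cons (.rf (nat_lit 525) (nat_lit 639559654033338453002202606)) (.cons (.br (nat_lit 10) (nat_lit 0) (.cons (.ev (nat_lit 2663668570840402262436950131077021697) (nat_lit 2)) .nil)) .nil)))) (.cons (.br (nat_lit 7) (nat_lit 0) (.cons (.br (nat_lit 12) (nat_lit 0) (.cons (.ev (nat_lit 340287579500206606665112103438560329985) (nat_lit 1)) .nil)) (.cons (.rf (nat_lit 525) (nat_lit 639559654033338453002202606)) (.cons (.ev (nat_lit 340287579500206601961192364642607890433) (nat_lit 1)) .nil)))) .nil)))))) (.cons (.rf (nat_lit 524) (nat_lit 639559654033338453002202606)) .nil))))))) .nil)))))))) .nil))))))))) .nil))))))))) .nil)) .nil)) .nil)))]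

theorem c27 : chkAll C T R L27 (nat_lit 505) = true := by decide +kernel

theorem l27 : (nat_lit 505) + L27.length = (nat_lit 528) := by decide +kernel

end Pool.Agent.H93.Neg.N18_8_0
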