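import Pool.Agent.H93.Neg.TabQ14_4_0_5_4_1

/-!
Certificates.
-/

set_option autoImplicit false
set_option maxRecDepth 100000
set_option linter.all false

namespace Pool.Agent.H93.Neg.Q14_4_0_5_4_1

/-- part of the certificates -/
def L0 : List Prf := [(.br (nat_lit 6) (nat_lit 0) (.cons (.br (nat_lit 6) (nat_lit 0) .nil) .nil)),
 (.br (nat_lit 6) (nat_lit 0) (.cons (.rf (nat_lit 0) (nat_lit 247132686368)) (.cons (.br (nat_lit 6) (nat_lit 0) (.cons (.rf (nat_lit 0) (nat_lit 281492424736)) .nil)) .nil))),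
 (.br (nat_lit 5) (nat_lit 1) (.cons (.br (nat_lit 5) (nat_lit 1) (.cons (.br (nat_lit 5) (nat_lit 1) .nil) .nil)) .nil)),
 (.br (nat_lit 3) (nat_lit 1) (.cons (.br (nat_lit 4) (nat_lit 1) (.cons (.kr (nat_lit 256) (nat_lit 65536) (nat_lit 1) (nat_lit 0)) (.cons (.br (nat_lit 5) (nat_lit 1) (.cons (.rf (nat_lit 1) (nat_lit 6614517792)) .nil)) .nil))) (.cons (.br (nat_lit 5) (nat_lit 1) (.cons (.br (nat_lit 4) (nat_lit 1) (.cons (.rf (nat_lit 1) (nat_lit 6613501984)) (.cons (.rf (nat_lit 1) (nat_lit 6509696035)) (.cons (.br (nat_lit 2) (nat_lit 0) (.cons (.br (nat_lit 2) (nat_lit 0) (.cons (.rf (nat_lit 2) (nat_lit 272730144)) .nil)) (.cons (.rf (nat_lit 2) (nat_lit 239175712)) .nil))) .nil)))) .nil)) .nil))),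
 (.br (nat_lit 1) (nat_lit 1) (.cons (.br (nat_lit 4) (nat_lit 0) (.cons (.rf (nat_lit 3) (nat_lit 3215392)) (.cons (.rf (nat_lit 3) (nat_lit 3149858)) (.cons (.rf (nat_lit 3) (nat_lit 2101283)) (.cons (.br (nat_lit 4) (nat_lit 0) (.cons (.rf (nat_lit 3) (nat_lit 3215392)) (.cons (.rf (nat_lit 3) (nat_lit 3149858)) (.cons (.rf (nat_lit 3) (nat_lit 2101283)) (.cons (.rf (nat_lit 2) (nat_lit 204541984)) .nil))))) (.cons (.rf (nat_lit 2) (nat_lit 170987552)) .nil)))))) .nil)),
 (.br (nat_lit 5) (nat_lit 1) (.cons (.kr (nat_lit 281474976710912) (nat_lit 1099511693312) (nat_lit 1) (nat_lit 0)) .nil)),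
 (.br (nat_lit 8) (nat_lit 0) (.cons (.ev (nat_lit 20282410817318303265519780823296) (nat_lit 1)) .nil)),
 (.br (nat_lit 4) (nat_lit 0) (.cons (.ev (nat_lit 4740813509522154914048) (nat_lit 1)) (.cons (.br (nat_lit 13) (nat_lit 0) (.cons (.ev (nat_lit 1213666705181745367547905) (nat_lit 1)) (.cons (.ev (nat_lit 79537652246524505704751956225) (nat_lit 1)) .nil))) (.cons (.br (nat_lit 12) (nat_lit 0) (.cons (.ev (nat_lit 1213666705181745367547905) (nat_lit 1)) (.cons (.rf (nat_lit 6) (nat_lit 493858305440582043680)) .nil))) .nil)))),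
 (.br (nat_lit 8) (nat_lit 0) (.cons (.ev (nat_lit 20282409608392555708484660822016) (nat_lit 1)) (.cons (.ev (nat_lit 1213666705181745350705408) (nat_lit 1)) .nil))),
 (.br (nat_lit 3) (nat_lit 0) (.cons (.rf (nat_lit 7) (nat_lit 493858305440582043680)) (.cons (.rf (nat_lit 7) (nat_lit 489211720889803048992)) (.cons (.br (nat_lit 4) (nat_lit 0) (.cons (.rf (nat_lit 7) (nat_lit 493858305440581026880)) (.cons (.rf (nat_lit 7) (nat_lit 489211720889802032192)) (.cons (.br (nat_lit 8) (nat_lit 0) (.cons (.rf (nat_lit 8) (nat_lit 493858305440582043680)) .nil)) .nil)))) .nil)))),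
 (.br (nat_lit 4) (nat_lit 0) (.cons (.ev (nat_lit 4740813509522154848256) (nat_lit 1)) (.cons (.br (nat_lit 12) (nat_lit 0) (.cons (.ev (nat_lit 20520403585667464776396054790914) (nat_lit 2)) .nil)) .nil))),
 (.br (nat_lit 4) (nat_lit 0) (.cons (.rf (nat_lit 10) (nat_lit 493858305440581026880)) (.cons (.ev (nat_lit 4740813509522154848256) (nat_lit 1)) .nil))),
 (.br (nat_lit 4) (nat_lit 0) (.cons (.rf (nat_lit 10) (nat_lit 493858305440581026880)) (.cons (.br (nat_lit 8) (nat_lit 0) (.cons (.ev (nat_lit 20520403585667464776396054921474) (nat_lit 2)) .nil)) .nil))),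
 (.br (nat_lit 3) (nat_lit 0) (.cons (.rf (nat_lit 9) (nat_lit 493858305440582043680)) (.cons (.br (nat_lit 4) (nat_lit 0) (.cons (.rf (nat_lit 10) (nat_lit 493858305440582043680)) (.cons (.rf (nat_lit 10) (nat_lit 489211720889803048992)) (.cons (.br (nat_lit 4) (nat_lit 0) (.cons (.rf (nat_lit 10) (nat_lit 493858305440582043680)) (.cons (.rf (nat_lit 10) (nat_lit 489211720889803048992)) .nil))) .nil)))) (.cons (.br (nat_lit 4) (nat_lit 0) (.cons (.rf (nat_lit 11) (nat_lit 493858305440582043680)) (.cons (.rf (nat_lit 12) (nat_lit 493858305440582043680)) (.cons (.br (nat_lit 4) (nat_lit 0) (.cons (.ev (nat_lit 4740813509522154848256) (nat_lit 1)) (.cons (.rf (nat_lit 12) (nat_lit 493858305440582043680)) .nil))) .nil)))) .nil)))),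
 (.br (nat_lit 3) (nat_lit 0) (.cons (.rf (nat_lit 9) (nat_lit 493858305440582043680)) (.cons (.rf (nat_lit 13) (nat_lit 493858305440582043680)) (.cons (.rf (nat_lit 13) (nat_lit 489211720889803048992)) (.cons (.br (nat_lit 3) (nat_lit 0) (.cons (.rf (nat_lit 9) (nat_lit 493858305440582043680)) (.cons (.rf (nat_lit 13) (nat_lit 493858305440582043680)) (.cons (.rf (nat_lit 13) (nat_lit 489211720889803048992)) .nil)))) .nil))))),
 (.br (nat_lit 4) (nat_lit 0) (.cons (.ev (nat_lit 4740813509522154914048) (nat_lit 1)) (.cons (.br (nat_lit 5) (nat_lit 0) (.cons (.ev (nat_lit 4740813509522154913793) (nat_lit 1)) (.cons (.br (nat_lit 12) (nat_lit 0) (.cons (.ev (nat_lit 20520403585667464776396021236480) (nat_lit 2)) .nil)) .nil))) (.cons (.br (nat_lit 5) (nat_lit 0) (.cons (.br (nat_lit 12) (nat_lit 0) (.cons (.ev (nat_lit 20520403585667464776396021235970) (nat_lit 2)) .nil)) (.cons (.ev (nat_lit 4740813509522154913793) (nat_lit 1)) .nil))) .nil)))),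
 (.br (nat_lit 3) (nat_lit 0) (.cons (.rf (nat_lit 14) (nat_lit 493858305440582011936)) (.cons (.rf (nat_lit 15) (nat_lit 493858305440582043680)) (.cons (.br (nat_lit 4) (nat_lit 0) (.cons (.rf (nat_lit 15) (nat_lit 458114357902693237824)) (.cons (.rf (nat_lit 14) (nat_lit 458114357902693142592)) (.cons (.rf (nat_lit 14) (nat_lit 310503250651657572448)) (.cons (.br (nat_lit 5) (nat_lit 0) (.cons (.ev (nat_lit 1213666705181745367482368) (nat_lit 1)) (.cons (.ev (nat_lit 79229376162450436196170530816) (nat_lit 1)) (.cons (.br (nat_lit 8) (nat_lit 0) (.cons (.ev (nat_lit 4740813509522154848256) (nat_lit 1)) .nil)) .nil)))) .nil))))) (.cons (.br (nat_lit 4) (nat_lit 0) (.cons (.rf (nat_lit 15) (nat_lit 458114357902693237824)) (.cons (.rf (nat_lit 14) (nat_lit 458114357902693142592)) (.cons (.br (nat_lit 5) (nat_lit 0) (.cons (.ev (nat_lit 1213666705181745367482368) (nat_lit 1)) (.cons (.ev (nat_lit 79228167236702879161033687296) (nat_lit 1)) (.cons (.br (nat_lit 8) (nat_lit 0) (.cons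 (.ev (nat_lit 4740813509522154848256) (nat_lit 1)) .nil)) .nil)))) (.cons (.rf (nat_lit 14) (nat_lit 198561781615526187104)) .nil))))) .nil))))),
 (.br (nat_lit 3) (nat_lit 0) (.cons (.ev (nat_lit 4740813509522154914048) (nat_lit 1)) (.cons (.br (nat_lit 13) (nat_lit 0) (.cons (.ev (nat_lit 1213666705181745367482368) (nat_lit 1)) (.cons (.br (nat_lit 4) (nat_lit 0) (.cons (.ev (nat_lit 1213666705181745367482368) (nat_lit 1)) .nil)) .nil))) (.cons (.br (nat_lit 12) (nat_lit 0) (.cons (.ev (nat_lit 1213666705181745367482368) (nat_lit 1)) (.cons (.ev (nat_lit 20282409608392555708484660822016) (nat_lit 1)) .nil))) .nil)))),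
 (.br (nat_lit 4) (nat_lit 0) (.cons (.rf (nat_lit 14) (nat_lit 493858305440582011936)) (.cons (.rf (nat_lit 17) (nat_lit 493858305440582043680)) (.cons (.br (nat_lit 12) (nat_lit 0) (.cons (.ev (nat_lit 79229376162450436196170531073) (nat_lit 1)) (.cons (.ev (nat_lit 79229376162450436196170465536) (nat_lit 1)) (.cons (.br (nat_lit 3) (nat_lit 0) (.cons (.ev (nat_lit 20361641402443682979482322535168) (nat_lit 2)) .nil)) .nil)))) .nil)))),
 (.br (nat_lit 4) (nat_lit 0) (.cons (.rf (nat_lit 14) (nat_lit 493858305440582011936)) (.cons (.rf (nat_lit 17) (nat_lit 493858305440582043680)) (.cons (.rf (nat_lit 18) (nat_lit 493858305440582043680)) (.cons (.br (nat_lit 4) (nat_lit 0) (.cons (.rf (nat_lit 14) (nat_lit 493858305440582011936)) (.cons (.rf (nat_lit 17) (nat_lit 493858305440582043680)) (.cons (.rf (nat_lit 18) (nat_lit 493858305440582043680)) .nil)))) .nil))))),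
 (.br (nat_lit 13) (nat_lit 0) (.cons (.ev (nat_lit 1213666705181745367482368) (nat_lit 1)) (.cons (.br (nat_lit 4) (nat_lit 0) (.cons (.ev (nat_lit 1213666705181745367482368) (nat_lit 1)) .nil)) .nil))),
 (.br (nat_lit 5) (nat_lit 0) (.cons (.ev (nat_lit 20520403585667464776396021236480) (nat_lit 2)) .nil)),
 (.br (nat_lit 4) (nat_lit 0) (.cons (.ev (nat_lit 309489750634573115902918656) (nat_lit 1)) (.cons (.br (nat_lit 5) (nat_lit 0) (.cons (.ev (nat_lit 20521022555687108029483424350978) (nat_lit 2)) .nil)) .nil))),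
 (.br (nat_lit 3) (nat_lit 0) (.cons (.rf (nat_lit 15) (nat_lit 493858305440582043680)) (.cons (.rf (nat_lit 19) (nat_lit 493858305440582043680)) (.cons (.br (nat_lit 4) (nat_lit 0) (.cons (.rf (nat_lit 20) (nat_lit 493858305440582043680)) (.cons (.br (nat_lit 4) (nat_lit 0) (.cons (.rf (nat_lit 20) (nat_lit 493858305440582043680)) (.cons (.rf (nat_lit 21) (nat_lit 493858305440582043680)) .nil))) (.cons (.br (nat_lit 4) (nat_lit 0) (.cons (.ev (nat_lit 1213666705181745367482368) (nat_lit 1)) (.cons (.rf (nat_lit 21) (nat_lit 493858305440582043680)) .nil))) .nil)))) (.cons (.br (nat_lit 12) (nat_lit 0) (.cons (.rf (nat_lit 22) (nat_lit 493858305440582043680)) (.cons (.br (nat_lit 12) (nat_lit 0) (.cons (.rf (nat_lit 22) (nat_lit 493858305440582043680)) (.cons (.ev (nat_lit 20361637770888301525885417226241) (nat_lit 1)) .nil))) (.cons (.ev (nat_lit 20282720302328124892063499026688) (nat_lit 1)) .nil)))) .nil))))),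
 (.br (nat_lit 3) (nat_lit 0) (.cons (.rf (nat_lit 16) (nat_lit 493858305440582043680)) (.cons (.rf (nat_lit 19) (nat_lit 493858305440582043680)) (.cons (.rf (nat_lit 23) (nat_lit 493858305440582043680)) (.cons (.br (nat_lit 4) (nat_lit 0) (.cons (.rf (nat_lit 23) (nat_lit 458114357902693237824)) (.cons (.rf (nat_lit 19) (nat_lit 458114357902693237824)) (.cons (.br (nat_lit 4) (nat_lit 0) (.cons (.rf (nat_lit 23) (nat_lit 458114357902693237824)) (.cons (.rf (nat_lit 19) (nat_lit 458114357902693237824)) (.cons (.ev (nat_lit 20361947255898122589479165231104) (nat_lit 1)) .nil)))) (.cons (.br (nat_lit 4) (nat_lit 0) (.cons (.rf (nat_lit 23) (nat_lit 458114357902693237824)) (.cons (.ev (nat_lit 20282409608392555708484660822273) (nat_lit 1)) (.cons (.ev (nat_lit 20361947255898122589479165231104) (nat_lit 1)) .nil)))) .nil))))) .nil))))),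
 (.br (nat_lit 3) (nat_lit 0) (.cons (.rf (nat_lit 16) (nat_lit 493858305440582043680)) (.cons (.rf (nat_lit 19) (nat_lit 493858305440582043680)) (.cons (.rf (nat_lit 23) (nat_lit 493858305440582043680)) (.cons (.rf (nat_lit 24) (nat_lit 493858305440582043680)) (.cons (.br (nat_lit 3) (nat_lit 0) (.cons (.rf (nat_lit 16) (nat_lit 493858305440582043680)) (.cons (.rf (nat_lit 19) (nat_lit 493858305440582043680)) (.cons (.rf (nat_lit 23) (nat_lit 493858305440582043680)) (.cons (.rf (nat_lit 24) (nat_lit 493858305440582043680)) .nil))))) .nil)))))),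
 (.br (nat_lit 3) (nat_lit 0) (.cons (.rf (nat_lit 14) (nat_lit 493858305440582011936)) (.cons (.rf (nat_lit 25) (nat_lit 493858305440582011936)) (.cons (.rf (nat_lit 25) (nat_lit 489211720889803017248)) (.cons (.br (nat_lit 4) (nat_lit 0) (.cons (.br (nat_lit 8) (nat_lit 0) (.cons (.br (nat_lit 8) (nat_lit 0) .nil) .nil)) (.cons (.rf (nat_lit 25) (nat_lit 198561781615527235648)) (.cons (.rf (nat_lit 25) (nat_lit 193915197064748240960)) .nil)))) .nil))))),
 (.br (nat_lit 8) (nat_lit 0) (.cons (.ev (nat_lit 20282410817318303265519780757504) (nat_lit 1)) (.cons (.ev (nat_lit 20282410817318303265519797534976) (nat_lit 1)) .nil))),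
 (.br (nat_lit 4) (nat_lit 0) (.cons (.rf (nat_lit 14) (nat_lit 493858305440582011936)) (.cons (.br (nat_lit 3) (nat_lit 0) (.cons (.ev (nat_lit 1213666705181745350770945) (nat_lit 1)) (.cons (.ev (nat_lit 79537652246524505704735244545) (nat_lit 1)) (.cons (.br (nat_lit 8) (nat_lit 0) (.cons (.ev (nat_lit 20361638984591899635035863581440) (nat_lit 2)) .nil)) .nil)))) (.cons (.br (nat_lit 12) (nat_lit 0) (.cons (.rf (nat_lit 27) (nat_lit 493858305440582043680)) (.cons (.ev (nat_lit 1213666705181745350705408) (nat_lit 1)) .nil))) .nil)))),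
 (.br (nat_lit 4) (nat_lit 0) (.cons (.rf (nat_lit 14) (nat_lit 493858305440582011936)) (.cons (.rf (nat_lit 28) (nat_lit 493858305440582043680)) (.cons (.rf (nat_lit 28) (nat_lit 489211720889803048992)) (.cons (.br (nat_lit 8) (nat_lit 0) (.cons (.rf (nat_lit 28) (nat_lit 198561781615527330880)) (.cons (.rf (nat_lit 28) (nat_lit 493858305440582043680)) (.cons (.rf (nat_lit 8) (nat_lit 493858305440582011936)) .nil)))) .nil))))),
 (.br (nat_lit 12) (nat_lit 0) (.cons (.ev (nat_lit 20521022555687108029483424219904) (nat_lit 2)) .nil)),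
 (.br (nat_lit 4) (nat_lit 0) (.cons (.rf (nat_lit 30) (nat_lit 493858305440582043680)) (.cons (.rf (nat_lit 30) (nat_lit 489211720889803048992)) (.cons (.rf (nat_lit 29) (nat_lit 198561781615527330880)) .nil)))),
 (.br (nat_lit 4) (nat_lit 0) (.cons (.rf (nat_lit 30) (nat_lit 493858305440582043680)) (.cons (.br (nat_lit 5) (nat_lit 0) (.cons (.ev (nat_lit 1213666705181745350705408) (nat_lit 1)) .nil)) (.cons (.ev (nat_lit 20282720302328124892063499092225) (nat_lit 1)) .nil)))),
 (.br (nat_lit 4) (nat_lit 0) (.cons (.rf (nat_lit 31) (nat_lit 493858305440582043680)) (.cons (.rf (nat_lit 32) (nat_lit 493858305440582043680)) (.cons (.rf (nat_lit 32) (nat_lit 489211720889803048992)) (.cons (.rf (nat_lit 29) (nat_lit 198561781615527330880)) .nil))))),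
 (.br (nat_lit 4) (nat_lit 0) (.cons (.br (nat_lit 8) (nat_lit 0) (.cons (.ev (nat_lit 4740813509522138071296) (nat_lit 1)) .nil)) (.cons (.rf (nat_lit 33) (nat_lit 198561781615527330880)) .nil))),
 (.br (nat_lit 3) (nat_lit 0) (.cons (.rf (nat_lit 25) (nat_lit 493858305440582011936)) (.cons (.rf (nat_lit 29) (nat_lit 493858305440582043680)) (.cons (.rf (nat_lit 33) (nat_lit 493858305440582043680)) (.cons (.br (nat_lit 12) (nat_lit 0) (.cons (.rf (nat_lit 34) (nat_lit 493858305440582043680)) (.cons (.br (nat_lit 12) (nat_lit 0) (.cons (.rf (nat_lit 34) (nat_lit 493858305440582043680)) (.cons (.ev (nat_lit 20361638979814193198108646637825) (nat_lit 1)) .nil))) (.cons (.ev (nat_lit 20282720302328124892063499026688) (nat_lit 1)) .nil)))) .nil))))),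
 (.br (nat_lit 2) (nat_lit 0) (.cons (.kr (nat_lit 1) (nat_lit 65536) (nat_lit 0) (nat_lit 1)) (.cons (.rf (nat_lit 14) (nat_lit 493858305440582043680)) (.cons (.rf (nat_lit 25) (nat_lit 493858305440582043680)) (.cons (.rf (nat_lit 25) (nat_lit 489211720889803048992)) (.cons (.br (nat_lit 3) (nat_lit 0) (.cons (.rf (nat_lit 26) (nat_lit 493858305440582043680)) (.cons (.rf (nat_lit 29) (nat_lit 493858305440582043680)) (.cons (.rf (nat_lit 35) (nat_lit 493858305440582043680)) (.cons (.rf (nat_lit 35) (nat_lit 489211720889803048992)) (.cons (.br (nat_lit 3) (nat_lit 0) (.cons (.rf (nat_lit 26) (nat_lit 493858305440582043680)) (.cons (.rf (nat_lit 29) (nat_lit 493858305440582043680)) (.cons (.rf (nat_lit 35) (nat_lit 493858305440582043680)) (.cons (.rf (nat_lit 35) (nat_lit 489211720889803048992)) .nil))))) .nil)))))) .nil))))))]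

theorem c0 : chkAll C T R L0 (nat_lit 0) = true := by decide +kernel

theorem l0 : (nat_lit 0) + L0.length = (nat_lit 37) := by decide +kernel

/-- part of the certificates -/
def L1 : List Prf := [(.br (nat_lit 13) (nat_lit 0) (.cons (.kr (nat_lit 310693935640959697899487744) (nat_lit 72339069014769664) (nat_lit 1) (nat_lit 0)) (.cons (.kr (nat_lit 310693935640959697899487744) (nat_lit 72339069048193024) (nat_lit 1) (nat_lit 0)) (.cons (.ev (nat_lit 20361637770888301525885417160961) (nat_lit 1)) .nil)))),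
 (.br (nat_lit 13) (nat_lit 0) (.cons (.kr (nat_lit 310693935640959697899487744) (nat_lit 72339069014769664) (nat_lit 1) (nat_lit 0)) (.cons (.kr (nat_lit 310693935640959697899487744) (nat_lit 72339069048193024) (nat_lit 1) (nat_lit 0)) (.cons (.rf (nat_lit 37) (nat_lit 493858305440582043680)) (.cons (.rf (nat_lit 37) (nat_lit 489211720889803048992)) .nil))))),
 (.br (nat_lit 2) (nat_lit 0) (.cons (.rf (nat_lit 38) (nat_lit 493858305440582043680)) (.cons (.ev (nat_lit 4740813509522138136833) (nat_lit 1)) (.cons (.br (nat_lit 3) (nat_lit 0) (.cons (.br (nat_lit 3) (nat_lit 0) (.cons (.ev (nat_lit 20361641402443682979482288980738) (nat_lit 2)) .nil)) (.cons (.br (nat_lit 3) (nat_lit 0) (.cons (.ev (nat_lit 20361641402443682979482288980738) (nat_lit 2)) .nil)) .nil))) .nil)))),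
 (.br (nat_lit 3) (nat_lit 0) (.cons (.kr (nat_lit 1) (nat_lit 16777216) (nat_lit 0) (nat_lit 1)) (.cons (.kr (nat_lit 256) (nat_lit 16777216) (nat_lit 1) (nat_lit 0)) (.cons (.kr (nat_lit 1208925819896104151547904) (nat_lit 309485009893402662796263424) (nat_lit 2) (nat_lit 0)) (.cons (.kr (nat_lit 65536) (nat_lit 16777216) (nat_lit 2) (nat_lit 0)) (.cons (.kr (nat_lit 310693935640959697899487744) (nat_lit 72339069048193024) (nat_lit 1) (nat_lit 0)) .nil)))))),
 (.br (nat_lit 2) (nat_lit 0) (.cons (.kr (nat_lit 1) (nat_lit 65536) (nat_lit 0) (nat_lit 1)) (.cons (.kr (nat_lit 256) (nat_lit 65536) (nat_lit 1) (nat_lit 0)) (.cons (.rf (nat_lit 40) (nat_lit 489211720889803048992)) (.cons (.rf (nat_lit 40) (nat_lit 493858305440582043680)) (.cons (.kr (nat_lit 310693935640959697899487744) (nat_lit 72339069014769664) (nat_lit 1) (nat_lit 0)) .nil)))))),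
 (.br (nat_lit 2) (nat_lit 0) (.cons (.rf (nat_lit 41) (nat_lit 493858305440582043680)) (.cons (.br (nat_lit 3) (nat_lit 0) (.cons (.br (nat_lit 3) (nat_lit 0) (.cons (.ev (nat_lit 20361641402443682979482288980738) (nat_lit 2)) .nil)) (.cons (.br (nat_lit 3) (nat_lit 0) (.cons (.ev (nat_lit 20361641402443682979482288980738) (nat_lit 2)) .nil)) .nil))) (.cons (.ev (nat_lit 4740813509522138136833) (nat_lit 1)) .nil)))),
 (.br (nat_lit 2) (nat_lit 0) (.cons (.rf (nat_lit 41) (nat_lit 493858305440582043680)) (.cons (.rf (nat_lit 42) (nat_lit 493858305440582043680)) (.cons (.br (nat_lit 3) (nat_lit 0) (.cons (.rf (nat_lit 42) (nat_lit 493858305440582011936)) (.cons (.br (nat_lit 3) (nat_lit 0) (.cons (.ev (nat_lit 20361641402443682979482322404098) (nat_lit 2)) .nil)) .nil))) .nil)))),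
 (.br (nat_lit 4) (nat_lit 0) (.cons (.rf (nat_lit 36) (nat_lit 493858305440582043680)) (.cons (.rf (nat_lit 36) (nat_lit 493858305440582011936)) (.cons (.br (nat_lit 2) (nat_lit 0) (.cons (.rf (nat_lit 41) (nat_lit 493858305440582043680)) (.cons (.rf (nat_lit 39) (nat_lit 493858305440582043680)) (.cons (.rf (nat_lit 39) (nat_lit 489211720889803048992)) (.cons (.br (nat_lit 2) (nat_lit 0) (.cons (.kr (nat_lit 310693935640959697899487744) (nat_lit 72339069014769664) (nat_lit 1) (nat_lit 0)) (.cons (.rf (nat_lit 39) (nat_lit 493858305440582043680)) (.cons (.rf (nat_lit 39) (nat_lit 489211720889803048992)) .nil)))) .nil))))) (.cons (.br (nat_lit 2) (nat_lit 0) (.cons (.rf (nat_lit 41) (nat_lit 493858305440582043680)) (.cons (.rf (nat_lit 42) (nat_lit 493858305440582043680)) (.cons (.rf (nat_lit 43) (nat_lit 493858305440582043680)) (.cons (.br (nat_lit 3) (nat_lit 0) (.cons (.kr (nat_lit 310693935640959697899487744) (nat_lit 72339069014769664) (nat_lit 1) (nat_lit 0)) (.cons (.rf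 (nat_lit 42) (nat_lit 493858305440582011936)) (.cons (.rf (nat_lit 43) (nat_lit 493858305440582011936)) .nil)))) .nil))))) .nil))))),
 (.br (nat_lit 4) (nat_lit 0) (.cons (.rf (nat_lit 36) (nat_lit 493858305440582043680)) (.cons (.rf (nat_lit 36) (nat_lit 493858305440582011936)) (.cons (.rf (nat_lit 44) (nat_lit 493858305440582043680)) (.cons (.rf (nat_lit 44) (nat_lit 489211720889803048992)) (.cons (.br (nat_lit 4) (nat_lit 0) (.cons (.rf (nat_lit 36) (nat_lit 493858305440582043680)) (.cons (.rf (nat_lit 36) (nat_lit 493858305440582011936)) (.cons (.rf (nat_lit 44) (nat_lit 493858305440582043680)) (.cons (.rf (nat_lit 44) (nat_lit 489211720889803048992)) .nil))))) .nil)))))),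
 (.br (nat_lit 3) (nat_lit 0) (.cons (.kr (nat_lit 256) (nat_lit 65536) (nat_lit 1) (nat_lit 0)) (.cons (.ev (nat_lit 1213666705181745350705408) (nat_lit 1)) (.cons (.ev (nat_lit 79229376162450436196170465536) (nat_lit 1)) (.cons (.br (nat_lit 2) (nat_lit 0) (.cons (.kr (nat_lit 310693935640959697899487744) (nat_lit 72339069048193024) (nat_lit 1) (nat_lit 0)) (.cons (.rf (nat_lit 27) (nat_lit 489211720889803017248)) (.cons (.rf (nat_lit 27) (nat_lit 493858305440582011936)) .nil)))) .nil))))),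
 (.br (nat_lit 2) (nat_lit 0) (.cons (.rf (nat_lit 41) (nat_lit 493858305440582043680)) (.cons (.rf (nat_lit 46) (nat_lit 493858305440582043680)) (.cons (.br (nat_lit 5) (nat_lit 0) (.cons (.ev (nat_lit 1213666705181745350705408) (nat_lit 1)) (.cons (.ev (nat_lit 4740813509522138136576) (nat_lit 1)) .nil))) (.cons (.ev (nat_lit 20282719093402377335028345470976) (nat_lit 1)) .nil))))),
 (.br (nat_lit 4) (nat_lit 0) (.cons (.rf (nat_lit 36) (nat_lit 493858305440582043680)) (.cons (.rf (nat_lit 36) (nat_lit 493858305440582011936)) (.cons (.rf (nat_lit 45) (nat_lit 493858305440582043680)) (.cons (.br (nat_lit 2) (nat_lit 0) (.cons (.rf (nat_lit 41) (nat_lit 493858305440582043680)) (.cons (.rf (nat_lit 46) (nat_lit 493858305440582043680)) (.cons (.rf (nat_lit 47) (nat_lit 493858305440582043680)) (.cons (.rf (nat_lit 47) (nat_lit 489211720889803048992)) (.cons (.br (nat_lit 3) (nat_lit 0) (.cons (.kr (nat_lit 310693935640959697899487744) (nat_lit 72339069014769664) (nat_lit 1) (nat_lit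 0)) (.cons (.rf (nat_lit 46) (nat_lit 493858305440582011936)) (.cons (.rf (nat_lit 47) (nat_lit 493858305440582011936)) (.cons (.rf (nat_lit 47) (nat_lit 489211720889803017248)) .nil))))) .nil)))))) .nil))))),
 (.br (nat_lit 4) (nat_lit 0) (.cons (.rf (nat_lit 36) (nat_lit 493858305440582043680)) (.cons (.rf (nat_lit 36) (nat_lit 493858305440582011936)) (.cons (.rf (nat_lit 45) (nat_lit 493858305440582043680)) (.cons (.rf (nat_lit 48) (nat_lit 493858305440582043680)) (.cons (.br (nat_lit 4) (nat_lit 0) (.cons (.rf (nat_lit 36) (nat_lit 493858305440582043680)) (.cons (.rf (nat_lit 36) (nat_lit 493858305440582011936)) (.cons (.rf (nat_lit 45) (nat_lit 493858305440582043680)) (.cons (.rf (nat_lit 48) (nat_lit 493858305440582043680)) .nil))))) .nil)))))),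
 (.br (nat_lit 10) (nat_lit 0) (.cons (.br (nat_lit 6) (nat_lit 1) (.cons (.rf (nat_lit 5) (nat_lit 14718124432581)) (.cons (.rf (nat_lit 5) (nat_lit 13652871784648)) (.cons (.br (nat_lit 7) (nat_lit 1) (.cons (.br (nat_lit 4) (nat_lit 0) (.cons (.rf (nat_lit 36) (nat_lit 493858305440582043680)) (.cons (.rf (nat_lit 36) (nat_lit 493858305440582011936)) (.cons (.rf (nat_lit 45) (nat_lit 493858305440582043680)) (.cons (.rf (nat_lit 49) (nat_lit 493858305440582043680)) (.cons (.rf (nat_lit 49) (nat_lit 489211720889803048992)) (.cons (.br (nat_lit 4) (nat_lit 0) (.cons (.rf (nat_lit 36) (nat_lit 493858305440582043680)) (.cons (.rf (nat_lit 36) (nat_lit 493858305440582011936)) (.cons (.rf (nat_lit 45) (nat_lit 493858305440582043680)) (.cons (.rf (nat_lit 49) (nat_lit 493858305440582043680)) (.cons (.rf (nat_lit 49) (nat_lit 489211720889803048992)) .nil)))))) .nil))))))) .nil)) .nil)))) .nil)),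
 (.br (nat_lit 11) (nat_lit 0) (.cons (.br (nat_lit 11) (nat_lit 0) (.cons (.br (nat_lit 7) (nat_lit 0) (.cons (.rf (nat_lit 50) (nat_lit 493858305440582043680)) (.cons (.rf (nat_lit 50) (nat_lit 458117738797769787424)) .nil))) .nil)) .nil)),
 (.br (nat_lit 2) (nat_lit 1) (.cons (.kr (nat_lit 281474976710912) (nat_lit 1099511693312) (nat_lit 1) (nat_lit 0)) .nil)),
 (.br (nat_lit 5) (nat_lit 0) (.cons (.br (nat_lit 7) (nat_lit 1) (.cons (.br (nat_lit 6) (nat_lit 0) (.cons (.br (nat_lit 1) (nat_lit 1) (.cons (.kr (nat_lit 256) (nat_lit 65536) (nat_lit 1) (nat_lit 0)) (.cons (.rf (nat_lit 52) (nat_lit 9043225708576)) (.cons (.rf (nat_lit 52) (nat_lit 9042185521184)) .nil)))) .nil)) .nil)) .nil)),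
 (.br (nat_lit 9) (nat_lit 1) (.cons (.br (nat_lit 9) (nat_lit 1) (.cons (.br (nat_lit 10) (nat_lit 0) (.cons (.rf (nat_lit 51) (nat_lit 407901468851537952)) (.cons (.br (nat_lit 8) (nat_lit 1) (.cons (.rf (nat_lit 53) (nat_lit 424473271493)) (.cons (.rf (nat_lit 51) (nat_lit 407901468851537952)) (.cons (.rf (nat_lit 51) (nat_lit 372998571739416608)) .nil)))) .nil))) .nil)) .nil)),
 (.br (nat_lit 6) (nat_lit 0) (.cons (.rf (nat_lit 4) (nat_lit 303301)) (.cons (.br (nat_lit 9) (nat_lit 1) (.cons (.rf (nat_lit 54) (nat_lit 325702574508064)) (.cons (.br (nat_lit 9) (nat_lit 1) (.cons (.rf (nat_lit 54) (nat_lit 325702574508064)) (.cons (.br (nat_lit 9) (nat_lit 1) (.cons (.rf (nat_lit 54) (nat_lit 325702574508064)) .nil)) .nil))) .nil))) .nil))),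
 (.br (nat_lit 1) (nat_lit 0) (.cons (.kr (nat_lit 1) (nat_lit 256) (nat_lit 0) (nat_lit 2)) (.cons (.br (nat_lit 5) (nat_lit 1) (.cons (.br (nat_lit 5) (nat_lit 1) (.cons (.br (nat_lit 6) (nat_lit 0) (.cons (.rf (nat_lit 55) (nat_lit 9043225708576)) (.cons (.br (nat_lit 6) (nat_lit 0) (.cons (.rf (nat_lit 55) (nat_lit 10142737336352)) .nil)) .nil))) .nil)) .nil)) .nil))),
 (.br (nat_lit 7) (nat_lit 1) (.cons (.kr (nat_lit 18446744073709551872) (nat_lit 281474993487872) (nat_lit 1) (nat_lit 0)) .nil)),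
 (.br (nat_lit 5) (nat_lit 1) (.cons (.br (nat_lit 2) (nat_lit 1) (.cons (.rf (nat_lit 57) (nat_lit 9043225708576)) (.cons (.rf (nat_lit 57) (nat_lit 6846349936672)) .nil))) .nil)),
 (.br (nat_lit 4) (nat_lit 1) (.cons (.br (nat_lit 6) (nat_lit 1) (.cons (.br (nat_lit 5) (nat_lit 1) (.cons (.rf (nat_lit 58) (nat_lit 9043225708576)) (.cons (.rf (nat_lit 58) (nat_lit 6846349936672)) .nil))) .nil)) .nil)),
 (.br (nat_lit 4) (nat_lit 1) (.cons (.br (nat_lit 6) (nat_lit 0) (.cons (.br (nat_lit 3) (nat_lit 0) (.cons (.br (nat_lit 5) (nat_lit 0) (.cons (.rf (nat_lit 59) (nat_lit 246029584416)) .nil)) (.cons (.rf (nat_lit 59) (nat_lit 281462016032)) .nil))) .nil)) .nil)),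
 (.br (nat_lit 4) (nat_lit 1) (.cons (.rf (nat_lit 60) (nat_lit 172066848)) (.cons (.br (nat_lit 4) (nat_lit 1) (.cons (.rf (nat_lit 60) (nat_lit 172066848)) .nil)) .nil))),
 (.br (nat_lit 4) (nat_lit 1) (.cons (.rf (nat_lit 61) (nat_lit 172066848)) (.cons (.br (nat_lit 4) (nat_lit 1) (.cons (.rf (nat_lit 61) (nat_lit 172066848)) .nil)) .nil))),
 (.br (nat_lit 1) (nat_lit 0) (.cons (.rf (nat_lit 4) (nat_lit 133152)) (.cons (.br (nat_lit 2) (nat_lit 1) (.cons (.br (nat_lit 3) (nat_lit 0) (.cons (.kr (nat_lit 256) (nat_lit 16777216) (nat_lit 1) (nat_lit 0)) (.cons (.rf (nat_lit 4) (nat_lit 165984)) .nil))) (.cons (.br (nat_lit 4) (nat_lit 1) (.cons (.rf (nat_lit 61) (nat_lit 172066848)) (.cons (.rf (nat_lit 62) (nat_lit 172066848)) (.cons (.br (nat_lit 4) (nat_lit 1) (.cons (.rf (nat_lit 61) (nat_lit 172066848)) (.cons (.rf (nat_lit 62) (nat_lit 172066848)) .nil))) .nil)))) .nil))) .nil))),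
 (.br (nat_lit 1) (nat_lit 0) (.cons (.rf (nat_lit 63) (nat_lit 68640)) (.cons (.br (nat_lit 1) (nat_lit 0) (.cons (.rf (nat_lit 63) (nat_lit 69664)) .nil)) .nil))),
 (.br (nat_lit 3) (nat_lit 0) (.cons (.br (nat_lit 4) (nat_lit 0) (.cons (.ev (nat_lit 79537652246452166631442415616) (nat_lit 1)) (.cons (.ev (nat_lit 20361637766166007100609826717696) (nat_lit 1)) .nil))) (.cons (.ev (nat_lit 20361637770888373302004495220993) (nat_lit 1)) .nil))),
 (.br (nat_lit 3) (nat_lit 0) (.cons (.rf (nat_lit 65) (nat_lit 493858305440582043680)) (.cons (.br (nat_lit 4) (nat_lit 0) (.cons (.ev (nat_lit 20361637766166007100609826652416) (nat_lit 1)) (.cons (.ev (nat_lit 79537652246452166631442350336) (nat_lit 1)) .nil))) .nil))),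
 (.br (nat_lit 3) (nat_lit 0) (.cons (.rf (nat_lit 65) (nat_lit 493858305440582043680)) (.cons (.rf (nat_lit 66) (nat_lit 493858305440582043680)) (.cons (.br (nat_lit 4) (nat_lit 0) (.cons (.rf (nat_lit 65) (nat_lit 493858305440581027872)) (.cons (.rf (nat_lit 66) (nat_lit 493858305440581027872)) .nil))) .nil)))),
 (.br (nat_lit 4) (nat_lit 0) (.cons (.rf (nat_lit 67) (nat_lit 493858305440582043680)) (.cons (.br (nat_lit 3) (nat_lit 0) (.cons (.ev (nat_lit 20361638979832639660711657603328) (nat_lit 1)) (.cons (.ev (nat_lit 20441798019987267800030983094784) (nat_lit 2)) .nil))) .nil))),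
 (.br (nat_lit 4) (nat_lit 0) (.cons (.rf (nat_lit 67) (nat_lit 493858305440582043680)) (.cons (.rf (nat_lit 68) (nat_lit 493858305440582043680)) (.cons (.br (nat_lit 4) (nat_lit 0) (.cons (.rf (nat_lit 67) (nat_lit 493858305440582043680)) (.cons (.rf (nat_lit 68) (nat_lit 493858305440582043680)) .nil))) .nil)))),
 (.br (nat_lit 3) (nat_lit 0) (.cons (.rf (nat_lit 67) (nat_lit 493858305440582043680)) (.cons (.rf (nat_lit 69) (nat_lit 493858305440582043680)) (.cons (.br (nat_lit 3) (nat_lit 0) (.cons (.rf (nat_lit 67) (nat_lit 493858305440582043680)) (.cons (.rf (nat_lit 69) (nat_lit 493858305440582043680)) .nil))) .nil)))),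
 (.br (nat_lit 2) (nat_lit 0) (.cons (.rf (nat_lit 56) (nat_lit 4293696)) (.cons (.rf (nat_lit 56) (nat_lit 3277888)) (.cons (.ev (nat_lit 79229376162522775260890136576) (nat_lit 1)) (.cons (.kr (nat_lit 1208925819896104151417344) (nat_lit 4740813226943354896384) (nat_lit 1) (nat_lit 0)) (.cons (.br (nat_lit 3) (nat_lit 0) (.cons (.rf (nat_lit 67) (nat_lit 493858305440582043680)) (.cons (.rf (nat_lit 69) (nat_lit 493858305440582043680)) (.cons (.rf (nat_lit 70) (nat_lit 493858305440582043680)) (.cons (.br (nat_lit 4) (nat_lit 0) (.cons (.rf (nat_lit 67) (nat_lit 493858305440582043680)) (.cons (.rf (nat_lit 69) (nat_lit 493858305440581027872)) (.cons (.rf (nat_lit 70) (nat_lit 493858305440581027872)) .nil)))) .nil))))) .nil)))))),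
 (.br (nat_lit 2) (nat_lit 0) (.cons (.rf (nat_lit 56) (nat_lit 4293696)) (.cons (.rf (nat_lit 56) (nat_lit 3277888)) (.cons (.kr (nat_lit 1208925819896104151417344) (nat_lit 4740813226943354896384) (nat_lit 1) (nat_lit 0)) (.cons (.rf (nat_lit 71) (nat_lit 420143281121234356256)) (.cons (.kr (nat_lit 1208925819614629174706432) (nat_lit 18446744073709617152) (nat_lit 1) (nat_lit 0)) .nil)))))),
 (.br (nat_lit 10) (nat_lit 0) (.cons (.br (nat_lit 2) (nat_lit 0) (.cons (.rf (nat_lit 56) (nat_lit 4293696)) (.cons (.rf (nat_lit 56) (nat_lit 3277888)) (.cons (.rf (nat_lit 71) (nat_lit 493858305440582043680)) (.cons (.rf (nat_lit 71) (nat_lit 420143281121234356256)) (.cons (.rf (nat_lit 72) (nat_lit 493858305440582043680)) (.cons (.rf (nat_lit 72) (nat_lit 420143281121234356256)) .nil))))))) .nil)),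
 (.br (nat_lit 2) (nat_lit 0) (.cons (.rf (nat_lit 56) (nat_lit 4293696)) (.cons (.rf (nat_lit 56) (nat_lit 3277888)) (.cons (.kr (nat_lit 256) (nat_lit 65536) (nat_lit 1) (nat_lit 0)) (.cons (.rf (nat_lit 73) (nat_lit 272568341375133779008)) (.cons (.rf (nat_lit 73) (nat_lit 272497376762225853504)) .nil)))))),
 (.br (nat_lit 3) (nat_lit 0) (.cons (.br (nat_lit 4) (nat_lit 0) (.cons (.ev (nat_lit 79537647542604484330033053696) (nat_lit 1)) (.cons (.ev (nat_lit 20361637766184381506714033193216) (nat_lit 1)) .nil))) (.cons (.ev (nat_lit 159076504029331777323851121410) (nat_lit 2)) (.cons (.ev (nat_lit 40723275537091130340722641797890) (nat_lit 2)) .nil))))]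

theorem c1 : chkAll C T R L1 (nat_lit 37) = true := by decide +kernel

theorem l1 : (nat_lit 37) + L1.length = (nat_lit 76) := by decide +kernel

/-- part of the certificates -/
def L2 : List Prf := [(.br (nat_lit 3) (nat_lit 0) (.cons (.rf (nat_lit 75) (nat_lit 493858305440582043680)) (.cons (.rf (nat_lit 75) (nat_lit 493853767691736811552)) (.cons (.rf (nat_lit 75) (nat_lit 272278954379522966592)) (.cons (.rf (nat_lit 75) (nat_lit 272276736598064858176)) .nil))))),
 (.br (nat_lit 4) (nat_lit 0) (.cons (.ev (nat_lit 159075299807576295954641387776) (nat_lit 2)) (.cons (.ev (nat_lit 20441794383709879871172092559616) (nat_lit 2)) .nil))),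
 (.br (nat_lit 3) (nat_lit 0) (.cons (.rf (nat_lit 76) (nat_lit 493858305440582043680)) (.cons (.rf (nat_lit 77) (nat_lit 493858305440582043680)) (.cons (.rf (nat_lit 77) (nat_lit 420142293827371239456)) .nil)))),
 (.br (nat_lit 3) (nat_lit 0) (.cons (.rf (nat_lit 76) (nat_lit 493858305440582043680)) (.cons (.br (nat_lit 4) (nat_lit 0) (.cons (.ev (nat_lit 79537647542604484330033053696) (nat_lit 1)) (.cons (.ev (nat_lit 20441794383709879871172092559616) (nat_lit 2)) .nil))) (.cons (.rf (nat_lit 78) (nat_lit 272276736598064858176)) .nil)))),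
 (.br (nat_lit 4) (nat_lit 0) (.cons (.rf (nat_lit 76) (nat_lit 493858305440582043680)) (.cons (.rf (nat_lit 78) (nat_lit 493858305440582043680)) (.cons (.rf (nat_lit 79) (nat_lit 493858305440582043680)) (.cons (.rf (nat_lit 79) (nat_lit 420142293827371239456)) .nil))))),
 (.br (nat_lit 2) (nat_lit 0) (.cons (.rf (nat_lit 56) (nat_lit 4293696)) (.cons (.rf (nat_lit 56) (nat_lit 3277888)) (.cons (.rf (nat_lit 73) (nat_lit 272568341375133779008)) (.cons (.rf (nat_lit 73) (nat_lit 198780102842087736384)) (.cons (.br (nat_lit 3) (nat_lit 0) (.cons (.rf (nat_lit 76) (nat_lit 493858305440582043680)) (.cons (.rf (nat_lit 80) (nat_lit 493858305440582043680)) (.cons (.rf (nat_lit 80) (nat_lit 493853767691736811552)) (.cons (.rf (nat_lit 80) (nat_lit 272278954379522966592)) (.cons (.rf (nat_lit 80) (nat_lit 272276736598064858176)) .nil)))))) .nil)))))),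
 (.br (nat_lit 12) (nat_lit 1) (.cons (.br (nat_lit 11) (nat_lit 1) (.cons (.rf (nat_lit 53) (nat_lit 251570528453)) (.cons (.br (nat_lit 7) (nat_lit 1) (.cons (.rf (nat_lit 73) (nat_lit 493858305440582043680)) (.cons (.br (nat_lit 8) (nat_lit 0) (.cons (.br (nat_lit 2) (nat_lit 0) (.cons (.rf (nat_lit 56) (nat_lit 4293696)) (.cons (.rf (nat_lit 56) (nat_lit 3277888)) (.cons (.rf (nat_lit 74) (nat_lit 493858305440582043680)) (.cons (.rf (nat_lit 74) (nat_lit 420141031520443926560)) (.cons (.rf (nat_lit 81) (nat_lit 493858305440582043680)) (.cons (.rf (nat_lit 81) (nat_lit 420142293827371239456)) .nil))))))) .nil)) .nil))) .nil))) .nil)),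
 (.br (nat_lit 9) (nat_lit 0) (.cons (.rf (nat_lit 64) (nat_lit 9419)) (.cons (.br (nat_lit 12) (nat_lit 1) (.cons (.rf (nat_lit 82) (nat_lit 493858305440582043680)) (.cons (.br (nat_lit 12) (nat_lit 1) (.cons (.rf (nat_lit 82) (nat_lit 493858305440582043680)) .nil)) .nil))) .nil))),
 (.br (nat_lit 6) (nat_lit 0) (.cons (.rf (nat_lit 64) (nat_lit 9415)) (.cons (.rf (nat_lit 4) (nat_lit 404677)) (.cons (.br (nat_lit 9) (nat_lit 0) (.cons (.rf (nat_lit 64) (nat_lit 9419)) (.cons (.rf (nat_lit 83) (nat_lit 14242959524133701664)) (.cons (.br (nat_lit 9) (nat_lit 0) (.cons (.rf (nat_lit 64) (nat_lit 9419)) (.cons (.rf (nat_lit 83) (nat_lit 14242959524133701664)) .nil))) .nil)))) .nil)))),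
 (.br (nat_lit 6) (nat_lit 0) (.cons (.rf (nat_lit 64) (nat_lit 9415)) (.cons (.rf (nat_lit 84) (nat_lit 407901468851537952)) (.cons (.br (nat_lit 6) (nat_lit 0) (.cons (.rf (nat_lit 64) (nat_lit 9415)) (.cons (.rf (nat_lit 84) (nat_lit 443930265870501920)) .nil))) .nil)))),
 (.br (nat_lit 6) (nat_lit 1) (.cons (.rf (nat_lit 53) (nat_lit 179455462432)) .nil)),
 (.br (nat_lit 3) (nat_lit 0) (.cons (.rf (nat_lit 4) (nat_lit 165984)) (.cons (.br (nat_lit 5) (nat_lit 1) (.cons (.br (nat_lit 6) (nat_lit 1) (.cons (.rf (nat_lit 86) (nat_lit 6614517792)) (.cons (.rf (nat_lit 86) (nat_lit 6617663520)) .nil))) .nil)) (.cons (.rf (nat_lit 4) (nat_lit 231520)) .nil)))),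
 (.br (nat_lit 6) (nat_lit 0) (.cons (.rf (nat_lit 64) (nat_lit 9419)) (.cons (.rf (nat_lit 4) (nat_lit 400581)) (.cons (.br (nat_lit 7) (nat_lit 1) (.cons (.rf (nat_lit 87) (nat_lit 13263707333)) (.cons (.rf (nat_lit 64) (nat_lit 9415)) (.cons (.rf (nat_lit 85) (nat_lit 10491789232408608)) .nil)))) .nil)))),
 (.br (nat_lit 7) (nat_lit 1) (.cons (.rf (nat_lit 88) (nat_lit 407901468851537952)) (.cons (.br (nat_lit 7) (nat_lit 1) (.cons (.rf (nat_lit 88) (nat_lit 407901468851537952)) (.cons (.rf (nat_lit 85) (nat_lit 11584701642934304)) (.cons (.rf (nat_lit 64) (nat_lit 10503)) .nil)))) (.cons (.rf (nat_lit 85) (nat_lit 11584701642934304)) (.cons (.rf (nat_lit 85) (nat_lit 10491789232408608)) .nil))))),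
 (.br (nat_lit 1) (nat_lit 0) (.cons (.rf (nat_lit 56) (nat_lit 4294688)) (.cons (.rf (nat_lit 56) (nat_lit 3278880)) (.cons (.br (nat_lit 5) (nat_lit 1) (.cons (.br (nat_lit 1) (nat_lit 0) (.cons (.rf (nat_lit 56) (nat_lit 4294688)) (.cons (.rf (nat_lit 56) (nat_lit 3278880)) (.cons (.br (nat_lit 5) (nat_lit 1) (.cons (.br (nat_lit 6) (nat_lit 1) (.cons (.rf (nat_lit 64) (nat_lit 8389)) (.cons (.br (nat_lit 8) (nat_lit 1) (.cons (.br (nat_lit 9) (nat_lit 0) (.cons (.rf (nat_lit 85) (nat_lit 11584701642934304)) (.cons (.rf (nat_lit 89) (nat_lit 407901468851537952)) (.cons (.br (nat_lit 9) (nat_lit 0) (.cons (.rf (nat_lit 85) (nat_lit 11584701642934304)) (.cons (.rf (nat_lit 89) (nat_lit 443930265870501920)) .nil))) .nil)))) .nil)) .nil))) .nil)) .nil)))) .nil)) .nil)))),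
 (.br (nat_lit 4) (nat_lit 0) (.cons (.rf (nat_lit 90) (nat_lit 3215392)) (.cons (.rf (nat_lit 90) (nat_lit 3182656)) (.cons (.rf (nat_lit 90) (nat_lit 2134112)) (.cons (.br (nat_lit 4) (nat_lit 0) (.cons (.rf (nat_lit 90) (nat_lit 3215392)) (.cons (.rf (nat_lit 90) (nat_lit 3182656)) (.cons (.rf (nat_lit 90) (nat_lit 2134112)) (.cons (.br (nat_lit 4) (nat_lit 0) (.cons (.rf (nat_lit 90) (nat_lit 3215392)) (.cons (.rf (nat_lit 90) (nat_lit 3182656)) (.cons (.rf (nat_lit 90) (nat_lit 2134112)) .nil)))) .nil))))) .nil))))),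
 (.br (nat_lit 3) (nat_lit 0) (.cons (.rf (nat_lit 90) (nat_lit 4230208)) (.cons (.rf (nat_lit 90) (nat_lit 2134112)) (.cons (.rf (nat_lit 91) (nat_lit 6614517792)) (.cons (.rf (nat_lit 91) (nat_lit 7688259616)) (.cons (.br (nat_lit 3) (nat_lit 0) (.cons (.rf (nat_lit 90) (nat_lit 4230208)) (.cons (.rf (nat_lit 90) (nat_lit 2134112)) (.cons (.rf (nat_lit 91) (nat_lit 6614517792)) (.cons (.rf (nat_lit 91) (nat_lit 7688259616)) .nil))))) .nil)))))),
 (.br (nat_lit 1) (nat_lit 0) (.cons (.rf (nat_lit 90) (nat_lit 4294688)) (.cons (.rf (nat_lit 90) (nat_lit 4262944)) (.cons (.rf (nat_lit 90) (nat_lit 3215392)) (.cons (.br (nat_lit 1) (nat_lit 0) (.cons (.rf (nat_lit 90) (nat_lit 4294688)) (.cons (.rf (nat_lit 90) (nat_lit 4262944)) (.cons (.rf (nat_lit 90) (nat_lit 3215392)) (.cons (.br (nat_lit 1) (nat_lit 0) (.cons (.rf (nat_lit 90) (nat_lit 4294688)) (.cons (.rf (nat_lit 90) (nat_lit 4262944)) (.cons (.rf (nat_lit 90) (nat_lit 3215392)) (.cons (.br (nat_lit 2) (nat_lit 0) (.cons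 (.rf (nat_lit 90) (nat_lit 4230208)) (.cons (.rf (nat_lit 90) (nat_lit 3182656)) (.cons (.rf (nat_lit 92) (nat_lit 247132686368)) (.cons (.rf (nat_lit 92) (nat_lit 246092498976)) (.cons (.rf (nat_lit 92) (nat_lit 211766315040)) (.cons (.br (nat_lit 2) (nat_lit 0) (.cons (.rf (nat_lit 90) (nat_lit 4230208)) (.cons (.rf (nat_lit 90) (nat_lit 3182656)) (.cons (.rf (nat_lit 92) (nat_lit 247132686368)) (.cons (.rf (nat_lit 92) (nat_lit 246092498976)) (.cons (.rf (nat_lit 92) (nat_lit 211766315040)) .nil)))))) .nil))))))) .nil))))) .nil))))) .nil))))),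
 (.br (nat_lit 10) (nat_lit 0) (.cons (.ev (nat_lit 79538856468352041365169832193) (nat_lit 1)) (.cons (.br (nat_lit 13) (nat_lit 0) (.cons (.ev (nat_lit 79538856449905578766436990976) (nat_lit 1)) .nil)) .nil))),
 (.br (nat_lit 3) (nat_lit 0) (.cons (.ev (nat_lit 79538856468352041365169832193) (nat_lit 1)) (.cons (.br (nat_lit 13) (nat_lit 0) (.cons (.ev (nat_lit 79538856449905578766436925441) (nat_lit 1)) .nil)) .nil))),
 (.br (nat_lit 12) (nat_lit 0) (.cons (.rf (nat_lit 94) (nat_lit 14242959524133701664)) (.cons (.rf (nat_lit 95) (nat_lit 14242959524133701664)) (.cons (.br (nat_lit 12) (nat_lit 0) (.cons (.rf (nat_lit 94) (nat_lit 14242959524133701664)) (.cons (.rf (nat_lit 95) (nat_lit 14242959524133701664)) .nil))) .nil)))),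
 (.br (nat_lit 10) (nat_lit 0) (.cons (.br (nat_lit 12) (nat_lit 0) (.cons (.ev (nat_lit 79538856449905578766420148481) (nat_lit 1)) .nil)) .nil)),
 (.br (nat_lit 2) (nat_lit 0) (.cons (.kr (nat_lit 1) (nat_lit 65536) (nat_lit 0) (nat_lit 1)) (.cons (.rf (nat_lit 96) (nat_lit 14242959524133701664)) (.cons (.rf (nat_lit 96) (nat_lit 11939368246081325088)) (.cons (.br (nat_lit 3) (nat_lit 0) (.cons (.rf (nat_lit 96) (nat_lit 14242783602278468609)) (.cons (.rf (nat_lit 96) (nat_lit 11939192324226092033)) (.cons (.br (nat_lit 10) (nat_lit 0) (.cons (.rf (nat_lit 97) (nat_lit 493858305440582043680)) (.cons (.br (nat_lit 10) (nat_lit 0) (.cons (.rf (nat_lit 97) (nat_lit 493858305440582043680)) .nil)) .nil))) .nil)))) .nil))))),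
 (.br (nat_lit 9) (nat_lit 0) (.cons (.ev (nat_lit 79538856449905578766436925441) (nat_lit 1)) (.cons (.br (nat_lit 13) (nat_lit 0) (.cons (.br (nat_lit 13) (nat_lit 0) .nil) .nil)) .nil))),
 (.br (nat_lit 2) (nat_lit 0) (.cons (.ev (nat_lit 79538856449905578766436925441) (nat_lit 1)) (.cons (.br (nat_lit 13) (nat_lit 0) (.cons (.br (nat_lit 13) (nat_lit 0) .nil) .nil)) .nil))),
 (.br (nat_lit 12) (nat_lit 0) (.cons (.ev (nat_lit 20282719093383858533364909735936) (nat_lit 1)) .nil)),
 (.br (nat_lit 10) (nat_lit 0) (.cons (.zr (nat_lit 79229376236813872143800467463) (nat_lit 1237940039285949821922314240) (nat_lit 15) (nat_lit 12)) (.cons (.rf (nat_lit 101) (nat_lit 493858305440582043680)) .nil))),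
 (.br (nat_lit 12) (nat_lit 0) (.cons (.rf (nat_lit 102) (nat_lit 493858305440582043680)) (.cons (.br (nat_lit 12) (nat_lit 0) (.cons (.zr (nat_lit 79229376236813872143800467463) (nat_lit 1237940039285949821922314240) (nat_lit 15) (nat_lit 12)) (.cons (.ev (nat_lit 79538856468424100058702610688) (nat_lit 1)) .nil))) (.cons (.br (nat_lit 12) (nat_lit 0) (.cons (.rf (nat_lit 102) (nat_lit 493858305440582043680)) (.cons (.ev (nat_lit 79538856468424100058702610688) (nat_lit 1)) .nil))) .nil)))),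
 (.br (nat_lit 13) (nat_lit 0) (.cons (.rf (nat_lit 103) (nat_lit 493858305440582043680)) (.cons (.br (nat_lit 13) (nat_lit 0) (.cons (.rf (nat_lit 103) (nat_lit 493858305440582043680)) (.cons (.ev (nat_lit 20282719093402304995963625799681) (nat_lit 1)) .nil))) (.cons (.br (nat_lit 13) (nat_lit 0) (.cons (.rf (nat_lit 103) (nat_lit 493858305440582043680)) (.cons (.ev (nat_lit 20282719093402304995963625799681) (nat_lit 1)) .nil))) .nil)))),
 (.br (nat_lit 13) (nat_lit 0) (.cons (.rf (nat_lit 103) (nat_lit 493858305440582043680)) (.cons (.rf (nat_lit 104) (nat_lit 493858305440582043680)) (.cons (.br (nat_lit 13) (nat_lit 0) (.cons (.rf (nat_lit 103) (nat_lit 493858305440582043680)) (.cons (.ev (nat_lit 20282719093402304995963625799681) (nat_lit 1)) .nil))) .nil)))),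
 (.br (nat_lit 3) (nat_lit 0) (.cons (.kr (nat_lit 1) (nat_lit 65536) (nat_lit 0) (nat_lit 1)) (.cons (.rf (nat_lit 96) (nat_lit 14242783602278468609)) (.cons (.br (nat_lit 10) (nat_lit 0) (.cons (.rf (nat_lit 99) (nat_lit 14242959524133701664)) (.cons (.rf (nat_lit 100) (nat_lit 14242959524133701664)) (.cons (.ev (nat_lit 79538856468424100058702545153) (nat_lit 1)) (.cons (.br (nat_lit 12) (nat_lit 0) (.cons (.rf (nat_lit 99) (nat_lit 11939368246081325088)) (.cons (.rf (nat_lit 100) (nat_lit 11939368246081325088)) (.cons (.ev (nat_lit 79538856468352041365152989184) (nat_lit 1)) .nil)))) .nil))))) (.cons (.br (nat_lit 13) (nat_lit 0) (.cons (.rf (nat_lit 103) (nat_lit 493858305440582043680)) (.cons (.rf (nat_lit 104) (nat_lit 493858305440582043680)) (.cons (.rf (nat_lit 105) (nat_lit 493858305440582043680)) (.cons (.br (nat_lit 13) (nat_lit 0) (.cons (.rf (nat_lit 103) (nat_lit 493858305440582043680)) (.cons (.rf (nat_lit 104) (nat_lit 493858305440582043680)) (.cons (.rf (nat_lit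 105) (nat_lit 493858305440582043680)) .nil)))) .nil))))) .nil))))),
 (.br (nat_lit 13) (nat_lit 0) (.cons (.br (nat_lit 12) (nat_lit 0) (.cons (.ev (nat_lit 20282719093402304995963625799681) (nat_lit 1)) .nil)) (.cons (.br (nat_lit 10) (nat_lit 0) (.cons (.ev (nat_lit 20282719093402304995963625799681) (nat_lit 1)) .nil)) .nil))),
 (.br (nat_lit 9) (nat_lit 0) (.cons (.ev (nat_lit 79538856449905578766436990976) (nat_lit 1)) (.cons (.rf (nat_lit 107) (nat_lit 493858305440582043680)) .nil))),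
 (.br (nat_lit 10) (nat_lit 0) (.cons (.br (nat_lit 10) (nat_lit 0) .nil) .nil)),
 (.br (nat_lit 12) (nat_lit 0) (.cons (.zr (nat_lit 79229376236237420187590067712) (nat_lit 1237940039718288789080113159) (nat_lit 15) (nat_lit 10)) (.cons (.rf (nat_lit 101) (nat_lit 491554714231182034976)) .nil))),
 (.br (nat_lit 3) (nat_lit 0) (.cons (.kr (nat_lit 18518801667747479554) (nat_lit 282574521892864) (nat_lit 0) (nat_lit 1)) (.cons (.rf (nat_lit 96) (nat_lit 11939192324226092033)) (.cons (.rf (nat_lit 106) (nat_lit 14242959524133701664)) (.cons (.br (nat_lit 2) (nat_lit 0) (.cons (.rf (nat_lit 106) (nat_lit 11939192324226123777)) (.cons (.br (nat_lit 13) (nat_lit 0) (.cons (.rf (nat_lit 107) (nat_lit 493858305440582043680)) (.cons (.rf (nat_lit 108) (nat_lit 493858305440582043680)) (.cons (.br (nat_lit 13) (nat_lit 0) (.cons (.rf (nat_lit 107) (nat_lit 493858305440582043680)) (.cons (.rf (nat_lit 108) (nat_lit 493858305440582043680)) .nil))) .nil)))) (.cons (.br (nat_lit 13) (nat_lit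 0) (.cons (.rf (nat_lit 109) (nat_lit 493858305440582043680)) (.cons (.br (nat_lit 13) (nat_lit 0) (.cons (.rf (nat_lit 109) (nat_lit 493858305440582043680)) .nil)) .nil))) (.cons (.br (nat_lit 10) (nat_lit 0) (.cons (.rf (nat_lit 110) (nat_lit 493858305440582043680)) (.cons (.br (nat_lit 10) (nat_lit 0) (.cons (.zr (nat_lit 79229376236237420187590067712) (nat_lit 1237940039718288789080113159) (nat_lit 15) (nat_lit 10)) (.cons (.ev (nat_lit 79538856468424100058702610688) (nat_lit 1)) .nil))) (.cons (.br (nat_lit 10) (nat_lit 0) (.cons (.rf (nat_lit 110) (nat_lit 493858305440582043680)) (.cons (.ev (nat_lit 79538856468424100058702610688) (nat_lit 1)) .nil))) .nil)))) .nil))))) .nil))))),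
 (.br (nat_lit 3) (nat_lit 0) (.cons (.kr (nat_lit 1) (nat_lit 65536) (nat_lit 0) (nat_lit 1)) (.cons (.rf (nat_lit 98) (nat_lit 14242959524133701664)) (.cons (.rf (nat_lit 106) (nat_lit 14242959524133701664)) (.cons (.rf (nat_lit 111) (nat_lit 14242959524133701664)) (.cons (.br (nat_lit 3) (nat_lit 0) (.cons (.kr (nat_lit 1) (nat_lit 65536) (nat_lit 0) (nat_lit 1)) (.cons (.rf (nat_lit 98) (nat_lit 14242959524133701664)) (.cons (.rf (nat_lit 106) (nat_lit 14242959524133701664)) (.cons (.rf (nat_lit 111) (nat_lit 14242959524133701664)) .nil))))) .nil)))))),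
 (.br (nat_lit 3) (nat_lit 0) (.cons (.rf (nat_lit 99) (nat_lit 14242959524133669920)) (.cons (.rf (nat_lit 99) (nat_lit 14242783602278468609)) (.cons (.ev (nat_lit 79538856468352041365152989184) (nat_lit 1)) (.cons (.br (nat_lit 12) (nat_lit 0) (.cons (.ev (nat_lit 79538856449905578766420214016) (nat_lit 1)) (.cons (.ev (nat_lit 79538856449905578766420213761) (nat_lit 1)) (.cons (.br (nat_lit 13) (nat_lit 0) (.cons (.br (nat_lit 9) (nat_lit 0) (.cons (.ev (nat_lit 20282719093402304995963642576896) (nat_lit 1)) .nil)) (.cons (.br (nat_lit 4) (nat_lit 0) (.cons (.ev (nat_lit 20282719093402304995963642576896) (nat_lit 1)) .nil)) .nil))) .nil)))) .nil))))),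
 (.br (nat_lit 3) (nat_lit 0) (.cons (.rf (nat_lit 112) (nat_lit 14242959524133669920)) (.cons (.rf (nat_lit 112) (nat_lit 11939192324226092033)) (.cons (.rf (nat_lit 113) (nat_lit 14242959524133701664)) (.cons (.rf (nat_lit 113) (nat_lit 11939192324226123777)) (.cons (.br (nat_lit 3) (nat_lit 0) (.cons (.rf (nat_lit 112) (nat_lit 14242959524133669920)) (.cons (.rf (nat_lit 112) (nat_lit 11939192324226092033)) (.cons (.rf (nat_lit 113) (nat_lit 14242959524133701664)) (.cons (.rf (nat_lit 113) (nat_lit 11939192324226123777)) .nil))))) .nil))))))]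

theorem c2 : chkAll C T R L2 (nat_lit 76) = true := by decide +kernel

theorem l2 : (nat_lit 76) + L2.length = (nat_lit 115) := by decide +kernel

/-- part of the certificates -/
def L3 : List Prf := [(.br (nat_lit 12) (nat_lit 0) (.cons (.ev (nat_lit 20282719093383858533364892958976) (nat_lit 1)) .nil)),
 (.br (nat_lit 9) (nat_lit 0) (.cons (.ev (nat_lit 79538856468352041365169832193) (nat_lit 1)) (.cons (.rf (nat_lit 115) (nat_lit 493858305440582043680)) .nil))),
 (.br (nat_lit 4) (nat_lit 0) (.cons (.ev (nat_lit 79538856468352041365169832193) (nat_lit 1)) (.cons (.rf (nat_lit 115) (nat_lit 493858129450074474497)) .nil))),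
 (.br (nat_lit 3) (nat_lit 0) (.cons (.rf (nat_lit 112) (nat_lit 14242959524133669920)) (.cons (.rf (nat_lit 112) (nat_lit 11939192324226092033)) (.cons (.rf (nat_lit 114) (nat_lit 14242959524133669920)) (.cons (.br (nat_lit 12) (nat_lit 0) (.cons (.rf (nat_lit 116) (nat_lit 493858305440582043680)) (.cons (.rf (nat_lit 117) (nat_lit 493858305440582043680)) (.cons (.br (nat_lit 12) (nat_lit 0) (.cons (.rf (nat_lit 116) (nat_lit 493858305440582043680)) (.cons (.rf (nat_lit 117) (nat_lit 493858305440582043680)) .nil))) .nil)))) .nil))))),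
 (.br (nat_lit 12) (nat_lit 0) (.cons (.ev (nat_lit 20282719093402304995963625799681) (nat_lit 1)) .nil)),
 (.br (nat_lit 9) (nat_lit 0) (.cons (.ev (nat_lit 79538856449905578766436990976) (nat_lit 1)) (.cons (.rf (nat_lit 119) (nat_lit 493858305440582043680)) .nil))),
 (.br (nat_lit 4) (nat_lit 0) (.cons (.ev (nat_lit 79538856449905578766436990976) (nat_lit 1)) (.cons (.rf (nat_lit 119) (nat_lit 493858129450074474497)) .nil))),
 (.br (nat_lit 3) (nat_lit 0) (.cons (.rf (nat_lit 112) (nat_lit 14242959524133669920)) (.cons (.rf (nat_lit 112) (nat_lit 11939192324226092033)) (.cons (.rf (nat_lit 114) (nat_lit 14242959524133669920)) (.cons (.br (nat_lit 10) (nat_lit 0) (.cons (.rf (nat_lit 120) (nat_lit 493858305440582043680)) (.cons (.rf (nat_lit 121) (nat_lit 493858305440582043680)) (.cons (.ev (nat_lit 79538856449977637459986546688) (nat_lit 1)) (.cons (.br (nat_lit 12) (nat_lit 0) (.cons (.rf (nat_lit 121) (nat_lit 491554538240674434049)) (.cons (.rf (nat_lit 120) (nat_lit 491554538240674434049))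 (.cons (.ev (nat_lit 79538856449905578766436991233) (nat_lit 1)) .nil)))) .nil))))) .nil))))),
 (.br (nat_lit 2) (nat_lit 0) (.cons (.kr (nat_lit 18446745173221179904) (nat_lit 72339069014769664) (nat_lit 1) (nat_lit 0)) (.cons (.rf (nat_lit 112) (nat_lit 14242959524133701664)) (.cons (.rf (nat_lit 112) (nat_lit 11939192324226123777)) (.cons (.rf (nat_lit 114) (nat_lit 14242959524133701664)) (.cons (.br (nat_lit 3) (nat_lit 0) (.cons (.rf (nat_lit 112) (nat_lit 14242959524133669920)) (.cons (.rf (nat_lit 112) (nat_lit 11939192324226092033)) (.cons (.rf (nat_lit 118) (nat_lit 493858305440582043680)) (.cons (.rf (nat_lit 122) (nat_lit 493858305440582043680)) (.cons (.br (nat_lit 3) (nat_lit 0) (.cons (.rf (nat_lit 112) (nat_lit 14242959524133669920)) (.cons (.rf (nat_lit 112) (nat_lit 11939192324226092033)) (.cons (.rf (nat_lit 118) (nat_lit 493858305440582043680)) (.cons (.rf (nat_lit 122) (nat_lit 493858305440582043680)) .nil))))) .nil)))))) .nil)))))),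
 (.br (nat_lit 2) (nat_lit 0) (.cons (.br (nat_lit 2) (nat_lit 0) (.cons (.kr (nat_lit 1) (nat_lit 65536) (nat_lit 0) (nat_lit 1)) (.cons (.kr (nat_lit 256) (nat_lit 65536) (nat_lit 1) (nat_lit 0)) (.cons (.kr (nat_lit 18446745173221179904) (nat_lit 72339069014769664) (nat_lit 1) (nat_lit 0)) (.cons (.kr (nat_lit 18518801667747479554) (nat_lit 282574488469504) (nat_lit 0) (nat_lit 1)) (.cons (.rf (nat_lit 93) (nat_lit 13730818)) .nil)))))) (.cons (.rf (nat_lit 112) (nat_lit 14242959524133701664)) (.cons (.rf (nat_lit 112) (nat_lit 11939192324226123777)) (.cons (.rf (nat_lit 123) (nat_lit 14242959524133701664)) (.cons (.rf (nat_lit 123) (nat_lit 11939192324226123777)) (.cons (.br (nat_lit 2) (nat_lit 0) (.cons (.rf (nat_lit 93) (nat_lit 13730818)) (.cons (.rf (nat_lit 112) (nat_lit 14242959524133701664)) (.cons (.rf (nat_lit 112) (nat_lit 11939192324226123777)) (.cons (.rf (nat_lit 123) (nat_lit 14242959524133701664)) (.cons (.rf (nat_lit 123) (nat_lit 11939192324226123777)) .nil))))))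 .nil))))))),
 (.br (nat_lit 1) (nat_lit 0) (.cons (.kr (nat_lit 1) (nat_lit 256) (nat_lit 0) (nat_lit 2)) (.cons (.rf (nat_lit 124) (nat_lit 14242959524133701664)) (.cons (.rf (nat_lit 124) (nat_lit 14241867742406871072)) (.cons (.kr (nat_lit 18518801667747479554) (nat_lit 282574488338944) (nat_lit 0) (nat_lit 2)) (.cons (.rf (nat_lit 93) (nat_lit 13731841)) .nil)))))),
 (.br (nat_lit 1) (nat_lit 0) (.cons (.ev (nat_lit 1223148259296567357342211) (nat_lit 2)) (.cons (.ev (nat_lit 79537652264971248674654912513) (nat_lit 1)) (.cons (.br (nat_lit 2) (nat_lit 0) (.cons (.br (nat_lit 13) (nat_lit 0) (.cons (.ev (nat_lit 160314467754740390674886297088) (nat_lit 3)) .nil)) (.cons (.ev (nat_lit 79537652264899192180111835136) (nat_lit 1)) (.cons (.rf (nat_lit 125) (nat_lit 14242959524134027329)) .nil)))) .nil)))),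
 (.br (nat_lit 1) (nat_lit 0) (.cons (.ev (nat_lit 79537652264971248674654912513) (nat_lit 1)) (.cons (.ev (nat_lit 79538856449905578766436925441) (nat_lit 1)) (.cons (.br (nat_lit 2) (nat_lit 0) (.cons (.ev (nat_lit 79537652264899192180111835136) (nat_lit 1)) (.cons (.ev (nat_lit 79538856449977637459969703936) (nat_lit 1)) (.cons (.kr (nat_lit 18518801667747480064) (nat_lit 282574488469504) (nat_lit 1) (nat_lit 0)) .nil)))) .nil)))),
 (.br (nat_lit 12) (nat_lit 0) (.cons (.ev (nat_lit 79537652246524223125968715776) (nat_lit 1)) (.cons (.ev (nat_lit 79537652264971248674654912768) (nat_lit 1)) .nil))),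
 (.br (nat_lit 12) (nat_lit 0) (.cons (.ev (nat_lit 79537652246524223125951873024) (nat_lit 1)) (.cons (.ev (nat_lit 79537652246452166631425638401) (nat_lit 1)) (.cons (.ev (nat_lit 79537652246524223125951873281) (nat_lit 1)) .nil)))),
 (.br (nat_lit 2) (nat_lit 0) (.cons (.rf (nat_lit 125) (nat_lit 14242959524133700672)) (.cons (.rf (nat_lit 129) (nat_lit 493858305440582043680)) (.cons (.rf (nat_lit 125) (nat_lit 14242959524134027329)) .nil)))),
 (.br (nat_lit 1) (nat_lit 0) (.cons (.br (nat_lit 2) (nat_lit 0) (.cons (.kr (nat_lit 72057594037928192) (nat_lit 1099511693312) (nat_lit 1) (nat_lit 0)) (.cons (.ev (nat_lit 1223148331353061883839235) (nat_lit 2)) .nil))) (.cons (.br (nat_lit 13) (nat_lit 0) (.cons (.rf (nat_lit 128) (nat_lit 493858305440582043680)) (.cons (.br (nat_lit 13) (nat_lit 0) (.cons (.rf (nat_lit 128) (nat_lit 493858305440582043680)) (.cons (.ev (nat_lit 79537652246452166631442350336) (nat_lit 1)) .nil))) (.cons (.ev (nat_lit 79537652246452166631442350336)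 (nat_lit 1)) .nil)))) (.cons (.br (nat_lit 13) (nat_lit 0) (.cons (.rf (nat_lit 125) (nat_lit 14242959524134027329)) (.cons (.rf (nat_lit 130) (nat_lit 493858305440582043680)) (.cons (.br (nat_lit 13) (nat_lit 0) (.cons (.rf (nat_lit 125) (nat_lit 14242959524134027329)) (.cons (.rf (nat_lit 130) (nat_lit 493858305440582043680)) .nil))) .nil)))) .nil)))),
 (.br (nat_lit 12) (nat_lit 0) (.cons (.ev (nat_lit 20282719093402304995963625799936) (nat_lit 1)) .nil)),
 (.br (nat_lit 1) (nat_lit 0) (.cons (.rf (nat_lit 132) (nat_lit 493858305440582043680)) (.cons (.ev (nat_lit 79537652246452166631442350336) (nat_lit 1)) (.cons (.kr (nat_lit 18518801667747480064) (nat_lit 282574488469504) (nat_lit 1) (nat_lit 0)) .nil)))),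
 (.br (nat_lit 2) (nat_lit 0) (.cons (.rf (nat_lit 131) (nat_lit 493858305440582043680)) (.cons (.rf (nat_lit 131) (nat_lit 493857213658855213088)) (.cons (.br (nat_lit 13) (nat_lit 0) (.cons (.kr (nat_lit 18518801667747480064) (nat_lit 282574488469504) (nat_lit 1) (nat_lit 0)) (.cons (.rf (nat_lit 133) (nat_lit 493858305440582043680)) (.cons (.rf (nat_lit 133) (nat_lit 493857213658855213088)) (.cons (.br (nat_lit 13) (nat_lit 0) (.cons (.kr (nat_lit 18518801667747480064) (nat_lit 282574488469504) (nat_lit 1) (nat_lit 0)) (.cons (.rf (nat_lit 133) (nat_lit 493858305440582043680)) (.cons (.rf (nat_lit 133) (nat_lit 493857213658855213088)) .nil)))) .nil))))) .nil)))),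
 (.br (nat_lit 3) (nat_lit 0) (.cons (.kr (nat_lit 1) (nat_lit 256) (nat_lit 0) (nat_lit 2)) (.cons (.rf (nat_lit 125) (nat_lit 14242959524133700672)) (.cons (.br (nat_lit 2) (nat_lit 0) (.cons (.rf (nat_lit 126) (nat_lit 14242959524133701664)) (.cons (.rf (nat_lit 126) (nat_lit 14241867742406871072)) (.cons (.rf (nat_lit 127) (nat_lit 14242959524133701664)) (.cons (.br (nat_lit 2) (nat_lit 0) (.cons (.rf (nat_lit 126) (nat_lit 14242959524133701664)) (.cons (.rf (nat_lit 126) (nat_lit 14241867742406871072)) (.cons (.rf (nat_lit 127) (nat_lit 14242959524133701664)) .nil)))) .nil))))) (.cons (.br (nat_lit 2) (nat_lit 0) (.cons (.rf (nat_lit 131) (nat_lit 493858305440582043680)) (.cons (.rf (nat_lit 131) (nat_lit 493857213658855213088)) (.cons (.rf (nat_lit 134) (nat_lit 493858305440582043680)) (.cons (.br (nat_lit 2) (nat_lit 0) (.cons (.rf (nat_lit 131) (nat_lit 493858305440582043680)) (.cons (.rf (nat_lit 131) (nat_lit 493857213658855213088)) (.cons (.rf (nat_lit 134) (nat_lit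 493858305440582043680)) .nil)))) .nil))))) .nil))))),
 (.br (nat_lit 13) (nat_lit 0) (.cons (.br (nat_lit 12) (nat_lit 0) (.cons (.ev (nat_lit 40565439409860925210275159737095) (nat_lit 3)) .nil)) (.cons (.br (nat_lit 10) (nat_lit 0) (.cons (.ev (nat_lit 40565439409860925210275159737095) (nat_lit 3)) .nil)) .nil))),
 (.br (nat_lit 1) (nat_lit 0) (.cons (.ev (nat_lit 159077712899883218425446859520) (nat_lit 2)) (.cons (.rf (nat_lit 136) (nat_lit 493858305440582043680)) .nil))),
 (.br (nat_lit 2) (nat_lit 0) (.cons (.br (nat_lit 13) (nat_lit 0) (.cons (.rf (nat_lit 136) (nat_lit 493858305440582043680)) (.cons (.rf (nat_lit 137) (nat_lit 493858305440582043680)) (.cons (.br (nat_lit 13) (nat_lit 0) (.cons (.rf (nat_lit 136) (nat_lit 493858305440582043680)) (.cons (.rf (nat_lit 137) (nat_lit 493858305440582043680)) .nil))) .nil)))) (.cons (.ev (nat_lit 79537652264899192180111835136) (nat_lit 1)) (.cons (.br (nat_lit 1) (nat_lit 0) (.cons (.br (nat_lit 13) (nat_lit 0) (.cons (.br (nat_lit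 12) (nat_lit 0) (.cons (.ev (nat_lit 40723275551239999786513229678080) (nat_lit 3)) .nil)) (.cons (.br (nat_lit 10) (nat_lit 0) (.cons (.ev (nat_lit 40723275551239999786513229678080) (nat_lit 3)) .nil)) .nil))) (.cons (.ev (nat_lit 79537652246524223125968716033) (nat_lit 1)) (.cons (.rf (nat_lit 125) (nat_lit 14242959524134027329)) .nil)))) .nil)))),
 (.br (nat_lit 1) (nat_lit 0) (.cons (.ev (nat_lit 7263018457968149939619332) (nat_lit 3)) (.cons (.br (nat_lit 9) (nat_lit 0) (.cons (.ev (nat_lit 20282719093383930592058442514688) (nat_lit 1)) .nil)) (.cons (.rf (nat_lit 125) (nat_lit 14242959524134027329)) .nil)))),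
 (.br (nat_lit 2) (nat_lit 0) (.cons (.rf (nat_lit 138) (nat_lit 493858305440582043680)) (.cons (.br (nat_lit 1) (nat_lit 0) (.cons (.kr (nat_lit 18446744073709551872) (nat_lit 281474976776192) (nat_lit 1) (nat_lit 0)) (.cons (.kr (nat_lit 18518801667747480064) (nat_lit 282574488469504) (nat_lit 1) (nat_lit 0)) (.cons (.rf (nat_lit 129) (nat_lit 491551438821509924896)) .nil)))) (.cons (.br (nat_lit 13) (nat_lit 0) (.cons (.rf (nat_lit 125) (nat_lit 14242959524134027329)) (.cons (.br (nat_lit 1) (nat_lit 0) (.cons (.br (nat_lit 12) (nat_lit 0) (.cons (.ev (nat_lit 79538856449905578766436925696) (nat_lit 1)) .nil)) (.cons (.rf (nat_lit 132) (nat_lit 491554714231182034976)) (.cons (.rf (nat_lit 125) (nat_lit 14242959524134027329)) .nil)))) (.cons (.rf (nat_lit 139) (nat_lit 493858305440582043680)) (.cons (.br (nat_lit 13) (nat_lit 0) (.cons (.rf (nat_lit 125) (nat_lit 14242959524134027329)) (.cons (.ev (nat_lit 79537652264899192180111835136) (nat_lit 1)) (.cons (.rf (nat_lit 139)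 (nat_lit 493858305440582043680)) .nil)))) .nil))))) .nil)))),
 (.br (nat_lit 2) (nat_lit 0) (.cons (.ev (nat_lit 79537652264899192180111835136) (nat_lit 1)) (.cons (.rf (nat_lit 140) (nat_lit 493858305440582043680)) (.cons (.br (nat_lit 1) (nat_lit 0) (.cons (.ev (nat_lit 79537652246524223125968716033) (nat_lit 1)) (.cons (.br (nat_lit 10) (nat_lit 0) (.cons (.ev (nat_lit 79538856449977637459986546688) (nat_lit 1)) (.cons (.ev (nat_lit 79538856449905578766436925696) (nat_lit 1)) .nil))) (.cons (.kr (nat_lit 18518801667747480064) (nat_lit 282574488469504) (nat_lit 1) (nat_lit 0)) .nil)))) .nil)))),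
 (.br (nat_lit 3) (nat_lit 0) (.cons (.kr (nat_lit 1) (nat_lit 256) (nat_lit 0) (nat_lit 2)) (.cons (.rf (nat_lit 125) (nat_lit 14242959524133700672)) (.cons (.rf (nat_lit 135) (nat_lit 14242959524133701664)) (.cons (.br (nat_lit 2) (nat_lit 0) (.cons (.rf (nat_lit 138) (nat_lit 493858305440582043680)) (.cons (.rf (nat_lit 140) (nat_lit 493858305440582043680)) (.cons (.rf (nat_lit 141) (nat_lit 493858305440582043680)) (.cons (.br (nat_lit 2) (nat_lit 0) (.cons (.rf (nat_lit 138) (nat_lit 493858305440582043680)) (.cons (.rf (nat_lit 140) (nat_lit 493858305440582043680)) (.cons (.rf (nat_lit 141) (nat_lit 493858305440582043680)) .nil)))) .nil))))) .nil))))),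
 (.br (nat_lit 3) (nat_lit 0) (.cons (.kr (nat_lit 1) (nat_lit 256) (nat_lit 0) (nat_lit 2)) (.cons (.rf (nat_lit 125) (nat_lit 14242959524133700672)) (.cons (.rf (nat_lit 135) (nat_lit 14242959524133701664)) (.cons (.rf (nat_lit 142) (nat_lit 14242959524133701664)) (.cons (.br (nat_lit 3) (nat_lit 0) (.cons (.kr (nat_lit 1) (nat_lit 256) (nat_lit 0) (nat_lit 2)) (.cons (.rf (nat_lit 125) (nat_lit 14242959524133700672)) (.cons (.rf (nat_lit 135) (nat_lit 14242959524133701664)) (.cons (.rf (nat_lit 142) (nat_lit 14242959524133701664)) .nil))))) .nil)))))),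
 (.br (nat_lit 3) (nat_lit 0) (.cons (.kr (nat_lit 1) (nat_lit 256) (nat_lit 0) (nat_lit 2)) (.cons (.rf (nat_lit 125) (nat_lit 14242959524133700672)) (.cons (.rf (nat_lit 143) (nat_lit 14242959524133701664)) (.cons (.rf (nat_lit 143) (nat_lit 14241867742406871072)) (.cons (.br (nat_lit 3) (nat_lit 0) (.cons (.kr (nat_lit 1) (nat_lit 256) (nat_lit 0) (nat_lit 2)) (.cons (.rf (nat_lit 125) (nat_lit 14242959524133700672)) (.cons (.rf (nat_lit 143) (nat_lit 14242959524133701664)) (.cons (.rf (nat_lit 143) (nat_lit 14241867742406871072)) .nil))))) .nil)))))),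
 (.br (nat_lit 3) (nat_lit 0) (.cons (.kr (nat_lit 1) (nat_lit 256) (nat_lit 0) (nat_lit 2)) (.cons (.rf (nat_lit 125) (nat_lit 14242959524133700672)) (.cons (.rf (nat_lit 143) (nat_lit 14242959524133701664)) (.cons (.rf (nat_lit 143) (nat_lit 14241867742406871072)) (.cons (.rf (nat_lit 144) (nat_lit 14242959524133701664)) (.cons (.br (nat_lit 3) (nat_lit 0) (.cons (.kr (nat_lit 1) (nat_lit 256) (nat_lit 0) (nat_lit 2)) (.cons (.rf (nat_lit 125) (nat_lit 14242959524133700672)) (.cons (.rf (nat_lit 143) (nat_lit 14242959524133701664)) (.cons (.rf (nat_lit 143) (nat_lit 14241867742406871072)) (.cons (.rf (nat_lit 144) (nat_lit 14242959524133701664)) .nil)))))) .nil)))))))]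

theorem c3 : chkAll C T R L3 (nat_lit 115) = true := by decide +kernel

theorem l3 : (nat_lit 115) + L3.length = (nat_lit 146) := by decide +kernel

/-- part of the certificates -/
def L4 : List Prf := [(.br (nat_lit 3) (nat_lit 0) (.cons (.ev (nat_lit 79538856468352041365169832193) (nat_lit 1)) (.cons (.br (nat_lit 13) (nat_lit 0) (.cons (.ev (nat_lit 79538856449905578766436990976) (nat_lit 1)) .nil)) .nil))),
 (.br (nat_lit 3) (nat_lit 0) (.cons (.rf (nat_lit 146) (nat_lit 14242959524133701664)) (.cons (.rf (nat_lit 146) (nat_lit 11939368246081324096)) (.cons (.br (nat_lit 3) (nat_lit 0) (.cons (.rf (nat_lit 146) (nat_lit 14242959524133701664)) (.cons (.rf (nat_lit 146) (nat_lit 11939368246081324096)) .nil))) .nil)))),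
 (.br (nat_lit 3) (nat_lit 0) (.cons (.ev (nat_lit 79538856468352041365169832193) (nat_lit 1)) (.cons (.br (nat_lit 13) (nat_lit 0) (.cons (.br (nat_lit 13) (nat_lit 0) .nil) .nil)) .nil))),
 (.br (nat_lit 3) (nat_lit 0) (.cons (.rf (nat_lit 147) (nat_lit 14242959524133701664)) (.cons (.rf (nat_lit 148) (nat_lit 14242959524133701664)) (.cons (.br (nat_lit 3) (nat_lit 0) (.cons (.rf (nat_lit 147) (nat_lit 14242959524133701664)) (.cons (.rf (nat_lit 148) (nat_lit 14242959524133701664)) .nil))) .nil)))),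
 (.br (nat_lit 2) (nat_lit 0) (.cons (.rf (nat_lit 125) (nat_lit 14242959524133700672)) (.cons (.rf (nat_lit 145) (nat_lit 14242959524133700672)) (.cons (.kr (nat_lit 256) (nat_lit 65536) (nat_lit 1) (nat_lit 0)) (.cons (.br (nat_lit 3) (nat_lit 0) (.cons (.rf (nat_lit 147) (nat_lit 14242959524133701664)) (.cons (.rf (nat_lit 149) (nat_lit 14242959524133701664)) (.cons (.rf (nat_lit 149) (nat_lit 11939368246081324096)) (.cons (.br (nat_lit 3) (nat_lit 0) (.cons (.rf (nat_lit 147) (nat_lit 14242959524133701664)) (.cons (.rf (nat_lit 149) (nat_lit 14242959524133701664)) (.cons (.rf (nat_lit 149) (nat_lit 11939368246081324096)) .nil)))) .nil))))) (.cons (.rf (nat_lit 145) (nat_lit 11930463405532938274)) .nil)))))),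
 (.br (nat_lit 3) (nat_lit 0) (.cons (.br (nat_lit 12) (nat_lit 0) (.cons (.ev (nat_lit 284747263687730681188126285759490) (nat_lit 4)) .nil)) (.cons (.ev (nat_lit 79537652246452166631442350336) (nat_lit 1)) .nil))),
 (.br (nat_lit 13) (nat_lit 0) (.cons (.rf (nat_lit 151) (nat_lit 493858305440582043680)) (.cons (.rf (nat_lit 151) (nat_lit 493857213658855213088)) (.cons (.br (nat_lit 3) (nat_lit 0) (.cons (.rf (nat_lit 151) (nat_lit 115700048597824733218)) (.cons (.rf (nat_lit 151) (nat_lit 115698958948482056226)) .nil))) .nil)))),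
 (.br (nat_lit 13) (nat_lit 0) (.cons (.rf (nat_lit 152) (nat_lit 493858305440582043680)) (.cons (.br (nat_lit 3) (nat_lit 0) (.cons (.ev (nat_lit 284747263687730681188126285759490) (nat_lit 4)) .nil)) .nil))),
 (.br (nat_lit 3) (nat_lit 0) (.cons (.rf (nat_lit 153) (nat_lit 493858305440582043680)) (.cons (.br (nat_lit 3) (nat_lit 0) (.cons (.rf (nat_lit 153) (nat_lit 493858305440582043680)) (.cons (.ev (nat_lit 79537652246452166631442350336) (nat_lit 1)) .nil))) (.cons (.rf (nat_lit 152) (nat_lit 493858305440582043680)) .nil)))),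
 (.br (nat_lit 13) (nat_lit 0) (.cons (.rf (nat_lit 152) (nat_lit 493858305440582043680)) (.cons (.rf (nat_lit 154) (nat_lit 493858305440582043680)) (.cons (.rf (nat_lit 154) (nat_lit 493857213658855213088)) (.cons (.br (nat_lit 3) (nat_lit 0) (.cons (.rf (nat_lit 154) (nat_lit 115700048597824733218)) (.cons (.rf (nat_lit 154) (nat_lit 115698958948482056226)) (.cons (.rf (nat_lit 152) (nat_lit 493858305440582043680)) .nil)))) .nil))))),
 (.br (nat_lit 3) (nat_lit 0) (.cons (.ev (nat_lit 1223148331353061900419586) (nat_lit 2)) (.cons (.br (nat_lit 10) (nat_lit 0) (.cons (.ev (nat_lit 284747263687731257640082496160770) (nat_lit 4)) .nil)) .nil))),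
 (.br (nat_lit 13) (nat_lit 0) (.cons (.rf (nat_lit 156) (nat_lit 493858305440582043680)) (.cons (.br (nat_lit 3) (nat_lit 0) (.cons (.rf (nat_lit 155) (nat_lit 493858305440582043680)) (.cons (.rf (nat_lit 156) (nat_lit 115698958948482056226)) .nil))) (.cons (.rf (nat_lit 155) (nat_lit 115700048597824733218)) .nil)))),
 (.br (nat_lit 13) (nat_lit 0) (.cons (.rf (nat_lit 157) (nat_lit 493858305440582043680)) (.cons (.br (nat_lit 13) (nat_lit 0) (.cons (.rf (nat_lit 157) (nat_lit 493858305440582043680)) (.cons (.rf (nat_lit 155) (nat_lit 115700048597824733218)) .nil))) (.cons (.rf (nat_lit 155) (nat_lit 115700048597824733218)) .nil)))),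
 (.br (nat_lit 13) (nat_lit 0) (.cons (.rf (nat_lit 157) (nat_lit 493858305440582043680)) (.cons (.rf (nat_lit 158) (nat_lit 493858305440582043680)) (.cons (.br (nat_lit 3) (nat_lit 0) (.cons (.rf (nat_lit 155) (nat_lit 493858305440582043680)) (.cons (.rf (nat_lit 158) (nat_lit 115698958948482056226)) (.cons (.rf (nat_lit 157) (nat_lit 493858305440582043680)) .nil)))) (.cons (.rf (nat_lit 155) (nat_lit 115700048597824733218)) .nil))))),
 (.br (nat_lit 3) (nat_lit 0) (.cons (.rf (nat_lit 155) (nat_lit 493858305440582043680)) (.cons (.rf (nat_lit 159) (nat_lit 493858305440582043680)) (.cons (.rf (nat_lit 159) (nat_lit 493857213658855213088)) (.cons (.br (nat_lit 3) (nat_lit 0) (.cons (.rf (nat_lit 155) (nat_lit 493858305440582043680)) (.cons (.rf (nat_lit 159) (nat_lit 493858305440582043680)) (.cons (.rf (nat_lit 159) (nat_lit 493857213658855213088)) .nil)))) .nil))))),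
 (.br (nat_lit 2) (nat_lit 0) (.cons (.rf (nat_lit 145) (nat_lit 13052847003249542146)) (.cons (.rf (nat_lit 145) (nat_lit 10740350884648452130)) (.cons (.rf (nat_lit 145) (nat_lit 9587430446234730530)) (.cons (.br (nat_lit 0) (nat_lit 0) (.cons (.rf (nat_lit 150) (nat_lit 3829471634682937378)) (.cons (.rf (nat_lit 150) (nat_lit 3828381985340260386)) (.cons (.rf (nat_lit 145) (nat_lit 3828381985340261378)) (.cons (.kr (nat_lit 72339069014638594) (nat_lit 1103806726144) (nat_lit 0) (nat_lit 1)) (.cons (.br (nat_lit 13) (nat_lit 0) (.cons (.rf (nat_lit 155) (nat_lit 455774704772278814752)) (.cons (.rf (nat_lit 159) (nat_lit 455774704772278814752)) (.cons (.rf (nat_lit 159) (nat_lit 455773612990551984160)) (.cons (.rf (nat_lit 160) (nat_lit 455774704772278814752)) (.cons (.br (nat_lit 13) (nat_lit 0) (.cons (.rf (nat_lit 155) (nat_lit 455774704772278814752)) (.cons (.rf (nat_lit 159) (nat_lit 455774704772278814752)) (.cons (.rf (nat_lit 159) (nat_lit 455773612990551984160)) (.cons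 (.rf (nat_lit 160) (nat_lit 455774704772278814752)) .nil))))) .nil)))))) .nil)))))) (.cons (.rf (nat_lit 93) (nat_lit 14025730)) .nil)))))),
 (.br (nat_lit 2) (nat_lit 0) (.cons (.rf (nat_lit 125) (nat_lit 14242959524133700672)) (.cons (.rf (nat_lit 145) (nat_lit 14242959524133700672)) (.cons (.rf (nat_lit 150) (nat_lit 14242959524133701664)) (.cons (.rf (nat_lit 150) (nat_lit 14241867742406871072)) (.cons (.rf (nat_lit 161) (nat_lit 3615626518682009634)) (.cons (.rf (nat_lit 161) (nat_lit 15433072045018187808)) .nil))))))),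
 (.br (nat_lit 2) (nat_lit 0) (.cons (.rf (nat_lit 125) (nat_lit 11930463405532611586)) (.cons (.kr (nat_lit 282574488338944) (nat_lit 18518801667747610624) (nat_lit 1) (nat_lit 0)) (.cons (.rf (nat_lit 161) (nat_lit 3615626518682009665)) (.cons (.ev (nat_lit 79537652264899192180111835136) (nat_lit 1)) (.cons (.rf (nat_lit 145) (nat_lit 11930463405532938274)) .nil)))))),
 (.br (nat_lit 13) (nat_lit 0) (.cons (.br (nat_lit 3) (nat_lit 0) (.cons (.ev (nat_lit 20520716692714075568814923186176) (nat_lit 2)) .nil)) (.cons (.ev (nat_lit 79537652246524223125951873024) (nat_lit 1)) .nil))),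
 (.br (nat_lit 3) (nat_lit 0) (.cons (.br (nat_lit 12) (nat_lit 0) (.cons (.ev (nat_lit 20520716692713931455825870716930) (nat_lit 2)) .nil)) (.cons (.rf (nat_lit 164) (nat_lit 121458007409376526370)) .nil))),
 (.br (nat_lit 13) (nat_lit 0) (.cons (.rf (nat_lit 164) (nat_lit 493858305440582043680)) (.cons (.rf (nat_lit 165) (nat_lit 493858305440582043680)) (.cons (.br (nat_lit 13) (nat_lit 0) (.cons (.ev (nat_lit 79537652246524223125951873024) (nat_lit 1)) (.cons (.rf (nat_lit 165) (nat_lit 493858305440582043680)) .nil))) .nil)))),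
 (.br (nat_lit 13) (nat_lit 0) (.cons (.rf (nat_lit 166) (nat_lit 493858305440582043680)) (.cons (.br (nat_lit 13) (nat_lit 0) (.cons (.rf (nat_lit 166) (nat_lit 493858305440582043680)) (.cons (.ev (nat_lit 79537652246524223125951873024) (nat_lit 1)) .nil))) (.cons (.ev (nat_lit 79537652246524223125951873024) (nat_lit 1)) .nil)))),
 (.br (nat_lit 3) (nat_lit 0) (.cons (.br (nat_lit 3) (nat_lit 0) (.cons (.ev (nat_lit 79537652246524223125951873024) (nat_lit 1)) (.cons (.rf (nat_lit 166) (nat_lit 493858305440582043680)) .nil))) (.cons (.rf (nat_lit 167) (nat_lit 121458007409376526370)) (.cons (.rf (nat_lit 166) (nat_lit 493858305440582043680)) .nil)))),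
 (.br (nat_lit 13) (nat_lit 0) (.cons (.rf (nat_lit 166) (nat_lit 493858305440582043680)) (.cons (.rf (nat_lit 167) (nat_lit 493858305440582043680)) (.cons (.rf (nat_lit 168) (nat_lit 493858305440582043680)) (.cons (.br (nat_lit 13) (nat_lit 0) (.cons (.rf (nat_lit 166) (nat_lit 493858305440582043680)) (.cons (.ev (nat_lit 79537652246524223125951873024) (nat_lit 1)) (.cons (.rf (nat_lit 168) (nat_lit 493858305440582043680)) .nil)))) .nil))))),
 (.br (nat_lit 3) (nat_lit 0) (.cons (.rf (nat_lit 169) (nat_lit 493858305440582043680)) (.cons (.ev (nat_lit 79537652246524223125951873024) (nat_lit 1)) (.cons (.br (nat_lit 13) (nat_lit 0) (.cons (.br (nat_lit 12) (nat_lit 0) (.cons (.ev (nat_lit 20520716692713931455825870585856) (nat_lit 2)) .nil)) (.cons (.br (nat_lit 4) (nat_lit 0) (.cons (.ev (nat_lit 20520716692713931455825870585856) (nat_lit 2)) .nil)) .nil))) .nil)))),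
 (.br (nat_lit 3) (nat_lit 0) (.cons (.rf (nat_lit 169) (nat_lit 493858305440582043680)) (.cons (.rf (nat_lit 170) (nat_lit 493858305440582043680)) (.cons (.ev (nat_lit 79537652246524223125951873024) (nat_lit 1)) (.cons (.br (nat_lit 3) (nat_lit 0) (.cons (.rf (nat_lit 169) (nat_lit 493858305440582043680)) (.cons (.rf (nat_lit 170) (nat_lit 493858305440582043680)) (.cons (.ev (nat_lit 79537652246524223125951873024) (nat_lit 1)) .nil)))) .nil))))),
 (.br (nat_lit 3) (nat_lit 0) (.cons (.rf (nat_lit 169) (nat_lit 493858305440582043680)) (.cons (.ev (nat_lit 79537652246524223125951873024) (nat_lit 1)) (.cons (.br (nat_lit 13) (nat_lit 0) (.cons (.br (nat_lit 9) (nat_lit 0) (.cons (.ev (nat_lit 20520716692714075568814923317250) (nat_lit 2)) .nil)) (.cons (.br (nat_lit 4) (nat_lit 0) (.cons (.ev (nat_lit 20520716692714075568814923317250) (nat_lit 2)) .nil)) .nil))) .nil)))),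
 (.br (nat_lit 3) (nat_lit 0) (.cons (.rf (nat_lit 169) (nat_lit 493858305440582043680)) (.cons (.rf (nat_lit 171) (nat_lit 493858305440582043680)) (.cons (.rf (nat_lit 172) (nat_lit 493858305440582043680)) (.cons (.br (nat_lit 3) (nat_lit 0) (.cons (.rf (nat_lit 169) (nat_lit 493858305440582043680)) (.cons (.rf (nat_lit 171) (nat_lit 493858305440582043680)) (.cons (.rf (nat_lit 172) (nat_lit 493858305440582043680)) .nil)))) .nil))))),
 (.br (nat_lit 3) (nat_lit 0) (.cons (.rf (nat_lit 169) (nat_lit 493858305440582043680)) (.cons (.ev (nat_lit 79537652246524223125951873024) (nat_lit 1)) (.cons (.rf (nat_lit 173) (nat_lit 493858305440582043680)) (.cons (.br (nat_lit 3) (nat_lit 0) (.cons (.rf (nat_lit 169) (nat_lit 493858305440582043680)) (.cons (.ev (nat_lit 79537652246524223125951873024) (nat_lit 1)) (.cons (.rf (nat_lit 173) (nat_lit 493858305440582043680)) .nil)))) .nil))))),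
 (.br (nat_lit 2) (nat_lit 0) (.cons (.rf (nat_lit 125) (nat_lit 14242959524133700672)) (.cons (.kr (nat_lit 1099511628032) (nat_lit 72057594037993472) (nat_lit 1) (nat_lit 0)) (.cons (.rf (nat_lit 161) (nat_lit 3615626518682009665)) (.cons (.kr (nat_lit 18446745173221179904) (nat_lit 72339069014769664) (nat_lit 1) (nat_lit 0)) (.cons (.br (nat_lit 3) (nat_lit 0) (.cons (.rf (nat_lit 169) (nat_lit 493858305440582043680)) (.cons (.rf (nat_lit 171) (nat_lit 493858305440582043680)) (.cons (.rf (nat_lit 173) (nat_lit 493858305440582043680)) (.cons (.rf (nat_lit 174) (nat_lit 493858305440582043680)) (.cons (.br (nat_lit 3) (nat_lit 0) (.cons (.rf (nat_lit 169) (nat_lit 493858305440582043680)) (.cons (.rf (nat_lit 171) (nat_lit 493858305440582043680)) (.cons (.rf (nat_lit 173) (nat_lit 493858305440582043680)) (.cons (.rf (nat_lit 174) (nat_lit 493858305440582043680)) .nil))))) .nil)))))) .nil)))))),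
 (.br (nat_lit 2) (nat_lit 0) (.cons (.rf (nat_lit 125) (nat_lit 14242959524133700672)) (.cons (.rf (nat_lit 145) (nat_lit 14242959524133700672)) (.cons (.rf (nat_lit 163) (nat_lit 14242959524133701664)) (.cons (.rf (nat_lit 175) (nat_lit 14242959524133701664)) (.cons (.rf (nat_lit 163) (nat_lit 10777542967118891040)) (.cons (.br (nat_lit 2) (nat_lit 0) (.cons (.rf (nat_lit 93) (nat_lit 13730818)) (.cons (.rf (nat_lit 145) (nat_lit 14242959524133700672)) (.cons (.rf (nat_lit 145) (nat_lit 11930463405532938274)) (.cons (.rf (nat_lit 175) (nat_lit 14242959524133701664)) (.cons (.rf (nat_lit 145) (nat_lit 5018494506224746530)) .nil)))))) .nil))))))),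
 (.br (nat_lit 2) (nat_lit 0) (.cons (.rf (nat_lit 125) (nat_lit 14242959524133700672)) (.cons (.rf (nat_lit 145) (nat_lit 14242959524133700672)) (.cons (.rf (nat_lit 145) (nat_lit 11930463405532938305)) (.cons (.rf (nat_lit 176) (nat_lit 14241867742406870080)) (.cons (.kr (nat_lit 18446745173221179904) (nat_lit 72339069014769664) (nat_lit 1) (nat_lit 0)) .nil))))))]

theorem c4 : chkAll C T R L4 (nat_lit 146) = true := by decide +kernel

theorem l4 : (nat_lit 146) + L4.length = (nat_lit 178) := by decide +kernel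

/-- part of the certificates -/
def L5 : List Prf := [(.br (nat_lit 1) (nat_lit 0) (.cons (.rf (nat_lit 125) (nat_lit 14242959524133701664)) (.cons (.rf (nat_lit 145) (nat_lit 14242959524133701664)) (.cons (.rf (nat_lit 162) (nat_lit 14242959524133701664)) (.cons (.rf (nat_lit 176) (nat_lit 14242959524133701664)) (.cons (.br (nat_lit 2) (nat_lit 0) (.cons (.rf (nat_lit 125) (nat_lit 14242959524133700672)) (.cons (.rf (nat_lit 145) (nat_lit 14242959524133700672)) (.cons (.rf (nat_lit 145) (nat_lit 11930463405532938305)) (.cons (.rf (nat_lit 177) (nat_lit 493858305440582043680)) (.cons (.rf (nat_lit 177) (nat_lit 122619656766483761153)) (.cons (.rf (nat_lit 125) (nat_lit 11930463405532938305)) .nil))))))) .nil)))))),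
 (.br (nat_lit 1) (nat_lit 0) (.cons (.kr (nat_lit 18518801667747479554) (nat_lit 282574488338944) (nat_lit 0) (nat_lit 2)) (.cons (.rf (nat_lit 145) (nat_lit 14242959524133701664)) (.cons (.rf (nat_lit 178) (nat_lit 14242959524133701664)) (.cons (.rf (nat_lit 178) (nat_lit 14241867742406871072)) (.cons (.br (nat_lit 2) (nat_lit 0) (.cons (.rf (nat_lit 125) (nat_lit 14242959524133700672)) (.cons (.rf (nat_lit 145) (nat_lit 14242959524133700672)) (.cons (.rf (nat_lit 178) (nat_lit 14242959524133700672)) (.cons (.rf (nat_lit 178) (nat_lit 14241867742406870080)) (.cons (.rf (nat_lit 145) (nat_lit 5018494506224746561)) (.cons (.rf (nat_lit 125) (nat_lit 5018494506224746561)) .nil))))))) .nil)))))),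
 (.br (nat_lit 1) (nat_lit 0) (.cons (.rf (nat_lit 125) (nat_lit 14242959524133701664)) (.cons (.rf (nat_lit 145) (nat_lit 14242959524133701664)) (.cons (.rf (nat_lit 178) (nat_lit 14242959524133701664)) (.cons (.rf (nat_lit 178) (nat_lit 14241867742406871072)) (.cons (.rf (nat_lit 179) (nat_lit 14242959524133701664)) (.cons (.br (nat_lit 1) (nat_lit 0) (.cons (.rf (nat_lit 93) (nat_lit 13731841)) (.cons (.rf (nat_lit 145) (nat_lit 14242959524133701664)) (.cons (.rf (nat_lit 178) (nat_lit 14242959524133701664)) (.cons (.rf (nat_lit 178) (nat_lit 14241867742406871072)) (.cons (.rf (nat_lit 179) (nat_lit 14242959524133701664)) .nil)))))) .nil))))))),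
 (.br (nat_lit 3) (nat_lit 0) (.cons (.ev (nat_lit 1223148259296567340630531) (nat_lit 2)) (.cons (.ev (nat_lit 79537652264899192180111835136) (nat_lit 1)) (.cons (.br (nat_lit 3) (nat_lit 0) (.cons (.ev (nat_lit 1223148259296567340630531) (nat_lit 2)) (.cons (.ev (nat_lit 79537652264899192180111835136) (nat_lit 1)) .nil))) .nil)))),
 (.br (nat_lit 1) (nat_lit 0) (.cons (.rf (nat_lit 180) (nat_lit 14242959524133669920)) (.cons (.rf (nat_lit 181) (nat_lit 14242959524133701664)) (.cons (.ev (nat_lit 79537652264971248674638200833) (nat_lit 1)) (.cons (.br (nat_lit 1) (nat_lit 0) (.cons (.rf (nat_lit 180) (nat_lit 14242959524133669920)) (.cons (.rf (nat_lit 181) (nat_lit 14242959524133701664)) (.cons (.ev (nat_lit 79537652264971248674638200833) (nat_lit 1)) .nil)))) .nil))))),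
 (.br (nat_lit 1) (nat_lit 0) (.cons (.rf (nat_lit 180) (nat_lit 14242959524133669920)) (.cons (.ev (nat_lit 79537652264971248674638200833) (nat_lit 1)) (.cons (.ev (nat_lit 79538856468424100058702610433) (nat_lit 1)) (.cons (.br (nat_lit 1) (nat_lit 0) (.cons (.rf (nat_lit 180) (nat_lit 14242959524133669920)) (.cons (.ev (nat_lit 79537652264971248674638200833) (nat_lit 1)) (.cons (.ev (nat_lit 79538856449905578766420213761) (nat_lit 1)) .nil)))) .nil))))),
 (.br (nat_lit 3) (nat_lit 0) (.cons (.kr (nat_lit 72057594037928192) (nat_lit 1099528404992) (nat_lit 1) (nat_lit 0)) (.cons (.br (nat_lit 13) (nat_lit 0) (.cons (.br (nat_lit 12) (nat_lit 0) (.cons (.ev (nat_lit 203937004169632289644882485317122) (nat_lit 4)) .nil)) (.cons (.br (nat_lit 1) (nat_lit 0) (.cons (.ev (nat_lit 203937004169632289644882485317122) (nat_lit 4)) .nil)) .nil))) .nil))),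
 (.br (nat_lit 3) (nat_lit 0) (.cons (.rf (nat_lit 180) (nat_lit 14242959524133669920)) (.cons (.rf (nat_lit 184) (nat_lit 493858305440582043680)) (.cons (.br (nat_lit 3) (nat_lit 0) (.cons (.ev (nat_lit 1223148331353061917262595) (nat_lit 2)) (.cons (.rf (nat_lit 184) (nat_lit 493858305440582043680)) .nil))) .nil)))),
 (.br (nat_lit 1) (nat_lit 0) (.cons (.rf (nat_lit 180) (nat_lit 14242959524133669920)) (.cons (.rf (nat_lit 185) (nat_lit 493858305440582043680)) (.cons (.br (nat_lit 3) (nat_lit 0) (.cons (.br (nat_lit 3) (nat_lit 0) (.cons (.ev (nat_lit 79537652246452166631425638656) (nat_lit 1)) (.cons (.ev (nat_lit 1223148331353061900550146) (nat_lit 2)) .nil))) (.cons (.ev (nat_lit 79537652246452166631425638656) (nat_lit 1)) (.cons (.br (nat_lit 3) (nat_lit 0) (.cons (.ev (nat_lit 1223148331353061900550146) (nat_lit 2)) (.cons (.ev (nat_lit 79537652246452166631425638656) (nat_lit 1)) .nil))) .nil)))) .nil)))),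
 (.br (nat_lit 1) (nat_lit 0) (.cons (.rf (nat_lit 180) (nat_lit 14242959524133669920)) (.cons (.rf (nat_lit 185) (nat_lit 493858305440582043680)) (.cons (.rf (nat_lit 186) (nat_lit 493858305440582043680)) (.cons (.br (nat_lit 1) (nat_lit 0) (.cons (.rf (nat_lit 180) (nat_lit 14242959524133669920)) (.cons (.rf (nat_lit 185) (nat_lit 493858305440582043680)) (.cons (.rf (nat_lit 186) (nat_lit 493858305440582043680)) .nil)))) .nil))))),
 (.br (nat_lit 3) (nat_lit 0) (.cons (.rf (nat_lit 180) (nat_lit 14242959524133669920)) (.cons (.rf (nat_lit 187) (nat_lit 493858305440582043680)) (.cons (.rf (nat_lit 187) (nat_lit 493857213658855213088)) (.cons (.br (nat_lit 3) (nat_lit 0) (.cons (.rf (nat_lit 180) (nat_lit 14242959524133669920)) (.cons (.rf (nat_lit 187) (nat_lit 493858305440582043680)) (.cons (.rf (nat_lit 187) (nat_lit 493857213658855213088)) .nil)))) .nil))))),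
 (.br (nat_lit 2) (nat_lit 0) (.cons (.rf (nat_lit 180) (nat_lit 14242959524133701664)) (.cons (.rf (nat_lit 180) (nat_lit 14242959524133637184)) (.cons (.br (nat_lit 3) (nat_lit 0) (.cons (.rf (nat_lit 180) (nat_lit 14242959524133669920)) (.cons (.rf (nat_lit 182) (nat_lit 14242959524133701664)) (.cons (.rf (nat_lit 182) (nat_lit 14241867742406871072)) (.cons (.rf (nat_lit 183) (nat_lit 14242959524133701664)) (.cons (.br (nat_lit 3) (nat_lit 0) (.cons (.rf (nat_lit 180) (nat_lit 14242959524133669920)) (.cons (.rf (nat_lit 182) (nat_lit 14242959524133701664)) (.cons (.rf (nat_lit 182) (nat_lit 14241867742406871072)) (.cons (.rf (nat_lit 183) (nat_lit 14242959524133701664)) .nil))))) .nil)))))) (.cons (.br (nat_lit 3) (nat_lit 0) (.cons (.rf (nat_lit 180) (nat_lit 14242959524133669920)) (.cons (.rf (nat_lit 187) (nat_lit 493858305440582043680)) (.cons (.rf (nat_lit 187) (nat_lit 493857213658855213088)) (.cons (.rf (nat_lit 188) (nat_lit 493858305440582043680)) (.cons (.br (nat_lit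 3) (nat_lit 0) (.cons (.rf (nat_lit 180) (nat_lit 14242959524133669920)) (.cons (.rf (nat_lit 187) (nat_lit 493858305440582043680)) (.cons (.rf (nat_lit 187) (nat_lit 493857213658855213088)) (.cons (.rf (nat_lit 188) (nat_lit 493858305440582043680)) .nil))))) .nil)))))) .nil))))),
 (.br (nat_lit 3) (nat_lit 0) (.cons (.rf (nat_lit 180) (nat_lit 14242959524133669920)) (.cons (.rf (nat_lit 180) (nat_lit 14242959524133637184)) (.cons (.rf (nat_lit 189) (nat_lit 14242959524133669920)) (.cons (.ev (nat_lit 79537652264899192180111835136) (nat_lit 1)) (.cons (.br (nat_lit 3) (nat_lit 0) (.cons (.rf (nat_lit 180) (nat_lit 14242959524133669920)) (.cons (.rf (nat_lit 180) (nat_lit 14242959524133637184)) (.cons (.rf (nat_lit 189) (nat_lit 14242959524133669920)) (.cons (.ev (nat_lit 79537652264899192180111835136) (nat_lit 1)) .nil))))) .nil)))))),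
 (.br (nat_lit 1) (nat_lit 0) (.cons (.ev (nat_lit 2446204790684398894842880) (nat_lit 3)) (.cons (.ev (nat_lit 79537652246452166631442350336) (nat_lit 1)) .nil))),
 (.br (nat_lit 3) (nat_lit 0) (.cons (.rf (nat_lit 180) (nat_lit 14242959524133669920)) (.cons (.rf (nat_lit 180) (nat_lit 14242959524133637184)) (.cons (.rf (nat_lit 189) (nat_lit 14242959524133669920)) (.cons (.br (nat_lit 2) (nat_lit 0) (.cons (.rf (nat_lit 180) (nat_lit 14242959524133701664)) (.cons (.ev (nat_lit 79538856468352041365152989184) (nat_lit 1)) (.cons (.br (nat_lit 9) (nat_lit 0) (.cons (.rf (nat_lit 191) (nat_lit 493858305440582043680)) (.cons (.ev (nat_lit 1223148331353061883838466) (nat_lit 2)) (.cons (.br (nat_lit 10) (nat_lit 0) (.cons (.rf (nat_lit 191) (nat_lit 493857213658855181344)) (.cons (.ev (nat_lit 2446204790684398827995140) (nat_lit 3)) .nil))) .nil)))) .nil)))) .nil))))),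
 (.br (nat_lit 3) (nat_lit 0) (.cons (.rf (nat_lit 180) (nat_lit 14242959524133669920)) (.cons (.rf (nat_lit 180) (nat_lit 14242959524133637184)) (.cons (.ev (nat_lit 79537652264899192180111835136) (nat_lit 1)) (.cons (.rf (nat_lit 192) (nat_lit 493858305440582043680)) .nil))))),
 (.br (nat_lit 2) (nat_lit 0) (.cons (.rf (nat_lit 180) (nat_lit 14242959524133701664)) (.cons (.rf (nat_lit 180) (nat_lit 14242959524133637184)) (.cons (.rf (nat_lit 189) (nat_lit 14242959524133701664)) (.cons (.br (nat_lit 3) (nat_lit 0) (.cons (.rf (nat_lit 180) (nat_lit 14242959524133669920)) (.cons (.rf (nat_lit 190) (nat_lit 14242959524133701664)) (.cons (.br (nat_lit 3) (nat_lit 0) (.cons (.rf (nat_lit 180) (nat_lit 14242959524133669920)) (.cons (.rf (nat_lit 189) (nat_lit 14242959524133669920)) (.cons (.rf (nat_lit 192) (nat_lit 493857213658855181344)) (.cons (.rf (nat_lit 192) (nat_lit 493858305440582043680)) .nil))))) (.cons (.br (nat_lit 3) (nat_lit 0) (.cons (.rf (nat_lit 180) (nat_lit 14242959524133669920))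 (.cons (.ev (nat_lit 79537652264899192180111835136) (nat_lit 1)) (.cons (.rf (nat_lit 192) (nat_lit 493857213658855181344)) (.cons (.rf (nat_lit 193) (nat_lit 493858305440582043680)) .nil))))) (.cons (.br (nat_lit 3) (nat_lit 0) (.cons (.rf (nat_lit 180) (nat_lit 14242959524133669920)) (.cons (.rf (nat_lit 190) (nat_lit 14242959524133701664)) (.cons (.rf (nat_lit 192) (nat_lit 493858305440582043680)) (.cons (.rf (nat_lit 193) (nat_lit 493858305440582043680)) .nil))))) .nil)))))) .nil))))),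
 (.br (nat_lit 2) (nat_lit 0) (.cons (.rf (nat_lit 180) (nat_lit 14242959524133701664)) (.cons (.rf (nat_lit 180) (nat_lit 14242959524133637184)) (.cons (.rf (nat_lit 189) (nat_lit 14242959524133701664)) (.cons (.rf (nat_lit 194) (nat_lit 14242959524133701664)) (.cons (.br (nat_lit 2) (nat_lit 0) (.cons (.rf (nat_lit 180) (nat_lit 14242959524133701664)) (.cons (.rf (nat_lit 180) (nat_lit 14242959524133637184)) (.cons (.rf (nat_lit 189) (nat_lit 14242959524133701664)) (.cons (.rf (nat_lit 194) (nat_lit 14242959524133701664)) .nil))))) .nil)))))),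
 (.br (nat_lit 2) (nat_lit 0) (.cons (.rf (nat_lit 180) (nat_lit 14242959524133701664)) (.cons (.rf (nat_lit 180) (nat_lit 14242959524133637184)) (.cons (.rf (nat_lit 195) (nat_lit 14242959524133701664)) (.cons (.rf (nat_lit 195) (nat_lit 14241867742406871072)) (.cons (.br (nat_lit 2) (nat_lit 0) (.cons (.rf (nat_lit 180) (nat_lit 14242959524133701664)) (.cons (.rf (nat_lit 180) (nat_lit 14242959524133637184)) (.cons (.rf (nat_lit 195) (nat_lit 14242959524133701664)) (.cons (.rf (nat_lit 195) (nat_lit 14241867742406871072)) .nil))))) .nil)))))),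
 (.br (nat_lit 2) (nat_lit 0) (.cons (.rf (nat_lit 180) (nat_lit 14242959524133701664)) (.cons (.rf (nat_lit 180) (nat_lit 14242959524133637184)) (.cons (.rf (nat_lit 195) (nat_lit 14242959524133701664)) (.cons (.rf (nat_lit 195) (nat_lit 14241867742406871072)) (.cons (.rf (nat_lit 196) (nat_lit 14242959524133701664)) (.cons (.br (nat_lit 2) (nat_lit 0) (.cons (.rf (nat_lit 180) (nat_lit 14242959524133701664)) (.cons (.rf (nat_lit 180) (nat_lit 14242959524133637184)) (.cons (.rf (nat_lit 195) (nat_lit 14242959524133701664)) (.cons (.rf (nat_lit 195) (nat_lit 14241867742406871072)) (.cons (.rf (nat_lit 196) (nat_lit 14242959524133701664)) .nil)))))) .nil))))))),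
 (.br (nat_lit 3) (nat_lit 0) (.cons (.rf (nat_lit 180) (nat_lit 14242959524133637184)) (.cons (.ev (nat_lit 79538856449905578766420148481) (nat_lit 1)) (.cons (.br (nat_lit 3) (nat_lit 0) (.cons (.rf (nat_lit 180) (nat_lit 14242959524133637184)) (.cons (.ev (nat_lit 79538856449905578766420148481) (nat_lit 1)) .nil))) .nil)))),
 (.br (nat_lit 3) (nat_lit 0) (.cons (.rf (nat_lit 180) (nat_lit 14242959524133637184)) (.cons (.ev (nat_lit 79538856449905578766420148481) (nat_lit 1)) (.cons (.br (nat_lit 3) (nat_lit 0) (.cons (.rf (nat_lit 180) (nat_lit 14242959524133637184)) (.cons (.ev (nat_lit 79538856449905578766420148481) (nat_lit 1)) .nil))) .nil)))),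
 (.br (nat_lit 2) (nat_lit 0) (.cons (.rf (nat_lit 180) (nat_lit 14242959524133637184)) (.cons (.rf (nat_lit 198) (nat_lit 14242959524133701664)) (.cons (.rf (nat_lit 199) (nat_lit 14242959524133701664)) (.cons (.br (nat_lit 2) (nat_lit 0) (.cons (.rf (nat_lit 180) (nat_lit 14242959524133637184)) (.cons (.rf (nat_lit 198) (nat_lit 14242959524133701664)) (.cons (.rf (nat_lit 199) (nat_lit 14242959524133701664)) .nil)))) .nil))))),
 (.br (nat_lit 2) (nat_lit 0) (.cons (.rf (nat_lit 180) (nat_lit 14242959524133637184)) (.cons (.ev (nat_lit 79537652264899192180111835136) (nat_lit 1)) (.cons (.br (nat_lit 2) (nat_lit 0) (.cons (.rf (nat_lit 180) (nat_lit 14242959524133637184)) (.cons (.ev (nat_lit 79537652264899192180111835136) (nat_lit 1)) .nil))) .nil)))),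
 (.br (nat_lit 3) (nat_lit 0) (.cons (.rf (nat_lit 180) (nat_lit 14242959524133637184)) (.cons (.rf (nat_lit 201) (nat_lit 493858305440582043680)) (.cons (.ev (nat_lit 79537652246452166631425573121) (nat_lit 1)) (.cons (.br (nat_lit 3) (nat_lit 0) (.cons (.rf (nat_lit 180) (nat_lit 14242959524133637184)) (.cons (.rf (nat_lit 201) (nat_lit 493858305440582043680)) (.cons (.ev (nat_lit 79537652246452166631425573121) (nat_lit 1)) .nil)))) .nil))))),
 (.br (nat_lit 3) (nat_lit 0) (.cons (.rf (nat_lit 180) (nat_lit 14242959524133637184)) (.cons (.ev (nat_lit 79537652246452166631425573121) (nat_lit 1)) (.cons (.ev (nat_lit 79538856449905578766420148481) (nat_lit 1)) (.cons (.br (nat_lit 3) (nat_lit 0) (.cons (.rf (nat_lit 180) (nat_lit 14242959524133637184)) (.cons (.ev (nat_lit 79537652246452166631425573121) (nat_lit 1)) (.cons (.ev (nat_lit 79538856449905578766420148481) (nat_lit 1)) .nil)))) .nil))))),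
 (.br (nat_lit 3) (nat_lit 0) (.cons (.rf (nat_lit 197) (nat_lit 14242959524133667936)) (.cons (.br (nat_lit 4) (nat_lit 0) (.cons (.ev (nat_lit 203300707844032635686886111317002) (nat_lit 4)) .nil)) .nil))),
 (.br (nat_lit 2) (nat_lit 0) (.cons (.rf (nat_lit 180) (nat_lit 14242959524133637184)) (.cons (.rf (nat_lit 197) (nat_lit 14242959524133700672)) (.cons (.br (nat_lit 3) (nat_lit 0) (.cons (.rf (nat_lit 197) (nat_lit 14242959524133667936)) (.cons (.rf (nat_lit 204) (nat_lit 493858305440582043680)) (.cons (.br (nat_lit 3) (nat_lit 0) (.cons (.rf (nat_lit 197) (nat_lit 14242959524133667936)) (.cons (.rf (nat_lit 204) (nat_lit 493858305440582043680)) .nil))) .nil)))) .nil))))]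

theorem c5 : chkAll C T R L5 (nat_lit 178) = true := by decide +kernel

theorem l5 : (nat_lit 178) + L5.length = (nat_lit 206) := by decide +kernel

/-- part of the certificates -/
def L6 : List Prf := [(.br (nat_lit 2) (nat_lit 0) (.cons (.rf (nat_lit 180) (nat_lit 14242959524133637184)) (.cons (.rf (nat_lit 197) (nat_lit 14242959524133700672)) (.cons (.rf (nat_lit 205) (nat_lit 493858305440582043680)) (.cons (.br (nat_lit 2) (nat_lit 0) (.cons (.rf (nat_lit 180) (nat_lit 14242959524133637184)) (.cons (.rf (nat_lit 197) (nat_lit 14242959524133700672)) (.cons (.rf (nat_lit 205) (nat_lit 493858305440582043680)) .nil)))) .nil))))),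
 (.br (nat_lit 3) (nat_lit 0) (.cons (.rf (nat_lit 180) (nat_lit 14242959524133637184)) (.cons (.rf (nat_lit 197) (nat_lit 14242959524133667936)) (.cons (.rf (nat_lit 206) (nat_lit 493858305440582043680)) (.cons (.br (nat_lit 3) (nat_lit 0) (.cons (.rf (nat_lit 180) (nat_lit 14242959524133637184)) (.cons (.rf (nat_lit 197) (nat_lit 14242959524133667936)) (.cons (.rf (nat_lit 206) (nat_lit 493858305440582043680)) .nil)))) .nil))))),
 (.br (nat_lit 3) (nat_lit 0) (.cons (.rf (nat_lit 180) (nat_lit 14242959524133637184)) (.cons (.rf (nat_lit 197) (nat_lit 14242959524133667936)) (.cons (.rf (nat_lit 206) (nat_lit 493858305440582043680)) (.cons (.rf (nat_lit 207) (nat_lit 493858305440582043680)) (.cons (.br (nat_lit 3) (nat_lit 0) (.cons (.rf (nat_lit 180) (nat_lit 14242959524133637184)) (.cons (.rf (nat_lit 197) (nat_lit 14242959524133667936)) (.cons (.rf (nat_lit 206) (nat_lit 493858305440582043680)) (.cons (.rf (nat_lit 207) (nat_lit 493858305440582043680)) .nil))))) .nil)))))),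
 (.br (nat_lit 2) (nat_lit 0) (.cons (.rf (nat_lit 180) (nat_lit 14242959524133637184)) (.cons (.rf (nat_lit 197) (nat_lit 14242959524133700672)) (.cons (.rf (nat_lit 208) (nat_lit 493858305440582043680)) (.cons (.rf (nat_lit 208) (nat_lit 493857213658855213088)) (.cons (.br (nat_lit 2) (nat_lit 0) (.cons (.rf (nat_lit 180) (nat_lit 14242959524133637184)) (.cons (.rf (nat_lit 197) (nat_lit 14242959524133700672)) (.cons (.rf (nat_lit 208) (nat_lit 493858305440582043680)) (.cons (.rf (nat_lit 208) (nat_lit 493857213658855213088)) .nil))))) .nil)))))),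
 (.br (nat_lit 1) (nat_lit 0) (.cons (.rf (nat_lit 180) (nat_lit 14242959524133701664)) (.cons (.rf (nat_lit 180) (nat_lit 14242959524133669920)) (.cons (.rf (nat_lit 197) (nat_lit 14242959524133701664)) (.cons (.br (nat_lit 4) (nat_lit 0) (.cons (.rf (nat_lit 197) (nat_lit 14242959524133700672)) (.cons (.rf (nat_lit 197) (nat_lit 14242959524133667936)) (.cons (.rf (nat_lit 200) (nat_lit 14242959524133701664)) (.cons (.rf (nat_lit 200) (nat_lit 14241867742406871072)) (.cons (.zr (nat_lit 79228162551301940933333876736) (nat_lit 618970019642972711937900800) (nat_lit 5) (nat_lit 12)) (.cons (.br (nat_lit 2) (nat_lit 0) (.cons (.rf (nat_lit 180) (nat_lit 14242959524133637184)) (.cons (.rf (nat_lit 202) (nat_lit 493858305440582043680)) (.cons (.rf (nat_lit 202) (nat_lit 493857213658855213088)) (.cons (.rf (nat_lit 203) (nat_lit 493858305440582043680)) (.cons (.br (nat_lit 2) (nat_lit 0) (.cons (.rf (nat_lit 180) (nat_lit 14242959524133637184)) (.cons (.rf (nat_lit 202) (nat_lit 493858305440582043680))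 (.cons (.rf (nat_lit 202) (nat_lit 493857213658855213088)) (.cons (.rf (nat_lit 203) (nat_lit 493858305440582043680)) .nil))))) .nil)))))) .nil))))))) (.cons (.br (nat_lit 2) (nat_lit 0) (.cons (.rf (nat_lit 180) (nat_lit 14242959524133637184)) (.cons (.rf (nat_lit 197) (nat_lit 14242959524133700672)) (.cons (.rf (nat_lit 208) (nat_lit 493858305440582043680)) (.cons (.rf (nat_lit 208) (nat_lit 493857213658855213088)) (.cons (.rf (nat_lit 209) (nat_lit 493858305440582043680)) (.cons (.br (nat_lit 2) (nat_lit 0) (.cons (.rf (nat_lit 180) (nat_lit 14242959524133637184)) (.cons (.rf (nat_lit 197) (nat_lit 14242959524133700672)) (.cons (.rf (nat_lit 208) (nat_lit 493858305440582043680)) (.cons (.rf (nat_lit 208) (nat_lit 493857213658855213088)) (.cons (.rf (nat_lit 209) (nat_lit 493858305440582043680)) .nil)))))) .nil))))))) .nil)))))),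
 (.br (nat_lit 2) (nat_lit 0) (.cons (.rf (nat_lit 180) (nat_lit 14242959524133701664)) (.cons (.rf (nat_lit 180) (nat_lit 14242959524133637184)) (.cons (.rf (nat_lit 197) (nat_lit 14242959524133700672)) (.cons (.rf (nat_lit 210) (nat_lit 14242959524133700672)) (.cons (.ev (nat_lit 79537652264899192180111835136) (nat_lit 1)) (.cons (.br (nat_lit 2) (nat_lit 0) (.cons (.rf (nat_lit 180) (nat_lit 14242959524133701664)) (.cons (.rf (nat_lit 180) (nat_lit 14242959524133637184)) (.cons (.rf (nat_lit 197) (nat_lit 14242959524133700672)) (.cons (.rf (nat_lit 210) (nat_lit 14242959524133700672)) (.cons (.ev (nat_lit 79537652264899192180111835136) (nat_lit 1)) .nil)))))) .nil))))))),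
 (.br (nat_lit 3) (nat_lit 0) (.cons (.rf (nat_lit 180) (nat_lit 14242959524133669920)) (.cons (.rf (nat_lit 180) (nat_lit 14242959524133637184)) (.cons (.rf (nat_lit 197) (nat_lit 14242959524133667936)) (.cons (.rf (nat_lit 211) (nat_lit 14242959524133669920)) (.cons (.rf (nat_lit 211) (nat_lit 14241867742406806592)) (.cons (.br (nat_lit 3) (nat_lit 0) (.cons (.rf (nat_lit 180) (nat_lit 14242959524133669920)) (.cons (.rf (nat_lit 180) (nat_lit 14242959524133637184)) (.cons (.rf (nat_lit 197) (nat_lit 14242959524133667936)) (.cons (.rf (nat_lit 211) (nat_lit 14242959524133669920)) (.cons (.rf (nat_lit 211) (nat_lit 14241867742406806592)) .nil)))))) .nil))))))),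
 (.br (nat_lit 2) (nat_lit 0) (.cons (.rf (nat_lit 180) (nat_lit 14242959524133701664)) (.cons (.rf (nat_lit 180) (nat_lit 14242959524133637184)) (.cons (.rf (nat_lit 197) (nat_lit 14242959524133700672)) (.cons (.rf (nat_lit 210) (nat_lit 14242959524133700672)) (.cons (.rf (nat_lit 212) (nat_lit 14242959524133701664)) (.cons (.br (nat_lit 2) (nat_lit 0) (.cons (.rf (nat_lit 180) (nat_lit 14242959524133701664)) (.cons (.rf (nat_lit 180) (nat_lit 14242959524133637184)) (.cons (.rf (nat_lit 197) (nat_lit 14242959524133700672)) (.cons (.rf (nat_lit 210) (nat_lit 14242959524133700672)) (.cons (.rf (nat_lit 212) (nat_lit 14242959524133701664)) .nil)))))) .nil))))))),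
 (.br (nat_lit 3) (nat_lit 0) (.cons (.rf (nat_lit 180) (nat_lit 14242959524133669920)) (.cons (.rf (nat_lit 180) (nat_lit 14242959524133637184)) (.cons (.rf (nat_lit 197) (nat_lit 14242959524133667936)) (.cons (.rf (nat_lit 211) (nat_lit 14242959524133669920)) (.cons (.rf (nat_lit 213) (nat_lit 14242959524133669920)) (.cons (.br (nat_lit 3) (nat_lit 0) (.cons (.rf (nat_lit 180) (nat_lit 14242959524133669920)) (.cons (.rf (nat_lit 180) (nat_lit 14242959524133637184)) (.cons (.rf (nat_lit 197) (nat_lit 14242959524133667936)) (.cons (.rf (nat_lit 211) (nat_lit 14242959524133669920)) (.cons (.rf (nat_lit 213) (nat_lit 14242959524133669920)) .nil)))))) .nil))))))),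
 (.br (nat_lit 2) (nat_lit 0) (.cons (.rf (nat_lit 180) (nat_lit 14242959524133701664)) (.cons (.rf (nat_lit 180) (nat_lit 14242959524133637184)) (.cons (.rf (nat_lit 197) (nat_lit 14242959524133700672)) (.cons (.rf (nat_lit 211) (nat_lit 14242959524133701664)) (.cons (.rf (nat_lit 213) (nat_lit 14242959524133701664)) (.cons (.rf (nat_lit 214) (nat_lit 14242959524133701664)) (.cons (.br (nat_lit 2) (nat_lit 0) (.cons (.rf (nat_lit 180) (nat_lit 14242959524133701664)) (.cons (.rf (nat_lit 180) (nat_lit 14242959524133637184)) (.cons (.rf (nat_lit 197) (nat_lit 14242959524133700672)) (.cons (.rf (nat_lit 211) (nat_lit 14242959524133701664)) (.cons (.rf (nat_lit 213) (nat_lit 14242959524133701664)) (.cons (.rf (nat_lit 214) (nat_lit 14242959524133701664)) .nil))))))) .nil)))))))),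
 (.br (nat_lit 1) (nat_lit 0) (.cons (.rf (nat_lit 180) (nat_lit 14242959524133701664)) (.cons (.rf (nat_lit 180) (nat_lit 14242959524133669920)) (.cons (.rf (nat_lit 197) (nat_lit 14242959524133701664)) (.cons (.rf (nat_lit 210) (nat_lit 14242959524133701664)) (.cons (.rf (nat_lit 215) (nat_lit 14242959524133701664)) (.cons (.br (nat_lit 1) (nat_lit 0) (.cons (.rf (nat_lit 180) (nat_lit 14242959524133701664)) (.cons (.rf (nat_lit 180) (nat_lit 14242959524133669920)) (.cons (.rf (nat_lit 197) (nat_lit 14242959524133701664)) (.cons (.rf (nat_lit 210) (nat_lit 14242959524133701664)) (.cons (.rf (nat_lit 215) (nat_lit 14242959524133701664)) .nil)))))) .nil))))))),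
 (.br (nat_lit 1) (nat_lit 0) (.cons (.rf (nat_lit 180) (nat_lit 14242959524133701664)) (.cons (.rf (nat_lit 180) (nat_lit 14242959524133669920)) (.cons (.rf (nat_lit 197) (nat_lit 14242959524133701664)) (.cons (.rf (nat_lit 216) (nat_lit 14242959524133701664)) (.cons (.rf (nat_lit 216) (nat_lit 14241867742406871072)) (.cons (.br (nat_lit 1) (nat_lit 0) (.cons (.rf (nat_lit 180) (nat_lit 14242959524133701664)) (.cons (.rf (nat_lit 180) (nat_lit 14242959524133669920)) (.cons (.rf (nat_lit 197) (nat_lit 14242959524133701664)) (.cons (.rf (nat_lit 216) (nat_lit 14242959524133701664)) (.cons (.rf (nat_lit 216) (nat_lit 14241867742406871072)) .nil)))))) .nil))))))),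
 (.br (nat_lit 8) (nat_lit 0) (.cons (.br (nat_lit 1) (nat_lit 0) (.cons (.rf (nat_lit 180) (nat_lit 14242959524133701664)) (.cons (.rf (nat_lit 180) (nat_lit 14242959524133669920)) (.cons (.rf (nat_lit 197) (nat_lit 14242959524133701664)) (.cons (.rf (nat_lit 216) (nat_lit 14242959524133701664)) (.cons (.rf (nat_lit 216) (nat_lit 14241867742406871072)) (.cons (.rf (nat_lit 217) (nat_lit 14242959524133701664)) (.cons (.br (nat_lit 1) (nat_lit 0) (.cons (.rf (nat_lit 180) (nat_lit 14242959524133701664)) (.cons (.rf (nat_lit 180) (nat_lit 14242959524133669920)) (.cons (.rf (nat_lit 197) (nat_lit 14242959524133701664)) (.cons (.rf (nat_lit 216) (nat_lit 14242959524133701664)) (.cons (.rf (nat_lit 216) (nat_lit 14241867742406871072)) (.cons (.rf (nat_lit 217) (nat_lit 14242959524133701664)) .nil))))))) .nil)))))))) .nil)),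
 (.br (nat_lit 11) (nat_lit 1) (.cons (.br (nat_lit 6) (nat_lit 0) (.cons (.rf (nat_lit 218) (nat_lit 14242959524133701664)) (.cons (.rf (nat_lit 218) (nat_lit 10784300563429427232)) .nil))) .nil)),
 (.br (nat_lit 7) (nat_lit 0) (.cons (.br (nat_lit 11) (nat_lit 1) (.cons (.rf (nat_lit 219) (nat_lit 14242959524133701664)) (.cons (.br (nat_lit 11) (nat_lit 1) (.cons (.rf (nat_lit 219) (nat_lit 14242959524133701664)) .nil)) .nil))) .nil)),
 (.br (nat_lit 5) (nat_lit 0) (.cons (.rf (nat_lit 64) (nat_lit 7337)) (.cons (.rf (nat_lit 4) (nat_lit 370852)) (.cons (.br (nat_lit 10) (nat_lit 1) (.cons (.rf (nat_lit 87) (nat_lit 12120696996)) (.cons (.rf (nat_lit 64) (nat_lit 7338)) (.cons (.br (nat_lit 7) (nat_lit 0) (.cons (.rf (nat_lit 220) (nat_lit 407901468851537952)) (.cons (.br (nat_lit 7) (nat_lit 0) (.cons (.rf (nat_lit 220) (nat_lit 407901468851537952)) .nil)) .nil))) .nil)))) .nil)))),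
 (.br (nat_lit 5) (nat_lit 0) (.cons (.rf (nat_lit 64) (nat_lit 7337)) (.cons (.rf (nat_lit 221) (nat_lit 11584701642934304)) (.cons (.br (nat_lit 5) (nat_lit 0) (.cons (.rf (nat_lit 64) (nat_lit 7337)) (.cons (.rf (nat_lit 221) (nat_lit 12710601549776928)) .nil))) .nil)))),
 (.br (nat_lit 0) (nat_lit 0) (.cons (.rf (nat_lit 93) (nat_lit 4294688)) (.cons (.br (nat_lit 4) (nat_lit 1) (.cons (.br (nat_lit 4) (nat_lit 1) (.cons (.br (nat_lit 5) (nat_lit 1) (.cons (.rf (nat_lit 64) (nat_lit 6308)) (.cons (.br (nat_lit 6) (nat_lit 1) (.cons (.br (nat_lit 7) (nat_lit 0) (.cons (.rf (nat_lit 222) (nat_lit 325702574508064)) (.cons (.br (nat_lit 7) (nat_lit 0) (.cons (.rf (nat_lit 222) (nat_lit 360886946596896)) .nil)) .nil))) .nil)) .nil))) .nil)) .nil)) .nil))),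
 (.br (nat_lit 1) (nat_lit 0) (.cons (.ev (nat_lit 1208944338417400745558016) (nat_lit 1)) (.cons (.kr (nat_lit 18446744078004518914) (nat_lit 72339069014639104) (nat_lit 0) (nat_lit 2)) (.cons (.br (nat_lit 2) (nat_lit 0) (.cons (.br (nat_lit 2) (nat_lit 0) (.cons (.kr (nat_lit 18446744073709551618) (nat_lit 281474976776448) (nat_lit 0) (nat_lit 3)) (.cons (.kr (nat_lit 18518801667747479554) (nat_lit 281479271809024) (nat_lit 0) (nat_lit 1)) (.cons (.rf (nat_lit 223) (nat_lit 394242)) .nil)))) (.cons (.br (nat_lit 2) (nat_lit 0) (.cons (.kr (nat_lit 18446744073709551618) (nat_lit 281474976776448) (nat_lit 0) (nat_lit 3)) (.cons (.kr (nat_lit 18446744073709551617) (nat_lit 281474976776192) (nat_lit 0) (nat_lit 1)) (.cons (.rf (nat_lit 223) (nat_lit 394242)) .nil)))) (.cons (.br (nat_lit 2) (nat_lit 0) (.cons (.kr (nat_lit 18518801667747479554) (nat_lit 281479271809024) (nat_lit 0) (nat_lit 1)) (.cons (.kr (nat_lit 18446744073709551617) (nat_lit 281474976776192) (nat_lit 0) (nat_lit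 1)) (.cons (.rf (nat_lit 223) (nat_lit 394242)) .nil)))) (.cons (.rf (nat_lit 223) (nat_lit 394242)) .nil))))) (.cons (.rf (nat_lit 223) (nat_lit 395265)) .nil))))),
 (.br (nat_lit 1) (nat_lit 0) (.cons (.kr (nat_lit 18446744078004518914) (nat_lit 72339069014639104) (nat_lit 0) (nat_lit 2)) (.cons (.rf (nat_lit 224) (nat_lit 335914140414674976)) (.cons (.kr (nat_lit 18446744073709551617) (nat_lit 281474976710912) (nat_lit 0) (nat_lit 2)) (.cons (.rf (nat_lit 223) (nat_lit 395265)) .nil))))),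
 (.br (nat_lit 1) (nat_lit 0) (.cons (.rf (nat_lit 224) (nat_lit 407901468851537952)) (.cons (.rf (nat_lit 224) (nat_lit 335914140414674976)) (.cons (.rf (nat_lit 225) (nat_lit 407901468851537952)) (.cons (.rf (nat_lit 225) (nat_lit 335914140414674976)) (.cons (.rf (nat_lit 223) (nat_lit 395265)) .nil)))))),
 (.br (nat_lit 7) (nat_lit 0) (.cons (.br (nat_lit 8) (nat_lit 0) .nil) .nil)),
 (.br (nat_lit 7) (nat_lit 0) (.cons (.rf (nat_lit 227) (nat_lit 247132686368)) (.cons (.br (nat_lit 7) (nat_lit 0) (.cons (.rf (nat_lit 227) (nat_lit 247132686368)) .nil)) .nil))),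
 (.br (nat_lit 2) (nat_lit 0) (.cons (.ev (nat_lit 310698676454186641254252544) (nat_lit 1)) (.cons (.rf (nat_lit 228) (nat_lit 424435353632)) .nil))),
 (.br (nat_lit 2) (nat_lit 0) (.cons (.rf (nat_lit 228) (nat_lit 247132686368)) (.cons (.rf (nat_lit 228) (nat_lit 246092498976)) (.cons (.rf (nat_lit 223) (nat_lit 269314)) .nil)))),
 (.br (nat_lit 2) (nat_lit 0) (.cons (.rf (nat_lit 223) (nat_lit 230402)) (.cons (.rf (nat_lit 223) (nat_lit 269314)) .nil))),
 (.br (nat_lit 2) (nat_lit 0) (.cons (.br (nat_lit 2) (nat_lit 0) (.cons (.rf (nat_lit 231) (nat_lit 247132686368)) .nil)) (.cons (.br (nat_lit 2) (nat_lit 0) (.cons (.rf (nat_lit 231) (nat_lit 247132686368)) (.cons (.rf (nat_lit 223) (nat_lit 269314)) .nil))) .nil))),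
 (.br (nat_lit 2) (nat_lit 0) (.cons (.rf (nat_lit 223) (nat_lit 394242)) (.cons (.ev (nat_lit 1208944266359802412728321) (nat_lit 1)) (.cons (.rf (nat_lit 223) (nat_lit 438274)) .nil)))),
 (.br (nat_lit 2) (nat_lit 0) (.cons (.rf (nat_lit 223) (nat_lit 427010)) (.cons (.ev (nat_lit 310698676454186641254252544) (nat_lit 1)) (.cons (.rf (nat_lit 223) (nat_lit 438274)) .nil)))),
 (.br (nat_lit 2) (nat_lit 0) (.cons (.rf (nat_lit 223) (nat_lit 394242)) (.cons (.rf (nat_lit 233) (nat_lit 14242959524133701664)) (.cons (.rf (nat_lit 233) (nat_lit 14170972298839951392)) (.cons (.rf (nat_lit 223) (nat_lit 438274)) .nil))))),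
 (.br (nat_lit 2) (nat_lit 0) (.cons (.rf (nat_lit 235) (nat_lit 2713602673413828609)) (.cons (.ev (nat_lit 1208925891954802012782848) (nat_lit 1)) (.cons (.rf (nat_lit 223) (nat_lit 438274)) .nil)))),
 (.br (nat_lit 13) (nat_lit 0) (.cons (.ev (nat_lit 310698658007724042521477376) (nat_lit 1)) (.cons (.br (nat_lit 13) (nat_lit 0) (.cons (.ev (nat_lit 310698658007724042521477376) (nat_lit 1)) .nil)) .nil))),
 (.br (nat_lit 2) (nat_lit 0) (.cons (.rf (nat_lit 237) (nat_lit 493858305440582043680)) (.cons (.rf (nat_lit 223) (nat_lit 438274)) .nil))),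
 (.br (nat_lit 2) (nat_lit 0) (.cons (.br (nat_lit 2) (nat_lit 0) (.cons (.ev (nat_lit 1208925891954802012782848) (nat_lit 1)) (.cons (.rf (nat_lit 238) (nat_lit 493858305440582043680)) .nil))) (.cons (.rf (nat_lit 236) (nat_lit 14242959524133701664)) (.cons (.rf (nat_lit 238) (nat_lit 493858305440582043680)) .nil)))),
 (.br (nat_lit 12) (nat_lit 0) (.cons (.rf (nat_lit 236) (nat_lit 14242959524133701664)) (.cons (.rf (nat_lit 239) (nat_lit 14242959524133701664)) (.cons (.br (nat_lit 12) (nat_lit 0) (.cons (.rf (nat_lit 223) (nat_lit 428076)) (.cons (.rf (nat_lit 239) (nat_lit 14242959524133701664)) .nil))) .nil))))]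

theorem c6 : chkAll C T R L6 (nat_lit 206) = true := by decide +kernel

theorem l6 : (nat_lit 206) + L6.length = (nat_lit 241) := by decide +kernel

/-- part of the certificates -/
def L7 : List Prf := [(.br (nat_lit 12) (nat_lit 0) (.cons (.rf (nat_lit 236) (nat_lit 14242959524133701664)) (.cons (.rf (nat_lit 239) (nat_lit 14242959524133701664)) (.cons (.rf (nat_lit 240) (nat_lit 14242959524133701664)) (.cons (.br (nat_lit 12) (nat_lit 0) (.cons (.rf (nat_lit 223) (nat_lit 428076)) (.cons (.rf (nat_lit 239) (nat_lit 14242959524133701664)) (.cons (.rf (nat_lit 240) (nat_lit 14242959524133701664)) .nil)))) .nil))))),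
 (.br (nat_lit 2) (nat_lit 0) (.cons (.rf (nat_lit 230) (nat_lit 424433321024)) (.cons (.rf (nat_lit 235) (nat_lit 2713602673413828609)) (.cons (.br (nat_lit 13) (nat_lit 0) (.cons (.ev (nat_lit 1208944266359802412728321) (nat_lit 1)) (.cons (.ev (nat_lit 310698676526244239587213313) (nat_lit 1)) (.cons (.br (nat_lit 13) (nat_lit 0) (.cons (.ev (nat_lit 1208944266359802412728321) (nat_lit 1)) (.cons (.ev (nat_lit 310698676526244239587213313) (nat_lit 1)) .nil))) .nil)))) .nil)))),
 (.br (nat_lit 2) (nat_lit 0) (.cons (.rf (nat_lit 241) (nat_lit 14242959524133701664)) (.cons (.rf (nat_lit 242) (nat_lit 14242959524133701664)) (.cons (.rf (nat_lit 235) (nat_lit 2713602673413828609)) (.cons (.br (nat_lit 2) (nat_lit 0) (.cons (.rf (nat_lit 241) (nat_lit 14242959524133701664)) (.cons (.rf (nat_lit 242) (nat_lit 14242959524133701664)) (.cons (.rf (nat_lit 223) (nat_lit 438274)) .nil)))) .nil))))),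
 (.br (nat_lit 2) (nat_lit 0) (.cons (.rf (nat_lit 241) (nat_lit 14242959524133701664)) (.cons (.rf (nat_lit 243) (nat_lit 14242959524133701664)) (.cons (.br (nat_lit 2) (nat_lit 0) (.cons (.ev (nat_lit 1208925891954802012782848) (nat_lit 1)) (.cons (.rf (nat_lit 235) (nat_lit 2713602673413828609)) (.cons (.rf (nat_lit 223) (nat_lit 438274)) .nil)))) (.cons (.br (nat_lit 2) (nat_lit 0) (.cons (.rf (nat_lit 241) (nat_lit 14242959524133701664)) (.cons (.rf (nat_lit 243) (nat_lit 14242959524133701664)) (.cons (.rf (nat_lit 223) (nat_lit 438274)) .nil)))) .nil))))),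
 (.br (nat_lit 1) (nat_lit 0) (.cons (.kr (nat_lit 18446744078004518914) (nat_lit 72339069014639104) (nat_lit 0) (nat_lit 2)) (.cons (.ev (nat_lit 1208944338417400745558016) (nat_lit 1)) (.cons (.br (nat_lit 5) (nat_lit 0) (.cons (.br (nat_lit 2) (nat_lit 0) (.cons (.rf (nat_lit 229) (nat_lit 407901468851537952)) (.cons (.rf (nat_lit 229) (nat_lit 335914140481718304)) (.cons (.rf (nat_lit 230) (nat_lit 424435353632)) .nil)))) (.cons (.zr (nat_lit 4759259972125165879296) (nat_lit 2417851711568327364051200) (nat_lit 5) (nat_lit 9)) (.cons (.rf (nat_lit 232) (nat_lit 12118493216)) (.cons (.br (nat_lit 2) (nat_lit 0) (.cons (.br (nat_lit 2) (nat_lit 0) (.cons (.ev (nat_lit 310698658079781640854306816) (nat_lit 1)) (.cons (.rf (nat_lit 235) (nat_lit 14242959524133701664)) (.cons (.rf (nat_lit 234) (nat_lit 493858305440582043680)) .nil)))) (.cons (.br (nat_lit 2) (nat_lit 0) (.cons (.ev (nat_lit 310698658079781640854306816) (nat_lit 1)) (.cons (.rf (nat_lit 235) (nat_lit 14242959524133701664))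 (.cons (.rf (nat_lit 234) (nat_lit 493786318112212224032)) .nil)))) (.cons (.rf (nat_lit 235) (nat_lit 14242959524133701664)) (.cons (.br (nat_lit 2) (nat_lit 0) (.cons (.rf (nat_lit 234) (nat_lit 493858305440582043680)) (.cons (.rf (nat_lit 234) (nat_lit 493786318112212224032)) (.cons (.rf (nat_lit 223) (nat_lit 438274)) .nil)))) .nil))))) .nil))))) (.cons (.br (nat_lit 2) (nat_lit 0) (.cons (.rf (nat_lit 241) (nat_lit 14242959524133701664)) (.cons (.rf (nat_lit 243) (nat_lit 14242959524133701664)) (.cons (.rf (nat_lit 244) (nat_lit 14242959524133701664)) (.cons (.br (nat_lit 2) (nat_lit 0) (.cons (.rf (nat_lit 236) (nat_lit 14242959524133701664)) (.cons (.rf (nat_lit 235) (nat_lit 2713602673413828609)) (.cons (.rf (nat_lit 244) (nat_lit 14242959524133701664)) (.cons (.rf (nat_lit 223) (nat_lit 438274)) .nil))))) (.cons (.br (nat_lit 2) (nat_lit 0) (.cons (.rf (nat_lit 241) (nat_lit 14242959524133701664)) (.cons (.rf (nat_lit 243) (nat_lit 14242959524133701664)) (.cons (.rf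 (nat_lit 244) (nat_lit 14242959524133701664)) (.cons (.rf (nat_lit 223) (nat_lit 438274)) .nil))))) .nil)))))) .nil))))),
 (.br (nat_lit 2) (nat_lit 0) (.cons (.rf (nat_lit 223) (nat_lit 394242)) (.cons (.br (nat_lit 1) (nat_lit 0) (.cons (.rf (nat_lit 230) (nat_lit 424435353632)) (.cons (.ev (nat_lit 1208925891954802012782848) (nat_lit 1)) (.cons (.br (nat_lit 9) (nat_lit 0) (.cons (.zr (nat_lit 7253684116953889347993608) (nat_lit 1237958928752723526477152256) (nat_lit 10) (nat_lit 10)) (.cons (.rf (nat_lit 238) (nat_lit 493858305440514999360)) (.cons (.br (nat_lit 11) (nat_lit 0) (.cons (.ev (nat_lit 310698658007724042521477376) (nat_lit 1)) (.cons (.rf (nat_lit 238) (nat_lit 458045751469399967776)) .nil))) .nil)))) .nil)))) (.cons (.rf (nat_lit 245) (nat_lit 335914140414673984)) (.cons (.rf (nat_lit 223) (nat_lit 438274)) .nil))))),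
 (.br (nat_lit 2) (nat_lit 0) (.cons (.rf (nat_lit 246) (nat_lit 14170972195696837696)) (.cons (.rf (nat_lit 245) (nat_lit 335914140414673984)) (.cons (.rf (nat_lit 246) (nat_lit 14242959524133701664)) (.cons (.rf (nat_lit 246) (nat_lit 15395881028740548640)) .nil))))),
 (.br (nat_lit 12) (nat_lit 0) (.cons (.ev (nat_lit 1208944266359802412728321) (nat_lit 1)) (.cons (.ev (nat_lit 310698658007724042521477121) (nat_lit 1)) (.cons (.rf (nat_lit 223) (nat_lit 428076)) .nil)))),
 (.br (nat_lit 2) (nat_lit 0) (.cons (.rf (nat_lit 230) (nat_lit 424433321024)) (.cons (.rf (nat_lit 248) (nat_lit 14242959524133701664)) (.cons (.br (nat_lit 13) (nat_lit 0) (.cons (.ev (nat_lit 1208944266359802412728321) (nat_lit 1)) (.cons (.ev (nat_lit 310698676526244239587213313) (nat_lit 1)) (.cons (.br (nat_lit 13) (nat_lit 0) (.cons (.ev (nat_lit 1208944266359802412728321) (nat_lit 1)) (.cons (.ev (nat_lit 310698676526244239587213313) (nat_lit 1)) .nil))) .nil)))) .nil)))),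
 (.br (nat_lit 2) (nat_lit 0) (.cons (.rf (nat_lit 246) (nat_lit 14170972195696837696)) (.cons (.rf (nat_lit 249) (nat_lit 14242959524133701664)) (.cons (.br (nat_lit 2) (nat_lit 0) (.cons (.ev (nat_lit 1208925891954802012782848) (nat_lit 1)) (.cons (.rf (nat_lit 248) (nat_lit 14242959524133701664)) (.cons (.rf (nat_lit 223) (nat_lit 438274)) .nil)))) (.cons (.br (nat_lit 2) (nat_lit 0) (.cons (.rf (nat_lit 246) (nat_lit 15395881028740548640)) (.cons (.rf (nat_lit 249) (nat_lit 14242959524133701664)) (.cons (.rf (nat_lit 223) (nat_lit 438274)) .nil)))) .nil))))),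
 (.br (nat_lit 2) (nat_lit 0) (.cons (.rf (nat_lit 245) (nat_lit 335914140414673984)) (.cons (.rf (nat_lit 250) (nat_lit 14242959524133701664)) (.cons (.br (nat_lit 2) (nat_lit 0) (.cons (.rf (nat_lit 245) (nat_lit 335914140414673984)) (.cons (.rf (nat_lit 250) (nat_lit 14242959524133701664)) (.cons (.rf (nat_lit 223) (nat_lit 438274)) .nil)))) (.cons (.br (nat_lit 2) (nat_lit 0) (.cons (.rf (nat_lit 245) (nat_lit 335914140414673984)) (.cons (.rf (nat_lit 250) (nat_lit 14242959524133701664)) (.cons (.rf (nat_lit 223) (nat_lit 438274)) .nil)))) .nil))))),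
 (.br (nat_lit 1) (nat_lit 0) (.cons (.rf (nat_lit 226) (nat_lit 407901468851537952)) (.cons (.ev (nat_lit 1208944338417400745558016) (nat_lit 1)) (.cons (.rf (nat_lit 245) (nat_lit 407901468851537952)) (.cons (.br (nat_lit 2) (nat_lit 0) (.cons (.rf (nat_lit 247) (nat_lit 14242959524133701664)) (.cons (.rf (nat_lit 250) (nat_lit 14242959524133701664)) (.cons (.rf (nat_lit 251) (nat_lit 14242959524133701664)) (.cons (.br (nat_lit 2) (nat_lit 0) (.cons (.rf (nat_lit 246) (nat_lit 14242959524133701664)) (.cons (.rf (nat_lit 250) (nat_lit 14242959524133701664)) (.cons (.rf (nat_lit 251) (nat_lit 14242959524133701664)) (.cons (.rf (nat_lit 223) (nat_lit 438274)) .nil))))) (.cons (.br (nat_lit 2) (nat_lit 0) (.cons (.rf (nat_lit 246) (nat_lit 15395881028740548640)) (.cons (.rf (nat_lit 250) (nat_lit 14242959524133701664)) (.cons (.rf (nat_lit 251) (nat_lit 14242959524133701664)) (.cons (.rf (nat_lit 223) (nat_lit 438274)) .nil))))) .nil)))))) .nil))))),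
 (.br (nat_lit 1) (nat_lit 0) (.cons (.rf (nat_lit 226) (nat_lit 407901468851537952)) (.cons (.ev (nat_lit 1208944338417400745558016) (nat_lit 1)) (.cons (.rf (nat_lit 245) (nat_lit 407901468851537952)) (.cons (.rf (nat_lit 252) (nat_lit 407901468851537952)) (.cons (.br (nat_lit 1) (nat_lit 0) (.cons (.rf (nat_lit 223) (nat_lit 395265)) (.cons (.ev (nat_lit 1208944338417400745558016) (nat_lit 1)) (.cons (.rf (nat_lit 245) (nat_lit 407901468851537952)) (.cons (.rf (nat_lit 252) (nat_lit 407901468851537952)) (.cons (.rf (nat_lit 223) (nat_lit 438273)) .nil)))))) .nil)))))),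
 (.br (nat_lit 2) (nat_lit 0) (.cons (.kr (nat_lit 18446744073709551617) (nat_lit 281474976710912) (nat_lit 0) (nat_lit 2)) (.cons (.rf (nat_lit 253) (nat_lit 407901468851536960)) (.cons (.rf (nat_lit 253) (nat_lit 335914140414673984)) (.cons (.ev (nat_lit 310698676454186641254252544) (nat_lit 1)) (.cons (.br (nat_lit 2) (nat_lit 0) (.cons (.kr (nat_lit 18446744073709551617) (nat_lit 281474976710912) (nat_lit 0) (nat_lit 2)) (.cons (.rf (nat_lit 253) (nat_lit 407901468851536960)) (.cons (.rf (nat_lit 253) (nat_lit 335914140414673984)) (.cons (.ev (nat_lit 310698676454186641254252544) (nat_lit 1)) (.cons (.rf (nat_lit 223) (nat_lit 438274)) .nil)))))) .nil)))))),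
 (.br (nat_lit 2) (nat_lit 0) (.cons (.kr (nat_lit 18446744073709551617) (nat_lit 281474976710912) (nat_lit 0) (nat_lit 2)) (.cons (.rf (nat_lit 253) (nat_lit 407901468851536960)) (.cons (.rf (nat_lit 253) (nat_lit 335914140414673984)) (.cons (.rf (nat_lit 254) (nat_lit 407901468851537952)) (.cons (.rf (nat_lit 254) (nat_lit 335914140414674976)) (.cons (.br (nat_lit 2) (nat_lit 0) (.cons (.kr (nat_lit 18446744073709551617) (nat_lit 281474976710912) (nat_lit 0) (nat_lit 2)) (.cons (.rf (nat_lit 253) (nat_lit 407901468851536960)) (.cons (.rf (nat_lit 253) (nat_lit 335914140414673984)) (.cons (.rf (nat_lit 254) (nat_lit 407901468851537952)) (.cons (.rf (nat_lit 254) (nat_lit 335914140414674976)) (.cons (.rf (nat_lit 223) (nat_lit 438274)) .nil))))))) .nil))))))),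
 (.br (nat_lit 1) (nat_lit 0) (.cons (.rf (nat_lit 226) (nat_lit 407901468851537952)) (.cons (.rf (nat_lit 253) (nat_lit 407901468851537952)) (.cons (.rf (nat_lit 253) (nat_lit 335914140414674976)) (.cons (.rf (nat_lit 255) (nat_lit 407901468851537952)) (.cons (.br (nat_lit 1) (nat_lit 0) (.cons (.rf (nat_lit 223) (nat_lit 395265)) (.cons (.rf (nat_lit 253) (nat_lit 407901468851537952)) (.cons (.rf (nat_lit 253) (nat_lit 335914140414674976)) (.cons (.rf (nat_lit 255) (nat_lit 407901468851537952)) (.cons (.rf (nat_lit 223) (nat_lit 438273)) .nil)))))) .nil)))))),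
 (.br (nat_lit 8) (nat_lit 0) (.cons (.br (nat_lit 1) (nat_lit 0) (.cons (.rf (nat_lit 226) (nat_lit 407901468851537952)) (.cons (.rf (nat_lit 253) (nat_lit 407901468851537952)) (.cons (.rf (nat_lit 253) (nat_lit 335914140414674976)) (.cons (.rf (nat_lit 256) (nat_lit 407901468851537952)) (.cons (.rf (nat_lit 256) (nat_lit 335914140414674976)) (.cons (.br (nat_lit 1) (nat_lit 0) (.cons (.rf (nat_lit 223) (nat_lit 395265)) (.cons (.rf (nat_lit 253) (nat_lit 407901468851537952)) (.cons (.rf (nat_lit 253) (nat_lit 335914140414674976)) (.cons (.rf (nat_lit 256) (nat_lit 407901468851537952)) (.cons (.rf (nat_lit 256) (nat_lit 335914140414674976)) (.cons (.rf (nat_lit 223) (nat_lit 438273)) .nil))))))) .nil))))))) .nil)),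
 (.br (nat_lit 1) (nat_lit 0) (.cons (.kr (nat_lit 1) (nat_lit 256) (nat_lit 0) (nat_lit 2)) (.cons (.rf (nat_lit 257) (nat_lit 191797988318873601)) (.cons (.rf (nat_lit 257) (nat_lit 191728686939080705)) (.cons (.rf (nat_lit 223) (nat_lit 395265)) .nil))))),
 (.br (nat_lit 1) (nat_lit 0) (.cons (.rf (nat_lit 257) (nat_lit 191797988318873601)) (.cons (.rf (nat_lit 257) (nat_lit 119739161626445825)) (.cons (.br (nat_lit 2) (nat_lit 0) (.cons (.rf (nat_lit 258) (nat_lit 407901468851536960)) (.cons (.rf (nat_lit 258) (nat_lit 335911943538902080)) (.cons (.rf (nat_lit 258) (nat_lit 191515383830970433)) (.cons (.rf (nat_lit 258) (nat_lit 191513218028765249)) (.cons (.rf (nat_lit 223) (nat_lit 394242)) .nil)))))) (.cons (.rf (nat_lit 223) (nat_lit 395265)) .nil))))),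
 (.br (nat_lit 1) (nat_lit 0) (.cons (.rf (nat_lit 258) (nat_lit 407901468851537952)) (.cons (.rf (nat_lit 258) (nat_lit 335911943538903072)) (.cons (.rf (nat_lit 259) (nat_lit 407901468851537952)) (.cons (.rf (nat_lit 259) (nat_lit 335913176260511776)) (.cons (.rf (nat_lit 223) (nat_lit 395265)) .nil)))))),
 (.br (nat_lit 2) (nat_lit 0) (.cons (.rf (nat_lit 257) (nat_lit 119739161626444802)) (.cons (.ev (nat_lit 309499232333085691850391552) (nat_lit 2)) (.cons (.rf (nat_lit 257) (nat_lit 119739161626456066)) .nil)))),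
 (.br (nat_lit 1) (nat_lit 0) (.cons (.rf (nat_lit 257) (nat_lit 191797988318873601)) (.cons (.br (nat_lit 2) (nat_lit 0) (.cons (.rf (nat_lit 261) (nat_lit 407901468851537952)) (.cons (.rf (nat_lit 261) (nat_lit 335913176260511776)) (.cons (.rf (nat_lit 230) (nat_lit 424435353632)) .nil)))) (.cons (.rf (nat_lit 257) (nat_lit 191797988318883841)) .nil)))),
 (.br (nat_lit 1) (nat_lit 0) (.cons (.rf (nat_lit 260) (nat_lit 407901468851537952)) (.cons (.rf (nat_lit 262) (nat_lit 407901468851537952)) (.cons (.rf (nat_lit 262) (nat_lit 335913176260511776)) (.cons (.br (nat_lit 1) (nat_lit 0) (.cons (.rf (nat_lit 223) (nat_lit 395265)) (.cons (.rf (nat_lit 257) (nat_lit 191797988318883841)) (.cons (.rf (nat_lit 257) (nat_lit 191728686939090945)) (.cons (.rf (nat_lit 223) (nat_lit 438273)) .nil))))) .nil))))),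
 (.br (nat_lit 12) (nat_lit 0) (.cons (.ev (nat_lit 79229376162450435096675680513) (nat_lit 1)) (.cons (.rf (nat_lit 223) (nat_lit 428076)) .nil))),
 (.br (nat_lit 1) (nat_lit 0) (.cons (.br (nat_lit 12) (nat_lit 0) (.cons (.rf (nat_lit 264) (nat_lit 14242959524133701664)) (.cons (.rf (nat_lit 264) (nat_lit 14170971231542675488)) (.cons (.rf (nat_lit 223) (nat_lit 428076)) .nil)))) (.cons (.rf (nat_lit 257) (nat_lit 191797988318883841)) (.cons (.rf (nat_lit 257) (nat_lit 191728686939090945)) (.cons (.rf (nat_lit 223) (nat_lit 438273)) .nil))))),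
 (.br (nat_lit 1) (nat_lit 0) (.cons (.rf (nat_lit 257) (nat_lit 191797988318873601)) (.cons (.kr (nat_lit 2417851639229258349412864) (nat_lit 18446745177532923904) (nat_lit 1) (nat_lit 0)) (.cons (.ev (nat_lit 309499176921075165555589632) (nat_lit 2)) (.cons (.rf (nat_lit 257) (nat_lit 191797988318883841)) .nil))))),
 (.br (nat_lit 1) (nat_lit 0) (.cons (.rf (nat_lit 266) (nat_lit 407901468851537952)) (.cons (.rf (nat_lit 266) (nat_lit 335913176260511776)) (.cons (.rf (nat_lit 265) (nat_lit 14242959524133701664)) (.cons (.br (nat_lit 1) (nat_lit 0) (.cons (.rf (nat_lit 257) (nat_lit 191797988318884865)) (.cons (.rf (nat_lit 257) (nat_lit 191728686939091969)) (.cons (.rf (nat_lit 223) (nat_lit 438273)) .nil)))) .nil))))),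
 (.br (nat_lit 7) (nat_lit 0) (.cons (.br (nat_lit 7) (nat_lit 0) .nil) .nil)),
 (.br (nat_lit 1) (nat_lit 0) (.cons (.ev (nat_lit 311917028560586985525280771) (nat_lit 2)) (.cons (.rf (nat_lit 264) (nat_lit 14242959524133701664)) (.cons (.br (nat_lit 13) (nat_lit 0) (.cons (.rf (nat_lit 268) (nat_lit 14718086514720)) (.cons (.br (nat_lit 13) (nat_lit 0) (.cons (.rf (nat_lit 268) (nat_lit 14718086514720)) .nil)) .nil))) .nil)))),
 (.br (nat_lit 1) (nat_lit 0) (.cons (.rf (nat_lit 269) (nat_lit 14242959524133701664)) (.cons (.rf (nat_lit 266) (nat_lit 335913176260511776)) (.cons (.rf (nat_lit 265) (nat_lit 14242959524133701664)) (.cons (.br (nat_lit 1) (nat_lit 0) (.cons (.rf (nat_lit 269) (nat_lit 14242959524133701664)) (.cons (.rf (nat_lit 257) (nat_lit 191728686939091969)) (.cons (.rf (nat_lit 223) (nat_lit 438273)) .nil)))) .nil))))),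
 (.br (nat_lit 2) (nat_lit 0) (.cons (.rf (nat_lit 260) (nat_lit 407901468851537952)) (.cons (.rf (nat_lit 263) (nat_lit 407901468851537952)) (.cons (.br (nat_lit 12) (nat_lit 0) (.cons (.rf (nat_lit 265) (nat_lit 14242959524133701664)) (.cons (.rf (nat_lit 267) (nat_lit 14242959524133701664)) (.cons (.rf (nat_lit 270) (nat_lit 14242959524133701664)) (.cons (.rf (nat_lit 270) (nat_lit 14170971231542675488)) (.cons (.br (nat_lit 12) (nat_lit 0) (.cons (.rf (nat_lit 223) (nat_lit 428076)) (.cons (.rf (nat_lit 267) (nat_lit 14242959524133701664)) (.cons (.rf (nat_lit 270) (nat_lit 14242959524133701664)) (.cons (.rf (nat_lit 270) (nat_lit 14170971231542675488)) .nil))))) .nil)))))) .nil))))]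

theorem c7 : chkAll C T R L7 (nat_lit 241) = true := by decide +kernel

theorem l7 : (nat_lit 241) + L7.length = (nat_lit 272) := by decide +kernel

/-- part of the certificates -/
def L8 : List Prf := [(.br (nat_lit 2) (nat_lit 0) (.cons (.rf (nat_lit 260) (nat_lit 407901468851537952)) (.cons (.rf (nat_lit 263) (nat_lit 407901468851537952)) (.cons (.rf (nat_lit 271) (nat_lit 407901468851537952)) (.cons (.br (nat_lit 2) (nat_lit 0) (.cons (.rf (nat_lit 223) (nat_lit 394242)) (.cons (.rf (nat_lit 257) (nat_lit 119739161626456066)) (.cons (.rf (nat_lit 271) (nat_lit 407901468851537952)) (.cons (.rf (nat_lit 223) (nat_lit 438274)) .nil))))) .nil))))),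
 (.br (nat_lit 2) (nat_lit 0) (.cons (.rf (nat_lit 260) (nat_lit 407901468851537952)) (.cons (.rf (nat_lit 263) (nat_lit 407901468851537952)) (.cons (.rf (nat_lit 272) (nat_lit 407901468851537952)) (.cons (.rf (nat_lit 272) (nat_lit 335913176260511776)) (.cons (.br (nat_lit 2) (nat_lit 0) (.cons (.rf (nat_lit 223) (nat_lit 394242)) (.cons (.rf (nat_lit 263) (nat_lit 407901468851537952)) (.cons (.rf (nat_lit 272) (nat_lit 407901468851537952)) (.cons (.rf (nat_lit 272) (nat_lit 335913176260511776)) (.cons (.rf (nat_lit 223) (nat_lit 438274)) .nil)))))) .nil)))))),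
 (.br (nat_lit 12) (nat_lit 0) (.cons (.ev (nat_lit 79538856449905578766436991233) (nat_lit 1)) (.cons (.rf (nat_lit 223) (nat_lit 428076)) .nil))),
 (.br (nat_lit 13) (nat_lit 0) (.cons (.zr (nat_lit 309489732188956054513516544) (nat_lit 7253573436489442795848192) (nat_lit 10) (nat_lit 3)) (.cons (.br (nat_lit 13) (nat_lit 0) (.cons (.zr (nat_lit 309489732188956054513516544) (nat_lit 7253573436489442795848192) (nat_lit 10) (nat_lit 3)) .nil)) .nil))),
 (.br (nat_lit 2) (nat_lit 0) (.cons (.rf (nat_lit 223) (nat_lit 394242)) (.cons (.rf (nat_lit 257) (nat_lit 191797988318883842)) (.cons (.rf (nat_lit 257) (nat_lit 119739161626456066)) (.cons (.br (nat_lit 1) (nat_lit 0) (.cons (.ev (nat_lit 309499176921075165555589632) (nat_lit 2)) (.cons (.ev (nat_lit 309499232333085691850260992) (nat_lit 2)) (.cons (.br (nat_lit 12) (nat_lit 0) (.cons (.rf (nat_lit 274) (nat_lit 14242959524133701664)) (.cons (.rf (nat_lit 274) (nat_lit 14242955092738344992)) (.cons (.rf (nat_lit 223) (nat_lit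 428076)) .nil)))) (.cons (.br (nat_lit 13) (nat_lit 0) (.cons (.rf (nat_lit 275) (nat_lit 458117738797769787424)) (.cons (.rf (nat_lit 275) (nat_lit 458117734366374430752)) (.cons (.br (nat_lit 13) (nat_lit 0) (.cons (.rf (nat_lit 275) (nat_lit 458117738797769787424)) (.cons (.rf (nat_lit 275) (nat_lit 458117734366374430752)) .nil))) .nil)))) .nil))))) (.cons (.rf (nat_lit 223) (nat_lit 438274)) .nil)))))),
 (.br (nat_lit 2) (nat_lit 0) (.cons (.rf (nat_lit 273) (nat_lit 407901468851536960)) (.cons (.rf (nat_lit 273) (nat_lit 335911943538902080)) (.cons (.rf (nat_lit 276) (nat_lit 14242959524133700672)) (.cons (.rf (nat_lit 276) (nat_lit 14242959524133701664)) (.cons (.rf (nat_lit 276) (nat_lit 15395881028740548640)) .nil)))))),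
 (.br (nat_lit 1) (nat_lit 0) (.cons (.rf (nat_lit 260) (nat_lit 407901468851537952)) (.cons (.rf (nat_lit 273) (nat_lit 407901468851537952)) (.cons (.rf (nat_lit 273) (nat_lit 335911943538903072)) (.cons (.br (nat_lit 2) (nat_lit 0) (.cons (.rf (nat_lit 273) (nat_lit 407901468851536960)) (.cons (.rf (nat_lit 273) (nat_lit 335911943538902080)) (.cons (.rf (nat_lit 277) (nat_lit 14242959524133701664)) (.cons (.rf (nat_lit 277) (nat_lit 14170971231542675488)) (.cons (.br (nat_lit 2) (nat_lit 0) (.cons (.rf (nat_lit 273) (nat_lit 407901468851536960)) (.cons (.rf (nat_lit 273) (nat_lit 335911943538902080)) (.cons (.rf (nat_lit 276) (nat_lit 14242959524133701664)) (.cons (.rf (nat_lit 276) (nat_lit 14170971231542675488)) (.cons (.rf (nat_lit 223) (nat_lit 438274)) .nil)))))) (.cons (.br (nat_lit 2) (nat_lit 0) (.cons (.rf (nat_lit 273) (nat_lit 407901468851536960)) (.cons (.rf (nat_lit 273) (nat_lit 335911943538902080)) (.cons (.rf (nat_lit 276) (nat_lit 15395881028740548640)) (.cons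 (.rf (nat_lit 276) (nat_lit 15323892736149522464)) (.cons (.rf (nat_lit 223) (nat_lit 438274)) .nil)))))) .nil))))))) .nil))))),
 (.br (nat_lit 1) (nat_lit 0) (.cons (.rf (nat_lit 260) (nat_lit 407901468851537952)) (.cons (.rf (nat_lit 273) (nat_lit 407901468851537952)) (.cons (.rf (nat_lit 273) (nat_lit 335911943538903072)) (.cons (.rf (nat_lit 278) (nat_lit 407901468851537952)) (.cons (.br (nat_lit 1) (nat_lit 0) (.cons (.rf (nat_lit 223) (nat_lit 395265)) (.cons (.rf (nat_lit 257) (nat_lit 191797988318883841)) (.cons (.rf (nat_lit 257) (nat_lit 119739161626456065)) (.cons (.rf (nat_lit 278) (nat_lit 407901468851537952)) (.cons (.rf (nat_lit 223) (nat_lit 438273)) .nil)))))) .nil)))))),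
 (.br (nat_lit 10) (nat_lit 1) (.cons (.br (nat_lit 5) (nat_lit 1) (.cons (.rf (nat_lit 257) (nat_lit 407901468851537952)) (.cons (.br (nat_lit 6) (nat_lit 0) (.cons (.br (nat_lit 1) (nat_lit 0) (.cons (.rf (nat_lit 260) (nat_lit 407901468851537952)) (.cons (.rf (nat_lit 273) (nat_lit 407901468851537952)) (.cons (.rf (nat_lit 273) (nat_lit 335911943538903072)) (.cons (.rf (nat_lit 279) (nat_lit 407901468851537952)) (.cons (.rf (nat_lit 279) (nat_lit 335913176260511776)) (.cons (.br (nat_lit 1) (nat_lit 0) (.cons (.rf (nat_lit 223) (nat_lit 395265)) (.cons (.rf (nat_lit 273) (nat_lit 407901468851537952)) (.cons (.rf (nat_lit 273) (nat_lit 335911943538903072)) (.cons (.rf (nat_lit 279) (nat_lit 407901468851537952)) (.cons (.rf (nat_lit 279) (nat_lit 335913176260511776)) (.cons (.rf (nat_lit 223) (nat_lit 438273)) .nil))))))) .nil))))))) .nil)) .nil))) .nil)),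
 (.br (nat_lit 7) (nat_lit 0) (.cons (.br (nat_lit 10) (nat_lit 1) (.cons (.rf (nat_lit 280) (nat_lit 407901468851537952)) (.cons (.br (nat_lit 10) (nat_lit 1) (.cons (.rf (nat_lit 280) (nat_lit 407901468851537952)) .nil)) .nil))) .nil)),
 (.br (nat_lit 4) (nat_lit 0) (.cons (.rf (nat_lit 64) (nat_lit 7301)) (.cons (.rf (nat_lit 4) (nat_lit 337027)) (.cons (.br (nat_lit 9) (nat_lit 1) (.cons (.rf (nat_lit 87) (nat_lit 10912736387)) (.cons (.rf (nat_lit 64) (nat_lit 7305)) (.cons (.br (nat_lit 7) (nat_lit 0) (.cons (.rf (nat_lit 281) (nat_lit 11584701642934304)) (.cons (.br (nat_lit 7) (nat_lit 0) (.cons (.rf (nat_lit 281) (nat_lit 11584701642934304)) .nil)) .nil))) .nil)))) .nil)))),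
 (.br (nat_lit 4) (nat_lit 0) (.cons (.rf (nat_lit 64) (nat_lit 7301)) (.cons (.rf (nat_lit 282) (nat_lit 325702574508064)) (.cons (.br (nat_lit 4) (nat_lit 0) (.cons (.rf (nat_lit 64) (nat_lit 7301)) (.cons (.rf (nat_lit 282) (nat_lit 360886946596896)) .nil))) .nil)))),
 (.br (nat_lit 4) (nat_lit 0) (.cons (.rf (nat_lit 64) (nat_lit 7305)) (.cons (.rf (nat_lit 4) (nat_lit 332931)) (.cons (.br (nat_lit 5) (nat_lit 1) (.cons (.rf (nat_lit 87) (nat_lit 11046950019)) (.cons (.rf (nat_lit 64) (nat_lit 7301)) (.cons (.rf (nat_lit 283) (nat_lit 7975928432672)) .nil)))) .nil)))),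
 (.br (nat_lit 5) (nat_lit 1) (.cons (.rf (nat_lit 284) (nat_lit 325702574508064)) (.cons (.br (nat_lit 5) (nat_lit 1) (.cons (.rf (nat_lit 284) (nat_lit 325702574508064)) (.cons (.rf (nat_lit 283) (nat_lit 9043225708576)) (.cons (.rf (nat_lit 64) (nat_lit 8389)) .nil)))) (.cons (.rf (nat_lit 283) (nat_lit 9043225708576)) (.cons (.rf (nat_lit 283) (nat_lit 7975928432672)) .nil))))),
 (.br (nat_lit 0) (nat_lit 0) (.cons (.rf (nat_lit 223) (nat_lit 100384)) (.cons (.br (nat_lit 3) (nat_lit 1) (.cons (.br (nat_lit 0) (nat_lit 0) (.cons (.rf (nat_lit 223) (nat_lit 165920)) (.cons (.br (nat_lit 3) (nat_lit 1) (.cons (.br (nat_lit 4) (nat_lit 1) (.cons (.rf (nat_lit 64) (nat_lit 6275)) (.cons (.br (nat_lit 6) (nat_lit 1) (.cons (.br (nat_lit 7) (nat_lit 0) (.cons (.rf (nat_lit 283) (nat_lit 9043225708576)) (.cons (.rf (nat_lit 285) (nat_lit 325702574508064)) (.cons (.br (nat_lit 7) (nat_lit 0) (.cons (.rf (nat_lit 283) (nat_lit 9043225708576)) (.cons (.rf (nat_lit 285) (nat_lit 360886946596896))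 .nil))) .nil)))) .nil)) .nil))) .nil)) .nil))) .nil)) .nil))),
 (.br (nat_lit 8) (nat_lit 1) (.cons (.ev (nat_lit 18446745173238022144) (nat_lit 1)) .nil)),
 (.br (nat_lit 8) (nat_lit 1) (.cons (.rf (nat_lit 287) (nat_lit 9043225708576)) (.cons (.rf (nat_lit 287) (nat_lit 9041080290336)) .nil))),
 (.br (nat_lit 9) (nat_lit 1) (.cons (.zr (nat_lit 4722366483969156841475) (nat_lit 16843264) (nat_lit 5) (nat_lit 5)) .nil)),
 (.br (nat_lit 4) (nat_lit 0) (.cons (.rf (nat_lit 4) (nat_lit 300162)) (.cons (.br (nat_lit 5) (nat_lit 1) (.cons (.rf (nat_lit 87) (nat_lit 10845623426)) (.cons (.rf (nat_lit 64) (nat_lit 7301)) (.cons (.br (nat_lit 8) (nat_lit 0) (.cons (.rf (nat_lit 4) (nat_lit 300291)) (.cons (.br (nat_lit 6) (nat_lit 0) (.cons (.rf (nat_lit 289) (nat_lit 11584701642934304)) (.cons (.br (nat_lit 7) (nat_lit 0) (.cons (.rf (nat_lit 289) (nat_lit 11580270314589216)) (.cons (.kr (nat_lit 2417851639229258349412354) (nat_lit 18446744078021361664) (nat_lit 0) (nat_lit 1)) .nil)))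 .nil))) .nil))) .nil)))) .nil))),
 (.br (nat_lit 3) (nat_lit 1) (.cons (.rf (nat_lit 64) (nat_lit 7299)) (.cons (.br (nat_lit 6) (nat_lit 0) (.cons (.rf (nat_lit 4) (nat_lit 167106)) (.cons (.rf (nat_lit 4) (nat_lit 298178)) (.cons (.br (nat_lit 8) (nat_lit 0) (.cons (.br (nat_lit 8) (nat_lit 0) (.cons (.br (nat_lit 8) (nat_lit 0) (.cons (.rf (nat_lit 288) (nat_lit 11277715998752)) .nil)) (.cons (.rf (nat_lit 288) (nat_lit 11277715998752)) .nil))) (.cons (.br (nat_lit 8) (nat_lit 0) (.cons (.br (nat_lit 8) (nat_lit 0) (.cons (.rf (nat_lit 288) (nat_lit 11277715998752)) .nil)) (.cons (.rf (nat_lit 288) (nat_lit 11277715998752)) .nil))) (.cons (.rf (nat_lit 288) (nat_lit 11277715998752)) .nil)))) .nil)))) (.cons (.br (nat_lit 5) (nat_lit 1) (.cons (.rf (nat_lit 290) (nat_lit 325702574508064)) (.cons (.rf (nat_lit 290) (nat_lit 324635277232160)) (.cons (.rf (nat_lit 290) (nat_lit 323402622635040)) (.cons (.rf (nat_lit 290) (nat_lit 321271246162976)) .nil))))) .nil)))),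
 (.br (nat_lit 2) (nat_lit 0) (.cons (.rf (nat_lit 4) (nat_lit 99392)) (.cons (.rf (nat_lit 4) (nat_lit 197696)) (.cons (.rf (nat_lit 87) (nat_lit 6548489280)) .nil)))),
 (.br (nat_lit 3) (nat_lit 1) (.cons (.br (nat_lit 3) (nat_lit 1) (.cons (.rf (nat_lit 292) (nat_lit 241340514)) (.cons (.rf (nat_lit 64) (nat_lit 7299)) (.cons (.rf (nat_lit 291) (nat_lit 324635277232160)) .nil)))) (.cons (.br (nat_lit 3) (nat_lit 1) (.cons (.rf (nat_lit 292) (nat_lit 241340514)) (.cons (.rf (nat_lit 291) (nat_lit 325702574508064)) (.cons (.rf (nat_lit 64) (nat_lit 8387)) .nil)))) (.cons (.rf (nat_lit 291) (nat_lit 325702574508064)) (.cons (.rf (nat_lit 291) (nat_lit 324635277232160)) .nil))))),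
 (.br (nat_lit 7) (nat_lit 0) (.cons (.rf (nat_lit 286) (nat_lit 6151)) (.cons (.rf (nat_lit 286) (nat_lit 6183)) (.cons (.rf (nat_lit 286) (nat_lit 8391)) .nil)))),
 (.br (nat_lit 1) (nat_lit 0) (.cons (.kr (nat_lit 1) (nat_lit 256) (nat_lit 0) (nat_lit 2)) (.cons (.rf (nat_lit 286) (nat_lit 9217)) (.cons (.br (nat_lit 5) (nat_lit 0) (.cons (.br (nat_lit 7) (nat_lit 0) (.cons (.rf (nat_lit 291) (nat_lit 325702574508064)) (.cons (.rf (nat_lit 293) (nat_lit 325702574508064)) (.cons (.rf (nat_lit 293) (nat_lit 184965220370433)) (.cons (.br (nat_lit 7) (nat_lit 0) (.cons (.rf (nat_lit 291) (nat_lit 325702574508064)) (.cons (.rf (nat_lit 293) (nat_lit 325702574508064)) (.cons (.rf (nat_lit 293) (nat_lit 184965220370433)) .nil)))) .nil))))) (.cons (.br (nat_lit 10) (nat_lit 0) (.cons (.br (nat_lit 10) (nat_lit 0) (.cons (.rf (nat_lit 294) (nat_lit 389001873440)) .nil)) (.cons (.br (nat_lit 10) (nat_lit 0) (.cons (.rf (nat_lit 294) (nat_lit 389001873440)) (.cons (.rf (nat_lit 286)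 (nat_lit 12650)) .nil))) .nil))) .nil))) .nil)))),
 (.br (nat_lit 1) (nat_lit 0) (.cons (.rf (nat_lit 295) (nat_lit 9043225708576)) (.cons (.rf (nat_lit 295) (nat_lit 9043158665248)) (.cons (.rf (nat_lit 286) (nat_lit 9217)) (.cons (.br (nat_lit 1) (nat_lit 0) (.cons (.rf (nat_lit 295) (nat_lit 9043225708576)) (.cons (.rf (nat_lit 295) (nat_lit 9043158665248)) (.cons (.rf (nat_lit 286) (nat_lit 10241)) .nil)))) .nil))))),
 (.br (nat_lit 3) (nat_lit 1) (.cons (.rf (nat_lit 64) (nat_lit 7299)) (.cons (.rf (nat_lit 296) (nat_lit 4680614743072)) (.cons (.rf (nat_lit 296) (nat_lit 6743273835552)) .nil)))),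
 (.br (nat_lit 1) (nat_lit 0) (.cons (.rf (nat_lit 286) (nat_lit 8193)) (.cons (.br (nat_lit 2) (nat_lit 1) (.cons (.rf (nat_lit 297) (nat_lit 7805304115201)) (.cons (.rf (nat_lit 297) (nat_lit 6772365529089)) (.cons (.rf (nat_lit 297) (nat_lit 7908380184577)) (.cons (.rf (nat_lit 297) (nat_lit 6841082908673)) .nil))))) .nil))),
 (.br (nat_lit 0) (nat_lit 0) (.cons (.rf (nat_lit 286) (nat_lit 2080)) (.cons (.br (nat_lit 0) (nat_lit 0) (.cons (.rf (nat_lit 286) (nat_lit 3104)) (.cons (.br (nat_lit 2) (nat_lit 1) (.cons (.br (nat_lit 0) (nat_lit 0) (.cons (.rf (nat_lit 286) (nat_lit 5152)) (.cons (.br (nat_lit 2) (nat_lit 1) (.cons (.br (nat_lit 4) (nat_lit 1) (.cons (.rf (nat_lit 64) (nat_lit 6274)) (.cons (.br (nat_lit 6) (nat_lit 1) (.cons (.br (nat_lit 1) (nat_lit 0) (.cons (.rf (nat_lit 298) (nat_lit 282598705153)) (.cons (.rf (nat_lit 298) (nat_lit 282597657601)) (.cons (.rf (nat_lit 298) (nat_lit 282597659649)) (.cons (.rf (nat_lit 286) (nat_lit 9217)) (.cons (.br (nat_lit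 1) (nat_lit 0) (.cons (.rf (nat_lit 298) (nat_lit 282598705153)) (.cons (.rf (nat_lit 298) (nat_lit 282597657601)) (.cons (.rf (nat_lit 298) (nat_lit 282597659649)) (.cons (.rf (nat_lit 286) (nat_lit 10241)) .nil))))) .nil)))))) .nil)) .nil))) .nil)) .nil))) .nil)) .nil))) .nil))),
 (.br (nat_lit 3) (nat_lit 0) (.cons (.kr (nat_lit 1099511628032) (nat_lit 16842752) (nat_lit 1) (nat_lit 0)) (.cons (.br (nat_lit 10) (nat_lit 0) (.cons (.ev (nat_lit 4740813228042883170304) (nat_lit 1)) (.cons (.rf (nat_lit 299) (nat_lit 362)) .nil))) .nil))),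
 (.br (nat_lit 5) (nat_lit 1) (.cons (.br (nat_lit 1) (nat_lit 0) (.cons (.rf (nat_lit 300) (nat_lit 325702574508064)) (.cons (.rf (nat_lit 300) (nat_lit 324635277200416)) (.cons (.br (nat_lit 2) (nat_lit 0) (.cons (.ev (nat_lit 18889611173691962623232) (nat_lit 3)) (.cons (.br (nat_lit 10) (nat_lit 0) (.cons (.ev (nat_lit 281487912010242) (nat_lit 2)) (.cons (.rf (nat_lit 299) (nat_lit 362)) .nil))) .nil))) (.cons (.br (nat_lit 10) (nat_lit 0) (.cons (.ev (nat_lit 4740885284541687726336) (nat_lit 1)) (.cons (.ev (nat_lit 4740885566012386181376) (nat_lit 1)) (.cons (.br (nat_lit 10) (nat_lit 0) (.cons (.ev (nat_lit 4740885284541687726336) (nat_lit 1)) (.cons (.ev (nat_lit 4740885566012386181376) (nat_lit 1)) (.cons (.rf (nat_lit 299) (nat_lit 362)) .nil)))) (.cons (.rf (nat_lit 299) (nat_lit 362)) .nil))))) .nil))))) .nil)),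
 (.br (nat_lit 9) (nat_lit 1) (.cons (.br (nat_lit 3) (nat_lit 1) (.cons (.rf (nat_lit 301) (nat_lit 325702574508064)) (.cons (.rf (nat_lit 301) (nat_lit 325599498437696)) .nil))) .nil)),
 (.br (nat_lit 8) (nat_lit 0) (.cons (.br (nat_lit 9) (nat_lit 1) (.cons (.rf (nat_lit 302) (nat_lit 325702574508064)) (.cons (.rf (nat_lit 302) (nat_lit 325599498437696)) .nil))) .nil)),
 (.br (nat_lit 8) (nat_lit 0) (.cons (.rf (nat_lit 303) (nat_lit 325702574508064)) (.cons (.br (nat_lit 8) (nat_lit 0) (.cons (.rf (nat_lit 303) (nat_lit 325702574508064)) .nil)) .nil))),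
 (.br (nat_lit 6) (nat_lit 0) (.cons (.rf (nat_lit 4) (nat_lit 100545)) (.cons (.rf (nat_lit 4) (nat_lit 166081)) (.cons (.br (nat_lit 8) (nat_lit 0) (.cons (.rf (nat_lit 304) (nat_lit 325702574508064)) (.cons (.rf (nat_lit 304) (nat_lit 325702507464736)) (.cons (.br (nat_lit 8) (nat_lit 0) (.cons (.rf (nat_lit 304) (nat_lit 325702574508064)) (.cons (.rf (nat_lit 304) (nat_lit 325702507464736)) .nil))) .nil)))) .nil)))),
 (.br (nat_lit 3) (nat_lit 1) (.cons (.rf (nat_lit 292) (nat_lit 241242209)) (.cons (.rf (nat_lit 64) (nat_lit 7299)) (.cons (.rf (nat_lit 305) (nat_lit 7975928400928)) .nil)))),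
 (.br (nat_lit 2) (nat_lit 1) (.cons (.rf (nat_lit 64) (nat_lit 7298)) (.cons (.rf (nat_lit 305) (nat_lit 9043225708576)) (.cons (.br (nat_lit 3) (nat_lit 1) (.cons (.rf (nat_lit 306) (nat_lit 9043225708576)) (.cons (.rf (nat_lit 306) (nat_lit 7975928432672)) (.cons (.rf (nat_lit 306) (nat_lit 6743273866304)) (.cons (.rf (nat_lit 306) (nat_lit 4611897394240)) .nil))))) .nil)))),
 (.br (nat_lit 0) (nat_lit 0) (.cons (.rf (nat_lit 299) (nat_lit 32)) (.cons (.br (nat_lit 0) (nat_lit 0) (.cons (.rf (nat_lit 299) (nat_lit 64)) (.cons (.br (nat_lit 0) (nat_lit 0) (.cons (.rf (nat_lit 299) (nat_lit 96)) (.cons (.br (nat_lit 1) (nat_lit 1) (.cons (.br (nat_lit 0) (nat_lit 0) (.cons (.rf (nat_lit 299) (nat_lit 160)) (.cons (.br (nat_lit 1) (nat_lit 1) (.cons (.br (nat_lit 4) (nat_lit 1) (.cons (.rf (nat_lit 64) (nat_lit 6273)) (.cons (.br (nat_lit 6) (nat_lit 1) (.cons (.br (nat_lit 7) (nat_lit 0) (.cons (.rf (nat_lit 307) (nat_lit 9043225708576)) (.cons (.rf (nat_lit 307) (nat_lit 9043225676832))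 (.cons (.rf (nat_lit 307) (nat_lit 9043158570016)) (.cons (.br (nat_lit 7) (nat_lit 0) (.cons (.rf (nat_lit 307) (nat_lit 9043225708576)) (.cons (.rf (nat_lit 307) (nat_lit 9043225676832)) (.cons (.rf (nat_lit 307) (nat_lit 9043158570016)) .nil)))) .nil))))) .nil)) .nil))) .nil)) .nil))) .nil)) .nil))) .nil))) .nil)))]

theorem c8 : chkAll C T R L8 (nat_lit 272) = true := by decide +kernel

theorem l8 : (nat_lit 272) + L8.length = (nat_lit 309) := by decide +kernel

end Pool.Agent.H93.Neg.Q14_4_0_5_4_1
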