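import Pool.Agent.H93.Neg.TabQ14_6_0_0_7_1

/-!
Certificates.
-/

set_option autoImplicit false
set_option maxRecDepth 100000
set_option linter.all false

namespace Pool.Agent.H93.Neg.Q14_6_0_0_7_1

/-- part of the certificates -/
def L89 : List Prf := [(.br (nat_lit 13) (nat_lit 0) (.cons (.rf (nat_lit 2526) (nat_lit 458009550155351722016)) (.cons (.rf (nat_lit 2536) (nat_lit 493858305440582043680)) (.cons (.rf (nat_lit 2552) (nat_lit 493858305440582043680)) (.cons (.br (nat_lit 13) (nat_lit 0) (.cons (.rf (nat_lit 2526) (nat_lit 458009550155351722016)) (.cons (.rf (nat_lit 2536) (nat_lit 493858305440582043680)) (.cons (.rf (nat_lit 2545) (nat_lit 493858305440582043680)) (.cons (.rf (nat_lit 2555) (nat_lit 493858305440582043680)) .nil))))) (.cons (.br (nat_lit 13) (nat_lit 0) (.cons (.rf (nat_lit 2526) (nat_lit 458009550155351722016)) (.cons (.rf (nat_lit 2535) (nat_lit 493858305440582043680)) (.cons (.rf (nat_lit 2551) (nat_lit 493858305440582043680)) (.cons (.rf (nat_lit 2555) (nat_lit 493858305440582043680))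 .nil))))) .nil)))))),
 (.br (nat_lit 4) (nat_lit 1) (.cons (.rf (nat_lit 2108) (nat_lit 299712826433472544)) (.cons (.rf (nat_lit 2508) (nat_lit 299712826433471552)) (.cons (.rf (nat_lit 2508) (nat_lit 299712757781103680)) .nil)))),
 (.br (nat_lit 12) (nat_lit 0) (.cons (.rf (nat_lit 2545) (nat_lit 457935134111020910624)) (.cons (.rf (nat_lit 2545) (nat_lit 493857210323783845920)) (.cons (.rf (nat_lit 2535) (nat_lit 457822648573945514016)) (.cons (.br (nat_lit 4) (nat_lit 1) (.cons (.rf (nat_lit 2557) (nat_lit 493858305440582042688)) (.cons (.rf (nat_lit 2557) (nat_lit 493858305440582043680)) (.cons (.rf (nat_lit 2557) (nat_lit 493858305268649137376)) (.cons (.rf (nat_lit 2557) (nat_lit 493858305268649139360)) .nil))))) (.cons (.rf (nat_lit 2514) (nat_lit 493565395547242989600)) .nil)))))),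
 (.br (nat_lit 12) (nat_lit 0) (.cons (.rf (nat_lit 2555) (nat_lit 493820093010254366752)) (.cons (.rf (nat_lit 2545) (nat_lit 493857210323783845920)) (.cons (.rf (nat_lit 2558) (nat_lit 493858305440582043680)) (.cons (.br (nat_lit 12) (nat_lit 0) (.cons (.rf (nat_lit 2555) (nat_lit 493820093010254366752)) (.cons (.rf (nat_lit 2545) (nat_lit 457864203515329775648)) (.cons (.rf (nat_lit 2535) (nat_lit 457822648573945514016)) (.cons (.rf (nat_lit 2535) (nat_lit 458038990675483297824)) (.cons (.rf (nat_lit 2514) (nat_lit 493565395547242989600)) .nil)))))) (.cons (.br (nat_lit 8) (nat_lit 1) (.cons (.rf (nat_lit 2556) (nat_lit 458038990675483297824)) (.cons (.rf (nat_lit 2556) (nat_lit 458038990675483296832)) (.cons (.rf (nat_lit 2556) (nat_lit 458038990503550393504)) (.cons (.rf (nat_lit 2556) (nat_lit 458038990503550391520)) (.cons (.rf (nat_lit 2558) (nat_lit 493858305440582043680)) .nil)))))) (.cons (.rf (nat_lit 2514) (nat_lit 493565395547242989600)) .nil))))))),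
 (.br (nat_lit 13) (nat_lit 0) (.cons (.rf (nat_lit 2523) (nat_lit 493858305440582043680)) (.cons (.rf (nat_lit 2523) (nat_lit 493823368456464074784)) (.cons (.rf (nat_lit 2559) (nat_lit 493858305440582043680)) (.cons (.rf (nat_lit 2559) (nat_lit 493823368456464074784)) .nil))))),
 (.br (nat_lit 10) (nat_lit 1) (.cons (.rf (nat_lit 2556) (nat_lit 457822648573945514016)) (.cons (.rf (nat_lit 2556) (nat_lit 457822648573945513024)) (.cons (.rf (nat_lit 2556) (nat_lit 457822648402012609696)) (.cons (.rf (nat_lit 2556) (nat_lit 457822648402012607712)) (.cons (.kr (nat_lit 1208925819614629174706176) (nat_lit 20282409603651670423947251286016) (nat_lit 10) (nat_lit 0)) .nil)))))),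
 (.br (nat_lit 13) (nat_lit 0) (.cons (.rf (nat_lit 2556) (nat_lit 493858305440582043680)) (.cons (.rf (nat_lit 2556) (nat_lit 493823368456464074784)) (.cons (.rf (nat_lit 2559) (nat_lit 493858305440582043680)) (.cons (.br (nat_lit 12) (nat_lit 0) (.cons (.br (nat_lit 12) (nat_lit 0) (.cons (.rf (nat_lit 2551) (nat_lit 457864203515329775648)) (.cons (.rf (nat_lit 2555) (nat_lit 457822648573945514016)) (.cons (.rf (nat_lit 2551) (nat_lit 457824828904430733344)) (.cons (.kr (nat_lit 1208925819614629174706176) (nat_lit 20282409603651670423947251286016) (nat_lit 10) (nat_lit 0)) (.cons (.rf (nat_lit 2555) (nat_lit 457857653722420938784)) .nil)))))) (.cons (.rf (nat_lit 2551) (nat_lit 493857210323783845920)) (.cons (.rf (nat_lit 2561) (nat_lit 493858305440582043680)) (.cons (.rf (nat_lit 2551) (nat_lit 493745745134571784224)) (.cons (.kr (nat_lit 1208925819614629174706176) (nat_lit 20282409603651670423947251286016) (nat_lit 10) (nat_lit 0)) (.cons (.rf (nat_lit 2561) (nat_lit 493750116798163978272))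 .nil))))))) .nil))))),
 (.br (nat_lit 13) (nat_lit 0) (.cons (.rf (nat_lit 2556) (nat_lit 493858305440582043680)) (.cons (.rf (nat_lit 2556) (nat_lit 493823368456464074784)) (.cons (.rf (nat_lit 2560) (nat_lit 493858305440582043680)) (.cons (.rf (nat_lit 2562) (nat_lit 493858305440582043680)) (.cons (.br (nat_lit 13) (nat_lit 0) (.cons (.rf (nat_lit 2556) (nat_lit 493858305440582043680)) (.cons (.rf (nat_lit 2556) (nat_lit 493823368456464074784)) (.cons (.rf (nat_lit 2559) (nat_lit 493823368456464074784)) (.cons (.rf (nat_lit 2562) (nat_lit 493858305440582043680)) .nil))))) .nil)))))),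
 (.br (nat_lit 13) (nat_lit 0) (.cons (.rf (nat_lit 2556) (nat_lit 493858305440582043680)) (.cons (.rf (nat_lit 2556) (nat_lit 493823368456464074784)) (.cons (.rf (nat_lit 2563) (nat_lit 493858305440582043680)) (.cons (.rf (nat_lit 2563) (nat_lit 493823368456464074784)) (.cons (.br (nat_lit 13) (nat_lit 0) (.cons (.rf (nat_lit 2556) (nat_lit 493858305440582043680)) (.cons (.rf (nat_lit 2556) (nat_lit 493823368456464074784)) (.cons (.rf (nat_lit 2563) (nat_lit 493858305440582043680)) (.cons (.rf (nat_lit 2563) (nat_lit 493823368456464074784)) .nil))))) .nil)))))),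
 (.br (nat_lit 8) (nat_lit 1) (.cons (.br (nat_lit 4) (nat_lit 1) (.cons (.kr (nat_lit 20282409603651742481541289214208) (nat_lit 79228162514264338693055643648) (nat_lit 1) (nat_lit 0)) .nil)) .nil)),
 (.br (nat_lit 10) (nat_lit 1) (.cons (.rf (nat_lit 795) (nat_lit 15070158876936224)) (.cons (.br (nat_lit 7) (nat_lit 0) (.cons (.rf (nat_lit 2565) (nat_lit 493858305438436657184)) (.cons (.rf (nat_lit 2565) (nat_lit 493858305440582043680)) (.cons (.rf (nat_lit 2565) (nat_lit 493858303243706271776)) .nil)))) .nil))),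
 (.br (nat_lit 7) (nat_lit 0) (.cons (.br (nat_lit 10) (nat_lit 1) (.cons (.kr (nat_lit 20282409603651742481541289214208) (nat_lit 79228162514264338693055643648) (nat_lit 1) (nat_lit 0)) .nil)) (.cons (.br (nat_lit 4) (nat_lit 1) (.cons (.kr (nat_lit 20282409603651742481541289214208) (nat_lit 79228162514264338693055643648) (nat_lit 1) (nat_lit 0)) .nil)) .nil))),
 (.br (nat_lit 4) (nat_lit 1) (.cons (.rf (nat_lit 2567) (nat_lit 493858303239415498784)) (.cons (.kr (nat_lit 20282409603651670423947251286272) (nat_lit 1099528404992) (nat_lit 1) (nat_lit 0)) .nil))),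
 (.br (nat_lit 11) (nat_lit 1) (.cons (.rf (nat_lit 2566) (nat_lit 493858305440582043680)) (.cons (.br (nat_lit 6) (nat_lit 1) (.cons (.br (nat_lit 8) (nat_lit 1) (.cons (.kr (nat_lit 18446745173221179392) (nat_lit 309485009893402662762708992) (nat_lit 5) (nat_lit 0)) (.cons (.rf (nat_lit 2567) (nat_lit 493858305440582043680)) .nil))) (.cons (.rf (nat_lit 2568) (nat_lit 493858305440582043680)) .nil))) .nil))),
 (.br (nat_lit 7) (nat_lit 0) (.cons (.kr (nat_lit 20361637766165934761540795302144) (nat_lit 72058693583110144) (nat_lit 1) (nat_lit 0)) .nil)),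
 (.br (nat_lit 7) (nat_lit 0) (.cons (.kr (nat_lit 20361637766165934761540795302144) (nat_lit 72058693583110144) (nat_lit 1) (nat_lit 0)) .nil)),
 (.br (nat_lit 11) (nat_lit 1) (.cons (.rf (nat_lit 2566) (nat_lit 493858305440582043680)) (.cons (.br (nat_lit 6) (nat_lit 1) (.cons (.br (nat_lit 8) (nat_lit 1) (.cons (.ev (nat_lit 18447025548686327809) (nat_lit 1)) (.cons (.br (nat_lit 7) (nat_lit 0) (.cons (.br (nat_lit 13) (nat_lit 0) (.cons (.ev (nat_lit 1213648186380077603291393) (nat_lit 1)) .nil)) (.cons (.br (nat_lit 4) (nat_lit 1) (.cons (.ev (nat_lit 1213648186380077603291393) (nat_lit 1)) .nil)) .nil))) .nil))) (.cons (.br (nat_lit 10) (nat_lit 1) (.cons (.br (nat_lit 4) (nat_lit 1) (.cons (.br (nat_lit 13) (nat_lit 0) (.cons (.ev (nat_lit 79541288487163621260029788674) (nat_lit 2)) .nil)) .nil)) (.cons (.ev (nat_lit 79538861172343837755126579201) (nat_lit 1)) .nil))) (.cons (.br (nat_lit 5) (nat_lit 0) (.cons (.br (nat_lit 13) (nat_lit 0) (.cons (.ev (nat_lit 20521022546279267985634457944066)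 (nat_lit 2)) (.cons (.br (nat_lit 7) (nat_lit 0) (.cons (.zr (nat_lit 37109664228101324800) (nat_lit 237995186200800736827448229889) (nat_lit 5) (nat_lit 0)) .nil)) .nil))) (.cons (.br (nat_lit 13) (nat_lit 0) (.cons (.rf (nat_lit 2570) (nat_lit 493858305440582043680)) (.cons (.ev (nat_lit 79229376180897180265585049601) (nat_lit 1)) .nil))) (.cons (.br (nat_lit 4) (nat_lit 1) (.cons (.ev (nat_lit 309485009893403766569304321) (nat_lit 1)) (.cons (.rf (nat_lit 2571) (nat_lit 493858305440582043680)) .nil))) .nil)))) .nil)))) .nil))),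
 (.br (nat_lit 11) (nat_lit 1) (.cons (.rf (nat_lit 2569) (nat_lit 493858305440582043680)) (.cons (.rf (nat_lit 2572) (nat_lit 493858305440582043680)) (.cons (.br (nat_lit 11) (nat_lit 1) (.cons (.rf (nat_lit 2569) (nat_lit 493858305440582043680)) (.cons (.rf (nat_lit 2572) (nat_lit 493858305440582043680)) .nil))) .nil)))),
 (.br (nat_lit 11) (nat_lit 1) (.cons (.rf (nat_lit 795) (nat_lit 15071257314822176)) (.cons (.br (nat_lit 4) (nat_lit 1) (.cons (.br (nat_lit 6) (nat_lit 1) (.cons (.br (nat_lit 13) (nat_lit 0) (.cons (.ev (nat_lit 4740885566016664371201) (nat_lit 1)) .nil)) .nil)) (.cons (.br (nat_lit 6) (nat_lit 1) (.cons (.ev (nat_lit 1213648186380077603291393) (nat_lit 1)) (.cons (.br (nat_lit 2) (nat_lit 0) (.cons (.ev (nat_lit 4740885566016664371201) (nat_lit 1)) .nil)) .nil))) .nil))) .nil))),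
 (.br (nat_lit 4) (nat_lit 1) (.cons (.br (nat_lit 6) (nat_lit 1) (.cons (.kr (nat_lit 1208925891672223212634368) (nat_lit 79228162514264338693055643648) (nat_lit 1) (nat_lit 0)) (.cons (.rf (nat_lit 2567) (nat_lit 493823400342303377440)) .nil))) (.cons (.rf (nat_lit 2568) (nat_lit 493823402541324535840)) .nil))),
 (.br (nat_lit 8) (nat_lit 1) (.cons (.kr (nat_lit 20361637766165934761540795302144) (nat_lit 72058693583110144) (nat_lit 1) (nat_lit 0)) .nil)),
 (.br (nat_lit 11) (nat_lit 1) (.cons (.rf (nat_lit 2575) (nat_lit 493858305440582043680)) (.cons (.br (nat_lit 13) (nat_lit 0) (.cons (.br (nat_lit 6) (nat_lit 1) (.cons (.rf (nat_lit 2576) (nat_lit 493858305440582043680)) (.cons (.ev (nat_lit 20361947251175756388084496728321) (nat_lit 1)) .nil))) (.cons (.br (nat_lit 4) (nat_lit 1) (.cons (.rf (nat_lit 2576) (nat_lit 493858305438436657184)) (.cons (.ev (nat_lit 309485009893403766569304321) (nat_lit 1)) .nil))) (.cons (.kr (nat_lit 1208925819614629174706176) (nat_lit 20282409603651670423947251286016)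 (nat_lit 10) (nat_lit 0)) .nil)))) .nil))),
 (.br (nat_lit 10) (nat_lit 1) (.cons (.rf (nat_lit 2573) (nat_lit 493858305440582043680)) (.cons (.br (nat_lit 11) (nat_lit 1) (.cons (.rf (nat_lit 2566) (nat_lit 493823402543469922336)) (.cons (.rf (nat_lit 2574) (nat_lit 493858305440582043680)) (.cons (.br (nat_lit 11) (nat_lit 1) (.cons (.rf (nat_lit 2566) (nat_lit 493823402543469922336)) (.cons (.rf (nat_lit 2574) (nat_lit 493858305440582043680)) .nil))) .nil)))) (.cons (.br (nat_lit 11) (nat_lit 1) (.cons (.rf (nat_lit 2575) (nat_lit 493858305440582043680)) (.cons (.rf (nat_lit 2577) (nat_lit 493858305440582043680)) (.cons (.br (nat_lit 11) (nat_lit 1) (.cons (.rf (nat_lit 2575) (nat_lit 493858305440582043680)) (.cons (.rf (nat_lit 2577) (nat_lit 493858305440582043680)) .nil))) .nil)))) .nil)))),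
 (.br (nat_lit 5) (nat_lit 0) (.cons (.rf (nat_lit 2570) (nat_lit 493823402543469922336)) (.cons (.rf (nat_lit 2571) (nat_lit 493823402543469922336)) .nil))),
 (.br (nat_lit 4) (nat_lit 1) (.cons (.br (nat_lit 8) (nat_lit 1) (.cons (.br (nat_lit 6) (nat_lit 1) (.cons (.br (nat_lit 11) (nat_lit 1) (.cons (.zr (nat_lit 36893491445954183168) (nat_lit 310698658007724046833156097) (nat_lit 5) (nat_lit 0)) .nil)) .nil)) (.cons (.br (nat_lit 13) (nat_lit 0) (.cons (.br (nat_lit 11) (nat_lit 1) (.cons (.ev (nat_lit 20679169395687728624226592555780) (nat_lit 3)) .nil)) (.cons (.ev (nat_lit 40644358068475612628068526654210) (nat_lit 2)) .nil))) .nil))) (.cons (.br (nat_lit 8) (nat_lit 1) (.cons (.ev (nat_lit 1208925891673327019294721) (nat_lit 1)) (.cons (.br (nat_lit 11) (nat_lit 1) (.cons (.ev (nat_lit 79537652264898910705135190273) (nat_lit 1)) (.cons (.ev (nat_lit 20361949673749761818750450074370) (nat_lit 2)) .nil))) .nil))) (.cons (.br (nat_lit 13) (nat_lit 0) (.cons (.rf (nat_lit 2579) (nat_lit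 493858305440582043680)) (.cons (.br (nat_lit 5) (nat_lit 0) (.cons (.br (nat_lit 7) (nat_lit 0) (.cons (.ev (nat_lit 79537652246524505704752021505) (nat_lit 1)) .nil)) (.cons (.ev (nat_lit 1208944266359806707630081) (nat_lit 1)) .nil))) (.cons (.br (nat_lit 7) (nat_lit 0) (.cons (.br (nat_lit 5) (nat_lit 0) (.cons (.ev (nat_lit 80160258506805750637925695490) (nat_lit 2)) .nil)) (.cons (.br (nat_lit 5) (nat_lit 0) (.cons (.ev (nat_lit 79228162532783420736284917761) (nat_lit 1)) .nil)) .nil))) .nil)))) .nil)))),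
 (.br (nat_lit 6) (nat_lit 1) (.cons (.br (nat_lit 11) (nat_lit 1) (.cons (.br (nat_lit 4) (nat_lit 1) (.cons (.ev (nat_lit 79538856449905297295738470401) (nat_lit 1)) .nil)) (.cons (.br (nat_lit 7) (nat_lit 0) (.cons (.ev (nat_lit 79538856449905297295738470401) (nat_lit 1)) (.cons (.kr (nat_lit 79537647524085682662268796928) (nat_lit 18446745173237956608) (nat_lit 2) (nat_lit 0)) .nil))) .nil))) (.cons (.ev (nat_lit 1208925891954797700972801) (nat_lit 1)) (.cons (.br (nat_lit 2) (nat_lit 0) (.cons (.br (nat_lit 13) (nat_lit 0) (.cons (.ev (nat_lit 20361637770906748271062933373185) (nat_lit 1)) (.cons (.zr (nat_lit 40723275532331869524181135655424) (nat_lit 310698658007724046816509953) (nat_lit 5) (nat_lit 6)) .nil))) (.cons (.br (nat_lit 4) (nat_lit 1) (.cons (.ev (nat_lit 1208925891673327019294721) (nat_lit 1)) (.cons (.ev (nat_lit 20361637770906748271062933373185) (nat_lit 1)) .nil))) (.cons (.rf (nat_lit 2580) (nat_lit 493858305440582043680)) .nil)))) .nil)))),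
 (.br (nat_lit 5) (nat_lit 0) (.cons (.kr (nat_lit 20361637766165934761540795302144) (nat_lit 72058693583110144) (nat_lit 1) (nat_lit 0)) .nil)),
 (.br (nat_lit 6) (nat_lit 1) (.cons (.ev (nat_lit 79228162514264619068520726529) (nat_lit 1)) (.cons (.rf (nat_lit 2582) (nat_lit 493858305440582043680)) .nil))),
 (.br (nat_lit 11) (nat_lit 1) (.cons (.rf (nat_lit 2580) (nat_lit 493858305440582043680)) (.cons (.rf (nat_lit 2581) (nat_lit 493858305440582043680)) (.cons (.br (nat_lit 2) (nat_lit 0) (.cons (.rf (nat_lit 2583) (nat_lit 493858305440582043680)) (.cons (.br (nat_lit 4) (nat_lit 1) (.cons (.ev (nat_lit 79538856449905297295738470401) (nat_lit 1)) (.cons (.rf (nat_lit 2582) (nat_lit 493858305438436657184)) .nil))) (.cons (.kr (nat_lit 1208925819614629174706432) (nat_lit 309485009821345068724846592) (nat_lit 1) (nat_lit 0)) .nil)))) .nil)))),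
 (.br (nat_lit 10) (nat_lit 1) (.cons (.rf (nat_lit 2573) (nat_lit 493858305440582043680)) (.cons (.rf (nat_lit 2578) (nat_lit 493858305440582043680)) (.cons (.br (nat_lit 11) (nat_lit 1) (.cons (.rf (nat_lit 2580) (nat_lit 493858305440582043680)) (.cons (.rf (nat_lit 2581) (nat_lit 493858305440582043680)) (.cons (.rf (nat_lit 2584) (nat_lit 493858305440582043680)) (.cons (.br (nat_lit 11) (nat_lit 1) (.cons (.rf (nat_lit 2580) (nat_lit 493858305440582043680)) (.cons (.rf (nat_lit 2581) (nat_lit 493858305440582043680)) (.cons (.rf (nat_lit 2584) (nat_lit 493858305440582043680)) .nil)))) .nil))))) .nil))))]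

theorem c89 : chkAll C T R L89 (nat_lit 2556) = true := by decide +kernel

theorem l89 : (nat_lit 2556) + L89.length = (nat_lit 2586) := by decide +kernel

/-- part of the certificates -/
def L90 : List Prf := [(.br (nat_lit 4) (nat_lit 1) (.cons (.br (nat_lit 11) (nat_lit 1) (.cons (.br (nat_lit 6) (nat_lit 1) (.cons (.kr (nat_lit 79228162514264338693055578368) (nat_lit 20282409603651742481541289279488) (nat_lit 1) (nat_lit 0)) .nil)) .nil)) .nil)),
 (.br (nat_lit 11) (nat_lit 1) (.cons (.rf (nat_lit 2586) (nat_lit 493858305440582043680)) (.cons (.br (nat_lit 11) (nat_lit 1) (.cons (.rf (nat_lit 2586) (nat_lit 493858305440582043680)) .nil)) .nil))),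
 (.br (nat_lit 5) (nat_lit 0) (.cons (.ev (nat_lit 1208925891673327019294721) (nat_lit 1)) (.cons (.ev (nat_lit 1208925891954797700972801) (nat_lit 1)) (.cons (.rf (nat_lit 2587) (nat_lit 493823402543469922336)) .nil)))),
 (.br (nat_lit 10) (nat_lit 1) (.cons (.rf (nat_lit 2587) (nat_lit 493858305440582043680)) (.cons (.br (nat_lit 11) (nat_lit 1) (.cons (.br (nat_lit 11) (nat_lit 1) (.cons (.rf (nat_lit 2587) (nat_lit 493823402543469922336)) (.cons (.kr (nat_lit 1208925819614629174706432) (nat_lit 309485009821345068724846592) (nat_lit 1) (nat_lit 0)) .nil))) (.cons (.rf (nat_lit 2588) (nat_lit 493858305440582043680)) (.cons (.br (nat_lit 11) (nat_lit 1) (.cons (.kr (nat_lit 1208925819614629174706432) (nat_lit 309485009821345068724846592) (nat_lit 1) (nat_lit 0)) (.cons (.rf (nat_lit 2588) (nat_lit 493858305440582043680)) .nil))) .nil)))) .nil))),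
 (.br (nat_lit 11) (nat_lit 1) (.cons (.br (nat_lit 5) (nat_lit 0) (.cons (.ev (nat_lit 309485009893403766569304321) (nat_lit 1)) (.cons (.ev (nat_lit 309485009893685237251112961) (nat_lit 1)) .nil))) .nil)),
 (.br (nat_lit 10) (nat_lit 1) (.cons (.rf (nat_lit 2587) (nat_lit 493858305440582043680)) (.cons (.br (nat_lit 11) (nat_lit 1) (.cons (.rf (nat_lit 2590) (nat_lit 493858305440582043680)) (.cons (.br (nat_lit 11) (nat_lit 1) (.cons (.rf (nat_lit 2590) (nat_lit 493858305440582043680)) .nil)) .nil))) .nil))),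
 (.br (nat_lit 12) (nat_lit 0) (.cons (.rf (nat_lit 2579) (nat_lit 420033053977816959008)) .nil)),
 (.br (nat_lit 7) (nat_lit 0) (.cons (.br (nat_lit 2) (nat_lit 0) (.cons (.rf (nat_lit 2592) (nat_lit 15431909825759512608)) (.cons (.br (nat_lit 10) (nat_lit 1) (.cons (.ev (nat_lit 79229371458602754994272796673) (nat_lit 1)) (.cons (.rf (nat_lit 2579) (nat_lit 458115489128326989856)) .nil))) .nil))) (.cons (.br (nat_lit 5) (nat_lit 0) (.cons (.br (nat_lit 11) (nat_lit 1) (.cons (.rf (nat_lit 2592) (nat_lit 15433035725666355232)) (.cons (.br (nat_lit 2) (nat_lit 0) (.cons (.zr (nat_lit 216176080682221568) (nat_lit 310698676454468120525930497) (nat_lit 5) (nat_lit 0)) .nil)) .nil))) (.cons (.ev (nat_lit 309485028268090246257704961) (nat_lit 1)) .nil))) .nil))),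
 (.br (nat_lit 2) (nat_lit 0) (.cons (.kr (nat_lit 20361637766165934761540795302144) (nat_lit 72058693583110144) (nat_lit 1) (nat_lit 0)) .nil)),
 (.br (nat_lit 13) (nat_lit 0) (.cons (.rf (nat_lit 2593) (nat_lit 493858305440582043680)) (.cons (.br (nat_lit 10) (nat_lit 1) (.cons (.br (nat_lit 6) (nat_lit 1) (.cons (.br (nat_lit 7) (nat_lit 0) (.cons (.ev (nat_lit 311912324856458021733138946) (nat_lit 2)) .nil)) (.cons (.ev (nat_lit 18447025548686327809) (nat_lit 1)) .nil))) (.cons (.br (nat_lit 2) (nat_lit 0) (.cons (.kr (nat_lit 79229371440083952222718656768) (nat_lit 4722366765444133552128) (nat_lit 1) (nat_lit 0)) (.cons (.ev (nat_lit 20282720302309677867614307614721) (nat_lit 1)) .nil))) (.cons (.br (nat_lit 5) (nat_lit 0) (.cons (.br (nat_lit 2) (nat_lit 0) (.cons (.ev (nat_lit 20679169395687729750109319268100) (nat_lit 3)) .nil)) (.cons (.rf (nat_lit 2594) (nat_lit 493858305440582043680)) .nil))) .nil)))) .nil))),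
 (.br (nat_lit 13) (nat_lit 0) (.cons (.rf (nat_lit 2593) (nat_lit 493858305440582043680)) (.cons (.rf (nat_lit 2595) (nat_lit 493858305440582043680)) (.cons (.br (nat_lit 13) (nat_lit 0) (.cons (.rf (nat_lit 2593) (nat_lit 493858305440582043680)) (.cons (.rf (nat_lit 2595) (nat_lit 493858305440582043680)) .nil))) .nil)))),
 (.br (nat_lit 13) (nat_lit 0) (.cons (.rf (nat_lit 2596) (nat_lit 493858305440582043680)) (.cons (.br (nat_lit 11) (nat_lit 1) (.cons (.ev (nat_lit 20282719093383858251885638123521) (nat_lit 1)) (.cons (.br (nat_lit 7) (nat_lit 0) (.cons (.ev (nat_lit 309485028268090246257704961) (nat_lit 1)) (.cons (.rf (nat_lit 2594) (nat_lit 493858305438436657184)) .nil))) (.cons (.br (nat_lit 10) (nat_lit 1) (.cons (.ev (nat_lit 20361638979814192916633653084161) (nat_lit 1)) (.cons (.rf (nat_lit 2594) (nat_lit 493823402541324535840)) .nil))) .nil)))) .nil))),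
 (.br (nat_lit 13) (nat_lit 0) (.cons (.rf (nat_lit 2596) (nat_lit 493858305440582043680)) (.cons (.rf (nat_lit 2597) (nat_lit 493858305440582043680)) (.cons (.br (nat_lit 13) (nat_lit 0) (.cons (.rf (nat_lit 2596) (nat_lit 493858305440582043680)) (.cons (.rf (nat_lit 2597) (nat_lit 493858305440582043680)) .nil))) .nil)))),
 (.br (nat_lit 13) (nat_lit 0) (.cons (.rf (nat_lit 2596) (nat_lit 493858305440582043680)) (.cons (.rf (nat_lit 2598) (nat_lit 493858305440582043680)) (.cons (.br (nat_lit 13) (nat_lit 0) (.cons (.rf (nat_lit 2596) (nat_lit 493858305440582043680)) (.cons (.rf (nat_lit 2598) (nat_lit 493858305440582043680)) .nil))) .nil)))),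
 (.br (nat_lit 7) (nat_lit 0) (.cons (.rf (nat_lit 2567) (nat_lit 493857214722901902400)) (.cons (.rf (nat_lit 2567) (nat_lit 493857214725047288896)) .nil))),
 (.br (nat_lit 11) (nat_lit 1) (.cons (.br (nat_lit 10) (nat_lit 1) (.cons (.rf (nat_lit 795) (nat_lit 13979374689814560)) (.cons (.br (nat_lit 6) (nat_lit 1) (.cons (.ev (nat_lit 79540074839048738021222384386) (nat_lit 2)) (.cons (.ev (nat_lit 20282410817299856521446087983361) (nat_lit 1)) .nil))) .nil))) (.cons (.br (nat_lit 5) (nat_lit 0) (.cons (.br (nat_lit 7) (nat_lit 0) (.cons (.ev (nat_lit 72057598349672449) (nat_lit 1)) (.cons (.ev (nat_lit 309485009893403766569304321) (nat_lit 1)) .nil))) (.cons (.ev (nat_lit 79537647524085965236773912833) (nat_lit 1)) (.cons (.rf (nat_lit 2600) (nat_lit 493858305440582043680)) .nil)))) .nil))),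
 (.br (nat_lit 11) (nat_lit 1) (.cons (.rf (nat_lit 2601) (nat_lit 493858305440582043680)) (.cons (.br (nat_lit 10) (nat_lit 1) (.cons (.br (nat_lit 13) (nat_lit 0) (.cons (.br (nat_lit 5) (nat_lit 0) (.cons (.ev (nat_lit 1213648186380077603225601) (nat_lit 1)) .nil)) (.cons (.br (nat_lit 5) (nat_lit 0) (.cons (.ev (nat_lit 311912324856739509594948354) (nat_lit 2)) .nil)) .nil))) (.cons (.br (nat_lit 6) (nat_lit 1) (.cons (.br (nat_lit 4) (nat_lit 1) (.cons (.zr (nat_lit 79228162514336397386605265152) (nat_lit 309485028268089146762854401) (nat_lit 5) (nat_lit 0)) .nil)) .nil)) .nil))) .nil))),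
 (.br (nat_lit 11) (nat_lit 1) (.cons (.rf (nat_lit 2601) (nat_lit 493858305440582043680)) (.cons (.rf (nat_lit 2602) (nat_lit 493858305440582043680)) (.cons (.br (nat_lit 11) (nat_lit 1) (.cons (.rf (nat_lit 2601) (nat_lit 493858305440582043680)) (.cons (.rf (nat_lit 2602) (nat_lit 493858305440582043680)) .nil))) .nil)))),
 (.br (nat_lit 2) (nat_lit 0) (.cons (.br (nat_lit 7) (nat_lit 0) (.cons (.kr (nat_lit 79228162514264338693055578368) (nat_lit 20282409603651742481541289279488) (nat_lit 1) (nat_lit 0)) .nil)) (.cons (.rf (nat_lit 2600) (nat_lit 493823400346594150432)) .nil))),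
 (.br (nat_lit 10) (nat_lit 1) (.cons (.rf (nat_lit 2603) (nat_lit 493858305440582043680)) (.cons (.br (nat_lit 2) (nat_lit 0) (.cons (.rf (nat_lit 2587) (nat_lit 493858301044685113376)) (.cons (.rf (nat_lit 2587) (nat_lit 493858303243706271776)) (.cons (.br (nat_lit 11) (nat_lit 1) (.cons (.rf (nat_lit 795) (nat_lit 13980473127700512)) (.cons (.br (nat_lit 6) (nat_lit 1) (.cons (.br (nat_lit 4) (nat_lit 1) (.cons (.ev (nat_lit 20362256745630384169359058862852) (nat_lit 3)) .nil)) (.cons (.ev (nat_lit 20361947255898194647073203224833) (nat_lit 1)) .nil))) .nil))) .nil)))) (.cons (.br (nat_lit 13) (nat_lit 0) (.cons (.br (nat_lit 2) (nat_lit 0) (.cons (.kr (nat_lit 79229371440083952222735433984) (nat_lit 20282409608374037188291873275904) (nat_lit 1) (nat_lit 0)) (.cons (.br (nat_lit 5) (nat_lit 0) (.cons (.ev (nat_lit 20361638975091754657644946718721) (nat_lit 1)) (.cons (.rf (nat_lit 2600) (nat_lit 493823398147572992032)) .nil))) .nil))) (.cons (.br (nat_lit 5) (nat_lit 0) (.cons (.br (nat_lit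 11) (nat_lit 1) (.cons (.ev (nat_lit 79229371440083953326542094593) (nat_lit 1)) (.cons (.ev (nat_lit 20282410812577562096174775664641) (nat_lit 1)) .nil))) (.cons (.rf (nat_lit 2604) (nat_lit 493858305440582043680)) .nil))) (.cons (.kr (nat_lit 1208925819614629174706176) (nat_lit 20282409603651670423947251286016) (nat_lit 10) (nat_lit 0)) .nil)))) .nil)))),
 (.br (nat_lit 2) (nat_lit 0) (.cons (.br (nat_lit 13) (nat_lit 0) (.cons (.br (nat_lit 5) (nat_lit 0) (.cons (.ev (nat_lit 309485009893403766569304321) (nat_lit 1)) .nil)) .nil)) (.cons (.br (nat_lit 11) (nat_lit 1) (.cons (.br (nat_lit 13) (nat_lit 0) (.cons (.ev (nat_lit 20679169395687728624226592555780) (nat_lit 3)) .nil)) (.cons (.ev (nat_lit 20521022560391026920547304931586) (nat_lit 2)) .nil))) .nil))),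
 (.br (nat_lit 5) (nat_lit 0) (.cons (.rf (nat_lit 2606) (nat_lit 493858305440582043680)) (.cons (.br (nat_lit 13) (nat_lit 0) (.cons (.br (nat_lit 2) (nat_lit 0) (.cons (.ev (nat_lit 79537652246524505704752021505) (nat_lit 1)) .nil)) (.cons (.ev (nat_lit 20282409603651742764115777552641) (nat_lit 1)) .nil))) .nil))),
 (.br (nat_lit 10) (nat_lit 1) (.cons (.rf (nat_lit 2603) (nat_lit 493858305440582043680)) (.cons (.rf (nat_lit 2605) (nat_lit 493858305440582043680)) (.cons (.br (nat_lit 5) (nat_lit 0) (.cons (.rf (nat_lit 2606) (nat_lit 493858305440582043680)) (.cons (.rf (nat_lit 2607) (nat_lit 493858305440582043680)) (.cons (.br (nat_lit 5) (nat_lit 0) (.cons (.rf (nat_lit 2606) (nat_lit 493858305440582043680)) (.cons (.rf (nat_lit 2607) (nat_lit 493858305440582043680)) .nil))) .nil)))) .nil)))),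
 (.br (nat_lit 5) (nat_lit 0) (.cons (.kr (nat_lit 36893489246930731264) (nat_lit 20361637766166006819134833229824) (nat_lit 1) (nat_lit 0)) .nil)),
 (.br (nat_lit 6) (nat_lit 1) (.cons (.ev (nat_lit 18447025548686327809) (nat_lit 1)) (.cons (.rf (nat_lit 2609) (nat_lit 493858305440582043680)) .nil))),
 (.br (nat_lit 7) (nat_lit 0) (.cons (.rf (nat_lit 2567) (nat_lit 493857214722901902400)) (.cons (.rf (nat_lit 2567) (nat_lit 493857214725047288896)) .nil))),
 (.br (nat_lit 13) (nat_lit 0) (.cons (.rf (nat_lit 2611) (nat_lit 493858301044685113376)) (.cons (.rf (nat_lit 2611) (nat_lit 493858303243706271776)) (.cons (.rf (nat_lit 2611) (nat_lit 493858305440582043680)) .nil)))),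
 (.br (nat_lit 11) (nat_lit 1) (.cons (.br (nat_lit 10) (nat_lit 1) (.cons (.rf (nat_lit 2566) (nat_lit 493857214725047288896)) (.cons (.br (nat_lit 4) (nat_lit 1) (.cons (.ev (nat_lit 79229376162522493785930203393) (nat_lit 1)) (.cons (.br (nat_lit 8) (nat_lit 1) (.cons (.ev (nat_lit 309485028268090246257704961) (nat_lit 1)) (.cons (.br (nat_lit 5) (nat_lit 0) (.cons (.ev (nat_lit 79540074839048738021222514946) (nat_lit 2)) .nil)) .nil))) .nil))) (.cons (.br (nat_lit 7) (nat_lit 0) (.cons (.br (nat_lit 13) (nat_lit 0) (.cons (.br (nat_lit 5) (nat_lit 0) (.cons (.ev (nat_lit 20999803138565714192730776470792) (nat_lit 4)) .nil)) (.cons (.br (nat_lit 6) (nat_lit 1) (.cons (.ev (nat_lit 80159044858691430357728887554) (nat_lit 2)) .nil)) .nil))) (.cons (.ev (nat_lit 79538861172343837755126579201) (nat_lit 1)) (.cons (.rf (nat_lit 2610) (nat_lit 493858305440582043680)) .nil)))) .nil)))) (.cons (.br (nat_lit 10) (nat_lit 1) (.cons (.rf (nat_lit 2612) (nat_lit 493858305440582043680)) (.cons (.br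 (nat_lit 6) (nat_lit 1) (.cons (.ev (nat_lit 79537647524085965236773912833) (nat_lit 1)) (.cons (.br (nat_lit 5) (nat_lit 0) (.cons (.ev (nat_lit 72057598349738241) (nat_lit 1)) (.cons (.ev (nat_lit 18447025548686327809) (nat_lit 1)) .nil))) (.cons (.br (nat_lit 7) (nat_lit 0) (.cons (.br (nat_lit 8) (nat_lit 1) (.cons (.ev (nat_lit 309485028268090246257704961) (nat_lit 1)) .nil)) (.cons (.kr (nat_lit 79228162514264337593544015872) (nat_lit 72057594054705152) (nat_lit 2) (nat_lit 0)) .nil))) .nil)))) (.cons (.kr (nat_lit 309485009821345068724781056) (nat_lit 20282409603651670423947251286016) (nat_lit 11) (nat_lit 0)) .nil)))) .nil))),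
 (.br (nat_lit 6) (nat_lit 1) (.cons (.ev (nat_lit 18447025548686327809) (nat_lit 1)) (.cons (.br (nat_lit 4) (nat_lit 1) (.cons (.br (nat_lit 5) (nat_lit 0) (.cons (.kr (nat_lit 36965546841002213632) (nat_lit 20520094091194463436727883333632) (nat_lit 1) (nat_lit 0)) .nil)) .nil)) .nil))),
 (.br (nat_lit 11) (nat_lit 1) (.cons (.rf (nat_lit 2613) (nat_lit 493858305440582043680)) (.cons (.br (nat_lit 8) (nat_lit 1) (.cons (.br (nat_lit 10) (nat_lit 1) (.cons (.ev (nat_lit 79229376180897180265585115393) (nat_lit 1)) (.cons (.br (nat_lit 5) (nat_lit 0) (.cons (.ev (nat_lit 1213648186098598331613441) (nat_lit 1)) (.cons (.ev (nat_lit 311912324856458021733204226) (nat_lit 2)) .nil))) (.cons (.br (nat_lit 6) (nat_lit 1) (.cons (.ev (nat_lit 20282719088679938794564662394881) (nat_lit 1)) (.cons (.ev (nat_lit 18447025548686327809) (nat_lit 1)) .nil))) .nil)))) (.cons (.rf (nat_lit 2614) (nat_lit 493858305440582043680)) (.cons (.br (nat_lit 6) (nat_lit 1) (.cons (.br (nat_lit 10) (nat_lit 1) (.cons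 (.br (nat_lit 4) (nat_lit 1) (.cons (.ev (nat_lit 1213648186380077603225601) (nat_lit 1)) .nil)) (.cons (.br (nat_lit 5) (nat_lit 0) (.cons (.zr (nat_lit 79228162514336397386605199872) (nat_lit 309485028268089146762854401) (nat_lit 5) (nat_lit 0)) .nil)) .nil))) (.cons (.br (nat_lit 10) (nat_lit 1) (.cons (.ev (nat_lit 79538861172343837755126579201) (nat_lit 1)) .nil)) .nil))) .nil)))) .nil))),
 (.br (nat_lit 11) (nat_lit 1) (.cons (.rf (nat_lit 2613) (nat_lit 493858305440582043680)) (.cons (.rf (nat_lit 2615) (nat_lit 493858305440582043680)) (.cons (.br (nat_lit 11) (nat_lit 1) (.cons (.rf (nat_lit 2613) (nat_lit 493858305440582043680)) (.cons (.rf (nat_lit 2615) (nat_lit 493858305440582043680)) .nil))) .nil)))),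
 (.br (nat_lit 5) (nat_lit 0) (.cons (.br (nat_lit 2) (nat_lit 0) (.cons (.kr (nat_lit 309485009821346168236409088) (nat_lit 79228162514336395187581943808) (nat_lit 1) (nat_lit 0)) .nil)) .nil)),
 (.br (nat_lit 5) (nat_lit 0) (.cons (.kr (nat_lit 79228162514264338693055578368) (nat_lit 20282409603651742481541289279488) (nat_lit 1) (nat_lit 0)) .nil)),
 (.br (nat_lit 5) (nat_lit 0) (.cons (.kr (nat_lit 79228162514264338693055578368) (nat_lit 20282409603651742481541289279488) (nat_lit 1) (nat_lit 0)) .nil)),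
 (.br (nat_lit 7) (nat_lit 0) (.cons (.br (nat_lit 13) (nat_lit 0) (.cons (.rf (nat_lit 2617) (nat_lit 15431909825759512608)) (.cons (.br (nat_lit 8) (nat_lit 1) (.cons (.rf (nat_lit 2618) (nat_lit 493858305440582043680)) (.cons (.br (nat_lit 11) (nat_lit 1) (.cons (.ev (nat_lit 20838251953735263538580667041028) (nat_lit 3)) .nil)) .nil))) .nil))) (.cons (.br (nat_lit 5) (nat_lit 0) (.cons (.ev (nat_lit 79228162532783420736284917761) (nat_lit 1)) (.cons (.br (nat_lit 11) (nat_lit 1) (.cons (.rf (nat_lit 2566) (nat_lit 493821221112400413760)) (.cons (.kr (nat_lit 20282409603670117168020960837632) (nat_lit 79537647524085682662268731392) (nat_lit 8) (nat_lit 0)) .nil))) .nil))) (.cons (.br (nat_lit 8) (nat_lit 1) (.cons (.br (nat_lit 6) (nat_lit 1) (.cons (.ev (nat_lit 4740885566016664371201) (nat_lit 1)) (.cons (.zr (nat_lit 60847228810955227444623867904000) (nat_lit 2422592452737680992633089) (nat_lit 5) (nat_lit 0)) .nil))) (.cons (.ev (nat_lit 79229371458602754994272731393) (nat_lit 1)) (.cons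 (.br (nat_lit 2) (nat_lit 0) (.cons (.rf (nat_lit 2619) (nat_lit 493858305440582043680)) (.cons (.br (nat_lit 5) (nat_lit 0) (.cons (.ev (nat_lit 20362256745630384169359058862852) (nat_lit 3)) .nil)) .nil))) .nil)))) .nil))))]

theorem c90 : chkAll C T R L90 (nat_lit 2586) = true := by decide +kernel

theorem l90 : (nat_lit 2586) + L90.length = (nat_lit 2621) := by decide +kernel

/-- part of the certificates -/
def L91 : List Prf := [(.br (nat_lit 7) (nat_lit 0) (.cons (.rf (nat_lit 2617) (nat_lit 15431909823614126112)) (.cons (.br (nat_lit 2) (nat_lit 0) (.cons (.rf (nat_lit 2619) (nat_lit 493858305438436657184)) (.cons (.ev (nat_lit 20361947255898194647073203224833) (nat_lit 1)) .nil))) .nil))),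
 (.br (nat_lit 13) (nat_lit 0) (.cons (.rf (nat_lit 2620) (nat_lit 493858305440582043680)) (.cons (.rf (nat_lit 2621) (nat_lit 493858305440582043680)) (.cons (.br (nat_lit 4) (nat_lit 1) (.cons (.br (nat_lit 5) (nat_lit 0) (.cons (.ev (nat_lit 20361637770906748271062933373185) (nat_lit 1)) (.cons (.zr (nat_lit 20440865928680199101333362573824) (nat_lit 310698658007724046849933313) (nat_lit 5) (nat_lit 0)) .nil))) (.cons (.br (nat_lit 2) (nat_lit 0) (.cons (.ev (nat_lit 20361637770906748271062933373185) (nat_lit 1)) (.cons (.zr (nat_lit 20440865928680199101333362573824) (nat_lit 310698658007724046849933313) (nat_lit 5) (nat_lit 0)) .nil))) (.cons (.br (nat_lit 2) (nat_lit 0) (.cons (.rf (nat_lit 2618) (nat_lit 493858305438436657184)) (.cons (.br (nat_lit 5) (nat_lit 0) (.cons (.ev (nat_lit 20679176649427258433084579972360) (nat_lit 4)) .nil)) .nil))) .nil)))) .nil)))),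
 (.br (nat_lit 13) (nat_lit 0) (.cons (.rf (nat_lit 2620) (nat_lit 493858305440582043680)) (.cons (.rf (nat_lit 2621) (nat_lit 493858305440582043680)) (.cons (.br (nat_lit 6) (nat_lit 1) (.cons (.br (nat_lit 4) (nat_lit 1) (.cons (.ev (nat_lit 20361637770906748271062933373185) (nat_lit 1)) (.cons (.rf (nat_lit 2618) (nat_lit 493858303239415498784)) .nil))) (.cons (.ev (nat_lit 20282410812595937064125112254721) (nat_lit 1)) (.cons (.br (nat_lit 4) (nat_lit 1) (.cons (.rf (nat_lit 2618) (nat_lit 493858301042539726880)) (.cons (.br (nat_lit 2) (nat_lit 0) (.cons (.ev (nat_lit 20838251953772587683433829959428) (nat_lit 3)) .nil)) .nil))) .nil)))) .nil)))),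
 (.br (nat_lit 5) (nat_lit 0) (.cons (.ev (nat_lit 79229371440083953326542094593) (nat_lit 1)) (.cons (.br (nat_lit 13) (nat_lit 0) (.cons (.br (nat_lit 11) (nat_lit 1) (.cons (.ev (nat_lit 20441484908144576449358548173572) (nat_lit 3)) .nil)) (.cons (.kr (nat_lit 1208925819614629174706432) (nat_lit 20282409603651670423947251351552) (nat_lit 1) (nat_lit 0)) (.cons (.ev (nat_lit 20361637766165935044115300417793) (nat_lit 1)) .nil)))) (.cons (.br (nat_lit 6) (nat_lit 1) (.cons (.br (nat_lit 7) (nat_lit 0) (.cons (.br (nat_lit 11) (nat_lit 1) (.cons (.zr (nat_lit 2417851855402040463196928) (nat_lit 309489750634853491368001537) (nat_lit 5) (nat_lit 0)) .nil)) (.cons (.ev (nat_lit 79538861172343837755126579201) (nat_lit 1)) .nil))) (.cons (.br (nat_lit 11) (nat_lit 1) (.cons (.ev (nat_lit 20282719093383858251885638058241) (nat_lit 1)) .nil)) .nil))) (.cons (.rf (nat_lit 2612) (nat_lit 493823402543469922336)) .nil))))),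
 (.br (nat_lit 13) (nat_lit 0) (.cons (.kr (nat_lit 79228162514264338693055578368) (nat_lit 20282409603651742481541289279488) (nat_lit 1) (nat_lit 0)) .nil)),
 (.br (nat_lit 2) (nat_lit 0) (.cons (.rf (nat_lit 2625) (nat_lit 493858305440582043680)) (.cons (.rf (nat_lit 2625) (nat_lit 493858303243706271776)) .nil))),
 (.br (nat_lit 7) (nat_lit 0) (.cons (.rf (nat_lit 2626) (nat_lit 493858305440582043680)) (.cons (.rf (nat_lit 2626) (nat_lit 493858305438436657184)) (.cons (.rf (nat_lit 2626) (nat_lit 493858303239415498784)) .nil)))),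
 (.br (nat_lit 11) (nat_lit 1) (.cons (.rf (nat_lit 2612) (nat_lit 493823402543469922336)) (.cons (.rf (nat_lit 2627) (nat_lit 493858305440582043680)) (.cons (.kr (nat_lit 309485009821345068724781056) (nat_lit 20282409603651670423947251286016) (nat_lit 11) (nat_lit 0)) .nil)))),
 (.br (nat_lit 11) (nat_lit 1) (.cons (.rf (nat_lit 2624) (nat_lit 493858305440582043680)) (.cons (.rf (nat_lit 2627) (nat_lit 493858305440582043680)) (.cons (.br (nat_lit 8) (nat_lit 1) (.cons (.kr (nat_lit 1208925819614629174706432) (nat_lit 20282409603651670423947251351552) (nat_lit 1) (nat_lit 0)) (.cons (.br (nat_lit 7) (nat_lit 0) (.cons (.ev (nat_lit 20282720297587383442342995296513) (nat_lit 1)) (.cons (.ev (nat_lit 309485009893685237251047681) (nat_lit 1)) .nil))) (.cons (.br (nat_lit 5) (nat_lit 0) (.cons (.ev (nat_lit 1208925891673327019229441) (nat_lit 1)) (.cons (.ev (nat_lit 20282409603651742764115777552641) (nat_lit 1)) .nil))) .nil)))) .nil)))),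
 (.br (nat_lit 10) (nat_lit 1) (.cons (.rf (nat_lit 2616) (nat_lit 493858305440582043680)) (.cons (.br (nat_lit 13) (nat_lit 0) (.cons (.rf (nat_lit 2620) (nat_lit 493858305440582043680)) (.cons (.rf (nat_lit 2622) (nat_lit 493858305440582043680)) (.cons (.rf (nat_lit 2623) (nat_lit 493858305440582043680)) (.cons (.br (nat_lit 13) (nat_lit 0) (.cons (.rf (nat_lit 2620) (nat_lit 493858305440582043680)) (.cons (.rf (nat_lit 2622) (nat_lit 493858305440582043680)) (.cons (.rf (nat_lit 2623) (nat_lit 493858305440582043680)) .nil)))) .nil))))) (.cons (.br (nat_lit 11) (nat_lit 1) (.cons (.rf (nat_lit 2624) (nat_lit 493858305440582043680)) (.cons (.rf (nat_lit 2628) (nat_lit 493858305440582043680)) (.cons (.rf (nat_lit 2629) (nat_lit 493858305440582043680)) (.cons (.br (nat_lit 11) (nat_lit 1) (.cons (.rf (nat_lit 2624) (nat_lit 493858305440582043680)) (.cons (.kr (nat_lit 309485009821345068724781056) (nat_lit 20282409603651670423947251286016) (nat_lit 11) (nat_lit 0)) (.cons (.rf (nat_lit 2629)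 (nat_lit 493858305440582043680)) .nil)))) .nil))))) .nil)))),
 (.br (nat_lit 2) (nat_lit 0) (.cons (.kr (nat_lit 36893489246930731264) (nat_lit 20361637766166006819134833229824) (nat_lit 1) (nat_lit 0)) .nil)),
 (.br (nat_lit 5) (nat_lit 0) (.cons (.br (nat_lit 7) (nat_lit 0) (.cons (.ev (nat_lit 79228162532783420736284917761) (nat_lit 1)) (.cons (.br (nat_lit 11) (nat_lit 1) (.cons (.ev (nat_lit 158765814760933242160371925250) (nat_lit 2)) (.cons (.ev (nat_lit 20679484915882060319997596534276) (nat_lit 3)) .nil))) .nil))) (.cons (.br (nat_lit 7) (nat_lit 0) (.cons (.br (nat_lit 11) (nat_lit 1) (.cons (.ev (nat_lit 2417870158877562985644290) (nat_lit 2)) (.cons (.ev (nat_lit 40723277950202172513633628586754) (nat_lit 2)) .nil))) (.cons (.br (nat_lit 11) (nat_lit 1) (.cons (.ev (nat_lit 79537652246524224225480343553) (nat_lit 1)) (.cons (.ev (nat_lit 20282720297587383442342995296513) (nat_lit 1)) .nil))) .nil))) (.cons (.br (nat_lit 13) (nat_lit 0) (.cons (.br (nat_lit 8) (nat_lit 1) (.cons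 (.ev (nat_lit 20361637770906748271062933373185) (nat_lit 1)) (.cons (.rf (nat_lit 2631) (nat_lit 493858305440582043680)) .nil))) (.cons (.br (nat_lit 2) (nat_lit 0) (.cons (.ev (nat_lit 20361637770906748271062933373185) (nat_lit 1)) (.cons (.ev (nat_lit 40644358068475612628068526522626) (nat_lit 2)) .nil))) (.cons (.kr (nat_lit 309485009821345068724781056) (nat_lit 20282409603651670423947251286016) (nat_lit 11) (nat_lit 0)) .nil)))) .nil)))),
 (.br (nat_lit 2) (nat_lit 0) (.cons (.ev (nat_lit 79228162514264619068520726529) (nat_lit 1)) (.cons (.br (nat_lit 5) (nat_lit 0) (.cons (.rf (nat_lit 2632) (nat_lit 493858305440582043680)) (.cons (.br (nat_lit 13) (nat_lit 0) (.cons (.ev (nat_lit 20361637770906748271062933373185) (nat_lit 1)) (.cons (.kr (nat_lit 309485009821345068724781056) (nat_lit 20282409603651670423947251286016) (nat_lit 11) (nat_lit 0)) .nil))) .nil))) (.cons (.br (nat_lit 8) (nat_lit 1) (.cons (.br (nat_lit 4) (nat_lit 1) (.cons (.br (nat_lit 13) (nat_lit 0) (.cons (.zr (nat_lit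 36893491454544117760) (nat_lit 310698658008568467468320769) (nat_lit 5) (nat_lit 0)) .nil)) (.cons (.br (nat_lit 11) (nat_lit 1) (.cons (.ev (nat_lit 20679169395687729750109319529220) (nat_lit 3)) .nil)) .nil))) (.cons (.ev (nat_lit 79228162532783420736284917761) (nat_lit 1)) (.cons (.br (nat_lit 4) (nat_lit 1) (.cons (.rf (nat_lit 2632) (nat_lit 493858305440582043680)) (.cons (.br (nat_lit 11) (nat_lit 1) (.cons (.ev (nat_lit 158765814760933242160371925250) (nat_lit 2)) .nil)) .nil))) .nil)))) .nil)))),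
 (.br (nat_lit 5) (nat_lit 0) (.cons (.rf (nat_lit 2632) (nat_lit 493858305440582043680)) (.cons (.rf (nat_lit 2633) (nat_lit 493858305440582043680)) (.cons (.br (nat_lit 11) (nat_lit 1) (.cons (.br (nat_lit 7) (nat_lit 0) (.cons (.ev (nat_lit 1208925891673327019229441) (nat_lit 1)) (.cons (.ev (nat_lit 80160258506805750637925564930) (nat_lit 2)) .nil))) (.cons (.br (nat_lit 4) (nat_lit 1) (.cons (.br (nat_lit 13) (nat_lit 0) (.cons (.ev (nat_lit 4740885566016664371201) (nat_lit 1)) .nil)) (.cons (.ev (nat_lit 309485028268090246257704961) (nat_lit 1)) .nil))) (.cons (.kr (nat_lit 309485009821345068724781056) (nat_lit 20282409603651670423947251286016) (nat_lit 11) (nat_lit 0)) .nil)))) .nil)))),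
 (.br (nat_lit 10) (nat_lit 1) (.cons (.rf (nat_lit 2616) (nat_lit 493858305440582043680)) (.cons (.rf (nat_lit 2630) (nat_lit 493858305440582043680)) (.cons (.br (nat_lit 5) (nat_lit 0) (.cons (.rf (nat_lit 2632) (nat_lit 493858305440582043680)) (.cons (.rf (nat_lit 2633) (nat_lit 493858305440582043680)) (.cons (.rf (nat_lit 2634) (nat_lit 493858305440582043680)) (.cons (.br (nat_lit 5) (nat_lit 0) (.cons (.rf (nat_lit 2632) (nat_lit 493858305440582043680)) (.cons (.rf (nat_lit 2633) (nat_lit 493858305440582043680)) (.cons (.rf (nat_lit 2634) (nat_lit 493858305440582043680)) .nil)))) .nil))))) .nil)))),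
 (.br (nat_lit 9) (nat_lit 1) (.cons (.kr (nat_lit 256) (nat_lit 65536) (nat_lit 1) (nat_lit 0)) (.cons (.br (nat_lit 10) (nat_lit 1) (.cons (.rf (nat_lit 2573) (nat_lit 493858305440582043680)) (.cons (.rf (nat_lit 2578) (nat_lit 493858305440582043680)) (.cons (.rf (nat_lit 2585) (nat_lit 493858305440582043680)) (.cons (.br (nat_lit 10) (nat_lit 1) (.cons (.rf (nat_lit 2573) (nat_lit 493858305440582043680)) (.cons (.rf (nat_lit 2578) (nat_lit 493858305440582043680)) (.cons (.rf (nat_lit 2585) (nat_lit 493858305440582043680)) .nil)))) .nil))))) (.cons (.br (nat_lit 8) (nat_lit 1) (.cons (.br (nat_lit 10) (nat_lit 1) (.cons (.rf (nat_lit 2589) (nat_lit 493858305440582043680)) (.cons (.rf (nat_lit 2591) (nat_lit 493858305440582043680)) (.cons (.br (nat_lit 10) (nat_lit 1) (.cons (.rf (nat_lit 2589) (nat_lit 493858305440582043680)) (.cons (.rf (nat_lit 2591) (nat_lit 493858305440582043680)) .nil))) .nil)))) (.cons (.br (nat_lit 13) (nat_lit 0) (.cons (.rf (nat_lit 2596) (nat_lit 493858305440582043680))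 (.cons (.rf (nat_lit 2598) (nat_lit 493858305440582043680)) (.cons (.rf (nat_lit 2599) (nat_lit 493858305440582043680)) (.cons (.br (nat_lit 13) (nat_lit 0) (.cons (.rf (nat_lit 2596) (nat_lit 493858305440582043680)) (.cons (.rf (nat_lit 2598) (nat_lit 493858305440582043680)) (.cons (.rf (nat_lit 2599) (nat_lit 493858305440582043680)) .nil)))) .nil))))) (.cons (.kr (nat_lit 79228162514264337593543950592) (nat_lit 72057594054705152) (nat_lit 1) (nat_lit 0)) (.cons (.br (nat_lit 10) (nat_lit 1) (.cons (.rf (nat_lit 2603) (nat_lit 493858305440582043680)) (.cons (.rf (nat_lit 2605) (nat_lit 493858305440582043680)) (.cons (.rf (nat_lit 2608) (nat_lit 493858305440582043680)) (.cons (.br (nat_lit 10) (nat_lit 1) (.cons (.rf (nat_lit 2603) (nat_lit 493858305440582043680)) (.cons (.rf (nat_lit 2605) (nat_lit 493858305440582043680)) (.cons (.rf (nat_lit 2608) (nat_lit 493858305440582043680)) .nil)))) .nil))))) .nil))))) (.cons (.br (nat_lit 10) (nat_lit 1) (.cons (.rf (nat_lit 2616) (nat_lit 493858305440582043680))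 (.cons (.rf (nat_lit 2630) (nat_lit 493858305440582043680)) (.cons (.rf (nat_lit 2635) (nat_lit 493858305440582043680)) (.cons (.br (nat_lit 10) (nat_lit 1) (.cons (.rf (nat_lit 2616) (nat_lit 493858305440582043680)) (.cons (.rf (nat_lit 2630) (nat_lit 493858305440582043680)) (.cons (.rf (nat_lit 2635) (nat_lit 493858305440582043680)) .nil)))) .nil))))) .nil))))),
 (.br (nat_lit 1) (nat_lit 0) (.cons (.br (nat_lit 2) (nat_lit 0) (.cons (.ev (nat_lit 310693935640960797411115009) (nat_lit 1)) .nil)) (.cons (.br (nat_lit 2) (nat_lit 0) (.cons (.ev (nat_lit 310693935640960797411115009) (nat_lit 1)) .nil)) .nil))),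
 (.br (nat_lit 7) (nat_lit 0) (.cons (.zr (nat_lit 3626777530902585402195968) (nat_lit 14167100011558889062657) (nat_lit 5) (nat_lit 10)) (.cons (.br (nat_lit 13) (nat_lit 0) (.cons (.rf (nat_lit 2617) (nat_lit 14313853770512042016)) (.cons (.ev (nat_lit 20282719093383930592054147547393) (nat_lit 1)) .nil))) .nil))),
 (.br (nat_lit 13) (nat_lit 0) (.cons (.br (nat_lit 10) (nat_lit 1) (.cons (.rf (nat_lit 2619) (nat_lit 458116575450110198848)) (.cons (.ev (nat_lit 1213648258436567851335681) (nat_lit 1)) .nil))) (.cons (.rf (nat_lit 2617) (nat_lit 14313853771585782848)) .nil))),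
 (.br (nat_lit 5) (nat_lit 0) (.cons (.br (nat_lit 13) (nat_lit 0) (.cons (.br (nat_lit 10) (nat_lit 1) (.cons (.rf (nat_lit 2621) (nat_lit 493857212523880744992)) (.cons (.rf (nat_lit 2621) (nat_lit 493857212523880744000)) (.cons (.ev (nat_lit 1213648258436567851335681) (nat_lit 1)) .nil)))) (.cons (.br (nat_lit 7) (nat_lit 0) (.cons (.rf (nat_lit 2637) (nat_lit 493858305440582043680)) (.cons (.br (nat_lit 10) (nat_lit 1) (.cons (.ev (nat_lit 79537652246452447006890656001) (nat_lit 1)) (.cons (.ev (nat_lit 79537652246452447006890721281) (nat_lit 1)) .nil))) .nil))) .nil))) (.cons (.br (nat_lit 1) (nat_lit 0) (.cons (.rf (nat_lit 2638) (nat_lit 493858305440582043680)) (.cons (.br (nat_lit 2) (nat_lit 0) (.cons (.rf (nat_lit 2638) (nat_lit 493858305440582042688)) (.cons (.rf (nat_lit 2566) (nat_lit 493787408930823047200)) .nil))) (.cons (.br (nat_lit 2) (nat_lit 0) (.cons (.rf (nat_lit 2638) (nat_lit 493858305440582042688)) (.cons (.rf (nat_lit 2566) (nat_lit 493787408930823046208)) (.cons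 (.kr (nat_lit 256) (nat_lit 65536) (nat_lit 1) (nat_lit 0)) .nil)))) .nil)))) (.cons (.br (nat_lit 2) (nat_lit 0) (.cons (.rf (nat_lit 2639) (nat_lit 493858305440582043680)) (.cons (.br (nat_lit 1) (nat_lit 0) (.cons (.rf (nat_lit 2639) (nat_lit 493858305440582042688)) (.cons (.kr (nat_lit 256) (nat_lit 65536) (nat_lit 1) (nat_lit 0)) (.cons (.rf (nat_lit 2566) (nat_lit 493786318215288293408)) .nil)))) (.cons (.br (nat_lit 1) (nat_lit 0) (.cons (.rf (nat_lit 2639) (nat_lit 493858305440582042688)) (.cons (.rf (nat_lit 2566) (nat_lit 493786318215288292416)) .nil))) .nil)))) .nil)))),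
 (.br (nat_lit 5) (nat_lit 0) (.cons (.kr (nat_lit 20282409608392483650890606116864) (nat_lit 79229371440083953322247061504) (nat_lit 2) (nat_lit 0)) (.cons (.br (nat_lit 10) (nat_lit 1) (.cons (.zr (nat_lit 9500073197960419083008) (nat_lit 79229371440084234801502027777) (nat_lit 5) (nat_lit 10)) (.cons (.ev (nat_lit 1208944266359806707630081) (nat_lit 1)) .nil))) .nil))),
 (.br (nat_lit 1) (nat_lit 0) (.cons (.rf (nat_lit 2641) (nat_lit 493858305440582042688)) (.cons (.br (nat_lit 5) (nat_lit 0) (.cons (.ev (nat_lit 4740813509517859946753) (nat_lit 1)) (.cons (.rf (nat_lit 2566) (nat_lit 493786318215288293408)) .nil))) .nil))),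
 (.br (nat_lit 11) (nat_lit 1) (.cons (.rf (nat_lit 2619) (nat_lit 458080478484444054592)) (.cons (.ev (nat_lit 20282719088679938513093980651521) (nat_lit 1)) .nil))),
 (.br (nat_lit 6) (nat_lit 1) (.cons (.rf (nat_lit 2619) (nat_lit 458080478484444055584)) (.cons (.rf (nat_lit 2617) (nat_lit 15430854294596846656)) .nil))),
 (.br (nat_lit 13) (nat_lit 0) (.cons (.rf (nat_lit 2640) (nat_lit 493858305440582043680)) (.cons (.br (nat_lit 2) (nat_lit 0) (.cons (.rf (nat_lit 2641) (nat_lit 493858305440582043680)) (.cons (.rf (nat_lit 2642) (nat_lit 493858305440582043680)) (.cons (.br (nat_lit 1) (nat_lit 0) (.cons (.rf (nat_lit 2641) (nat_lit 493858305440582042688)) (.cons (.rf (nat_lit 2642) (nat_lit 493858305440582042688)) (.cons (.kr (nat_lit 256) (nat_lit 65536) (nat_lit 1) (nat_lit 0)) .nil)))) .nil)))) (.cons (.br (nat_lit 5) (nat_lit 0) (.cons (.br (nat_lit 7) (nat_lit 0) (.cons (.ev (nat_lit 20361637770906820327553181417473) (nat_lit 1)) (.cons (.br (nat_lit 10) (nat_lit 1) (.cons (.ev (nat_lit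 20998557963676507926572553994760) (nat_lit 4)) (.cons (.ev (nat_lit 20998557963676507926572554125320) (nat_lit 4)) .nil))) .nil))) (.cons (.br (nat_lit 2) (nat_lit 0) (.cons (.rf (nat_lit 2643) (nat_lit 493858305440582043680)) (.cons (.br (nat_lit 1) (nat_lit 0) (.cons (.rf (nat_lit 2643) (nat_lit 493858305440582042688)) (.cons (.rf (nat_lit 2566) (nat_lit 493787408930823046208)) .nil))) (.cons (.rf (nat_lit 2644) (nat_lit 493858305440582043680)) .nil)))) (.cons (.kr (nat_lit 4740813226943354765312) (nat_lit 79537647524085682662268731392) (nat_lit 8) (nat_lit 0)) .nil)))) .nil))))]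

theorem c91 : chkAll C T R L91 (nat_lit 2621) = true := by decide +kernel

theorem l91 : (nat_lit 2621) + L91.length = (nat_lit 2646) := by decide +kernel

/-- part of the certificates -/
def L92 : List Prf := [(.br (nat_lit 8) (nat_lit 1) (.cons (.br (nat_lit 5) (nat_lit 0) (.cons (.ev (nat_lit 79228162532711364246036873473) (nat_lit 1)) (.cons (.br (nat_lit 7) (nat_lit 0) (.cons (.ev (nat_lit 79538861172271781264912023553) (nat_lit 1)) .nil)) .nil))) (.cons (.br (nat_lit 2) (nat_lit 0) (.cons (.br (nat_lit 11) (nat_lit 1) (.cons (.ev (nat_lit 79850764033877315209270591490) (nat_lit 2)) .nil)) (.cons (.br (nat_lit 10) (nat_lit 1) (.cons (.ev (nat_lit 20837009178103810816556203574020) (nat_lit 3)) .nil)) .nil))) (.cons (.rf (nat_lit 2627) (nat_lit 458043327084979390496)) .nil)))),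
 (.br (nat_lit 6) (nat_lit 1) (.cons (.rf (nat_lit 2646) (nat_lit 493858305440582042688)) (.cons (.br (nat_lit 10) (nat_lit 1) (.cons (.ev (nat_lit 20282410822040670312443186053122) (nat_lit 2)) (.cons (.br (nat_lit 11) (nat_lit 1) (.cons (.ev (nat_lit 20837009187437720898120748302596) (nat_lit 3)) .nil)) .nil))) (.cons (.rf (nat_lit 2627) (nat_lit 458041145653909882912)) .nil)))),
 (.br (nat_lit 8) (nat_lit 1) (.cons (.ev (nat_lit 18447025548686262529) (nat_lit 1)) .nil)),
 (.br (nat_lit 7) (nat_lit 0) (.cons (.rf (nat_lit 2648) (nat_lit 493858305440582043680)) (.cons (.rf (nat_lit 2610) (nat_lit 493786318215288292416)) .nil))),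
 (.br (nat_lit 13) (nat_lit 0) (.cons (.rf (nat_lit 2640) (nat_lit 493858305440582043680)) (.cons (.rf (nat_lit 2645) (nat_lit 493858305440582043680)) (.cons (.br (nat_lit 1) (nat_lit 0) (.cons (.rf (nat_lit 2646) (nat_lit 493858305440582043680)) (.cons (.rf (nat_lit 2647) (nat_lit 493858305440582043680)) (.cons (.br (nat_lit 2) (nat_lit 0) (.cons (.rf (nat_lit 2646) (nat_lit 493858305440582042688)) (.cons (.rf (nat_lit 2647) (nat_lit 493858305440582042688)) (.cons (.rf (nat_lit 2649) (nat_lit 493858305440582043680)) .nil)))) (.cons (.br (nat_lit 2) (nat_lit 0) (.cons (.rf (nat_lit 2646) (nat_lit 493858305440582042688)) (.cons (.rf (nat_lit 2647) (nat_lit 493858305440582042688)) (.cons (.rf (nat_lit 2649) (nat_lit 493858305440582042688)) .nil)))) .nil))))) .nil)))),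
 (.br (nat_lit 13) (nat_lit 0) (.cons (.rf (nat_lit 2640) (nat_lit 493858305440582043680)) (.cons (.rf (nat_lit 2645) (nat_lit 493858305440582043680)) (.cons (.rf (nat_lit 2650) (nat_lit 493858305440582043680)) (.cons (.br (nat_lit 13) (nat_lit 0) (.cons (.rf (nat_lit 2640) (nat_lit 493858305440582043680)) (.cons (.rf (nat_lit 2645) (nat_lit 493858305440582043680)) (.cons (.rf (nat_lit 2650) (nat_lit 493858305440582043680)) .nil)))) .nil))))),
 (.br (nat_lit 10) (nat_lit 1) (.cons (.rf (nat_lit 2617) (nat_lit 14241868806453561376)) (.cons (.rf (nat_lit 2617) (nat_lit 14241868806453560384)) (.cons (.kr (nat_lit 309485009821346168236408832) (nat_lit 79228162514336395187581878272) (nat_lit 5) (nat_lit 0)) .nil)))),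
 (.br (nat_lit 11) (nat_lit 1) (.cons (.rf (nat_lit 2644) (nat_lit 493858305438436656192)) (.cons (.rf (nat_lit 2644) (nat_lit 493858305438436657184)) (.cons (.br (nat_lit 10) (nat_lit 1) (.cons (.ev (nat_lit 79537652246452447006890656001) (nat_lit 1)) (.cons (.ev (nat_lit 79537652246452447006890721281) (nat_lit 1)) .nil))) .nil)))),
 (.br (nat_lit 13) (nat_lit 0) (.cons (.rf (nat_lit 2651) (nat_lit 493858305440582043680)) (.cons (.br (nat_lit 7) (nat_lit 0) (.cons (.rf (nat_lit 2652) (nat_lit 15431909825759512608)) (.cons (.ev (nat_lit 1213648258436567851335681) (nat_lit 1)) (.cons (.br (nat_lit 4) (nat_lit 1) (.cons (.rf (nat_lit 2644) (nat_lit 457866663054188577856)) (.cons (.rf (nat_lit 2644) (nat_lit 457866663054188578848)) (.cons (.br (nat_lit 2) (nat_lit 0) (.cons (.ev (nat_lit 79228167255149623234743304193) (nat_lit 1)) (.cons (.ev (nat_lit 20282409608392483650894901084161) (nat_lit 1)) .nil))) .nil)))) .nil)))) (.cons (.br (nat_lit 5) (nat_lit 0) (.cons (.br (nat_lit 10) (nat_lit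 1) (.cons (.ev (nat_lit 20282409608392483650894901018881) (nat_lit 1)) (.cons (.ev (nat_lit 20282409608392483650894901084161) (nat_lit 1)) (.cons (.br (nat_lit 1) (nat_lit 0) (.cons (.ev (nat_lit 20282409608392483650894901018881) (nat_lit 1)) (.cons (.ev (nat_lit 79228167255149623234743238913) (nat_lit 1)) .nil))) .nil)))) (.cons (.rf (nat_lit 2653) (nat_lit 493858305440582043680)) (.cons (.kr (nat_lit 4740813226943354765312) (nat_lit 79537647524085682662268731392) (nat_lit 8) (nat_lit 0)) .nil)))) .nil)))),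
 (.br (nat_lit 11) (nat_lit 1) (.cons (.br (nat_lit 7) (nat_lit 0) (.cons (.br (nat_lit 8) (nat_lit 1) (.cons (.zr (nat_lit 9444733528693538816768) (nat_lit 310693954231818959701671937) (nat_lit 5) (nat_lit 3)) .nil)) (.cons (.rf (nat_lit 2609) (nat_lit 493786318215288292416)) .nil))) (.cons (.rf (nat_lit 2627) (nat_lit 493787408930823047200)) (.cons (.ev (nat_lit 79537652246452447006890656001) (nat_lit 1)) .nil)))),
 (.br (nat_lit 13) (nat_lit 0) (.cons (.rf (nat_lit 2651) (nat_lit 493858305440582043680)) (.cons (.rf (nat_lit 2654) (nat_lit 493858305440582043680)) (.cons (.br (nat_lit 10) (nat_lit 1) (.cons (.rf (nat_lit 2655) (nat_lit 493858305440582043680)) (.cons (.rf (nat_lit 2655) (nat_lit 493858305440582042688)) (.cons (.br (nat_lit 11) (nat_lit 1) (.cons (.rf (nat_lit 2627) (nat_lit 493786318215288293408)) (.cons (.rf (nat_lit 2627) (nat_lit 493786318215288292416)) (.cons (.br (nat_lit 2) (nat_lit 0) (.cons (.br (nat_lit 1) (nat_lit 0) (.cons (.ev (nat_lit 1208944338697776193929473)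 (nat_lit 1)) .nil)) (.cons (.br (nat_lit 1) (nat_lit 0) (.cons (.ev (nat_lit 1208944338697776193929473) (nat_lit 1)) .nil)) .nil))) .nil)))) (.cons (.ev (nat_lit 1213648258436567851335681) (nat_lit 1)) .nil))))) .nil)))),
 (.br (nat_lit 13) (nat_lit 0) (.cons (.rf (nat_lit 2651) (nat_lit 493858305440582043680)) (.cons (.rf (nat_lit 2654) (nat_lit 493858305440582043680)) (.cons (.rf (nat_lit 2656) (nat_lit 493858305440582043680)) (.cons (.br (nat_lit 13) (nat_lit 0) (.cons (.rf (nat_lit 2651) (nat_lit 493858305440582043680)) (.cons (.rf (nat_lit 2654) (nat_lit 493858305440582043680)) (.cons (.rf (nat_lit 2656) (nat_lit 493858305440582043680)) .nil)))) .nil))))),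
 (.br (nat_lit 13) (nat_lit 0) (.cons (.rf (nat_lit 2651) (nat_lit 493858305440582043680)) (.cons (.rf (nat_lit 2657) (nat_lit 493858305440582043680)) (.cons (.br (nat_lit 5) (nat_lit 0) (.cons (.br (nat_lit 6) (nat_lit 1) (.cons (.ev (nat_lit 20282409608392483650894901018881) (nat_lit 1)) (.cons (.ev (nat_lit 20282409608392483650894901084161) (nat_lit 1)) (.cons (.ev (nat_lit 72057598349672449) (nat_lit 1)) .nil)))) (.cons (.br (nat_lit 4) (nat_lit 1) (.cons (.ev (nat_lit 79228162514264619068520661249) (nat_lit 1)) (.cons (.ev (nat_lit 79228162514264619068520726529) (nat_lit 1)) (.cons (.ev (nat_lit 20361637770906820327553181417473) (nat_lit 1)) .nil)))) (.cons (.kr (nat_lit 1208925819614629174706176) (nat_lit 20282409603651670423947251286016) (nat_lit 10) (nat_lit 0)) (.cons (.kr (nat_lit 4740813226943354765312) (nat_lit 79537647524085682662268731392) (nat_lit 8) (nat_lit 0)) .nil))))) .nil)))),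
 (.br (nat_lit 13) (nat_lit 0) (.cons (.rf (nat_lit 2651) (nat_lit 493858305440582043680)) (.cons (.rf (nat_lit 2657) (nat_lit 493858305440582043680)) (.cons (.rf (nat_lit 2658) (nat_lit 493858305440582043680)) (.cons (.br (nat_lit 13) (nat_lit 0) (.cons (.rf (nat_lit 2651) (nat_lit 493858305440582043680)) (.cons (.rf (nat_lit 2657) (nat_lit 493858305440582043680)) (.cons (.rf (nat_lit 2658) (nat_lit 493858305440582043680)) .nil)))) .nil))))),
 (.br (nat_lit 13) (nat_lit 0) (.cons (.rf (nat_lit 2651) (nat_lit 493858305440582043680)) (.cons (.rf (nat_lit 2657) (nat_lit 493858305440582043680)) (.cons (.rf (nat_lit 2659) (nat_lit 493858305440582043680)) (.cons (.br (nat_lit 13) (nat_lit 0) (.cons (.rf (nat_lit 2651) (nat_lit 493858305440582043680)) (.cons (.rf (nat_lit 2657) (nat_lit 493858305440582043680)) (.cons (.rf (nat_lit 2659) (nat_lit 493858305440582043680)) .nil)))) .nil))))),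
 (.br (nat_lit 2) (nat_lit 0) (.cons (.rf (nat_lit 2567) (nat_lit 455743251076465395744)) .nil)),
 (.br (nat_lit 2) (nat_lit 0) (.cons (.kr (nat_lit 20361637766165934762640306864384) (nat_lit 9444805023333328420864) (nat_lit 1) (nat_lit 0)) .nil)),
 (.br (nat_lit 10) (nat_lit 1) (.cons (.rf (nat_lit 2600) (nat_lit 493787406733947274304)) (.cons (.br (nat_lit 7) (nat_lit 0) (.cons (.ev (nat_lit 20361638975091754376174264910081) (nat_lit 1)) (.cons (.kr (nat_lit 20361637766165934761540795236608) (nat_lit 18446745173237956608) (nat_lit 1) (nat_lit 0)) .nil))) .nil))),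
 (.br (nat_lit 13) (nat_lit 0) (.cons (.rf (nat_lit 2636) (nat_lit 458082801744999449664)) (.cons (.br (nat_lit 7) (nat_lit 0) (.cons (.rf (nat_lit 2612) (nat_lit 457938687661801833536)) (.cons (.kr (nat_lit 20361637766165934761540795236864) (nat_lit 4722438540463699984384) (nat_lit 1) (nat_lit 0)) .nil))) .nil))),
 (.br (nat_lit 13) (nat_lit 0) (.cons (.rf (nat_lit 2636) (nat_lit 458082801744999449664)) (.cons (.br (nat_lit 7) (nat_lit 0) (.cons (.rf (nat_lit 2612) (nat_lit 457866630067766002752)) (.cons (.ev (nat_lit 20361948460120022465312421117953) (nat_lit 1)) .nil))) .nil))),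
 (.br (nat_lit 10) (nat_lit 1) (.cons (.br (nat_lit 4) (nat_lit 1) (.cons (.br (nat_lit 13) (nat_lit 0) (.cons (.zr (nat_lit 216176080682221568) (nat_lit 310698676454468120525930497) (nat_lit 5) (nat_lit 0)) .nil)) .nil)) (.cons (.ev (nat_lit 310693935640960797411115009) (nat_lit 1)) .nil))),
 (.br (nat_lit 13) (nat_lit 0) (.cons (.rf (nat_lit 2594) (nat_lit 493786318215288293408)) (.cons (.rf (nat_lit 2594) (nat_lit 493786318213142906912)) .nil))),
 (.br (nat_lit 7) (nat_lit 0) (.cons (.rf (nat_lit 2661) (nat_lit 14315967031865870368)) (.cons (.rf (nat_lit 2661) (nat_lit 14316037400610048032)) .nil))),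
 (.br (nat_lit 13) (nat_lit 0) (.cons (.rf (nat_lit 2604) (nat_lit 493821221110255028256)) (.cons (.rf (nat_lit 2604) (nat_lit 493821221112400414752)) (.cons (.rf (nat_lit 2668) (nat_lit 493858305440582043680)) .nil)))),
 (.br (nat_lit 10) (nat_lit 1) (.cons (.kr (nat_lit 158456325028528675187087966208) (nat_lit 18518801667764256768) (nat_lit 2) (nat_lit 0)) (.cons (.kr (nat_lit 237684487542793013880143479040) (nat_lit 20282409603670261283209053470720) (nat_lit 1) (nat_lit 0)) .nil))),
 (.br (nat_lit 7) (nat_lit 0) (.cons (.rf (nat_lit 2670) (nat_lit 493858305440582043680)) (.cons (.br (nat_lit 10) (nat_lit 1) (.cons (.ev (nat_lit 20361948460101647778832732717313) (nat_lit 1)) (.cons (.rf (nat_lit 2627) (nat_lit 493821221112400414752)) .nil))) .nil))),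
 (.br (nat_lit 7) (nat_lit 0) (.cons (.rf (nat_lit 2670) (nat_lit 493858305440582043680)) (.cons (.br (nat_lit 10) (nat_lit 1) (.cons (.kr (nat_lit 79228162514264337593544015872) (nat_lit 72057594054705152) (nat_lit 2) (nat_lit 0)) (.cons (.kr (nat_lit 79228162532711082766765129984) (nat_lit 20282409603651814539135343919104) (nat_lit 1) (nat_lit 0)) .nil))) .nil))),
 (.br (nat_lit 10) (nat_lit 1) (.cons (.rf (nat_lit 2612) (nat_lit 493786318215288293408)) (.cons (.br (nat_lit 4) (nat_lit 1) (.cons (.ev (nat_lit 20282720302309677867614307614721) (nat_lit 1)) (.cons (.kr (nat_lit 79228167236630820463189229568) (nat_lit 20282409603651742481541305991168) (nat_lit 2) (nat_lit 0)) .nil))) .nil))),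
 (.br (nat_lit 10) (nat_lit 1) (.cons (.rf (nat_lit 2612) (nat_lit 493786318215288293408)) (.cons (.rf (nat_lit 2627) (nat_lit 493821221112400414752)) .nil))),
 (.br (nat_lit 6) (nat_lit 1) (.cons (.br (nat_lit 4) (nat_lit 1) (.cons (.kr (nat_lit 79228162514264338693055578368) (nat_lit 20282409603651742481541289279488) (nat_lit 1) (nat_lit 0)) .nil)) .nil)),
 (.br (nat_lit 6) (nat_lit 1) (.cons (.ev (nat_lit 20282409608392483932365582827521) (nat_lit 1)) .nil)),
 (.br (nat_lit 11) (nat_lit 1) (.cons (.kr (nat_lit 256) (nat_lit 65536) (nat_lit 1) (nat_lit 0)) (.cons (.br (nat_lit 6) (nat_lit 1) (.cons (.kr (nat_lit 4722366482869645279232) (nat_lit 1099528404992) (nat_lit 2) (nat_lit 0)) (.cons (.br (nat_lit 7) (nat_lit 0) (.cons (.br (nat_lit 8) (nat_lit 1) (.cons (.ev (nat_lit 309489750706912184917557505) (nat_lit 1)) (.cons (.rf (nat_lit 2661) (nat_lit 15433035725666355232)) .nil))) (.cons (.kr (nat_lit 79228162514264338693055578112) (nat_lit 4722438540463683141632) (nat_lit 5) (nat_lit 0))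 (.cons (.br (nat_lit 4) (nat_lit 1) (.cons (.ev (nat_lit 79537652246524505704751956225) (nat_lit 1)) (.cons (.br (nat_lit 10) (nat_lit 1) (.cons (.rf (nat_lit 2567) (nat_lit 493786313817245976608)) (.cons (.rf (nat_lit 2662) (nat_lit 493858305440582043680)) .nil))) .nil))) .nil)))) (.cons (.br (nat_lit 10) (nat_lit 1) (.cons (.rf (nat_lit 2568) (nat_lit 493786318215288293408)) (.cons (.rf (nat_lit 2663) (nat_lit 493858305440582043680)) (.cons (.br (nat_lit 10) (nat_lit 1) (.cons (.rf (nat_lit 2612) (nat_lit 493787408930823046208)) (.cons (.rf (nat_lit 2663) (nat_lit 493858305440582043680)) .nil))) .nil)))) .nil)))) (.cons (.br (nat_lit 8) (nat_lit 1) (.cons (.br (nat_lit 13) (nat_lit 0) (.cons (.rf (nat_lit 2664) (nat_lit 493858305440582043680)) (.cons (.rf (nat_lit 2665) (nat_lit 493858305440582043680)) (.cons (.br (nat_lit 13) (nat_lit 0) (.cons (.rf (nat_lit 2664) (nat_lit 493858305440582043680)) (.cons (.rf (nat_lit 2665) (nat_lit 493858305440582043680)) .nil))) .nil)))) (.cons (.br (nat_lit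 10) (nat_lit 1) (.cons (.rf (nat_lit 2666) (nat_lit 493858305440582043680)) (.cons (.br (nat_lit 10) (nat_lit 1) (.cons (.rf (nat_lit 2666) (nat_lit 493858305440582043680)) (.cons (.rf (nat_lit 2667) (nat_lit 493858305440582043680)) .nil))) (.cons (.br (nat_lit 10) (nat_lit 1) (.cons (.ev (nat_lit 310693935640960797411115009) (nat_lit 1)) (.cons (.rf (nat_lit 2667) (nat_lit 493858305440582043680)) .nil))) .nil)))) (.cons (.kr (nat_lit 79228162514264337593543950592) (nat_lit 72057594054705152) (nat_lit 1) (nat_lit 0)) (.cons (.br (nat_lit 5) (nat_lit 0) (.cons (.br (nat_lit 2) (nat_lit 0) (.cons (.br (nat_lit 10) (nat_lit 1) (.cons (.ev (nat_lit 79537647524158021735578337281) (nat_lit 1)) (.cons (.ev (nat_lit 20282719088661492051594759438593) (nat_lit 1)) .nil))) (.cons (.br (nat_lit 10) (nat_lit 1) (.cons (.ev (nat_lit 310693954159762465175372033) (nat_lit 1)) (.cons (.ev (nat_lit 20282720302309677867614307680513) (nat_lit 1)) .nil))) .nil))) (.cons (.br (nat_lit 2) (nat_lit 0) (.cons (.ev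 (nat_lit 79228167236631103037694345473) (nat_lit 1)) (.cons (.br (nat_lit 10) (nat_lit 1) (.cons (.ev (nat_lit 795388569406608040909150355720) (nat_lit 4)) (.cons (.ev (nat_lit 41042052350725139685159360135940) (nat_lit 3)) .nil))) .nil))) (.cons (.rf (nat_lit 2669) (nat_lit 493858305440582043680)) .nil)))) .nil))))) (.cons (.br (nat_lit 13) (nat_lit 0) (.cons (.kr (nat_lit 4722366482869645213696) (nat_lit 20282409603651670423947251286016) (nat_lit 9) (nat_lit 0)) (.cons (.br (nat_lit 7) (nat_lit 0) (.cons (.rf (nat_lit 2671) (nat_lit 493858305440582043680)) (.cons (.rf (nat_lit 2672) (nat_lit 493858305440582043680)) (.cons (.br (nat_lit 7) (nat_lit 0) (.cons (.rf (nat_lit 2671) (nat_lit 493858305440582043680)) (.cons (.rf (nat_lit 2672) (nat_lit 493858305440582043680)) .nil))) .nil)))) (.cons (.br (nat_lit 10) (nat_lit 1) (.cons (.rf (nat_lit 2673) (nat_lit 493858305440582043680)) (.cons (.rf (nat_lit 2674) (nat_lit 493858305440582043680)) (.cons (.br (nat_lit 10) (nat_lit 1) (.cons (.rf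 (nat_lit 2673) (nat_lit 493858305440582043680)) (.cons (.rf (nat_lit 2627) (nat_lit 493821221112400414752)) .nil))) .nil)))) (.cons (.br (nat_lit 8) (nat_lit 1) (.cons (.br (nat_lit 10) (nat_lit 1) (.cons (.rf (nat_lit 2675) (nat_lit 493858305440582043680)) (.cons (.br (nat_lit 5) (nat_lit 0) (.cons (.br (nat_lit 7) (nat_lit 0) (.cons (.zr (nat_lit 9444949138521404407808) (nat_lit 310693954087985250897494017) (nat_lit 5) (nat_lit 0)) .nil)) (.cons (.br (nat_lit 7) (nat_lit 0) (.cons (.ev (nat_lit 2422574149828424222507266) (nat_lit 2)) .nil)) .nil))) .nil))) (.cons (.br (nat_lit 4) (nat_lit 1) (.cons (.rf (nat_lit 2676) (nat_lit 493858305440582043680)) (.cons (.br (nat_lit 7) (nat_lit 0) (.cons (.ev (nat_lit 20361637766184453845783031054593) (nat_lit 1)) (.cons (.ev (nat_lit 1208925891673327019229441) (nat_lit 1)) .nil))) .nil))) (.cons (.kr (nat_lit 4740813226943354765312) (nat_lit 20361637766165934761540795236352) (nat_lit 8) (nat_lit 0)) .nil)))) .nil))))) .nil)))))]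

theorem c92 : chkAll C T R L92 (nat_lit 2646) = true := by decide +kernel

theorem l92 : (nat_lit 2646) + L92.length = (nat_lit 2678) := by decide +kernel

/-- part of the certificates -/
def L93 : List Prf := [(.br (nat_lit 10) (nat_lit 1) (.cons (.rf (nat_lit 2627) (nat_lit 493857214725047289888)) (.cons (.rf (nat_lit 2627) (nat_lit 493857214725047288896)) .nil))),
 (.br (nat_lit 12) (nat_lit 0) (.cons (.kr (nat_lit 309485009821346168236408832) (nat_lit 79228162514336395187581878272) (nat_lit 5) (nat_lit 0)) (.cons (.rf (nat_lit 2678) (nat_lit 455779244691257657376)) .nil))),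
 (.br (nat_lit 12) (nat_lit 0) (.cons (.rf (nat_lit 2679) (nat_lit 14242959524133701664)) (.cons (.rf (nat_lit 2679) (nat_lit 14242955126091384864)) (.cons (.rf (nat_lit 2678) (nat_lit 455779244691257657376)) .nil)))),
 (.br (nat_lit 8) (nat_lit 1) (.cons (.ev (nat_lit 4740885566016664371201) (nat_lit 1)) .nil)),
 (.br (nat_lit 4) (nat_lit 1) (.cons (.rf (nat_lit 2681) (nat_lit 493858305440582043680)) (.cons (.rf (nat_lit 2681) (nat_lit 493858305440582042688)) .nil))),
 (.br (nat_lit 6) (nat_lit 1) (.cons (.kr (nat_lit 4722366482869645213952) (nat_lit 1099528404992) (nat_lit 1) (nat_lit 0)) (.cons (.kr (nat_lit 4722366482869645279232) (nat_lit 1099528404992) (nat_lit 2) (nat_lit 0)) (.cons (.br (nat_lit 11) (nat_lit 1) (.cons (.rf (nat_lit 2677) (nat_lit 493858305440582043680)) (.cons (.rf (nat_lit 2677) (nat_lit 493858305440582042688)) (.cons (.rf (nat_lit 2680) (nat_lit 15433035725666355232)) (.cons (.br (nat_lit 13) (nat_lit 0) (.cons (.kr (nat_lit 4722366482869645213696) (nat_lit 20282409603651670423947251286016)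 (nat_lit 9) (nat_lit 0)) (.cons (.br (nat_lit 7) (nat_lit 0) (.cons (.kr (nat_lit 79228162514264338693055578112) (nat_lit 20282409603651742481541289213952) (nat_lit 5) (nat_lit 0)) (.cons (.kr (nat_lit 79537647524085683761780359168) (nat_lit 20282409608374108964410934427648) (nat_lit 5) (nat_lit 0)) .nil))) (.cons (.kr (nat_lit 309485009821345068724781056) (nat_lit 20282409603651670423947251286016) (nat_lit 11) (nat_lit 0)) .nil)))) .nil))))) (.cons (.br (nat_lit 11) (nat_lit 1) (.cons (.rf (nat_lit 2677) (nat_lit 493858305440582043680)) (.cons (.rf (nat_lit 2677) (nat_lit 493858305440582042688)) (.cons (.br (nat_lit 13) (nat_lit 0) (.cons (.rf (nat_lit 2652) (nat_lit 14312833417284257824)) (.cons (.rf (nat_lit 2652) (nat_lit 14308332018827626528)) (.cons (.br (nat_lit 7) (nat_lit 0) (.cons (.rf (nat_lit 2680) (nat_lit 15433035723520968736)) (.cons (.kr (nat_lit 18446745173221179392) (nat_lit 20282409603651742481541289213952) (nat_lit 5) (nat_lit 0)) (.cons (.rf (nat_lit 2682) (nat_lit 493858305440582043680))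 .nil)))) .nil)))) (.cons (.br (nat_lit 10) (nat_lit 1) (.cons (.kr (nat_lit 20282409608374036906816896499968) (nat_lit 309485009821346168253186048) (nat_lit 1) (nat_lit 0)) (.cons (.kr (nat_lit 20282409608374036906816896565248) (nat_lit 309485009821346168253186048) (nat_lit 2) (nat_lit 0)) (.cons (.br (nat_lit 10) (nat_lit 1) (.cons (.kr (nat_lit 20282409608374036906816896499968) (nat_lit 309485009821346168253186048) (nat_lit 1) (nat_lit 0)) (.cons (.kr (nat_lit 20282409608374036906816896565248) (nat_lit 309485009821346168253186048) (nat_lit 2) (nat_lit 0)) .nil))) .nil)))) .nil))))) .nil))))),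
 (.br (nat_lit 8) (nat_lit 1) (.cons (.ev (nat_lit 79538856468352042464664682753) (nat_lit 1)) (.cons (.ev (nat_lit 20521022546279267985634457813506) (nat_lit 2)) .nil))),
 (.br (nat_lit 4) (nat_lit 1) (.cons (.ev (nat_lit 4740885566016664371201) (nat_lit 1)) .nil)),
 (.br (nat_lit 8) (nat_lit 1) (.cons (.rf (nat_lit 2685) (nat_lit 493858305440582043680)) (.cons (.rf (nat_lit 2685) (nat_lit 493858305440582042688)) .nil))),
 (.br (nat_lit 4) (nat_lit 1) (.cons (.ev (nat_lit 309485009821626543701491969) (nat_lit 1)) (.cons (.ev (nat_lit 309485009821626543701557249) (nat_lit 1)) (.cons (.rf (nat_lit 2009) (nat_lit 14238486714057328672)) .nil)))),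
 (.br (nat_lit 6) (nat_lit 1) (.cons (.ev (nat_lit 20361637770906748271062933373185) (nat_lit 1)) (.cons (.ev (nat_lit 20282719093383930592054147547393) (nat_lit 1)) .nil))),
 (.br (nat_lit 2) (nat_lit 0) (.cons (.ev (nat_lit 20361637770906748271062933373185) (nat_lit 1)) (.cons (.br (nat_lit 4) (nat_lit 1) (.cons (.kr (nat_lit 79228171958997303332834443520) (nat_lit 20282409603651742482640834396160) (nat_lit 1) (nat_lit 0)) .nil)) .nil))),
 (.br (nat_lit 10) (nat_lit 1) (.cons (.ev (nat_lit 79537652246452447006890721281) (nat_lit 1)) (.cons (.ev (nat_lit 309485009893685237251047681) (nat_lit 1)) .nil))),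
 (.br (nat_lit 7) (nat_lit 0) (.cons (.br (nat_lit 5) (nat_lit 0) (.cons (.ev (nat_lit 4722438823038171480321) (nat_lit 1)) (.cons (.ev (nat_lit 20282720297587383442342995296513) (nat_lit 1)) .nil))) (.cons (.rf (nat_lit 2690) (nat_lit 493858305440582043680)) (.cons (.br (nat_lit 5) (nat_lit 0) (.cons (.ev (nat_lit 20282720297587383442342995296513) (nat_lit 1)) (.cons (.ev (nat_lit 20282409603651742764115777552641) (nat_lit 1)) .nil))) .nil)))),
 (.br (nat_lit 11) (nat_lit 1) (.cons (.rf (nat_lit 2677) (nat_lit 493858305440582043680)) (.cons (.rf (nat_lit 2677) (nat_lit 493858305440582042688)) (.cons (.rf (nat_lit 2683) (nat_lit 493858305440582043680)) (.cons (.br (nat_lit 13) (nat_lit 0) (.cons (.kr (nat_lit 4722366482869645213696) (nat_lit 20282409603651670423947251286016) (nat_lit 9) (nat_lit 0)) (.cons (.br (nat_lit 7) (nat_lit 0) (.cons (.br (nat_lit 5) (nat_lit 0) (.cons (.rf (nat_lit 2009) (nat_lit 15429723999866816544)) (.cons (.br (nat_lit 2) (nat_lit 0) (.cons (.br (nat_lit 10) (nat_lit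 1) (.cons (.ev (nat_lit 79229376180897180265585115393) (nat_lit 1)) .nil)) (.cons (.br (nat_lit 1) (nat_lit 0) (.cons (.ev (nat_lit 79229376180897180265585115393) (nat_lit 1)) .nil)) .nil))) .nil))) (.cons (.br (nat_lit 5) (nat_lit 0) (.cons (.rf (nat_lit 2009) (nat_lit 15429653564617754656)) (.cons (.br (nat_lit 2) (nat_lit 0) (.cons (.kr (nat_lit 20282409603670117168020960968704) (nat_lit 72058693583110144) (nat_lit 2) (nat_lit 0)) (.cons (.kr (nat_lit 20440865928680199099134339317760) (nat_lit 18518802767292661760) (nat_lit 2) (nat_lit 0)) .nil))) .nil))) (.cons (.br (nat_lit 5) (nat_lit 0) (.cons (.br (nat_lit 10) (nat_lit 1) (.cons (.rf (nat_lit 2684) (nat_lit 493858305440582043680)) (.cons (.rf (nat_lit 2684) (nat_lit 493858305440582042688)) .nil))) (.cons (.br (nat_lit 10) (nat_lit 1) (.cons (.kr (nat_lit 40802503699568500343544779637760) (nat_lit 309485028412206529600552960) (nat_lit 1) (nat_lit 0)) (.cons (.kr (nat_lit 40802503699568500343544779898880) (nat_lit 309485028412206529600552960)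 (nat_lit 2) (nat_lit 0)) .nil))) (.cons (.rf (nat_lit 2686) (nat_lit 493858305440582043680)) .nil)))) .nil)))) (.cons (.br (nat_lit 5) (nat_lit 0) (.cons (.br (nat_lit 7) (nat_lit 0) (.cons (.rf (nat_lit 2009) (nat_lit 15427401764806166560)) (.cons (.br (nat_lit 10) (nat_lit 1) (.cons (.zr (nat_lit 40564819212025923503546295123968) (nat_lit 79537647542532427839784878337) (nat_lit 5) (nat_lit 11)) (.cons (.zr (nat_lit 40564819212025923503546295123968) (nat_lit 79537647542532427839784943617) (nat_lit 5) (nat_lit 11)) .nil))) .nil))) (.cons (.rf (nat_lit 2687) (nat_lit 15433035725666355232)) (.cons (.br (nat_lit 1) (nat_lit 0) (.cons (.rf (nat_lit 2688) (nat_lit 493858305440582043680)) (.cons (.rf (nat_lit 2689) (nat_lit 493858305440582043680)) (.cons (.br (nat_lit 2) (nat_lit 0) (.cons (.rf (nat_lit 2688) (nat_lit 493858305440582042688)) (.cons (.rf (nat_lit 2689) (nat_lit 493858305440582042688)) .nil))) .nil)))) .nil)))) (.cons (.br (nat_lit 8) (nat_lit 1) (.cons (.rf (nat_lit 2691) (nat_lit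 493858305440582043680)) (.cons (.rf (nat_lit 2691) (nat_lit 493858305440582042688)) (.cons (.kr (nat_lit 309489750634572012079546368) (nat_lit 40644047369817605185488046522368) (nat_lit 8) (nat_lit 0)) (.cons (.kr (nat_lit 4740813226943354765312) (nat_lit 20361637766165934761540795236352) (nat_lit 8) (nat_lit 0)) .nil))))) .nil))))) .nil))))),
 (.br (nat_lit 9) (nat_lit 1) (.cons (.rf (nat_lit 2636) (nat_lit 493858305440582043680)) (.cons (.rf (nat_lit 2636) (nat_lit 493858305440582042688)) (.cons (.br (nat_lit 13) (nat_lit 0) (.cons (.rf (nat_lit 2651) (nat_lit 493858305440582043680)) (.cons (.rf (nat_lit 2657) (nat_lit 493858305440582043680)) (.cons (.rf (nat_lit 2659) (nat_lit 493858305440582043680)) (.cons (.rf (nat_lit 2660) (nat_lit 493858305440582043680)) (.cons (.br (nat_lit 13) (nat_lit 0) (.cons (.rf (nat_lit 2651) (nat_lit 493858305440582043680)) (.cons (.rf (nat_lit 2657) (nat_lit 493858305440582043680)) (.cons (.rf (nat_lit 2659) (nat_lit 493858305440582043680)) (.cons (.rf (nat_lit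 2660) (nat_lit 493858305440582043680)) .nil))))) .nil)))))) (.cons (.br (nat_lit 11) (nat_lit 1) (.cons (.rf (nat_lit 2677) (nat_lit 493858305440582043680)) (.cons (.rf (nat_lit 2677) (nat_lit 493858305440582042688)) (.cons (.rf (nat_lit 2683) (nat_lit 493858305440582043680)) (.cons (.rf (nat_lit 2692) (nat_lit 493858305440582043680)) (.cons (.br (nat_lit 11) (nat_lit 1) (.cons (.rf (nat_lit 2677) (nat_lit 493858305440582043680)) (.cons (.rf (nat_lit 2677) (nat_lit 493858305440582042688)) (.cons (.rf (nat_lit 2683) (nat_lit 493858305440582043680)) (.cons (.rf (nat_lit 2692) (nat_lit 493858305440582043680)) .nil))))) .nil)))))) .nil))))),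
 (.br (nat_lit 6) (nat_lit 1) (.cons (.br (nat_lit 8) (nat_lit 1) (.cons (.ev (nat_lit 18447025548686262529) (nat_lit 1)) (.cons (.br (nat_lit 7) (nat_lit 0) (.cons (.br (nat_lit 11) (nat_lit 1) (.cons (.zr (nat_lit 9444733528693538816768) (nat_lit 310693954231818959701671937) (nat_lit 5) (nat_lit 3)) .nil)) (.cons (.br (nat_lit 13) (nat_lit 0) (.cons (.ev (nat_lit 20837006769696905115978508206340) (nat_lit 3)) .nil)) .nil))) .nil))) (.cons (.br (nat_lit 5) (nat_lit 0) (.cons (.ev (nat_lit 72057598349672449) (nat_lit 1)) (.cons (.ev (nat_lit 18447025548686262529) (nat_lit 1)) (.cons (.br (nat_lit 8) (nat_lit 1) (.cons (.br (nat_lit 4) (nat_lit 1) (.cons (.ev (nat_lit 159077712918330242878899618050) (nat_lit 2)) .nil)) .nil)) .nil)))) (.cons (.br (nat_lit 13) (nat_lit 0) (.cons (.rf (nat_lit 2579) (nat_lit 493857214725047289888)) (.cons (.br (nat_lit 11) (nat_lit 1) (.cons (.ev (nat_lit 20361948460120022465312421052673) (nat_lit 1)) (.cons (.br (nat_lit 5) (nat_lit 0) (.cons (.ev (nat_lit 20837006769696905115978508206340)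 (nat_lit 3)) .nil)) .nil))) (.cons (.br (nat_lit 7) (nat_lit 0) (.cons (.ev (nat_lit 20282409608374108964415246172161) (nat_lit 1)) (.cons (.rf (nat_lit 2614) (nat_lit 493786318215288292416)) .nil))) .nil)))) .nil)))),
 (.br (nat_lit 11) (nat_lit 1) (.cons (.rf (nat_lit 2694) (nat_lit 493858305440582043680)) (.cons (.br (nat_lit 6) (nat_lit 1) (.cons (.br (nat_lit 4) (nat_lit 1) (.cons (.br (nat_lit 13) (nat_lit 0) (.cons (.ev (nat_lit 1223130029006750771970050) (nat_lit 2)) .nil)) .nil)) (.cons (.ev (nat_lit 79537652246452447006890656001) (nat_lit 1)) .nil))) (.cons (.br (nat_lit 7) (nat_lit 0) (.cons (.br (nat_lit 2) (nat_lit 0) (.cons (.ev (nat_lit 309489732259885536719732993) (nat_lit 1)) (.cons (.ev (nat_lit 79228167236630821567012602113) (nat_lit 1)) .nil))) (.cons (.ev (nat_lit 79537652246452447006890656001) (nat_lit 1)) (.cons (.br (nat_lit 13) (nat_lit 0) (.cons (.kr (nat_lit 20282409603670117168020960837632) (nat_lit 79537647524085682662268731392) (nat_lit 8) (nat_lit 0)) (.cons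 (.kr (nat_lit 20440865928680199099134339187200) (nat_lit 18518802767292661760) (nat_lit 1) (nat_lit 0)) .nil))) .nil)))) .nil)))),
 (.br (nat_lit 2) (nat_lit 0) (.cons (.kr (nat_lit 4722366482869645213952) (nat_lit 309485009821345068724846592) (nat_lit 1) (nat_lit 0)) (.cons (.kr (nat_lit 9463179709813000044800) (nat_lit 309485009893403762307891200) (nat_lit 1) (nat_lit 0)) .nil))),
 (.br (nat_lit 11) (nat_lit 1) (.cons (.rf (nat_lit 2694) (nat_lit 493858305440582043680)) (.cons (.rf (nat_lit 2695) (nat_lit 493858305440582043680)) (.cons (.br (nat_lit 5) (nat_lit 0) (.cons (.br (nat_lit 2) (nat_lit 0) (.cons (.ev (nat_lit 310693935641242276682858753) (nat_lit 1)) (.cons (.br (nat_lit 13) (nat_lit 0) (.cons (.zr (nat_lit 618970019858866218131980288) (nat_lit 1227833732571660736791297) (nat_lit 5) (nat_lit 0)) .nil)) .nil))) (.cons (.ev (nat_lit 79537652246452447006890656001) (nat_lit 1)) (.cons (.rf (nat_lit 2696) (nat_lit 493858305440582043680)) .nil)))) .nil)))),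
 (.br (nat_lit 6) (nat_lit 1) (.cons (.br (nat_lit 8) (nat_lit 1) (.cons (.ev (nat_lit 79228167255149904705425047553) (nat_lit 1)) (.cons (.br (nat_lit 4) (nat_lit 1) (.cons (.br (nat_lit 11) (nat_lit 1) (.cons (.ev (nat_lit 310693935641242276682792961) (nat_lit 1)) .nil)) (.cons (.br (nat_lit 11) (nat_lit 1) (.cons (.ev (nat_lit 20837006769696905115978508075780) (nat_lit 3)) .nil)) .nil))) .nil))) (.cons (.br (nat_lit 11) (nat_lit 1) (.cons (.br (nat_lit 13) (nat_lit 0) (.cons (.rf (nat_lit 2579) (nat_lit 493821221112400413760)) (.cons (.br (nat_lit 5) (nat_lit 0) (.cons (.ev (nat_lit 20837006769696905115978508075780) (nat_lit 3)) .nil)) .nil))) (.cons (.br (nat_lit 8) (nat_lit 1) (.cons (.br (nat_lit 5) (nat_lit 0) (.cons (.ev (nat_lit 4740813228047178203393) (nat_lit 1)) .nil)) .nil)) .nil))) .nil))),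
 (.br (nat_lit 11) (nat_lit 1) (.cons (.rf (nat_lit 2698) (nat_lit 493858305440582043680)) (.cons (.br (nat_lit 8) (nat_lit 1) (.cons (.br (nat_lit 5) (nat_lit 0) (.cons (.ev (nat_lit 79537647524085683766092169473) (nat_lit 1)) (.cons (.ev (nat_lit 309485009893685237251112961) (nat_lit 1)) .nil))) (.cons (.kr (nat_lit 4740813226943354765312) (nat_lit 79537647524085682662268731392) (nat_lit 8) (nat_lit 0)) (.cons (.br (nat_lit 5) (nat_lit 0) (.cons (.ev (nat_lit 20361637766165934762644618608641) (nat_lit 1)) (.cons (.ev (nat_lit 20282409603651742764115777552641) (nat_lit 1)) .nil))) .nil)))) .nil))),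
 (.br (nat_lit 7) (nat_lit 0) (.cons (.ev (nat_lit 72057598349672449) (nat_lit 1)) (.cons (.br (nat_lit 5) (nat_lit 0) (.cons (.ev (nat_lit 18447025548686262529) (nat_lit 1)) (.cons (.br (nat_lit 6) (nat_lit 1) (.cons (.zr (nat_lit 144117387099177216) (nat_lit 1213648186378978091597825) (nat_lit 5) (nat_lit 0)) (.cons (.br (nat_lit 2) (nat_lit 0) (.cons (.zr (nat_lit 37109664228101324800) (nat_lit 237995186200800736827448229889) (nat_lit 5) (nat_lit 0)) .nil)) .nil))) .nil))) (.cons (.br (nat_lit 6) (nat_lit 1) (.cons (.br (nat_lit 11) (nat_lit 1) (.cons (.br (nat_lit 13) (nat_lit 0) (.cons (.ev (nat_lit 20361645019757963806809065195268) (nat_lit 3)) .nil)) (.cons (.zr (nat_lit 40723585017341690868150332227584) (nat_lit 1218370552861847736812033) (nat_lit 5) (nat_lit 6)) .nil))) (.cons (.br (nat_lit 11) (nat_lit 1) (.cons (.ev (nat_lit 310693935641242276682792961) (nat_lit 1)) (.cons (.ev (nat_lit 79537652246452447006890656001) (nat_lit 1)) .nil))) (.cons (.br (nat_lit 5) (nat_lit 0) (.cons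 (.ev (nat_lit 20361637770906820046082499674113) (nat_lit 1)) (.cons (.ev (nat_lit 79537652246452447006890656001) (nat_lit 1)) .nil))) .nil)))) .nil)))),
 (.br (nat_lit 4) (nat_lit 1) (.cons (.ev (nat_lit 79228162514264619068520726529) (nat_lit 1)) (.cons (.rf (nat_lit 2700) (nat_lit 493858305440582043680)) (.cons (.br (nat_lit 13) (nat_lit 0) (.cons (.br (nat_lit 5) (nat_lit 0) (.cons (.br (nat_lit 11) (nat_lit 1) (.cons (.zr (nat_lit 9444733528693538816768) (nat_lit 310693954231818959701671937) (nat_lit 5) (nat_lit 3)) .nil)) .nil)) (.cons (.br (nat_lit 11) (nat_lit 1) (.cons (.zr (nat_lit 14167100011563184030464) (nat_lit 20361948460101719836426787356673) (nat_lit 5) (nat_lit 3)) (.cons (.kr (nat_lit 309485009821345068724781056) (nat_lit 20282409603651670423947251286016) (nat_lit 11) (nat_lit 0)) .nil))) .nil))) (.cons (.br (nat_lit 7) (nat_lit 0) (.cons (.ev (nat_lit 18447025548686262529) (nat_lit 1)) (.cons (.br (nat_lit 5) (nat_lit 0) (.cons (.ev (nat_lit 79228167255149904705424982273)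 (nat_lit 1)) (.cons (.br (nat_lit 2) (nat_lit 0) (.cons (.zr (nat_lit 238303457562435706225206427648) (nat_lit 1227833733416081388732417) (nat_lit 5) (nat_lit 0)) .nil)) .nil))) .nil))) .nil))))),
 (.br (nat_lit 5) (nat_lit 0) (.cons (.rf (nat_lit 2700) (nat_lit 493858305440582043680)) (.cons (.rf (nat_lit 2701) (nat_lit 493858305440582043680)) (.cons (.br (nat_lit 7) (nat_lit 0) (.cons (.ev (nat_lit 79228167236630821567012536321) (nat_lit 1)) (.cons (.ev (nat_lit 18447025548686262529) (nat_lit 1)) (.cons (.br (nat_lit 13) (nat_lit 0) (.cons (.ev (nat_lit 309485028268090246257704961) (nat_lit 1)) (.cons (.ev (nat_lit 79537652246452447006890656001) (nat_lit 1)) .nil))) .nil)))) .nil)))),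
 (.br (nat_lit 10) (nat_lit 1) (.cons (.kr (nat_lit 256) (nat_lit 65536) (nat_lit 1) (nat_lit 0)) (.cons (.br (nat_lit 11) (nat_lit 1) (.cons (.rf (nat_lit 2694) (nat_lit 493858305440582043680)) (.cons (.rf (nat_lit 2695) (nat_lit 493858305440582043680)) (.cons (.rf (nat_lit 2697) (nat_lit 493858305440582043680)) (.cons (.br (nat_lit 11) (nat_lit 1) (.cons (.rf (nat_lit 2694) (nat_lit 493858305440582043680)) (.cons (.rf (nat_lit 2695) (nat_lit 493858305440582043680)) (.cons (.rf (nat_lit 2697) (nat_lit 493858305440582043680)) .nil)))) .nil))))) (.cons (.br (nat_lit 11) (nat_lit 1) (.cons (.rf (nat_lit 2698) (nat_lit 493858305440582043680)) (.cons (.rf (nat_lit 2699) (nat_lit 493858305440582043680)) (.cons (.br (nat_lit 11) (nat_lit 1) (.cons (.rf (nat_lit 2698) (nat_lit 493858305440582043680)) (.cons (.rf (nat_lit 2699) (nat_lit 493858305440582043680)) .nil))) .nil)))) (.cons (.br (nat_lit 5) (nat_lit 0) (.cons (.rf (nat_lit 2700) (nat_lit 493858305440582043680)) (.cons (.rf (nat_lit 2701)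 (nat_lit 493858305440582043680)) (.cons (.rf (nat_lit 2702) (nat_lit 493858305440582043680)) (.cons (.br (nat_lit 5) (nat_lit 0) (.cons (.rf (nat_lit 2700) (nat_lit 493858305440582043680)) (.cons (.rf (nat_lit 2701) (nat_lit 493858305440582043680)) (.cons (.rf (nat_lit 2702) (nat_lit 493858305440582043680)) .nil)))) .nil))))) .nil)))))]

theorem c93 : chkAll C T R L93 (nat_lit 2678) = true := by decide +kernel

theorem l93 : (nat_lit 2678) + L93.length = (nat_lit 2704) := by decide +kernel

/-- part of the certificates -/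
def L94 : List Prf := [(.br (nat_lit 2) (nat_lit 0) (.cons (.br (nat_lit 5) (nat_lit 0) (.cons (.ev (nat_lit 20837009178103810816556203574020) (nat_lit 3)) .nil)) .nil)),
 (.br (nat_lit 5) (nat_lit 0) (.cons (.ev (nat_lit 20282410812595936782654430576641) (nat_lit 1)) (.cons (.ev (nat_lit 20361948464823942204112634970113) (nat_lit 1)) .nil))),
 (.br (nat_lit 1) (nat_lit 0) (.cons (.rf (nat_lit 2705) (nat_lit 493858305440582042688)) (.cons (.br (nat_lit 5) (nat_lit 0) (.cons (.ev (nat_lit 20998565236231573136194217771272) (nat_lit 4)) .nil)) .nil))),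
 (.br (nat_lit 13) (nat_lit 0) (.cons (.ev (nat_lit 1213648258436567851335681) (nat_lit 1)) (.cons (.br (nat_lit 1) (nat_lit 0) (.cons (.rf (nat_lit 2704) (nat_lit 493858305440582043680)) (.cons (.br (nat_lit 2) (nat_lit 0) (.cons (.rf (nat_lit 2704) (nat_lit 493858305440582042688)) (.cons (.kr (nat_lit 256) (nat_lit 65536) (nat_lit 1) (nat_lit 0)) .nil))) .nil))) (.cons (.br (nat_lit 2) (nat_lit 0) (.cons (.rf (nat_lit 2705) (nat_lit 493858305440582043680)) (.cons (.rf (nat_lit 2706) (nat_lit 493858305440582043680)) (.cons (.br (nat_lit 8) (nat_lit 1) (.cons (.rf (nat_lit 2706) (nat_lit 493858305440582042688)) (.cons (.ev (nat_lit 79229371458602754994272796673) (nat_lit 1)) .nil))) .nil)))) .nil)))),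
 (.br (nat_lit 2) (nat_lit 0) (.cons (.br (nat_lit 11) (nat_lit 1) (.cons (.zr (nat_lit 238303457562435702918098386944) (nat_lit 1213666633123051801149953) (nat_lit 5) (nat_lit 4)) .nil)) (.cons (.br (nat_lit 5) (nat_lit 0) (.cons (.zr (nat_lit 238303457562436269166569718528) (nat_lit 1213721973073798020202497) (nat_lit 5) (nat_lit 0)) .nil)) .nil))),
 (.br (nat_lit 11) (nat_lit 1) (.cons (.ev (nat_lit 20282409603651742764115777552641) (nat_lit 1)) (.cons (.ev (nat_lit 20282409603651742764115777617921) (nat_lit 1)) .nil))),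
 (.br (nat_lit 13) (nat_lit 0) (.cons (.rf (nat_lit 2707) (nat_lit 493858305440582043680)) (.cons (.ev (nat_lit 1213648258436567851335681) (nat_lit 1)) (.cons (.br (nat_lit 6) (nat_lit 1) (.cons (.rf (nat_lit 2708) (nat_lit 493858305440582043680)) (.cons (.rf (nat_lit 2708) (nat_lit 493858305440582042688)) (.cons (.rf (nat_lit 2709) (nat_lit 493858305440582043680)) .nil)))) .nil)))),
 (.br (nat_lit 13) (nat_lit 0) (.cons (.kr (nat_lit 20361637766165934762640306864384) (nat_lit 2417851711286852387405824) (nat_lit 1) (nat_lit 0)) .nil)),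
 (.br (nat_lit 6) (nat_lit 1) (.cons (.rf (nat_lit 2711) (nat_lit 493858305440582043680)) (.cons (.rf (nat_lit 2576) (nat_lit 493786318213142906912)) .nil))),
 (.br (nat_lit 5) (nat_lit 0) (.cons (.ev (nat_lit 79228162514264619068520726529) (nat_lit 1)) (.cons (.br (nat_lit 13) (nat_lit 0) (.cons (.kr (nat_lit 20361638975091754376169970008064) (nat_lit 4740813228042883170304) (nat_lit 2) (nat_lit 0)) (.cons (.kr (nat_lit 4740813226943354765312) (nat_lit 20361637766165934761540795236352) (nat_lit 8) (nat_lit 0)) .nil))) (.cons (.br (nat_lit 11) (nat_lit 1) (.cons (.rf (nat_lit 2712) (nat_lit 493858305440582043680)) (.cons (.br (nat_lit 13) (nat_lit 0) (.cons (.br (nat_lit 1) (nat_lit 0) (.cons (.ev (nat_lit 1208944338697776193929473) (nat_lit 1)) .nil)) (.cons (.br (nat_lit 6) (nat_lit 1) (.cons (.ev (nat_lit 18519084246547562753) (nat_lit 1)) .nil)) .nil))) (.cons (.kr (nat_lit 309485009821345068724781056) (nat_lit 20282409603651670423947251286016) (nat_lit 11) (nat_lit 0)) .nil)))) .nil)))),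
 (.br (nat_lit 1) (nat_lit 0) (.cons (.rf (nat_lit 2713) (nat_lit 493858305440582042688)) (.cons (.br (nat_lit 13) (nat_lit 0) (.cons (.ev (nat_lit 20361637766184381787093793243393) (nat_lit 1)) (.cons (.br (nat_lit 5) (nat_lit 0) (.cons (.ev (nat_lit 20361638975091754376174264975361) (nat_lit 1)) (.cons (.kr (nat_lit 309485009821345068724781056) (nat_lit 20282409603651670423947251286016) (nat_lit 11) (nat_lit 0)) .nil))) .nil))) (.cons (.br (nat_lit 5) (nat_lit 0) (.cons (.br (nat_lit 11) (nat_lit 1) (.cons (.ev (nat_lit 72057598349738241) (nat_lit 1)) (.cons (.ev (nat_lit 20361638975091754376174264975361) (nat_lit 1)) .nil))) (.cons (.br (nat_lit 4) (nat_lit 1) (.cons (.kr (nat_lit 4740813228042866393344) (nat_lit 2417851711286852387405824) (nat_lit 1) (nat_lit 0)) (.cons (.kr (nat_lit 20361638975091754376169970008064) (nat_lit 4740813228042883170304) (nat_lit 2) (nat_lit 0)) .nil))) (.cons (.rf (nat_lit 2712) (nat_lit 493858305438436657184)) .nil)))) .nil)))),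
 (.br (nat_lit 1) (nat_lit 0) (.cons (.rf (nat_lit 2713) (nat_lit 493858305440582042688)) (.cons (.rf (nat_lit 2714) (nat_lit 493858305440582042688)) (.cons (.br (nat_lit 5) (nat_lit 0) (.cons (.br (nat_lit 13) (nat_lit 0) (.cons (.ev (nat_lit 20361638975091754376174264910081) (nat_lit 1)) (.cons (.ev (nat_lit 20361637766165934762644618674433) (nat_lit 1)) .nil))) (.cons (.ev (nat_lit 79229371440084234797223837953) (nat_lit 1)) (.cons (.br (nat_lit 13) (nat_lit 0) (.cons (.ev (nat_lit 20361947251194202851782741196801) (nat_lit 1)) (.cons (.ev (nat_lit 20361948460120022465312421117953) (nat_lit 1)) .nil))) .nil)))) .nil)))),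
 (.br (nat_lit 10) (nat_lit 1) (.cons (.rf (nat_lit 2703) (nat_lit 493858305440582043680)) (.cons (.rf (nat_lit 2703) (nat_lit 493858305440582042688)) (.cons (.br (nat_lit 13) (nat_lit 0) (.cons (.rf (nat_lit 2707) (nat_lit 493858305440582043680)) (.cons (.ev (nat_lit 1213648258436567851335681) (nat_lit 1)) (.cons (.rf (nat_lit 2710) (nat_lit 493858305440582043680)) (.cons (.br (nat_lit 13) (nat_lit 0) (.cons (.rf (nat_lit 2707) (nat_lit 493858305440582043680)) (.cons (.ev (nat_lit 1213648258436567851335681) (nat_lit 1)) (.cons (.rf (nat_lit 2710) (nat_lit 493858305440582043680)) .nil)))) .nil))))) (.cons (.br (nat_lit 2) (nat_lit 0) (.cons (.rf (nat_lit 2713) (nat_lit 493858305440582043680)) (.cons (.rf (nat_lit 2714) (nat_lit 493858305440582043680)) (.cons (.rf (nat_lit 2715) (nat_lit 493858305440582043680)) (.cons (.br (nat_lit 1) (nat_lit 0) (.cons (.rf (nat_lit 2713) (nat_lit 493858305440582042688)) (.cons (.rf (nat_lit 2714) (nat_lit 493858305440582042688)) (.cons (.rf (nat_lit 2715)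 (nat_lit 493858305440582042688)) (.cons (.kr (nat_lit 256) (nat_lit 65536) (nat_lit 1) (nat_lit 0)) .nil))))) .nil))))) .nil))))),
 (.br (nat_lit 5) (nat_lit 0) (.cons (.ev (nat_lit 1213648258436567851335681) (nat_lit 1)) (.cons (.br (nat_lit 13) (nat_lit 0) (.cons (.br (nat_lit 11) (nat_lit 1) (.cons (.ev (nat_lit 20520101373157727289301545255940) (nat_lit 3)) (.cons (.ev (nat_lit 20520101373157727289301545517060) (nat_lit 3)) .nil))) (.cons (.kr (nat_lit 4740813226943354765312) (nat_lit 20361637766165934761540795236352) (nat_lit 8) (nat_lit 0)) .nil))) (.cons (.br (nat_lit 13) (nat_lit 0) (.cons (.br (nat_lit 2) (nat_lit 0) (.cons (.br (nat_lit 1) (nat_lit 0) (.cons (.ev (nat_lit 21473934211316725127298343307016) (nat_lit 4)) .nil)) (.cons (.br (nat_lit 8) (nat_lit 1) (.cons (.ev (nat_lit 21473934211316725127298343698696) (nat_lit 4)) .nil)) .nil))) (.cons (.br (nat_lit 2) (nat_lit 0) (.cons (.br (nat_lit 1) (nat_lit 0) (.cons (.ev (nat_lit 310693935641242276682858753) (nat_lit 1)) .nil))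 (.cons (.br (nat_lit 1) (nat_lit 0) (.cons (.ev (nat_lit 310693935641242276682858753) (nat_lit 1)) .nil)) .nil))) (.cons (.kr (nat_lit 309485009821345068724781056) (nat_lit 20282409603651670423947251286016) (nat_lit 11) (nat_lit 0)) .nil)))) .nil)))),
 (.br (nat_lit 2) (nat_lit 0) (.cons (.kr (nat_lit 20361637766165934761540795302144) (nat_lit 72058693583110144) (nat_lit 1) (nat_lit 0)) .nil)),
 (.br (nat_lit 4) (nat_lit 1) (.cons (.rf (nat_lit 2583) (nat_lit 493821221112400414752)) (.cons (.rf (nat_lit 2718) (nat_lit 493858305440582043680)) .nil))),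
 (.br (nat_lit 5) (nat_lit 0) (.cons (.rf (nat_lit 2717) (nat_lit 493858305440582043680)) (.cons (.ev (nat_lit 1213648258436567851335681) (nat_lit 1)) (.cons (.br (nat_lit 11) (nat_lit 1) (.cons (.rf (nat_lit 2719) (nat_lit 493858305440582043680)) (.cons (.rf (nat_lit 2719) (nat_lit 493858305440582042688)) (.cons (.kr (nat_lit 4740813226943354765312) (nat_lit 20361637766165934761540795236352) (nat_lit 8) (nat_lit 0)) .nil)))) .nil)))),
 (.br (nat_lit 10) (nat_lit 1) (.cons (.rf (nat_lit 2703) (nat_lit 493858305440582043680)) (.cons (.rf (nat_lit 2703) (nat_lit 493858305440582042688)) (.cons (.rf (nat_lit 2716) (nat_lit 493858305440582043680)) (.cons (.br (nat_lit 5) (nat_lit 0) (.cons (.rf (nat_lit 2717) (nat_lit 493858305440582043680)) (.cons (.ev (nat_lit 1213648258436567851335681) (nat_lit 1)) (.cons (.rf (nat_lit 2720) (nat_lit 493858305440582043680)) (.cons (.br (nat_lit 5) (nat_lit 0) (.cons (.rf (nat_lit 2717) (nat_lit 493858305440582043680)) (.cons (.ev (nat_lit 1213648258436567851335681)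 (nat_lit 1)) (.cons (.rf (nat_lit 2720) (nat_lit 493858305440582043680)) .nil)))) .nil))))) .nil))))),
 (.br (nat_lit 9) (nat_lit 1) (.cons (.rf (nat_lit 2636) (nat_lit 493858305440582043680)) (.cons (.rf (nat_lit 2636) (nat_lit 493858305440582042688)) (.cons (.rf (nat_lit 2693) (nat_lit 493858305440582043680)) (.cons (.br (nat_lit 10) (nat_lit 1) (.cons (.rf (nat_lit 2703) (nat_lit 493858305440582043680)) (.cons (.rf (nat_lit 2703) (nat_lit 493858305440582042688)) (.cons (.rf (nat_lit 2716) (nat_lit 493858305440582043680)) (.cons (.rf (nat_lit 2721) (nat_lit 493858305440582043680)) (.cons (.br (nat_lit 10) (nat_lit 1) (.cons (.rf (nat_lit 2703) (nat_lit 493858305440582043680)) (.cons (.rf (nat_lit 2703) (nat_lit 493858305440582042688)) (.cons (.rf (nat_lit 2716) (nat_lit 493858305440582043680)) (.cons (.rf (nat_lit 2721) (nat_lit 493858305440582043680)) .nil))))) .nil)))))) .nil))))),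
 (.br (nat_lit 9) (nat_lit 1) (.cons (.rf (nat_lit 2636) (nat_lit 493858305440582043680)) (.cons (.rf (nat_lit 2636) (nat_lit 493858305440582042688)) (.cons (.rf (nat_lit 2693) (nat_lit 493858305440582043680)) (.cons (.rf (nat_lit 2722) (nat_lit 493858305440582043680)) (.cons (.br (nat_lit 9) (nat_lit 1) (.cons (.rf (nat_lit 2636) (nat_lit 493858305440582043680)) (.cons (.rf (nat_lit 2636) (nat_lit 493858305440582042688)) (.cons (.rf (nat_lit 2693) (nat_lit 493858305440582043680)) (.cons (.rf (nat_lit 2722) (nat_lit 493858305440582043680)) .nil))))) .nil)))))),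
 (.br (nat_lit 7) (nat_lit 0) (.cons (.rf (nat_lit 2567) (nat_lit 493751347146309863456)) (.cons (.rf (nat_lit 2567) (nat_lit 493751347148455249952)) (.cons (.rf (nat_lit 2600) (nat_lit 493749165717385741376)) .nil)))),
 (.br (nat_lit 8) (nat_lit 1) (.cons (.rf (nat_lit 2566) (nat_lit 493751347148455249952)) (.cons (.br (nat_lit 13) (nat_lit 0) (.cons (.rf (nat_lit 2724) (nat_lit 493851550045438052384)) (.cons (.rf (nat_lit 2724) (nat_lit 493853801845249640480)) (.cons (.rf (nat_lit 2724) (nat_lit 493858305440582043680)) (.cons (.rf (nat_lit 2612) (nat_lit 493749165717385741376)) .nil))))) .nil))),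
 (.br (nat_lit 8) (nat_lit 1) (.cons (.rf (nat_lit 2725) (nat_lit 493858305440582043680)) (.cons (.br (nat_lit 6) (nat_lit 1) (.cons (.br (nat_lit 4) (nat_lit 1) (.cons (.ev (nat_lit 72339069031415809) (nat_lit 1)) (.cons (.br (nat_lit 11) (nat_lit 1) (.cons (.ev (nat_lit 79537652246524505704752021505) (nat_lit 1)) (.cons (.ev (nat_lit 20282719093402304997058842525953) (nat_lit 1)) .nil))) .nil))) (.cons (.br (nat_lit 11) (nat_lit 1) (.cons (.ev (nat_lit 79228162532711364241758683393) (nat_lit 1)) (.cons (.br (nat_lit 5) (nat_lit 0) (.cons (.br (nat_lit 13) (nat_lit 0) (.cons (.zr (nat_lit 36893769630985945088) (nat_lit 310698658151557755637334017) (nat_lit 5) (nat_lit 3)) .nil)) (.cons (.ev (nat_lit 79541279042430657711172681730) (nat_lit 2)) .nil))) .nil))) (.cons (.br (nat_lit 4) (nat_lit 1) (.cons (.br (nat_lit 13) (nat_lit 0) (.cons (.br (nat_lit 11) (nat_lit 1) (.cons (.ev (nat_lit 20679169395687728624226592555780) (nat_lit 3)) .nil)) (.cons (.ev (nat_lit 20282719093402304997058842525953)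 (nat_lit 1)) .nil))) (.cons (.br (nat_lit 10) (nat_lit 1) (.cons (.ev (nat_lit 79229371440156009821068394753) (nat_lit 1)) (.cons (.br (nat_lit 5) (nat_lit 0) (.cons (.ev (nat_lit 20838863679682047342601585361156) (nat_lit 3)) .nil)) .nil))) (.cons (.rf (nat_lit 2723) (nat_lit 458117738729117419552)) .nil)))) .nil)))) .nil))),
 (.br (nat_lit 8) (nat_lit 1) (.cons (.rf (nat_lit 2725) (nat_lit 493858305440582043680)) (.cons (.rf (nat_lit 2726) (nat_lit 493858305440582043680)) (.cons (.br (nat_lit 8) (nat_lit 1) (.cons (.rf (nat_lit 2725) (nat_lit 493858305440582043680)) (.cons (.rf (nat_lit 2726) (nat_lit 493858305440582043680)) .nil))) .nil)))),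
 (.br (nat_lit 8) (nat_lit 1) (.cons (.rf (nat_lit 2725) (nat_lit 493750222348060035104)) (.cons (.br (nat_lit 11) (nat_lit 1) (.cons (.rf (nat_lit 2727) (nat_lit 493858305440582043680)) (.cons (.br (nat_lit 4) (nat_lit 1) (.cons (.br (nat_lit 10) (nat_lit 1) (.cons (.br (nat_lit 6) (nat_lit 1) (.cons (.ev (nat_lit 20678555261481757185215264391940) (nat_lit 3)) .nil)) .nil)) (.cons (.ev (nat_lit 309485028340146740784005121) (nat_lit 1)) .nil))) (.cons (.br (nat_lit 2) (nat_lit 0) (.cons (.rf (nat_lit 2712) (nat_lit 493787340761102125088)) (.cons (.rf (nat_lit 2712) (nat_lit 493787340758956738592)) (.cons (.br (nat_lit 7) (nat_lit 0) (.cons (.ev (nat_lit 1213648258155092857913601) (nat_lit 1)) (.cons (.ev (nat_lit 310698658079501261111034113) (nat_lit 1)) .nil))) .nil)))) .nil)))) .nil))),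
 (.br (nat_lit 8) (nat_lit 1) (.cons (.rf (nat_lit 2725) (nat_lit 493750222348060035104)) (.cons (.rf (nat_lit 2728) (nat_lit 493858305440582043680)) (.cons (.br (nat_lit 8) (nat_lit 1) (.cons (.rf (nat_lit 2725) (nat_lit 493750222348060035104)) (.cons (.rf (nat_lit 2728) (nat_lit 493858305440582043680)) .nil))) .nil)))),
 (.br (nat_lit 8) (nat_lit 1) (.cons (.br (nat_lit 6) (nat_lit 1) (.cons (.br (nat_lit 4) (nat_lit 1) (.cons (.br (nat_lit 13) (nat_lit 0) (.cons (.ev (nat_lit 80160249062072782708201947650) (nat_lit 2)) .nil)) .nil)) (.cons (.br (nat_lit 13) (nat_lit 0) (.cons (.rf (nat_lit 2592) (nat_lit 14312768548240459808)) (.cons (.br (nat_lit 7) (nat_lit 0) (.cons (.ev (nat_lit 80160249062073064178883625730) (nat_lit 2)) .nil)) .nil))) .nil))) (.cons (.br (nat_lit 10) (nat_lit 1) (.cons (.br (nat_lit 4) (nat_lit 1) (.cons (.br (nat_lit 6) (nat_lit 1) (.cons (.zr (nat_lit 216176080682221568) (nat_lit 310698676454468120525930497) (nat_lit 5) (nat_lit 0)) .nil)) .nil)) (.cons (.br (nat_lit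 13) (nat_lit 0) (.cons (.ev (nat_lit 20361948460101647778837044396033) (nat_lit 1)) (.cons (.ev (nat_lit 20361948460101648060307726205185) (nat_lit 1)) .nil))) .nil))) (.cons (.ev (nat_lit 309489750634572012096389121) (nat_lit 1)) .nil)))),
 (.br (nat_lit 4) (nat_lit 1) (.cons (.kr (nat_lit 20361637766165934761540795302144) (nat_lit 72058693583110144) (nat_lit 1) (nat_lit 0)) .nil)),
 (.br (nat_lit 2) (nat_lit 0) (.cons (.rf (nat_lit 2731) (nat_lit 493858305438436657184)) (.cons (.rf (nat_lit 2731) (nat_lit 493858305440582043680)) .nil))),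
 (.br (nat_lit 8) (nat_lit 1) (.cons (.rf (nat_lit 2730) (nat_lit 493858305440582043680)) (.cons (.br (nat_lit 4) (nat_lit 1) (.cons (.br (nat_lit 6) (nat_lit 1) (.cons (.ev (nat_lit 79228167255149904709736726785) (nat_lit 1)) .nil)) (.cons (.ev (nat_lit 309485028340146740784005121) (nat_lit 1)) .nil))) (.cons (.br (nat_lit 10) (nat_lit 1) (.cons (.br (nat_lit 6) (nat_lit 1) (.cons (.ev (nat_lit 309485009893685237251112961) (nat_lit 1)) (.cons (.br (nat_lit 4) (nat_lit 1) (.cons (.zr (nat_lit 37109660929532887808) (nat_lit 310698658007724046833156097) (nat_lit 5) (nat_lit 0)) .nil)) .nil))) (.cons (.rf (nat_lit 2732) (nat_lit 493858305440582043680)) (.cons (.br (nat_lit 6) (nat_lit 1) (.cons (.br (nat_lit 4) (nat_lit 1) (.cons (.zr (nat_lit 37109660929532887808) (nat_lit 310698658007724046833156097) (nat_lit 5) (nat_lit 0)) .nil)) (.cons (.ev (nat_lit 20361947251194203133257734684673) (nat_lit 1)) .nil))) .nil)))) .nil))))]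

theorem c94 : chkAll C T R L94 (nat_lit 2704) = true := by decide +kernel

theorem l94 : (nat_lit 2704) + L94.length = (nat_lit 2734) := by decide +kernel

/-- part of the certificates -/
def L95 : List Prf := [(.br (nat_lit 13) (nat_lit 0) (.cons (.rf (nat_lit 2718) (nat_lit 493787340761102125088)) (.cons (.rf (nat_lit 2718) (nat_lit 493787340758956738592)) .nil))),
 (.br (nat_lit 8) (nat_lit 1) (.cons (.rf (nat_lit 2730) (nat_lit 493858305440582043680)) (.cons (.rf (nat_lit 2733) (nat_lit 493858305440582043680)) (.cons (.br (nat_lit 5) (nat_lit 0) (.cons (.ev (nat_lit 309485028340146740784005121) (nat_lit 1)) (.cons (.br (nat_lit 2) (nat_lit 0) (.cons (.ev (nat_lit 80156631710972500659079807490) (nat_lit 2)) (.cons (.br (nat_lit 4) (nat_lit 1) (.cons (.ev (nat_lit 21472701088165039813297763976456) (nat_lit 4)) .nil)) .nil))) (.cons (.rf (nat_lit 2734) (nat_lit 493858305440582043680)) .nil)))) .nil)))),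
 (.br (nat_lit 11) (nat_lit 1) (.cons (.rf (nat_lit 2727) (nat_lit 493858305440582043680)) (.cons (.rf (nat_lit 2729) (nat_lit 493858305440582043680)) (.cons (.br (nat_lit 8) (nat_lit 1) (.cons (.rf (nat_lit 2730) (nat_lit 493858305440582043680)) (.cons (.rf (nat_lit 2733) (nat_lit 493858305440582043680)) (.cons (.rf (nat_lit 2735) (nat_lit 493858305440582043680)) (.cons (.br (nat_lit 8) (nat_lit 1) (.cons (.ev (nat_lit 309489750634572012096389121) (nat_lit 1)) (.cons (.rf (nat_lit 2733) (nat_lit 493858305440582043680)) (.cons (.rf (nat_lit 2735) (nat_lit 493858305440582043680)) .nil)))) .nil))))) .nil)))),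
 (.br (nat_lit 13) (nat_lit 0) (.cons (.rf (nat_lit 2723) (nat_lit 458117738729117419552)) (.cons (.br (nat_lit 7) (nat_lit 0) (.cons (.rf (nat_lit 2725) (nat_lit 458082833635129526304)) (.cons (.ev (nat_lit 20361948464823942204108356780033) (nat_lit 1)) .nil))) .nil))),
 (.br (nat_lit 13) (nat_lit 0) (.cons (.rf (nat_lit 2723) (nat_lit 458117738729117419552)) (.cons (.br (nat_lit 11) (nat_lit 1) (.cons (.rf (nat_lit 2668) (nat_lit 493787336367350581280)) (.cons (.kr (nat_lit 20361637766165934761540795236608) (nat_lit 18518801667764256768) (nat_lit 1) (nat_lit 0)) .nil))) .nil))),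
 (.br (nat_lit 8) (nat_lit 1) (.cons (.rf (nat_lit 2587) (nat_lit 493856055839791613984)) (.cons (.br (nat_lit 13) (nat_lit 0) (.cons (.rf (nat_lit 2737) (nat_lit 493858305440582043680)) (.cons (.rf (nat_lit 2738) (nat_lit 493858305440582043680)) (.cons (.br (nat_lit 13) (nat_lit 0) (.cons (.rf (nat_lit 2737) (nat_lit 493858305440582043680)) (.cons (.rf (nat_lit 2738) (nat_lit 493858305440582043680)) .nil))) .nil)))) .nil))),
 (.br (nat_lit 11) (nat_lit 1) (.cons (.br (nat_lit 5) (nat_lit 0) (.cons (.ev (nat_lit 79537647524085683766092103681) (nat_lit 1)) (.cons (.ev (nat_lit 309485009893685237251112961) (nat_lit 1)) .nil))) .nil)),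
 (.br (nat_lit 8) (nat_lit 1) (.cons (.rf (nat_lit 2587) (nat_lit 493856055839791613984)) (.cons (.br (nat_lit 11) (nat_lit 1) (.cons (.rf (nat_lit 2740) (nat_lit 493858305440582043680)) (.cons (.br (nat_lit 11) (nat_lit 1) (.cons (.rf (nat_lit 2740) (nat_lit 493858305440582043680)) .nil)) .nil))) .nil))),
 (.br (nat_lit 13) (nat_lit 0) (.cons (.rf (nat_lit 2723) (nat_lit 458117738729117419552)) (.cons (.br (nat_lit 2) (nat_lit 0) (.cons (.rf (nat_lit 2579) (nat_lit 458009655636595410976)) (.cons (.br (nat_lit 7) (nat_lit 0) (.cons (.br (nat_lit 8) (nat_lit 1) (.cons (.ev (nat_lit 79229371458602754994272796673) (nat_lit 1)) .nil)) .nil)) .nil))) .nil))),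
 (.br (nat_lit 7) (nat_lit 0) (.cons (.kr (nat_lit 20361637766165934761540795302144) (nat_lit 72058693583110144) (nat_lit 1) (nat_lit 0)) .nil)),
 (.br (nat_lit 5) (nat_lit 0) (.cons (.rf (nat_lit 2743) (nat_lit 493858305440582043680)) (.cons (.rf (nat_lit 2743) (nat_lit 493750222348060035104)) .nil))),
 (.br (nat_lit 13) (nat_lit 0) (.cons (.rf (nat_lit 2723) (nat_lit 458117738729117419552)) (.cons (.br (nat_lit 6) (nat_lit 1) (.cons (.rf (nat_lit 2744) (nat_lit 493858305440582043680)) (.cons (.br (nat_lit 2) (nat_lit 0) (.cons (.br (nat_lit 7) (nat_lit 0) (.cons (.ev (nat_lit 20837628129123020010677436744452) (nat_lit 3)) .nil)) (.cons (.br (nat_lit 7) (nat_lit 0) (.cons (.ev (nat_lit 20679174231464506950146658337540) (nat_lit 3)) .nil)) .nil))) (.cons (.br (nat_lit 2) (nat_lit 0) (.cons (.br (nat_lit 5) (nat_lit 0) (.cons (.ev (nat_lit 309489750634572012096389121) (nat_lit 1)) .nil)) (.cons (.ev (nat_lit 79229371440156291291750138113) (nat_lit 1)) .nil))) .nil)))) .nil))),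
 (.br (nat_lit 13) (nat_lit 0) (.cons (.rf (nat_lit 2742) (nat_lit 493858305440582043680)) (.cons (.rf (nat_lit 2745) (nat_lit 493858305440582043680)) (.cons (.br (nat_lit 13) (nat_lit 0) (.cons (.rf (nat_lit 2742) (nat_lit 493858305440582043680)) (.cons (.rf (nat_lit 2745) (nat_lit 493858305440582043680)) .nil))) .nil)))),
 (.br (nat_lit 13) (nat_lit 0) (.cons (.rf (nat_lit 2723) (nat_lit 458117738729117419552)) (.cons (.br (nat_lit 4) (nat_lit 1) (.cons (.rf (nat_lit 2744) (nat_lit 493858305438436657184)) (.cons (.br (nat_lit 11) (nat_lit 1) (.cons (.ev (nat_lit 309489732187829037881622529) (nat_lit 1)) (.cons (.br (nat_lit 8) (nat_lit 1) (.cons (.ev (nat_lit 20837628129123018884794710034180) (nat_lit 3)) .nil)) .nil))) (.cons (.br (nat_lit 5) (nat_lit 0) (.cons (.br (nat_lit 2) (nat_lit 0) (.cons (.zr (nat_lit 37109660929533083648) (nat_lit 310698658007724046833156097) (nat_lit 5) (nat_lit 0)) .nil)) (.cons (.br (nat_lit 8) (nat_lit 1) (.cons (.ev (nat_lit 309489750634572012096389121) (nat_lit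 1)) .nil)) .nil))) .nil)))) .nil))),
 (.br (nat_lit 13) (nat_lit 0) (.cons (.rf (nat_lit 2746) (nat_lit 493858305440582043680)) (.cons (.rf (nat_lit 2747) (nat_lit 493858305440582043680)) (.cons (.br (nat_lit 13) (nat_lit 0) (.cons (.rf (nat_lit 2746) (nat_lit 493858305440582043680)) (.cons (.rf (nat_lit 2747) (nat_lit 493858305440582043680)) .nil))) .nil)))),
 (.br (nat_lit 13) (nat_lit 0) (.cons (.rf (nat_lit 2746) (nat_lit 493858305440582043680)) (.cons (.rf (nat_lit 2748) (nat_lit 493858305440582043680)) (.cons (.br (nat_lit 13) (nat_lit 0) (.cons (.rf (nat_lit 2746) (nat_lit 493858305440582043680)) (.cons (.rf (nat_lit 2748) (nat_lit 493858305440582043680)) .nil))) .nil)))),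
 (.br (nat_lit 2) (nat_lit 0) (.cons (.br (nat_lit 5) (nat_lit 0) (.cons (.br (nat_lit 11) (nat_lit 1) (.cons (.ev (nat_lit 79537647524085683766092103681) (nat_lit 1)) .nil)) .nil)) (.cons (.br (nat_lit 11) (nat_lit 1) (.cons (.br (nat_lit 8) (nat_lit 1) (.cons (.ev (nat_lit 20679169395687728624226592555780) (nat_lit 3)) .nil)) (.cons (.ev (nat_lit 20282719093383858251885638123521) (nat_lit 1)) .nil))) .nil))),
 (.br (nat_lit 13) (nat_lit 0) (.cons (.rf (nat_lit 2750) (nat_lit 493858305440582043680)) (.cons (.br (nat_lit 11) (nat_lit 1) (.cons (.ev (nat_lit 20283338072848450080548770087426) (nat_lit 2)) (.cons (.ev (nat_lit 79537647524085683766092103681) (nat_lit 1)) .nil))) .nil))),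
 (.br (nat_lit 13) (nat_lit 0) (.cons (.br (nat_lit 8) (nat_lit 1) (.cons (.br (nat_lit 11) (nat_lit 1) (.cons (.ev (nat_lit 20837628148086560018529121272580) (nat_lit 3)) .nil)) (.cons (.kr (nat_lit 18446744073709551616) (nat_lit 20282409603651670423947251286016) (nat_lit 8) (nat_lit 0)) .nil))) (.cons (.ev (nat_lit 20361948460101648060307726139393) (nat_lit 1)) .nil))),
 (.br (nat_lit 13) (nat_lit 0) (.cons (.rf (nat_lit 2752) (nat_lit 493858305440582043680)) (.cons (.br (nat_lit 8) (nat_lit 1) (.cons (.ev (nat_lit 20282409608392483650890622828801) (nat_lit 1)) (.cons (.ev (nat_lit 20282409603670189225619310510081) (nat_lit 1)) .nil))) .nil))),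
 (.br (nat_lit 7) (nat_lit 0) (.cons (.ev (nat_lit 72057598349672449) (nat_lit 1)) (.cons (.br (nat_lit 13) (nat_lit 0) (.cons (.rf (nat_lit 2750) (nat_lit 493858305440582043680)) (.cons (.rf (nat_lit 2751) (nat_lit 493858305440582043680)) (.cons (.br (nat_lit 13) (nat_lit 0) (.cons (.rf (nat_lit 2750) (nat_lit 493858305440582043680)) (.cons (.rf (nat_lit 2751) (nat_lit 493858305440582043680)) .nil))) .nil)))) (.cons (.br (nat_lit 13) (nat_lit 0) (.cons (.rf (nat_lit 2752) (nat_lit 493858305440582043680)) (.cons (.rf (nat_lit 2753) (nat_lit 493858305440582043680)) (.cons (.br (nat_lit 13) (nat_lit 0) (.cons (.ev (nat_lit 20361948460101648060307726139393) (nat_lit 1)) (.cons (.rf (nat_lit 2753) (nat_lit 493858305440582043680)) .nil))) .nil)))) .nil)))),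
 (.br (nat_lit 8) (nat_lit 1) (.cons (.ev (nat_lit 20679169395687729750109319268100) (nat_lit 3)) .nil)),
 (.br (nat_lit 11) (nat_lit 1) (.cons (.ev (nat_lit 310698658079501261111034113) (nat_lit 1)) (.cons (.br (nat_lit 13) (nat_lit 0) (.cons (.rf (nat_lit 2755) (nat_lit 493858305440582043680)) (.cons (.br (nat_lit 4) (nat_lit 1) (.cons (.zr (nat_lit 37109660929533083648) (nat_lit 310698658007724046833156097) (nat_lit 5) (nat_lit 0)) .nil)) .nil))) .nil))),
 (.br (nat_lit 11) (nat_lit 1) (.cons (.ev (nat_lit 310698658079501261111034113) (nat_lit 1)) (.cons (.br (nat_lit 4) (nat_lit 1) (.cons (.br (nat_lit 8) (nat_lit 1) (.cons (.zr (nat_lit 37109660929533083648) (nat_lit 310698658007724046833156097) (nat_lit 5) (nat_lit 0)) .nil)) (.cons (.ev (nat_lit 310693935640960801722859521) (nat_lit 1)) .nil))) .nil))),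
 (.br (nat_lit 4) (nat_lit 1) (.cons (.ev (nat_lit 72339069031481601) (nat_lit 1)) (.cons (.br (nat_lit 13) (nat_lit 0) (.cons (.br (nat_lit 11) (nat_lit 1) (.cons (.ev (nat_lit 20520715479066250890679479764740) (nat_lit 3)) .nil)) (.cons (.ev (nat_lit 79537647524085965236773912833) (nat_lit 1)) .nil))) .nil))),
 (.br (nat_lit 8) (nat_lit 1) (.cons (.rf (nat_lit 2758) (nat_lit 493858305440582043680)) (.cons (.br (nat_lit 11) (nat_lit 1) (.cons (.br (nat_lit 4) (nat_lit 1) (.cons (.ev (nat_lit 79537652246524505704752021505) (nat_lit 1)) .nil)) (.cons (.ev (nat_lit 20361637766165935044115300352001) (nat_lit 1)) .nil))) .nil))),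
 (.br (nat_lit 5) (nat_lit 0) (.cons (.rf (nat_lit 2754) (nat_lit 493858305440582043680)) (.cons (.br (nat_lit 11) (nat_lit 1) (.cons (.rf (nat_lit 2756) (nat_lit 493858305440582043680)) (.cons (.rf (nat_lit 2757) (nat_lit 493858305440582043680)) (.cons (.br (nat_lit 11) (nat_lit 1) (.cons (.rf (nat_lit 2756) (nat_lit 493858305440582043680)) (.cons (.rf (nat_lit 2757) (nat_lit 493858305440582043680)) .nil))) .nil)))) (.cons (.br (nat_lit 8) (nat_lit 1) (.cons (.rf (nat_lit 2758) (nat_lit 493858305440582043680)) (.cons (.rf (nat_lit 2759) (nat_lit 493858305440582043680)) (.cons (.br (nat_lit 8) (nat_lit 1) (.cons (.rf (nat_lit 2758) (nat_lit 493858305440582043680)) (.cons (.rf (nat_lit 2759) (nat_lit 493858305440582043680)) .nil))) .nil)))) .nil)))),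
 (.br (nat_lit 8) (nat_lit 1) (.cons (.rf (nat_lit 2725) (nat_lit 493786215960706909248)) (.cons (.br (nat_lit 11) (nat_lit 1) (.cons (.rf (nat_lit 795) (nat_lit 13980470980216864)) (.cons (.rf (nat_lit 2669) (nat_lit 493784068614497863712)) .nil))) (.cons (.rf (nat_lit 2669) (nat_lit 493787340761102125088)) .nil)))),
 (.br (nat_lit 11) (nat_lit 1) (.cons (.rf (nat_lit 2725) (nat_lit 493786318215288292416)) (.cons (.br (nat_lit 10) (nat_lit 1) (.cons (.br (nat_lit 6) (nat_lit 1) (.cons (.ev (nat_lit 79229371440156291291750072321) (nat_lit 1)) (.cons (.br (nat_lit 13) (nat_lit 0) (.cons (.rf (nat_lit 2723) (nat_lit 458082801744999450656)) (.cons (.br (nat_lit 4) (nat_lit 1) (.cons (.zr (nat_lit 37109660929532887808) (nat_lit 310698658007724046833156097) (nat_lit 5) (nat_lit 0)) .nil)) .nil))) .nil))) (.cons (.kr (nat_lit 79228162514264337593544015872) (nat_lit 72057594054705152) (nat_lit 2) (nat_lit 0)) (.cons (.br (nat_lit 5) (nat_lit 0) (.cons (.br (nat_lit 8) (nat_lit 1) (.cons (.ev (nat_lit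 79537652246524224225480343553) (nat_lit 1)) (.cons (.ev (nat_lit 20361637766165934762644618608641) (nat_lit 1)) .nil))) (.cons (.br (nat_lit 4) (nat_lit 1) (.cons (.br (nat_lit 13) (nat_lit 0) (.cons (.zr (nat_lit 37109660929532887808) (nat_lit 310698658007724046833156097) (nat_lit 5) (nat_lit 0)) .nil)) (.cons (.rf (nat_lit 2755) (nat_lit 493779562815853528128)) .nil))) .nil))) .nil)))) (.cons (.br (nat_lit 8) (nat_lit 1) (.cons (.br (nat_lit 10) (nat_lit 1) (.cons (.br (nat_lit 4) (nat_lit 1) (.cons (.ev (nat_lit 79229371440156009821068394753) (nat_lit 1)) (.cons (.br (nat_lit 7) (nat_lit 0) (.cons (.zr (nat_lit 36893769630985945088) (nat_lit 310698658151557755637334017) (nat_lit 5) (nat_lit 3)) .nil)) .nil))) (.cons (.ev (nat_lit 79537652264970967199661424641) (nat_lit 1)) (.cons (.br (nat_lit 6) (nat_lit 1) (.cons (.ev (nat_lit 20361637766165935044115300417793) (nat_lit 1)) (.cons (.br (nat_lit 5) (nat_lit 0) (.cons (.ev (nat_lit 20520096509083500562806722593540) (nat_lit 3)) .nil)) .nil)))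 .nil)))) (.cons (.br (nat_lit 4) (nat_lit 1) (.cons (.ev (nat_lit 20361637766184381505618799820801) (nat_lit 1)) (.cons (.br (nat_lit 10) (nat_lit 1) (.cons (.br (nat_lit 7) (nat_lit 0) (.cons (.ev (nat_lit 79229371458603036464954540033) (nat_lit 1)) .nil)) (.cons (.br (nat_lit 6) (nat_lit 1) (.cons (.ev (nat_lit 79229371458603036464954540033) (nat_lit 1)) .nil)) .nil))) .nil))) .nil))) .nil)))),
 (.br (nat_lit 6) (nat_lit 1) (.cons (.br (nat_lit 4) (nat_lit 1) (.cons (.kr (nat_lit 2417851639230357861040384) (nat_lit 20361637766166006819134833229824) (nat_lit 1) (nat_lit 0)) .nil)) .nil)),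
 (.br (nat_lit 8) (nat_lit 1) (.cons (.rf (nat_lit 2762) (nat_lit 493858305440582043680)) (.cons (.br (nat_lit 10) (nat_lit 1) (.cons (.br (nat_lit 4) (nat_lit 1) (.cons (.br (nat_lit 11) (nat_lit 1) (.cons (.ev (nat_lit 309489732187829037881622529) (nat_lit 1)) (.cons (.br (nat_lit 7) (nat_lit 0) (.cons (.zr (nat_lit 36893769630985945088) (nat_lit 310698658151557755637334017) (nat_lit 5) (nat_lit 3)) .nil)) .nil))) (.cons (.ev (nat_lit 79229371440156009821068394753) (nat_lit 1)) (.cons (.br (nat_lit 5) (nat_lit 0) (.cons (.br (nat_lit 7) (nat_lit 0) (.cons (.ev (nat_lit 20679174231464506950146658337540) (nat_lit 3)) .nil)) (.cons (.br (nat_lit 6) (nat_lit 1) (.cons (.ev (nat_lit 79541279042430657711172551170) (nat_lit 2)) .nil)) .nil))) .nil)))) (.cons (.br (nat_lit 11) (nat_lit 1) (.cons (.ev (nat_lit 79537652264970967199661424641) (nat_lit 1)) (.cons (.rf (nat_lit 2763) (nat_lit 493858305440582043680)) .nil))) (.cons (.br (nat_lit 6) (nat_lit 1) (.cons (.br (nat_lit 11) (nat_lit 1) (.cons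 (.ev (nat_lit 20361637766165935044115300417793) (nat_lit 1)) (.cons (.br (nat_lit 5) (nat_lit 0) (.cons (.ev (nat_lit 80156631710972500659079742210) (nat_lit 2)) .nil)) .nil))) (.cons (.br (nat_lit 11) (nat_lit 1) (.cons (.br (nat_lit 5) (nat_lit 0) (.cons (.zr (nat_lit 36893769630985945088) (nat_lit 310698658151557755637334017) (nat_lit 5) (nat_lit 3)) .nil)) .nil)) .nil))) .nil)))) .nil)))]

theorem c95 : chkAll C T R L95 (nat_lit 2734) = true := by decide +kernel

theorem l95 : (nat_lit 2734) + L95.length = (nat_lit 2765) := by decide +kernel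

/-- part of the certificates -/
def L96 : List Prf := [(.br (nat_lit 8) (nat_lit 1) (.cons (.rf (nat_lit 2762) (nat_lit 493858305440582043680)) (.cons (.rf (nat_lit 2764) (nat_lit 493858305440582043680)) (.cons (.br (nat_lit 8) (nat_lit 1) (.cons (.rf (nat_lit 2762) (nat_lit 493858305440582043680)) (.cons (.rf (nat_lit 2764) (nat_lit 493858305440582043680)) .nil))) .nil)))),
 (.br (nat_lit 8) (nat_lit 1) (.cons (.rf (nat_lit 2725) (nat_lit 493786215960706909248)) (.cons (.br (nat_lit 4) (nat_lit 1) (.cons (.br (nat_lit 10) (nat_lit 1) (.cons (.br (nat_lit 6) (nat_lit 1) (.cons (.ev (nat_lit 20837628148086560018529121403140) (nat_lit 3)) .nil)) .nil)) (.cons (.br (nat_lit 13) (nat_lit 0) (.cons (.ev (nat_lit 20361637770906820327557459673345) (nat_lit 1)) (.cons (.br (nat_lit 5) (nat_lit 0) (.cons (.ev (nat_lit 20837628148086560018529121403140) (nat_lit 3)) .nil)) .nil))) .nil))) (.cons (.ev (nat_lit 309489750634572012096389121) (nat_lit 1)) .nil)))),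
 (.br (nat_lit 8) (nat_lit 1) (.cons (.rf (nat_lit 2725) (nat_lit 493786215960706909248)) (.cons (.br (nat_lit 10) (nat_lit 1) (.cons (.br (nat_lit 6) (nat_lit 1) (.cons (.zr (nat_lit 158457538713608260833327251456) (nat_lit 144396663102898434) (nat_lit 10) (nat_lit 10)) .nil)) (.cons (.br (nat_lit 13) (nat_lit 0) (.cons (.rf (nat_lit 2644) (nat_lit 493787340761102124096)) (.cons (.rf (nat_lit 2644) (nat_lit 493787340758956737600)) .nil))) .nil))) (.cons (.rf (nat_lit 2627) (nat_lit 493856055839791613984)) .nil)))),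
 (.br (nat_lit 8) (nat_lit 1) (.cons (.rf (nat_lit 2766) (nat_lit 493858305440582043680)) (.cons (.rf (nat_lit 2767) (nat_lit 493858305440582043680)) (.cons (.br (nat_lit 13) (nat_lit 0) (.cons (.ev (nat_lit 309485028340146740784005121) (nat_lit 1)) (.cons (.br (nat_lit 2) (nat_lit 0) (.cons (.ev (nat_lit 20361637770906820327557459673345) (nat_lit 1)) (.cons (.br (nat_lit 4) (nat_lit 1) (.cons (.ev (nat_lit 20997332113079888948076365809928) (nat_lit 4)) .nil)) .nil))) (.cons (.br (nat_lit 5) (nat_lit 0) (.cons (.br (nat_lit 2) (nat_lit 0) (.cons (.ev (nat_lit 79229376162450716571652390913) (nat_lit 1)) .nil)) (.cons (.br (nat_lit 4) (nat_lit 1) (.cons (.ev (nat_lit 79537652246524505704751956225) (nat_lit 1)) .nil)) .nil))) .nil)))) .nil)))),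
 (.br (nat_lit 8) (nat_lit 1) (.cons (.rf (nat_lit 2675) (nat_lit 493787334168329422880)) (.cons (.br (nat_lit 10) (nat_lit 1) (.cons (.kr (nat_lit 20361637766165934762640306864384) (nat_lit 618970019714747731487555584) (nat_lit 1) (nat_lit 0)) .nil)) .nil))),
 (.br (nat_lit 11) (nat_lit 1) (.cons (.rf (nat_lit 2765) (nat_lit 493858305440582043680)) (.cons (.br (nat_lit 8) (nat_lit 1) (.cons (.rf (nat_lit 2766) (nat_lit 493858305440582043680)) (.cons (.rf (nat_lit 2767) (nat_lit 493858305440582043680)) (.cons (.rf (nat_lit 2768) (nat_lit 493858305440582043680)) (.cons (.br (nat_lit 8) (nat_lit 1) (.cons (.ev (nat_lit 309489750634572012096389121) (nat_lit 1)) (.cons (.rf (nat_lit 2627) (nat_lit 493856055839791613984)) (.cons (.rf (nat_lit 2768) (nat_lit 493858305440582043680)) .nil)))) .nil))))) (.cons (.br (nat_lit 13) (nat_lit 0) (.cons (.br (nat_lit 8) (nat_lit 1) (.cons (.br (nat_lit 8) (nat_lit 1) (.cons (.rf (nat_lit 2725) (nat_lit 493786215960706909248)) (.cons (.ev (nat_lit 309489750634572012096389121)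 (nat_lit 1)) .nil))) (.cons (.rf (nat_lit 2674) (nat_lit 493784062021725161504)) (.cons (.br (nat_lit 8) (nat_lit 1) (.cons (.ev (nat_lit 309489750634572012096389121) (nat_lit 1)) (.cons (.rf (nat_lit 2627) (nat_lit 493751347148455249952)) .nil))) .nil)))) (.cons (.br (nat_lit 5) (nat_lit 0) (.cons (.ev (nat_lit 79537647524085683766092103681) (nat_lit 1)) (.cons (.rf (nat_lit 2674) (nat_lit 493784064220746319904)) (.cons (.br (nat_lit 4) (nat_lit 1) (.cons (.ev (nat_lit 79538861172272062739872022785) (nat_lit 1)) (.cons (.br (nat_lit 2) (nat_lit 0) (.cons (.br (nat_lit 8) (nat_lit 1) (.cons (.ev (nat_lit 309489750634572012096389121) (nat_lit 1)) .nil)) .nil)) .nil))) .nil)))) (.cons (.br (nat_lit 4) (nat_lit 1) (.cons (.br (nat_lit 6) (nat_lit 1) (.cons (.ev (nat_lit 20361947251175756388084496793601) (nat_lit 1)) (.cons (.rf (nat_lit 2769) (nat_lit 493858305440582043680)) .nil))) (.cons (.ev (nat_lit 79537647524085683766092103681) (nat_lit 1)) (.cons (.br (nat_lit 2) (nat_lit 0) (.cons (.rf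 (nat_lit 2769) (nat_lit 493858305438436657184)) (.cons (.br (nat_lit 5) (nat_lit 0) (.cons (.ev (nat_lit 79537647524085965236773912833) (nat_lit 1)) (.cons (.br (nat_lit 7) (nat_lit 0) (.cons (.zr (nat_lit 618970019858862919563542528) (nat_lit 1213666633123051817926657) (nat_lit 5) (nat_lit 0)) .nil)) .nil))) (.cons (.br (nat_lit 5) (nat_lit 0) (.cons (.ev (nat_lit 20361637766165935044115300417793) (nat_lit 1)) (.cons (.rf (nat_lit 2675) (nat_lit 493787340761102125088)) .nil))) .nil)))) .nil)))) (.cons (.kr (nat_lit 309485009821345068724781056) (nat_lit 20282409603651670423947251286016) (nat_lit 11) (nat_lit 0)) .nil))))) .nil)))),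
 (.br (nat_lit 5) (nat_lit 0) (.cons (.br (nat_lit 13) (nat_lit 0) (.cons (.br (nat_lit 7) (nat_lit 0) (.cons (.ev (nat_lit 309485028340146740784005121) (nat_lit 1)) (.cons (.br (nat_lit 2) (nat_lit 0) (.cons (.zr (nat_lit 2417851639232556884296448) (nat_lit 309489750634853491368001537) (nat_lit 5) (nat_lit 0)) .nil)) .nil))) (.cons (.br (nat_lit 2) (nat_lit 0) (.cons (.br (nat_lit 8) (nat_lit 1) (.cons (.ev (nat_lit 79228167255149623230465048833) (nat_lit 1)) .nil)) .nil)) .nil))) (.cons (.br (nat_lit 8) (nat_lit 1) (.cons (.ev (nat_lit 309489750634572012096389121) (nat_lit 1)) (.cons (.br (nat_lit 6) (nat_lit 1) (.cons (.br (nat_lit 13) (nat_lit 0) (.cons (.ev (nat_lit 79229376162450716571652390913) (nat_lit 1)) .nil)) (.cons (.br (nat_lit 2) (nat_lit 0) (.cons (.ev (nat_lit 20837625711382205926224234088196) (nat_lit 3)) .nil)) .nil))) (.cons (.br (nat_lit 6) (nat_lit 1) (.cons (.ev (nat_lit 79228162532711082771076940033) (nat_lit 1)) (.cons (.ev (nat_lit 20520094091213126355791336440066)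 (nat_lit 2)) .nil))) .nil)))) (.cons (.br (nat_lit 7) (nat_lit 0) (.cons (.ev (nat_lit 79229371440156291291750072321) (nat_lit 1)) (.cons (.br (nat_lit 8) (nat_lit 1) (.cons (.br (nat_lit 13) (nat_lit 0) (.cons (.ev (nat_lit 20837628129123018884794709901572) (nat_lit 3)) .nil)) (.cons (.ev (nat_lit 309485028340146740784005121) (nat_lit 1)) .nil))) .nil))) .nil)))),
 (.br (nat_lit 2) (nat_lit 0) (.cons (.kr (nat_lit 36965545741457031424) (nat_lit 20361637766165934762640306929664) (nat_lit 1) (nat_lit 0)) .nil)),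
 (.br (nat_lit 13) (nat_lit 0) (.cons (.br (nat_lit 8) (nat_lit 1) (.cons (.ev (nat_lit 20282410812595937064125112254721) (nat_lit 1)) .nil)) .nil)),
 (.br (nat_lit 5) (nat_lit 0) (.cons (.rf (nat_lit 2771) (nat_lit 493858305440582043680)) (.cons (.br (nat_lit 8) (nat_lit 1) (.cons (.ev (nat_lit 309489750634572012096389121) (nat_lit 1)) (.cons (.br (nat_lit 4) (nat_lit 1) (.cons (.br (nat_lit 10) (nat_lit 1) (.cons (.ev (nat_lit 20678550425704979985177925583620) (nat_lit 3)) .nil)) (.cons (.ev (nat_lit 309485028340146740784005121) (nat_lit 1)) .nil))) (.cons (.br (nat_lit 7) (nat_lit 0) (.cons (.rf (nat_lit 2772) (nat_lit 493858305440582043680)) (.cons (.ev (nat_lit 20282410812595937064125112254721) (nat_lit 1)) .nil))) .nil)))) (.cons (.br (nat_lit 2) (nat_lit 0) (.cons (.rf (nat_lit 2773) (nat_lit 493858305440582043680)) (.cons (.br (nat_lit 4) (nat_lit 1) (.cons (.ev (nat_lit 79229371440156009821068394753) (nat_lit 1)) (.cons (.br (nat_lit 8) (nat_lit 1) (.cons (.ev (nat_lit 20837628129123020010677437138180)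 (nat_lit 3)) .nil)) .nil))) .nil))) .nil)))),
 (.br (nat_lit 5) (nat_lit 0) (.cons (.rf (nat_lit 2771) (nat_lit 493858305440582043680)) (.cons (.rf (nat_lit 2774) (nat_lit 493858305440582043680)) (.cons (.br (nat_lit 2) (nat_lit 0) (.cons (.br (nat_lit 13) (nat_lit 0) (.cons (.br (nat_lit 7) (nat_lit 0) (.cons (.ev (nat_lit 20678555261481757185215264391940) (nat_lit 3)) .nil)) (.cons (.kr (nat_lit 18446744073709617152) (nat_lit 1099528404992) (nat_lit 2) (nat_lit 0)) .nil))) (.cons (.br (nat_lit 13) (nat_lit 0) (.cons (.ev (nat_lit 309489732188110517153366273) (nat_lit 1)) (.cons (.br (nat_lit 4) (nat_lit 1) (.cons (.zr (nat_lit 37109660929532887808) (nat_lit 310698658007724046833156097) (nat_lit 5) (nat_lit 0)) .nil)) .nil))) (.cons (.ev (nat_lit 309489750634572012096389121) (nat_lit 1)) .nil)))) .nil)))),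
 (.br (nat_lit 11) (nat_lit 1) (.cons (.rf (nat_lit 2765) (nat_lit 493858305440582043680)) (.cons (.rf (nat_lit 2770) (nat_lit 493858305440582043680)) (.cons (.br (nat_lit 5) (nat_lit 0) (.cons (.rf (nat_lit 2771) (nat_lit 493858305440582043680)) (.cons (.rf (nat_lit 2774) (nat_lit 493858305440582043680)) (.cons (.rf (nat_lit 2775) (nat_lit 493858305440582043680)) (.cons (.br (nat_lit 5) (nat_lit 0) (.cons (.rf (nat_lit 2771) (nat_lit 493858305440582043680)) (.cons (.rf (nat_lit 2774) (nat_lit 493858305440582043680)) (.cons (.rf (nat_lit 2775) (nat_lit 493858305440582043680)) .nil)))) .nil))))) .nil)))),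
 (.br (nat_lit 9) (nat_lit 1) (.cons (.kr (nat_lit 256) (nat_lit 65536) (nat_lit 1) (nat_lit 0)) (.cons (.br (nat_lit 11) (nat_lit 1) (.cons (.rf (nat_lit 2727) (nat_lit 493858305440582043680)) (.cons (.rf (nat_lit 2729) (nat_lit 493858305440582043680)) (.cons (.rf (nat_lit 2736) (nat_lit 493858305440582043680)) (.cons (.br (nat_lit 11) (nat_lit 1) (.cons (.rf (nat_lit 2727) (nat_lit 493858305440582043680)) (.cons (.rf (nat_lit 2729) (nat_lit 493858305440582043680)) (.cons (.rf (nat_lit 2736) (nat_lit 493858305440582043680)) .nil)))) .nil))))) (.cons (.br (nat_lit 10) (nat_lit 1) (.cons (.br (nat_lit 8) (nat_lit 1) (.cons (.rf (nat_lit 2739) (nat_lit 493858305440582043680)) (.cons (.rf (nat_lit 2741) (nat_lit 493858305440582043680)) (.cons (.br (nat_lit 8) (nat_lit 1) (.cons (.rf (nat_lit 2739) (nat_lit 493858305440582043680)) (.cons (.rf (nat_lit 2741) (nat_lit 493858305440582043680)) .nil))) .nil)))) (.cons (.br (nat_lit 13) (nat_lit 0) (.cons (.rf (nat_lit 2746) (nat_lit 493858305440582043680))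 (.cons (.rf (nat_lit 2748) (nat_lit 493858305440582043680)) (.cons (.rf (nat_lit 2749) (nat_lit 493858305440582043680)) (.cons (.br (nat_lit 13) (nat_lit 0) (.cons (.rf (nat_lit 2746) (nat_lit 493858305440582043680)) (.cons (.rf (nat_lit 2748) (nat_lit 493858305440582043680)) (.cons (.rf (nat_lit 2749) (nat_lit 493858305440582043680)) .nil)))) .nil))))) (.cons (.kr (nat_lit 79228162514264337593543950592) (nat_lit 72057594054705152) (nat_lit 1) (nat_lit 0)) (.cons (.br (nat_lit 5) (nat_lit 0) (.cons (.rf (nat_lit 2754) (nat_lit 493858305440582043680)) (.cons (.rf (nat_lit 2760) (nat_lit 493858305440582043680)) (.cons (.br (nat_lit 5) (nat_lit 0) (.cons (.rf (nat_lit 2754) (nat_lit 493858305440582043680)) (.cons (.rf (nat_lit 2760) (nat_lit 493858305440582043680)) (.cons (.rf (nat_lit 2761) (nat_lit 493858305440582043680)) .nil)))) (.cons (.br (nat_lit 5) (nat_lit 0) (.cons (.rf (nat_lit 2754) (nat_lit 493858305440582043680)) (.cons (.rf (nat_lit 2760) (nat_lit 493858305440582043680)) (.cons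 (.rf (nat_lit 2761) (nat_lit 493858305440582043680)) .nil)))) .nil))))) .nil))))) (.cons (.br (nat_lit 11) (nat_lit 1) (.cons (.rf (nat_lit 2765) (nat_lit 493858305440582043680)) (.cons (.rf (nat_lit 2770) (nat_lit 493858305440582043680)) (.cons (.rf (nat_lit 2776) (nat_lit 493858305440582043680)) (.cons (.br (nat_lit 11) (nat_lit 1) (.cons (.rf (nat_lit 2765) (nat_lit 493858305440582043680)) (.cons (.rf (nat_lit 2770) (nat_lit 493858305440582043680)) (.cons (.rf (nat_lit 2776) (nat_lit 493858305440582043680)) .nil)))) .nil))))) .nil))))),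
 (.br (nat_lit 7) (nat_lit 0) (.cons (.kr (nat_lit 309485009821346168236408832) (nat_lit 79228162514336395187581878272) (nat_lit 5) (nat_lit 0)) (.cons (.br (nat_lit 2) (nat_lit 0) (.cons (.rf (nat_lit 2761) (nat_lit 420143352586268935232)) (.cons (.rf (nat_lit 2761) (nat_lit 455739978932006519872)) .nil))) .nil))),
 (.br (nat_lit 5) (nat_lit 0) (.cons (.br (nat_lit 13) (nat_lit 0) (.cons (.rf (nat_lit 2652) (nat_lit 14315014848352716832)) (.cons (.rf (nat_lit 2778) (nat_lit 15431909825759512608)) (.cons (.br (nat_lit 8) (nat_lit 1) (.cons (.rf (nat_lit 2777) (nat_lit 458082801744999450656)) (.cons (.rf (nat_lit 2777) (nat_lit 458082801744999449664)) (.cons (.kr (nat_lit 20282409603670189225619293732864) (nat_lit 79228167236631103037677502464) (nat_lit 4) (nat_lit 0)) .nil)))) .nil)))) (.cons (.ev (nat_lit 1213648186380073325035521) (nat_lit 1)) (.cons (.br (nat_lit 13) (nat_lit 0) (.cons (.rf (nat_lit 2723) (nat_lit 458117738729117419552)) (.cons (.rf (nat_lit 2778) (nat_lit 15431913124294395936))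 (.cons (.rf (nat_lit 2652) (nat_lit 14315014848355862560)) .nil)))) .nil)))),
 (.br (nat_lit 6) (nat_lit 1) (.cons (.br (nat_lit 8) (nat_lit 1) (.cons (.br (nat_lit 7) (nat_lit 0) (.cons (.ev (nat_lit 79537652264898910709446934785) (nat_lit 1)) .nil)) (.cons (.ev (nat_lit 20282410812577562377649735663873) (nat_lit 1)) .nil))) (.cons (.br (nat_lit 8) (nat_lit 1) (.cons (.ev (nat_lit 20282410822040670312443186184706) (nat_lit 2)) (.cons (.ev (nat_lit 20520094105380226649929025585154) (nat_lit 2)) .nil))) (.cons (.rf (nat_lit 2627) (nat_lit 458041216020506576928)) .nil)))),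
 (.br (nat_lit 13) (nat_lit 0) (.cons (.rf (nat_lit 2723) (nat_lit 458117738729117419552)) (.cons (.br (nat_lit 5) (nat_lit 0) (.cons (.br (nat_lit 7) (nat_lit 0) (.cons (.br (nat_lit 2) (nat_lit 0) (.cons (.br (nat_lit 11) (nat_lit 1) (.cons (.zr (nat_lit 61084913298498020460703034769408) (nat_lit 621397352908936241085415426) (nat_lit 10) (nat_lit 0)) .nil)) .nil)) (.cons (.br (nat_lit 2) (nat_lit 0) (.cons (.br (nat_lit 1) (nat_lit 0) (.cons (.ev (nat_lit 309485028268090241946026241) (nat_lit 1)) .nil)) (.cons (.br (nat_lit 1) (nat_lit 0) (.cons (.ev (nat_lit 309485028268090241946026241) (nat_lit 1)) .nil)) .nil))) .nil))) (.cons (.rf (nat_lit 2652) (nat_lit 14310515646771857440)) (.cons (.br (nat_lit 8) (nat_lit 1) (.cons (.rf (nat_lit 2644) (nat_lit 493751347148455248960)) (.cons (.rf (nat_lit 2644) (nat_lit 493751347148455249952)) (.cons (.ev (nat_lit 1208944266359806707630081) (nat_lit 1)) .nil)))) .nil)))) (.cons (.br (nat_lit 10) (nat_lit 1) (.cons (.rf (nat_lit 2780) (nat_lit 493858305440582043680))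 (.cons (.rf (nat_lit 2780) (nat_lit 493858305440582042688)) (.cons (.br (nat_lit 7) (nat_lit 0) (.cons (.br (nat_lit 8) (nat_lit 1) (.cons (.zr (nat_lit 20282409603651814821709865811968) (nat_lit 79228167236630820471779099137) (nat_lit 5) (nat_lit 6)) (.cons (.zr (nat_lit 20282409603651814821709865811968) (nat_lit 79228167236630820471779229697) (nat_lit 5) (nat_lit 6)) .nil))) (.cons (.br (nat_lit 2) (nat_lit 0) (.cons (.br (nat_lit 11) (nat_lit 1) (.cons (.ev (nat_lit 20837014013733302298778064585988) (nat_lit 3)) .nil)) (.cons (.br (nat_lit 1) (nat_lit 0) (.cons (.ev (nat_lit 20837014013733302298778064455428) (nat_lit 3)) .nil)) .nil))) (.cons (.br (nat_lit 1) (nat_lit 0) (.cons (.br (nat_lit 8) (nat_lit 1) (.cons (.ev (nat_lit 20679788384633730733990041814788) (nat_lit 3)) .nil)) (.cons (.br (nat_lit 6) (nat_lit 1) (.cons (.ev (nat_lit 20679788384633730733990042075908) (nat_lit 3)) .nil)) .nil))) .nil)))) (.cons (.br (nat_lit 5) (nat_lit 0) (.cons (.br (nat_lit 2) (nat_lit 0) (.cons (.br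 (nat_lit 11) (nat_lit 1) (.cons (.ev (nat_lit 309489750634572012096389121) (nat_lit 1)) .nil)) (.cons (.br (nat_lit 1) (nat_lit 0) (.cons (.ev (nat_lit 309489750634572012096323841) (nat_lit 1)) .nil)) .nil))) (.cons (.rf (nat_lit 2680) (nat_lit 15430746546752292896)) (.cons (.rf (nat_lit 2680) (nat_lit 15430852099868559392)) .nil)))) .nil))))) .nil)))),
 (.br (nat_lit 8) (nat_lit 1) (.cons (.ev (nat_lit 20361947251194274908277267496961) (nat_lit 1)) .nil)),
 (.br (nat_lit 13) (nat_lit 0) (.cons (.rf (nat_lit 2779) (nat_lit 493858305440582043680)) (.cons (.rf (nat_lit 2781) (nat_lit 493858305440582043680)) (.cons (.br (nat_lit 5) (nat_lit 0) (.cons (.br (nat_lit 7) (nat_lit 0) (.cons (.br (nat_lit 2) (nat_lit 0) (.cons (.br (nat_lit 1) (nat_lit 0) (.cons (.ev (nat_lit 309485028268090241946026241) (nat_lit 1)) .nil)) (.cons (.rf (nat_lit 2782) (nat_lit 493858305440582043680)) .nil))) (.cons (.br (nat_lit 1) (nat_lit 0) (.cons (.br (nat_lit 8) (nat_lit 1) (.cons (.ev (nat_lit 21314237490582170999267453306376)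 (nat_lit 4)) .nil)) .nil)) .nil))) (.cons (.br (nat_lit 11) (nat_lit 1) (.cons (.rf (nat_lit 2644) (nat_lit 493856055839791612992)) (.cons (.rf (nat_lit 2644) (nat_lit 493856055839791613984)) (.cons (.br (nat_lit 1) (nat_lit 0) (.cons (.br (nat_lit 8) (nat_lit 1) (.cons (.ev (nat_lit 79228167255149904709736792065) (nat_lit 1)) .nil)) (.cons (.br (nat_lit 2) (nat_lit 0) (.cons (.ev (nat_lit 79228167255149904709736726785) (nat_lit 1)) .nil)) .nil))) .nil)))) (.cons (.rf (nat_lit 2652) (nat_lit 14310515646775003168)) .nil)))) .nil)))),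
 (.br (nat_lit 13) (nat_lit 0) (.cons (.rf (nat_lit 2779) (nat_lit 493858305440582043680)) (.cons (.rf (nat_lit 2781) (nat_lit 493858305440582043680)) (.cons (.rf (nat_lit 2783) (nat_lit 493858305440582043680)) (.cons (.br (nat_lit 13) (nat_lit 0) (.cons (.rf (nat_lit 2779) (nat_lit 493858305440582043680)) (.cons (.rf (nat_lit 2781) (nat_lit 493858305440582043680)) (.cons (.rf (nat_lit 2783) (nat_lit 493858305440582043680)) .nil)))) .nil)))))]

theorem c96 : chkAll C T R L96 (nat_lit 2765) = true := by decide +kernel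

theorem l96 : (nat_lit 2765) + L96.length = (nat_lit 2785) := by decide +kernel

/-- part of the certificates -/
def L97 : List Prf := [(.br (nat_lit 1) (nat_lit 0) (.cons (.kr (nat_lit 4722366764344621924608) (nat_lit 18446744078004584448) (nat_lit 1) (nat_lit 0)) (.cons (.kr (nat_lit 256) (nat_lit 65536) (nat_lit 1) (nat_lit 0)) .nil))),
 (.br (nat_lit 2) (nat_lit 0) (.cons (.rf (nat_lit 2785) (nat_lit 198675463277379684384)) (.cons (.rf (nat_lit 2785) (nat_lit 493858305440582043680)) .nil))),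
 (.br (nat_lit 2) (nat_lit 0) (.cons (.ev (nat_lit 158768227945402103383105470466) (nat_lit 2)) .nil)),
 (.br (nat_lit 10) (nat_lit 1) (.cons (.br (nat_lit 8) (nat_lit 1) (.cons (.rf (nat_lit 2609) (nat_lit 458045505213226387488)) (.cons (.ev (nat_lit 20282410812577562377649735663873) (nat_lit 1)) .nil))) (.cons (.ev (nat_lit 1213648186380073325035521) (nat_lit 1)) (.cons (.rf (nat_lit 2627) (nat_lit 458045508513903511584)) .nil)))),
 (.br (nat_lit 2) (nat_lit 0) (.cons (.ev (nat_lit 309489750634572012096323841) (nat_lit 1)) .nil)),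
 (.br (nat_lit 13) (nat_lit 0) (.cons (.rf (nat_lit 2723) (nat_lit 458117738729117419552)) (.cons (.br (nat_lit 5) (nat_lit 0) (.cons (.br (nat_lit 7) (nat_lit 0) (.cons (.rf (nat_lit 2786) (nat_lit 493858305440582043680)) (.cons (.br (nat_lit 11) (nat_lit 1) (.cons (.ev (nat_lit 20282413244596444889234465096450) (nat_lit 2)) (.cons (.ev (nat_lit 20282413244596444889234465292290) (nat_lit 2)) .nil))) .nil))) (.cons (.kr (nat_lit 18446744073709551616) (nat_lit 20282409603651670423947251286016) (nat_lit 8) (nat_lit 0)) (.cons (.br (nat_lit 8) (nat_lit 1) (.cons (.rf (nat_lit 2644) (nat_lit 493751347146309862464)) (.cons (.rf (nat_lit 2644) (nat_lit 493751347146309863456)) (.cons (.br (nat_lit 4) (nat_lit 1) (.cons (.rf (nat_lit 2787) (nat_lit 493858305440582043680)) (.cons (.rf (nat_lit 2787) (nat_lit 493858305440582042688)) .nil))) .nil)))) .nil)))) (.cons (.br (nat_lit 4) (nat_lit 1) (.cons (.rf (nat_lit 2788) (nat_lit 493858305440582043680)) (.cons (.rf (nat_lit 2788) (nat_lit 493858305440582042688))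 (.cons (.br (nat_lit 7) (nat_lit 0) (.cons (.rf (nat_lit 2786) (nat_lit 493858305440582043680)) (.cons (.br (nat_lit 8) (nat_lit 1) (.cons (.rf (nat_lit 2789) (nat_lit 493858305440582043680)) (.cons (.rf (nat_lit 2789) (nat_lit 493858305440582042688)) .nil))) (.cons (.br (nat_lit 2) (nat_lit 0) (.cons (.ev (nat_lit 79537652246452447006890721281) (nat_lit 1)) (.cons (.ev (nat_lit 20282719093383930592054147612673) (nat_lit 1)) .nil))) .nil)))) (.cons (.kr (nat_lit 20282409603651670423951546253312) (nat_lit 4722366764344621924352) (nat_lit 4) (nat_lit 0)) .nil))))) .nil)))),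
 (.br (nat_lit 13) (nat_lit 0) (.cons (.rf (nat_lit 2784) (nat_lit 493858305440582043680)) (.cons (.rf (nat_lit 2790) (nat_lit 493858305440582043680)) (.cons (.br (nat_lit 7) (nat_lit 0) (.cons (.rf (nat_lit 2652) (nat_lit 15433037924689610784)) (.cons (.br (nat_lit 4) (nat_lit 1) (.cons (.rf (nat_lit 2644) (nat_lit 457863287554565047360)) (.cons (.rf (nat_lit 2644) (nat_lit 457863287554565048352)) (.cons (.br (nat_lit 11) (nat_lit 1) (.cons (.ev (nat_lit 20440867142328601371622902857986) (nat_lit 2)) (.cons (.ev (nat_lit 20440867142328601371622902923266) (nat_lit 2)) .nil))) .nil)))) (.cons (.ev (nat_lit 20361948460101648060307726139393) (nat_lit 1)) .nil)))) .nil)))),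
 (.br (nat_lit 13) (nat_lit 0) (.cons (.rf (nat_lit 2784) (nat_lit 493858305440582043680)) (.cons (.rf (nat_lit 2790) (nat_lit 493858305440582043680)) (.cons (.rf (nat_lit 2791) (nat_lit 493858305440582043680)) (.cons (.br (nat_lit 13) (nat_lit 0) (.cons (.rf (nat_lit 2784) (nat_lit 493858305440582043680)) (.cons (.rf (nat_lit 2790) (nat_lit 493858305440582043680)) (.cons (.rf (nat_lit 2791) (nat_lit 493858305440582043680)) .nil)))) .nil))))),
 (.br (nat_lit 13) (nat_lit 0) (.cons (.rf (nat_lit 2784) (nat_lit 493858305440582043680)) (.cons (.rf (nat_lit 2792) (nat_lit 493858305440582043680)) (.cons (.br (nat_lit 5) (nat_lit 0) (.cons (.br (nat_lit 11) (nat_lit 1) (.cons (.ev (nat_lit 20282410817299856521450366173441) (nat_lit 1)) (.cons (.ev (nat_lit 20282410817299856521450366238721) (nat_lit 1)) (.cons (.br (nat_lit 6) (nat_lit 1) (.cons (.kr (nat_lit 1213648186097498819920128) (nat_lit 20282409603651742481541305991168) (nat_lit 1) (nat_lit 0)) (.cons (.kr (nat_lit 1213648186097498819985408)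 (nat_lit 20282409603651742481541305991168) (nat_lit 2) (nat_lit 0)) .nil))) .nil)))) (.cons (.br (nat_lit 1) (nat_lit 0) (.cons (.br (nat_lit 2) (nat_lit 0) (.cons (.ev (nat_lit 20361638975110201402822462799873) (nat_lit 1)) (.cons (.ev (nat_lit 40644356859549793577480176533762) (nat_lit 2)) .nil))) (.cons (.br (nat_lit 2) (nat_lit 0) (.cons (.ev (nat_lit 20361638975110201402822462799873) (nat_lit 1)) (.cons (.ev (nat_lit 309489750634572012096323841) (nat_lit 1)) .nil))) (.cons (.br (nat_lit 2) (nat_lit 0) (.cons (.ev (nat_lit 40644356859549793577480176599042) (nat_lit 2)) (.cons (.ev (nat_lit 309489750634572012096389121) (nat_lit 1)) .nil))) .nil)))) (.cons (.br (nat_lit 4) (nat_lit 1) (.cons (.kr (nat_lit 1213685079585646239023360) (nat_lit 40644047369817605186587574927360) (nat_lit 1) (nat_lit 0)) (.cons (.kr (nat_lit 1213685079585646239088640) (nat_lit 40644047369817605186587574927360) (nat_lit 2) (nat_lit 0)) (.cons (.kr (nat_lit 79228162514264338693055578112) (nat_lit 18518801667747479552)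 (nat_lit 5) (nat_lit 0)) .nil)))) (.cons (.br (nat_lit 8) (nat_lit 1) (.cons (.rf (nat_lit 2627) (nat_lit 493787340761102125088)) (.cons (.rf (nat_lit 2627) (nat_lit 493787340761102124096)) (.cons (.br (nat_lit 1) (nat_lit 0) (.cons (.br (nat_lit 2) (nat_lit 0) (.cons (.ev (nat_lit 79229371440084234801501962241) (nat_lit 1)) .nil)) (.cons (.br (nat_lit 2) (nat_lit 0) (.cons (.ev (nat_lit 79229371440084234801501962241) (nat_lit 1)) .nil)) .nil))) .nil)))) .nil))))) .nil)))),
 (.br (nat_lit 13) (nat_lit 0) (.cons (.rf (nat_lit 2784) (nat_lit 493858305440582043680)) (.cons (.rf (nat_lit 2792) (nat_lit 493858305440582043680)) (.cons (.rf (nat_lit 2793) (nat_lit 493858305440582043680)) (.cons (.br (nat_lit 13) (nat_lit 0) (.cons (.rf (nat_lit 2784) (nat_lit 493858305440582043680)) (.cons (.rf (nat_lit 2792) (nat_lit 493858305440582043680)) (.cons (.rf (nat_lit 2793) (nat_lit 493858305440582043680)) .nil)))) .nil))))),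
 (.br (nat_lit 13) (nat_lit 0) (.cons (.rf (nat_lit 2784) (nat_lit 493858305440582043680)) (.cons (.rf (nat_lit 2792) (nat_lit 493858305440582043680)) (.cons (.rf (nat_lit 2794) (nat_lit 493858305440582043680)) (.cons (.br (nat_lit 13) (nat_lit 0) (.cons (.rf (nat_lit 2784) (nat_lit 493858305440582043680)) (.cons (.rf (nat_lit 2792) (nat_lit 493858305440582043680)) (.cons (.rf (nat_lit 2794) (nat_lit 493858305440582043680)) .nil)))) .nil))))),
 (.br (nat_lit 11) (nat_lit 1) (.cons (.rf (nat_lit 2725) (nat_lit 493858271355721582624)) (.cons (.br (nat_lit 7) (nat_lit 0) (.cons (.br (nat_lit 2) (nat_lit 0) (.cons (.br (nat_lit 13) (nat_lit 0) (.cons (.zr (nat_lit 237684496987525978519939056384) (nat_lit 310693954087985250880847873) (nat_lit 5) (nat_lit 4)) .nil)) (.cons (.ev (nat_lit 79229376180897180265585115393) (nat_lit 1)) .nil))) (.cons (.ev (nat_lit 79537652246452447006890656001) (nat_lit 1)) (.cons (.rf (nat_lit 2732) (nat_lit 493858271355721582624)) .nil)))) .nil))),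
 (.br (nat_lit 7) (nat_lit 0) (.cons (.br (nat_lit 13) (nat_lit 0) (.cons (.zr (nat_lit 158456325028600736079660712448) (nat_lit 1218388999605921446363137) (nat_lit 5) (nat_lit 0)) (.cons (.kr (nat_lit 79228167236630820463189164288) (nat_lit 309485009893402662779486208) (nat_lit 1) (nat_lit 0)) .nil))) (.cons (.kr (nat_lit 79228162514264338693055578368) (nat_lit 4722438540463683207168) (nat_lit 1) (nat_lit 0)) (.cons (.rf (nat_lit 2587) (nat_lit 493787340761102125088)) .nil)))),
 (.br (nat_lit 11) (nat_lit 1) (.cons (.rf (nat_lit 2587) (nat_lit 493787340761102125088)) (.cons (.br (nat_lit 4) (nat_lit 1) (.cons (.ev (nat_lit 79538856468352042464664616961) (nat_lit 1)) (.cons (.kr (nat_lit 4722366482869645213696) (nat_lit 20282409603651670423947251286016) (nat_lit 9) (nat_lit 0)) .nil))) .nil))),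
 (.br (nat_lit 2) (nat_lit 0) (.cons (.br (nat_lit 11) (nat_lit 1) (.cons (.ev (nat_lit 309489750634572012096323841) (nat_lit 1)) .nil)) .nil)),
 (.br (nat_lit 13) (nat_lit 0) (.cons (.br (nat_lit 5) (nat_lit 0) (.cons (.rf (nat_lit 2799) (nat_lit 493858305440582043680)) (.cons (.rf (nat_lit 2674) (nat_lit 493751342754703706144)) .nil))) (.cons (.br (nat_lit 5) (nat_lit 0) (.cons (.ev (nat_lit 20361637766165935044115300352001) (nat_lit 1)) (.cons (.rf (nat_lit 2674) (nat_lit 493751347148455249952)) .nil))) (.cons (.br (nat_lit 7) (nat_lit 0) (.cons (.br (nat_lit 5) (nat_lit 0) (.cons (.ev (nat_lit 1213648186380073325035521) (nat_lit 1)) (.cons (.kr (nat_lit 79228162514264338693055578112) (nat_lit 309485009893402662762708992) (nat_lit 5) (nat_lit 0)) .nil))) (.cons (.kr (nat_lit 79228167236630820463189164288) (nat_lit 20282409603651742481541305991168) (nat_lit 1) (nat_lit 0)) (.cons (.br (nat_lit 6) (nat_lit 1) (.cons (.br (nat_lit 5) (nat_lit 0) (.cons (.zr (nat_lit 237684496987525978519939056384)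 (nat_lit 310693954087985250880847873) (nat_lit 5) (nat_lit 4)) .nil)) (.cons (.ev (nat_lit 4722438823038171480321) (nat_lit 1)) .nil))) .nil)))) .nil)))),
 (.br (nat_lit 7) (nat_lit 0) (.cons (.rf (nat_lit 2800) (nat_lit 493858305440582043680)) (.cons (.br (nat_lit 5) (nat_lit 0) (.cons (.kr (nat_lit 79228167236630820463189164288) (nat_lit 1208925819615728703111168) (nat_lit 1) (nat_lit 0)) (.cons (.kr (nat_lit 79228162514264338693055578112) (nat_lit 4722438540463683141632) (nat_lit 5) (nat_lit 0)) .nil))) (.cons (.br (nat_lit 11) (nat_lit 1) (.cons (.ev (nat_lit 309489750634572012096323841) (nat_lit 1)) (.cons (.rf (nat_lit 2680) (nat_lit 15433037924689610784)) (.cons (.ev (nat_lit 79537652246452447006890656001) (nat_lit 1)) .nil)))) .nil)))),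
 (.br (nat_lit 7) (nat_lit 0) (.cons (.rf (nat_lit 2800) (nat_lit 493858305440582043680)) (.cons (.rf (nat_lit 2801) (nat_lit 493858305440582043680)) (.cons (.br (nat_lit 4) (nat_lit 1) (.cons (.br (nat_lit 13) (nat_lit 0) (.cons (.kr (nat_lit 79228167236630820463189164544) (nat_lit 20282410812577490038576426123264) (nat_lit 1) (nat_lit 0)) (.cons (.kr (nat_lit 4722366482869645213952) (nat_lit 20282409603651670423947251351552) (nat_lit 1) (nat_lit 0)) .nil))) (.cons (.kr (nat_lit 79228167236630820463189164288) (nat_lit 1208925819615728703111168) (nat_lit 1) (nat_lit 0)) (.cons (.kr (nat_lit 79228167236630820463189164288) (nat_lit 20282409603651742481541305991168) (nat_lit 1) (nat_lit 0)) .nil)))) .nil)))),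
 (.br (nat_lit 8) (nat_lit 1) (.cons (.kr (nat_lit 256) (nat_lit 65536) (nat_lit 1) (nat_lit 0)) (.cons (.br (nat_lit 11) (nat_lit 1) (.cons (.rf (nat_lit 2725) (nat_lit 493858271355721582624)) (.cons (.rf (nat_lit 2796) (nat_lit 493858305440582043680)) (.cons (.br (nat_lit 11) (nat_lit 1) (.cons (.rf (nat_lit 2725) (nat_lit 493858271355721582624)) (.cons (.rf (nat_lit 2796) (nat_lit 493858305440582043680)) .nil))) .nil)))) (.cons (.br (nat_lit 10) (nat_lit 1) (.cons (.br (nat_lit 11) (nat_lit 1) (.cons (.rf (nat_lit 2797) (nat_lit 493858305440582043680)) (.cons (.rf (nat_lit 2798) (nat_lit 493858305440582043680)) (.cons (.br (nat_lit 11) (nat_lit 1) (.cons (.rf (nat_lit 2797) (nat_lit 493858305440582043680)) (.cons (.rf (nat_lit 2798) (nat_lit 493858305440582043680)) .nil))) .nil)))) (.cons (.br (nat_lit 6) (nat_lit 1) (.cons (.br (nat_lit 7) (nat_lit 0) (.cons (.rf (nat_lit 161) (nat_lit 14164214704574141472)) (.cons (.kr (nat_lit 79228167236630820463189229824) (nat_lit 72058693583110144)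 (nat_lit 1) (nat_lit 0)) .nil))) (.cons (.ev (nat_lit 1213648186380073325035521) (nat_lit 1)) (.cons (.br (nat_lit 13) (nat_lit 0) (.cons (.rf (nat_lit 2723) (nat_lit 458082801744999450656)) (.cons (.br (nat_lit 2) (nat_lit 0) (.cons (.rf (nat_lit 2744) (nat_lit 493858271353576196128)) (.cons (.ev (nat_lit 309489750634572012096323841) (nat_lit 1)) .nil))) .nil))) .nil)))) (.cons (.kr (nat_lit 79228162514264337593543950592) (nat_lit 72057594054705152) (nat_lit 1) (nat_lit 0)) (.cons (.br (nat_lit 5) (nat_lit 0) (.cons (.br (nat_lit 7) (nat_lit 0) (.cons (.br (nat_lit 2) (nat_lit 0) (.cons (.br (nat_lit 13) (nat_lit 0) (.cons (.ev (nat_lit 309489750634572012096323841) (nat_lit 1)) .nil)) .nil)) (.cons (.br (nat_lit 11) (nat_lit 1) (.cons (.ev (nat_lit 79538856468352042464664616961) (nat_lit 1)) (.cons (.br (nat_lit 2) (nat_lit 0) (.cons (.zr (nat_lit 237684496987525978519939056384) (nat_lit 310693954087985250880847873) (nat_lit 5) (nat_lit 4)) .nil)) .nil))) .nil))) (.cons (.br (nat_lit 7) (nat_lit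 0) (.cons (.ev (nat_lit 72339069031415809) (nat_lit 1)) (.cons (.br (nat_lit 2) (nat_lit 0) (.cons (.ev (nat_lit 4722438823038171545601) (nat_lit 1)) (.cons (.ev (nat_lit 161563269291916879408629614600) (nat_lit 4)) .nil))) .nil))) (.cons (.rf (nat_lit 2761) (nat_lit 493858271355721582624)) .nil)))) .nil))))) (.cons (.br (nat_lit 7) (nat_lit 0) (.cons (.rf (nat_lit 2800) (nat_lit 493858305440582043680)) (.cons (.rf (nat_lit 2801) (nat_lit 493858305440582043680)) (.cons (.rf (nat_lit 2802) (nat_lit 493858305440582043680)) (.cons (.br (nat_lit 7) (nat_lit 0) (.cons (.rf (nat_lit 2800) (nat_lit 493858305440582043680)) (.cons (.rf (nat_lit 2801) (nat_lit 493858305440582043680)) (.cons (.rf (nat_lit 2802) (nat_lit 493858305440582043680)) .nil)))) .nil))))) .nil))))),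
 (.br (nat_lit 2) (nat_lit 0) (.cons (.rf (nat_lit 2587) (nat_lit 493784062021725161504)) (.cons (.rf (nat_lit 2587) (nat_lit 493784064220746319904)) (.cons (.rf (nat_lit 2587) (nat_lit 493784068614497863712)) .nil)))),
 (.br (nat_lit 6) (nat_lit 1) (.cons (.ev (nat_lit 79229376162450716571652390913) (nat_lit 1)) .nil)),
 (.br (nat_lit 7) (nat_lit 0) (.cons (.rf (nat_lit 2674) (nat_lit 419894389072105408544)) .nil)),
 (.br (nat_lit 7) (nat_lit 0) (.cons (.kr (nat_lit 20282409603670189225619293732864) (nat_lit 79228167236631103037677502464) (nat_lit 4) (nat_lit 0)) (.cons (.kr (nat_lit 1213648186098598331547648) (nat_lit 40564819207303412905488540499968) (nat_lit 5) (nat_lit 0)) (.cons (.ev (nat_lit 20282719093402377053557680504833) (nat_lit 1)) .nil)))),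
 (.br (nat_lit 13) (nat_lit 0) (.cons (.rf (nat_lit 2806) (nat_lit 15431909825759512608)) (.cons (.rf (nat_lit 2807) (nat_lit 493858305440582043680)) .nil))),
 (.br (nat_lit 13) (nat_lit 0) (.cons (.rf (nat_lit 2806) (nat_lit 15427406230427109408)) (.cons (.rf (nat_lit 2807) (nat_lit 493858305440582043680)) .nil))),
 (.br (nat_lit 1) (nat_lit 0) (.cons (.rf (nat_lit 2808) (nat_lit 493858305440582043680)) (.cons (.rf (nat_lit 2809) (nat_lit 493858305440582043680)) (.cons (.br (nat_lit 2) (nat_lit 0) (.cons (.rf (nat_lit 2808) (nat_lit 493858305440582042688)) (.cons (.rf (nat_lit 2809) (nat_lit 493858305440582042688)) (.cons (.kr (nat_lit 256) (nat_lit 65536) (nat_lit 1) (nat_lit 0)) .nil)))) .nil)))),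
 (.br (nat_lit 11) (nat_lit 1) (.cons (.kr (nat_lit 309485046858948408514708224) (nat_lit 237684487542793014979672080384) (nat_lit 1) (nat_lit 0)) (.cons (.ev (nat_lit 20361947251175756388084496728321) (nat_lit 1)) .nil))),
 (.br (nat_lit 2) (nat_lit 0) (.cons (.rf (nat_lit 2806) (nat_lit 15425154430615520320)) (.cons (.rf (nat_lit 2661) (nat_lit 14316033001488745536)) .nil))),
 (.br (nat_lit 7) (nat_lit 0) (.cons (.rf (nat_lit 2810) (nat_lit 493858305440582043680)) (.cons (.br (nat_lit 13) (nat_lit 0) (.cons (.kr (nat_lit 79228162514264338693055578112) (nat_lit 20282409603651742481541289213952) (nat_lit 5) (nat_lit 0)) (.cons (.br (nat_lit 2) (nat_lit 0) (.cons (.kr (nat_lit 40644047369817605185488046587904) (nat_lit 1213648186098598348324864) (nat_lit 2) (nat_lit 0)) (.cons (.kr (nat_lit 20440865928680199099134339252224) (nat_lit 1213648258155092874625024) (nat_lit 2) (nat_lit 0)) .nil))) .nil))) (.cons (.br (nat_lit 4) (nat_lit 1) (.cons (.rf (nat_lit 2811) (nat_lit 493858305440582043680))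 (.cons (.rf (nat_lit 2811) (nat_lit 493858305440582042688)) (.cons (.rf (nat_lit 2812) (nat_lit 493858305440582043680)) .nil)))) .nil))))]

theorem c97 : chkAll C T R L97 (nat_lit 2785) = true := by decide +kernel

theorem l97 : (nat_lit 2785) + L97.length = (nat_lit 2814) := by decide +kernel

/-- part of the certificates -/
def L98 : List Prf := [(.br (nat_lit 7) (nat_lit 0) (.cons (.rf (nat_lit 2810) (nat_lit 493858305440582043680)) (.cons (.rf (nat_lit 2813) (nat_lit 493858305440582043680)) (.cons (.br (nat_lit 13) (nat_lit 0) (.cons (.rf (nat_lit 2812) (nat_lit 493853801845249640480)) (.cons (.rf (nat_lit 2812) (nat_lit 493851550045438052384)) (.cons (.br (nat_lit 4) (nat_lit 1) (.cons (.kr (nat_lit 40644047369817605185488046522624) (nat_lit 1213648186098598348324864) (nat_lit 1) (nat_lit 0)) (.cons (.kr (nat_lit 40644047369817605185488046587904) (nat_lit 1213648186098598348324864) (nat_lit 2) (nat_lit 0)) .nil))) .nil)))) .nil)))),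
 (.br (nat_lit 8) (nat_lit 1) (.cons (.rf (nat_lit 2803) (nat_lit 493858305440582043680)) (.cons (.rf (nat_lit 2803) (nat_lit 493858305440582042688)) (.cons (.br (nat_lit 7) (nat_lit 0) (.cons (.rf (nat_lit 2680) (nat_lit 15429660222823696416)) (.cons (.rf (nat_lit 2680) (nat_lit 15429660224969082912)) (.cons (.rf (nat_lit 2680) (nat_lit 15429655831217539104)) (.cons (.br (nat_lit 11) (nat_lit 1) (.cons (.rf (nat_lit 2804) (nat_lit 493858305440582043680)) (.cons (.rf (nat_lit 2804) (nat_lit 493858305440582042688)) (.cons (.br (nat_lit 13) (nat_lit 0) (.cons (.ev (nat_lit 309485028340146740784005121) (nat_lit 1)) (.cons (.br (nat_lit 2) (nat_lit 0) (.cons (.br (nat_lit 1) (nat_lit 0) (.cons (.ev (nat_lit 1208925891954802012717313) (nat_lit 1)) .nil)) (.cons (.br (nat_lit 4) (nat_lit 1) (.cons (.ev (nat_lit 1208925891954802012782593) (nat_lit 1)) .nil)) .nil))) (.cons (.br (nat_lit 4) (nat_lit 1) (.cons (.rf (nat_lit 2805) (nat_lit 493858305440582043680)) (.cons (.rf (nat_lit 2805) (nat_lit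 493858305440582042688)) .nil))) .nil)))) .nil)))) .nil))))) (.cons (.br (nat_lit 7) (nat_lit 0) (.cons (.rf (nat_lit 2810) (nat_lit 493858305440582043680)) (.cons (.rf (nat_lit 2813) (nat_lit 493858305440582043680)) (.cons (.rf (nat_lit 2814) (nat_lit 493858305440582043680)) (.cons (.br (nat_lit 7) (nat_lit 0) (.cons (.rf (nat_lit 2810) (nat_lit 493858305440582043680)) (.cons (.rf (nat_lit 2813) (nat_lit 493858305440582043680)) (.cons (.rf (nat_lit 2814) (nat_lit 493858305440582043680)) .nil)))) .nil))))) .nil))))),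
 (.br (nat_lit 6) (nat_lit 1) (.cons (.ev (nat_lit 1213648186380073325035521) (nat_lit 1)) .nil)),
 (.br (nat_lit 1) (nat_lit 0) (.cons (.br (nat_lit 5) (nat_lit 0) (.cons (.br (nat_lit 13) (nat_lit 0) (.cons (.br (nat_lit 11) (nat_lit 1) (.cons (.zr (nat_lit 216176080682221568) (nat_lit 310698676454468120525930497) (nat_lit 5) (nat_lit 0)) .nil)) .nil)) (.cons (.kr (nat_lit 4722366482869645213952) (nat_lit 1099528404992) (nat_lit 1) (nat_lit 0)) .nil))) (.cons (.br (nat_lit 7) (nat_lit 0) (.cons (.zr (nat_lit 4722582655651759063552) (nat_lit 1208944266640182172712961) (nat_lit 5) (nat_lit 0)) (.cons (.br (nat_lit 6) (nat_lit 1) (.cons (.ev (nat_lit 4722438823038171545601) (nat_lit 1)) (.cons (.ev (nat_lit 20282410812577562377649735663873) (nat_lit 1)) .nil))) .nil))) (.cons (.br (nat_lit 11) (nat_lit 1) (.cons (.br (nat_lit 6) (nat_lit 1) (.cons (.ev (nat_lit 79537652246524505704751956225) (nat_lit 1)) (.cons (.zr (nat_lit 40723275532331869525280613925120) (nat_lit 309494473001336361029992449)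 (nat_lit 5) (nat_lit 0)) .nil))) (.cons (.br (nat_lit 5) (nat_lit 0) (.cons (.ev (nat_lit 72339069031481601) (nat_lit 1)) (.cons (.rf (nat_lit 2667) (nat_lit 493856055839791613984)) .nil))) (.cons (.br (nat_lit 10) (nat_lit 1) (.cons (.rf (nat_lit 2816) (nat_lit 493858305440582043680)) (.cons (.kr (nat_lit 20361637766165934761540795301888) (nat_lit 4722438540463699918848) (nat_lit 2) (nat_lit 0)) .nil))) .nil)))) .nil)))),
 (.br (nat_lit 1) (nat_lit 0) (.cons (.rf (nat_lit 2817) (nat_lit 493858305440582042688)) (.cons (.br (nat_lit 5) (nat_lit 0) (.cons (.br (nat_lit 13) (nat_lit 0) (.cons (.br (nat_lit 11) (nat_lit 1) (.cons (.ev (nat_lit 309485028340146740784005121) (nat_lit 1)) .nil)) .nil)) (.cons (.kr (nat_lit 4722366482869645279232) (nat_lit 1099528404992) (nat_lit 2) (nat_lit 0)) .nil))) (.cons (.br (nat_lit 11) (nat_lit 1) (.cons (.kr (nat_lit 4722366482869645279232) (nat_lit 1099528404992) (nat_lit 2) (nat_lit 0)) (.cons (.br (nat_lit 5) (nat_lit 0) (.cons (.ev (nat_lit 79537647524158021735578337281)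 (nat_lit 1)) (.cons (.rf (nat_lit 2667) (nat_lit 493856055839791613984)) .nil))) (.cons (.br (nat_lit 4) (nat_lit 1) (.cons (.zr (nat_lit 40723275541776602488820880966144) (nat_lit 309485028268372820746043393) (nat_lit 5) (nat_lit 11)) (.cons (.ev (nat_lit 20361637766184381505618799755521) (nat_lit 1)) .nil))) .nil)))) .nil)))),
 (.br (nat_lit 1) (nat_lit 0) (.cons (.rf (nat_lit 2817) (nat_lit 493858305440582042688)) (.cons (.rf (nat_lit 2818) (nat_lit 493858305440582042688)) (.cons (.br (nat_lit 7) (nat_lit 0) (.cons (.ev (nat_lit 4740885284541704503553) (nat_lit 1)) (.cons (.br (nat_lit 5) (nat_lit 0) (.cons (.kr (nat_lit 18446744078004519168) (nat_lit 4722366764344621989888) (nat_lit 1) (nat_lit 0)) (.cons (.rf (nat_lit 2711) (nat_lit 493857139958262892576)) .nil))) (.cons (.br (nat_lit 13) (nat_lit 0) (.cons (.kr (nat_lit 20361637766165934761540795236864) (nat_lit 4722438540463699984384) (nat_lit 1) (nat_lit 0)) (.cons (.ev (nat_lit 20282720297605830185312898318593) (nat_lit 1)) .nil)))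 .nil)))) .nil)))),
 (.br (nat_lit 8) (nat_lit 1) (.cons (.rf (nat_lit 2803) (nat_lit 493858305440582043680)) (.cons (.rf (nat_lit 2803) (nat_lit 493858305440582042688)) (.cons (.rf (nat_lit 2815) (nat_lit 493858305440582043680)) (.cons (.br (nat_lit 2) (nat_lit 0) (.cons (.rf (nat_lit 2817) (nat_lit 493858305440582043680)) (.cons (.rf (nat_lit 2818) (nat_lit 493858305440582043680)) (.cons (.rf (nat_lit 2819) (nat_lit 493858305440582043680)) (.cons (.br (nat_lit 1) (nat_lit 0) (.cons (.rf (nat_lit 2817) (nat_lit 493858305440582042688)) (.cons (.rf (nat_lit 2818) (nat_lit 493858305440582042688)) (.cons (.rf (nat_lit 2819) (nat_lit 493858305440582042688)) (.cons (.kr (nat_lit 256) (nat_lit 65536) (nat_lit 1) (nat_lit 0)) .nil))))) .nil))))) .nil))))),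
 (.br (nat_lit 9) (nat_lit 1) (.cons (.rf (nat_lit 2777) (nat_lit 493858305440582043680)) (.cons (.rf (nat_lit 2777) (nat_lit 493858305440582042688)) (.cons (.br (nat_lit 13) (nat_lit 0) (.cons (.rf (nat_lit 2784) (nat_lit 493858305440582043680)) (.cons (.rf (nat_lit 2792) (nat_lit 493858305440582043680)) (.cons (.rf (nat_lit 2794) (nat_lit 493858305440582043680)) (.cons (.rf (nat_lit 2795) (nat_lit 493858305440582043680)) (.cons (.br (nat_lit 13) (nat_lit 0) (.cons (.rf (nat_lit 2784) (nat_lit 493858305440582043680)) (.cons (.rf (nat_lit 2792) (nat_lit 493858305440582043680)) (.cons (.rf (nat_lit 2794) (nat_lit 493858305440582043680)) (.cons (.rf (nat_lit 2795) (nat_lit 493858305440582043680)) .nil))))) .nil)))))) (.cons (.br (nat_lit 8) (nat_lit 1) (.cons (.rf (nat_lit 2803) (nat_lit 493858305440582043680)) (.cons (.rf (nat_lit 2803) (nat_lit 493858305440582042688)) (.cons (.rf (nat_lit 2815) (nat_lit 493858305440582043680)) (.cons (.rf (nat_lit 2820) (nat_lit 493858305440582043680)) (.cons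 (.br (nat_lit 8) (nat_lit 1) (.cons (.rf (nat_lit 2803) (nat_lit 493858305440582043680)) (.cons (.rf (nat_lit 2803) (nat_lit 493858305440582042688)) (.cons (.rf (nat_lit 2815) (nat_lit 493858305440582043680)) (.cons (.rf (nat_lit 2820) (nat_lit 493858305440582043680)) .nil))))) .nil)))))) .nil))))),
 (.br (nat_lit 10) (nat_lit 1) (.cons (.ev (nat_lit 310693935713017291937415169) (nat_lit 1)) (.cons (.br (nat_lit 8) (nat_lit 1) (.cons (.br (nat_lit 6) (nat_lit 1) (.cons (.ev (nat_lit 309485028268371721217638401) (nat_lit 1)) .nil)) (.cons (.br (nat_lit 6) (nat_lit 1) (.cons (.ev (nat_lit 309485028268371721217638401) (nat_lit 1)) .nil)) .nil))) .nil))),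
 (.br (nat_lit 11) (nat_lit 1) (.cons (.kr (nat_lit 256) (nat_lit 65536) (nat_lit 1) (nat_lit 0)) (.cons (.rf (nat_lit 2822) (nat_lit 493858305440582043680)) (.cons (.br (nat_lit 5) (nat_lit 0) (.cons (.br (nat_lit 8) (nat_lit 1) (.cons (.br (nat_lit 10) (nat_lit 1) (.cons (.zr (nat_lit 79228162514336397386605199872) (nat_lit 1213648186378973830184961) (nat_lit 5) (nat_lit 0)) .nil)) (.cons (.ev (nat_lit 20520094105453868952483847472132) (nat_lit 3)) .nil))) (.cons (.br (nat_lit 13) (nat_lit 0) (.cons (.ev (nat_lit 20520094105380226086970482229250) (nat_lit 2)) (.cons (.br (nat_lit 6) (nat_lit 1) (.cons (.zr (nat_lit 238303457562436269166569718528) (nat_lit 4840444091685464415666177) (nat_lit 5) (nat_lit 0)) .nil)) .nil))) (.cons (.br (nat_lit 8) (nat_lit 1) (.cons (.ev (nat_lit 159076508733323009664326041602) (nat_lit 2)) (.cons (.ev (nat_lit 158457548232200268175254750212) (nat_lit 3)) .nil))) .nil)))) .nil)))),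
 (.br (nat_lit 8) (nat_lit 1) (.cons (.kr (nat_lit 256) (nat_lit 65536) (nat_lit 1) (nat_lit 0)) (.cons (.br (nat_lit 13) (nat_lit 0) (.cons (.br (nat_lit 2) (nat_lit 0) (.cons (.ev (nat_lit 309489750634572012096323841) (nat_lit 1)) .nil)) .nil)) (.cons (.rf (nat_lit 2799) (nat_lit 493858305371929675808)) .nil)))),
 (.br (nat_lit 1) (nat_lit 0) (.cons (.rf (nat_lit 2824) (nat_lit 493858305440582043680)) (.cons (.br (nat_lit 2) (nat_lit 0) (.cons (.rf (nat_lit 2824) (nat_lit 493858305440582042688)) (.cons (.kr (nat_lit 256) (nat_lit 65536) (nat_lit 1) (nat_lit 0)) .nil))) .nil))),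
 (.br (nat_lit 6) (nat_lit 1) (.cons (.ev (nat_lit 18518802771554074881) (nat_lit 1)) (.cons (.ev (nat_lit 18518802771554140161) (nat_lit 1)) .nil))),
 (.br (nat_lit 13) (nat_lit 0) (.cons (.rf (nat_lit 2825) (nat_lit 493858305440582043680)) (.cons (.br (nat_lit 5) (nat_lit 0) (.cons (.br (nat_lit 1) (nat_lit 0) (.cons (.br (nat_lit 11) (nat_lit 1) (.cons (.zr (nat_lit 2417851855405339031633920) (nat_lit 237993977293427866271983075329) (nat_lit 5) (nat_lit 0)) .nil)) (.cons (.br (nat_lit 8) (nat_lit 1) (.cons (.zr (nat_lit 2417851855405339031633920) (nat_lit 237993977293427866271983075329) (nat_lit 5) (nat_lit 0)) .nil)) .nil))) (.cons (.rf (nat_lit 2826) (nat_lit 493858305440582043680)) (.cons (.ev (nat_lit 79537647524085683766092103681) (nat_lit 1)) .nil)))) .nil))),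
 (.br (nat_lit 2) (nat_lit 0) (.cons (.kr (nat_lit 256) (nat_lit 65536) (nat_lit 1) (nat_lit 0)) (.cons (.br (nat_lit 5) (nat_lit 0) (.cons (.br (nat_lit 11) (nat_lit 1) (.cons (.zr (nat_lit 618970019858866218131783680) (nat_lit 1227833732571660736790529) (nat_lit 5) (nat_lit 0)) .nil)) (.cons (.ev (nat_lit 79537652246452447006890656001) (nat_lit 1)) .nil))) (.cons (.br (nat_lit 5) (nat_lit 0) (.cons (.ev (nat_lit 309485028268371721217704193) (nat_lit 1)) (.cons (.br (nat_lit 13) (nat_lit 0) (.cons (.ev (nat_lit 159076508733323009664326238466) (nat_lit 2)) .nil)) .nil))) .nil)))),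
 (.br (nat_lit 2) (nat_lit 0) (.cons (.rf (nat_lit 2828) (nat_lit 493858305440582042688)) (.cons (.br (nat_lit 13) (nat_lit 0) (.cons (.br (nat_lit 8) (nat_lit 1) (.cons (.ev (nat_lit 795388611741885127131207827720) (nat_lit 4)) .nil)) .nil)) .nil))),
 (.br (nat_lit 1) (nat_lit 0) (.cons (.rf (nat_lit 2828) (nat_lit 493858305440582043680)) (.cons (.rf (nat_lit 2829) (nat_lit 493858305440582043680)) (.cons (.br (nat_lit 2) (nat_lit 0) (.cons (.rf (nat_lit 2828) (nat_lit 493858305440582042688)) (.cons (.rf (nat_lit 2829) (nat_lit 493858305440582042688)) .nil))) .nil)))),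
 (.br (nat_lit 1) (nat_lit 0) (.cons (.br (nat_lit 11) (nat_lit 1) (.cons (.zr (nat_lit 79228162514336397386605199872) (nat_lit 1213648186378973830184961) (nat_lit 5) (nat_lit 0)) (.cons (.ev (nat_lit 79537652246452447006890656001) (nat_lit 1)) .nil))) (.cons (.br (nat_lit 2) (nat_lit 0) (.cons (.zr (nat_lit 79228162514336397386605265152) (nat_lit 1213648186378973830184961) (nat_lit 5) (nat_lit 0)) .nil)) .nil))),
 (.br (nat_lit 2) (nat_lit 0) (.cons (.ev (nat_lit 79537652246452447006890721281) (nat_lit 1)) (.cons (.ev (nat_lit 20282719093383930592054147612673) (nat_lit 1)) .nil))),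
 (.br (nat_lit 13) (nat_lit 0) (.cons (.rf (nat_lit 2830) (nat_lit 493858305440582043680)) (.cons (.br (nat_lit 5) (nat_lit 0) (.cons (.rf (nat_lit 2831) (nat_lit 493858305440582043680)) (.cons (.ev (nat_lit 20361637766165934762644618608641) (nat_lit 1)) (.cons (.br (nat_lit 2) (nat_lit 0) (.cons (.br (nat_lit 1) (nat_lit 0) (.cons (.ev (nat_lit 309485028268371721217638401) (nat_lit 1)) .nil)) (.cons (.br (nat_lit 6) (nat_lit 1) (.cons (.ev (nat_lit 309485028268371721217638401) (nat_lit 1)) .nil)) .nil))) .nil)))) (.cons (.br (nat_lit 5) (nat_lit 0) (.cons (.rf (nat_lit 2832) (nat_lit 493858305440582043680)) (.cons (.br (nat_lit 10) (nat_lit 1) (.cons (.kr (nat_lit 9463179709812999979264) (nat_lit 618970019642691236977967104) (nat_lit 1) (nat_lit 0)) (.cons (.kr (nat_lit 9463179709813000044544) (nat_lit 618970019642691236977967104) (nat_lit 2) (nat_lit 0)) .nil))) (.cons (.ev (nat_lit 20361638979814192916637964828673) (nat_lit 1)) .nil)))) .nil)))),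
 (.br (nat_lit 2) (nat_lit 0) (.cons (.kr (nat_lit 20361637775610667727280085729536) (nat_lit 618970019714748831032672256) (nat_lit 1) (nat_lit 0)) .nil)),
 (.br (nat_lit 13) (nat_lit 0) (.cons (.rf (nat_lit 2830) (nat_lit 493858305440582043680)) (.cons (.rf (nat_lit 2833) (nat_lit 493858305440582043680)) (.cons (.br (nat_lit 5) (nat_lit 0) (.cons (.rf (nat_lit 2831) (nat_lit 493858305440582043680)) (.cons (.br (nat_lit 6) (nat_lit 1) (.cons (.rf (nat_lit 2834) (nat_lit 493858305440582043680)) (.cons (.rf (nat_lit 2834) (nat_lit 493858305440582042688)) .nil))) .nil))) .nil)))),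
 (.br (nat_lit 7) (nat_lit 0) (.cons (.ev (nat_lit 72057598349672449) (nat_lit 1)) (.cons (.br (nat_lit 11) (nat_lit 1) (.cons (.rf (nat_lit 2823) (nat_lit 493858305440582043680)) (.cons (.rf (nat_lit 2823) (nat_lit 493858305440582042688)) (.cons (.br (nat_lit 11) (nat_lit 1) (.cons (.rf (nat_lit 2822) (nat_lit 493858305440582043680)) (.cons (.rf (nat_lit 2822) (nat_lit 493858305440582042688)) (.cons (.ev (nat_lit 79537647524085683766092103681) (nat_lit 1)) .nil)))) (.cons (.br (nat_lit 11) (nat_lit 1) (.cons (.rf (nat_lit 2823) (nat_lit 493858305440582043680)) (.cons (.rf (nat_lit 2823) (nat_lit 493858305440582042688)) (.cons (.ev (nat_lit 79537647524085683766092103681) (nat_lit 1)) .nil)))) .nil))))) (.cons (.br (nat_lit 13) (nat_lit 0) (.cons (.rf (nat_lit 2825) (nat_lit 493858305440582043680)) (.cons (.rf (nat_lit 2827) (nat_lit 493858305440582043680)) (.cons (.br (nat_lit 13) (nat_lit 0) (.cons (.rf (nat_lit 2825) (nat_lit 493858305440582043680)) (.cons (.rf (nat_lit 2827) (nat_lit 493858305440582043680))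 .nil))) .nil)))) (.cons (.br (nat_lit 13) (nat_lit 0) (.cons (.rf (nat_lit 2830) (nat_lit 493858305440582043680)) (.cons (.rf (nat_lit 2833) (nat_lit 493858305440582043680)) (.cons (.rf (nat_lit 2835) (nat_lit 493858305440582043680)) (.cons (.br (nat_lit 13) (nat_lit 0) (.cons (.rf (nat_lit 2830) (nat_lit 493858305440582043680)) (.cons (.rf (nat_lit 2833) (nat_lit 493858305440582043680)) (.cons (.rf (nat_lit 2835) (nat_lit 493858305440582043680)) .nil)))) .nil))))) .nil))))),
 (.br (nat_lit 11) (nat_lit 1) (.cons (.kr (nat_lit 256) (nat_lit 65536) (nat_lit 1) (nat_lit 0)) (.cons (.br (nat_lit 10) (nat_lit 1) (.cons (.ev (nat_lit 79538861172271781260600344833) (nat_lit 1)) (.cons (.br (nat_lit 4) (nat_lit 1) (.cons (.zr (nat_lit 79228162514336397386605265152) (nat_lit 1213648186378973830184961) (nat_lit 5) (nat_lit 0)) (.cons (.ev (nat_lit 20282413244596445170705146839810) (nat_lit 2)) .nil))) .nil))) (.cons (.br (nat_lit 8) (nat_lit 1) (.cons (.ev (nat_lit 309489750634572012096389121) (nat_lit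 1)) (.cons (.br (nat_lit 13) (nat_lit 0) (.cons (.rf (nat_lit 2786) (nat_lit 198710400261497653280)) (.cons (.ev (nat_lit 20361638975110273459312710909953) (nat_lit 1)) .nil))) (.cons (.br (nat_lit 7) (nat_lit 0) (.cons (.kr (nat_lit 20361637766165934762644601831424) (nat_lit 4740885566012369403904) (nat_lit 4) (nat_lit 0)) (.cons (.ev (nat_lit 20361638975110273459312710909953) (nat_lit 1)) .nil))) .nil)))) .nil))))]

theorem c98 : chkAll C T R L98 (nat_lit 2814) = true := by decide +kernel

theorem l98 : (nat_lit 2814) + L98.length = (nat_lit 2838) := by decide +kernel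

/-- part of the certificates -/
def L99 : List Prf := [(.br (nat_lit 11) (nat_lit 1) (.cons (.rf (nat_lit 2837) (nat_lit 493858305440582043680)) (.cons (.rf (nat_lit 2837) (nat_lit 493858305440582042688)) (.cons (.br (nat_lit 8) (nat_lit 1) (.cons (.ev (nat_lit 79537652246452447006890656001) (nat_lit 1)) (.cons (.ev (nat_lit 79537652246452447006890721281) (nat_lit 1)) (.cons (.kr (nat_lit 20361947251175756107709031645184) (nat_lit 4759332028611102244864) (nat_lit 5) (nat_lit 0)) .nil)))) .nil)))),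
 (.br (nat_lit 2) (nat_lit 0) (.cons (.br (nat_lit 11) (nat_lit 1) (.cons (.ev (nat_lit 20282719088679938513089702461441) (nat_lit 1)) .nil)) .nil)),
 (.br (nat_lit 1) (nat_lit 0) (.cons (.kr (nat_lit 256) (nat_lit 65536) (nat_lit 1) (nat_lit 0)) (.cons (.br (nat_lit 8) (nat_lit 1) (.cons (.ev (nat_lit 79537647542604485429544616193) (nat_lit 1)) .nil)) .nil))),
 (.br (nat_lit 13) (nat_lit 0) (.cons (.br (nat_lit 1) (nat_lit 0) (.cons (.rf (nat_lit 2839) (nat_lit 493858305440582043680)) (.cons (.br (nat_lit 2) (nat_lit 0) (.cons (.rf (nat_lit 2839) (nat_lit 493858305440582042688)) (.cons (.ev (nat_lit 20361948460101575722338206351361) (nat_lit 1)) .nil))) .nil))) (.cons (.br (nat_lit 2) (nat_lit 0) (.cons (.rf (nat_lit 2840) (nat_lit 493858305440582043680)) (.cons (.br (nat_lit 1) (nat_lit 0) (.cons (.rf (nat_lit 2840) (nat_lit 493858305440582042688)) .nil)) .nil))) .nil))),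
 (.br (nat_lit 2) (nat_lit 0) (.cons (.zr (nat_lit 144117387099177216) (nat_lit 309485028268370621706010625) (nat_lit 5) (nat_lit 0)) (.cons (.ev (nat_lit 40565129901257501453685079736322) (nat_lit 2)) .nil))),
 (.br (nat_lit 13) (nat_lit 0) (.cons (.rf (nat_lit 2841) (nat_lit 493858305440582043680)) (.cons (.br (nat_lit 7) (nat_lit 0) (.cons (.ev (nat_lit 20282410812577490039680249364481) (nat_lit 1)) (.cons (.br (nat_lit 11) (nat_lit 1) (.cons (.rf (nat_lit 2842) (nat_lit 493858305440582043680)) (.cons (.rf (nat_lit 2842) (nat_lit 493858305440582042688)) .nil))) (.cons (.rf (nat_lit 2832) (nat_lit 493779562815853529120)) .nil)))) .nil))),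
 (.br (nat_lit 8) (nat_lit 1) (.cons (.kr (nat_lit 256) (nat_lit 65536) (nat_lit 1) (nat_lit 0)) (.cons (.br (nat_lit 11) (nat_lit 1) (.cons (.br (nat_lit 4) (nat_lit 1) (.cons (.br (nat_lit 10) (nat_lit 1) (.cons (.ev (nat_lit 79850773515359093161285714434) (nat_lit 2)) .nil)) .nil)) (.cons (.br (nat_lit 4) (nat_lit 1) (.cons (.kr (nat_lit 79537647524157740256340214016) (nat_lit 36893489255520731136) (nat_lit 1) (nat_lit 0)) (.cons (.ev (nat_lit 20361947251175756388084496728321) (nat_lit 1)) .nil))) .nil))) (.cons (.br (nat_lit 2) (nat_lit 0) (.cons (.br (nat_lit 13) (nat_lit 0) (.cons (.ev (nat_lit 20361638975110201402822462799873) (nat_lit 1)) (.cons (.ev (nat_lit 20361947251175756388084496793601) (nat_lit 1)) .nil))) (.cons (.br (nat_lit 13) (nat_lit 0) (.cons (.br (nat_lit 7) (nat_lit 0) (.cons (.zr (nat_lit 238303457562435706225206232576) (nat_lit 1227833733416081388929025) (nat_lit 5) (nat_lit 0)) .nil)) (.cons (.kr (nat_lit 309485009821345068724781312) (nat_lit 20282409603651670423947251351552)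 (nat_lit 1) (nat_lit 0)) .nil))) (.cons (.ev (nat_lit 309489750634572012096323841) (nat_lit 1)) .nil)))) .nil)))),
 (.br (nat_lit 11) (nat_lit 1) (.cons (.ev (nat_lit 310693935713017291937415169) (nat_lit 1)) (.cons (.ev (nat_lit 309485009893685237251047681) (nat_lit 1)) .nil))),
 (.br (nat_lit 8) (nat_lit 1) (.cons (.rf (nat_lit 2844) (nat_lit 493858305440582043680)) (.cons (.rf (nat_lit 2844) (nat_lit 493858305440582042688)) (.cons (.br (nat_lit 10) (nat_lit 1) (.cons (.rf (nat_lit 2845) (nat_lit 493858305440582043680)) (.cons (.rf (nat_lit 2845) (nat_lit 493858305440582042688)) (.cons (.br (nat_lit 2) (nat_lit 0) (.cons (.br (nat_lit 1) (nat_lit 0) (.cons (.ev (nat_lit 79537652246524505704751956225) (nat_lit 1)) .nil)) (.cons (.br (nat_lit 1) (nat_lit 0) (.cons (.ev (nat_lit 79537652246524505704752021505) (nat_lit 1)) .nil)) .nil))) .nil)))) .nil)))),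
 (.br (nat_lit 5) (nat_lit 0) (.cons (.rf (nat_lit 2836) (nat_lit 493858305440582043680)) (.cons (.br (nat_lit 11) (nat_lit 1) (.cons (.rf (nat_lit 2837) (nat_lit 493858305440582043680)) (.cons (.rf (nat_lit 2837) (nat_lit 493858305440582042688)) (.cons (.rf (nat_lit 2838) (nat_lit 493858305440582043680)) (.cons (.br (nat_lit 11) (nat_lit 1) (.cons (.rf (nat_lit 2837) (nat_lit 493858305440582043680)) (.cons (.rf (nat_lit 2837) (nat_lit 493858305440582042688)) (.cons (.rf (nat_lit 2838) (nat_lit 493858305440582043680)) .nil)))) .nil))))) (.cons (.br (nat_lit 13) (nat_lit 0) (.cons (.rf (nat_lit 2841) (nat_lit 493858305440582043680)) (.cons (.rf (nat_lit 2843) (nat_lit 493858305440582043680)) (.cons (.br (nat_lit 13) (nat_lit 0) (.cons (.rf (nat_lit 2841) (nat_lit 493858305440582043680)) (.cons (.rf (nat_lit 2843) (nat_lit 493858305440582043680)) .nil))) .nil)))) (.cons (.br (nat_lit 8) (nat_lit 1) (.cons (.rf (nat_lit 2844) (nat_lit 493858305440582043680)) (.cons (.rf (nat_lit 2844) (nat_lit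 493858305440582042688)) (.cons (.rf (nat_lit 2846) (nat_lit 493858305440582043680)) (.cons (.br (nat_lit 8) (nat_lit 1) (.cons (.rf (nat_lit 2844) (nat_lit 493858305440582043680)) (.cons (.rf (nat_lit 2844) (nat_lit 493858305440582042688)) (.cons (.rf (nat_lit 2846) (nat_lit 493858305440582043680)) .nil)))) .nil))))) .nil))))),
 (.br (nat_lit 8) (nat_lit 1) (.cons (.ev (nat_lit 309489750634572012096389121) (nat_lit 1)) (.cons (.ev (nat_lit 79229371458602754994272731393) (nat_lit 1)) .nil))),
 (.br (nat_lit 8) (nat_lit 1) (.cons (.rf (nat_lit 2734) (nat_lit 493858271355721582624)) (.cons (.rf (nat_lit 2734) (nat_lit 493858271355721581632)) .nil))),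
 (.br (nat_lit 13) (nat_lit 0) (.cons (.rf (nat_lit 2723) (nat_lit 458082801744999450656)) (.cons (.br (nat_lit 7) (nat_lit 0) (.cons (.rf (nat_lit 2009) (nat_lit 15431907628883740704)) (.cons (.br (nat_lit 2) (nat_lit 0) (.cons (.kr (nat_lit 20361638979814120859039615352832) (nat_lit 18590860361347366912) (nat_lit 2) (nat_lit 0)) (.cons (.kr (nat_lit 40723275532350316267155300220928) (nat_lit 1213648258157291931435008) (nat_lit 2) (nat_lit 0)) .nil))) .nil))) (.cons (.br (nat_lit 11) (nat_lit 1) (.cons (.rf (nat_lit 2848) (nat_lit 493858305440582043680)) (.cons (.rf (nat_lit 2848) (nat_lit 493858305440582042688)) (.cons (.rf (nat_lit 2849) (nat_lit 493858305440582043680)) .nil)))) .nil)))),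
 (.br (nat_lit 13) (nat_lit 0) (.cons (.rf (nat_lit 2723) (nat_lit 458082801744999450656)) (.cons (.br (nat_lit 4) (nat_lit 1) (.cons (.kr (nat_lit 18446744073709551872) (nat_lit 1099528404992) (nat_lit 1) (nat_lit 0)) (.cons (.kr (nat_lit 18446744073709617152) (nat_lit 1099528404992) (nat_lit 2) (nat_lit 0)) (.cons (.kr (nat_lit 20361637766165934762640306864128) (nat_lit 36965545741457031168) (nat_lit 5) (nat_lit 0)) .nil)))) (.cons (.br (nat_lit 7) (nat_lit 0) (.cons (.ev (nat_lit 20282409608374108964415246172161) (nat_lit 1)) (.cons (.br (nat_lit 1) (nat_lit 0) (.cons (.br (nat_lit 11) (nat_lit 1) (.cons (.ev (nat_lit 79537657024159446875504706050) (nat_lit 2)) .nil)) (.cons (.br (nat_lit 4) (nat_lit 1) (.cons (.ev (nat_lit 79537657024159446875504771330) (nat_lit 2)) .nil)) .nil))) (.cons (.rf (nat_lit 2849) (nat_lit 493858305438436657184)) .nil)))) .nil)))),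
 (.br (nat_lit 4) (nat_lit 1) (.cons (.kr (nat_lit 18446744073709551872) (nat_lit 1099528404992) (nat_lit 1) (nat_lit 0)) (.cons (.kr (nat_lit 18446744073709617152) (nat_lit 1099528404992) (nat_lit 2) (nat_lit 0)) (.cons (.br (nat_lit 13) (nat_lit 0) (.cons (.kr (nat_lit 20361637766165934762640306864128) (nat_lit 36965545741457031168) (nat_lit 5) (nat_lit 0)) (.cons (.kr (nat_lit 40723275532331869524181102100480) (nat_lit 1213685151643240276951040) (nat_lit 5) (nat_lit 0)) .nil))) (.cons (.rf (nat_lit 2850) (nat_lit 493858305440582043680)) .nil))))),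
 (.br (nat_lit 13) (nat_lit 0) (.cons (.kr (nat_lit 20361637766165934762640306864384) (nat_lit 36965545741457096704) (nat_lit 1) (nat_lit 0)) .nil)),
 (.br (nat_lit 13) (nat_lit 0) (.cons (.kr (nat_lit 20361637766165934762640306864384) (nat_lit 36965545741457096704) (nat_lit 1) (nat_lit 0)) .nil)),
 (.br (nat_lit 11) (nat_lit 1) (.cons (.br (nat_lit 8) (nat_lit 1) (.cons (.ev (nat_lit 310693935713017291937415169) (nat_lit 1)) (.cons (.br (nat_lit 7) (nat_lit 0) (.cons (.rf (nat_lit 2853) (nat_lit 493858305440582043680)) (.cons (.ev (nat_lit 4740885566012386246913) (nat_lit 1)) .nil))) .nil))) (.cons (.br (nat_lit 6) (nat_lit 1) (.cons (.br (nat_lit 4) (nat_lit 1) (.cons (.br (nat_lit 8) (nat_lit 1) (.cons (.ev (nat_lit 309489750706630709924134913) (nat_lit 1)) .nil)) .nil)) (.cons (.br (nat_lit 2) (nat_lit 0) (.cons (.rf (nat_lit 2854) (nat_lit 493858305440582043680)) (.cons (.ev (nat_lit 79537652246452447006890721281) (nat_lit 1)) .nil))) .nil))) (.cons (.br (nat_lit 13) (nat_lit 0) (.cons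 (.br (nat_lit 6) (nat_lit 1) (.cons (.ev (nat_lit 20361638975091754657649258463233) (nat_lit 1)) (.cons (.ev (nat_lit 20282719093383930592054147547393) (nat_lit 1)) .nil))) (.cons (.br (nat_lit 4) (nat_lit 1) (.cons (.ev (nat_lit 20361638975091754657649258463233) (nat_lit 1)) (.cons (.ev (nat_lit 20282409608374108964415246172161) (nat_lit 1)) .nil))) (.cons (.br (nat_lit 7) (nat_lit 0) (.cons (.ev (nat_lit 20361947255898122590582988603393) (nat_lit 1)) (.cons (.ev (nat_lit 20361637770888301525885417160961) (nat_lit 1)) .nil))) .nil)))) .nil)))),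
 (.br (nat_lit 2) (nat_lit 0) (.cons (.kr (nat_lit 20361637766165934761540795302144) (nat_lit 72058693583110144) (nat_lit 1) (nat_lit 0)) .nil)),
 (.br (nat_lit 4) (nat_lit 1) (.cons (.br (nat_lit 11) (nat_lit 1) (.cons (.br (nat_lit 13) (nat_lit 0) (.cons (.zr (nat_lit 216176080682221568) (nat_lit 310698676454468120525930497) (nat_lit 5) (nat_lit 0)) .nil)) .nil)) (.cons (.br (nat_lit 8) (nat_lit 1) (.cons (.br (nat_lit 13) (nat_lit 0) (.cons (.zr (nat_lit 216176080682221568) (nat_lit 310698676454468120525930497) (nat_lit 5) (nat_lit 0)) .nil)) (.cons (.rf (nat_lit 2856) (nat_lit 493858305440582043680)) .nil))) .nil))),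
 (.br (nat_lit 2) (nat_lit 0) (.cons (.rf (nat_lit 2856) (nat_lit 493858305438436656192)) (.cons (.rf (nat_lit 2732) (nat_lit 493786318215288292416)) .nil))),
 (.br (nat_lit 7) (nat_lit 0) (.cons (.br (nat_lit 2) (nat_lit 0) (.cons (.br (nat_lit 8) (nat_lit 1) (.cons (.zr (nat_lit 37109660929532887808) (nat_lit 310698658007724046833156097) (nat_lit 5) (nat_lit 0)) .nil)) (.cons (.br (nat_lit 13) (nat_lit 0) (.cons (.ev (nat_lit 80157831247327323076576805634) (nat_lit 2)) .nil)) .nil))) (.cons (.br (nat_lit 4) (nat_lit 1) (.cons (.ev (nat_lit 4722438823038171545601) (nat_lit 1)) (.cons (.br (nat_lit 2) (nat_lit 0) (.cons (.ev (nat_lit 20678552852964459252796256225028) (nat_lit 3)) .nil)) .nil))) (.cons (.br (nat_lit 6) (nat_lit 1) (.cons (.br (nat_lit 4) (nat_lit 1) (.cons (.ev (nat_lit 20837014013733302298778064585988) (nat_lit 3)) .nil)) (.cons (.ev (nat_lit 79229376162522775260890136833) (nat_lit 1)) .nil))) .nil)))),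
 (.br (nat_lit 4) (nat_lit 1) (.cons (.rf (nat_lit 2854) (nat_lit 493853801845249640480)) (.cons (.br (nat_lit 2) (nat_lit 0) (.cons (.ev (nat_lit 20361642630240666457459686573828) (nat_lit 3)) .nil)) .nil))),
 (.br (nat_lit 5) (nat_lit 0) (.cons (.rf (nat_lit 2836) (nat_lit 493858305440582043680)) (.cons (.rf (nat_lit 2847) (nat_lit 493858305440582043680)) (.cons (.br (nat_lit 13) (nat_lit 0) (.cons (.rf (nat_lit 2850) (nat_lit 493858305440582043680)) (.cons (.rf (nat_lit 2851) (nat_lit 493858305440582043680)) (.cons (.rf (nat_lit 2852) (nat_lit 493858305440582043680)) (.cons (.br (nat_lit 13) (nat_lit 0) (.cons (.rf (nat_lit 2850) (nat_lit 493858305440582043680)) (.cons (.rf (nat_lit 2851) (nat_lit 493858305440582043680)) (.cons (.rf (nat_lit 2852) (nat_lit 493858305440582043680)) .nil)))) .nil))))) (.cons (.br (nat_lit 10) (nat_lit 1) (.cons (.rf (nat_lit 2855) (nat_lit 493858305440582043680)) (.cons (.rf (nat_lit 2855) (nat_lit 493858305440582042688)) (.cons (.br (nat_lit 6) (nat_lit 1)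 (.cons (.rf (nat_lit 2857) (nat_lit 493858305440582043680)) (.cons (.rf (nat_lit 2857) (nat_lit 493858305440582042688)) (.cons (.br (nat_lit 13) (nat_lit 0) (.cons (.rf (nat_lit 2723) (nat_lit 458082801744999450656)) (.cons (.rf (nat_lit 2858) (nat_lit 493858305440582043680)) (.cons (.rf (nat_lit 2858) (nat_lit 493750222348060035104)) .nil)))) .nil)))) (.cons (.br (nat_lit 11) (nat_lit 1) (.cons (.rf (nat_lit 2859) (nat_lit 493858305440582043680)) (.cons (.rf (nat_lit 2859) (nat_lit 493858305440582042688)) (.cons (.br (nat_lit 6) (nat_lit 1) (.cons (.rf (nat_lit 2860) (nat_lit 493858305440582043680)) (.cons (.rf (nat_lit 2860) (nat_lit 493858305440582042688)) (.cons (.br (nat_lit 4) (nat_lit 1) (.cons (.ev (nat_lit 20282410817299856802921047916801) (nat_lit 1)) (.cons (.ev (nat_lit 20282410817299856802921047982081) (nat_lit 1)) .nil))) .nil)))) (.cons (.kr (nat_lit 309485009821345068724781056) (nat_lit 20282409603651670423947251286016) (nat_lit 11) (nat_lit 0)) .nil))))) .nil))))) .nil))))),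
 (.br (nat_lit 2) (nat_lit 0) (.cons (.ev (nat_lit 309489750634572012096389121) (nat_lit 1)) .nil)),
 (.br (nat_lit 13) (nat_lit 0) (.cons (.br (nat_lit 11) (nat_lit 1) (.cons (.rf (nat_lit 2862) (nat_lit 493858305440582043680)) (.cons (.rf (nat_lit 2862) (nat_lit 493858305440582042688)) .nil))) (.cons (.rf (nat_lit 2009) (nat_lit 15431907632104966176)) .nil))),
 (.br (nat_lit 1) (nat_lit 0) (.cons (.ev (nat_lit 20282719093383930592054147547393) (nat_lit 1)) (.cons (.ev (nat_lit 79537652246452447006890656001) (nat_lit 1)) .nil))),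
 (.br (nat_lit 6) (nat_lit 1) (.cons (.br (nat_lit 8) (nat_lit 1) (.cons (.br (nat_lit 11) (nat_lit 1) (.cons (.zr (nat_lit 216176080682221568) (nat_lit 310698676454468120525930497) (nat_lit 5) (nat_lit 0)) .nil)) .nil)) (.cons (.br (nat_lit 8) (nat_lit 1) (.cons (.zr (nat_lit 79228162514480512574714609664) (nat_lit 1213685079867129805668353) (nat_lit 5) (nat_lit 0)) (.cons (.rf (nat_lit 2849) (nat_lit 493786215958561523744)) .nil))) .nil))),
 (.br (nat_lit 8) (nat_lit 1) (.cons (.kr (nat_lit 256) (nat_lit 65536) (nat_lit 1) (nat_lit 0)) (.cons (.br (nat_lit 6) (nat_lit 1) (.cons (.br (nat_lit 4) (nat_lit 1) (.cons (.ev (nat_lit 4740813509522138071041) (nat_lit 1)) .nil)) (.cons (.ev (nat_lit 79537652246452447006890656001) (nat_lit 1)) .nil))) .nil))),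
 (.br (nat_lit 5) (nat_lit 0) (.cons (.rf (nat_lit 2836) (nat_lit 493858305440582043680)) (.cons (.rf (nat_lit 2847) (nat_lit 493858305440582043680)) (.cons (.rf (nat_lit 2861) (nat_lit 493858305440582043680)) (.cons (.br (nat_lit 7) (nat_lit 0) (.cons (.ev (nat_lit 79228167236630821567012536321) (nat_lit 1)) (.cons (.br (nat_lit 13) (nat_lit 0) (.cons (.rf (nat_lit 2863) (nat_lit 493858305440582043680)) (.cons (.br (nat_lit 13) (nat_lit 0) (.cons (.rf (nat_lit 2863) (nat_lit 493858305440582043680)) (.cons (.rf (nat_lit 2864) (nat_lit 493858305440582043680)) .nil))) (.cons (.br (nat_lit 8) (nat_lit 1) (.cons (.ev (nat_lit 79537652246452447006890656001) (nat_lit 1)) (.cons (.ev (nat_lit 79537652246452447006890721281) (nat_lit 1)) (.cons (.rf (nat_lit 2864) (nat_lit 493858305440582043680)) .nil)))) .nil)))) (.cons (.br (nat_lit 4) (nat_lit 1) (.cons (.rf (nat_lit 2865) (nat_lit 493858305440582043680)) (.cons (.rf (nat_lit 2865) (nat_lit 493858305440582042688)) (.cons (.br (nat_lit 13) (nat_lit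 0) (.cons (.rf (nat_lit 2723) (nat_lit 458082801744999450656)) (.cons (.rf (nat_lit 2849) (nat_lit 493786215960706910240)) (.cons (.br (nat_lit 8) (nat_lit 1) (.cons (.rf (nat_lit 2667) (nat_lit 493749165717385742368)) (.cons (.rf (nat_lit 2667) (nat_lit 493749165717385741376)) .nil))) .nil)))) .nil)))) (.cons (.br (nat_lit 8) (nat_lit 1) (.cons (.rf (nat_lit 2866) (nat_lit 493858305440582043680)) (.cons (.rf (nat_lit 2866) (nat_lit 493858305440582042688)) (.cons (.br (nat_lit 8) (nat_lit 1) (.cons (.rf (nat_lit 2866) (nat_lit 493858305440582043680)) (.cons (.rf (nat_lit 2866) (nat_lit 493858305440582042688)) .nil))) .nil)))) .nil))))) .nil)))))]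

theorem c99 : chkAll C T R L99 (nat_lit 2838) = true := by decide +kernel

theorem l99 : (nat_lit 2838) + L99.length = (nat_lit 2868) := by decide +kernel

/-- part of the certificates -/
def L100 : List Prf := [(.br (nat_lit 9) (nat_lit 1) (.cons (.rf (nat_lit 2777) (nat_lit 493858305440582043680)) (.cons (.rf (nat_lit 2777) (nat_lit 493858305440582042688)) (.cons (.rf (nat_lit 2821) (nat_lit 493858305440582043680)) (.cons (.br (nat_lit 5) (nat_lit 0) (.cons (.rf (nat_lit 2836) (nat_lit 493858305440582043680)) (.cons (.rf (nat_lit 2847) (nat_lit 493858305440582043680)) (.cons (.rf (nat_lit 2861) (nat_lit 493858305440582043680)) (.cons (.rf (nat_lit 2867) (nat_lit 493858305440582043680)) (.cons (.br (nat_lit 5) (nat_lit 0) (.cons (.rf (nat_lit 2836) (nat_lit 493858305440582043680)) (.cons (.rf (nat_lit 2847) (nat_lit 493858305440582043680)) (.cons (.rf (nat_lit 2861) (nat_lit 493858305440582043680)) (.cons (.rf (nat_lit 2867) (nat_lit 493858305440582043680)) .nil))))) .nil)))))) .nil))))),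
 (.br (nat_lit 9) (nat_lit 1) (.cons (.rf (nat_lit 2777) (nat_lit 493858305440582043680)) (.cons (.rf (nat_lit 2777) (nat_lit 493858305440582042688)) (.cons (.rf (nat_lit 2821) (nat_lit 493858305440582043680)) (.cons (.rf (nat_lit 2868) (nat_lit 493858305440582043680)) (.cons (.br (nat_lit 9) (nat_lit 1) (.cons (.rf (nat_lit 2777) (nat_lit 493858305440582043680)) (.cons (.rf (nat_lit 2777) (nat_lit 493858305440582042688)) (.cons (.rf (nat_lit 2821) (nat_lit 493858305440582043680)) (.cons (.rf (nat_lit 2868) (nat_lit 493858305440582043680)) .nil))))) .nil)))))),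
 (.br (nat_lit 12) (nat_lit 0) (.cons (.rf (nat_lit 2723) (nat_lit 493858305440582043680)) (.cons (.rf (nat_lit 2723) (nat_lit 493823368456464074784)) (.cons (.rf (nat_lit 2869) (nat_lit 493858305440582043680)) (.cons (.rf (nat_lit 2869) (nat_lit 493823368456464074784)) .nil))))),
 (.br (nat_lit 11) (nat_lit 1) (.cons (.rf (nat_lit 2725) (nat_lit 493677074040634837024)) (.cons (.br (nat_lit 9) (nat_lit 1) (.cons (.br (nat_lit 4) (nat_lit 1) (.cons (.br (nat_lit 8) (nat_lit 1) (.cons (.zr (nat_lit 79228162514408454980643192832) (nat_lit 309489750634572016391290881) (nat_lit 5) (nat_lit 0)) .nil)) (.cons (.br (nat_lit 13) (nat_lit 0) (.cons (.rf (nat_lit 2870) (nat_lit 458117738729117419552)) (.cons (.ev (nat_lit 20282719088679938513093980651521) (nat_lit 1)) .nil))) .nil))) (.cons (.kr (nat_lit 4722366482869645279232) (nat_lit 72057594054705152) (nat_lit 2) (nat_lit 0)) (.cons (.br (nat_lit 13) (nat_lit 0) (.cons (.br (nat_lit 8) (nat_lit 1) (.cons (.br (nat_lit 7) (nat_lit 0) (.cons (.ev (nat_lit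 79848355626970488740291739650) (nat_lit 2)) .nil)) (.cons (.ev (nat_lit 20282719093402377053557680504833) (nat_lit 1)) .nil))) (.cons (.br (nat_lit 5) (nat_lit 0) (.cons (.br (nat_lit 7) (nat_lit 0) (.cons (.ev (nat_lit 158457533973011491454204314370) (nat_lit 2)) .nil)) (.cons (.br (nat_lit 4) (nat_lit 1) (.cons (.ev (nat_lit 79538856505389928383288246530) (nat_lit 2)) .nil)) .nil))) (.cons (.br (nat_lit 4) (nat_lit 1) (.cons (.br (nat_lit 6) (nat_lit 1) (.cons (.ev (nat_lit 79229371458603036469266219265) (nat_lit 1)) .nil)) (.cons (.ev (nat_lit 20361947251175756106613814984961) (nat_lit 1)) .nil))) .nil)))) .nil)))) .nil))),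
 (.br (nat_lit 11) (nat_lit 1) (.cons (.rf (nat_lit 2725) (nat_lit 493677074040634837024)) (.cons (.rf (nat_lit 2871) (nat_lit 493858305440582043680)) (.cons (.br (nat_lit 11) (nat_lit 1) (.cons (.rf (nat_lit 2725) (nat_lit 493677074040634837024)) (.cons (.rf (nat_lit 2871) (nat_lit 493858305440582043680)) .nil))) .nil)))),
 (.br (nat_lit 2) (nat_lit 0) (.cons (.ev (nat_lit 1208944338416296922185729) (nat_lit 1)) (.cons (.ev (nat_lit 1213648186380077603225601) (nat_lit 1)) .nil))),
 (.br (nat_lit 2) (nat_lit 0) (.cons (.ev (nat_lit 1213648186380077603225601) (nat_lit 1)) (.cons (.ev (nat_lit 1208944338416296922185729) (nat_lit 1)) .nil))),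
 (.br (nat_lit 2) (nat_lit 0) (.cons (.ev (nat_lit 79229371458603036469266219265) (nat_lit 1)) (.cons (.ev (nat_lit 1213648186380077603225601) (nat_lit 1)) (.cons (.zr (nat_lit 310693935713017291937546240) (nat_lit 79228162514264337593543950849) (nat_lit 5) (nat_lit 11)) .nil)))),
 (.br (nat_lit 11) (nat_lit 1) (.cons (.rf (nat_lit 2725) (nat_lit 493857212528171517984)) (.cons (.br (nat_lit 6) (nat_lit 1) (.cons (.rf (nat_lit 2872) (nat_lit 493858305440582043680)) (.cons (.br (nat_lit 8) (nat_lit 1) (.cons (.ev (nat_lit 1208944338416296922185729) (nat_lit 1)) (.cons (.br (nat_lit 13) (nat_lit 0) (.cons (.rf (nat_lit 2873) (nat_lit 493858305440582043680)) (.cons (.rf (nat_lit 2874) (nat_lit 493858305440582043680)) .nil))) .nil))) (.cons (.br (nat_lit 13) (nat_lit 0) (.cons (.rf (nat_lit 2870) (nat_lit 458117738729117419552)) (.cons (.br (nat_lit 7) (nat_lit 0) (.cons (.rf (nat_lit 2875) (nat_lit 493858305440582043680)) (.cons (.br (nat_lit 2) (nat_lit 0) (.cons (.ev (nat_lit 1213648186380077603225601)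 (nat_lit 1)) .nil)) .nil))) (.cons (.br (nat_lit 7) (nat_lit 0) (.cons (.rf (nat_lit 2875) (nat_lit 493858305440582043680)) (.cons (.br (nat_lit 2) (nat_lit 0) (.cons (.zr (nat_lit 237684487543009188861314073344) (nat_lit 310698731794700341654781953) (nat_lit 5) (nat_lit 0)) .nil)) .nil))) .nil)))) .nil)))) .nil))),
 (.br (nat_lit 11) (nat_lit 1) (.cons (.rf (nat_lit 2725) (nat_lit 493857212528171517984)) (.cons (.rf (nat_lit 2876) (nat_lit 493858305440582043680)) (.cons (.br (nat_lit 11) (nat_lit 1) (.cons (.rf (nat_lit 2725) (nat_lit 493857212528171517984)) (.cons (.rf (nat_lit 2876) (nat_lit 493858305440582043680)) .nil))) .nil)))),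
 (.br (nat_lit 13) (nat_lit 0) (.cons (.rf (nat_lit 2870) (nat_lit 458117738729117419552)) (.cons (.br (nat_lit 2) (nat_lit 0) (.cons (.br (nat_lit 7) (nat_lit 0) (.cons (.br (nat_lit 11) (nat_lit 1) (.cons (.ev (nat_lit 20282719117051536429712188441092) (nat_lit 3)) .nil)) .nil)) (.cons (.br (nat_lit 5) (nat_lit 0) (.cons (.br (nat_lit 7) (nat_lit 0) (.cons (.ev (nat_lit 79849559830423620504099226370) (nat_lit 2)) .nil)) (.cons (.br (nat_lit 4) (nat_lit 1) (.cons (.ev (nat_lit 20361637794537532679262826857220) (nat_lit 3)) .nil)) .nil))) .nil))) (.cons (.br (nat_lit 2) (nat_lit 0) (.cons (.br (nat_lit 9) (nat_lit 1) (.cons (.br (nat_lit 7) (nat_lit 0) (.cons (.zr (nat_lit 2417851855405347588210688) (nat_lit 309503917734302096008676097) (nat_lit 5) (nat_lit 0)) .nil)) (.cons (.ev (nat_lit 20282409608374109245885927915521) (nat_lit 1)) .nil))) (.cons (.br (nat_lit 5) (nat_lit 0) (.cons (.br (nat_lit 11) (nat_lit 1) (.cons (.ev (nat_lit 79849559830423620504099226370) (nat_lit 2)) .nil)) (.cons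 (.ev (nat_lit 79538861172271781260600344833) (nat_lit 1)) .nil))) (.cons (.ev (nat_lit 20282409603651670705422228062209) (nat_lit 1)) .nil)))) .nil)))),
 (.br (nat_lit 13) (nat_lit 0) (.cons (.rf (nat_lit 2870) (nat_lit 458117738729117419552)) (.cons (.rf (nat_lit 2878) (nat_lit 493858305440582043680)) (.cons (.br (nat_lit 7) (nat_lit 0) (.cons (.br (nat_lit 11) (nat_lit 1) (.cons (.ev (nat_lit 310693935713298771209093121) (nat_lit 1)) (.cons (.rf (nat_lit 2662) (nat_lit 493817843410537646112)) .nil))) (.cons (.br (nat_lit 5) (nat_lit 0) (.cons (.br (nat_lit 11) (nat_lit 1) (.cons (.ev (nat_lit 79849550385691219905229095170) (nat_lit 2)) .nil)) (.cons (.kr (nat_lit 40644047369836051930661267702016) (nat_lit 928455029608150394266976256) (nat_lit 1) (nat_lit 0)) .nil))) (.cons (.ev (nat_lit 20361637766166007100609826652161) (nat_lit 1)) .nil)))) .nil)))),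
 (.br (nat_lit 6) (nat_lit 1) (.cons (.rf (nat_lit 2872) (nat_lit 493858305440582043680)) (.cons (.rf (nat_lit 2877) (nat_lit 493858305440582043680)) (.cons (.br (nat_lit 13) (nat_lit 0) (.cons (.rf (nat_lit 2870) (nat_lit 458117738729117419552)) (.cons (.rf (nat_lit 2878) (nat_lit 493858305440582043680)) (.cons (.rf (nat_lit 2879) (nat_lit 493858305440582043680)) (.cons (.br (nat_lit 13) (nat_lit 0) (.cons (.rf (nat_lit 2870) (nat_lit 458117738729117419552)) (.cons (.rf (nat_lit 2878) (nat_lit 493858305440582043680)) (.cons (.rf (nat_lit 2879) (nat_lit 493858305440582043680)) .nil)))) .nil))))) .nil)))),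
 (.br (nat_lit 6) (nat_lit 1) (.cons (.br (nat_lit 11) (nat_lit 1) (.cons (.rf (nat_lit 795) (nat_lit 13980468833781792)) (.cons (.br (nat_lit 8) (nat_lit 1) (.cons (.br (nat_lit 9) (nat_lit 1) (.cons (.ev (nat_lit 79228167255149904705425047553) (nat_lit 1)) .nil)) (.cons (.br (nat_lit 9) (nat_lit 1) (.cons (.ev (nat_lit 4740813509517859946753) (nat_lit 1)) (.cons (.ev (nat_lit 20361948464842461005776087416833) (nat_lit 1)) .nil))) .nil))) .nil))) (.cons (.br (nat_lit 11) (nat_lit 1) (.cons (.rf (nat_lit 2725) (nat_lit 493821218915524641856)) (.cons (.br (nat_lit 4) (nat_lit 1) (.cons (.br (nat_lit 8) (nat_lit 1) (.cons (.br (nat_lit 9) (nat_lit 1) (.cons (.ev (nat_lit 20361637775721564372218251773700) (nat_lit 3)) .nil)) .nil)) (.cons (.rf (nat_lit 2870) (nat_lit 458117738729117419552)) .nil))) (.cons (.br (nat_lit 13) (nat_lit 0) (.cons (.rf (nat_lit 2870) (nat_lit 458117738729117419552)) (.cons (.rf (nat_lit 1891) (nat_lit 458115489196979356736)) (.cons (.br (nat_lit 5) (nat_lit 0) (.cons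 (.zr (nat_lit 20440865928680199101333362573824) (nat_lit 310698658007724046849933313) (nat_lit 5) (nat_lit 0)) (.cons (.br (nat_lit 4) (nat_lit 1) (.cons (.ev (nat_lit 79228162532783139265603174401) (nat_lit 1)) .nil)) .nil))) .nil)))) .nil)))) .nil))),
 (.br (nat_lit 6) (nat_lit 1) (.cons (.rf (nat_lit 2881) (nat_lit 493858305440582043680)) (.cons (.br (nat_lit 4) (nat_lit 1) (.cons (.br (nat_lit 8) (nat_lit 1) (.cons (.ev (nat_lit 282574505115649) (nat_lit 1)) (.cons (.br (nat_lit 9) (nat_lit 1) (.cons (.ev (nat_lit 79228162514336677762070216961) (nat_lit 1)) (.cons (.br (nat_lit 11) (nat_lit 1) (.cons (.ev (nat_lit 79849559830423620504099291650) (nat_lit 2)) .nil)) .nil))) .nil))) (.cons (.rf (nat_lit 2870) (nat_lit 458117738729117419552)) .nil))) .nil))),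
 (.br (nat_lit 6) (nat_lit 1) (.cons (.rf (nat_lit 2881) (nat_lit 493858305440582043680)) (.cons (.rf (nat_lit 2882) (nat_lit 493858305440582043680)) (.cons (.br (nat_lit 6) (nat_lit 1) (.cons (.rf (nat_lit 2881) (nat_lit 493858305440582043680)) (.cons (.rf (nat_lit 2882) (nat_lit 493858305440582043680)) .nil))) .nil)))),
 (.br (nat_lit 9) (nat_lit 1) (.cons (.ev (nat_lit 72057598349738241) (nat_lit 1)) (.cons (.zr (nat_lit 158456325028528677386111353088) (nat_lit 1213648186378978125152257) (nat_lit 5) (nat_lit 0)) .nil))),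
 (.br (nat_lit 6) (nat_lit 1) (.cons (.rf (nat_lit 2725) (nat_lit 493821048491222336576)) (.cons (.br (nat_lit 4) (nat_lit 1) (.cons (.ev (nat_lit 309485009893403766569369601) (nat_lit 1)) (.cons (.br (nat_lit 8) (nat_lit 1) (.cons (.ev (nat_lit 79229371440084234801502028033) (nat_lit 1)) (.cons (.ev (nat_lit 20361638975091754657649258397953) (nat_lit 1)) .nil))) .nil))) (.cons (.br (nat_lit 4) (nat_lit 1) (.cons (.rf (nat_lit 2884) (nat_lit 493858305440582043680)) (.cons (.ev (nat_lit 310693935713298771209158913) (nat_lit 1)) (.cons (.rf (nat_lit 2870) (nat_lit 458117738729117419552)) .nil)))) .nil)))),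
 (.br (nat_lit 6) (nat_lit 1) (.cons (.rf (nat_lit 2725) (nat_lit 493821048491222336576)) (.cons (.rf (nat_lit 2804) (nat_lit 493821218915524642848)) (.cons (.br (nat_lit 13) (nat_lit 0) (.cons (.rf (nat_lit 2668) (nat_lit 493823292595532564512)) (.cons (.rf (nat_lit 2668) (nat_lit 493823296993574881312)) (.cons (.rf (nat_lit 2668) (nat_lit 493823298092012767264)) .nil)))) .nil)))),
 (.br (nat_lit 8) (nat_lit 1) (.cons (.ev (nat_lit 79228162514264337597838917889) (nat_lit 1)) (.cons (.ev (nat_lit 79228162514264337597838983169) (nat_lit 1)) (.cons (.ev (nat_lit 20361637766165934762644618608641) (nat_lit 1)) .nil)))),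
 (.br (nat_lit 6) (nat_lit 1) (.cons (.rf (nat_lit 2885) (nat_lit 493858305440582043680)) (.cons (.rf (nat_lit 2886) (nat_lit 493858305440582043680)) (.cons (.br (nat_lit 4) (nat_lit 1) (.cons (.ev (nat_lit 310693935713298771209158913) (nat_lit 1)) (.cons (.rf (nat_lit 2887) (nat_lit 493858305440582043680)) (.cons (.rf (nat_lit 2870) (nat_lit 458117738729117419552)) .nil)))) .nil)))),
 (.br (nat_lit 11) (nat_lit 1) (.cons (.rf (nat_lit 2883) (nat_lit 493858305440582043680)) (.cons (.br (nat_lit 2) (nat_lit 0) (.cons (.rf (nat_lit 2587) (nat_lit 493679318144945063968)) (.cons (.br (nat_lit 6) (nat_lit 1) (.cons (.rf (nat_lit 795) (nat_lit 13974976644352032)) (.cons (.br (nat_lit 4) (nat_lit 1) (.cons (.rf (nat_lit 2884) (nat_lit 493858305440582043680)) (.cons (.rf (nat_lit 2870) (nat_lit 458117738729117419552)) .nil))) .nil))) (.cons (.rf (nat_lit 2587) (nat_lit 493679322542987380768)) (.cons (.rf (nat_lit 2587) (nat_lit 493679323641425266720)) .nil))))) (.cons (.br (nat_lit 6) (nat_lit 1)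 (.cons (.rf (nat_lit 2885) (nat_lit 493858305440582043680)) (.cons (.rf (nat_lit 2886) (nat_lit 493858305440582043680)) (.cons (.rf (nat_lit 2888) (nat_lit 493858305440582043680)) (.cons (.br (nat_lit 6) (nat_lit 1) (.cons (.rf (nat_lit 2885) (nat_lit 493858305440582043680)) (.cons (.rf (nat_lit 2886) (nat_lit 493858305440582043680)) (.cons (.rf (nat_lit 2888) (nat_lit 493858305440582043680)) .nil)))) .nil))))) .nil)))),
 (.br (nat_lit 9) (nat_lit 1) (.cons (.br (nat_lit 4) (nat_lit 1) (.cons (.ev (nat_lit 309489732187829042193432833) (nat_lit 1)) (.cons (.br (nat_lit 13) (nat_lit 0) (.cons (.rf (nat_lit 2870) (nat_lit 458117738729117419552)) (.cons (.ev (nat_lit 20282719088679938513093980651521) (nat_lit 1)) .nil))) .nil))) (.cons (.br (nat_lit 6) (nat_lit 1) (.cons (.br (nat_lit 8) (nat_lit 1) (.cons (.br (nat_lit 4) (nat_lit 1) (.cons (.ev (nat_lit 79848355626970488740291543810) (nat_lit 2)) .nil)) (.cons (.br (nat_lit 5) (nat_lit 0) (.cons (.ev (nat_lit 79229371458603036469266219265) (nat_lit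 1)) .nil)) .nil))) (.cons (.br (nat_lit 4) (nat_lit 1) (.cons (.br (nat_lit 5) (nat_lit 0) (.cons (.ev (nat_lit 158457533973011491454204314370) (nat_lit 2)) .nil)) .nil)) .nil))) .nil))),
 (.br (nat_lit 11) (nat_lit 1) (.cons (.rf (nat_lit 2883) (nat_lit 493858305440582043680)) (.cons (.rf (nat_lit 2889) (nat_lit 493858305440582043680)) (.cons (.br (nat_lit 6) (nat_lit 1) (.cons (.rf (nat_lit 2890) (nat_lit 493858305440582043680)) (.cons (.br (nat_lit 6) (nat_lit 1) (.cons (.rf (nat_lit 2890) (nat_lit 493858305440582043680)) (.cons (.ev (nat_lit 79537647524158021731300147201) (nat_lit 1)) .nil))) (.cons (.br (nat_lit 6) (nat_lit 1) (.cons (.rf (nat_lit 2890) (nat_lit 493858305440582043680)) (.cons (.ev (nat_lit 79537647524158021731300147201) (nat_lit 1)) .nil))) .nil)))) .nil)))),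
 (.br (nat_lit 9) (nat_lit 1) (.cons (.ev (nat_lit 72057598349672449) (nat_lit 1)) (.cons (.zr (nat_lit 158456325028528677386111353088) (nat_lit 1213648186378978125152257) (nat_lit 5) (nat_lit 0)) .nil))),
 (.br (nat_lit 7) (nat_lit 0) (.cons (.kr (nat_lit 72058693583110400) (nat_lit 20361637766165934761540795432960) (nat_lit 1) (nat_lit 0)) .nil)),
 (.br (nat_lit 5) (nat_lit 0) (.cons (.rf (nat_lit 2893) (nat_lit 493858305440582043680)) (.cons (.rf (nat_lit 2893) (nat_lit 493858271355721582624)) .nil))),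
 (.br (nat_lit 11) (nat_lit 1) (.cons (.br (nat_lit 6) (nat_lit 1) (.cons (.rf (nat_lit 2725) (nat_lit 493821048491222336576)) (.cons (.br (nat_lit 4) (nat_lit 1) (.cons (.rf (nat_lit 2892) (nat_lit 493858305440582043680)) (.cons (.br (nat_lit 5) (nat_lit 0) (.cons (.ev (nat_lit 309485028268090246257704961) (nat_lit 1)) (.cons (.br (nat_lit 8) (nat_lit 1) (.cons (.ev (nat_lit 1223129884893761719304450) (nat_lit 2)) .nil)) .nil))) .nil))) (.cons (.br (nat_lit 9) (nat_lit 1) (.cons (.br (nat_lit 4) (nat_lit 1) (.cons (.br (nat_lit 13) (nat_lit 0) (.cons (.ev (nat_lit 20361645029202984996327404144388) (nat_lit 3)) .nil)) (.cons (.rf (nat_lit 2870) (nat_lit 458117738729117419552)) .nil))) (.cons (.kr (nat_lit 4722366482869645279232) (nat_lit 72057594054705152) (nat_lit 2) (nat_lit 0)) (.cons (.br (nat_lit 4) (nat_lit 1) (.cons (.ev (nat_lit 20282719093383858251889916313601) (nat_lit 1)) (.cons (.br (nat_lit 8) (nat_lit 1) (.cons (.ev (nat_lit 20837625720790187827946708205828) (nat_lit 3)) .nil))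 .nil))) .nil)))) .nil)))) (.cons (.br (nat_lit 6) (nat_lit 1) (.cons (.rf (nat_lit 2725) (nat_lit 493821048491222336576)) (.cons (.br (nat_lit 4) (nat_lit 1) (.cons (.rf (nat_lit 2892) (nat_lit 493858305440582043680)) (.cons (.ev (nat_lit 310693935713298771209093121) (nat_lit 1)) (.cons (.rf (nat_lit 2894) (nat_lit 493858305440582043680)) .nil)))) (.cons (.br (nat_lit 9) (nat_lit 1) (.cons (.br (nat_lit 7) (nat_lit 0) (.cons (.zr (nat_lit 40723585017341690868150315254528) (nat_lit 1213648186380077603291137) (nat_lit 5) (nat_lit 10)) (.cons (.kr (nat_lit 20361637766165934761540795301888) (nat_lit 18446745173237956608) (nat_lit 2) (nat_lit 0)) .nil))) (.cons (.br (nat_lit 8) (nat_lit 1) (.cons (.br (nat_lit 7) (nat_lit 0) (.cons (.ev (nat_lit 309485028268090246257704961) (nat_lit 1)) .nil)) (.cons (.kr (nat_lit 79228162514264337593544015872) (nat_lit 72057594054705152) (nat_lit 2) (nat_lit 0)) .nil))) .nil))) .nil)))) .nil)))]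

theorem c100 : chkAll C T R L100 (nat_lit 2868) = true := by decide +kernel

theorem l100 : (nat_lit 2868) + L100.length = (nat_lit 2896) := by decide +kernel

/-- part of the certificates -/
def L101 : List Prf := [(.br (nat_lit 7) (nat_lit 0) (.cons (.kr (nat_lit 72058693583110400) (nat_lit 20361637766165934761540795432960) (nat_lit 1) (nat_lit 0)) .nil)),
 (.br (nat_lit 7) (nat_lit 0) (.cons (.kr (nat_lit 72058693583110400) (nat_lit 20361637766165934761540795432960) (nat_lit 1) (nat_lit 0)) .nil)),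
 (.br (nat_lit 11) (nat_lit 1) (.cons (.rf (nat_lit 2895) (nat_lit 493858305440582043680)) (.cons (.br (nat_lit 9) (nat_lit 1) (.cons (.br (nat_lit 5) (nat_lit 0) (.cons (.ev (nat_lit 309489732187829042193432833) (nat_lit 1)) (.cons (.br (nat_lit 13) (nat_lit 0) (.cons (.rf (nat_lit 2896) (nat_lit 493858305440582043680)) (.cons (.br (nat_lit 4) (nat_lit 1) (.cons (.zr (nat_lit 79228162514408454980643062272) (nat_lit 309489750634572016391290881) (nat_lit 5) (nat_lit 0)) .nil)) .nil))) (.cons (.br (nat_lit 4) (nat_lit 1) (.cons (.br (nat_lit 6) (nat_lit 1) (.cons (.zr (nat_lit 144117387099177216) (nat_lit 1213648186378978091597825) (nat_lit 5) (nat_lit 0)) .nil)) (.cons (.rf (nat_lit 2897) (nat_lit 493858305440582043680)) .nil))) .nil)))) (.cons (.kr (nat_lit 4722366482869645279232) (nat_lit 72057594054705152) (nat_lit 2) (nat_lit 0)) (.cons (.br (nat_lit 8) (nat_lit 1) (.cons (.br (nat_lit 5) (nat_lit 0) (.cons (.br (nat_lit 7) (nat_lit 0) (.cons (.ev (nat_lit 158457533973011491454204379650)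 (nat_lit 2)) .nil)) (.cons (.br (nat_lit 7) (nat_lit 0) (.cons (.ev (nat_lit 79538856505389928383288378114) (nat_lit 2)) .nil)) .nil))) (.cons (.br (nat_lit 4) (nat_lit 1) (.cons (.br (nat_lit 5) (nat_lit 0) (.cons (.ev (nat_lit 158457533973011491454204379650) (nat_lit 2)) .nil)) .nil)) .nil))) .nil)))) .nil))),
 (.br (nat_lit 11) (nat_lit 1) (.cons (.rf (nat_lit 2895) (nat_lit 493858305440582043680)) (.cons (.rf (nat_lit 2898) (nat_lit 493858305440582043680)) (.cons (.br (nat_lit 11) (nat_lit 1) (.cons (.rf (nat_lit 2895) (nat_lit 493858305440582043680)) (.cons (.rf (nat_lit 2898) (nat_lit 493858305440582043680)) .nil))) .nil)))),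
 (.br (nat_lit 13) (nat_lit 0) (.cons (.br (nat_lit 2) (nat_lit 0) (.cons (.kr (nat_lit 9444732966838802055424) (nat_lit 20361637766166006819134833229824) (nat_lit 1) (nat_lit 0)) .nil)) .nil)),
 (.br (nat_lit 13) (nat_lit 0) (.cons (.rf (nat_lit 2644) (nat_lit 493823296993574880320)) (.cons (.rf (nat_lit 2644) (nat_lit 493823298092012766272)) (.cons (.rf (nat_lit 2627) (nat_lit 493679323641425266720)) .nil)))),
 (.br (nat_lit 5) (nat_lit 0) (.cons (.br (nat_lit 7) (nat_lit 0) (.cons (.rf (nat_lit 2900) (nat_lit 493858305440582043680)) (.cons (.br (nat_lit 13) (nat_lit 0) (.cons (.ev (nat_lit 79228167255149904705424982273) (nat_lit 1)) (.cons (.br (nat_lit 9) (nat_lit 1) (.cons (.ev (nat_lit 80469743498540640728512594180) (nat_lit 3)) .nil)) .nil))) .nil))) (.cons (.br (nat_lit 7) (nat_lit 0) (.cons (.br (nat_lit 2) (nat_lit 0) (.cons (.br (nat_lit 13) (nat_lit 0) (.cons (.ev (nat_lit 159077712918258186384373187330) (nat_lit 2)) .nil)) .nil)) (.cons (.br (nat_lit 8) (nat_lit 1) (.cons (.ev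 (nat_lit 79231798792013117385496265218) (nat_lit 2)) (.cons (.ev (nat_lit 20361637770906820327553181417473) (nat_lit 1)) .nil))) .nil))) (.cons (.rf (nat_lit 2901) (nat_lit 493858305440582043680)) .nil)))),
 (.br (nat_lit 9) (nat_lit 1) (.cons (.ev (nat_lit 4722366482873940246529) (nat_lit 1)) (.cons (.ev (nat_lit 310698676454187740765946113) (nat_lit 1)) .nil))),
 (.br (nat_lit 5) (nat_lit 0) (.cons (.br (nat_lit 7) (nat_lit 0) (.cons (.ev (nat_lit 72057598349672449) (nat_lit 1)) (.cons (.br (nat_lit 11) (nat_lit 1) (.cons (.rf (nat_lit 2903) (nat_lit 493858305440582043680)) (.cons (.br (nat_lit 2) (nat_lit 0) (.cons (.zr (nat_lit 79228162514336397386605199872) (nat_lit 309485028268089146762854401) (nat_lit 5) (nat_lit 0)) .nil)) .nil))) .nil))) (.cons (.br (nat_lit 2) (nat_lit 0) (.cons (.br (nat_lit 7) (nat_lit 0) (.cons (.br (nat_lit 13) (nat_lit 0) (.cons (.ev (nat_lit 20838868496458677585967223080196) (nat_lit 3)) .nil)) .nil)) (.cons (.ev (nat_lit 4740813509517859946753) (nat_lit 1))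 .nil))) (.cons (.rf (nat_lit 2901) (nat_lit 493858301042539726880)) .nil)))),
 (.br (nat_lit 7) (nat_lit 0) (.cons (.ev (nat_lit 20361638975091826433764024647681) (nat_lit 1)) (.cons (.ev (nat_lit 310693935713298771209093121) (nat_lit 1)) (.cons (.ev (nat_lit 20361948464842461005776087416833) (nat_lit 1)) .nil)))),
 (.br (nat_lit 13) (nat_lit 0) (.cons (.rf (nat_lit 2902) (nat_lit 493858305440582043680)) (.cons (.rf (nat_lit 2904) (nat_lit 493858305440582043680)) (.cons (.br (nat_lit 11) (nat_lit 1) (.cons (.rf (nat_lit 2905) (nat_lit 493858305440582043680)) (.cons (.kr (nat_lit 309485009821345068724781056) (nat_lit 20282409603651670423947251286016) (nat_lit 11) (nat_lit 0)) (.cons (.br (nat_lit 5) (nat_lit 0) (.cons (.ev (nat_lit 20282409603651742482645095809281) (nat_lit 1)) (.cons (.ev (nat_lit 79228167255149904705424982273) (nat_lit 1)) .nil))) .nil)))) .nil)))),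
 (.br (nat_lit 11) (nat_lit 1) (.cons (.rf (nat_lit 2725) (nat_lit 493821218915524641856)) (.cons (.br (nat_lit 5) (nat_lit 0) (.cons (.rf (nat_lit 2903) (nat_lit 493858305440582043680)) (.cons (.br (nat_lit 4) (nat_lit 1) (.cons (.ev (nat_lit 4722366482873940246529) (nat_lit 1)) .nil)) .nil))) .nil))),
 (.br (nat_lit 11) (nat_lit 1) (.cons (.rf (nat_lit 2725) (nat_lit 493821218915524641856)) (.cons (.br (nat_lit 5) (nat_lit 0) (.cons (.zr (nat_lit 20440865928680199101333362639104) (nat_lit 310698658007724046849933313) (nat_lit 5) (nat_lit 0)) (.cons (.br (nat_lit 7) (nat_lit 0) (.cons (.ev (nat_lit 79228162532783139265603240193) (nat_lit 1)) .nil)) .nil))) .nil))),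
 (.br (nat_lit 6) (nat_lit 1) (.cons (.rf (nat_lit 2899) (nat_lit 493858305440582043680)) (.cons (.br (nat_lit 13) (nat_lit 0) (.cons (.rf (nat_lit 2902) (nat_lit 493858305440582043680)) (.cons (.rf (nat_lit 2904) (nat_lit 493858305440582043680)) (.cons (.rf (nat_lit 2906) (nat_lit 493858305440582043680)) (.cons (.br (nat_lit 13) (nat_lit 0) (.cons (.rf (nat_lit 2902) (nat_lit 493858305440582043680)) (.cons (.rf (nat_lit 2904) (nat_lit 493858305440582043680)) (.cons (.rf (nat_lit 2906) (nat_lit 493858305440582043680)) .nil)))) .nil))))) (.cons (.br (nat_lit 13) (nat_lit 0) (.cons (.rf (nat_lit 2870) (nat_lit 458117738729117419552)) (.cons (.br (nat_lit 11) (nat_lit 1) (.cons (.rf (nat_lit 2907) (nat_lit 493858305440582043680)) (.cons (.rf (nat_lit 2674) (nat_lit 493823296993574881312)) (.cons (.br (nat_lit 11) (nat_lit 1) (.cons (.rf (nat_lit 2907) (nat_lit 493858305440582043680)) (.cons (.rf (nat_lit 2627) (nat_lit 493853838126985873440)) .nil))) .nil)))) (.cons (.br (nat_lit 11) (nat_lit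 1) (.cons (.rf (nat_lit 2908) (nat_lit 493858305440582043680)) (.cons (.rf (nat_lit 2674) (nat_lit 493823298092012767264)) (.cons (.br (nat_lit 11) (nat_lit 1) (.cons (.rf (nat_lit 2908) (nat_lit 493858305440582043680)) (.cons (.rf (nat_lit 2627) (nat_lit 493853838126985873440)) .nil))) .nil)))) (.cons (.br (nat_lit 9) (nat_lit 1) (.cons (.br (nat_lit 5) (nat_lit 0) (.cons (.br (nat_lit 8) (nat_lit 1) (.cons (.br (nat_lit 7) (nat_lit 0) (.cons (.ev (nat_lit 20837625711382205926224234088196) (nat_lit 3)) .nil)) .nil)) (.cons (.ev (nat_lit 79228162532711364241758683393) (nat_lit 1)) (.cons (.rf (nat_lit 2675) (nat_lit 493823298092012767264)) .nil)))) (.cons (.ev (nat_lit 20361637770888301525885417160961) (nat_lit 1)) (.cons (.br (nat_lit 4) (nat_lit 1) (.cons (.rf (nat_lit 2769) (nat_lit 458046631113132180544)) (.cons (.br (nat_lit 7) (nat_lit 0) (.cons (.ev (nat_lit 20361637770888373303108284973313) (nat_lit 1)) (.cons (.ev (nat_lit 20282409603651742482645095809281) (nat_lit 1)) .nil))) (.cons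 (.br (nat_lit 11) (nat_lit 1) (.cons (.kr (nat_lit 9444733247214267138304) (nat_lit 20361637766165934761545090269184) (nat_lit 1) (nat_lit 0)) (.cons (.kr (nat_lit 79228162514264338697350545408) (nat_lit 4722438821938659852288) (nat_lit 4) (nat_lit 0)) .nil))) .nil)))) .nil)))) .nil))))) .nil)))),
 (.br (nat_lit 5) (nat_lit 0) (.cons (.ev (nat_lit 282574505115649) (nat_lit 1)) (.cons (.br (nat_lit 2) (nat_lit 0) (.cons (.ev (nat_lit 79228162514264337597838983169) (nat_lit 1)) (.cons (.ev (nat_lit 40644668757688887389670258835970) (nat_lit 2)) .nil))) .nil))),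
 (.br (nat_lit 5) (nat_lit 0) (.cons (.ev (nat_lit 282574505115649) (nat_lit 1)) (.cons (.br (nat_lit 2) (nat_lit 0) (.cons (.br (nat_lit 11) (nat_lit 1) (.cons (.zr (nat_lit 237685696468612630712669962496) (nat_lit 309499195367819226346881025) (nat_lit 5) (nat_lit 8)) .nil)) (.cons (.br (nat_lit 4) (nat_lit 1) (.cons (.ev (nat_lit 310693935713298771209093121) (nat_lit 1)) .nil)) .nil))) .nil))),
 (.br (nat_lit 6) (nat_lit 1) (.cons (.rf (nat_lit 2899) (nat_lit 493858305440582043680)) (.cons (.rf (nat_lit 2909) (nat_lit 493858305440582043680)) (.cons (.br (nat_lit 13) (nat_lit 0) (.cons (.rf (nat_lit 2870) (nat_lit 458117738729117419552)) (.cons (.ev (nat_lit 20282409603651670705422227996929) (nat_lit 1)) (.cons (.br (nat_lit 5) (nat_lit 0) (.cons (.rf (nat_lit 2910) (nat_lit 493858305440582043680)) (.cons (.rf (nat_lit 2911) (nat_lit 493858305440582043680)) (.cons (.br (nat_lit 5) (nat_lit 0) (.cons (.rf (nat_lit 2910) (nat_lit 493858305440582043680)) (.cons (.rf (nat_lit 2911) (nat_lit 493858305440582043680))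 .nil))) .nil)))) (.cons (.br (nat_lit 9) (nat_lit 1) (.cons (.br (nat_lit 11) (nat_lit 1) (.cons (.br (nat_lit 4) (nat_lit 1) (.cons (.zr (nat_lit 61005685135983539949227865211136) (nat_lit 929668677650414184299495425) (nat_lit 5) (nat_lit 0)) (.cons (.br (nat_lit 8) (nat_lit 1) (.cons (.ev (nat_lit 309485028268090246257704961) (nat_lit 1)) .nil)) .nil))) (.cons (.ev (nat_lit 20361637766166007100609826717953) (nat_lit 1)) .nil))) (.cons (.br (nat_lit 2) (nat_lit 0) (.cons (.br (nat_lit 11) (nat_lit 1) (.cons (.zr (nat_lit 40723894502351512213219040100864) (nat_lit 1213648186381177131630593) (nat_lit 5) (nat_lit 10)) (.cons (.br (nat_lit 5) (nat_lit 0) (.cons (.ev (nat_lit 158765819612571611679701598212) (nat_lit 3)) .nil)) .nil))) (.cons (.br (nat_lit 4) (nat_lit 1) (.cons (.ev (nat_lit 79228162514264337597838983169) (nat_lit 1)) (.cons (.kr (nat_lit 4722366764344621924608) (nat_lit 20282409603651670423951546318848) (nat_lit 1) (nat_lit 0)) .nil))) (.cons (.br (nat_lit 4) (nat_lit 1) (.cons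 (.kr (nat_lit 9444733247214267138304) (nat_lit 20361637766165934761545090269184) (nat_lit 1) (nat_lit 0)) (.cons (.ev (nat_lit 4722366482873940246529) (nat_lit 1)) .nil))) .nil)))) (.cons (.ev (nat_lit 20361637770888301525885417160961) (nat_lit 1)) .nil)))) .nil))))) .nil)))),
 (.br (nat_lit 10) (nat_lit 1) (.cons (.kr (nat_lit 256) (nat_lit 65536) (nat_lit 1) (nat_lit 0)) (.cons (.br (nat_lit 6) (nat_lit 1) (.cons (.rf (nat_lit 2872) (nat_lit 493858305440582043680)) (.cons (.rf (nat_lit 2877) (nat_lit 493858305440582043680)) (.cons (.rf (nat_lit 2880) (nat_lit 493858305440582043680)) (.cons (.br (nat_lit 6) (nat_lit 1) (.cons (.rf (nat_lit 2872) (nat_lit 493858305440582043680)) (.cons (.rf (nat_lit 2877) (nat_lit 493858305440582043680)) (.cons (.rf (nat_lit 2880) (nat_lit 493858305440582043680)) .nil)))) .nil))))) (.cons (.br (nat_lit 11) (nat_lit 1) (.cons (.rf (nat_lit 2883) (nat_lit 493858305440582043680)) (.cons (.rf (nat_lit 2889) (nat_lit 493858305440582043680)) (.cons (.rf (nat_lit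 2891) (nat_lit 493858305440582043680)) (.cons (.br (nat_lit 11) (nat_lit 1) (.cons (.rf (nat_lit 2883) (nat_lit 493858305440582043680)) (.cons (.rf (nat_lit 2889) (nat_lit 493858305440582043680)) (.cons (.rf (nat_lit 2891) (nat_lit 493858305440582043680)) .nil)))) .nil))))) (.cons (.br (nat_lit 6) (nat_lit 1) (.cons (.rf (nat_lit 2899) (nat_lit 493858305440582043680)) (.cons (.rf (nat_lit 2909) (nat_lit 493858305440582043680)) (.cons (.rf (nat_lit 2912) (nat_lit 493858305440582043680)) (.cons (.br (nat_lit 6) (nat_lit 1) (.cons (.rf (nat_lit 2899) (nat_lit 493858305440582043680)) (.cons (.rf (nat_lit 2909) (nat_lit 493858305440582043680)) (.cons (.rf (nat_lit 2912) (nat_lit 493858305440582043680)) .nil)))) .nil))))) .nil))))),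
 (.br (nat_lit 6) (nat_lit 1) (.cons (.kr (nat_lit 20282409603651742481541289214208) (nat_lit 79228162514264338693055643648) (nat_lit 1) (nat_lit 0)) .nil)),
 (.br (nat_lit 6) (nat_lit 0) (.cons (.br (nat_lit 5) (nat_lit 0) (.cons (.kr (nat_lit 1208925819615728686333952) (nat_lit 309485009821626543701491712) (nat_lit 5) (nat_lit 0)) (.cons (.br (nat_lit 13) (nat_lit 1) (.cons (.rf (nat_lit 2914) (nat_lit 417836381518860224544)) (.cons (.rf (nat_lit 2914) (nat_lit 417836381518860223552)) .nil))) .nil))) .nil)),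
 (.br (nat_lit 2) (nat_lit 0) (.cons (.ev (nat_lit 20837014013733302298778064455428) (nat_lit 3)) .nil)),
 (.br (nat_lit 13) (nat_lit 0) (.cons (.rf (nat_lit 2870) (nat_lit 458117738729117419552)) (.cons (.rf (nat_lit 2915) (nat_lit 482247182020347936)) (.cons (.br (nat_lit 5) (nat_lit 0) (.cons (.br (nat_lit 11) (nat_lit 1) (.cons (.rf (nat_lit 2901) (nat_lit 493679287359689033760)) (.cons (.rf (nat_lit 2901) (nat_lit 493679287359689032768)) (.cons (.br (nat_lit 1) (nat_lit 0) (.cons (.ev (nat_lit 20282719088679938513093980586241) (nat_lit 1)) (.cons (.ev (nat_lit 79537647542604485433822806273) (nat_lit 1)) .nil))) .nil)))) (.cons (.br (nat_lit 7) (nat_lit 0) (.cons (.br (nat_lit 6) (nat_lit 1) (.cons (.rf (nat_lit 2916) (nat_lit 493858305440582043680)) (.cons (.rf (nat_lit 2916) (nat_lit 493858305440582042688)) .nil))) (.cons (.br (nat_lit 6) (nat_lit 1) (.cons (.ev (nat_lit 79537647542604485433822806273) (nat_lit 1)) (.cons (.ev (nat_lit 79537647542604485433822871553) (nat_lit 1)) .nil)))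 .nil))) (.cons (.rf (nat_lit 2652) (nat_lit 14313926331844364320)) .nil)))) .nil)))),
 (.br (nat_lit 6) (nat_lit 1) (.cons (.ev (nat_lit 4740885566016664371201) (nat_lit 1)) .nil)),
 (.br (nat_lit 13) (nat_lit 0) (.cons (.rf (nat_lit 2870) (nat_lit 458117738729117419552)) (.cons (.rf (nat_lit 2915) (nat_lit 482247182020347936)) (.cons (.br (nat_lit 7) (nat_lit 0) (.cons (.rf (nat_lit 2653) (nat_lit 458005185020176730144)) (.cons (.rf (nat_lit 2652) (nat_lit 15433072007406782496)) (.cons (.br (nat_lit 1) (nat_lit 0) (.cons (.br (nat_lit 8) (nat_lit 1) (.cons (.rf (nat_lit 2918) (nat_lit 493858305440582043680)) (.cons (.ev (nat_lit 79229371458602754994272731393) (nat_lit 1)) .nil))) (.cons (.br (nat_lit 6) (nat_lit 1) (.cons (.rf (nat_lit 2918) (nat_lit 493858305440582042688)) (.cons (.rf (nat_lit 2918) (nat_lit 493858305440481379488)) .nil))) .nil))) .nil)))) .nil)))),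
 (.br (nat_lit 13) (nat_lit 0) (.cons (.rf (nat_lit 2870) (nat_lit 458117738729117419552)) (.cons (.rf (nat_lit 2917) (nat_lit 493858305440582043680)) (.cons (.rf (nat_lit 2919) (nat_lit 493858305440582043680)) (.cons (.br (nat_lit 13) (nat_lit 0) (.cons (.rf (nat_lit 2870) (nat_lit 458117738729117419552)) (.cons (.rf (nat_lit 2917) (nat_lit 493858305440582043680)) (.cons (.rf (nat_lit 2919) (nat_lit 493858305440582043680)) .nil)))) .nil))))),
 (.br (nat_lit 11) (nat_lit 1) (.cons (.rf (nat_lit 2913) (nat_lit 458082801744999450656)) (.cons (.rf (nat_lit 2913) (nat_lit 458082801744999449664)) (.cons (.br (nat_lit 4) (nat_lit 1) (.cons (.rf (nat_lit 2901) (nat_lit 458074952339007047712)) (.cons (.rf (nat_lit 2901) (nat_lit 458074952339007046720)) (.cons (.br (nat_lit 10) (nat_lit 1) (.cons (.rf (nat_lit 2913) (nat_lit 493858305440582043680)) (.cons (.rf (nat_lit 2913) (nat_lit 493858305440582042688)) .nil))) .nil)))) .nil)))),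
 (.br (nat_lit 1) (nat_lit 0) (.cons (.ev (nat_lit 4740885566016664371201) (nat_lit 1)) .nil))]

theorem c101 : chkAll C T R L101 (nat_lit 2896) = true := by decide +kernel

theorem l101 : (nat_lit 2896) + L101.length = (nat_lit 2923) := by decide +kernel

/-- part of the certificates -/
def L102 : List Prf := [(.br (nat_lit 6) (nat_lit 1) (.cons (.ev (nat_lit 20361637770888373303108284973313) (nat_lit 1)) (.cons (.ev (nat_lit 20361637770888373303108285038593) (nat_lit 1)) .nil))),
 (.br (nat_lit 7) (nat_lit 0) (.cons (.rf (nat_lit 2680) (nat_lit 15431981291872028704)) (.cons (.br (nat_lit 2) (nat_lit 0) (.cons (.br (nat_lit 9) (nat_lit 1) (.cons (.kr (nat_lit 79228162514264340892112388352) (nat_lit 20283028573671385171678738972672) (nat_lit 1) (nat_lit 0)) .nil)) (.cons (.br (nat_lit 1) (nat_lit 0) (.cons (.kr (nat_lit 20283028573671385171678738776832) (nat_lit 79228162514264340892112453632) (nat_lit 1) (nat_lit 0)) .nil)) .nil))) (.cons (.rf (nat_lit 2680) (nat_lit 15431980197724915744))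 .nil)))),
 (.br (nat_lit 13) (nat_lit 0) (.cons (.rf (nat_lit 2870) (nat_lit 458117738729117419552)) (.cons (.br (nat_lit 11) (nat_lit 1) (.cons (.rf (nat_lit 2913) (nat_lit 458082801744999450656)) (.cons (.rf (nat_lit 2913) (nat_lit 458082801744999449664)) (.cons (.rf (nat_lit 2921) (nat_lit 458082801744999450656)) (.cons (.rf (nat_lit 2921) (nat_lit 493858305440582043680)) .nil))))) (.cons (.br (nat_lit 5) (nat_lit 0) (.cons (.br (nat_lit 7) (nat_lit 0) (.cons (.rf (nat_lit 2709) (nat_lit 458045505213226387488)) (.cons (.br (nat_lit 11) (nat_lit 1) (.cons (.ev (nat_lit 4722366482873940181249) (nat_lit 1)) (.cons (.ev (nat_lit 4722366482873940246529) (nat_lit 1)) .nil))) (.cons (.br (nat_lit 2) (nat_lit 0) (.cons (.br (nat_lit 9) (nat_lit 1) (.cons (.ev (nat_lit 4740885566016664371201) (nat_lit 1)) .nil)) (.cons (.rf (nat_lit 2922) (nat_lit 493858305440582043680)) .nil))) .nil)))) (.cons (.br (nat_lit 11) (nat_lit 1) (.cons (.rf (nat_lit 2627) (nat_lit 493817844514338998304)) (.cons (.rf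 (nat_lit 2627) (nat_lit 493817844514338997312)) (.cons (.ev (nat_lit 79538856468352323939658104833) (nat_lit 1)) .nil)))) (.cons (.br (nat_lit 7) (nat_lit 0) (.cons (.rf (nat_lit 2923) (nat_lit 493858305440582043680)) (.cons (.rf (nat_lit 2709) (nat_lit 457865537149992011808)) (.cons (.br (nat_lit 2) (nat_lit 0) (.cons (.br (nat_lit 6) (nat_lit 1) (.cons (.ev (nat_lit 4740885566016664371201) (nat_lit 1)) .nil)) (.cons (.br (nat_lit 4) (nat_lit 1) (.cons (.ev (nat_lit 4740885566016664371201) (nat_lit 1)) .nil)) .nil))) .nil)))) (.cons (.rf (nat_lit 2924) (nat_lit 493858305440582043680)) .nil))))) .nil)))),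
 (.br (nat_lit 5) (nat_lit 0) (.cons (.br (nat_lit 2) (nat_lit 0) (.cons (.ev (nat_lit 1213648186098602643357953) (nat_lit 1)) (.cons (.zr (nat_lit 20440865928680199101333362573824) (nat_lit 310698658007724046849933313) (nat_lit 5) (nat_lit 0)) .nil))) (.cons (.br (nat_lit 4) (nat_lit 1) (.cons (.ev (nat_lit 20361637770906748271062933373185) (nat_lit 1)) (.cons (.ev (nat_lit 79228162532783139265603174401) (nat_lit 1)) .nil))) (.cons (.rf (nat_lit 2627) (nat_lit 493823298092012767264)) .nil)))),
 (.br (nat_lit 7) (nat_lit 0) (.cons (.rf (nat_lit 2680) (nat_lit 15431805370011584544)) (.cons (.rf (nat_lit 2680) (nat_lit 15431805374302357536)) (.cons (.rf (nat_lit 2680) (nat_lit 15431804275864471584)) (.cons (.ev (nat_lit 79537647524158021731300147201) (nat_lit 1)) .nil))))),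
 (.br (nat_lit 11) (nat_lit 1) (.cons (.br (nat_lit 8) (nat_lit 1) (.cons (.ev (nat_lit 20362261581333806182321426465540) (nat_lit 3)) .nil)) (.cons (.ev (nat_lit 310698658079782736070967553) (nat_lit 1)) .nil))),
 (.br (nat_lit 13) (nat_lit 0) (.cons (.rf (nat_lit 2870) (nat_lit 458117738729117419552)) (.cons (.rf (nat_lit 2925) (nat_lit 493858305440582043680)) (.cons (.br (nat_lit 6) (nat_lit 1) (.cons (.rf (nat_lit 2926) (nat_lit 493858305440582043680)) (.cons (.rf (nat_lit 2926) (nat_lit 493858305440582042688)) (.cons (.rf (nat_lit 2927) (nat_lit 493858305440582043680)) (.cons (.br (nat_lit 4) (nat_lit 1) (.cons (.rf (nat_lit 2928) (nat_lit 493858305440582043680)) (.cons (.rf (nat_lit 2928) (nat_lit 493858305440582042688)) (.cons (.rf (nat_lit 2709) (nat_lit 493858200984834115616)) .nil)))) .nil))))) .nil)))),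
 (.br (nat_lit 13) (nat_lit 0) (.cons (.rf (nat_lit 2870) (nat_lit 458117738729117419552)) (.cons (.rf (nat_lit 2925) (nat_lit 493858305440582043680)) (.cons (.rf (nat_lit 2929) (nat_lit 493858305440582043680)) (.cons (.br (nat_lit 13) (nat_lit 0) (.cons (.rf (nat_lit 2870) (nat_lit 458117738729117419552)) (.cons (.rf (nat_lit 2925) (nat_lit 493858305440582043680)) (.cons (.rf (nat_lit 2929) (nat_lit 493858305440582043680)) .nil)))) .nil))))),
 (.br (nat_lit 13) (nat_lit 0) (.cons (.rf (nat_lit 2915) (nat_lit 482247182020347936)) (.cons (.rf (nat_lit 2930) (nat_lit 493858305440582043680)) (.cons (.br (nat_lit 7) (nat_lit 0) (.cons (.rf (nat_lit 2652) (nat_lit 15433072011697555488)) (.cons (.br (nat_lit 4) (nat_lit 1) (.cons (.rf (nat_lit 2901) (nat_lit 457930910817136511008)) (.cons (.rf (nat_lit 2901) (nat_lit 457930910817136510016)) (.cons (.br (nat_lit 1) (nat_lit 0) (.cons (.ev (nat_lit 81208872654917722304336269149956) (nat_lit 3)) (.cons (.ev (nat_lit 21391619637463048213513910618376)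 (nat_lit 4)) .nil))) .nil)))) (.cons (.br (nat_lit 2) (nat_lit 0) (.cons (.rf (nat_lit 1983) (nat_lit 485752918096081945664)) (.cons (.kr (nat_lit 1213648186097498819985408) (nat_lit 20282409603651742481541305991168) (nat_lit 2) (nat_lit 0)) .nil))) .nil)))) .nil)))),
 (.br (nat_lit 13) (nat_lit 0) (.cons (.rf (nat_lit 2920) (nat_lit 493858305440582043680)) (.cons (.rf (nat_lit 2930) (nat_lit 493858305440582043680)) (.cons (.rf (nat_lit 2931) (nat_lit 493858305440582043680)) (.cons (.br (nat_lit 13) (nat_lit 0) (.cons (.rf (nat_lit 2920) (nat_lit 493858305440582043680)) (.cons (.rf (nat_lit 2930) (nat_lit 493858305440582043680)) (.cons (.rf (nat_lit 2931) (nat_lit 493858305440582043680)) .nil)))) .nil))))),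
 (.br (nat_lit 13) (nat_lit 0) (.cons (.rf (nat_lit 2920) (nat_lit 493858305440582043680)) (.cons (.rf (nat_lit 2930) (nat_lit 493858305440582043680)) (.cons (.rf (nat_lit 2932) (nat_lit 493858305440582043680)) (.cons (.br (nat_lit 13) (nat_lit 0) (.cons (.rf (nat_lit 2920) (nat_lit 493858305440582043680)) (.cons (.rf (nat_lit 2930) (nat_lit 493858305440582043680)) (.cons (.rf (nat_lit 2932) (nat_lit 493858305440582043680)) .nil)))) .nil))))),
 (.br (nat_lit 7) (nat_lit 0) (.cons (.br (nat_lit 5) (nat_lit 0) (.cons (.br (nat_lit 2) (nat_lit 0) (.cons (.kr (nat_lit 2417851711286852387340544) (nat_lit 20361637766165934762640306929664) (nat_lit 1) (nat_lit 0)) .nil)) .nil)) (.cons (.rf (nat_lit 2674) (nat_lit 458046631117422954528)) .nil))),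
 (.br (nat_lit 2) (nat_lit 0) (.cons (.kr (nat_lit 20282409603651670423947251286272) (nat_lit 1208925819614629174771712) (nat_lit 1) (nat_lit 0)) (.cons (.rf (nat_lit 2934) (nat_lit 493858305440582042688)) (.cons (.kr (nat_lit 256) (nat_lit 65536) (nat_lit 1) (nat_lit 0)) .nil)))),
 (.br (nat_lit 1) (nat_lit 0) (.cons (.br (nat_lit 5) (nat_lit 0) (.cons (.ev (nat_lit 20282410817299856521450366173441) (nat_lit 1)) (.cons (.rf (nat_lit 2674) (nat_lit 493679322542987380768)) .nil))) (.cons (.rf (nat_lit 2934) (nat_lit 493858305440582043680)) (.cons (.rf (nat_lit 2935) (nat_lit 493858305440582043680)) .nil)))),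
 (.br (nat_lit 5) (nat_lit 0) (.cons (.br (nat_lit 7) (nat_lit 0) (.cons (.br (nat_lit 1) (nat_lit 0) (.cons (.ev (nat_lit 310693935713298771209158913) (nat_lit 1)) .nil)) .nil)) (.cons (.rf (nat_lit 2674) (nat_lit 493679323641425265728)) .nil))),
 (.br (nat_lit 7) (nat_lit 0) (.cons (.br (nat_lit 5) (nat_lit 0) (.cons (.br (nat_lit 11) (nat_lit 1) (.cons (.ev (nat_lit 79537647542532426735995060481) (nat_lit 1)) .nil)) .nil)) (.cons (.rf (nat_lit 2674) (nat_lit 458010603419915617344)) .nil))),
 (.br (nat_lit 8) (nat_lit 1) (.cons (.kr (nat_lit 1208925819614629174706432) (nat_lit 20282409603651670423947251351552) (nat_lit 1) (nat_lit 0)) (.cons (.br (nat_lit 11) (nat_lit 1) (.cons (.zr (nat_lit 40723277950183508752339940016384) (nat_lit 309485028268372820746043393) (nat_lit 5) (nat_lit 11)) (.cons (.ev (nat_lit 20282720297587383442342995296513) (nat_lit 1)) .nil))) (.cons (.br (nat_lit 5) (nat_lit 0) (.cons (.ev (nat_lit 20361637770888373303108284973313) (nat_lit 1)) (.cons (.kr (nat_lit 79228162514264338693055578112)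 (nat_lit 309485009893402662762708992) (nat_lit 5) (nat_lit 0)) .nil))) .nil)))),
 (.br (nat_lit 6) (nat_lit 1) (.cons (.kr (nat_lit 20282409603651670423947251286272) (nat_lit 1208925819614629174771712) (nat_lit 1) (nat_lit 0)) (.cons (.br (nat_lit 7) (nat_lit 0) (.cons (.kr (nat_lit 4722366483969156841472) (nat_lit 20282409603651742481541289213952) (nat_lit 5) (nat_lit 0)) (.cons (.ev (nat_lit 20282720297587383442342995296513) (nat_lit 1)) .nil))) (.cons (.br (nat_lit 2) (nat_lit 0) (.cons (.zr (nat_lit 1208926035787411288621312) (nat_lit 4740813508422643220481) (nat_lit 5) (nat_lit 0)) (.cons (.rf (nat_lit 1890) (nat_lit 458117738729117418560)) .nil))) .nil)))),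
 (.br (nat_lit 13) (nat_lit 0) (.cons (.rf (nat_lit 2936) (nat_lit 493858305440582043680)) (.cons (.br (nat_lit 2) (nat_lit 0) (.cons (.rf (nat_lit 2937) (nat_lit 493858305440582043680)) (.cons (.rf (nat_lit 2938) (nat_lit 493858305440582043680)) (.cons (.br (nat_lit 1) (nat_lit 0) (.cons (.rf (nat_lit 2937) (nat_lit 493858305440582042688)) (.cons (.rf (nat_lit 2938) (nat_lit 493858305440582042688)) (.cons (.kr (nat_lit 256) (nat_lit 65536) (nat_lit 1) (nat_lit 0)) .nil)))) .nil)))) (.cons (.br (nat_lit 1) (nat_lit 0) (.cons (.rf (nat_lit 2939) (nat_lit 493858305440582043680)) (.cons (.rf (nat_lit 2940) (nat_lit 493858305440582043680)) (.cons (.br (nat_lit 2) (nat_lit 0) (.cons (.rf (nat_lit 2939) (nat_lit 493858305440582042688)) (.cons (.rf (nat_lit 2940) (nat_lit 493858305440582042688)) (.cons (.rf (nat_lit 2769) (nat_lit 493820093011328074816)) .nil)))) (.cons (.br (nat_lit 2) (nat_lit 0) (.cons (.rf (nat_lit 2939) (nat_lit 493858305440582042688)) (.cons (.rf (nat_lit 2940) (nat_lit 493858305440582042688))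 (.cons (.rf (nat_lit 2769) (nat_lit 493820093011328075808)) .nil)))) .nil))))) .nil)))),
 (.br (nat_lit 11) (nat_lit 1) (.cons (.rf (nat_lit 2886) (nat_lit 457866699333779425312)) (.cons (.rf (nat_lit 2886) (nat_lit 457866699333779424320)) .nil))),
 (.br (nat_lit 5) (nat_lit 0) (.cons (.br (nat_lit 6) (nat_lit 0) (.cons (.kr (nat_lit 1208925819615728686333952) (nat_lit 309485009821626543701491712) (nat_lit 5) (nat_lit 0)) (.cons (.rf (nat_lit 2942) (nat_lit 417800352722915002400)) .nil))) .nil)),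
 (.br (nat_lit 6) (nat_lit 1) (.cons (.ev (nat_lit 310693935713298771209093121) (nat_lit 1)) .nil)),
 (.br (nat_lit 13) (nat_lit 0) (.cons (.rf (nat_lit 2941) (nat_lit 493858305440582043680)) (.cons (.rf (nat_lit 2943) (nat_lit 482247182020347936)) (.cons (.br (nat_lit 5) (nat_lit 0) (.cons (.br (nat_lit 7) (nat_lit 0) (.cons (.rf (nat_lit 2680) (nat_lit 15427442507872569376)) (.cons (.rf (nat_lit 2812) (nat_lit 457938681065811052576)) (.cons (.br (nat_lit 2) (nat_lit 0) (.cons (.ev (nat_lit 309485009893403766569369601) (nat_lit 1)) (.cons (.ev (nat_lit 20361947251175756106613815050241) (nat_lit 1)) .nil))) .nil)))) (.cons (.br (nat_lit 7) (nat_lit 0) (.cons (.br (nat_lit 11) (nat_lit 1) (.cons (.rf (nat_lit 2944) (nat_lit 493858305440582043680)) (.cons (.rf (nat_lit 2944) (nat_lit 493858305440582042688)) .nil))) (.cons (.rf (nat_lit 2009) (nat_lit 15429724000943704096)) .nil))) (.cons (.kr (nat_lit 309485009821345068724781056) (nat_lit 20282409603651670423947251286016) (nat_lit 11) (nat_lit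 0)) .nil)))) .nil)))),
 (.br (nat_lit 13) (nat_lit 0) (.cons (.rf (nat_lit 2941) (nat_lit 493858305440582043680)) (.cons (.br (nat_lit 13) (nat_lit 0) (.cons (.rf (nat_lit 2936) (nat_lit 493858305440582043680)) (.cons (.rf (nat_lit 2943) (nat_lit 482247182020347936)) (.cons (.kr (nat_lit 1208925819614629174706176) (nat_lit 20282409603651670423947251286016) (nat_lit 10) (nat_lit 0)) .nil)))) (.cons (.rf (nat_lit 2945) (nat_lit 493858305440582043680)) (.cons (.br (nat_lit 13) (nat_lit 0) (.cons (.rf (nat_lit 2941) (nat_lit 493858305440582043680)) (.cons (.kr (nat_lit 1208925819614629174706176) (nat_lit 20282409603651670423947251286016) (nat_lit 10) (nat_lit 0)) (.cons (.rf (nat_lit 2945) (nat_lit 493858305440582043680)) .nil)))) .nil))))),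
 (.br (nat_lit 4) (nat_lit 1) (.cons (.br (nat_lit 11) (nat_lit 1) (.cons (.kr (nat_lit 20361637766165934761540795237120) (nat_lit 72058693583175680) (nat_lit 1) (nat_lit 0)) .nil)) .nil)),
 (.br (nat_lit 5) (nat_lit 0) (.cons (.ev (nat_lit 79229371440083953326542094593) (nat_lit 1)) (.cons (.rf (nat_lit 2947) (nat_lit 493858305440582043680)) (.cons (.rf (nat_lit 2725) (nat_lit 493677108125495297088)) .nil)))),
 (.br (nat_lit 11) (nat_lit 1) (.cons (.rf (nat_lit 2948) (nat_lit 493858305440582043680)) (.cons (.rf (nat_lit 2886) (nat_lit 493817773049304418336)) (.cons (.br (nat_lit 11) (nat_lit 1) (.cons (.rf (nat_lit 2948) (nat_lit 493858305440582043680)) (.cons (.rf (nat_lit 2886) (nat_lit 493853801845249640480)) .nil))) .nil)))),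
 (.br (nat_lit 2) (nat_lit 0) (.cons (.kr (nat_lit 20282409603651670423947251351552) (nat_lit 1099528404992) (nat_lit 2) (nat_lit 0)) (.cons (.kr (nat_lit 40644047369817605185488046587904) (nat_lit 618970019714747731504267264) (nat_lit 2) (nat_lit 0)) .nil))),
 (.br (nat_lit 13) (nat_lit 0) (.cons (.rf (nat_lit 2009) (nat_lit 15430819041572390944)) (.cons (.br (nat_lit 1) (nat_lit 0) (.cons (.kr (nat_lit 20361637766165934761540795236608) (nat_lit 4722366483969173618688) (nat_lit 1) (nat_lit 0)) (.cons (.kr (nat_lit 40723275532331941580675628400896) (nat_lit 14167099450807975673856) (nat_lit 1) (nat_lit 0)) .nil))) .nil))),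
 (.br (nat_lit 13) (nat_lit 0) (.cons (.rf (nat_lit 2009) (nat_lit 15430819041572390944)) (.cons (.br (nat_lit 11) (nat_lit 1) (.cons (.kr (nat_lit 40723275532331869523081590472960) (nat_lit 2422574077769722049331200) (nat_lit 1) (nat_lit 0)) (.cons (.kr (nat_lit 40723275532331869523081590538240) (nat_lit 2422574077769722049331200) (nat_lit 2) (nat_lit 0)) .nil))) .nil))),
 (.br (nat_lit 6) (nat_lit 1) (.cons (.br (nat_lit 4) (nat_lit 1) (.cons (.ev (nat_lit 79229371440083953326542094593) (nat_lit 1)) (.cons (.br (nat_lit 5) (nat_lit 0) (.cons (.ev (nat_lit 309485009893685241562857473) (nat_lit 1)) (.cons (.ev (nat_lit 79537647524085965241052102913) (nat_lit 1)) .nil))) .nil))) (.cons (.rf (nat_lit 2886) (nat_lit 493823402543469922336)) (.cons (.br (nat_lit 4) (nat_lit 1) (.cons (.ev (nat_lit 310693935713298771209158913) (nat_lit 1)) (.cons (.rf (nat_lit 2887) (nat_lit 493823402543469922336)) (.cons (.rf (nat_lit 2870) (nat_lit 458117738729117419552)) .nil)))) .nil)))),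
 (.br (nat_lit 5) (nat_lit 0) (.cons (.kr (nat_lit 72058693583110400) (nat_lit 20361637766165934761540795432960) (nat_lit 1) (nat_lit 0)) .nil))]

theorem c102 : chkAll C T R L102 (nat_lit 2923) = true := by decide +kernel

theorem l102 : (nat_lit 2923) + L102.length = (nat_lit 2955) := by decide +kernel

/-- part of the certificates -/
def L103 : List Prf := [(.br (nat_lit 2) (nat_lit 0) (.cons (.rf (nat_lit 2954) (nat_lit 493858305440582043680)) (.cons (.br (nat_lit 6) (nat_lit 1) (.cons (.ev (nat_lit 20838868496495571071907028993796) (nat_lit 3)) .nil)) .nil))),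
 (.br (nat_lit 1) (nat_lit 0) (.cons (.br (nat_lit 2) (nat_lit 0) (.cons (.kr (nat_lit 60926456973469275609435297874176) (nat_lit 2417851711287951932522496) (nat_lit 1) (nat_lit 0)) .nil)) (.cons (.br (nat_lit 4) (nat_lit 1) (.cons (.kr (nat_lit 60926456973469275609435297874176) (nat_lit 2417851711287951932522496) (nat_lit 1) (nat_lit 0)) .nil)) .nil))),
 (.br (nat_lit 2) (nat_lit 0) (.cons (.ev (nat_lit 20361947251175756388088808472833) (nat_lit 1)) (.cons (.br (nat_lit 6) (nat_lit 1) (.cons (.ev (nat_lit 20680409753615547284848623421188) (nat_lit 3)) .nil)) .nil))),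
 (.br (nat_lit 7) (nat_lit 0) (.cons (.rf (nat_lit 2946) (nat_lit 493858305440582043680)) (.cons (.br (nat_lit 6) (nat_lit 1) (.cons (.rf (nat_lit 2949) (nat_lit 493858305440582043680)) (.cons (.rf (nat_lit 2949) (nat_lit 493858305440582042688)) (.cons (.rf (nat_lit 2680) (nat_lit 15427442512163342368)) (.cons (.br (nat_lit 13) (nat_lit 0) (.cons (.rf (nat_lit 2870) (nat_lit 458117738729117419552)) (.cons (.br (nat_lit 5) (nat_lit 0) (.cons (.rf (nat_lit 2009) (nat_lit 15429688743624280096)) (.cons (.ev (nat_lit 20361638975110201402818184609793) (nat_lit 1)) .nil))) (.cons (.br (nat_lit 5) (nat_lit 0) (.cons (.br (nat_lit 11) (nat_lit 1) (.cons (.ev (nat_lit 20282412021540347822789600739586) (nat_lit 2)) (.cons (.ev (nat_lit 20282412021540347822789600804866) (nat_lit 2)) .nil))) (.cons (.ev (nat_lit 20361638975110201402818184609793) (nat_lit 1)) (.cons (.rf (nat_lit 2950) (nat_lit 493858305440582043680)) .nil)))) .nil)))) .nil))))) (.cons (.br (nat_lit 5) (nat_lit 0) (.cons (.ev (nat_lit 72057598349672449)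 (nat_lit 1)) (.cons (.rf (nat_lit 2680) (nat_lit 15427441413725456416)) (.cons (.br (nat_lit 13) (nat_lit 0) (.cons (.rf (nat_lit 2951) (nat_lit 493858305440582043680)) (.cons (.rf (nat_lit 2952) (nat_lit 493858305440582043680)) (.cons (.br (nat_lit 13) (nat_lit 0) (.cons (.rf (nat_lit 2951) (nat_lit 493858305440582043680)) (.cons (.rf (nat_lit 2952) (nat_lit 493858305440582043680)) .nil))) .nil)))) (.cons (.br (nat_lit 6) (nat_lit 1) (.cons (.rf (nat_lit 2886) (nat_lit 493817773049304418336)) (.cons (.rf (nat_lit 2886) (nat_lit 493817773049304417344)) (.cons (.br (nat_lit 13) (nat_lit 0) (.cons (.rf (nat_lit 2870) (nat_lit 458117738729117419552)) (.cons (.br (nat_lit 4) (nat_lit 1) (.cons (.kr (nat_lit 20282409608374036906816896499968) (nat_lit 79228162514264338693072355328) (nat_lit 1) (nat_lit 0)) (.cons (.kr (nat_lit 20282409608374036906816896565248) (nat_lit 79228162514264338693072355328) (nat_lit 2) (nat_lit 0)) .nil))) (.cons (.rf (nat_lit 2950) (nat_lit 493823368458609461280)) .nil))))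 .nil)))) .nil))))) (.cons (.br (nat_lit 11) (nat_lit 1) (.cons (.rf (nat_lit 2953) (nat_lit 493858305440582043680)) (.cons (.rf (nat_lit 2953) (nat_lit 493858305440582042688)) (.cons (.br (nat_lit 6) (nat_lit 1) (.cons (.rf (nat_lit 2886) (nat_lit 493817773049304418336)) (.cons (.rf (nat_lit 2886) (nat_lit 493817773049304417344)) (.cons (.br (nat_lit 13) (nat_lit 0) (.cons (.rf (nat_lit 2870) (nat_lit 458117738729117419552)) (.cons (.ev (nat_lit 20361947251194203133257734684673) (nat_lit 1)) (.cons (.rf (nat_lit 2924) (nat_lit 493823368458609461280)) .nil)))) .nil)))) (.cons (.br (nat_lit 13) (nat_lit 0) (.cons (.br (nat_lit 8) (nat_lit 1) (.cons (.rf (nat_lit 2955) (nat_lit 493858305440582043680)) (.cons (.rf (nat_lit 2955) (nat_lit 493858305440582042688)) (.cons (.zr (nat_lit 61005685135983539948128370163712) (nat_lit 311902879907318405078712321) (nat_lit 5) (nat_lit 4)) .nil)))) (.cons (.br (nat_lit 5) (nat_lit 0) (.cons (.rf (nat_lit 2887) (nat_lit 493823402543469922336)) (.cons (.ev (nat_lit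 20361947251194203133257734684673) (nat_lit 1)) (.cons (.rf (nat_lit 2956) (nat_lit 493858305440582043680)) .nil)))) (.cons (.kr (nat_lit 1208925819614629174706176) (nat_lit 20282409603651670423947251286016) (nat_lit 10) (nat_lit 0)) (.cons (.br (nat_lit 4) (nat_lit 1) (.cons (.rf (nat_lit 2957) (nat_lit 493858305440582043680)) (.cons (.rf (nat_lit 2957) (nat_lit 493858305440582042688)) (.cons (.rf (nat_lit 2687) (nat_lit 15433072007406782496)) .nil)))) .nil))))) .nil))))) .nil))))),
 (.br (nat_lit 6) (nat_lit 1) (.cons (.kr (nat_lit 79228162514264337593543950592) (nat_lit 72057594054705152) (nat_lit 1) (nat_lit 0)) (.cons (.kr (nat_lit 79228162514264337593544015872) (nat_lit 72057594054705152) (nat_lit 2) (nat_lit 0)) (.cons (.br (nat_lit 13) (nat_lit 0) (.cons (.kr (nat_lit 79228162514264338693055578112) (nat_lit 20282409603651742481541289213952) (nat_lit 5) (nat_lit 0)) (.cons (.br (nat_lit 2) (nat_lit 0) (.cons (.kr (nat_lit 40644047369817605185488046587904) (nat_lit 1213648186098598348324864)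 (nat_lit 2) (nat_lit 0)) (.cons (.kr (nat_lit 20440865928680199099134339252224) (nat_lit 1213648258155092874625024) (nat_lit 2) (nat_lit 0)) .nil))) .nil))) .nil)))),
 (.br (nat_lit 6) (nat_lit 1) (.cons (.rf (nat_lit 2725) (nat_lit 493857076188729672768)) (.cons (.br (nat_lit 4) (nat_lit 1) (.cons (.ev (nat_lit 79229371440083953326542094593) (nat_lit 1)) (.cons (.rf (nat_lit 2870) (nat_lit 458117738729117419552)) .nil))) .nil))),
 (.br (nat_lit 6) (nat_lit 1) (.cons (.rf (nat_lit 2960) (nat_lit 493858305440582043680)) (.cons (.rf (nat_lit 2886) (nat_lit 493823402543469922336)) (.cons (.br (nat_lit 6) (nat_lit 1) (.cons (.rf (nat_lit 2960) (nat_lit 493858305440582043680)) (.cons (.rf (nat_lit 2886) (nat_lit 493823402543469922336)) .nil))) .nil)))),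
 (.br (nat_lit 6) (nat_lit 1) (.cons (.kr (nat_lit 72058693583110400) (nat_lit 20361637766165934761540795432960) (nat_lit 1) (nat_lit 0)) .nil)),
 (.br (nat_lit 9) (nat_lit 1) (.cons (.rf (nat_lit 2962) (nat_lit 493858305440582043680)) (.cons (.rf (nat_lit 2962) (nat_lit 493858305440582042688)) .nil))),
 (.br (nat_lit 6) (nat_lit 1) (.cons (.kr (nat_lit 20361637766165934761540795302144) (nat_lit 72058693583110144) (nat_lit 1) (nat_lit 0)) .nil)),
 (.br (nat_lit 2) (nat_lit 0) (.cons (.rf (nat_lit 2964) (nat_lit 493858305440582043680)) (.cons (.rf (nat_lit 2964) (nat_lit 458043501900887853088)) .nil))),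
 (.br (nat_lit 7) (nat_lit 0) (.cons (.rf (nat_lit 2946) (nat_lit 493858305440582043680)) (.cons (.rf (nat_lit 2958) (nat_lit 493858305440582043680)) (.cons (.br (nat_lit 6) (nat_lit 1) (.cons (.kr (nat_lit 79228162514264337593543950592) (nat_lit 72057594054705152) (nat_lit 1) (nat_lit 0)) (.cons (.kr (nat_lit 79228162514264337593544015872) (nat_lit 72057594054705152) (nat_lit 2) (nat_lit 0)) (.cons (.rf (nat_lit 2959) (nat_lit 493858305440582043680)) (.cons (.br (nat_lit 6) (nat_lit 1) (.cons (.kr (nat_lit 79228162514264337593543950592) (nat_lit 72057594054705152) (nat_lit 1) (nat_lit 0)) (.cons (.kr (nat_lit 79228162514264337593544015872) (nat_lit 72057594054705152) (nat_lit 2) (nat_lit 0)) (.cons (.rf (nat_lit 2959) (nat_lit 493858305440582043680)) .nil)))) .nil))))) (.cons (.br (nat_lit 11) (nat_lit 1) (.cons (.rf (nat_lit 2961) (nat_lit 493858305440582043680)) (.cons (.rf (nat_lit 2961) (nat_lit 493858305440582042688)) (.cons (.rf (nat_lit 2680) (nat_lit 15433072011697555488)) (.cons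 (.br (nat_lit 5) (nat_lit 0) (.cons (.br (nat_lit 9) (nat_lit 1) (.cons (.ev (nat_lit 1208925891673327019229441) (nat_lit 1)) (.cons (.ev (nat_lit 1208925891673327019294721) (nat_lit 1)) (.cons (.rf (nat_lit 2009) (nat_lit 15429688748992989216)) .nil)))) (.cons (.br (nat_lit 13) (nat_lit 0) (.cons (.rf (nat_lit 2963) (nat_lit 493858305440582043680)) (.cons (.ev (nat_lit 79538856468352323939658104833) (nat_lit 1)) (.cons (.br (nat_lit 2) (nat_lit 0) (.cons (.br (nat_lit 6) (nat_lit 1) (.cons (.ev (nat_lit 79228162514264619072832471041) (nat_lit 1)) .nil)) (.cons (.br (nat_lit 4) (nat_lit 1) (.cons (.ev (nat_lit 79228162514264619072832405761) (nat_lit 1)) .nil)) .nil))) .nil)))) (.cons (.br (nat_lit 13) (nat_lit 0) (.cons (.zr (nat_lit 20282409603651886600027916730368) (nat_lit 311907602273801274723926017) (nat_lit 5) (nat_lit 0)) (.cons (.rf (nat_lit 2965) (nat_lit 493858305440582043680)) .nil))) .nil)))) .nil))))) .nil))))),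
 (.br (nat_lit 11) (nat_lit 1) (.cons (.rf (nat_lit 2886) (nat_lit 493823402543469922336)) (.cons (.rf (nat_lit 2886) (nat_lit 493823402543469921344)) (.cons (.br (nat_lit 13) (nat_lit 0) (.cons (.rf (nat_lit 2963) (nat_lit 493858271355721582624)) (.cons (.br (nat_lit 1) (nat_lit 0) (.cons (.kr (nat_lit 40644047369817605185488046522624) (nat_lit 1213648186098598348324864) (nat_lit 1) (nat_lit 0)) (.cons (.kr (nat_lit 20282409608374036906816896499968) (nat_lit 1208925891672223229411328) (nat_lit 1) (nat_lit 0)) .nil))) (.cons (.kr (nat_lit 1208925819614629174706176) (nat_lit 20282409603651670423947251286016) (nat_lit 10) (nat_lit 0)) .nil)))) .nil)))),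
 (.br (nat_lit 7) (nat_lit 0) (.cons (.rf (nat_lit 2946) (nat_lit 493858305440582043680)) (.cons (.rf (nat_lit 2958) (nat_lit 493858305440582043680)) (.cons (.rf (nat_lit 2966) (nat_lit 493858305440582043680)) (.cons (.br (nat_lit 6) (nat_lit 1) (.cons (.kr (nat_lit 4722366482869645213952) (nat_lit 72057594054705152) (nat_lit 1) (nat_lit 0)) (.cons (.kr (nat_lit 4722366482869645279232) (nat_lit 72057594054705152) (nat_lit 2) (nat_lit 0)) (.cons (.rf (nat_lit 2967) (nat_lit 493858305440582043680)) (.cons (.br (nat_lit 6) (nat_lit 1) (.cons (.kr (nat_lit 4722366482869645213952) (nat_lit 72057594054705152) (nat_lit 1) (nat_lit 0)) (.cons (.kr (nat_lit 4722366482869645279232) (nat_lit 72057594054705152) (nat_lit 2) (nat_lit 0)) (.cons (.rf (nat_lit 2967) (nat_lit 493858305440582043680)) .nil)))) .nil))))) .nil))))),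
 (.br (nat_lit 10) (nat_lit 1) (.cons (.rf (nat_lit 2913) (nat_lit 493858305440582043680)) (.cons (.rf (nat_lit 2913) (nat_lit 493858305440582042688)) (.cons (.br (nat_lit 13) (nat_lit 0) (.cons (.rf (nat_lit 2920) (nat_lit 493858305440582043680)) (.cons (.rf (nat_lit 2930) (nat_lit 493858305440582043680)) (.cons (.rf (nat_lit 2932) (nat_lit 493858305440582043680)) (.cons (.rf (nat_lit 2933) (nat_lit 493858305440582043680)) (.cons (.br (nat_lit 13) (nat_lit 0) (.cons (.rf (nat_lit 2920) (nat_lit 493858305440582043680)) (.cons (.rf (nat_lit 2930) (nat_lit 493858305440582043680)) (.cons (.rf (nat_lit 2932) (nat_lit 493858305440582043680)) (.cons (.rf (nat_lit 2933) (nat_lit 493858305440582043680)) .nil))))) .nil)))))) (.cons (.br (nat_lit 7) (nat_lit 0) (.cons (.rf (nat_lit 2946) (nat_lit 493858305440582043680)) (.cons (.rf (nat_lit 2958) (nat_lit 493858305440582043680)) (.cons (.rf (nat_lit 2966) (nat_lit 493858305440582043680)) (.cons (.rf (nat_lit 2968) (nat_lit 493858305440582043680)) (.cons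 (.br (nat_lit 7) (nat_lit 0) (.cons (.rf (nat_lit 2946) (nat_lit 493858305440582043680)) (.cons (.rf (nat_lit 2958) (nat_lit 493858305440582043680)) (.cons (.rf (nat_lit 2966) (nat_lit 493858305440582043680)) (.cons (.rf (nat_lit 2968) (nat_lit 493858305440582043680)) .nil))))) .nil)))))) .nil))))),
 (.br (nat_lit 12) (nat_lit 0) (.cons (.rf (nat_lit 2894) (nat_lit 419997162619751466048)) .nil)),
 (.br (nat_lit 11) (nat_lit 1) (.cons (.kr (nat_lit 20361637766165934761540795237120) (nat_lit 72058693583175680) (nat_lit 1) (nat_lit 0)) .nil)),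
 (.br (nat_lit 10) (nat_lit 1) (.cons (.ev (nat_lit 1208944266640177860968449) (nat_lit 1)) (.cons (.ev (nat_lit 310698658007442571839733761) (nat_lit 1)) .nil))),
 (.br (nat_lit 8) (nat_lit 1) (.cons (.br (nat_lit 13) (nat_lit 0) (.cons (.zr (nat_lit 79228162514480512574697832448) (nat_lit 1213685079867125510701057) (nat_lit 5) (nat_lit 0)) (.cons (.kr (nat_lit 79537647524085682662268732160) (nat_lit 18446745173238087680) (nat_lit 1) (nat_lit 0)) .nil))) (.cons (.br (nat_lit 4) (nat_lit 1) (.cons (.rf (nat_lit 2972) (nat_lit 15433072044983552032)) (.cons (.ev (nat_lit 1208944266359806707695873) (nat_lit 1)) .nil))) .nil))),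
 (.br (nat_lit 8) (nat_lit 1) (.cons (.kr (nat_lit 20361637766165934761540795237120) (nat_lit 72058693583175680) (nat_lit 1) (nat_lit 0)) .nil)),
 (.br (nat_lit 11) (nat_lit 1) (.cons (.rf (nat_lit 2973) (nat_lit 493858305440582043680)) (.cons (.br (nat_lit 4) (nat_lit 1) (.cons (.ev (nat_lit 79538856449905297295738470401) (nat_lit 1)) (.cons (.rf (nat_lit 2974) (nat_lit 493858305440582043680)) .nil))) .nil))),
 (.br (nat_lit 11) (nat_lit 1) (.cons (.kr (nat_lit 20361637766165934761540795237120) (nat_lit 72058693583175680) (nat_lit 1) (nat_lit 0)) .nil)),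
 (.br (nat_lit 8) (nat_lit 1) (.cons (.br (nat_lit 4) (nat_lit 1) (.cons (.br (nat_lit 11) (nat_lit 1) (.cons (.br (nat_lit 9) (nat_lit 1) (.cons (.zr (nat_lit 618970019859429168051847168) (nat_lit 4840444091685464365335297) (nat_lit 5) (nat_lit 0)) .nil)) .nil)) (.cons (.br (nat_lit 5) (nat_lit 0) (.cons (.rf (nat_lit 2976) (nat_lit 493858305440582043680)) (.cons (.br (nat_lit 13) (nat_lit 0) (.cons (.ev (nat_lit 20837014013733302298778064455428) (nat_lit 3)) .nil)) .nil))) .nil))) (.cons (.br (nat_lit 4) (nat_lit 1) (.cons (.br (nat_lit 5) (nat_lit 0) (.cons (.ev (nat_lit 79229376162522493790208393473) (nat_lit 1)) (.cons (.ev (nat_lit 309485028268371721217638401) (nat_lit 1)) .nil))) (.cons (.ev (nat_lit 20361638975110273177842029232385) (nat_lit 1)) .nil))) .nil))),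
 (.br (nat_lit 2) (nat_lit 0) (.cons (.rf (nat_lit 2954) (nat_lit 493823402543469921344)) (.cons (.rf (nat_lit 2954) (nat_lit 493823368458609460288)) .nil))),
 (.br (nat_lit 11) (nat_lit 1) (.cons (.rf (nat_lit 2977) (nat_lit 493858305440582043680)) (.cons (.br (nat_lit 4) (nat_lit 1) (.cons (.br (nat_lit 8) (nat_lit 1) (.cons (.ev (nat_lit 80159035506409483686203819268) (nat_lit 3)) (.cons (.ev (nat_lit 20361638975091754657649258463233) (nat_lit 1)) .nil))) (.cons (.ev (nat_lit 309485009893403766569304321) (nat_lit 1)) (.cons (.rf (nat_lit 2978) (nat_lit 493858305440582043680)) .nil)))) .nil))),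
 (.br (nat_lit 9) (nat_lit 1) (.cons (.ev (nat_lit 20361637770906748271062933373185) (nat_lit 1)) (.cons (.ev (nat_lit 20361637770888373303108284973313) (nat_lit 1)) .nil))),
 (.br (nat_lit 4) (nat_lit 1) (.cons (.ev (nat_lit 20361637770906748271062933373185) (nat_lit 1)) (.cons (.ev (nat_lit 20361637770888373303108284973313) (nat_lit 1)) .nil))),
 (.br (nat_lit 2) (nat_lit 0) (.cons (.ev (nat_lit 79228162514264337597838983169) (nat_lit 1)) (.cons (.br (nat_lit 5) (nat_lit 0) (.cons (.br (nat_lit 7) (nat_lit 0) (.cons (.zr (nat_lit 618970019859429168051650560) (nat_lit 4840444091685464365334529) (nat_lit 5) (nat_lit 0)) .nil)) (.cons (.br (nat_lit 8) (nat_lit 1) (.cons (.ev (nat_lit 309485028268371721217638401) (nat_lit 1)) .nil)) .nil))) .nil))),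
 (.br (nat_lit 4) (nat_lit 1) (.cons (.br (nat_lit 11) (nat_lit 1) (.cons (.ev (nat_lit 20361637770906748271062933373185) (nat_lit 1)) (.cons (.ev (nat_lit 4740885566016664371201) (nat_lit 1)) .nil))) (.cons (.rf (nat_lit 2982) (nat_lit 493858305440582043680)) (.cons (.ev (nat_lit 79228162532783139265603174401) (nat_lit 1)) .nil)))),
 (.br (nat_lit 6) (nat_lit 1) (.cons (.kr (nat_lit 256) (nat_lit 65536) (nat_lit 1) (nat_lit 0)) (.cons (.br (nat_lit 2) (nat_lit 0) (.cons (.ev (nat_lit 79228162514264619072832471041) (nat_lit 1)) (.cons (.br (nat_lit 4) (nat_lit 1) (.cons (.ev (nat_lit 79228162514264337597838983169) (nat_lit 1)) (.cons (.br (nat_lit 5) (nat_lit 0) (.cons (.ev (nat_lit 792282905088790793593546670856) (nat_lit 4)) (.cons (.br (nat_lit 11) (nat_lit 1) (.cons (.ev (nat_lit 81396975620059994273432013576) (nat_lit 4)) .nil)) .nil))) (.cons (.br (nat_lit 7) (nat_lit 0) (.cons (.rf (nat_lit 2970) (nat_lit 15431909825759512608)) (.cons (.br (nat_lit 9) (nat_lit 1) (.cons (.rf (nat_lit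 2971) (nat_lit 493858305440582043680)) (.cons (.ev (nat_lit 4740885566016664371201) (nat_lit 1)) .nil))) .nil))) .nil)))) (.cons (.br (nat_lit 11) (nat_lit 1) (.cons (.rf (nat_lit 2973) (nat_lit 493858305440582043680)) (.cons (.rf (nat_lit 2975) (nat_lit 493858305440582043680)) (.cons (.br (nat_lit 11) (nat_lit 1) (.cons (.rf (nat_lit 2973) (nat_lit 493858305440582043680)) (.cons (.rf (nat_lit 2975) (nat_lit 493858305440582043680)) .nil))) .nil)))) (.cons (.br (nat_lit 4) (nat_lit 1) (.cons (.br (nat_lit 9) (nat_lit 1) (.cons (.ev (nat_lit 4722366482873940246529) (nat_lit 1)) (.cons (.br (nat_lit 11) (nat_lit 1) (.cons (.br (nat_lit 8) (nat_lit 1) (.cons (.ev (nat_lit 309485028268371721217704193) (nat_lit 1)) .nil)) (.cons (.br (nat_lit 8) (nat_lit 1) (.cons (.ev (nat_lit 309485028268371721217704193) (nat_lit 1)) .nil)) .nil))) .nil))) (.cons (.br (nat_lit 8) (nat_lit 1) (.cons (.ev (nat_lit 79228162532783139265603174401) (nat_lit 1)) (.cons (.br (nat_lit 5) (nat_lit 0) (.cons (.ev (nat_lit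 4722366482873940246529) (nat_lit 1)) (.cons (.br (nat_lit 13) (nat_lit 0) (.cons (.ev (nat_lit 20838866097496793083712515539716) (nat_lit 3)) .nil)) .nil))) .nil))) (.cons (.br (nat_lit 8) (nat_lit 1) (.cons (.br (nat_lit 11) (nat_lit 1) (.cons (.br (nat_lit 13) (nat_lit 0) (.cons (.ev (nat_lit 20837014013733302298778064585988) (nat_lit 3)) .nil)) (.cons (.rf (nat_lit 2896) (nat_lit 493823368458609460288)) .nil))) (.cons (.br (nat_lit 5) (nat_lit 0) (.cons (.kr (nat_lit 1213648186097498819920640) (nat_lit 18446745173238087680) (nat_lit 1) (nat_lit 0)) (.cons (.ev (nat_lit 309485009893685241562792193) (nat_lit 1)) .nil))) (.cons (.br (nat_lit 9) (nat_lit 1) (.cons (.ev (nat_lit 1208944266359806707695873) (nat_lit 1)) (.cons (.br (nat_lit 5) (nat_lit 0) (.cons (.zr (nat_lit 237684487543009188861314269184) (nat_lit 310712843553916729461572353) (nat_lit 5) (nat_lit 0)) .nil)) .nil))) .nil)))) .nil)))) .nil))))) (.cons (.br (nat_lit 11) (nat_lit 1) (.cons (.rf (nat_lit 2977) (nat_lit 493858305440582043680))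 (.cons (.rf (nat_lit 2979) (nat_lit 493858305440582043680)) (.cons (.br (nat_lit 11) (nat_lit 1) (.cons (.rf (nat_lit 2977) (nat_lit 493858305440582043680)) (.cons (.rf (nat_lit 2979) (nat_lit 493858305440582043680)) .nil))) .nil)))) (.cons (.br (nat_lit 13) (nat_lit 0) (.cons (.rf (nat_lit 2870) (nat_lit 458117738729117419552)) (.cons (.br (nat_lit 5) (nat_lit 0) (.cons (.br (nat_lit 5) (nat_lit 0) (.cons (.ev (nat_lit 20282410817299856521450366173441) (nat_lit 1)) (.cons (.rf (nat_lit 2980) (nat_lit 493858305440582043680)) .nil))) (.cons (.br (nat_lit 5) (nat_lit 0) (.cons (.ev (nat_lit 20282410817299856521450366173441) (nat_lit 1)) (.cons (.rf (nat_lit 2981) (nat_lit 493858305440582043680)) .nil))) (.cons (.br (nat_lit 5) (nat_lit 0) (.cons (.rf (nat_lit 2980) (nat_lit 493858305440582043680)) (.cons (.rf (nat_lit 2981) (nat_lit 493858305440582043680)) .nil))) .nil)))) (.cons (.br (nat_lit 5) (nat_lit 0) (.cons (.rf (nat_lit 2982) (nat_lit 493858305440582043680)) (.cons (.rf (nat_lit 2983)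 (nat_lit 493858305440582043680)) (.cons (.br (nat_lit 5) (nat_lit 0) (.cons (.rf (nat_lit 2982) (nat_lit 493858305440582043680)) (.cons (.rf (nat_lit 2983) (nat_lit 493858305440582043680)) .nil))) .nil)))) (.cons (.br (nat_lit 4) (nat_lit 1) (.cons (.br (nat_lit 8) (nat_lit 1) (.cons (.br (nat_lit 7) (nat_lit 0) (.cons (.br (nat_lit 11) (nat_lit 1) (.cons (.zr (nat_lit 216176080682221568) (nat_lit 310698676454468120525930497) (nat_lit 5) (nat_lit 0)) .nil)) (.cons (.br (nat_lit 5) (nat_lit 0) (.cons (.zr (nat_lit 216176080682221568) (nat_lit 310698676454468120525930497) (nat_lit 5) (nat_lit 0)) .nil)) .nil))) (.cons (.kr (nat_lit 18446744073709617152) (nat_lit 72057594054705152) (nat_lit 2) (nat_lit 0)) .nil))) (.cons (.br (nat_lit 2) (nat_lit 0) (.cons (.ev (nat_lit 79228162514264337597838983169) (nat_lit 1)) (.cons (.br (nat_lit 11) (nat_lit 1) (.cons (.kr (nat_lit 309485009821345068724781312) (nat_lit 20282409603651670423947251351552) (nat_lit 1) (nat_lit 0)) (.cons (.ev (nat_lit 79538856449905297295738470401)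 (nat_lit 1)) .nil))) (.cons (.br (nat_lit 9) (nat_lit 1) (.cons (.kr (nat_lit 1213648186097498819920128) (nat_lit 20361637766165934761540795301888) (nat_lit 1) (nat_lit 0)) (.cons (.ev (nat_lit 4722366482873940246529) (nat_lit 1)) .nil))) .nil)))) (.cons (.ev (nat_lit 20361638975091754376174264910081) (nat_lit 1)) .nil)))) .nil))))) .nil)))))]

theorem c103 : chkAll C T R L103 (nat_lit 2955) = true := by decide +kernel

theorem l103 : (nat_lit 2955) + L103.length = (nat_lit 2985) := by decide +kernel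

/-- part of the certificates -/
def L104 : List Prf := [(.br (nat_lit 11) (nat_lit 1) (.cons (.kr (nat_lit 256) (nat_lit 65536) (nat_lit 1) (nat_lit 0)) (.cons (.br (nat_lit 8) (nat_lit 1) (.cons (.ev (nat_lit 79537647542532426735995060481) (nat_lit 1)) (.cons (.br (nat_lit 2) (nat_lit 0) (.cons (.br (nat_lit 9) (nat_lit 1) (.cons (.ev (nat_lit 79537652246524505704751956225) (nat_lit 1)) .nil)) (.cons (.br (nat_lit 13) (nat_lit 0) (.cons (.ev (nat_lit 79537652246524505704751956225) (nat_lit 1)) .nil)) .nil))) .nil))) (.cons (.br (nat_lit 5) (nat_lit 0) (.cons (.br (nat_lit 8) (nat_lit 1) (.cons (.ev (nat_lit 79228162514264337597838983169) (nat_lit 1)) (.cons (.br (nat_lit 9) (nat_lit 1) (.cons (.ev (nat_lit 20999184196805906391052536840456) (nat_lit 4)) .nil)) .nil))) (.cons (.br (nat_lit 13) (nat_lit 0) (.cons (.br (nat_lit 9) (nat_lit 1) (.cons (.ev (nat_lit 21314856470269056591366544100112) (nat_lit 5)) .nil)) (.cons (.ev (nat_lit 79228167255149904705424982273) (nat_lit 1)) .nil))) (.cons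 (.br (nat_lit 2) (nat_lit 0) (.cons (.br (nat_lit 13) (nat_lit 0) (.cons (.ev (nat_lit 20680407345282283880254483268868) (nat_lit 3)) .nil)) (.cons (.br (nat_lit 4) (nat_lit 1) (.cons (.ev (nat_lit 20680407345282283880254483268868) (nat_lit 3)) .nil)) .nil))) .nil)))) .nil)))),
 (.br (nat_lit 11) (nat_lit 1) (.cons (.rf (nat_lit 2985) (nat_lit 493858305440582043680)) (.cons (.rf (nat_lit 2985) (nat_lit 493858305440582042688)) (.cons (.br (nat_lit 13) (nat_lit 0) (.cons (.br (nat_lit 1) (nat_lit 0) (.cons (.br (nat_lit 2) (nat_lit 0) (.cons (.ev (nat_lit 20838251944327567611027928450308) (nat_lit 3)) .nil)) (.cons (.br (nat_lit 2) (nat_lit 0) (.cons (.ev (nat_lit 20838251944327567611027928711428) (nat_lit 3)) .nil)) .nil))) (.cons (.br (nat_lit 2) (nat_lit 0) (.cons (.br (nat_lit 1) (nat_lit 0) (.cons (.ev (nat_lit 20520101354231513115153052008708) (nat_lit 3)) .nil)) (.cons (.br (nat_lit 4) (nat_lit 1) (.cons (.ev (nat_lit 20520101354231513115153051747588) (nat_lit 3)) .nil)) .nil))) (.cons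 (.kr (nat_lit 309485009821345068724781056) (nat_lit 20282409603651670423947251286016) (nat_lit 11) (nat_lit 0)) .nil)))) .nil)))),
 (.br (nat_lit 2) (nat_lit 0) (.cons (.ev (nat_lit 79537647542532426735995125761) (nat_lit 1)) .nil)),
 (.br (nat_lit 9) (nat_lit 1) (.cons (.ev (nat_lit 4740885566016664371201) (nat_lit 1)) (.cons (.br (nat_lit 11) (nat_lit 1) (.cons (.ev (nat_lit 40565128701757967779250804097282) (nat_lit 2)) .nil)) .nil))),
 (.br (nat_lit 2) (nat_lit 0) (.cons (.ev (nat_lit 4740885566016664371201) (nat_lit 1)) (.cons (.br (nat_lit 4) (nat_lit 1) (.cons (.ev (nat_lit 20679169395687728624226592555780) (nat_lit 3)) .nil)) .nil))),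
 (.br (nat_lit 6) (nat_lit 1) (.cons (.rf (nat_lit 2984) (nat_lit 493858305440582043680)) (.cons (.rf (nat_lit 2984) (nat_lit 493858305440582042688)) (.cons (.br (nat_lit 11) (nat_lit 1) (.cons (.rf (nat_lit 2985) (nat_lit 493858305440582043680)) (.cons (.rf (nat_lit 2985) (nat_lit 493858305440582042688)) (.cons (.rf (nat_lit 2986) (nat_lit 493858305440582043680)) (.cons (.br (nat_lit 11) (nat_lit 1) (.cons (.rf (nat_lit 2985) (nat_lit 493858305440582043680)) (.cons (.rf (nat_lit 2985) (nat_lit 493858305440582042688)) (.cons (.rf (nat_lit 2986) (nat_lit 493858305440582043680)) .nil)))) .nil))))) (.cons (.br (nat_lit 7) (nat_lit 0) (.cons (.br (nat_lit 5) (nat_lit 0) (.cons (.ev (nat_lit 79228162532783139265603174401) (nat_lit 1)) (.cons (.br (nat_lit 11) (nat_lit 1) (.cons (.ev (nat_lit 4722366482873940181249) (nat_lit 1)) (.cons (.ev (nat_lit 4722366482873940246529) (nat_lit 1)) (.cons (.br (nat_lit 1) (nat_lit 0) (.cons (.ev (nat_lit 20361637770888373303108284973313) (nat_lit 1)) (.cons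 (.ev (nat_lit 4722366482873940181249) (nat_lit 1)) .nil))) .nil)))) (.cons (.br (nat_lit 9) (nat_lit 1) (.cons (.rf (nat_lit 2972) (nat_lit 15433072044983551040)) (.cons (.rf (nat_lit 2972) (nat_lit 15433072044983552032)) (.cons (.br (nat_lit 8) (nat_lit 1) (.cons (.rf (nat_lit 2987) (nat_lit 493858305440582043680)) (.cons (.rf (nat_lit 2987) (nat_lit 493858305440582042688)) .nil))) .nil)))) .nil)))) (.cons (.br (nat_lit 4) (nat_lit 1) (.cons (.kr (nat_lit 18446744073709551872) (nat_lit 72057594054705152) (nat_lit 1) (nat_lit 0)) (.cons (.kr (nat_lit 18446744073709617152) (nat_lit 72057594054705152) (nat_lit 2) (nat_lit 0)) (.cons (.br (nat_lit 13) (nat_lit 0) (.cons (.rf (nat_lit 2009) (nat_lit 15429548010430892064)) (.cons (.ev (nat_lit 20282410812577490321150931107841) (nat_lit 1)) .nil))) (.cons (.rf (nat_lit 2870) (nat_lit 458117738729117419552)) .nil))))) (.cons (.ev (nat_lit 1213648258436567851335681) (nat_lit 1)) (.cons (.br (nat_lit 13) (nat_lit 0) (.cons (.rf (nat_lit 2870) (nat_lit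 458117738729117419552)) (.cons (.br (nat_lit 1) (nat_lit 0) (.cons (.rf (nat_lit 2988) (nat_lit 493858305440582043680)) (.cons (.rf (nat_lit 2989) (nat_lit 493858305440582043680)) (.cons (.br (nat_lit 2) (nat_lit 0) (.cons (.rf (nat_lit 2988) (nat_lit 493858305440582042688)) (.cons (.rf (nat_lit 2989) (nat_lit 493858305440582042688)) .nil))) .nil)))) (.cons (.br (nat_lit 5) (nat_lit 0) (.cons (.rf (nat_lit 2687) (nat_lit 15431805370011584544)) (.cons (.br (nat_lit 1) (nat_lit 0) (.cons (.br (nat_lit 11) (nat_lit 1) (.cons (.ev (nat_lit 475685713687724082212060136708) (nat_lit 3)) .nil)) (.cons (.br (nat_lit 4) (nat_lit 1) (.cons (.ev (nat_lit 475685713687724082212060332548) (nat_lit 3)) .nil)) .nil))) (.cons (.br (nat_lit 2) (nat_lit 0) (.cons (.br (nat_lit 8) (nat_lit 1) (.cons (.ev (nat_lit 4740885566016664371201) (nat_lit 1)) .nil)) (.cons (.br (nat_lit 1) (nat_lit 0) (.cons (.ev (nat_lit 4740885566016664371201) (nat_lit 1)) .nil)) .nil))) .nil)))) (.cons (.ev (nat_lit 79537647524158021731300147201)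 (nat_lit 1)) .nil))))) .nil))))) .nil))))),
 (.br (nat_lit 1) (nat_lit 0) (.cons (.ev (nat_lit 309485009821345073019748609) (nat_lit 1)) (.cons (.ev (nat_lit 309485009893685237251047681) (nat_lit 1)) (.cons (.br (nat_lit 2) (nat_lit 0) (.cons (.ev (nat_lit 309485009821345073019813889) (nat_lit 1)) (.cons (.ev (nat_lit 309485009893685237251112961) (nat_lit 1)) (.cons (.kr (nat_lit 256) (nat_lit 65536) (nat_lit 1) (nat_lit 0)) .nil)))) .nil)))),
 (.br (nat_lit 11) (nat_lit 1) (.cons (.ev (nat_lit 20521955865291229154152150271748) (nat_lit 3)) .nil)),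
 (.br (nat_lit 5) (nat_lit 0) (.cons (.rf (nat_lit 2991) (nat_lit 15431909825759512608)) (.cons (.br (nat_lit 9) (nat_lit 1) (.cons (.rf (nat_lit 2992) (nat_lit 493858305440582043680)) (.cons (.rf (nat_lit 2992) (nat_lit 493858305440582042688)) .nil))) .nil))),
 (.br (nat_lit 5) (nat_lit 0) (.cons (.rf (nat_lit 2991) (nat_lit 15431909825759512608)) (.cons (.br (nat_lit 1) (nat_lit 0) (.cons (.br (nat_lit 11) (nat_lit 1) (.cons (.ev (nat_lit 20520713089548666441260526274308) (nat_lit 3)) .nil)) (.cons (.br (nat_lit 2) (nat_lit 0) (.cons (.ev (nat_lit 20520713089548666441260526404868) (nat_lit 3)) .nil)) .nil))) .nil))),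
 (.br (nat_lit 8) (nat_lit 1) (.cons (.br (nat_lit 9) (nat_lit 1) (.cons (.br (nat_lit 5) (nat_lit 0) (.cons (.ev (nat_lit 79538861172272062735593832705) (nat_lit 1)) .nil)) .nil)) (.cons (.br (nat_lit 5) (nat_lit 0) (.cons (.br (nat_lit 2) (nat_lit 0) (.cons (.zr (nat_lit 144117387099177216) (nat_lit 309485028268370621706010625) (nat_lit 5) (nat_lit 0)) .nil)) (.cons (.rf (nat_lit 2956) (nat_lit 493823368458609461280)) .nil))) .nil))),
 (.br (nat_lit 6) (nat_lit 1) (.cons (.rf (nat_lit 2984) (nat_lit 493858305440582043680)) (.cons (.rf (nat_lit 2984) (nat_lit 493858305440582042688)) (.cons (.rf (nat_lit 2990) (nat_lit 493858305440582043680)) (.cons (.br (nat_lit 13) (nat_lit 0) (.cons (.rf (nat_lit 2870) (nat_lit 458117738729117419552)) (.cons (.br (nat_lit 5) (nat_lit 0) (.cons (.rf (nat_lit 2993) (nat_lit 493858305440582043680)) (.cons (.rf (nat_lit 2994) (nat_lit 493858305440582043680)) (.cons (.br (nat_lit 5) (nat_lit 0) (.cons (.rf (nat_lit 2993) (nat_lit 493858305440582043680)) (.cons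 (.rf (nat_lit 2994) (nat_lit 493858305440582043680)) .nil))) .nil)))) (.cons (.ev (nat_lit 20361637766166007100609826652161) (nat_lit 1)) (.cons (.br (nat_lit 4) (nat_lit 1) (.cons (.rf (nat_lit 2995) (nat_lit 493858305440582043680)) (.cons (.rf (nat_lit 2995) (nat_lit 493858305440582042688)) (.cons (.br (nat_lit 5) (nat_lit 0) (.cons (.ev (nat_lit 282574505115649) (nat_lit 1)) (.cons (.rf (nat_lit 2991) (nat_lit 15431909825759512608)) (.cons (.rf (nat_lit 2887) (nat_lit 493858305440582043680)) .nil)))) .nil)))) .nil))))) .nil))))),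
 (.br (nat_lit 10) (nat_lit 1) (.cons (.rf (nat_lit 2913) (nat_lit 493858305440582043680)) (.cons (.rf (nat_lit 2913) (nat_lit 493858305440582042688)) (.cons (.rf (nat_lit 2969) (nat_lit 493858305440582043680)) (.cons (.br (nat_lit 6) (nat_lit 1) (.cons (.rf (nat_lit 2984) (nat_lit 493858305440582043680)) (.cons (.rf (nat_lit 2984) (nat_lit 493858305440582042688)) (.cons (.rf (nat_lit 2990) (nat_lit 493858305440582043680)) (.cons (.rf (nat_lit 2996) (nat_lit 493858305440582043680)) (.cons (.br (nat_lit 6) (nat_lit 1) (.cons (.rf (nat_lit 2984) (nat_lit 493858305440582043680)) (.cons (.rf (nat_lit 2984) (nat_lit 493858305440582042688)) (.cons (.rf (nat_lit 2990) (nat_lit 493858305440582043680)) (.cons (.rf (nat_lit 2996) (nat_lit 493858305440582043680)) .nil))))) .nil)))))) .nil))))),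
 (.br (nat_lit 10) (nat_lit 1) (.cons (.rf (nat_lit 2913) (nat_lit 493858305440582043680)) (.cons (.rf (nat_lit 2913) (nat_lit 493858305440582042688)) (.cons (.rf (nat_lit 2969) (nat_lit 493858305440582043680)) (.cons (.rf (nat_lit 2997) (nat_lit 493858305440582043680)) (.cons (.br (nat_lit 10) (nat_lit 1) (.cons (.rf (nat_lit 2913) (nat_lit 493858305440582043680)) (.cons (.rf (nat_lit 2913) (nat_lit 493858305440582042688)) (.cons (.rf (nat_lit 2969) (nat_lit 493858305440582043680)) (.cons (.rf (nat_lit 2997) (nat_lit 493858305440582043680)) .nil))))) .nil)))))),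
 (.br (nat_lit 8) (nat_lit 1) (.cons (.br (nat_lit 10) (nat_lit 1) (.cons (.kr (nat_lit 20282412021503381710799638626560) (nat_lit 79228162551157826840474746880) (nat_lit 1) (nat_lit 0)) .nil)) .nil)),
 (.br (nat_lit 6) (nat_lit 1) (.cons (.rf (nat_lit 2725) (nat_lit 493858303243706271776)) (.cons (.br (nat_lit 4) (nat_lit 1) (.cons (.br (nat_lit 7) (nat_lit 0) (.cons (.br (nat_lit 11) (nat_lit 1) (.cons (.br (nat_lit 10) (nat_lit 1) (.cons (.zr (nat_lit 36893491445954183168) (nat_lit 310698658007724046833156097) (nat_lit 5) (nat_lit 0)) .nil)) .nil)) (.cons (.ev (nat_lit 79228162514336677762070216961) (nat_lit 1)) (.cons (.ev (nat_lit 72057598349738241) (nat_lit 1)) .nil)))) (.cons (.br (nat_lit 11) (nat_lit 1) (.cons (.rf (nat_lit 2999) (nat_lit 493858305440582043680)) (.cons (.ev (nat_lit 79537652246452447011202400513) (nat_lit 1)) .nil))) (.cons (.rf (nat_lit 2870) (nat_lit 458117738729117419552)) .nil)))) .nil))),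
 (.br (nat_lit 6) (nat_lit 1) (.cons (.rf (nat_lit 2725) (nat_lit 493858303243706271776)) (.cons (.rf (nat_lit 3000) (nat_lit 493858305440582043680)) (.cons (.br (nat_lit 6) (nat_lit 1) (.cons (.rf (nat_lit 2725) (nat_lit 493858303243706271776)) (.cons (.rf (nat_lit 3000) (nat_lit 493858305440582043680)) .nil))) .nil)))),
 (.br (nat_lit 6) (nat_lit 1) (.cons (.rf (nat_lit 2725) (nat_lit 493678164756169590816)) (.cons (.br (nat_lit 11) (nat_lit 1) (.cons (.rf (nat_lit 3001) (nat_lit 493858305440582043680)) (.cons (.br (nat_lit 4) (nat_lit 1) (.cons (.br (nat_lit 8) (nat_lit 1) (.cons (.ev (nat_lit 309485028340428211465814273) (nat_lit 1)) .nil)) (.cons (.rf (nat_lit 2870) (nat_lit 458117738729117419552)) .nil))) (.cons (.br (nat_lit 7) (nat_lit 0) (.cons (.br (nat_lit 10) (nat_lit 1) (.cons (.ev (nat_lit 79538861172271781260600344833) (nat_lit 1)) (.cons (.rf (nat_lit 2935) (nat_lit 493787340761102125088)) .nil))) (.cons (.kr (nat_lit 18446745173221179392) (nat_lit 309485009893402662762708992)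 (nat_lit 5) (nat_lit 0)) (.cons (.ev (nat_lit 1208925891954797700972801) (nat_lit 1)) .nil)))) .nil)))) .nil))),
 (.br (nat_lit 6) (nat_lit 1) (.cons (.rf (nat_lit 2725) (nat_lit 493678164756169590816)) (.cons (.rf (nat_lit 3002) (nat_lit 493858305440582043680)) (.cons (.br (nat_lit 6) (nat_lit 1) (.cons (.rf (nat_lit 2725) (nat_lit 493678164756169590816)) (.cons (.rf (nat_lit 3002) (nat_lit 493858305440582043680)) .nil))) .nil)))),
 (.br (nat_lit 6) (nat_lit 1) (.cons (.br (nat_lit 4) (nat_lit 1) (.cons (.rf (nat_lit 2999) (nat_lit 493675911860065503264)) (.cons (.br (nat_lit 8) (nat_lit 1) (.cons (.ev (nat_lit 79228167255149904709736726785) (nat_lit 1)) (.cons (.ev (nat_lit 20282719088679938513093980651521) (nat_lit 1)) .nil))) .nil))) (.cons (.br (nat_lit 4) (nat_lit 1) (.cons (.br (nat_lit 8) (nat_lit 1) (.cons (.br (nat_lit 10) (nat_lit 1) (.cons (.ev (nat_lit 1208944338416301233996033) (nat_lit 1)) .nil)) .nil)) (.cons (.ev (nat_lit 79537652246452447011202400513) (nat_lit 1)) .nil)))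 (.cons (.br (nat_lit 4) (nat_lit 1) (.cons (.br (nat_lit 13) (nat_lit 0) (.cons (.kr (nat_lit 20282409603651670423947268063488) (nat_lit 4722366764344621989888) (nat_lit 1) (nat_lit 0)) (.cons (.ev (nat_lit 20361637770888301525889728970753) (nat_lit 1)) .nil))) (.cons (.ev (nat_lit 79537652246452447011202400513) (nat_lit 1)) (.cons (.rf (nat_lit 2870) (nat_lit 458117738729117419552)) .nil)))) .nil)))),
 (.br (nat_lit 7) (nat_lit 0) (.cons (.kr (nat_lit 20361637766166006819134833164544) (nat_lit 2417851639230357861105664) (nat_lit 1) (nat_lit 0)) .nil)),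
 (.br (nat_lit 2) (nat_lit 0) (.cons (.kr (nat_lit 79228162514336958137535300352) (nat_lit 20282409603651670425055353044992) (nat_lit 1) (nat_lit 0)) .nil)),
 (.br (nat_lit 6) (nat_lit 1) (.cons (.rf (nat_lit 3004) (nat_lit 493858305440582043680)) (.cons (.br (nat_lit 8) (nat_lit 1) (.cons (.br (nat_lit 4) (nat_lit 1) (.cons (.br (nat_lit 10) (nat_lit 1) (.cons (.ev (nat_lit 310693935640960801722925313) (nat_lit 1)) .nil)) .nil)) (.cons (.br (nat_lit 13) (nat_lit 0) (.cons (.br (nat_lit 10) (nat_lit 1) (.cons (.ev (nat_lit 1213648186380077603291393) (nat_lit 1)) .nil)) (.cons (.ev (nat_lit 20361947251194203133257734684673) (nat_lit 1)) .nil))) .nil))) (.cons (.br (nat_lit 4) (nat_lit 1) (.cons (.br (nat_lit 8) (nat_lit 1) (.cons (.ev (nat_lit 79228167255149904709736726785) (nat_lit 1)) (.cons (.rf (nat_lit 3005) (nat_lit 493858305440582043680)) .nil))) (.cons (.br (nat_lit 10) (nat_lit 1) (.cons (.ev (nat_lit 1213648186380077603291393) (nat_lit 1)) (.cons (.rf (nat_lit 3006) (nat_lit 493858305440582043680))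 .nil))) (.cons (.rf (nat_lit 2870) (nat_lit 458117738729117419552)) .nil)))) .nil)))),
 (.br (nat_lit 6) (nat_lit 1) (.cons (.rf (nat_lit 3004) (nat_lit 493858305440582043680)) (.cons (.rf (nat_lit 3007) (nat_lit 493858305440582043680)) (.cons (.br (nat_lit 4) (nat_lit 1) (.cons (.ev (nat_lit 79537652246452447011202400513) (nat_lit 1)) (.cons (.br (nat_lit 10) (nat_lit 1) (.cons (.ev (nat_lit 79849559830423620504099422210) (nat_lit 2)) (.cons (.ev (nat_lit 20361637766166007100609826652161) (nat_lit 1)) .nil))) (.cons (.rf (nat_lit 2870) (nat_lit 458117738729117419552)) .nil)))) .nil)))),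
 (.br (nat_lit 11) (nat_lit 1) (.cons (.rf (nat_lit 3001) (nat_lit 493858305440582043680)) (.cons (.rf (nat_lit 3003) (nat_lit 493858305440582043680)) (.cons (.br (nat_lit 6) (nat_lit 1) (.cons (.rf (nat_lit 3004) (nat_lit 493858305440582043680)) (.cons (.rf (nat_lit 3007) (nat_lit 493858305440582043680)) (.cons (.rf (nat_lit 3008) (nat_lit 493858305440582043680)) (.cons (.br (nat_lit 6) (nat_lit 1) (.cons (.rf (nat_lit 3004) (nat_lit 493858305440582043680)) (.cons (.rf (nat_lit 3007) (nat_lit 493858305440582043680)) (.cons (.rf (nat_lit 3008) (nat_lit 493858305440582043680)) .nil)))) .nil))))) .nil))))]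

theorem c104 : chkAll C T R L104 (nat_lit 2985) = true := by decide +kernel

theorem l104 : (nat_lit 2985) + L104.length = (nat_lit 3010) := by decide +kernel

/-- part of the certificates -/
def L105 : List Prf := [(.br (nat_lit 8) (nat_lit 1) (.cons (.ev (nat_lit 309485028268371721217638401) (nat_lit 1)) (.cons (.ev (nat_lit 1208944338416301233930241) (nat_lit 1)) .nil))),
 (.br (nat_lit 6) (nat_lit 1) (.cons (.rf (nat_lit 2725) (nat_lit 493786145594110215232)) (.cons (.br (nat_lit 4) (nat_lit 1) (.cons (.ev (nat_lit 72057598349672449) (nat_lit 1)) (.cons (.br (nat_lit 11) (nat_lit 1) (.cons (.ev (nat_lit 79537652246452447011202400513) (nat_lit 1)) .nil)) .nil))) (.cons (.br (nat_lit 11) (nat_lit 1) (.cons (.br (nat_lit 4) (nat_lit 1) (.cons (.br (nat_lit 10) (nat_lit 1) (.cons (.rf (nat_lit 3010) (nat_lit 493858305440582043680)) .nil)) (.cons (.ev (nat_lit 79537652246452447011202400513) (nat_lit 1)) .nil))) (.cons (.br (nat_lit 4) (nat_lit 1) (.cons (.br (nat_lit 8) (nat_lit 1) (.cons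 (.kr (nat_lit 36893489246930731520) (nat_lit 79537647524157740256306790400) (nat_lit 1) (nat_lit 0)) (.cons (.ev (nat_lit 20361947251175756106613815050241) (nat_lit 1)) .nil))) (.cons (.ev (nat_lit 79537652246452447011202400513) (nat_lit 1)) (.cons (.rf (nat_lit 2870) (nat_lit 458117738729117419552)) .nil)))) .nil))) .nil)))),
 (.br (nat_lit 10) (nat_lit 1) (.cons (.br (nat_lit 13) (nat_lit 0) (.cons (.ev (nat_lit 1208944338416301233930241) (nat_lit 1)) .nil)) .nil)),
 (.br (nat_lit 11) (nat_lit 1) (.cons (.rf (nat_lit 3011) (nat_lit 493858305440582043680)) (.cons (.br (nat_lit 6) (nat_lit 1) (.cons (.br (nat_lit 4) (nat_lit 1) (.cons (.rf (nat_lit 3012) (nat_lit 493858305440582043680)) (.cons (.ev (nat_lit 79537652246452447011202400513) (nat_lit 1)) .nil))) (.cons (.br (nat_lit 4) (nat_lit 1) (.cons (.ev (nat_lit 79537652246452447011202400513) (nat_lit 1)) (.cons (.rf (nat_lit 2870) (nat_lit 458117738729117419552)) .nil))) .nil))) .nil))),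
 (.br (nat_lit 11) (nat_lit 1) (.cons (.rf (nat_lit 3011) (nat_lit 493858305440582043680)) (.cons (.rf (nat_lit 3013) (nat_lit 493858305440582043680)) (.cons (.br (nat_lit 11) (nat_lit 1) (.cons (.rf (nat_lit 3011) (nat_lit 493858305440582043680)) (.cons (.rf (nat_lit 3013) (nat_lit 493858305440582043680)) .nil))) .nil)))),
 (.br (nat_lit 10) (nat_lit 1) (.cons (.br (nat_lit 8) (nat_lit 1) (.cons (.ev (nat_lit 1208944338416301233930241) (nat_lit 1)) .nil)) .nil)),
 (.br (nat_lit 11) (nat_lit 1) (.cons (.rf (nat_lit 3015) (nat_lit 14242959524133701664)) (.cons (.br (nat_lit 8) (nat_lit 1) (.cons (.ev (nat_lit 79537652246524224225480278273) (nat_lit 1)) (.cons (.br (nat_lit 10) (nat_lit 1) (.cons (.zr (nat_lit 2417851639232556884296448) (nat_lit 309489750634853491368001537) (nat_lit 5) (nat_lit 0)) .nil)) .nil))) .nil))),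
 (.br (nat_lit 11) (nat_lit 1) (.cons (.rf (nat_lit 3015) (nat_lit 14242959524133701664)) (.cons (.ev (nat_lit 79537647524158021731300147201) (nat_lit 1)) .nil))),
 (.br (nat_lit 6) (nat_lit 1) (.cons (.rf (nat_lit 3014) (nat_lit 493858305440582043680)) (.cons (.br (nat_lit 4) (nat_lit 1) (.cons (.rf (nat_lit 2587) (nat_lit 493853797447207323680)) (.cons (.ev (nat_lit 72057598349672449) (nat_lit 1)) (.cons (.br (nat_lit 2) (nat_lit 0) (.cons (.rf (nat_lit 2587) (nat_lit 493853801845249640480)) (.cons (.rf (nat_lit 2587) (nat_lit 493853804042125412384)) (.cons (.br (nat_lit 11) (nat_lit 1) (.cons (.rf (nat_lit 795) (nat_lit 13980468832733216)) (.cons (.ev (nat_lit 79537652246452447011202400513) (nat_lit 1)) .nil))) .nil)))) .nil)))) (.cons (.br (nat_lit 5) (nat_lit 0) (.cons (.br (nat_lit 11) (nat_lit 1) (.cons (.rf (nat_lit 3016) (nat_lit 493858305440582043680)) (.cons (.rf (nat_lit 3017) (nat_lit 493858305440582043680)) (.cons (.br (nat_lit 11) (nat_lit 1) (.cons (.rf (nat_lit 3016) (nat_lit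 493858305440582043680)) (.cons (.ev (nat_lit 79537647524158021731300147201) (nat_lit 1)) .nil))) .nil)))) (.cons (.ev (nat_lit 79228162532711364241758617601) (nat_lit 1)) (.cons (.br (nat_lit 4) (nat_lit 1) (.cons (.ev (nat_lit 1213648186380077603225601) (nat_lit 1)) (.cons (.br (nat_lit 8) (nat_lit 1) (.cons (.ev (nat_lit 1213666632841572546248961) (nat_lit 1)) (.cons (.br (nat_lit 13) (nat_lit 0) (.cons (.br (nat_lit 2) (nat_lit 0) (.cons (.ev (nat_lit 79537652246452447011202400513) (nat_lit 1)) .nil)) .nil)) .nil))) (.cons (.rf (nat_lit 2870) (nat_lit 458117738729117419552)) .nil)))) (.cons (.rf (nat_lit 2886) (nat_lit 493677070745321179168)) .nil))))) .nil)))),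
 (.br (nat_lit 6) (nat_lit 1) (.cons (.rf (nat_lit 3014) (nat_lit 493858305440582043680)) (.cons (.rf (nat_lit 3018) (nat_lit 493858305440582043680)) (.cons (.br (nat_lit 4) (nat_lit 1) (.cons (.br (nat_lit 11) (nat_lit 1) (.cons (.br (nat_lit 11) (nat_lit 1) (.cons (.ev (nat_lit 79537652246452447011202400513) (nat_lit 1)) .nil)) (.cons (.br (nat_lit 11) (nat_lit 1) (.cons (.ev (nat_lit 79537652246452447011202400513) (nat_lit 1)) .nil)) .nil))) (.cons (.ev (nat_lit 72057598349672449) (nat_lit 1)) (.cons (.rf (nat_lit 2870) (nat_lit 458117738729117419552)) .nil)))) .nil)))),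
 (.br (nat_lit 6) (nat_lit 1) (.cons (.rf (nat_lit 2725) (nat_lit 493786145594110215232)) (.cons (.br (nat_lit 11) (nat_lit 1) (.cons (.br (nat_lit 4) (nat_lit 1) (.cons (.br (nat_lit 10) (nat_lit 1) (.cons (.br (nat_lit 13) (nat_lit 0) (.cons (.ev (nat_lit 1208944338416301233996033) (nat_lit 1)) .nil)) .nil)) (.cons (.ev (nat_lit 79537652246452447011202400513) (nat_lit 1)) .nil))) (.cons (.br (nat_lit 4) (nat_lit 1) (.cons (.br (nat_lit 7) (nat_lit 0) (.cons (.kr (nat_lit 36893489246930731264) (nat_lit 79537647524157740256306724864) (nat_lit 1) (nat_lit 0)) (.cons (.ev (nat_lit 309485009893403766569369601) (nat_lit 1)) .nil))) (.cons (.ev (nat_lit 79537652246452447011202400513) (nat_lit 1)) (.cons (.rf (nat_lit 2970) (nat_lit 14312836717961380928)) .nil)))) .nil))) (.cons (.br (nat_lit 4) (nat_lit 1) (.cons (.br (nat_lit 8) (nat_lit 1) (.cons (.br (nat_lit 11) (nat_lit 1) (.cons (.br (nat_lit 13) (nat_lit 0) (.cons (.zr (nat_lit 36893491445953987328) (nat_lit 310698658007724046833156097)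 (nat_lit 5) (nat_lit 0)) .nil)) (.cons (.kr (nat_lit 36893489246947508480) (nat_lit 20440865928680199099134339317760) (nat_lit 1) (nat_lit 0)) .nil))) (.cons (.rf (nat_lit 2998) (nat_lit 458082801744999450656)) .nil))) (.cons (.br (nat_lit 11) (nat_lit 1) (.cons (.ev (nat_lit 79537652246452447011202400513) (nat_lit 1)) (.cons (.br (nat_lit 5) (nat_lit 0) (.cons (.ev (nat_lit 309485028268090246257704961) (nat_lit 1)) (.cons (.zr (nat_lit 61005685135983539947028841955328) (nat_lit 1213648186380077603225857) (nat_lit 5) (nat_lit 6)) .nil))) .nil))) (.cons (.rf (nat_lit 2870) (nat_lit 458117738729117419552)) .nil)))) .nil)))),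
 (.br (nat_lit 11) (nat_lit 1) (.cons (.rf (nat_lit 3020) (nat_lit 493858305440582043680)) (.cons (.br (nat_lit 6) (nat_lit 1) (.cons (.br (nat_lit 7) (nat_lit 0) (.cons (.ev (nat_lit 79537652246452447011202400513) (nat_lit 1)) (.cons (.br (nat_lit 5) (nat_lit 0) (.cons (.ev (nat_lit 4722438823042483290113) (nat_lit 1)) (.cons (.br (nat_lit 13) (nat_lit 0) (.cons (.zr (nat_lit 216176080682222336) (nat_lit 310698676454468120526127105) (nat_lit 5) (nat_lit 0)) .nil)) .nil))) (.cons (.br (nat_lit 5) (nat_lit 0) (.cons (.kr (nat_lit 2417851639230357877817600) (nat_lit 79228167236703159532203868160) (nat_lit 1) (nat_lit 0)) (.cons (.kr (nat_lit 1208925819615728719888640) (nat_lit 79228167236631101938166005760) (nat_lit 1) (nat_lit 0)) .nil))) .nil)))) (.cons (.br (nat_lit 4) (nat_lit 1) (.cons (.ev (nat_lit 79537652246452447011202400513) (nat_lit 1)) (.cons (.br (nat_lit 10) (nat_lit 1) (.cons (.br (nat_lit 5) (nat_lit 0) (.cons (.zr (nat_lit 216176080682222336) (nat_lit 310698676454468120526127105)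 (nat_lit 5) (nat_lit 0)) .nil)) .nil)) .nil))) (.cons (.br (nat_lit 8) (nat_lit 1) (.cons (.br (nat_lit 7) (nat_lit 0) (.cons (.br (nat_lit 5) (nat_lit 0) (.cons (.ev (nat_lit 79229371440156009821068394753) (nat_lit 1)) .nil)) (.cons (.br (nat_lit 5) (nat_lit 0) (.cons (.ev (nat_lit 79538856468352042468976361473) (nat_lit 1)) .nil)) .nil))) (.cons (.br (nat_lit 4) (nat_lit 1) (.cons (.br (nat_lit 10) (nat_lit 1) (.cons (.zr (nat_lit 37109664228101325568) (nat_lit 237995186200800736827448426497) (nat_lit 5) (nat_lit 0)) .nil)) .nil)) .nil))) .nil)))) .nil))),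
 (.br (nat_lit 11) (nat_lit 1) (.cons (.rf (nat_lit 3020) (nat_lit 493858305440582043680)) (.cons (.rf (nat_lit 3021) (nat_lit 493858305440582043680)) (.cons (.br (nat_lit 11) (nat_lit 1) (.cons (.rf (nat_lit 3020) (nat_lit 493858305440582043680)) (.cons (.rf (nat_lit 3021) (nat_lit 493858305440582043680)) .nil))) .nil)))),
 (.br (nat_lit 11) (nat_lit 1) (.cons (.rf (nat_lit 2725) (nat_lit 493786316018412520512)) (.cons (.br (nat_lit 4) (nat_lit 1) (.cons (.ev (nat_lit 72057598349738241) (nat_lit 1)) (.cons (.ev (nat_lit 79537652246452447011202400513) (nat_lit 1)) .nil))) (.cons (.br (nat_lit 4) (nat_lit 1) (.cons (.br (nat_lit 8) (nat_lit 1) (.cons (.br (nat_lit 13) (nat_lit 0) (.cons (.ev (nat_lit 79538861190790582928364601345) (nat_lit 1)) .nil)) (.cons (.br (nat_lit 10) (nat_lit 1) (.cons (.zr (nat_lit 2417851639232556884296448) (nat_lit 309489750634853491368001537) (nat_lit 5) (nat_lit 0)) .nil)) .nil))) (.cons (.ev (nat_lit 79537652246452447011202400513) (nat_lit 1)) (.cons (.br (nat_lit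 7) (nat_lit 0) (.cons (.br (nat_lit 10) (nat_lit 1) (.cons (.ev (nat_lit 158458742898759048485046190850) (nat_lit 2)) .nil)) (.cons (.br (nat_lit 8) (nat_lit 1) (.cons (.ev (nat_lit 20362261581444486640166647562500) (nat_lit 3)) .nil)) .nil))) .nil)))) .nil)))),
 (.br (nat_lit 13) (nat_lit 0) (.cons (.rf (nat_lit 2901) (nat_lit 493857214725047289888)) (.cons (.rf (nat_lit 2901) (nat_lit 493857210327004973088)) (.cons (.rf (nat_lit 2901) (nat_lit 493857139958262892576)) (.cons (.rf (nat_lit 2627) (nat_lit 493679289556564805664)) .nil))))),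
 (.br (nat_lit 11) (nat_lit 1) (.cons (.rf (nat_lit 3023) (nat_lit 493858305440582043680)) (.cons (.rf (nat_lit 3024) (nat_lit 493858305440582043680)) (.cons (.br (nat_lit 2) (nat_lit 0) (.cons (.ev (nat_lit 79537652246452447011202400513) (nat_lit 1)) (.cons (.br (nat_lit 13) (nat_lit 0) (.cons (.br (nat_lit 10) (nat_lit 1) (.cons (.ev (nat_lit 22268065483555396419085466536720) (nat_lit 5)) .nil)) (.cons (.ev (nat_lit 20282720302328124610588522316033) (nat_lit 1)) .nil))) (.cons (.br (nat_lit 5) (nat_lit 0) (.cons (.br (nat_lit 13) (nat_lit 0) (.cons (.zr (nat_lit 79228162514336397386605199872) (nat_lit 309485028268089146762854401) (nat_lit 5) (nat_lit 0)) .nil)) (.cons (.br (nat_lit 4) (nat_lit 1) (.cons (.ev (nat_lit 80469743498540640728512463620) (nat_lit 3)) .nil)) .nil))) .nil)))) .nil)))),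
 (.br (nat_lit 7) (nat_lit 0) (.cons (.kr (nat_lit 79228162514336958137535300352) (nat_lit 20282409603651670425055353044992) (nat_lit 1) (nat_lit 0)) .nil)),
 (.br (nat_lit 6) (nat_lit 1) (.cons (.rf (nat_lit 3022) (nat_lit 493858305440582043680)) (.cons (.br (nat_lit 11) (nat_lit 1) (.cons (.rf (nat_lit 3023) (nat_lit 493858305440582043680)) (.cons (.rf (nat_lit 3024) (nat_lit 493858305440582043680)) (.cons (.rf (nat_lit 3025) (nat_lit 493858305440582043680)) (.cons (.br (nat_lit 11) (nat_lit 1) (.cons (.rf (nat_lit 3023) (nat_lit 493858305440582043680)) (.cons (.rf (nat_lit 3024) (nat_lit 493858305440582043680)) (.cons (.rf (nat_lit 3025) (nat_lit 493858305440582043680)) .nil)))) .nil))))) (.cons (.br (nat_lit 8) (nat_lit 1) (.cons (.br (nat_lit 4) (nat_lit 1) (.cons (.br (nat_lit 10) (nat_lit 1) (.cons (.br (nat_lit 13) (nat_lit 0) (.cons (.rf (nat_lit 2769) (nat_lit 458082796249591940160)) .nil)) (.cons (.ev (nat_lit 20361638979832567884592613163265) (nat_lit 1)) .nil))) (.cons (.br (nat_lit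 13) (nat_lit 0) (.cons (.kr (nat_lit 79228162514264619068520661504) (nat_lit 20282409603651670423951546384384) (nat_lit 1) (nat_lit 0)) (.cons (.br (nat_lit 10) (nat_lit 1) (.cons (.rf (nat_lit 3026) (nat_lit 493858305440582043680)) (.cons (.rf (nat_lit 2675) (nat_lit 458009477521082516544)) .nil))) .nil))) (.cons (.rf (nat_lit 2870) (nat_lit 458117738729117419552)) .nil)))) (.cons (.ev (nat_lit 79228162532711364241758617601) (nat_lit 1)) (.cons (.br (nat_lit 13) (nat_lit 0) (.cons (.rf (nat_lit 2870) (nat_lit 458117738729117419552)) (.cons (.br (nat_lit 5) (nat_lit 0) (.cons (.br (nat_lit 7) (nat_lit 0) (.cons (.br (nat_lit 2) (nat_lit 0) (.cons (.ev (nat_lit 79537652246524224225480343553) (nat_lit 1)) .nil)) .nil)) (.cons (.rf (nat_lit 2674) (nat_lit 493787270394505431072)) .nil))) (.cons (.br (nat_lit 7) (nat_lit 0) (.cons (.br (nat_lit 10) (nat_lit 1) (.cons (.zr (nat_lit 40564819207340306393635993157632) (nat_lit 79229376162450716571635548161) (nat_lit 5) (nat_lit 6)) (.cons (.ev (nat_lit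 40723277950201956344150049686274) (nat_lit 2)) .nil))) (.cons (.br (nat_lit 5) (nat_lit 0) (.cons (.kr (nat_lit 1208944266359802395885824) (nat_lit 20282409603651814539135343919104) (nat_lit 1) (nat_lit 0)) (.cons (.kr (nat_lit 79228162532711082766765129984) (nat_lit 20282409603651814539135343919104) (nat_lit 1) (nat_lit 0)) .nil))) (.cons (.br (nat_lit 5) (nat_lit 0) (.cons (.br (nat_lit 10) (nat_lit 1) (.cons (.ev (nat_lit 20837625711382205926224234088196) (nat_lit 3)) .nil)) (.cons (.br (nat_lit 2) (nat_lit 0) (.cons (.zr (nat_lit 237684487543009188861314073344) (nat_lit 310698731794700341654781953) (nat_lit 5) (nat_lit 0)) .nil)) .nil))) .nil)))) .nil)))) (.cons (.rf (nat_lit 2998) (nat_lit 458082801744999450656)) .nil))))) .nil)))),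
 (.br (nat_lit 4) (nat_lit 1) (.cons (.kr (nat_lit 36893489246930731264) (nat_lit 20361637766166006819134833229824) (nat_lit 1) (nat_lit 0)) .nil)),
 (.br (nat_lit 11) (nat_lit 1) (.cons (.br (nat_lit 7) (nat_lit 0) (.cons (.ev (nat_lit 79537652246452447011202400513) (nat_lit 1)) (.cons (.rf (nat_lit 3028) (nat_lit 493858305440582043680)) .nil))) (.cons (.ev (nat_lit 20282719093383858251885638058241) (nat_lit 1)) .nil))),
 (.br (nat_lit 11) (nat_lit 1) (.cons (.rf (nat_lit 3029) (nat_lit 493858305440582043680)) (.cons (.br (nat_lit 4) (nat_lit 1) (.cons (.ev (nat_lit 79537652246452447011202400513) (nat_lit 1)) (.cons (.br (nat_lit 2) (nat_lit 0) (.cons (.ev (nat_lit 618979501342049345990755074) (nat_lit 2)) .nil)) .nil))) .nil))),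
 (.br (nat_lit 6) (nat_lit 1) (.cons (.rf (nat_lit 3022) (nat_lit 493858305440582043680)) (.cons (.rf (nat_lit 3027) (nat_lit 493858305440582043680)) (.cons (.br (nat_lit 13) (nat_lit 0) (.cons (.rf (nat_lit 2870) (nat_lit 458117738729117419552)) (.cons (.ev (nat_lit 20282409603651670705422227996929) (nat_lit 1)) (.cons (.br (nat_lit 11) (nat_lit 1) (.cons (.rf (nat_lit 3029) (nat_lit 493858305440582043680)) (.cons (.rf (nat_lit 3030) (nat_lit 493858305440582043680)) (.cons (.br (nat_lit 11) (nat_lit 1) (.cons (.ev (nat_lit 20282719093383858251885638058241) (nat_lit 1)) (.cons (.rf (nat_lit 3030) (nat_lit 493858305440582043680)) .nil))) .nil)))) (.cons (.br (nat_lit 4) (nat_lit 1) (.cons (.br (nat_lit 10) (nat_lit 1) (.cons (.br (nat_lit 5) (nat_lit 0) (.cons (.br (nat_lit 11) (nat_lit 1) (.cons (.ev (nat_lit 309485028340428211465814273) (nat_lit 1)) .nil)) (.cons (.zr (nat_lit 61005685135983539949227865145856) (nat_lit 929668677650414184299495425) (nat_lit 5) (nat_lit 0)) .nil))) (.cons (.ev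 (nat_lit 20282410812577562377645457473793) (nat_lit 1)) .nil))) (.cons (.br (nat_lit 5) (nat_lit 0) (.cons (.ev (nat_lit 282574505115649) (nat_lit 1)) (.cons (.ev (nat_lit 40644049787669244697325196017922) (nat_lit 2)) (.cons (.br (nat_lit 10) (nat_lit 1) (.cons (.zr (nat_lit 61005685135983539949227865145856) (nat_lit 929668677650414184299495425) (nat_lit 5) (nat_lit 0)) (.cons (.ev (nat_lit 20282412021503454332443191935746) (nat_lit 2)) .nil))) .nil)))) (.cons (.br (nat_lit 8) (nat_lit 1) (.cons (.rf (nat_lit 3027) (nat_lit 458082801744999449664)) (.cons (.br (nat_lit 5) (nat_lit 0) (.cons (.ev (nat_lit 20282410812577490039680249364481) (nat_lit 1)) (.cons (.ev (nat_lit 309485028268090246257704961) (nat_lit 1)) .nil))) .nil))) .nil)))) .nil))))) .nil)))),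
 (.br (nat_lit 9) (nat_lit 1) (.cons (.kr (nat_lit 256) (nat_lit 65536) (nat_lit 1) (nat_lit 0)) (.cons (.br (nat_lit 11) (nat_lit 1) (.cons (.rf (nat_lit 3001) (nat_lit 493858305440582043680)) (.cons (.rf (nat_lit 3003) (nat_lit 493858305440582043680)) (.cons (.rf (nat_lit 3009) (nat_lit 493858305440582043680)) (.cons (.br (nat_lit 11) (nat_lit 1) (.cons (.rf (nat_lit 3001) (nat_lit 493858305440582043680)) (.cons (.rf (nat_lit 3003) (nat_lit 493858305440582043680)) (.cons (.rf (nat_lit 3009) (nat_lit 493858305440582043680)) .nil)))) .nil))))) (.cons (.br (nat_lit 6) (nat_lit 1) (.cons (.rf (nat_lit 3014) (nat_lit 493858305440582043680)) (.cons (.rf (nat_lit 3018) (nat_lit 493858305440582043680)) (.cons (.rf (nat_lit 3019) (nat_lit 493858305440582043680)) (.cons (.br (nat_lit 6) (nat_lit 1) (.cons (.rf (nat_lit 3014) (nat_lit 493858305440582043680)) (.cons (.rf (nat_lit 3018) (nat_lit 493858305440582043680)) (.cons (.rf (nat_lit 3019) (nat_lit 493858305440582043680)) .nil)))) .nil))))) (.cons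 (.br (nat_lit 6) (nat_lit 1) (.cons (.rf (nat_lit 3022) (nat_lit 493858305440582043680)) (.cons (.rf (nat_lit 3027) (nat_lit 493858305440582043680)) (.cons (.rf (nat_lit 3031) (nat_lit 493858305440582043680)) (.cons (.br (nat_lit 6) (nat_lit 1) (.cons (.rf (nat_lit 3022) (nat_lit 493858305440582043680)) (.cons (.rf (nat_lit 3027) (nat_lit 493858305440582043680)) (.cons (.rf (nat_lit 3031) (nat_lit 493858305440582043680)) .nil)))) .nil))))) .nil)))))]

theorem c105 : chkAll C T R L105 (nat_lit 3010) = true := by decide +kernel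

theorem l105 : (nat_lit 3010) + L105.length = (nat_lit 3033) := by decide +kernel

/-- part of the certificates -/
def L106 : List Prf := [(.br (nat_lit 13) (nat_lit 0) (.cons (.rf (nat_lit 2870) (nat_lit 458117738729117419552)) (.cons (.rf (nat_lit 2915) (nat_lit 482213097159886880)) (.cons (.br (nat_lit 5) (nat_lit 0) (.cons (.br (nat_lit 11) (nat_lit 1) (.cons (.rf (nat_lit 3024) (nat_lit 493678231827452626976)) (.cons (.rf (nat_lit 3024) (nat_lit 493678231827452625984)) (.cons (.br (nat_lit 1) (nat_lit 0) (.cons (.ev (nat_lit 20282719088679938513093980586241) (nat_lit 1)) (.cons (.ev (nat_lit 79537647542604485433822806273) (nat_lit 1)) .nil))) .nil)))) (.cons (.ev (nat_lit 20361638975110201121347502866433) (nat_lit 1)) (.cons (.rf (nat_lit 2652) (nat_lit 14315017047379118112)) .nil)))) .nil)))),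
 (.br (nat_lit 13) (nat_lit 0) (.cons (.rf (nat_lit 2870) (nat_lit 458117738729117419552)) (.cons (.rf (nat_lit 2915) (nat_lit 482213097159886880)) (.cons (.br (nat_lit 5) (nat_lit 0) (.cons (.br (nat_lit 11) (nat_lit 1) (.cons (.rf (nat_lit 3024) (nat_lit 493678231827452626976)) (.cons (.rf (nat_lit 3024) (nat_lit 493678231827452625984)) (.cons (.br (nat_lit 1) (nat_lit 0) (.cons (.br (nat_lit 8) (nat_lit 1) (.cons (.ev (nat_lit 79228167255149904709736792065) (nat_lit 1)) .nil)) (.cons (.br (nat_lit 6) (nat_lit 1) (.cons (.ev (nat_lit 79228167255149904709736726785) (nat_lit 1)) .nil)) .nil))) .nil)))) (.cons (.ev (nat_lit 20361638975110201121347502866433) (nat_lit 1)) (.cons (.rf (nat_lit 2652) (nat_lit 14312767446588688416)) .nil)))) .nil)))),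
 (.br (nat_lit 13) (nat_lit 0) (.cons (.rf (nat_lit 2870) (nat_lit 458117738729117419552)) (.cons (.rf (nat_lit 3033) (nat_lit 493858305440582043680)) (.cons (.rf (nat_lit 3034) (nat_lit 493858305440582043680)) (.cons (.br (nat_lit 13) (nat_lit 0) (.cons (.rf (nat_lit 2870) (nat_lit 458117738729117419552)) (.cons (.rf (nat_lit 3033) (nat_lit 493858305440582043680)) (.cons (.rf (nat_lit 3034) (nat_lit 493858305440582043680)) .nil)))) .nil))))),
 (.br (nat_lit 13) (nat_lit 0) (.cons (.rf (nat_lit 2870) (nat_lit 458117738729117419552)) (.cons (.br (nat_lit 5) (nat_lit 0) (.cons (.ev (nat_lit 20361637766165934762644618608641) (nat_lit 1)) (.cons (.rf (nat_lit 2652) (nat_lit 14308263851251042336)) (.cons (.br (nat_lit 4) (nat_lit 1) (.cons (.kr (nat_lit 4740813226943354765568) (nat_lit 79228162514264338693072355328) (nat_lit 1) (nat_lit 0)) (.cons (.kr (nat_lit 4740813226943354830848) (nat_lit 79228162514264338693072355328) (nat_lit 2) (nat_lit 0)) (.cons (.kr (nat_lit 79228162532711082766765129728)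 (nat_lit 20282410812577562096170463920128) (nat_lit 5) (nat_lit 0)) .nil)))) .nil)))) (.cons (.br (nat_lit 5) (nat_lit 0) (.cons (.br (nat_lit 10) (nat_lit 1) (.cons (.ev (nat_lit 20282409608392483650894901018881) (nat_lit 1)) (.cons (.ev (nat_lit 20282409608392483650894901084161) (nat_lit 1)) (.cons (.br (nat_lit 1) (nat_lit 0) (.cons (.kr (nat_lit 4740813226943354765568) (nat_lit 20282409603651742481541305991168) (nat_lit 1) (nat_lit 0)) (.cons (.kr (nat_lit 79228167255077564536898715904) (nat_lit 2417851639230357877817344) (nat_lit 1) (nat_lit 0)) .nil))) .nil)))) (.cons (.rf (nat_lit 2927) (nat_lit 493857214725047289888)) (.cons (.br (nat_lit 7) (nat_lit 0) (.cons (.ev (nat_lit 20282410812577490039680249364481) (nat_lit 1)) (.cons (.rf (nat_lit 2709) (nat_lit 457864446434457258016)) (.cons (.br (nat_lit 2) (nat_lit 0) (.cons (.br (nat_lit 6) (nat_lit 1) (.cons (.zr (nat_lit 9481626453886726504448) (nat_lit 310693935641241177171165697) (nat_lit 5) (nat_lit 4)) .nil)) (.cons (.br (nat_lit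 1) (nat_lit 0) (.cons (.zr (nat_lit 9481626453886726308608) (nat_lit 310693935641241177171296257) (nat_lit 5) (nat_lit 4)) .nil)) .nil))) .nil)))) (.cons (.rf (nat_lit 2924) (nat_lit 493857214725047289888)) .nil))))) .nil)))),
 (.br (nat_lit 7) (nat_lit 0) (.cons (.ev (nat_lit 79228162532783139265603174401) (nat_lit 1)) .nil)),
 (.br (nat_lit 11) (nat_lit 1) (.cons (.br (nat_lit 8) (nat_lit 1) (.cons (.rf (nat_lit 3037) (nat_lit 493858305440582043680)) (.cons (.kr (nat_lit 1213648186097498819920384) (nat_lit 20282409603651742481541306056704) (nat_lit 1) (nat_lit 0)) .nil))) (.cons (.rf (nat_lit 3024) (nat_lit 493858199890687002656)) (.cons (.br (nat_lit 8) (nat_lit 1) (.cons (.kr (nat_lit 1213648186097498819920384) (nat_lit 20282409603651742481541306056704) (nat_lit 1) (nat_lit 0)) (.cons (.br (nat_lit 2) (nat_lit 0) (.cons (.ev (nat_lit 79228167255149904709736726785) (nat_lit 1)) .nil)) .nil))) .nil)))),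
 (.br (nat_lit 11) (nat_lit 1) (.cons (.ev (nat_lit 20441175418412459547620995563522) (nat_lit 2)) (.cons (.ev (nat_lit 310698658079782736070967553) (nat_lit 1)) .nil))),
 (.br (nat_lit 13) (nat_lit 0) (.cons (.rf (nat_lit 2870) (nat_lit 458117738729117419552)) (.cons (.rf (nat_lit 3036) (nat_lit 493858305440582043680)) (.cons (.br (nat_lit 6) (nat_lit 1) (.cons (.rf (nat_lit 3038) (nat_lit 493858305440582043680)) (.cons (.rf (nat_lit 3038) (nat_lit 493858305440582042688)) (.cons (.rf (nat_lit 2927) (nat_lit 493857214725047289888)) (.cons (.br (nat_lit 4) (nat_lit 1) (.cons (.rf (nat_lit 3039) (nat_lit 493858305440582043680)) (.cons (.rf (nat_lit 3039) (nat_lit 493858305440582042688)) (.cons (.ev (nat_lit 72057598349672449) (nat_lit 1)) .nil)))) .nil))))) .nil)))),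
 (.br (nat_lit 13) (nat_lit 0) (.cons (.rf (nat_lit 2870) (nat_lit 458117738729117419552)) (.cons (.rf (nat_lit 3036) (nat_lit 493858305440582043680)) (.cons (.rf (nat_lit 3040) (nat_lit 493858305440582043680)) (.cons (.br (nat_lit 13) (nat_lit 0) (.cons (.rf (nat_lit 2870) (nat_lit 458117738729117419552)) (.cons (.rf (nat_lit 3036) (nat_lit 493858305440582043680)) (.cons (.rf (nat_lit 3040) (nat_lit 493858305440582043680)) .nil)))) .nil))))),
 (.br (nat_lit 13) (nat_lit 0) (.cons (.rf (nat_lit 2915) (nat_lit 482213097159886880)) (.cons (.rf (nat_lit 3041) (nat_lit 493858305440582043680)) (.cons (.br (nat_lit 5) (nat_lit 0) (.cons (.ev (nat_lit 20361638975110201121347502866433) (nat_lit 1)) (.cons (.br (nat_lit 4) (nat_lit 1) (.cons (.kr (nat_lit 4759259971017064317184) (nat_lit 79229371440083953322247061504) (nat_lit 1) (nat_lit 0)) (.cons (.kr (nat_lit 4759259971017064382464) (nat_lit 79229371440083953322247061504) (nat_lit 2) (nat_lit 0)) (.cons (.kr (nat_lit 79229371440083953322230284288)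 (nat_lit 20282409603670189225614998765568) (nat_lit 5) (nat_lit 0)) .nil)))) (.cons (.rf (nat_lit 2652) (nat_lit 14308263851256285216)) .nil)))) .nil)))),
 (.br (nat_lit 13) (nat_lit 0) (.cons (.rf (nat_lit 3035) (nat_lit 493858305440582043680)) (.cons (.rf (nat_lit 3041) (nat_lit 493858305440582043680)) (.cons (.rf (nat_lit 3042) (nat_lit 493858305440582043680)) (.cons (.br (nat_lit 13) (nat_lit 0) (.cons (.rf (nat_lit 3035) (nat_lit 493858305440582043680)) (.cons (.rf (nat_lit 3041) (nat_lit 493858305440582043680)) (.cons (.rf (nat_lit 3042) (nat_lit 493858305440582043680)) .nil)))) .nil))))),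
 (.br (nat_lit 13) (nat_lit 0) (.cons (.rf (nat_lit 3035) (nat_lit 493858305440582043680)) (.cons (.rf (nat_lit 3041) (nat_lit 493858305440582043680)) (.cons (.rf (nat_lit 3043) (nat_lit 493858305440582043680)) (.cons (.br (nat_lit 13) (nat_lit 0) (.cons (.rf (nat_lit 3035) (nat_lit 493858305440582043680)) (.cons (.rf (nat_lit 3041) (nat_lit 493858305440582043680)) (.cons (.rf (nat_lit 3043) (nat_lit 493858305440582043680)) .nil)))) .nil))))),
 (.br (nat_lit 6) (nat_lit 1) (.cons (.kr (nat_lit 4722366482869645279232) (nat_lit 1099528404992) (nat_lit 2) (nat_lit 0)) (.cons (.br (nat_lit 13) (nat_lit 0) (.cons (.kr (nat_lit 20282409603651670423947251286272) (nat_lit 1099528404992) (nat_lit 1) (nat_lit 0)) (.cons (.rf (nat_lit 2998) (nat_lit 458082801744999450656)) (.cons (.br (nat_lit 2) (nat_lit 0) (.cons (.zr (nat_lit 158456334473261640926395170816) (nat_lit 310693935641241177171165185) (nat_lit 5) (nat_lit 4)) (.cons (.br (nat_lit 4) (nat_lit 1) (.cons (.zr (nat_lit 237684492265159496749822246912)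 (nat_lit 310693954087985250880716801) (nat_lit 5) (nat_lit 4)) .nil)) .nil))) .nil)))) .nil))),
 (.br (nat_lit 6) (nat_lit 1) (.cons (.kr (nat_lit 1099528405248) (nat_lit 4722366482869645344768) (nat_lit 1) (nat_lit 0)) (.cons (.br (nat_lit 4) (nat_lit 1) (.cons (.br (nat_lit 13) (nat_lit 0) (.cons (.zr (nat_lit 237684496987525978519939186688) (nat_lit 309485046715114695415562497) (nat_lit 5) (nat_lit 4)) (.cons (.zr (nat_lit 237684496987525978519939055872) (nat_lit 311902861460855806345871361) (nat_lit 5) (nat_lit 4)) .nil))) (.cons (.br (nat_lit 8) (nat_lit 1) (.cons (.br (nat_lit 10) (nat_lit 1) (.cons (.zr (nat_lit 237684496987525978519939121152) (nat_lit 310693954087985250880716801) (nat_lit 5) (nat_lit 4)) .nil)) (.cons (.rf (nat_lit 2998) (nat_lit 458117738729117419552)) .nil))) .nil))) (.cons (.br (nat_lit 13) (nat_lit 0) (.cons (.kr (nat_lit 20282409603651670423947251286272) (nat_lit 4722366482869645279232) (nat_lit 1) (nat_lit 0)) (.cons (.rf (nat_lit 2998) (nat_lit 458082801744999450656))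 (.cons (.br (nat_lit 8) (nat_lit 1) (.cons (.br (nat_lit 7) (nat_lit 0) (.cons (.zr (nat_lit 237684496987525978519939121152) (nat_lit 310693954087985250880716801) (nat_lit 5) (nat_lit 4)) .nil)) (.cons (.kr (nat_lit 4740813226943354830848) (nat_lit 20282409603651742481541305991168) (nat_lit 2) (nat_lit 0)) .nil))) .nil)))) .nil)))),
 (.br (nat_lit 6) (nat_lit 1) (.cons (.rf (nat_lit 3046) (nat_lit 493858305440582043680)) (.cons (.rf (nat_lit 2886) (nat_lit 493787408930823047200)) (.cons (.br (nat_lit 13) (nat_lit 0) (.cons (.rf (nat_lit 2870) (nat_lit 458117738729117419552)) (.cons (.rf (nat_lit 2998) (nat_lit 458082801744999450656)) (.cons (.br (nat_lit 2) (nat_lit 0) (.cons (.ev (nat_lit 20441175418412459547620995498242) (nat_lit 2)) (.cons (.br (nat_lit 4) (nat_lit 1) (.cons (.ev (nat_lit 618979501342049345990755074) (nat_lit 2)) .nil)) .nil))) .nil)))) .nil)))),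
 (.br (nat_lit 6) (nat_lit 1) (.cons (.kr (nat_lit 158456325028528676286616305920) (nat_lit 4759259971017064448000) (nat_lit 1) (nat_lit 0)) (.cons (.kr (nat_lit 4740813226943354765312) (nat_lit 20361637766165934761540795236352) (nat_lit 8) (nat_lit 0)) .nil))),
 (.br (nat_lit 7) (nat_lit 0) (.cons (.br (nat_lit 10) (nat_lit 1) (.cons (.kr (nat_lit 79228167236630820463189229568) (nat_lit 1208925819615728703111168) (nat_lit 2) (nat_lit 0)) (.cons (.zr (nat_lit 158456329750895159156278296832) (nat_lit 310693935641241177171230721) (nat_lit 5) (nat_lit 4)) .nil))) (.cons (.kr (nat_lit 18446745173237956864) (nat_lit 79228167236630820463189295104) (nat_lit 1) (nat_lit 0)) (.cons (.kr (nat_lit 79228167236630820463189229568) (nat_lit 1208925819615728703111168) (nat_lit 2) (nat_lit 0)) .nil)))),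
 (.br (nat_lit 6) (nat_lit 1) (.cons (.rf (nat_lit 3049) (nat_lit 493858305440582043680)) (.cons (.br (nat_lit 10) (nat_lit 1) (.cons (.zr (nat_lit 40723275532331869526380125356800) (nat_lit 310708102740689786123583489) (nat_lit 5) (nat_lit 0)) (.cons (.kr (nat_lit 20440865928680199099134339186944) (nat_lit 2417851639230357877817344) (nat_lit 1) (nat_lit 0)) .nil))) .nil))),
 (.br (nat_lit 7) (nat_lit 0) (.cons (.br (nat_lit 5) (nat_lit 0) (.cons (.rf (nat_lit 2680) (nat_lit 15427408423012108320)) (.cons (.br (nat_lit 6) (nat_lit 1) (.cons (.kr (nat_lit 20282409603651742482640834396416) (nat_lit 79228171958997303332834574336) (nat_lit 1) (nat_lit 0)) .nil)) .nil))) (.cons (.rf (nat_lit 2806) (nat_lit 14314977472474613792)) .nil))),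
 (.br (nat_lit 11) (nat_lit 1) (.cons (.kr (nat_lit 256) (nat_lit 65536) (nat_lit 1) (nat_lit 0)) (.cons (.br (nat_lit 6) (nat_lit 1) (.cons (.kr (nat_lit 4722366482869645279232) (nat_lit 1099528404992) (nat_lit 2) (nat_lit 0)) (.cons (.rf (nat_lit 3045) (nat_lit 493858305440582043680)) (.cons (.br (nat_lit 6) (nat_lit 1) (.cons (.kr (nat_lit 4722366482869645279232) (nat_lit 1099528404992) (nat_lit 2) (nat_lit 0)) (.cons (.rf (nat_lit 3045) (nat_lit 493858305440582043680)) .nil))) .nil)))) (.cons (.br (nat_lit 6) (nat_lit 1) (.cons (.rf (nat_lit 3046) (nat_lit 493858305440582043680)) (.cons (.rf (nat_lit 2886) (nat_lit 493787408930823047200)) (.cons (.rf (nat_lit 3047) (nat_lit 493858305440582043680)) (.cons (.br (nat_lit 6) (nat_lit 1) (.cons (.rf (nat_lit 3046) (nat_lit 493858305440582043680)) (.cons (.rf (nat_lit 2886) (nat_lit 493787408930823047200)) (.cons (.rf (nat_lit 3047) (nat_lit 493858305440582043680)) .nil)))) .nil))))) (.cons (.br (nat_lit 4) (nat_lit 1) (.cons (.br (nat_lit 7)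 (nat_lit 0) (.cons (.br (nat_lit 7) (nat_lit 0) (.cons (.rf (nat_lit 3048) (nat_lit 493858305440582043680)) (.cons (.kr (nat_lit 79228162514264337593543950592) (nat_lit 1208925819614629174771712) (nat_lit 1) (nat_lit 0)) .nil))) (.cons (.br (nat_lit 6) (nat_lit 1) (.cons (.kr (nat_lit 158456325028528676286616305920) (nat_lit 4759259971017064448000) (nat_lit 1) (nat_lit 0)) (.cons (.rf (nat_lit 3048) (nat_lit 493858305440582043680)) (.cons (.kr (nat_lit 4740813226943354765312) (nat_lit 20361637766165934761540795236352) (nat_lit 8) (nat_lit 0)) .nil)))) (.cons (.kr (nat_lit 79228162514264337593543950592) (nat_lit 1208925819614629174771712) (nat_lit 1) (nat_lit 0)) .nil)))) (.cons (.br (nat_lit 6) (nat_lit 1) (.cons (.rf (nat_lit 3049) (nat_lit 493858305440582043680)) (.cons (.rf (nat_lit 3050) (nat_lit 493858305440582043680)) (.cons (.br (nat_lit 7) (nat_lit 0) (.cons (.rf (nat_lit 3050) (nat_lit 493858305440582043680)) (.cons (.kr (nat_lit 4740813226943354765312) (nat_lit 20361637766165934761540795236352)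 (nat_lit 8) (nat_lit 0)) (.cons (.kr (nat_lit 20440865928680199099134339186944) (nat_lit 2417851639230357877817344) (nat_lit 1) (nat_lit 0)) .nil)))) .nil)))) (.cons (.br (nat_lit 13) (nat_lit 0) (.cons (.br (nat_lit 8) (nat_lit 1) (.cons (.rf (nat_lit 3032) (nat_lit 458082801744999449664)) (.cons (.br (nat_lit 7) (nat_lit 0) (.cons (.ev (nat_lit 20520094105380082532541926473730) (nat_lit 2)) (.cons (.kr (nat_lit 40881731857360398198268678373888) (nat_lit 3631499897385450752442368) (nat_lit 1) (nat_lit 0)) .nil))) (.cons (.kr (nat_lit 4740813226943354765312) (nat_lit 20361637766165934761540795236352) (nat_lit 8) (nat_lit 0)) .nil)))) (.cons (.rf (nat_lit 3051) (nat_lit 493856055839791613984)) (.cons (.rf (nat_lit 3051) (nat_lit 493858305440582043680)) .nil)))) (.cons (.kr (nat_lit 4722366482869645213696) (nat_lit 20282409603651670423947251286016) (nat_lit 9) (nat_lit 0)) .nil))))) .nil))))),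
 (.br (nat_lit 6) (nat_lit 1) (.cons (.kr (nat_lit 4722366482869645213952) (nat_lit 1099528404992) (nat_lit 1) (nat_lit 0)) (.cons (.kr (nat_lit 4722366482869645279232) (nat_lit 1099528404992) (nat_lit 2) (nat_lit 0)) (.cons (.br (nat_lit 13) (nat_lit 0) (.cons (.rf (nat_lit 2870) (nat_lit 458117738729117419552)) (.cons (.rf (nat_lit 2998) (nat_lit 458082801744999450656)) (.cons (.br (nat_lit 11) (nat_lit 1) (.cons (.rf (nat_lit 3052) (nat_lit 493858305440582043680)) (.cons (.rf (nat_lit 3052) (nat_lit 493858305440582042688)) (.cons (.br (nat_lit 1) (nat_lit 0) (.cons (.br (nat_lit 8) (nat_lit 1) (.cons (.zr (nat_lit 237684492265159496749822246912) (nat_lit 310693954087985250880716801) (nat_lit 5) (nat_lit 4)) .nil)) (.cons (.br (nat_lit 2) (nat_lit 0) (.cons (.zr (nat_lit 237684492265159496749822246912) (nat_lit 310693954087985250880716801) (nat_lit 5) (nat_lit 4)) .nil)) .nil))) .nil)))) (.cons (.br (nat_lit 2) (nat_lit 0) (.cons (.kr (nat_lit 20282409603651670423947251351552) (nat_lit 1099528404992)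 (nat_lit 2) (nat_lit 0)) (.cons (.rf (nat_lit 3032) (nat_lit 458082801744999449664)) (.cons (.kr (nat_lit 20282409608374036906816896565248) (nat_lit 309485009821346168253186048) (nat_lit 2) (nat_lit 0)) .nil)))) .nil))))) .nil)))),
 (.br (nat_lit 6) (nat_lit 1) (.cons (.kr (nat_lit 4722366482869645213952) (nat_lit 1099528404992) (nat_lit 1) (nat_lit 0)) (.cons (.kr (nat_lit 4722366482869645279232) (nat_lit 1099528404992) (nat_lit 2) (nat_lit 0)) (.cons (.rf (nat_lit 3053) (nat_lit 493858305440582043680)) (.cons (.br (nat_lit 6) (nat_lit 1) (.cons (.kr (nat_lit 4722366482869645213952) (nat_lit 1099528404992) (nat_lit 1) (nat_lit 0)) (.cons (.kr (nat_lit 4722366482869645279232) (nat_lit 1099528404992) (nat_lit 2) (nat_lit 0)) (.cons (.rf (nat_lit 3053) (nat_lit 493858305440582043680)) .nil)))) .nil))))),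
 (.br (nat_lit 2) (nat_lit 0) (.cons (.kr (nat_lit 20361637766165934761540795236608) (nat_lit 309485028268089142434398208) (nat_lit 1) (nat_lit 0)) (.cons (.kr (nat_lit 40644047369817605185488046522624) (nat_lit 309489750634572012079611904) (nat_lit 1) (nat_lit 0)) .nil))),
 (.br (nat_lit 7) (nat_lit 0) (.cons (.br (nat_lit 2) (nat_lit 0) (.cons (.ev (nat_lit 20838866088088664808387970008836) (nat_lit 3)) .nil)) (.cons (.kr (nat_lit 3631499825327856680960256) (nat_lit 40644047369817749300676139155456) (nat_lit 1) (nat_lit 0)) .nil))),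
 (.br (nat_lit 6) (nat_lit 1) (.cons (.kr (nat_lit 20282409603651742482640834396416) (nat_lit 79228171958997303332834574336) (nat_lit 1) (nat_lit 0)) .nil))]

theorem c106 : chkAll C T R L106 (nat_lit 3033) = true := by decide +kernel

theorem l106 : (nat_lit 3033) + L106.length = (nat_lit 3058) := by decide +kernel

/-- part of the certificates -/
def L107 : List Prf := [(.br (nat_lit 10) (nat_lit 1) (.cons (.rf (nat_lit 3057) (nat_lit 493858305440582043680)) (.cons (.rf (nat_lit 3057) (nat_lit 493858305440582042688)) .nil))),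
 (.br (nat_lit 6) (nat_lit 1) (.cons (.zr (nat_lit 237684496987525978519939121152) (nat_lit 310693954087985250880716801) (nat_lit 5) (nat_lit 4)) .nil)),
 (.br (nat_lit 4) (nat_lit 1) (.cons (.zr (nat_lit 158456334473261640926395170816) (nat_lit 20282410812577490320055697670145) (nat_lit 5) (nat_lit 4)) (.cons (.br (nat_lit 2) (nat_lit 0) (.cons (.zr (nat_lit 237684496987525978519939055872) (nat_lit 310693954087985250880716801) (nat_lit 5) (nat_lit 4)) .nil)) .nil))),
 (.br (nat_lit 11) (nat_lit 1) (.cons (.rf (nat_lit 3052) (nat_lit 493858305440582043680)) (.cons (.rf (nat_lit 3052) (nat_lit 493858305440582042688)) (.cons (.rf (nat_lit 3054) (nat_lit 493858305440582043680)) (.cons (.br (nat_lit 13) (nat_lit 0) (.cons (.kr (nat_lit 4722366482869645213696) (nat_lit 20282409603651670423947251286016) (nat_lit 9) (nat_lit 0)) (.cons (.br (nat_lit 8) (nat_lit 1) (.cons (.rf (nat_lit 3032) (nat_lit 458082801744999450656)) (.cons (.rf (nat_lit 3032) (nat_lit 458082801744999449664)) (.cons (.br (nat_lit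 10) (nat_lit 1) (.cons (.rf (nat_lit 3055) (nat_lit 493858305440582043680)) (.cons (.rf (nat_lit 3055) (nat_lit 493858305440582042688)) (.cons (.rf (nat_lit 2965) (nat_lit 493857146555326367776)) .nil)))) (.cons (.kr (nat_lit 4740813226943354765312) (nat_lit 20361637766165934761540795236352) (nat_lit 8) (nat_lit 0)) .nil))))) (.cons (.br (nat_lit 5) (nat_lit 0) (.cons (.zr (nat_lit 158456334473261642025906733056) (nat_lit 20282719088679938513093980585985) (nat_lit 5) (nat_lit 4)) (.cons (.br (nat_lit 4) (nat_lit 1) (.cons (.rf (nat_lit 3056) (nat_lit 493858305440582043680)) (.cons (.rf (nat_lit 3056) (nat_lit 493858305440582042688)) (.cons (.rf (nat_lit 3058) (nat_lit 493858305440582043680)) .nil)))) (.cons (.br (nat_lit 7) (nat_lit 0) (.cons (.zr (nat_lit 40564819207303557023975168016384) (nat_lit 310708121187152384839647233) (nat_lit 5) (nat_lit 0)) (.cons (.br (nat_lit 4) (nat_lit 1) (.cons (.rf (nat_lit 3059) (nat_lit 493858305440582043680)) (.cons (.rf (nat_lit 3059) (nat_lit 493858305440582042688))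 .nil))) .nil))) .nil)))) (.cons (.br (nat_lit 7) (nat_lit 0) (.cons (.br (nat_lit 5) (nat_lit 0) (.cons (.rf (nat_lit 3058) (nat_lit 493856055839791613984)) (.cons (.rf (nat_lit 2009) (nat_lit 15429723999871010848)) .nil))) (.cons (.br (nat_lit 6) (nat_lit 1) (.cons (.rf (nat_lit 3060) (nat_lit 493858305440582043680)) (.cons (.rf (nat_lit 3060) (nat_lit 493858305440582042688)) (.cons (.br (nat_lit 2) (nat_lit 0) (.cons (.br (nat_lit 8) (nat_lit 1) (.cons (.ev (nat_lit 20680409753615547284848623682308) (nat_lit 3)) .nil)) (.cons (.br (nat_lit 4) (nat_lit 1) (.cons (.ev (nat_lit 20680409753615547284848623421188) (nat_lit 3)) .nil)) .nil))) .nil)))) (.cons (.br (nat_lit 6) (nat_lit 1) (.cons (.rf (nat_lit 2935) (nat_lit 457935415509834106912)) (.cons (.rf (nat_lit 2935) (nat_lit 457935415509834105920)) (.cons (.br (nat_lit 1) (nat_lit 0) (.cons (.kr (nat_lit 9500073197960419082752) (nat_lit 20440865928680271157827922296832) (nat_lit 1) (nat_lit 0)) (.cons (.kr (nat_lit 9463179709812999979520)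 (nat_lit 20282409603651742482640834396160) (nat_lit 1) (nat_lit 0)) .nil))) .nil)))) .nil)))) .nil))))) .nil))))),
 (.br (nat_lit 9) (nat_lit 1) (.cons (.rf (nat_lit 3032) (nat_lit 493858305440582043680)) (.cons (.rf (nat_lit 3032) (nat_lit 493858305440582042688)) (.cons (.br (nat_lit 13) (nat_lit 0) (.cons (.rf (nat_lit 3035) (nat_lit 493858305440582043680)) (.cons (.rf (nat_lit 3041) (nat_lit 493858305440582043680)) (.cons (.rf (nat_lit 3043) (nat_lit 493858305440582043680)) (.cons (.rf (nat_lit 3044) (nat_lit 493858305440582043680)) (.cons (.br (nat_lit 13) (nat_lit 0) (.cons (.rf (nat_lit 3035) (nat_lit 493858305440582043680)) (.cons (.rf (nat_lit 3041) (nat_lit 493858305440582043680)) (.cons (.rf (nat_lit 3043) (nat_lit 493858305440582043680)) (.cons (.rf (nat_lit 3044) (nat_lit 493858305440582043680)) .nil))))) .nil)))))) (.cons (.br (nat_lit 11) (nat_lit 1) (.cons (.rf (nat_lit 3052) (nat_lit 493858305440582043680)) (.cons (.rf (nat_lit 3052) (nat_lit 493858305440582042688)) (.cons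 (.rf (nat_lit 3054) (nat_lit 493858305440582043680)) (.cons (.rf (nat_lit 3061) (nat_lit 493858305440582043680)) (.cons (.br (nat_lit 11) (nat_lit 1) (.cons (.rf (nat_lit 3052) (nat_lit 493858305440582043680)) (.cons (.rf (nat_lit 3052) (nat_lit 493858305440582042688)) (.cons (.rf (nat_lit 3054) (nat_lit 493858305440582043680)) (.cons (.rf (nat_lit 3061) (nat_lit 493858305440582043680)) .nil))))) .nil)))))) .nil))))),
 (.br (nat_lit 13) (nat_lit 0) (.cons (.br (nat_lit 5) (nat_lit 0) (.cons (.rf (nat_lit 2009) (nat_lit 15429548009358198816)) (.cons (.br (nat_lit 1) (nat_lit 0) (.cons (.br (nat_lit 11) (nat_lit 1) (.cons (.ev (nat_lit 309485028268371721217638401) (nat_lit 1)) .nil)) (.cons (.br (nat_lit 2) (nat_lit 0) (.cons (.ev (nat_lit 309485028268371721217638401) (nat_lit 1)) .nil)) .nil))) .nil))) (.cons (.rf (nat_lit 3062) (nat_lit 458082801744999450656)) .nil))),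
 (.br (nat_lit 13) (nat_lit 0) (.cons (.rf (nat_lit 3063) (nat_lit 493858305440582043680)) (.cons (.br (nat_lit 5) (nat_lit 0) (.cons (.br (nat_lit 1) (nat_lit 0) (.cons (.br (nat_lit 11) (nat_lit 1) (.cons (.ev (nat_lit 309485028268371721217704193) (nat_lit 1)) .nil)) (.cons (.br (nat_lit 2) (nat_lit 0) (.cons (.ev (nat_lit 309485028268371721217704193) (nat_lit 1)) .nil)) .nil))) (.cons (.kr (nat_lit 309485009821345068724781056) (nat_lit 20282409603651670423947251286016) (nat_lit 11) (nat_lit 0)) .nil))) .nil))),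
 (.br (nat_lit 13) (nat_lit 0) (.cons (.rf (nat_lit 2998) (nat_lit 458082801744999450656)) (.cons (.br (nat_lit 8) (nat_lit 1) (.cons (.rf (nat_lit 3032) (nat_lit 458082801744999450656)) (.cons (.rf (nat_lit 3032) (nat_lit 458082801744999449664)) (.cons (.kr (nat_lit 4740813226943354765312) (nat_lit 20361637766165934761540795236352) (nat_lit 8) (nat_lit 0)) .nil)))) .nil))),
 (.br (nat_lit 1) (nat_lit 0) (.cons (.ev (nat_lit 20282410812595937064129424064513) (nat_lit 1)) (.cons (.kr (nat_lit 20282409603651670423947268063232) (nat_lit 4722366764344621924352) (nat_lit 3) (nat_lit 0)) (.cons (.ev (nat_lit 310693935641242276682792961) (nat_lit 1)) .nil)))),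
 (.br (nat_lit 13) (nat_lit 0) (.cons (.rf (nat_lit 2998) (nat_lit 458082801744999450656)) (.cons (.br (nat_lit 5) (nat_lit 0) (.cons (.br (nat_lit 2) (nat_lit 0) (.cons (.rf (nat_lit 3066) (nat_lit 493858305440582043680)) (.cons (.br (nat_lit 1) (nat_lit 0) (.cons (.ev (nat_lit 310693935641242276682792961) (nat_lit 1)) .nil)) .nil))) (.cons (.rf (nat_lit 2009) (nat_lit 15431975731030231072)) .nil))) .nil))),
 (.br (nat_lit 2) (nat_lit 0) (.cons (.ev (nat_lit 20520713070696092874245560271620) (nat_lit 3)) .nil)),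
 (.br (nat_lit 13) (nat_lit 0) (.cons (.rf (nat_lit 2998) (nat_lit 458082801744999450656)) (.cons (.br (nat_lit 5) (nat_lit 0) (.cons (.br (nat_lit 8) (nat_lit 1) (.cons (.rf (nat_lit 3068) (nat_lit 493858305440582043680)) (.cons (.rf (nat_lit 3068) (nat_lit 493858305440582042688)) .nil))) (.cons (.ev (nat_lit 20361637766165934762644618608641) (nat_lit 1)) (.cons (.br (nat_lit 6) (nat_lit 1) (.cons (.rf (nat_lit 3010) (nat_lit 493858305440582042688)) (.cons (.rf (nat_lit 3010) (nat_lit 493858305440582043680)) .nil))) .nil)))) (.cons (.br (nat_lit 8) (nat_lit 1) (.cons (.rf (nat_lit 3032) (nat_lit 458082801744999450656)) (.cons (.rf (nat_lit 3032) (nat_lit 458082801744999449664)) (.cons (.kr (nat_lit 4740813226943354765312) (nat_lit 20361637766165934761540795236352) (nat_lit 8) (nat_lit 0)) .nil)))) .nil)))),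
 (.br (nat_lit 2) (nat_lit 0) (.cons (.kr (nat_lit 256) (nat_lit 65536) (nat_lit 1) (nat_lit 0)) (.cons (.br (nat_lit 5) (nat_lit 0) (.cons (.ev (nat_lit 310693935641242276682792961) (nat_lit 1)) .nil)) .nil))),
 (.br (nat_lit 13) (nat_lit 0) (.cons (.rf (nat_lit 2998) (nat_lit 458082801744999450656)) (.cons (.ev (nat_lit 1208944338416301233930241) (nat_lit 1)) (.cons (.br (nat_lit 1) (nat_lit 0) (.cons (.rf (nat_lit 3070) (nat_lit 493858305440582043680)) (.cons (.br (nat_lit 2) (nat_lit 0) (.cons (.rf (nat_lit 3070) (nat_lit 493858305440582042688)) .nil)) .nil))) .nil)))),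
 (.br (nat_lit 2) (nat_lit 0) (.cons (.kr (nat_lit 20361637775610667727280085664512) (nat_lit 618970019714748831032737792) (nat_lit 1) (nat_lit 0)) .nil)),
 (.br (nat_lit 13) (nat_lit 0) (.cons (.rf (nat_lit 3069) (nat_lit 493858305440582043680)) (.cons (.ev (nat_lit 1208944338416301233930241) (nat_lit 1)) (.cons (.br (nat_lit 5) (nat_lit 0) (.cons (.br (nat_lit 6) (nat_lit 1) (.cons (.rf (nat_lit 3072) (nat_lit 493858305440582043680)) (.cons (.rf (nat_lit 3072) (nat_lit 493858305440582042688)) .nil))) (.cons (.br (nat_lit 6) (nat_lit 1) (.cons (.kr (nat_lit 20361637775610667727280085664256) (nat_lit 618970019714748831032672256) (nat_lit 1) (nat_lit 0)) (.cons (.kr (nat_lit 20361637775610667727280085794816) (nat_lit 618970019714748831032672256) (nat_lit 2) (nat_lit 0)) .nil))) .nil))) .nil)))),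
 (.br (nat_lit 7) (nat_lit 0) (.cons (.ev (nat_lit 72057598349672449) (nat_lit 1)) (.cons (.br (nat_lit 13) (nat_lit 0) (.cons (.rf (nat_lit 3063) (nat_lit 493858305440582043680)) (.cons (.rf (nat_lit 3064) (nat_lit 493858305440582043680)) (.cons (.br (nat_lit 13) (nat_lit 0) (.cons (.rf (nat_lit 3062) (nat_lit 458082801744999450656)) (.cons (.rf (nat_lit 3064) (nat_lit 493858305440582043680)) .nil))) .nil)))) (.cons (.br (nat_lit 13) (nat_lit 0) (.cons (.rf (nat_lit 3065) (nat_lit 493858305440582043680)) (.cons (.rf (nat_lit 3067) (nat_lit 493858305440582043680)) (.cons (.br (nat_lit 13) (nat_lit 0) (.cons (.rf (nat_lit 3065) (nat_lit 493858305440582043680)) (.cons (.rf (nat_lit 3067) (nat_lit 493858305440582043680)) .nil))) .nil)))) (.cons (.br (nat_lit 13) (nat_lit 0) (.cons (.rf (nat_lit 3069) (nat_lit 493858305440582043680)) (.cons (.rf (nat_lit 3071) (nat_lit 493858305440582043680)) (.cons (.rf (nat_lit 3073) (nat_lit 493858305440582043680)) (.cons (.br (nat_lit 13) (nat_lit 0) (.cons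 (.rf (nat_lit 3069) (nat_lit 493858305440582043680)) (.cons (.rf (nat_lit 3071) (nat_lit 493858305440582043680)) (.cons (.rf (nat_lit 3073) (nat_lit 493858305440582043680)) .nil)))) .nil))))) .nil))))),
 (.br (nat_lit 13) (nat_lit 0) (.cons (.ev (nat_lit 79228162532711364241758617601) (nat_lit 1)) (.cons (.br (nat_lit 7) (nat_lit 0) (.cons (.br (nat_lit 11) (nat_lit 1) (.cons (.ev (nat_lit 20678555318151164359912774962696) (nat_lit 4)) (.cons (.ev (nat_lit 20678555318151164359912775876616) (nat_lit 4)) .nil))) (.cons (.ev (nat_lit 1208944338416301233930241) (nat_lit 1)) .nil))) (.cons (.br (nat_lit 7) (nat_lit 0) (.cons (.ev (nat_lit 20520094105380082532541926473730) (nat_lit 2)) (.cons (.br (nat_lit 1) (nat_lit 0) (.cons (.kr (nat_lit 79228167255077564536898716160) (nat_lit 1208925891673322757816320) (nat_lit 1) (nat_lit 0)) (.cons (.kr (nat_lit 79228176736704018423608246784) (nat_lit 40564822834080871750475609800704) (nat_lit 1) (nat_lit 0)) .nil))) (.cons (.br (nat_lit 6) (nat_lit 1) (.cons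 (.kr (nat_lit 9463179709812999979520) (nat_lit 309485009893403762307891200) (nat_lit 1) (nat_lit 0)) (.cons (.kr (nat_lit 9463179709813000110080) (nat_lit 309485009893403762307891200) (nat_lit 2) (nat_lit 0)) .nil))) .nil)))) .nil)))),
 (.br (nat_lit 13) (nat_lit 0) (.cons (.rf (nat_lit 3075) (nat_lit 493858305440582043680)) (.cons (.ev (nat_lit 79228162532711364241758617601) (nat_lit 1)) (.cons (.br (nat_lit 7) (nat_lit 0) (.cons (.ev (nat_lit 79228162532783139265603174401) (nat_lit 1)) (.cons (.ev (nat_lit 20361638975110273459312710909953) (nat_lit 1)) (.cons (.br (nat_lit 2) (nat_lit 0) (.cons (.kr (nat_lit 309494509894543029143994368) (nat_lit 40723275532331941581775173582848) (nat_lit 2) (nat_lit 0)) (.cons (.kr (nat_lit 9463179709813000110080) (nat_lit 309485009893403762307891200) (nat_lit 2) (nat_lit 0)) .nil))) .nil)))) .nil)))),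
 (.br (nat_lit 13) (nat_lit 0) (.cons (.rf (nat_lit 2998) (nat_lit 458117738729117419552)) (.cons (.rf (nat_lit 2998) (nat_lit 458082801744999450656)) .nil))),
 (.br (nat_lit 11) (nat_lit 1) (.cons (.kr (nat_lit 256) (nat_lit 65536) (nat_lit 1) (nat_lit 0)) (.cons (.br (nat_lit 8) (nat_lit 1) (.cons (.ev (nat_lit 79537652264898910705135124481) (nat_lit 1)) (.cons (.rf (nat_lit 3077) (nat_lit 493858305440582043680)) .nil))) (.cons (.br (nat_lit 2) (nat_lit 0) (.cons (.br (nat_lit 13) (nat_lit 0) (.cons (.zr (nat_lit 2427296372194997656617472) (nat_lit 79537647524085964141540474881) (nat_lit 5) (nat_lit 11)) (.cons (.br (nat_lit 6) (nat_lit 1) (.cons (.ev (nat_lit 20680407345282572115028681491716) (nat_lit 3)) .nil)) .nil))) (.cons (.br (nat_lit 4) (nat_lit 1) (.cons (.ev (nat_lit 79229371440156009821068394753) (nat_lit 1)) (.cons (.zr (nat_lit 3640944558292496476537088) (nat_lit 20441175413690020725682335645697) (nat_lit 5) (nat_lit 11)) .nil))) (.cons (.br (nat_lit 4) (nat_lit 1) (.cons (.ev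 (nat_lit 79228167236630821567012602113) (nat_lit 1)) (.cons (.br (nat_lit 6) (nat_lit 1) (.cons (.ev (nat_lit 20680407345282572115028681491716) (nat_lit 3)) .nil)) .nil))) .nil)))) .nil)))),
 (.br (nat_lit 1) (nat_lit 0) (.cons (.br (nat_lit 8) (nat_lit 1) (.cons (.kr (nat_lit 20361637766165934761540795237120) (nat_lit 72058693583175680) (nat_lit 1) (nat_lit 0)) .nil)) (.cons (.br (nat_lit 2) (nat_lit 0) (.cons (.kr (nat_lit 72058693583110400) (nat_lit 20361637766165934761540795432960) (nat_lit 1) (nat_lit 0)) .nil)) .nil))),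
 (.br (nat_lit 11) (nat_lit 1) (.cons (.rf (nat_lit 3078) (nat_lit 493858305440582043680)) (.cons (.rf (nat_lit 3078) (nat_lit 493858305440582042688)) (.cons (.br (nat_lit 13) (nat_lit 0) (.cons (.rf (nat_lit 3079) (nat_lit 493858305440582043680)) (.cons (.ev (nat_lit 79537647524158021731300147201) (nat_lit 1)) (.cons (.br (nat_lit 1) (nat_lit 0) (.cons (.br (nat_lit 6) (nat_lit 1) (.cons (.ev (nat_lit 1213648186380077603225601) (nat_lit 1)) .nil)) (.cons (.br (nat_lit 2) (nat_lit 0) (.cons (.ev (nat_lit 1213648186380077603225601) (nat_lit 1)) .nil)) .nil))) .nil)))) .nil)))),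
 (.br (nat_lit 2) (nat_lit 0) (.cons (.kr (nat_lit 256) (nat_lit 65536) (nat_lit 1) (nat_lit 0)) (.cons (.kr (nat_lit 4722366482869645213952) (nat_lit 72057594037993472) (nat_lit 1) (nat_lit 0)) .nil))),
 (.br (nat_lit 4) (nat_lit 1) (.cons (.br (nat_lit 8) (nat_lit 1) (.cons (.ev (nat_lit 72339073309671681) (nat_lit 1)) (.cons (.br (nat_lit 11) (nat_lit 1) (.cons (.ev (nat_lit 309485028268371721217704193) (nat_lit 1)) (.cons (.ev (nat_lit 79537647524085965241052037121) (nat_lit 1)) .nil))) .nil))) (.cons (.br (nat_lit 10) (nat_lit 1) (.cons (.br (nat_lit 11) (nat_lit 1) (.cons (.ev (nat_lit 309489732259885536719732993) (nat_lit 1)) .nil)) (.cons (.br (nat_lit 13) (nat_lit 0) (.cons (.rf (nat_lit 3081) (nat_lit 15433072045017106464)) (.cons (.kr (nat_lit 309485009821345068724781056) (nat_lit 20282409603651670423947251286016) (nat_lit 11) (nat_lit 0)) .nil))) .nil))) (.cons (.br (nat_lit 2) (nat_lit 0) (.cons (.br (nat_lit 7) (nat_lit 0) (.cons (.rf (nat_lit 2970) (nat_lit 15430819110224758816))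 (.cons (.br (nat_lit 13) (nat_lit 0) (.cons (.ev (nat_lit 20361642630240666457459686573828) (nat_lit 3)) .nil)) .nil))) (.cons (.br (nat_lit 13) (nat_lit 0) (.cons (.rf (nat_lit 2998) (nat_lit 458117738729117419552)) (.cons (.zr (nat_lit 159384780057992710393279086592) (nat_lit 20282410817299856802925342883841) (nat_lit 5) (nat_lit 10)) .nil))) (.cons (.ev (nat_lit 79537647524085965241052037121) (nat_lit 1)) .nil)))) .nil)))),
 (.br (nat_lit 10) (nat_lit 1) (.cons (.br (nat_lit 8) (nat_lit 1) (.cons (.br (nat_lit 13) (nat_lit 0) (.cons (.ev (nat_lit 20837014004362357441839178776836) (nat_lit 3)) .nil)) .nil)) (.cons (.br (nat_lit 11) (nat_lit 1) (.cons (.ev (nat_lit 310693935641242276682858753) (nat_lit 1)) (.cons (.kr (nat_lit 309485009821345068724781056) (nat_lit 20282409603651670423947251286016) (nat_lit 11) (nat_lit 0)) .nil))) .nil)))]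

theorem c107 : chkAll C T R L107 (nat_lit 3058) = true := by decide +kernel

theorem l107 : (nat_lit 3058) + L107.length = (nat_lit 3084) := by decide +kernel

/-- part of the certificates -/
def L108 : List Prf := [(.br (nat_lit 4) (nat_lit 1) (.cons (.kr (nat_lit 1103806595328) (nat_lit 72339069014704128) (nat_lit 1) (nat_lit 0)) .nil)),
 (.br (nat_lit 5) (nat_lit 0) (.cons (.rf (nat_lit 3074) (nat_lit 493858305440582043680)) (.cons (.br (nat_lit 13) (nat_lit 0) (.cons (.rf (nat_lit 3075) (nat_lit 493858305440582043680)) (.cons (.ev (nat_lit 79228162532711364241758617601) (nat_lit 1)) (.cons (.rf (nat_lit 3076) (nat_lit 493858305440582043680)) (.cons (.br (nat_lit 13) (nat_lit 0) (.cons (.rf (nat_lit 3075) (nat_lit 493858305440582043680)) (.cons (.ev (nat_lit 79228162532711364241758617601) (nat_lit 1)) (.cons (.rf (nat_lit 3076) (nat_lit 493858305440582043680)) .nil)))) .nil))))) (.cons (.br (nat_lit 11) (nat_lit 1) (.cons (.rf (nat_lit 3078) (nat_lit 493858305440582043680)) (.cons (.rf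 (nat_lit 3078) (nat_lit 493858305440582042688)) (.cons (.rf (nat_lit 3080) (nat_lit 493858305440582043680)) (.cons (.br (nat_lit 11) (nat_lit 1) (.cons (.rf (nat_lit 3078) (nat_lit 493858305440582043680)) (.cons (.rf (nat_lit 3078) (nat_lit 493858305440582042688)) (.cons (.rf (nat_lit 3080) (nat_lit 493858305440582043680)) .nil)))) .nil))))) (.cons (.br (nat_lit 6) (nat_lit 1) (.cons (.rf (nat_lit 3082) (nat_lit 493858305440582043680)) (.cons (.rf (nat_lit 3082) (nat_lit 493858305440582042688)) (.cons (.br (nat_lit 4) (nat_lit 1) (.cons (.rf (nat_lit 3083) (nat_lit 493858305440582043680)) (.cons (.rf (nat_lit 3083) (nat_lit 493858305440582042688)) (.cons (.br (nat_lit 13) (nat_lit 0) (.cons (.ev (nat_lit 20361637770906748271058655117313) (nat_lit 1)) (.cons (.br (nat_lit 8) (nat_lit 1) (.cons (.rf (nat_lit 2782) (nat_lit 458009550086700368960)) (.cons (.rf (nat_lit 2782) (nat_lit 458009550086700369952)) .nil))) (.cons (.br (nat_lit 1) (nat_lit 0) (.cons (.br (nat_lit 10) (nat_lit 1) (.cons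 (.ev (nat_lit 20837014004362357441839178776836) (nat_lit 3)) .nil)) (.cons (.br (nat_lit 8) (nat_lit 1) (.cons (.ev (nat_lit 20837014004362357441839178515716) (nat_lit 3)) .nil)) .nil))) .nil)))) .nil)))) (.cons (.br (nat_lit 13) (nat_lit 0) (.cons (.rf (nat_lit 2870) (nat_lit 458117738729117419552)) (.cons (.ev (nat_lit 20282409608374037189391401615361) (nat_lit 1)) (.cons (.br (nat_lit 1) (nat_lit 0) (.cons (.br (nat_lit 2) (nat_lit 0) (.cons (.ev (nat_lit 20361638975110201402822462799873) (nat_lit 1)) (.cons (.ev (nat_lit 79537647524085965241052037121) (nat_lit 1)) .nil))) (.cons (.br (nat_lit 2) (nat_lit 0) (.cons (.ev (nat_lit 20361638975110201402822462799873) (nat_lit 1)) (.cons (.rf (nat_lit 3084) (nat_lit 493858305440582043680)) .nil))) (.cons (.br (nat_lit 2) (nat_lit 0) (.cons (.ev (nat_lit 79537647524085965241052037121) (nat_lit 1)) (.cons (.rf (nat_lit 3084) (nat_lit 493858305440582042688)) .nil))) .nil)))) (.cons (.br (nat_lit 7) (nat_lit 0) (.cons (.ev (nat_lit 20282409608374108964415246172161)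 (nat_lit 1)) (.cons (.rf (nat_lit 3062) (nat_lit 458082801744999450656)) (.cons (.ev (nat_lit 1213648258436567851335681) (nat_lit 1)) .nil)))) .nil))))) .nil))))) .nil))))),
 (.br (nat_lit 10) (nat_lit 1) (.cons (.kr (nat_lit 4740813226943354831104) (nat_lit 72058693583110144) (nat_lit 1) (nat_lit 0)) (.cons (.br (nat_lit 7) (nat_lit 0) (.cons (.zr (nat_lit 79228162514336396287093637632) (nat_lit 1208925819896108479938561) (nat_lit 5) (nat_lit 0)) (.cons (.br (nat_lit 6) (nat_lit 1) (.cons (.zr (nat_lit 9481626453886726308608) (nat_lit 310693935641241177171296257) (nat_lit 5) (nat_lit 4)) .nil)) .nil))) .nil))),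
 (.br (nat_lit 6) (nat_lit 1) (.cons (.rf (nat_lit 3086) (nat_lit 493858305440582043680)) (.cons (.br (nat_lit 2) (nat_lit 0) (.cons (.zr (nat_lit 79228162514408454980643127552) (nat_lit 1213666633123051801149441) (nat_lit 5) (nat_lit 0)) (.cons (.ev (nat_lit 282574505181441) (nat_lit 1)) .nil))) .nil))),
 (.br (nat_lit 6) (nat_lit 1) (.cons (.rf (nat_lit 3086) (nat_lit 493858305440582043680)) (.cons (.rf (nat_lit 3087) (nat_lit 493858305440582043680)) (.cons (.br (nat_lit 6) (nat_lit 1) (.cons (.rf (nat_lit 3086) (nat_lit 493858305440582043680)) (.cons (.rf (nat_lit 3087) (nat_lit 493858305440582043680)) .nil))) .nil)))),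
 (.br (nat_lit 5) (nat_lit 0) (.cons (.rf (nat_lit 3074) (nat_lit 493858305440582043680)) (.cons (.rf (nat_lit 3085) (nat_lit 493858305440582043680)) (.cons (.br (nat_lit 7) (nat_lit 0) (.cons (.ev (nat_lit 79228162532783139265603174401) (nat_lit 1)) (.cons (.br (nat_lit 13) (nat_lit 0) (.cons (.br (nat_lit 13) (nat_lit 0) (.cons (.rf (nat_lit 2870) (nat_lit 458117738729117419552)) (.cons (.rf (nat_lit 3079) (nat_lit 458080552146354407456)) .nil))) (.cons (.br (nat_lit 13) (nat_lit 0) (.cons (.rf (nat_lit 2870) (nat_lit 458117738729117419552)) (.cons (.kr (nat_lit 4740813226943354765312) (nat_lit 20361637766165934761540795236352) (nat_lit 8) (nat_lit 0)) .nil))) (.cons (.br (nat_lit 13) (nat_lit 0) (.cons (.rf (nat_lit 3079) (nat_lit 458080552146354407456)) (.cons (.kr (nat_lit 4740813226943354765312) (nat_lit 20361637766165934761540795236352) (nat_lit 8) (nat_lit 0)) .nil))) .nil)))) (.cons (.br (nat_lit 11) (nat_lit 1) (.cons (.rf (nat_lit 2696) (nat_lit 458082801744999450656)) (.cons (.rf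 (nat_lit 2696) (nat_lit 458082801744999449664)) (.cons (.br (nat_lit 13) (nat_lit 0) (.cons (.br (nat_lit 6) (nat_lit 1) (.cons (.kr (nat_lit 20361637766165934761540795236864) (nat_lit 72058693583110144) (nat_lit 1) (nat_lit 0)) (.cons (.kr (nat_lit 20361637766165934761540795367424) (nat_lit 72058693583110144) (nat_lit 2) (nat_lit 0)) .nil))) (.cons (.kr (nat_lit 4740813226943354765312) (nat_lit 20361637766165934761540795236352) (nat_lit 8) (nat_lit 0)) .nil))) .nil)))) .nil)))) (.cons (.br (nat_lit 4) (nat_lit 1) (.cons (.rf (nat_lit 3088) (nat_lit 493858305440582043680)) (.cons (.rf (nat_lit 3088) (nat_lit 493858305440582042688)) (.cons (.ev (nat_lit 79228162532783139265603174401) (nat_lit 1)) (.cons (.br (nat_lit 13) (nat_lit 0) (.cons (.rf (nat_lit 2870) (nat_lit 458117738729117419552)) (.cons (.ev (nat_lit 20361638975110201121347502866433) (nat_lit 1)) (.cons (.br (nat_lit 7) (nat_lit 0) (.cons (.br (nat_lit 2) (nat_lit 0) (.cons (.kr (nat_lit 20282409608392483650890606182400) (nat_lit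 309485009893403762307891200) (nat_lit 2) (nat_lit 0)) (.cons (.kr (nat_lit 20282409617874110104777315713024) (nat_lit 159384780058064769086845353984) (nat_lit 2) (nat_lit 0)) .nil))) (.cons (.rf (nat_lit 2009) (nat_lit 15431980129072547872)) .nil))) .nil)))) .nil))))) .nil))))),
 (.br (nat_lit 6) (nat_lit 1) (.cons (.kr (nat_lit 256) (nat_lit 65536) (nat_lit 1) (nat_lit 0)) (.cons (.br (nat_lit 4) (nat_lit 1) (.cons (.ev (nat_lit 79228167236631103041972535553) (nat_lit 1)) (.cons (.br (nat_lit 13) (nat_lit 0) (.cons (.ev (nat_lit 20361638975110201121347502866433) (nat_lit 1)) (.cons (.rf (nat_lit 2978) (nat_lit 493857214725047289888)) .nil))) .nil))) (.cons (.br (nat_lit 13) (nat_lit 0) (.cons (.rf (nat_lit 2870) (nat_lit 458117738729117419552)) (.cons (.rf (nat_lit 2998) (nat_lit 458082801744999450656)) (.cons (.br (nat_lit 7) (nat_lit 0) (.cons (.ev (nat_lit 20282409608374108964415246172161) (nat_lit 1)) (.cons (.kr (nat_lit 20440865928680199099134339187200) (nat_lit 18518802767292661760)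 (nat_lit 1) (nat_lit 0)) .nil))) .nil)))) .nil)))),
 (.br (nat_lit 6) (nat_lit 1) (.cons (.rf (nat_lit 3090) (nat_lit 493858305440582043680)) (.cons (.rf (nat_lit 3090) (nat_lit 493858305440582042688)) (.cons (.br (nat_lit 13) (nat_lit 0) (.cons (.rf (nat_lit 2870) (nat_lit 458117738729117419552)) (.cons (.rf (nat_lit 2998) (nat_lit 458082801744999450656)) (.cons (.ev (nat_lit 20282720302309750205583827402753) (nat_lit 1)) .nil)))) .nil)))),
 (.br (nat_lit 5) (nat_lit 0) (.cons (.rf (nat_lit 3074) (nat_lit 493858305440582043680)) (.cons (.rf (nat_lit 3085) (nat_lit 493858305440582043680)) (.cons (.rf (nat_lit 3089) (nat_lit 493858305440582043680)) (.cons (.br (nat_lit 6) (nat_lit 1) (.cons (.rf (nat_lit 3090) (nat_lit 493858305440582043680)) (.cons (.rf (nat_lit 3090) (nat_lit 493858305440582042688)) (.cons (.rf (nat_lit 3091) (nat_lit 493858305440582043680)) (.cons (.br (nat_lit 6) (nat_lit 1) (.cons (.rf (nat_lit 3090) (nat_lit 493858305440582043680)) (.cons (.rf (nat_lit 3090) (nat_lit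 493858305440582042688)) (.cons (.rf (nat_lit 3091) (nat_lit 493858305440582043680)) .nil)))) .nil))))) .nil))))),
 (.br (nat_lit 9) (nat_lit 1) (.cons (.rf (nat_lit 3032) (nat_lit 493858305440582043680)) (.cons (.rf (nat_lit 3032) (nat_lit 493858305440582042688)) (.cons (.rf (nat_lit 3062) (nat_lit 493858305440582043680)) (.cons (.br (nat_lit 5) (nat_lit 0) (.cons (.rf (nat_lit 3074) (nat_lit 493858305440582043680)) (.cons (.rf (nat_lit 3085) (nat_lit 493858305440582043680)) (.cons (.rf (nat_lit 3089) (nat_lit 493858305440582043680)) (.cons (.rf (nat_lit 3092) (nat_lit 493858305440582043680)) (.cons (.br (nat_lit 5) (nat_lit 0) (.cons (.rf (nat_lit 3074) (nat_lit 493858305440582043680)) (.cons (.rf (nat_lit 3085) (nat_lit 493858305440582043680)) (.cons (.rf (nat_lit 3089) (nat_lit 493858305440582043680)) (.cons (.rf (nat_lit 3092) (nat_lit 493858305440582043680)) .nil))))) .nil)))))) .nil))))),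
 (.br (nat_lit 9) (nat_lit 1) (.cons (.rf (nat_lit 3032) (nat_lit 493858305440582043680)) (.cons (.rf (nat_lit 3032) (nat_lit 493858305440582042688)) (.cons (.rf (nat_lit 3062) (nat_lit 493858305440582043680)) (.cons (.rf (nat_lit 3093) (nat_lit 493858305440582043680)) (.cons (.br (nat_lit 9) (nat_lit 1) (.cons (.rf (nat_lit 3032) (nat_lit 493858305440582043680)) (.cons (.rf (nat_lit 3032) (nat_lit 493858305440582042688)) (.cons (.rf (nat_lit 3062) (nat_lit 493858305440582043680)) (.cons (.rf (nat_lit 3093) (nat_lit 493858305440582043680)) .nil))))) .nil)))))),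
 (.br (nat_lit 6) (nat_lit 1) (.cons (.rf (nat_lit 2725) (nat_lit 493823400346594150432)) (.cons (.br (nat_lit 4) (nat_lit 1) (.cons (.br (nat_lit 7) (nat_lit 0) (.cons (.br (nat_lit 10) (nat_lit 1) (.cons (.ev (nat_lit 2427333338588466890408450) (nat_lit 2)) .nil)) (.cons (.ev (nat_lit 72057598349738241) (nat_lit 1)) (.cons (.ev (nat_lit 79228162514336677762070216961) (nat_lit 1)) .nil)))) (.cons (.br (nat_lit 11) (nat_lit 1) (.cons (.ev (nat_lit 79228162514336677762070216961) (nat_lit 1)) (.cons (.br (nat_lit 10) (nat_lit 1) (.cons (.ev (nat_lit 79538861172271781260600344833) (nat_lit 1)) (.cons (.br (nat_lit 5) (nat_lit 0) (.cons (.ev (nat_lit 20520096518601732835215629813508) (nat_lit 3)) .nil)) .nil))) .nil))) (.cons (.rf (nat_lit 2870) (nat_lit 458117738729117419552)) .nil)))) .nil))),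
 (.br (nat_lit 6) (nat_lit 1) (.cons (.rf (nat_lit 2725) (nat_lit 493823400346594150432)) (.cons (.rf (nat_lit 3095) (nat_lit 493858305440582043680)) (.cons (.br (nat_lit 6) (nat_lit 1) (.cons (.rf (nat_lit 2725) (nat_lit 493823400346594150432)) (.cons (.rf (nat_lit 3095) (nat_lit 493858305440582043680)) .nil))) .nil)))),
 (.br (nat_lit 2) (nat_lit 0) (.cons (.rf (nat_lit 2853) (nat_lit 493783892698006127680)) (.cons (.rf (nat_lit 2853) (nat_lit 493787270394505430080)) .nil))),
 (.br (nat_lit 6) (nat_lit 1) (.cons (.rf (nat_lit 2725) (nat_lit 493679289556564805664)) (.cons (.br (nat_lit 4) (nat_lit 1) (.cons (.br (nat_lit 11) (nat_lit 1) (.cons (.ev (nat_lit 79537647524085965236773847041) (nat_lit 1)) (.cons (.br (nat_lit 7) (nat_lit 0) (.cons (.br (nat_lit 13) (nat_lit 0) (.cons (.ev (nat_lit 79229371458530977771404984321) (nat_lit 1)) .nil)) (.cons (.br (nat_lit 13) (nat_lit 0) (.cons (.ev (nat_lit 79229371458530977771404984321) (nat_lit 1)) .nil)) .nil))) .nil))) (.cons (.br (nat_lit 10)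 (nat_lit 1) (.cons (.rf (nat_lit 3096) (nat_lit 493858305440582043680)) (.cons (.rf (nat_lit 3097) (nat_lit 493858305440582043680)) .nil))) (.cons (.rf (nat_lit 2870) (nat_lit 458117738729117419552)) .nil)))) .nil))),
 (.br (nat_lit 6) (nat_lit 1) (.cons (.rf (nat_lit 2725) (nat_lit 493679289556564805664)) (.cons (.rf (nat_lit 3098) (nat_lit 493858305440582043680)) (.cons (.br (nat_lit 6) (nat_lit 1) (.cons (.rf (nat_lit 2725) (nat_lit 493679289556564805664)) (.cons (.rf (nat_lit 3098) (nat_lit 493858305440582043680)) .nil))) .nil)))),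
 (.br (nat_lit 13) (nat_lit 0) (.cons (.rf (nat_lit 2870) (nat_lit 458117738729117419552)) (.cons (.rf (nat_lit 3094) (nat_lit 458117738729117419552)) (.cons (.br (nat_lit 7) (nat_lit 0) (.cons (.ev (nat_lit 20361948460101647778837044396033) (nat_lit 1)) (.cons (.br (nat_lit 5) (nat_lit 0) (.cons (.br (nat_lit 2) (nat_lit 0) (.cons (.ev (nat_lit 79228167255149904709736726785) (nat_lit 1)) .nil)) .nil)) .nil))) .nil)))),
 (.br (nat_lit 13) (nat_lit 0) (.cons (.rf (nat_lit 2870) (nat_lit 458117738729117419552)) (.cons (.br (nat_lit 4) (nat_lit 1) (.cons (.br (nat_lit 6) (nat_lit 1) (.cons (.ev (nat_lit 79228167236631103041972535553) (nat_lit 1)) (.cons (.ev (nat_lit 1213648258436572129525761) (nat_lit 1)) .nil))) (.cons (.br (nat_lit 2) (nat_lit 0) (.cons (.ev (nat_lit 79228167236631103041972535553) (nat_lit 1)) (.cons (.br (nat_lit 7) (nat_lit 0) (.cons (.ev (nat_lit 20838868515348287634841526142724) (nat_lit 3)) .nil)) .nil))) (.cons (.br (nat_lit 2) (nat_lit 0) (.cons (.br (nat_lit 11) (nat_lit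 1) (.cons (.zr (nat_lit 9444949701471374409728) (nat_lit 310693954087703775904137217) (nat_lit 5) (nat_lit 4)) .nil)) (.cons (.ev (nat_lit 309489732259885532407922689) (nat_lit 1)) .nil))) .nil)))) (.cons (.br (nat_lit 6) (nat_lit 1) (.cons (.br (nat_lit 5) (nat_lit 0) (.cons (.ev (nat_lit 79228167236631103041972535553) (nat_lit 1)) (.cons (.br (nat_lit 7) (nat_lit 0) (.cons (.zr (nat_lit 9444949701471374409728) (nat_lit 310693954087703775904137217) (nat_lit 5) (nat_lit 4)) .nil)) .nil))) (.cons (.br (nat_lit 4) (nat_lit 1) (.cons (.ev (nat_lit 79228167236631103041972535553) (nat_lit 1)) (.cons (.rf (nat_lit 3006) (nat_lit 493823402543469922336)) .nil))) (.cons (.ev (nat_lit 20361637766166007100609826652161) (nat_lit 1)) .nil)))) .nil)))),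
 (.br (nat_lit 13) (nat_lit 0) (.cons (.rf (nat_lit 3094) (nat_lit 458117738729117419552)) (.cons (.rf (nat_lit 3101) (nat_lit 493858305440582043680)) (.cons (.br (nat_lit 5) (nat_lit 0) (.cons (.br (nat_lit 6) (nat_lit 1) (.cons (.ev (nat_lit 79537647542532426740273315841) (nat_lit 1)) (.cons (.ev (nat_lit 20282719088680010571787530141953) (nat_lit 1)) .nil))) (.cons (.br (nat_lit 7) (nat_lit 0) (.cons (.ev (nat_lit 310693954159762469453562113) (nat_lit 1)) (.cons (.ev (nat_lit 20282410812596009122818661810433) (nat_lit 1)) .nil))) .nil))) .nil)))),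
 (.br (nat_lit 10) (nat_lit 1) (.cons (.rf (nat_lit 3096) (nat_lit 493858305440582043680)) (.cons (.rf (nat_lit 3099) (nat_lit 493858305440582043680)) (.cons (.br (nat_lit 13) (nat_lit 0) (.cons (.rf (nat_lit 3100) (nat_lit 493858305440582043680)) (.cons (.rf (nat_lit 3101) (nat_lit 493858305440582043680)) (.cons (.rf (nat_lit 3102) (nat_lit 493858305440582043680)) (.cons (.br (nat_lit 13) (nat_lit 0) (.cons (.rf (nat_lit 3100) (nat_lit 493858305440582043680)) (.cons (.rf (nat_lit 3101) (nat_lit 493858305440582043680)) (.cons (.rf (nat_lit 3102) (nat_lit 493858305440582043680)) .nil)))) .nil))))) .nil)))),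
 (.br (nat_lit 10) (nat_lit 1) (.cons (.rf (nat_lit 2725) (nat_lit 493787406733947274304)) (.cons (.br (nat_lit 6) (nat_lit 1) (.cons (.br (nat_lit 4) (nat_lit 1) (.cons (.br (nat_lit 11) (nat_lit 1) (.cons (.br (nat_lit 8) (nat_lit 1) (.cons (.ev (nat_lit 20838247108697930889934288388868) (nat_lit 3)) .nil)) .nil)) (.cons (.rf (nat_lit 2870) (nat_lit 458117738729117419552)) .nil))) .nil)) (.cons (.br (nat_lit 6) (nat_lit 1) (.cons (.br (nat_lit 4) (nat_lit 1) (.cons (.ev (nat_lit 72057598349672449) (nat_lit 1)) (.cons (.ev (nat_lit 1213648258436572129591553) (nat_lit 1)) .nil))) (.cons (.br (nat_lit 13) (nat_lit 0) (.cons (.rf (nat_lit 2870) (nat_lit 458117738729117419552)) (.cons (.ev (nat_lit 20282410817299856521446087983361) (nat_lit 1)) (.cons (.br (nat_lit 5) (nat_lit 0) (.cons (.zr (nat_lit 20440865928680199101333362508544) (nat_lit 310698658007724046849933313) (nat_lit 5) (nat_lit 0)) (.cons (.br (nat_lit 4) (nat_lit 1) (.cons (.ev (nat_lit 20520096518601518073119819368196) (nat_lit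 3)) .nil)) .nil))) .nil)))) .nil))) .nil)))),
 (.br (nat_lit 4) (nat_lit 1) (.cons (.ev (nat_lit 72057598349672449) (nat_lit 1)) (.cons (.br (nat_lit 6) (nat_lit 1) (.cons (.rf (nat_lit 3104) (nat_lit 493858305440582043680)) (.cons (.rf (nat_lit 2870) (nat_lit 458117738729117419552)) .nil))) .nil)))]

theorem c108 : chkAll C T R L108 (nat_lit 3084) = true := by decide +kernel

theorem l108 : (nat_lit 3084) + L108.length = (nat_lit 3106) := by decide +kernel

/-- part of the certificates -/
def L109 : List Prf := [(.br (nat_lit 6) (nat_lit 1) (.cons (.rf (nat_lit 3104) (nat_lit 493858305440582043680)) (.cons (.rf (nat_lit 3105) (nat_lit 493858305440582043680)) (.cons (.br (nat_lit 6) (nat_lit 1) (.cons (.rf (nat_lit 3104) (nat_lit 493858305440582043680)) (.cons (.rf (nat_lit 3105) (nat_lit 493858305440582043680)) .nil))) .nil)))),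
 (.br (nat_lit 6) (nat_lit 1) (.cons (.kr (nat_lit 79228162514264338693055578368) (nat_lit 1208925891672223212699648) (nat_lit 1) (nat_lit 0)) (.cons (.br (nat_lit 8) (nat_lit 1) (.cons (.br (nat_lit 13) (nat_lit 0) (.cons (.kr (nat_lit 20361637766165934762640306864384) (nat_lit 2417851711286852387405824) (nat_lit 1) (nat_lit 0)) .nil)) (.cons (.br (nat_lit 5) (nat_lit 0) (.cons (.kr (nat_lit 20361637766165934762640306864384) (nat_lit 2417851711286852387405824) (nat_lit 1) (nat_lit 0)) .nil)) .nil))) .nil))),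
 (.br (nat_lit 13) (nat_lit 0) (.cons (.rf (nat_lit 2870) (nat_lit 458117738729117419552)) (.cons (.rf (nat_lit 3094) (nat_lit 458117738729117419552)) (.cons (.br (nat_lit 8) (nat_lit 1) (.cons (.ev (nat_lit 79537647542532426740273315841) (nat_lit 1)) (.cons (.rf (nat_lit 2725) (nat_lit 457938720648224409632)) .nil))) .nil)))),
 (.br (nat_lit 4) (nat_lit 1) (.cons (.ev (nat_lit 79229371440083953326542094593) (nat_lit 1)) (.cons (.rf (nat_lit 3107) (nat_lit 493858305440582043680)) (.cons (.rf (nat_lit 3108) (nat_lit 493858305440582043680)) .nil)))),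
 (.br (nat_lit 5) (nat_lit 0) (.cons (.kr (nat_lit 20361637766165934762640306864384) (nat_lit 2417851711286852387405824) (nat_lit 1) (nat_lit 0)) .nil)),
 (.br (nat_lit 13) (nat_lit 0) (.cons (.rf (nat_lit 3110) (nat_lit 493858305440582043680)) (.cons (.rf (nat_lit 3110) (nat_lit 493750222348060035104)) .nil))),
 (.br (nat_lit 6) (nat_lit 1) (.cons (.rf (nat_lit 3109) (nat_lit 493858305440582043680)) (.cons (.rf (nat_lit 2886) (nat_lit 493821221112400414752)) (.cons (.br (nat_lit 4) (nat_lit 1) (.cons (.rf (nat_lit 3111) (nat_lit 493858305440582043680)) (.cons (.ev (nat_lit 72057598349672449) (nat_lit 1)) (.cons (.rf (nat_lit 2870) (nat_lit 458117738729117419552)) .nil)))) .nil)))),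
 (.br (nat_lit 10) (nat_lit 1) (.cons (.rf (nat_lit 3106) (nat_lit 493858305440582043680)) (.cons (.br (nat_lit 2) (nat_lit 0) (.cons (.rf (nat_lit 2587) (nat_lit 493678157062813616160)) (.cons (.br (nat_lit 6) (nat_lit 1) (.cons (.rf (nat_lit 795) (nat_lit 13974975569561632)) (.cons (.br (nat_lit 4) (nat_lit 1) (.cons (.br (nat_lit 8) (nat_lit 1) (.cons (.br (nat_lit 11) (nat_lit 1) (.cons (.ev (nat_lit 79537647542532426740273315841) (nat_lit 1)) .nil)) .nil)) (.cons (.ev (nat_lit 1213648258436572129591553) (nat_lit 1)) .nil))) .nil))) (.cons (.rf (nat_lit 2587) (nat_lit 493678161460855932960)) (.cons (.rf (nat_lit 2587) (nat_lit 493678164756169590816)) .nil))))) (.cons (.br (nat_lit 6) (nat_lit 1) (.cons (.rf (nat_lit 3109) (nat_lit 493858305440582043680)) (.cons (.rf (nat_lit 2886) (nat_lit 493821221112400414752)) (.cons (.rf (nat_lit 3112) (nat_lit 493858305440582043680)) (.cons (.br (nat_lit 6) (nat_lit 1) (.cons (.rf (nat_lit 3109) (nat_lit 493858305440582043680)) (.cons (.rf (nat_lit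 2886) (nat_lit 493821221112400414752)) (.cons (.rf (nat_lit 3112) (nat_lit 493858305440582043680)) .nil)))) .nil))))) .nil)))),
 (.br (nat_lit 4) (nat_lit 1) (.cons (.br (nat_lit 6) (nat_lit 1) (.cons (.br (nat_lit 8) (nat_lit 1) (.cons (.br (nat_lit 11) (nat_lit 1) (.cons (.ev (nat_lit 79537647542532426740273315841) (nat_lit 1)) .nil)) .nil)) (.cons (.ev (nat_lit 1213648258436572129591553) (nat_lit 1)) .nil))) (.cons (.rf (nat_lit 3108) (nat_lit 493858305440582043680)) .nil))),
 (.br (nat_lit 6) (nat_lit 1) (.cons (.rf (nat_lit 3114) (nat_lit 493858305440582043680)) (.cons (.br (nat_lit 8) (nat_lit 1) (.cons (.ev (nat_lit 79229371440156291291750138113) (nat_lit 1)) (.cons (.br (nat_lit 2) (nat_lit 0) (.cons (.ev (nat_lit 79228167255149904709736726785) (nat_lit 1)) (.cons (.ev (nat_lit 79538861227829029589294777090) (nat_lit 2)) .nil))) (.cons (.br (nat_lit 11) (nat_lit 1) (.cons (.br (nat_lit 5) (nat_lit 0) (.cons (.ev (nat_lit 20679169395687728624226592555780) (nat_lit 3)) .nil)) (.cons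 (.br (nat_lit 4) (nat_lit 1) (.cons (.ev (nat_lit 20837011605289215449241068044548) (nat_lit 3)) .nil)) .nil))) .nil)))) .nil))),
 (.br (nat_lit 10) (nat_lit 1) (.cons (.rf (nat_lit 3106) (nat_lit 493858305440582043680)) (.cons (.rf (nat_lit 3113) (nat_lit 493858305440582043680)) (.cons (.br (nat_lit 6) (nat_lit 1) (.cons (.rf (nat_lit 3114) (nat_lit 493858305440582043680)) (.cons (.rf (nat_lit 3115) (nat_lit 493858305440582043680)) (.cons (.br (nat_lit 6) (nat_lit 1) (.cons (.rf (nat_lit 3114) (nat_lit 493858305440582043680)) (.cons (.rf (nat_lit 3115) (nat_lit 493858305440582043680)) .nil))) .nil)))) .nil)))),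
 (.br (nat_lit 13) (nat_lit 0) (.cons (.rf (nat_lit 2870) (nat_lit 458117738729117419552)) (.cons (.rf (nat_lit 2998) (nat_lit 458082801744999450656)) (.cons (.rf (nat_lit 3094) (nat_lit 458082801744999450656)) .nil)))),
 (.br (nat_lit 4) (nat_lit 1) (.cons (.br (nat_lit 7) (nat_lit 0) (.cons (.kr (nat_lit 2417851711286852387340544) (nat_lit 20361637766165934762640306929664) (nat_lit 1) (nat_lit 0)) .nil)) .nil)),
 (.br (nat_lit 10) (nat_lit 1) (.cons (.br (nat_lit 6) (nat_lit 1) (.cons (.rf (nat_lit 2725) (nat_lit 493787270394505430080)) (.cons (.br (nat_lit 4) (nat_lit 1) (.cons (.br (nat_lit 8) (nat_lit 1) (.cons (.br (nat_lit 11) (nat_lit 1) (.cons (.ev (nat_lit 79537647542532426740273315841) (nat_lit 1)) .nil)) .nil)) (.cons (.ev (nat_lit 1213648258436572129525761) (nat_lit 1)) .nil))) (.cons (.rf (nat_lit 3117) (nat_lit 493858305440582043680)) .nil)))) (.cons (.br (nat_lit 5) (nat_lit 0) (.cons (.ev (nat_lit 79229371440083953326542094593) (nat_lit 1)) (.cons (.rf (nat_lit 2725) (nat_lit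 493787270394505430080)) (.cons (.br (nat_lit 11) (nat_lit 1) (.cons (.br (nat_lit 7) (nat_lit 0) (.cons (.ev (nat_lit 79537647542532426740273315841) (nat_lit 1)) (.cons (.rf (nat_lit 2947) (nat_lit 493786215960706909248)) .nil))) (.cons (.rf (nat_lit 3118) (nat_lit 493858305440582043680)) .nil))) (.cons (.br (nat_lit 8) (nat_lit 1) (.cons (.br (nat_lit 7) (nat_lit 0) (.cons (.ev (nat_lit 79537647542532426740273315841) (nat_lit 1)) (.cons (.rf (nat_lit 2947) (nat_lit 493786318215288292416)) .nil))) (.cons (.rf (nat_lit 3118) (nat_lit 493750222348060035104)) .nil))) .nil))))) .nil))),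
 (.br (nat_lit 10) (nat_lit 1) (.cons (.rf (nat_lit 3119) (nat_lit 493858305440582043680)) (.cons (.br (nat_lit 11) (nat_lit 1) (.cons (.br (nat_lit 8) (nat_lit 1) (.cons (.br (nat_lit 4) (nat_lit 1) (.cons (.ev (nat_lit 1208925891673327019229441) (nat_lit 1)) (.cons (.rf (nat_lit 2897) (nat_lit 493821221112400414752)) .nil))) (.cons (.br (nat_lit 6) (nat_lit 1) (.cons (.br (nat_lit 13) (nat_lit 0) (.cons (.zr (nat_lit 216176080682222336) (nat_lit 310698676454468120526127105) (nat_lit 5) (nat_lit 0)) .nil)) (.cons (.rf (nat_lit 2763) (nat_lit 493675911860065503264)) .nil))) (.cons (.br (nat_lit 6) (nat_lit 1) (.cons (.br (nat_lit 4) (nat_lit 1) (.cons (.zr (nat_lit 9444949701471374409728) (nat_lit 310693954087703775904137217) (nat_lit 5) (nat_lit 4)) .nil)) (.cons (.br (nat_lit 4) (nat_lit 1) (.cons (.ev (nat_lit 1213648258436572129525761) (nat_lit 1)) .nil)) .nil))) .nil)))) (.cons (.br (nat_lit 6) (nat_lit 1) (.cons (.br (nat_lit 4) (nat_lit 1) (.cons (.ev (nat_lit 79228167236631103041972469761)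 (nat_lit 1)) (.cons (.br (nat_lit 8) (nat_lit 1) (.cons (.zr (nat_lit 216176080682222336) (nat_lit 310698676454468120526127105) (nat_lit 5) (nat_lit 0)) .nil)) .nil))) (.cons (.rf (nat_lit 2763) (nat_lit 493787270394505430080)) .nil))) (.cons (.br (nat_lit 8) (nat_lit 1) (.cons (.br (nat_lit 4) (nat_lit 1) (.cons (.br (nat_lit 6) (nat_lit 1) (.cons (.ev (nat_lit 1213648258436572129525761) (nat_lit 1)) .nil)) (.cons (.br (nat_lit 5) (nat_lit 0) (.cons (.zr (nat_lit 9444949701471374409728) (nat_lit 310693954087703775904137217) (nat_lit 5) (nat_lit 4)) .nil)) .nil))) (.cons (.br (nat_lit 4) (nat_lit 1) (.cons (.br (nat_lit 6) (nat_lit 1) (.cons (.ev (nat_lit 79228167236631103041972469761) (nat_lit 1)) .nil)) .nil)) .nil))) .nil)))) .nil))),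
 (.br (nat_lit 10) (nat_lit 1) (.cons (.rf (nat_lit 3119) (nat_lit 493858305440582043680)) (.cons (.rf (nat_lit 3120) (nat_lit 493858305440582043680)) (.cons (.br (nat_lit 10) (nat_lit 1) (.cons (.rf (nat_lit 3119) (nat_lit 493858305440582043680)) (.cons (.rf (nat_lit 3120) (nat_lit 493858305440582043680)) .nil))) .nil)))),
 (.br (nat_lit 10) (nat_lit 1) (.cons (.rf (nat_lit 2725) (nat_lit 493787406733947274304)) (.cons (.br (nat_lit 4) (nat_lit 1) (.cons (.ev (nat_lit 72057598349738241) (nat_lit 1)) (.cons (.ev (nat_lit 1213648258436572129525761) (nat_lit 1)) .nil))) (.cons (.br (nat_lit 8) (nat_lit 1) (.cons (.br (nat_lit 11) (nat_lit 1) (.cons (.br (nat_lit 4) (nat_lit 1) (.cons (.ev (nat_lit 20837014023177891149320689223428) (nat_lit 3)) .nil)) (.cons (.ev (nat_lit 20282719088679938794564662394881) (nat_lit 1)) .nil))) (.cons (.br (nat_lit 13) (nat_lit 0) (.cons (.ev (nat_lit 20282412030966489644506495844866) (nat_lit 2)) (.cons (.ev (nat_lit 20282720302328124610588522316033) (nat_lit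 1)) .nil))) (.cons (.br (nat_lit 7) (nat_lit 0) (.cons (.br (nat_lit 11) (nat_lit 1) (.cons (.ev (nat_lit 21157638066129934006190611172616) (nat_lit 4)) .nil)) (.cons (.br (nat_lit 5) (nat_lit 0) (.cons (.ev (nat_lit 20837014023177891149320689223428) (nat_lit 3)) .nil)) .nil))) .nil)))) .nil)))),
 (.br (nat_lit 10) (nat_lit 1) (.cons (.rf (nat_lit 3122) (nat_lit 493858305440582043680)) (.cons (.rf (nat_lit 3024) (nat_lit 493823402543469922336)) (.cons (.br (nat_lit 2) (nat_lit 0) (.cons (.ev (nat_lit 1213648258436572129525761) (nat_lit 1)) (.cons (.br (nat_lit 11) (nat_lit 1) (.cons (.br (nat_lit 13) (nat_lit 0) (.cons (.ev (nat_lit 22263133066211368732052664294160) (nat_lit 5)) .nil)) (.cons (.ev (nat_lit 20282720302328124610588522316033) (nat_lit 1)) .nil))) (.cons (.br (nat_lit 5) (nat_lit 0) (.cons (.br (nat_lit 13) (nat_lit 0) (.cons (.ev (nat_lit 20999184196805906391052537366792) (nat_lit 4)) .nil)) (.cons (.br (nat_lit 4) (nat_lit 1) (.cons (.ev (nat_lit 21314856470269056591366545413904)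 (nat_lit 5)) .nil)) .nil))) .nil)))) .nil)))),
 (.br (nat_lit 8) (nat_lit 1) (.cons (.br (nat_lit 7) (nat_lit 0) (.cons (.kr (nat_lit 20361637766166006819134833164544) (nat_lit 618970019642691236961255424) (nat_lit 1) (nat_lit 0)) .nil)) (.cons (.rf (nat_lit 2675) (nat_lit 457866628969328116800)) .nil))),
 (.br (nat_lit 6) (nat_lit 1) (.cons (.rf (nat_lit 3121) (nat_lit 493858305440582043680)) (.cons (.br (nat_lit 10) (nat_lit 1) (.cons (.rf (nat_lit 3122) (nat_lit 493858305440582043680)) (.cons (.rf (nat_lit 3024) (nat_lit 493823402543469922336)) (.cons (.rf (nat_lit 3123) (nat_lit 493858305440582043680)) (.cons (.br (nat_lit 10) (nat_lit 1) (.cons (.rf (nat_lit 3122) (nat_lit 493858305440582043680)) (.cons (.rf (nat_lit 3024) (nat_lit 493823402543469922336)) (.cons (.rf (nat_lit 3123) (nat_lit 493858305440582043680)) .nil)))) .nil))))) (.cons (.br (nat_lit 13) (nat_lit 0) (.cons (.rf (nat_lit 2870) (nat_lit 458117738729117419552)) (.cons (.rf (nat_lit 2998) (nat_lit 458082801744999450656))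 (.cons (.br (nat_lit 11) (nat_lit 1) (.cons (.br (nat_lit 10) (nat_lit 1) (.cons (.rf (nat_lit 2675) (nat_lit 493786145594110216224)) (.cons (.br (nat_lit 7) (nat_lit 0) (.cons (.br (nat_lit 5) (nat_lit 0) (.cons (.ev (nat_lit 79228162532783139265603240193) (nat_lit 1)) .nil)) (.cons (.ev (nat_lit 79229371440156291291750072321) (nat_lit 1)) .nil))) .nil))) (.cons (.br (nat_lit 4) (nat_lit 1) (.cons (.ev (nat_lit 20361947251175756388084496793601) (nat_lit 1)) (.cons (.br (nat_lit 8) (nat_lit 1) (.cons (.rf (nat_lit 3026) (nat_lit 493823402543469922336)) (.cons (.ev (nat_lit 20520713061232552874246217401090) (nat_lit 2)) .nil))) .nil))) (.cons (.br (nat_lit 4) (nat_lit 1) (.cons (.rf (nat_lit 3124) (nat_lit 493858305440582043680)) (.cons (.br (nat_lit 8) (nat_lit 1) (.cons (.rf (nat_lit 3124) (nat_lit 493858301042539726880)) (.cons (.ev (nat_lit 309485028340146740784005121) (nat_lit 1)) .nil))) (.cons (.br (nat_lit 8) (nat_lit 1) (.cons (.rf (nat_lit 2675) (nat_lit 458010603419915617344)) (.cons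 (.ev (nat_lit 20282409603670117169124784209921) (nat_lit 1)) .nil))) .nil)))) .nil)))) (.cons (.rf (nat_lit 3094) (nat_lit 458082801744999450656)) .nil))))) .nil)))),
 (.br (nat_lit 6) (nat_lit 1) (.cons (.rf (nat_lit 3121) (nat_lit 493858305440582043680)) (.cons (.rf (nat_lit 3125) (nat_lit 493858305440582043680)) (.cons (.br (nat_lit 13) (nat_lit 0) (.cons (.rf (nat_lit 2870) (nat_lit 458117738729117419552)) (.cons (.ev (nat_lit 20282409603651670705422227996929) (nat_lit 1)) (.cons (.br (nat_lit 10) (nat_lit 1) (.cons (.br (nat_lit 8) (nat_lit 1) (.cons (.br (nat_lit 4) (nat_lit 1) (.cons (.ev (nat_lit 282574505115649) (nat_lit 1)) (.cons (.br (nat_lit 11) (nat_lit 1) (.cons (.ev (nat_lit 20520713061325148008476221834500) (nat_lit 3)) .nil)) .nil))) (.cons (.rf (nat_lit 2763) (nat_lit 493820022650094848032)) .nil))) (.cons (.br (nat_lit 5) (nat_lit 0) (.cons (.br (nat_lit 7) (nat_lit 0) (.cons (.ev (nat_lit 20440868346568732382788646339330) (nat_lit 2)) (.cons (.ev (nat_lit 20441484898699842353321270575362)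 (nat_lit 2)) .nil))) (.cons (.br (nat_lit 7) (nat_lit 0) (.cons (.rf (nat_lit 2772) (nat_lit 493679289556564805664)) (.cons (.ev (nat_lit 309485009893685237251047681) (nat_lit 1)) .nil))) (.cons (.br (nat_lit 7) (nat_lit 0) (.cons (.rf (nat_lit 2772) (nat_lit 493675911860065503264)) (.cons (.ev (nat_lit 20282410812596009122818661810433) (nat_lit 1)) .nil))) .nil)))) (.cons (.br (nat_lit 4) (nat_lit 1) (.cons (.rf (nat_lit 2773) (nat_lit 458117562807262217280)) (.cons (.br (nat_lit 5) (nat_lit 0) (.cons (.ev (nat_lit 282574505115649) (nat_lit 1)) (.cons (.ev (nat_lit 79847132534051988456446362370) (nat_lit 2)) .nil))) .nil))) .nil)))) (.cons (.rf (nat_lit 3094) (nat_lit 458082801744999450656)) .nil))))) .nil)))),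
 (.br (nat_lit 9) (nat_lit 1) (.cons (.kr (nat_lit 256) (nat_lit 65536) (nat_lit 1) (nat_lit 0)) (.cons (.br (nat_lit 10) (nat_lit 1) (.cons (.rf (nat_lit 3096) (nat_lit 493858305440582043680)) (.cons (.rf (nat_lit 3099) (nat_lit 493858305440582043680)) (.cons (.rf (nat_lit 3103) (nat_lit 493858305440582043680)) (.cons (.br (nat_lit 10) (nat_lit 1) (.cons (.rf (nat_lit 3096) (nat_lit 493858305440582043680)) (.cons (.rf (nat_lit 3099) (nat_lit 493858305440582043680)) (.cons (.rf (nat_lit 3103) (nat_lit 493858305440582043680)) .nil)))) .nil))))) (.cons (.br (nat_lit 10) (nat_lit 1) (.cons (.rf (nat_lit 3106) (nat_lit 493858305440582043680)) (.cons (.rf (nat_lit 3113) (nat_lit 493858305440582043680)) (.cons (.rf (nat_lit 3116) (nat_lit 493858305440582043680)) (.cons (.br (nat_lit 10) (nat_lit 1) (.cons (.rf (nat_lit 3106) (nat_lit 493858305440582043680)) (.cons (.rf (nat_lit 3113) (nat_lit 493858305440582043680)) (.cons (.rf (nat_lit 3116) (nat_lit 493858305440582043680)) .nil)))) .nil))))) (.cons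 (.br (nat_lit 6) (nat_lit 1) (.cons (.rf (nat_lit 3121) (nat_lit 493858305440582043680)) (.cons (.rf (nat_lit 3125) (nat_lit 493858305440582043680)) (.cons (.rf (nat_lit 3126) (nat_lit 493858305440582043680)) (.cons (.br (nat_lit 6) (nat_lit 1) (.cons (.rf (nat_lit 3121) (nat_lit 493858305440582043680)) (.cons (.rf (nat_lit 3125) (nat_lit 493858305440582043680)) (.cons (.rf (nat_lit 3126) (nat_lit 493858305440582043680)) .nil)))) .nil))))) .nil))))),
 (.br (nat_lit 13) (nat_lit 0) (.cons (.rf (nat_lit 2870) (nat_lit 458117738729117419552)) (.cons (.rf (nat_lit 3094) (nat_lit 458117738729117419552)) (.cons (.br (nat_lit 5) (nat_lit 0) (.cons (.br (nat_lit 10) (nat_lit 1) (.cons (.rf (nat_lit 3024) (nat_lit 493679322542987380768)) (.cons (.rf (nat_lit 3024) (nat_lit 493679322542987379776)) (.cons (.br (nat_lit 1) (nat_lit 0) (.cons (.br (nat_lit 8) (nat_lit 1) (.cons (.ev (nat_lit 79228167255149904709736792065) (nat_lit 1)) .nil)) (.cons (.br (nat_lit 6) (nat_lit 1) (.cons (.ev (nat_lit 79228167255149904709736726785)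 (nat_lit 1)) .nil)) .nil))) .nil)))) (.cons (.br (nat_lit 6) (nat_lit 1) (.cons (.ev (nat_lit 79537647542532426740273250561) (nat_lit 1)) (.cons (.ev (nat_lit 79537647542532426740273315841) (nat_lit 1)) (.cons (.br (nat_lit 6) (nat_lit 1) (.cons (.ev (nat_lit 79537647542532426740273250561) (nat_lit 1)) (.cons (.ev (nat_lit 79537647542532426740273315841) (nat_lit 1)) .nil))) .nil)))) (.cons (.rf (nat_lit 2652) (nat_lit 14312768546099267616)) .nil)))) .nil))))]

theorem c109 : chkAll C T R L109 (nat_lit 3106) = true := by decide +kernel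

theorem l109 : (nat_lit 3106) + L109.length = (nat_lit 3129) := by decide +kernel

/-- part of the certificates -/
def L110 : List Prf := [(.br (nat_lit 13) (nat_lit 0) (.cons (.rf (nat_lit 2870) (nat_lit 458117738729117419552)) (.cons (.br (nat_lit 13) (nat_lit 0) (.cons (.rf (nat_lit 2870) (nat_lit 458117738729117419552)) (.cons (.rf (nat_lit 3094) (nat_lit 458117738729117419552)) (.cons (.rf (nat_lit 2915) (nat_lit 482214196671514656)) .nil)))) (.cons (.rf (nat_lit 3128) (nat_lit 493858305440582043680)) (.cons (.br (nat_lit 13) (nat_lit 0) (.cons (.rf (nat_lit 2870) (nat_lit 458117738729117419552)) (.cons (.rf (nat_lit 2915) (nat_lit 482214196671514656)) (.cons (.rf (nat_lit 3128) (nat_lit 493858305440582043680)) .nil)))) .nil))))),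
 (.br (nat_lit 4) (nat_lit 1) (.cons (.br (nat_lit 7) (nat_lit 0) (.cons (.zr (nat_lit 20282409603651814539135327338752) (nat_lit 309485009821626548030013441) (nat_lit 5) (nat_lit 0)) (.cons (.br (nat_lit 5) (nat_lit 0) (.cons (.ev (nat_lit 79229376180897461740578603265) (nat_lit 1)) .nil)) .nil))) (.cons (.ev (nat_lit 20282409608392483650894901018881) (nat_lit 1)) (.cons (.rf (nat_lit 3024) (nat_lit 457865607521952172064)) .nil)))),
 (.br (nat_lit 13) (nat_lit 0) (.cons (.rf (nat_lit 2870) (nat_lit 458117738729117419552)) (.cons (.br (nat_lit 11) (nat_lit 1) (.cons (.rf (nat_lit 3130) (nat_lit 493858305440582043680)) (.cons (.rf (nat_lit 3130) (nat_lit 493858305440582042688)) (.cons (.br (nat_lit 7) (nat_lit 0) (.cons (.ev (nat_lit 79537652264898910709446868993) (nat_lit 1)) (.cons (.rf (nat_lit 2709) (nat_lit 457864481618828298272)) (.cons (.br (nat_lit 2) (nat_lit 0) (.cons (.br (nat_lit 1) (nat_lit 0) (.cons (.zr (nat_lit 9481626453886726504448) (nat_lit 310693935641241177171165697) (nat_lit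 5) (nat_lit 4)) .nil)) (.cons (.br (nat_lit 1) (nat_lit 0) (.cons (.zr (nat_lit 9481626453886726308608) (nat_lit 310693935641241177171296257) (nat_lit 5) (nat_lit 4)) .nil)) .nil))) .nil)))) (.cons (.rf (nat_lit 2924) (nat_lit 458116648011437279264)) .nil))))) (.cons (.br (nat_lit 5) (nat_lit 0) (.cons (.ev (nat_lit 20361637766165934762644618608641) (nat_lit 1)) (.cons (.rf (nat_lit 2652) (nat_lit 14308264950762670112)) (.cons (.br (nat_lit 4) (nat_lit 1) (.cons (.kr (nat_lit 4740813226943354765568) (nat_lit 79228162514264338693072355328) (nat_lit 1) (nat_lit 0)) (.cons (.kr (nat_lit 4740813226943354830848) (nat_lit 79228162514264338693072355328) (nat_lit 2) (nat_lit 0)) (.cons (.rf (nat_lit 2652) (nat_lit 15427409526814509088)) .nil)))) .nil)))) .nil)))),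
 (.br (nat_lit 2) (nat_lit 0) (.cons (.ev (nat_lit 20678550425704979422236561835780) (nat_lit 3)) .nil)),
 (.br (nat_lit 6) (nat_lit 1) (.cons (.ev (nat_lit 20282409608392483932369894506753) (nat_lit 1)) (.cons (.br (nat_lit 10) (nat_lit 1) (.cons (.zr (nat_lit 238303457562435706216650047488) (nat_lit 4840444091966952210169857) (nat_lit 5) (nat_lit 0)) .nil)) .nil))),
 (.br (nat_lit 4) (nat_lit 1) (.cons (.ev (nat_lit 20282409608392483932369894572033) (nat_lit 1)) (.cons (.br (nat_lit 10) (nat_lit 1) (.cons (.ev (nat_lit 313111805727778563023897090) (nat_lit 2)) .nil)) .nil))),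
 (.br (nat_lit 4) (nat_lit 1) (.cons (.rf (nat_lit 2900) (nat_lit 458002929927196870688)) (.cons (.rf (nat_lit 2900) (nat_lit 458002929927196869696)) .nil))),
 (.br (nat_lit 6) (nat_lit 1) (.cons (.rf (nat_lit 3024) (nat_lit 493823296993574881312)) (.cons (.rf (nat_lit 3024) (nat_lit 493823296993574880320)) (.cons (.rf (nat_lit 3135) (nat_lit 493858305440582043680)) .nil)))),
 (.br (nat_lit 13) (nat_lit 0) (.cons (.rf (nat_lit 2870) (nat_lit 458117738729117419552)) (.cons (.rf (nat_lit 3131) (nat_lit 493858305440582043680)) (.cons (.br (nat_lit 5) (nat_lit 0) (.cons (.br (nat_lit 7) (nat_lit 0) (.cons (.ev (nat_lit 72057598349672449) (nat_lit 1)) (.cons (.ev (nat_lit 20361947255898194647077514903553) (nat_lit 1)) (.cons (.br (nat_lit 8) (nat_lit 1) (.cons (.rf (nat_lit 3132) (nat_lit 493858305440582043680)) (.cons (.rf (nat_lit 3132) (nat_lit 493858305440582042688)) .nil))) .nil)))) (.cons (.br (nat_lit 10) (nat_lit 1) (.cons (.rf (nat_lit 3024) (nat_lit 493679322542987380768)) (.cons (.rf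 (nat_lit 3024) (nat_lit 493679322542987379776)) (.cons (.br (nat_lit 2) (nat_lit 0) (.cons (.br (nat_lit 8) (nat_lit 1) (.cons (.ev (nat_lit 79228167255149904709736726785) (nat_lit 1)) .nil)) (.cons (.br (nat_lit 4) (nat_lit 1) (.cons (.ev (nat_lit 79228167255149904709736792065) (nat_lit 1)) .nil)) .nil))) .nil)))) (.cons (.br (nat_lit 1) (nat_lit 0) (.cons (.rf (nat_lit 3133) (nat_lit 493858305440582043680)) (.cons (.rf (nat_lit 3134) (nat_lit 493858305440582043680)) (.cons (.br (nat_lit 2) (nat_lit 0) (.cons (.rf (nat_lit 3133) (nat_lit 493858305440582042688)) (.cons (.rf (nat_lit 3134) (nat_lit 493858305440582042688)) .nil))) .nil)))) (.cons (.rf (nat_lit 3136) (nat_lit 493858305440582043680)) .nil))))) .nil)))),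
 (.br (nat_lit 13) (nat_lit 0) (.cons (.rf (nat_lit 2870) (nat_lit 458117738729117419552)) (.cons (.rf (nat_lit 3131) (nat_lit 493858305440582043680)) (.cons (.rf (nat_lit 3137) (nat_lit 493858305440582043680)) (.cons (.br (nat_lit 13) (nat_lit 0) (.cons (.rf (nat_lit 2870) (nat_lit 458117738729117419552)) (.cons (.rf (nat_lit 3131) (nat_lit 493858305440582043680)) (.cons (.rf (nat_lit 3137) (nat_lit 493858305440582043680)) .nil)))) .nil))))),
 (.br (nat_lit 4) (nat_lit 1) (.cons (.kr (nat_lit 9481626453886709596416) (nat_lit 20361637766166006820234378346496) (nat_lit 1) (nat_lit 0)) .nil)),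
 (.br (nat_lit 13) (nat_lit 0) (.cons (.rf (nat_lit 3094) (nat_lit 458117738729117419552)) (.cons (.rf (nat_lit 3138) (nat_lit 493858305440582043680)) (.cons (.br (nat_lit 5) (nat_lit 0) (.cons (.br (nat_lit 6) (nat_lit 1) (.cons (.ev (nat_lit 79537647542532426740273250561) (nat_lit 1)) (.cons (.ev (nat_lit 79537647542532426740273315841) (nat_lit 1)) (.cons (.ev (nat_lit 72057598349672449) (nat_lit 1)) .nil)))) (.cons (.br (nat_lit 10) (nat_lit 1) (.cons (.rf (nat_lit 3024) (nat_lit 493679322542987380768)) (.cons (.rf (nat_lit 3024) (nat_lit 493679322542987379776)) (.cons (.br (nat_lit 6) (nat_lit 1) (.cons (.rf (nat_lit 3139) (nat_lit 493858305440582043680)) (.cons (.rf (nat_lit 3139) (nat_lit 493858305440582042688)) .nil))) .nil)))) (.cons (.kr (nat_lit 1208925819614629174706176) (nat_lit 20282409603651670423947251286016) (nat_lit 10) (nat_lit 0)) .nil)))) .nil)))),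
 (.br (nat_lit 13) (nat_lit 0) (.cons (.rf (nat_lit 3129) (nat_lit 493858305440582043680)) (.cons (.rf (nat_lit 3138) (nat_lit 493858305440582043680)) (.cons (.rf (nat_lit 3140) (nat_lit 493858305440582043680)) (.cons (.br (nat_lit 13) (nat_lit 0) (.cons (.rf (nat_lit 2915) (nat_lit 482214196671514656)) (.cons (.rf (nat_lit 3138) (nat_lit 493858305440582043680)) (.cons (.rf (nat_lit 3140) (nat_lit 493858305440582043680)) .nil)))) .nil))))),
 (.br (nat_lit 13) (nat_lit 0) (.cons (.rf (nat_lit 3129) (nat_lit 493858305440582043680)) (.cons (.rf (nat_lit 3138) (nat_lit 493858305440582043680)) (.cons (.rf (nat_lit 3141) (nat_lit 493858305440582043680)) (.cons (.br (nat_lit 13) (nat_lit 0) (.cons (.rf (nat_lit 3129) (nat_lit 493858305440582043680)) (.cons (.rf (nat_lit 3138) (nat_lit 493858305440582043680)) (.cons (.rf (nat_lit 3141) (nat_lit 493858305440582043680)) .nil)))) .nil))))),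
 (.br (nat_lit 6) (nat_lit 1) (.cons (.kr (nat_lit 20282409603651670423947251286528) (nat_lit 1099528470528) (nat_lit 1) (nat_lit 0)) (.cons (.rf (nat_lit 2970) (nat_lit 14312767448728832032)) .nil))),
 (.br (nat_lit 2) (nat_lit 0) (.cons (.kr (nat_lit 256) (nat_lit 65536) (nat_lit 1) (nat_lit 0)) (.cons (.rf (nat_lit 3143) (nat_lit 458079529600540575776)) (.cons (.rf (nat_lit 3143) (nat_lit 493858305440582043680)) .nil)))),
 (.br (nat_lit 10) (nat_lit 1) (.cons (.rf (nat_lit 3143) (nat_lit 493858305440582043680)) (.cons (.kr (nat_lit 20282409603651670423947251286272) (nat_lit 1099528404992) (nat_lit 1) (nat_lit 0)) (.cons (.br (nat_lit 7) (nat_lit 0) (.cons (.rf (nat_lit 2978) (nat_lit 493786318215288293408)) (.cons (.rf (nat_lit 3144) (nat_lit 493750222348060035104)) (.cons (.rf (nat_lit 3144) (nat_lit 493858305440582043680)) .nil)))) .nil)))),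
 (.br (nat_lit 13) (nat_lit 0) (.cons (.rf (nat_lit 2870) (nat_lit 458117738729117419552)) (.cons (.rf (nat_lit 2998) (nat_lit 458117738729117419552)) (.cons (.br (nat_lit 6) (nat_lit 1) (.cons (.rf (nat_lit 3145) (nat_lit 493858305440582043680)) (.cons (.rf (nat_lit 3145) (nat_lit 493858305440582042688)) (.cons (.br (nat_lit 6) (nat_lit 1) (.cons (.rf (nat_lit 3145) (nat_lit 493858305440582043680)) (.cons (.rf (nat_lit 3145) (nat_lit 493858305440582042688)) (.cons (.rf (nat_lit 3136) (nat_lit 493604875711260231712)) .nil)))) (.cons (.br (nat_lit 6) (nat_lit 1) (.cons (.rf (nat_lit 3145) (nat_lit 493858305440582043680)) (.cons (.rf (nat_lit 3145) (nat_lit 493858305440582042688)) (.cons (.rf (nat_lit 3136) (nat_lit 493604875711260231712)) .nil)))) .nil))))) (.cons (.kr (nat_lit 4722366482869645213696) (nat_lit 20282409603651670423947251286016) (nat_lit 9) (nat_lit 0)) .nil))))),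
 (.br (nat_lit 10) (nat_lit 1) (.cons (.br (nat_lit 4) (nat_lit 1) (.cons (.br (nat_lit 7) (nat_lit 0) (.cons (.ev (nat_lit 79537647542532426740273250561) (nat_lit 1)) .nil)) .nil)) (.cons (.br (nat_lit 7) (nat_lit 0) (.cons (.ev (nat_lit 20361638975091754376174264910081) (nat_lit 1)) (.cons (.rf (nat_lit 2965) (nat_lit 493821118857819031584)) .nil))) .nil))),
 (.br (nat_lit 13) (nat_lit 0) (.cons (.rf (nat_lit 2870) (nat_lit 458117738729117419552)) (.cons (.rf (nat_lit 2998) (nat_lit 458082801744999450656)) (.cons (.br (nat_lit 8) (nat_lit 1) (.cons (.rf (nat_lit 3127) (nat_lit 458082801744999450656)) (.cons (.rf (nat_lit 3127) (nat_lit 458082801744999449664)) (.cons (.br (nat_lit 6) (nat_lit 1) (.cons (.rf (nat_lit 3147) (nat_lit 493858305440582043680)) (.cons (.rf (nat_lit 3147) (nat_lit 493858305440582042688)) (.cons (.br (nat_lit 7) (nat_lit 0) (.cons (.ev (nat_lit 20520094095972242491991511793666) (nat_lit 2)) (.cons (.br (nat_lit 1) (nat_lit 0) (.cons (.ev (nat_lit 79229371458530977771404919041)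 (nat_lit 1)) (.cons (.ev (nat_lit 20282410812596009122818661810433) (nat_lit 1)) .nil))) (.cons (.rf (nat_lit 2826) (nat_lit 457864379368537688096)) .nil)))) .nil)))) (.cons (.kr (nat_lit 4740813226943354765312) (nat_lit 20361637766165934761540795236352) (nat_lit 8) (nat_lit 0)) .nil))))) (.cons (.rf (nat_lit 3094) (nat_lit 458082801744999450656)) .nil))))),
 (.br (nat_lit 6) (nat_lit 0) (.cons (.kr (nat_lit 309485009821346168236408832) (nat_lit 79228162514264619068520660992) (nat_lit 5) (nat_lit 0)) (.cons (.rf (nat_lit 2812) (nat_lit 455883953346089945120)) .nil))),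
 (.br (nat_lit 6) (nat_lit 1) (.cons (.kr (nat_lit 18446744073709551872) (nat_lit 1099528404992) (nat_lit 1) (nat_lit 0)) (.cons (.kr (nat_lit 18446744073709617152) (nat_lit 1099528404992) (nat_lit 2) (nat_lit 0)) (.cons (.br (nat_lit 6) (nat_lit 1) (.cons (.kr (nat_lit 18446744073709551872) (nat_lit 1099528404992) (nat_lit 1) (nat_lit 0)) (.cons (.kr (nat_lit 18446744073709617152) (nat_lit 1099528404992) (nat_lit 2) (nat_lit 0)) .nil))) .nil)))),
 (.br (nat_lit 5) (nat_lit 0) (.cons (.br (nat_lit 7) (nat_lit 0) (.cons (.rf (nat_lit 2680) (nat_lit 15427409522523736096)) (.cons (.br (nat_lit 1) (nat_lit 0) (.cons (.br (nat_lit 11) (nat_lit 1) (.cons (.ev (nat_lit 20838866069162594184295721535236) (nat_lit 3)) .nil)) (.cons (.br (nat_lit 2) (nat_lit 0) (.cons (.ev (nat_lit 20838866069162594184295721926916) (nat_lit 3)) .nil)) .nil))) (.cons (.rf (nat_lit 3149) (nat_lit 14315083122227644448)) .nil)))) (.cons (.rf (nat_lit 3149) (nat_lit 15433072044983552032)) (.cons (.rf (nat_lit 3150) (nat_lit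 15433072043909810208)) .nil)))),
 (.br (nat_lit 11) (nat_lit 1) (.cons (.ev (nat_lit 79537647524158021735578337281) (nat_lit 1)) .nil)),
 (.br (nat_lit 7) (nat_lit 0) (.cons (.rf (nat_lit 3151) (nat_lit 493858305440582043680)) (.cons (.br (nat_lit 5) (nat_lit 0) (.cons (.br (nat_lit 6) (nat_lit 1) (.cons (.rf (nat_lit 3152) (nat_lit 493858305440582043680)) (.cons (.rf (nat_lit 3152) (nat_lit 493858305440582042688)) .nil))) (.cons (.ev (nat_lit 20282410817318375604588812173313) (nat_lit 1)) (.cons (.rf (nat_lit 3150) (nat_lit 15433072043909810208)) .nil)))) (.cons (.br (nat_lit 5) (nat_lit 0) (.cons (.ev (nat_lit 20361947255898194647077514903553) (nat_lit 1)) (.cons (.rf (nat_lit 2680) (nat_lit 15427406231500851232)) (.cons (.rf (nat_lit 3149) (nat_lit 15425190745642993696)) .nil)))) .nil)))),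
 (.br (nat_lit 7) (nat_lit 0) (.cons (.rf (nat_lit 3151) (nat_lit 493858305440582043680)) (.cons (.rf (nat_lit 3153) (nat_lit 493858305440582043680)) (.cons (.br (nat_lit 5) (nat_lit 0) (.cons (.rf (nat_lit 2009) (nat_lit 15433031263266637856)) (.cons (.br (nat_lit 2) (nat_lit 0) (.cons (.br (nat_lit 6) (nat_lit 1) (.cons (.ev (nat_lit 79537652246524505704751956225) (nat_lit 1)) .nil)) (.cons (.br (nat_lit 4) (nat_lit 1) (.cons (.ev (nat_lit 79537652246524505704752021505) (nat_lit 1)) .nil)) .nil))) .nil))) .nil)))),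
 (.br (nat_lit 5) (nat_lit 0) (.cons (.br (nat_lit 6) (nat_lit 1) (.cons (.ev (nat_lit 79537647542532426740273250561) (nat_lit 1)) (.cons (.ev (nat_lit 79537647542532426740273315841) (nat_lit 1)) .nil))) (.cons (.rf (nat_lit 2652) (nat_lit 14308159397649549344)) (.cons (.rf (nat_lit 2942) (nat_lit 457930909717625931808)) .nil)))),
 (.br (nat_lit 13) (nat_lit 0) (.cons (.rf (nat_lit 2998) (nat_lit 458117738729117419552)) (.cons (.rf (nat_lit 2998) (nat_lit 458082801744999450656)) (.cons (.br (nat_lit 7) (nat_lit 0) (.cons (.rf (nat_lit 3151) (nat_lit 493858305440582043680)) (.cons (.rf (nat_lit 3153) (nat_lit 493858305440582043680)) (.cons (.rf (nat_lit 3154) (nat_lit 493858305440582043680)) (.cons (.br (nat_lit 7) (nat_lit 0) (.cons (.rf (nat_lit 3149) (nat_lit 14315083122227644448)) (.cons (.rf (nat_lit 3153) (nat_lit 493858305440582043680)) (.cons (.rf (nat_lit 3154) (nat_lit 493858305440582043680)) .nil)))) .nil))))) (.cons (.br (nat_lit 7) (nat_lit 0) (.cons (.rf (nat_lit 2943) (nat_lit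 482214196671514656)) (.cons (.rf (nat_lit 3155) (nat_lit 493858305440582043680)) (.cons (.br (nat_lit 7) (nat_lit 0) (.cons (.rf (nat_lit 2943) (nat_lit 482214196671514656)) (.cons (.rf (nat_lit 3155) (nat_lit 493858305440582043680)) .nil))) .nil)))) .nil))))),
 (.br (nat_lit 6) (nat_lit 1) (.cons (.kr (nat_lit 256) (nat_lit 65536) (nat_lit 1) (nat_lit 0)) (.cons (.br (nat_lit 10) (nat_lit 1) (.cons (.rf (nat_lit 2725) (nat_lit 493823298092012767264)) (.cons (.br (nat_lit 4) (nat_lit 1) (.cons (.zr (nat_lit 40723275532331869525280613925120) (nat_lit 310703380374206916495147009) (nat_lit 5) (nat_lit 0)) (.cons (.ev (nat_lit 20361638979814120860143438528513) (nat_lit 1)) .nil))) .nil))) (.cons (.br (nat_lit 5) (nat_lit 0) (.cons (.br (nat_lit 2) (nat_lit 0) (.cons (.rf (nat_lit 3028) (nat_lit 457938686556927788096)) (.cons (.zr (nat_lit 20440865928680199101333362508544) (nat_lit 310698658007724046849933313) (nat_lit 5) (nat_lit 0)) .nil))) (.cons (.br (nat_lit 2) (nat_lit 0) (.cons (.br (nat_lit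 7) (nat_lit 0) (.cons (.ev (nat_lit 1213648258436572129525761) (nat_lit 1)) .nil)) (.cons (.br (nat_lit 4) (nat_lit 1) (.cons (.ev (nat_lit 79229371440084234801502028033) (nat_lit 1)) .nil)) .nil))) (.cons (.rf (nat_lit 2886) (nat_lit 493817843415901112352)) .nil)))) .nil))))]

theorem c110 : chkAll C T R L110 (nat_lit 3129) = true := by decide +kernel

theorem l110 : (nat_lit 3129) + L110.length = (nat_lit 3158) := by decide +kernel

/-- part of the certificates -/
def L111 : List Prf := [(.br (nat_lit 13) (nat_lit 0) (.cons (.rf (nat_lit 3146) (nat_lit 493858305440582043680)) (.cons (.rf (nat_lit 3148) (nat_lit 493858305440582043680)) (.cons (.rf (nat_lit 3156) (nat_lit 493858305440582043680)) (.cons (.br (nat_lit 6) (nat_lit 1) (.cons (.rf (nat_lit 3157) (nat_lit 493858305440582043680)) (.cons (.rf (nat_lit 3157) (nat_lit 493858305440582042688)) (.cons (.br (nat_lit 6) (nat_lit 1) (.cons (.rf (nat_lit 3157) (nat_lit 493858305440582043680)) (.cons (.rf (nat_lit 3157) (nat_lit 493858305440582042688))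 (.cons (.rf (nat_lit 3136) (nat_lit 493857069593811585056)) .nil)))) (.cons (.br (nat_lit 6) (nat_lit 1) (.cons (.rf (nat_lit 3157) (nat_lit 493858305440582043680)) (.cons (.rf (nat_lit 3157) (nat_lit 493858305440582042688)) (.cons (.rf (nat_lit 3136) (nat_lit 493857069593811585056)) .nil)))) .nil))))) .nil))))),
 (.br (nat_lit 9) (nat_lit 1) (.cons (.rf (nat_lit 3127) (nat_lit 493858305440582043680)) (.cons (.rf (nat_lit 3127) (nat_lit 493858305440582042688)) (.cons (.br (nat_lit 13) (nat_lit 0) (.cons (.rf (nat_lit 3129) (nat_lit 493858305440582043680)) (.cons (.rf (nat_lit 3138) (nat_lit 493858305440582043680)) (.cons (.rf (nat_lit 3141) (nat_lit 493858305440582043680)) (.cons (.rf (nat_lit 3142) (nat_lit 493858305440582043680)) (.cons (.br (nat_lit 13) (nat_lit 0) (.cons (.rf (nat_lit 3129) (nat_lit 493858305440582043680)) (.cons (.rf (nat_lit 3138) (nat_lit 493858305440582043680)) (.cons (.rf (nat_lit 3141) (nat_lit 493858305440582043680)) (.cons (.rf (nat_lit 3142) (nat_lit 493858305440582043680))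 .nil))))) .nil)))))) (.cons (.br (nat_lit 13) (nat_lit 0) (.cons (.rf (nat_lit 3146) (nat_lit 493858305440582043680)) (.cons (.rf (nat_lit 3148) (nat_lit 493858305440582043680)) (.cons (.rf (nat_lit 3156) (nat_lit 493858305440582043680)) (.cons (.rf (nat_lit 3158) (nat_lit 493858305440582043680)) (.cons (.br (nat_lit 13) (nat_lit 0) (.cons (.kr (nat_lit 4722366482869645213696) (nat_lit 20282409603651670423947251286016) (nat_lit 9) (nat_lit 0)) (.cons (.rf (nat_lit 3094) (nat_lit 458082801744999450656)) (.cons (.rf (nat_lit 3156) (nat_lit 493858305440582043680)) (.cons (.rf (nat_lit 3158) (nat_lit 493858305440582043680)) .nil))))) .nil)))))) .nil))))),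
 (.br (nat_lit 13) (nat_lit 0) (.cons (.rf (nat_lit 2998) (nat_lit 458082801744999450656)) (.cons (.br (nat_lit 7) (nat_lit 0) (.cons (.br (nat_lit 5) (nat_lit 0) (.cons (.ev (nat_lit 310693935641242276682858753) (nat_lit 1)) .nil)) .nil)) .nil))),
 (.br (nat_lit 4) (nat_lit 1) (.cons (.ev (nat_lit 72339073309671681) (nat_lit 1)) (.cons (.ev (nat_lit 20361947255916569333557169815553) (nat_lit 1)) .nil))),
 (.br (nat_lit 4) (nat_lit 1) (.cons (.ev (nat_lit 72057598349738241) (nat_lit 1)) (.cons (.br (nat_lit 6) (nat_lit 1) (.cons (.br (nat_lit 8) (nat_lit 1) (.cons (.br (nat_lit 11) (nat_lit 1) (.cons (.ev (nat_lit 79537647542532426740273315841) (nat_lit 1)) .nil)) (.cons (.rf (nat_lit 2998) (nat_lit 458117738729117419552)) .nil))) (.cons (.rf (nat_lit 2870) (nat_lit 458117738729117419552)) .nil))) .nil))),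
 (.br (nat_lit 13) (nat_lit 0) (.cons (.rf (nat_lit 2870) (nat_lit 458117738729117419552)) (.cons (.rf (nat_lit 2998) (nat_lit 458082801744999450656)) (.cons (.rf (nat_lit 3094) (nat_lit 458082801744999450656)) .nil)))),
 (.br (nat_lit 7) (nat_lit 0) (.cons (.ev (nat_lit 72057598349672449) (nat_lit 1)) (.cons (.br (nat_lit 13) (nat_lit 0) (.cons (.rf (nat_lit 3159) (nat_lit 458082801744999450656)) (.cons (.br (nat_lit 5) (nat_lit 0) (.cons (.br (nat_lit 2) (nat_lit 0) (.cons (.ev (nat_lit 79231789347208374423304339970) (nat_lit 2)) .nil)) .nil)) .nil))) (.cons (.br (nat_lit 2) (nat_lit 0) (.cons (.br (nat_lit 6) (nat_lit 1) (.cons (.ev (nat_lit 310693935641242276682792961) (nat_lit 1)) (.cons (.zr (nat_lit 40723585017341690868150315254528) (nat_lit 1208925964011296539017217) (nat_lit 5) (nat_lit 10)) .nil))) (.cons (.br (nat_lit 13) (nat_lit 0) (.cons (.rf (nat_lit 3127) (nat_lit 458082801744999449664)) .nil)) .nil))) .nil)))),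
 (.br (nat_lit 5) (nat_lit 0) (.cons (.rf (nat_lit 3164) (nat_lit 493858305440582043680)) (.cons (.br (nat_lit 13) (nat_lit 0) (.cons (.br (nat_lit 7) (nat_lit 0) (.cons (.ev (nat_lit 20520094095972242491991511793666) (nat_lit 2)) (.cons (.kr (nat_lit 14222511738424102224128) (nat_lit 20362566221195398798946009612288) (nat_lit 1) (nat_lit 0)) .nil))) (.cons (.kr (nat_lit 4740813226943354765312) (nat_lit 20361637766165934761540795236352) (nat_lit 8) (nat_lit 0)) (.cons (.br (nat_lit 7) (nat_lit 0) (.cons (.ev (nat_lit 79228167236630821567012536321) (nat_lit 1)) (.cons (.ev (nat_lit 20282719088679938794564662329601) (nat_lit 1)) .nil))) .nil)))) (.cons (.br (nat_lit 2) (nat_lit 0) (.cons (.br (nat_lit 6) (nat_lit 1) (.cons (.br (nat_lit 13) (nat_lit 0) (.cons (.ev (nat_lit 20838863660829474329706220684548) (nat_lit 3)) .nil)) (.cons (.ev (nat_lit 20361947251175756388084496793601) (nat_lit 1)) .nil))) (.cons (.br (nat_lit 4) (nat_lit 1) (.cons (.ev (nat_lit 475989182365535740513646413060) (nat_lit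 3)) (.cons (.rf (nat_lit 2896) (nat_lit 493786318215288293408)) .nil))) (.cons (.br (nat_lit 6) (nat_lit 1) (.cons (.br (nat_lit 13) (nat_lit 0) (.cons (.ev (nat_lit 79229380903336282584005149186) (nat_lit 2)) .nil)) (.cons (.ev (nat_lit 20282409608374037189391401681153) (nat_lit 1)) .nil))) .nil)))) .nil)))),
 (.br (nat_lit 5) (nat_lit 0) (.cons (.rf (nat_lit 3164) (nat_lit 493858305440582043680)) (.cons (.rf (nat_lit 3165) (nat_lit 493858305440582043680)) (.cons (.br (nat_lit 13) (nat_lit 0) (.cons (.br (nat_lit 6) (nat_lit 1) (.cons (.rf (nat_lit 2897) (nat_lit 493786318215288293408)) (.cons (.rf (nat_lit 3079) (nat_lit 458116579843861743648)) .nil))) (.cons (.kr (nat_lit 4740813226943354765312) (nat_lit 20361637766165934761540795236352) (nat_lit 8) (nat_lit 0)) .nil))) .nil)))),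
 (.br (nat_lit 10) (nat_lit 1) (.cons (.kr (nat_lit 256) (nat_lit 65536) (nat_lit 1) (nat_lit 0)) (.cons (.br (nat_lit 2) (nat_lit 0) (.cons (.br (nat_lit 13) (nat_lit 0) (.cons (.br (nat_lit 13) (nat_lit 0) (.cons (.rf (nat_lit 2998) (nat_lit 458082801744999450656)) (.cons (.rf (nat_lit 3094) (nat_lit 458082801744999450656)) .nil))) (.cons (.rf (nat_lit 3160) (nat_lit 493858305440582043680)) (.cons (.br (nat_lit 13) (nat_lit 0) (.cons (.rf (nat_lit 3094) (nat_lit 458082801744999450656)) (.cons (.rf (nat_lit 3160) (nat_lit 493858305440582043680)) .nil))) .nil)))) (.cons (.br (nat_lit 11) (nat_lit 1) (.cons (.br (nat_lit 6) (nat_lit 1) (.cons (.br (nat_lit 4) (nat_lit 1) (.cons (.br (nat_lit 13) (nat_lit 0) (.cons (.ev (nat_lit 79537647542532426740273315841) (nat_lit 1)) .nil)) .nil)) (.cons (.br (nat_lit 13) (nat_lit 0) (.cons (.rf (nat_lit 2870) (nat_lit 458117738729117419552)) (.cons (.rf (nat_lit 2998) (nat_lit 458082801744999450656)) .nil))) .nil))) (.cons (.br (nat_lit 8) (nat_lit 1)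 (.cons (.kr (nat_lit 4740813226943354765568) (nat_lit 309485009821346168253186048) (nat_lit 1) (nat_lit 0)) (.cons (.br (nat_lit 13) (nat_lit 0) (.cons (.rf (nat_lit 2998) (nat_lit 458117738729117419552)) (.cons (.rf (nat_lit 2998) (nat_lit 458082801744999450656)) .nil))) .nil))) (.cons (.br (nat_lit 6) (nat_lit 1) (.cons (.br (nat_lit 8) (nat_lit 1) (.cons (.rf (nat_lit 3161) (nat_lit 493858305440582043680)) (.cons (.br (nat_lit 4) (nat_lit 1) (.cons (.ev (nat_lit 79229371458603036469266219265) (nat_lit 1)) .nil)) .nil))) (.cons (.br (nat_lit 5) (nat_lit 0) (.cons (.ev (nat_lit 72057598349672449) (nat_lit 1)) (.cons (.br (nat_lit 4) (nat_lit 1) (.cons (.ev (nat_lit 79537647542532426740273315841) (nat_lit 1)) .nil)) .nil))) (.cons (.rf (nat_lit 3094) (nat_lit 458082801744999450656)) .nil)))) .nil)))) (.cons (.ev (nat_lit 79229371458530696296445050881) (nat_lit 1)) (.cons (.br (nat_lit 7) (nat_lit 0) (.cons (.br (nat_lit 5) (nat_lit 0) (.cons (.br (nat_lit 6) (nat_lit 1) (.cons (.ev (nat_lit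 79228167236703159532220579841) (nat_lit 1)) .nil)) (.cons (.ev (nat_lit 79228162532783139265603240193) (nat_lit 1)) .nil))) (.cons (.br (nat_lit 4) (nat_lit 1) (.cons (.ev (nat_lit 72057598349672449) (nat_lit 1)) (.cons (.br (nat_lit 13) (nat_lit 0) (.cons (.rf (nat_lit 2870) (nat_lit 458117738729117419552)) (.cons (.rf (nat_lit 2998) (nat_lit 458117738729117419552)) .nil))) .nil))) (.cons (.ev (nat_lit 310693935713017291937415169) (nat_lit 1)) .nil)))) .nil))))) (.cons (.br (nat_lit 6) (nat_lit 1) (.cons (.rf (nat_lit 3162) (nat_lit 493858305440582043680)) (.cons (.br (nat_lit 6) (nat_lit 1) (.cons (.rf (nat_lit 3162) (nat_lit 493858305440582043680)) (.cons (.rf (nat_lit 3163) (nat_lit 493858305440582043680)) .nil))) (.cons (.rf (nat_lit 3163) (nat_lit 493858305440582043680)) .nil)))) (.cons (.br (nat_lit 5) (nat_lit 0) (.cons (.rf (nat_lit 3164) (nat_lit 493858305440582043680)) (.cons (.rf (nat_lit 3165) (nat_lit 493858305440582043680)) (.cons (.rf (nat_lit 3166) (nat_lit 493858305440582043680))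 (.cons (.br (nat_lit 5) (nat_lit 0) (.cons (.rf (nat_lit 3164) (nat_lit 493858305440582043680)) (.cons (.rf (nat_lit 3165) (nat_lit 493858305440582043680)) (.cons (.rf (nat_lit 3166) (nat_lit 493858305440582043680)) .nil)))) .nil))))) .nil))))),
 (.br (nat_lit 6) (nat_lit 1) (.cons (.kr (nat_lit 256) (nat_lit 65536) (nat_lit 1) (nat_lit 0)) (.cons (.br (nat_lit 4) (nat_lit 1) (.cons (.br (nat_lit 8) (nat_lit 1) (.cons (.ev (nat_lit 79229371458603036469266284545) (nat_lit 1)) .nil)) (.cons (.br (nat_lit 8) (nat_lit 1) (.cons (.br (nat_lit 11) (nat_lit 1) (.cons (.ev (nat_lit 20678555280297723812231841515268) (nat_lit 3)) .nil)) (.cons (.rf (nat_lit 2998) (nat_lit 458117738729117419552)) .nil))) .nil))) (.cons (.rf (nat_lit 3117) (nat_lit 493858305440582043680)) .nil)))),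
 (.br (nat_lit 11) (nat_lit 1) (.cons (.ev (nat_lit 20679174250317077711250900059396) (nat_lit 3)) .nil)),
 (.br (nat_lit 7) (nat_lit 0) (.cons (.br (nat_lit 8) (nat_lit 1) (.cons (.rf (nat_lit 3169) (nat_lit 493858305440582043680)) (.cons (.rf (nat_lit 3169) (nat_lit 493858305440582042688)) .nil))) (.cons (.rf (nat_lit 2963) (nat_lit 493786318215288293408)) (.cons (.rf (nat_lit 2963) (nat_lit 493786215960706910240)) .nil)))),
 (.br (nat_lit 8) (nat_lit 1) (.cons (.rf (nat_lit 3127) (nat_lit 458082801744999450656)) (.cons (.rf (nat_lit 3127) (nat_lit 458082801744999449664)) (.cons (.kr (nat_lit 4740813226943354765312) (nat_lit 20361637766165934761540795236352) (nat_lit 8) (nat_lit 0)) (.cons (.rf (nat_lit 3159) (nat_lit 458082801744999450656)) .nil))))),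
 (.br (nat_lit 7) (nat_lit 0) (.cons (.ev (nat_lit 72057598349672449) (nat_lit 1)) (.cons (.rf (nat_lit 2009) (nat_lit 15433066446564984864)) .nil))),
 (.br (nat_lit 4) (nat_lit 1) (.cons (.ev (nat_lit 20361638975091754657649258463233) (nat_lit 1)) (.cons (.rf (nat_lit 3097) (nat_lit 493858199890687002656)) .nil))),
 (.br (nat_lit 6) (nat_lit 0) (.cons (.kr (nat_lit 79537647524085683761780359168) (nat_lit 9444733247214267138048) (nat_lit 5) (nat_lit 0)) (.cons (.br (nat_lit 4) (nat_lit 1) (.cons (.rf (nat_lit 2631) (nat_lit 420143211849824962592)) (.cons (.rf (nat_lit 2631) (nat_lit 420143211849824961600)) .nil))) .nil))),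
 (.br (nat_lit 10) (nat_lit 1) (.cons (.rf (nat_lit 3167) (nat_lit 493858305440582043680)) (.cons (.rf (nat_lit 3167) (nat_lit 493858305440582042688)) (.cons (.br (nat_lit 6) (nat_lit 1) (.cons (.rf (nat_lit 3168) (nat_lit 493858305440582043680)) (.cons (.rf (nat_lit 3168) (nat_lit 493858305440582042688)) (.cons (.br (nat_lit 6) (nat_lit 1) (.cons (.rf (nat_lit 3168) (nat_lit 493858305440582043680)) (.cons (.rf (nat_lit 3168) (nat_lit 493858305440582042688)) (.cons (.rf (nat_lit 3117) (nat_lit 493858305440582043680)) .nil)))) (.cons (.rf (nat_lit 3117) (nat_lit 493858305440582043680)) .nil))))) (.cons (.br (nat_lit 13) (nat_lit 0) (.cons (.br (nat_lit 6) (nat_lit 1) (.cons (.rf (nat_lit 3145) (nat_lit 493857214725047289888)) (.cons (.rf (nat_lit 3145) (nat_lit 493857214725047288896)) (.cons (.rf (nat_lit 3170) (nat_lit 493858305440582043680)) (.cons (.br (nat_lit 6) (nat_lit 1) (.cons (.rf (nat_lit 3145) (nat_lit 493857214725047289888)) (.cons (.rf (nat_lit 3145) (nat_lit 493857214725047288896))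 (.cons (.rf (nat_lit 3170) (nat_lit 493858305440582043680)) .nil)))) .nil))))) (.cons (.rf (nat_lit 3171) (nat_lit 493858305440582043680)) (.cons (.br (nat_lit 5) (nat_lit 0) (.cons (.rf (nat_lit 3172) (nat_lit 493858305440582043680)) (.cons (.br (nat_lit 6) (nat_lit 1) (.cons (.rf (nat_lit 3173) (nat_lit 493858305440582043680)) (.cons (.rf (nat_lit 3173) (nat_lit 493858305440582042688)) (.cons (.rf (nat_lit 3135) (nat_lit 493750116798164994080)) .nil)))) (.cons (.rf (nat_lit 3174) (nat_lit 15433072044983552032)) .nil)))) (.cons (.br (nat_lit 5) (nat_lit 0) (.cons (.rf (nat_lit 3172) (nat_lit 493750222348060035104)) (.cons (.br (nat_lit 7) (nat_lit 0) (.cons (.br (nat_lit 6) (nat_lit 1) (.cons (.rf (nat_lit 3097) (nat_lit 493858199890687002656)) (.cons (.rf (nat_lit 3097) (nat_lit 493858199890687001664)) .nil))) (.cons (.rf (nat_lit 3135) (nat_lit 493858199890687002656)) (.cons (.br (nat_lit 6) (nat_lit 1) (.cons (.rf (nat_lit 3161) (nat_lit 493858305440582042688)) (.cons (.rf (nat_lit 3161)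 (nat_lit 493858305440582043680)) .nil))) .nil)))) (.cons (.rf (nat_lit 3174) (nat_lit 15429694448342239264)) .nil)))) .nil))))) .nil))))),
 (.br (nat_lit 6) (nat_lit 1) (.cons (.kr (nat_lit 256) (nat_lit 65536) (nat_lit 1) (nat_lit 0)) (.cons (.br (nat_lit 4) (nat_lit 1) (.cons (.br (nat_lit 5) (nat_lit 0) (.cons (.br (nat_lit 11) (nat_lit 1) (.cons (.zr (nat_lit 9481626453886726504448) (nat_lit 310693935641241177171165697) (nat_lit 5) (nat_lit 4)) .nil)) (.cons (.ev (nat_lit 79537652246524505704751956225) (nat_lit 1)) .nil))) (.cons (.br (nat_lit 2) (nat_lit 0) (.cons (.ev (nat_lit 79231789347208374423304405250) (nat_lit 2)) (.cons (.ev (nat_lit 310693935641242276682792961) (nat_lit 1)) .nil))) (.cons (.br (nat_lit 8) (nat_lit 1) (.cons (.rf (nat_lit 2974) (nat_lit 493821118857819031584)) (.cons (.rf (nat_lit 3079) (nat_lit 493820028142284277792)) .nil))) .nil)))) (.cons (.rf (nat_lit 3171) (nat_lit 493858305440582043680)) .nil)))),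
 (.br (nat_lit 10) (nat_lit 1) (.cons (.rf (nat_lit 3167) (nat_lit 493858305440582043680)) (.cons (.rf (nat_lit 3167) (nat_lit 493858305440582042688)) (.cons (.rf (nat_lit 3175) (nat_lit 493858305440582043680)) (.cons (.br (nat_lit 6) (nat_lit 1) (.cons (.rf (nat_lit 3176) (nat_lit 493858305440582043680)) (.cons (.rf (nat_lit 3176) (nat_lit 493858305440582042688)) (.cons (.br (nat_lit 6) (nat_lit 1) (.cons (.rf (nat_lit 3176) (nat_lit 493858305440582043680)) (.cons (.rf (nat_lit 3176) (nat_lit 493858305440582042688)) (.cons (.rf (nat_lit 3171) (nat_lit 493858305440582043680)) .nil)))) (.cons (.rf (nat_lit 3171) (nat_lit 493858305440582043680)) .nil))))) .nil))))),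
 (.br (nat_lit 9) (nat_lit 1) (.cons (.rf (nat_lit 3127) (nat_lit 493858305440582043680)) (.cons (.rf (nat_lit 3127) (nat_lit 493858305440582042688)) (.cons (.rf (nat_lit 3159) (nat_lit 493858305440582043680)) (.cons (.br (nat_lit 10) (nat_lit 1) (.cons (.rf (nat_lit 3167) (nat_lit 493858305440582043680)) (.cons (.rf (nat_lit 3167) (nat_lit 493858305440582042688)) (.cons (.rf (nat_lit 3175) (nat_lit 493858305440582043680)) (.cons (.rf (nat_lit 3177) (nat_lit 493858305440582043680)) (.cons (.br (nat_lit 10) (nat_lit 1) (.cons (.rf (nat_lit 3167) (nat_lit 493858305440582043680)) (.cons (.rf (nat_lit 3167) (nat_lit 493858305440582042688)) (.cons (.rf (nat_lit 3175) (nat_lit 493858305440582043680)) (.cons (.rf (nat_lit 3177) (nat_lit 493858305440582043680)) .nil))))) .nil)))))) .nil)))))]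

theorem c111 : chkAll C T R L111 (nat_lit 3158) = true := by decide +kernel

theorem l111 : (nat_lit 3158) + L111.length = (nat_lit 3179) := by decide +kernel

/-- part of the certificates -/
def L112 : List Prf := [(.br (nat_lit 12) (nat_lit 0) (.cons (.rf (nat_lit 2870) (nat_lit 493858305440582043680)) (.cons (.rf (nat_lit 2998) (nat_lit 493858305440582043680)) (.cons (.rf (nat_lit 3094) (nat_lit 493858305440582043680)) (.cons (.br (nat_lit 9) (nat_lit 1) (.cons (.rf (nat_lit 3127) (nat_lit 493858305440582043680)) (.cons (.rf (nat_lit 3127) (nat_lit 493858305440582042688)) (.cons (.rf (nat_lit 3159) (nat_lit 493858305440582043680)) (.cons (.rf (nat_lit 3178) (nat_lit 493858305440582043680)) (.cons (.br (nat_lit 9) (nat_lit 1) (.cons (.rf (nat_lit 3127) (nat_lit 493858305440582043680)) (.cons (.rf (nat_lit 3127) (nat_lit 493858305440582042688)) (.cons (.rf (nat_lit 3159) (nat_lit 493858305440582043680)) (.cons (.rf (nat_lit 3178) (nat_lit 493858305440582043680)) .nil))))) .nil)))))) .nil))))),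
 (.br (nat_lit 11) (nat_lit 1) (.cons (.rf (nat_lit 2725) (nat_lit 493750116798164994080)) (.cons (.br (nat_lit 9) (nat_lit 1) (.cons (.br (nat_lit 8) (nat_lit 1) (.cons (.br (nat_lit 4) (nat_lit 1) (.cons (.ev (nat_lit 79228167255149904709736792065) (nat_lit 1)) .nil)) (.cons (.br (nat_lit 4) (nat_lit 1) (.cons (.ev (nat_lit 309485028340428215743938561) (nat_lit 1)) (.cons (.rf (nat_lit 3179) (nat_lit 458117738729117419552)) .nil))) .nil))) (.cons (.kr (nat_lit 4722366482869645213952) (nat_lit 72057594054705152) (nat_lit 1) (nat_lit 0)) (.cons (.br (nat_lit 5) (nat_lit 0) (.cons (.br (nat_lit 13) (nat_lit 0) (.cons (.br (nat_lit 7) (nat_lit 0) (.cons (.ev (nat_lit 79229371458603036469266284545) (nat_lit 1)) .nil)) (.cons (.br (nat_lit 7) (nat_lit 0) (.cons (.ev (nat_lit 158457533973011491454204379650) (nat_lit 2)) .nil)) .nil))) (.cons (.br (nat_lit 13) (nat_lit 0) (.cons (.ev (nat_lit 79228162532711364246036873473) (nat_lit 1)) (.cons (.br (nat_lit 7) (nat_lit 0) (.cons (.ev (nat_lit 80160253784367207983859565314)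 (nat_lit 2)) .nil)) .nil))) (.cons (.br (nat_lit 7) (nat_lit 0) (.cons (.ev (nat_lit 309485009893403766569304321) (nat_lit 1)) (.cons (.br (nat_lit 4) (nat_lit 1) (.cons (.ev (nat_lit 20678555280297723812231841515268) (nat_lit 3)) .nil)) .nil))) .nil)))) .nil)))) .nil))),
 (.br (nat_lit 11) (nat_lit 1) (.cons (.rf (nat_lit 2725) (nat_lit 493750116798164994080)) (.cons (.rf (nat_lit 3180) (nat_lit 493858305440582043680)) (.cons (.br (nat_lit 11) (nat_lit 1) (.cons (.rf (nat_lit 2725) (nat_lit 493750116798164994080)) (.cons (.rf (nat_lit 3180) (nat_lit 493858305440582043680)) .nil))) .nil)))),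
 (.br (nat_lit 11) (nat_lit 1) (.cons (.rf (nat_lit 2725) (nat_lit 493858199890687002656)) (.cons (.br (nat_lit 8) (nat_lit 1) (.cons (.rf (nat_lit 3181) (nat_lit 493858305440582043680)) (.cons (.br (nat_lit 4) (nat_lit 1) (.cons (.br (nat_lit 9) (nat_lit 1) (.cons (.br (nat_lit 13) (nat_lit 0) (.cons (.zr (nat_lit 9481626453886726504448) (nat_lit 310693935641241177171165697) (nat_lit 5) (nat_lit 4)) .nil)) .nil)) (.cons (.ev (nat_lit 309485028340146740784005121) (nat_lit 1)) .nil))) (.cons (.br (nat_lit 4) (nat_lit 1) (.cons (.br (nat_lit 10) (nat_lit 1) (.cons (.ev (nat_lit 79229371458603036469266284545) (nat_lit 1)) (.cons (.zr (nat_lit 40723275532331869525280613794560) (nat_lit 310693972534729324623822849) (nat_lit 5) (nat_lit 0)) .nil))) (.cons (.br (nat_lit 2) (nat_lit 0) (.cons (.rf (nat_lit 2711) (nat_lit 493675982221298731040)) (.cons (.ev (nat_lit 79229371458603036469266284545) (nat_lit 1)) .nil))) (.cons (.rf (nat_lit 3179) (nat_lit 458117738729117419552)) .nil)))) .nil)))) .nil))),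
 (.br (nat_lit 11) (nat_lit 1) (.cons (.rf (nat_lit 2725) (nat_lit 493858199890687002656)) (.cons (.rf (nat_lit 3182) (nat_lit 493858305440582043680)) (.cons (.br (nat_lit 11) (nat_lit 1) (.cons (.rf (nat_lit 2725) (nat_lit 493858199890687002656)) (.cons (.rf (nat_lit 3182) (nat_lit 493858305440582043680)) .nil))) .nil)))),
 (.br (nat_lit 13) (nat_lit 0) (.cons (.rf (nat_lit 3179) (nat_lit 458117738729117419552)) (.cons (.br (nat_lit 5) (nat_lit 0) (.cons (.br (nat_lit 2) (nat_lit 0) (.cons (.br (nat_lit 7) (nat_lit 0) (.cons (.ev (nat_lit 310693935641242276682792961) (nat_lit 1)) .nil)) .nil)) (.cons (.br (nat_lit 2) (nat_lit 0) (.cons (.br (nat_lit 11) (nat_lit 1) (.cons (.ev (nat_lit 79537652246524505704751956225) (nat_lit 1)) .nil)) (.cons (.br (nat_lit 4) (nat_lit 1) (.cons (.ev (nat_lit 20838863679682047342601585361156) (nat_lit 3)) .nil)) .nil))) .nil))) (.cons (.br (nat_lit 11) (nat_lit 1) (.cons (.br (nat_lit 7) (nat_lit 0) (.cons (.br (nat_lit 10) (nat_lit 1) (.cons (.ev (nat_lit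 79229371440156009821068394753) (nat_lit 1)) .nil)) (.cons (.br (nat_lit 5) (nat_lit 0) (.cons (.ev (nat_lit 310693935641242276682792961) (nat_lit 1)) .nil)) .nil))) (.cons (.br (nat_lit 4) (nat_lit 1) (.cons (.ev (nat_lit 20361947251175756388088808538113) (nat_lit 1)) (.cons (.rf (nat_lit 3097) (nat_lit 493823298092012767264)) .nil))) (.cons (.br (nat_lit 5) (nat_lit 0) (.cons (.ev (nat_lit 309485028340146740784005121) (nat_lit 1)) (.cons (.br (nat_lit 2) (nat_lit 0) (.cons (.ev (nat_lit 79229371458603036469266284545) (nat_lit 1)) .nil)) .nil))) .nil)))) .nil)))),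
 (.br (nat_lit 13) (nat_lit 0) (.cons (.rf (nat_lit 3179) (nat_lit 458117738729117419552)) (.cons (.rf (nat_lit 3184) (nat_lit 493858305440582043680)) (.cons (.br (nat_lit 11) (nat_lit 1) (.cons (.rf (nat_lit 1891) (nat_lit 458117736532241646656)) (.cons (.br (nat_lit 4) (nat_lit 1) (.cons (.ev (nat_lit 20361637766165935044119578542081) (nat_lit 1)) (.cons (.rf (nat_lit 3097) (nat_lit 493823298092012767264)) .nil))) (.cons (.br (nat_lit 5) (nat_lit 0) (.cons (.ev (nat_lit 309485028340146740784005121) (nat_lit 1)) (.cons (.br (nat_lit 2) (nat_lit 0) (.cons (.zr (nat_lit 9481626453886726504448) (nat_lit 310693935641241177171165697) (nat_lit 5) (nat_lit 4)) .nil)) .nil))) .nil)))) .nil)))),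
 (.br (nat_lit 8) (nat_lit 1) (.cons (.rf (nat_lit 3181) (nat_lit 493858305440582043680)) (.cons (.rf (nat_lit 3183) (nat_lit 493858305440582043680)) (.cons (.br (nat_lit 13) (nat_lit 0) (.cons (.rf (nat_lit 3179) (nat_lit 458117738729117419552)) (.cons (.rf (nat_lit 3184) (nat_lit 493858305440582043680)) (.cons (.rf (nat_lit 3185) (nat_lit 493858305440582043680)) (.cons (.br (nat_lit 13) (nat_lit 0) (.cons (.rf (nat_lit 3179) (nat_lit 458117738729117419552)) (.cons (.rf (nat_lit 3184) (nat_lit 493858305440582043680)) (.cons (.rf (nat_lit 3185) (nat_lit 493858305440582043680)) .nil)))) .nil))))) .nil)))),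
 (.br (nat_lit 8) (nat_lit 1) (.cons (.br (nat_lit 10) (nat_lit 1) (.cons (.br (nat_lit 11) (nat_lit 1) (.cons (.ev (nat_lit 20837009178103810816556203574020) (nat_lit 3)) .nil)) .nil)) (.cons (.rf (nat_lit 3179) (nat_lit 458117738729117419552)) .nil))),
 (.br (nat_lit 5) (nat_lit 0) (.cons (.br (nat_lit 8) (nat_lit 1) (.cons (.br (nat_lit 10) (nat_lit 1) (.cons (.ev (nat_lit 79235430254872340953091736580) (nat_lit 3)) .nil)) (.cons (.ev (nat_lit 79228162532711082771076874241) (nat_lit 1)) .nil))) (.cons (.br (nat_lit 11) (nat_lit 1) (.cons (.br (nat_lit 13) (nat_lit 0) (.cons (.ev (nat_lit 309485009893685241562792193) (nat_lit 1)) (.cons (.rf (nat_lit 3077) (nat_lit 493858305440582042688)) .nil))) (.cons (.br (nat_lit 7) (nat_lit 0) (.cons (.br (nat_lit 13) (nat_lit 0) (.cons (.ev (nat_lit 309485028340428215744004353) (nat_lit 1)) .nil)) (.cons (.br (nat_lit 13) (nat_lit 0) (.cons (.ev (nat_lit 79229371458602754994272796673) (nat_lit 1)) .nil)) .nil))) .nil))) (.cons (.rf (nat_lit 2725) (nat_lit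 493678231827452625984)) .nil)))),
 (.br (nat_lit 8) (nat_lit 1) (.cons (.rf (nat_lit 3188) (nat_lit 493858305440582043680)) (.cons (.br (nat_lit 4) (nat_lit 1) (.cons (.br (nat_lit 11) (nat_lit 1) (.cons (.br (nat_lit 13) (nat_lit 0) (.cons (.ev (nat_lit 310693935641242276682858753) (nat_lit 1)) .nil)) (.cons (.br (nat_lit 5) (nat_lit 0) (.cons (.zr (nat_lit 618970019859429168051650560) (nat_lit 1213721973073797969870849) (nat_lit 5) (nat_lit 0)) .nil)) .nil))) (.cons (.rf (nat_lit 3179) (nat_lit 458117738729117419552)) .nil))) .nil))),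
 (.br (nat_lit 9) (nat_lit 1) (.cons (.br (nat_lit 4) (nat_lit 1) (.cons (.br (nat_lit 10) (nat_lit 1) (.cons (.rf (nat_lit 449) (nat_lit 14240705350277072096)) (.cons (.br (nat_lit 11) (nat_lit 1) (.cons (.ev (nat_lit 310698658079782740382712065) (nat_lit 1)) (.cons (.br (nat_lit 13) (nat_lit 0) (.cons (.br (nat_lit 7) (nat_lit 0) (.cons (.ev (nat_lit 79228167255149623234743304193) (nat_lit 1)) .nil)) .nil)) .nil))) .nil))) (.cons (.ev (nat_lit 4722366482873940246529) (nat_lit 1)) (.cons (.br (nat_lit 8) (nat_lit 1) (.cons (.rf (nat_lit 3187) (nat_lit 493858305440582043680)) (.cons (.br (nat_lit 8) (nat_lit 1) (.cons (.rf (nat_lit 3187) (nat_lit 493858305440582043680)) (.cons (.rf (nat_lit 3179) (nat_lit 458117738729117419552)) .nil))) (.cons (.rf (nat_lit 3179) (nat_lit 458117738729117419552)) .nil)))) .nil)))) (.cons (.kr (nat_lit 4722366482869645214208) (nat_lit 72057594054770688) (nat_lit 1) (nat_lit 0)) (.cons (.br (nat_lit 8) (nat_lit 1) (.cons (.rf (nat_lit 3188) (nat_lit 493858305440582043680))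 (.cons (.rf (nat_lit 3189) (nat_lit 493858305440582043680)) (.cons (.br (nat_lit 8) (nat_lit 1) (.cons (.rf (nat_lit 3188) (nat_lit 493858305440582043680)) (.cons (.rf (nat_lit 3189) (nat_lit 493858305440582043680)) .nil))) .nil)))) .nil)))),
 (.br (nat_lit 9) (nat_lit 1) (.cons (.ev (nat_lit 309485009821345073019813889) (nat_lit 1)) (.cons (.ev (nat_lit 1208925891673327019229441) (nat_lit 1)) (.cons (.br (nat_lit 8) (nat_lit 1) (.cons (.ev (nat_lit 310693935640960801722925313) (nat_lit 1)) (.cons (.ev (nat_lit 72057598349672449) (nat_lit 1)) (.cons (.kr (nat_lit 1208925819614629174706176) (nat_lit 79228162514264337593543950336) (nat_lit 10) (nat_lit 0)) .nil)))) .nil)))),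
 (.br (nat_lit 4) (nat_lit 1) (.cons (.rf (nat_lit 3191) (nat_lit 15433072009550071840)) (.cons (.rf (nat_lit 3107) (nat_lit 493823298092012767264)) (.cons (.br (nat_lit 8) (nat_lit 1) (.cons (.rf (nat_lit 2725) (nat_lit 493678129572871242816)) (.cons (.br (nat_lit 13) (nat_lit 0) (.cons (.br (nat_lit 10) (nat_lit 1) (.cons (.ev (nat_lit 79538861172271781264912089345) (nat_lit 1)) .nil)) (.cons (.br (nat_lit 9) (nat_lit 1) (.cons (.ev (nat_lit 310698658079501265389224193) (nat_lit 1)) .nil)) .nil))) (.cons (.rf (nat_lit 2970) (nat_lit 14313961518356596768)) .nil)))) .nil)))),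
 (.br (nat_lit 8) (nat_lit 1) (.cons (.rf (nat_lit 3192) (nat_lit 493858305440582043680)) (.cons (.rf (nat_lit 2886) (nat_lit 493853838126985873440)) (.cons (.br (nat_lit 4) (nat_lit 1) (.cons (.rf (nat_lit 3111) (nat_lit 493823298092012767264)) (.cons (.rf (nat_lit 3191) (nat_lit 15433072009550071840)) (.cons (.rf (nat_lit 3179) (nat_lit 458117738729117419552)) .nil)))) .nil)))),
 (.br (nat_lit 11) (nat_lit 1) (.cons (.rf (nat_lit 3190) (nat_lit 493858305440582043680)) (.cons (.br (nat_lit 2) (nat_lit 0) (.cons (.rf (nat_lit 2587) (nat_lit 493751235002569426976)) (.cons (.br (nat_lit 8) (nat_lit 1) (.cons (.rf (nat_lit 795) (nat_lit 13977175663413280)) (.cons (.br (nat_lit 4) (nat_lit 1) (.cons (.br (nat_lit 9) (nat_lit 1) (.cons (.ev (nat_lit 79537652246524224229758468353) (nat_lit 1)) .nil)) (.cons (.rf (nat_lit 3179) (nat_lit 458117738729117419552)) .nil))) .nil))) (.cons (.rf (nat_lit 2587) (nat_lit 493751240500122322976)) (.cons (.rf (nat_lit 2587) (nat_lit 493751241598560208928)) .nil)))))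 (.cons (.br (nat_lit 8) (nat_lit 1) (.cons (.rf (nat_lit 3192) (nat_lit 493858305440582043680)) (.cons (.rf (nat_lit 2886) (nat_lit 493853838126985873440)) (.cons (.rf (nat_lit 3193) (nat_lit 493858305440582043680)) (.cons (.br (nat_lit 8) (nat_lit 1) (.cons (.rf (nat_lit 3192) (nat_lit 493858305440582043680)) (.cons (.rf (nat_lit 2886) (nat_lit 493853838126985873440)) (.cons (.rf (nat_lit 3193) (nat_lit 493858305440582043680)) .nil)))) .nil))))) .nil)))),
 (.br (nat_lit 10) (nat_lit 1) (.cons (.br (nat_lit 4) (nat_lit 1) (.cons (.br (nat_lit 8) (nat_lit 1) (.cons (.ev (nat_lit 79229371458603036469266284545) (nat_lit 1)) .nil)) (.cons (.br (nat_lit 5) (nat_lit 0) (.cons (.br (nat_lit 9) (nat_lit 1) (.cons (.ev (nat_lit 20678555280297723812231841515268) (nat_lit 3)) .nil)) (.cons (.rf (nat_lit 2976) (nat_lit 493751381233315711008)) .nil))) .nil))) (.cons (.br (nat_lit 8) (nat_lit 1) (.cons (.br (nat_lit 4) (nat_lit 1) (.cons (.ev (nat_lit 158457533973011491454204379650) (nat_lit 2)) (.cons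 (.br (nat_lit 5) (nat_lit 0) (.cons (.ev (nat_lit 79228167255149904709736792065) (nat_lit 1)) .nil)) .nil))) (.cons (.br (nat_lit 9) (nat_lit 1) (.cons (.br (nat_lit 5) (nat_lit 0) (.cons (.ev (nat_lit 20678550425704979422236561835780) (nat_lit 3)) .nil)) .nil)) .nil))) .nil))),
 (.br (nat_lit 8) (nat_lit 1) (.cons (.rf (nat_lit 3195) (nat_lit 493858305440582043680)) (.cons (.br (nat_lit 4) (nat_lit 1) (.cons (.ev (nat_lit 309485028340428215744004353) (nat_lit 1)) (.cons (.ev (nat_lit 79228162532711082771076874241) (nat_lit 1)) (.cons (.rf (nat_lit 3179) (nat_lit 458117738729117419552)) .nil)))) .nil))),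
 (.br (nat_lit 11) (nat_lit 1) (.cons (.rf (nat_lit 3190) (nat_lit 493858305440582043680)) (.cons (.rf (nat_lit 3194) (nat_lit 493858305440582043680)) (.cons (.br (nat_lit 8) (nat_lit 1) (.cons (.rf (nat_lit 3195) (nat_lit 493858305440582043680)) (.cons (.rf (nat_lit 3196) (nat_lit 493858305440582043680)) (.cons (.br (nat_lit 8) (nat_lit 1) (.cons (.rf (nat_lit 3195) (nat_lit 493858305440582043680)) (.cons (.rf (nat_lit 3196) (nat_lit 493858305440582043680)) .nil))) .nil)))) .nil)))),
 (.br (nat_lit 11) (nat_lit 1) (.cons (.br (nat_lit 7) (nat_lit 0) (.cons (.ev (nat_lit 309485028340428215743938561) (nat_lit 1)) (.cons (.kr (nat_lit 4722366482869645213952) (nat_lit 72057594054705152) (nat_lit 1) (nat_lit 0)) .nil))) .nil)),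
 (.br (nat_lit 2) (nat_lit 0) (.cons (.ev (nat_lit 79229376162450716571652390913) (nat_lit 1)) (.cons (.br (nat_lit 9) (nat_lit 1) (.cons (.ev (nat_lit 20282409608392483650894901084161) (nat_lit 1)) (.cons (.ev (nat_lit 4722366482873940246529) (nat_lit 1)) .nil))) .nil))),
 (.br (nat_lit 5) (nat_lit 0) (.cons (.rf (nat_lit 3199) (nat_lit 493858305440582043680)) (.cons (.br (nat_lit 7) (nat_lit 0) (.cons (.ev (nat_lit 20361637770888373303108284973313) (nat_lit 1)) (.cons (.br (nat_lit 2) (nat_lit 0) (.cons (.zr (nat_lit 9481626453886726504448) (nat_lit 310693935641241177171165697) (nat_lit 5) (nat_lit 4)) .nil)) .nil))) .nil))),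
 (.br (nat_lit 5) (nat_lit 0) (.cons (.kr (nat_lit 20361637766165934761540795302144) (nat_lit 72058693583110144) (nat_lit 1) (nat_lit 0)) .nil)),
 (.br (nat_lit 11) (nat_lit 1) (.cons (.kr (nat_lit 20282409603651670423947251351552) (nat_lit 1099528404992) (nat_lit 2) (nat_lit 0)) (.cons (.br (nat_lit 7) (nat_lit 0) (.cons (.rf (nat_lit 3201) (nat_lit 493857214725047289888)) (.cons (.rf (nat_lit 3201) (nat_lit 493858305440582043680)) .nil))) .nil))),
 (.br (nat_lit 7) (nat_lit 0) (.cons (.ev (nat_lit 72057598349672449) (nat_lit 1)) (.cons (.ev (nat_lit 72057598349738241) (nat_lit 1)) (.cons (.kr (nat_lit 79228162514264337593543950592) (nat_lit 72057594054705152) (nat_lit 1) (nat_lit 0)) (.cons (.kr (nat_lit 4722366482869645213952) (nat_lit 72057594054705152) (nat_lit 1) (nat_lit 0)) .nil))))),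
 (.br (nat_lit 13) (nat_lit 0) (.cons (.rf (nat_lit 2870) (nat_lit 458117738729117419552)) (.cons (.rf (nat_lit 3179) (nat_lit 458082801744999450656)) (.cons (.br (nat_lit 8) (nat_lit 1) (.cons (.br (nat_lit 11) (nat_lit 1) (.cons (.rf (nat_lit 3198) (nat_lit 493858305440582043680)) (.cons (.br (nat_lit 11) (nat_lit 1) (.cons (.rf (nat_lit 3198) (nat_lit 493858305440582043680)) .nil)) .nil))) (.cons (.kr (nat_lit 18446744073709551616) (nat_lit 20282409603651670423947251286016) (nat_lit 8) (nat_lit 0)) (.cons (.br (nat_lit 5) (nat_lit 0) (.cons (.rf (nat_lit 3199) (nat_lit 493858305440582043680)) (.cons (.rf (nat_lit 3200) (nat_lit 493858305440582043680)) (.cons (.br (nat_lit 5) (nat_lit 0) (.cons (.rf (nat_lit 3199) (nat_lit 493858305440582043680)) (.cons (.rf (nat_lit 3200) (nat_lit 493858305440582043680)) .nil))) .nil)))) .nil)))) (.cons (.br (nat_lit 4) (nat_lit 1) (.cons (.br (nat_lit 8) (nat_lit 1) (.cons (.rf (nat_lit 3202) (nat_lit 493858305440582043680)) (.cons (.br (nat_lit 9) (nat_lit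 1) (.cons (.kr (nat_lit 4740813226943354765312) (nat_lit 20361637766165934761540795236352) (nat_lit 8) (nat_lit 0)) (.cons (.rf (nat_lit 3202) (nat_lit 458082801744999449664)) .nil))) .nil))) (.cons (.br (nat_lit 8) (nat_lit 1) (.cons (.br (nat_lit 11) (nat_lit 1) (.cons (.br (nat_lit 9) (nat_lit 1) (.cons (.rf (nat_lit 3203) (nat_lit 14242959524133701664)) .nil)) (.cons (.br (nat_lit 7) (nat_lit 0) (.cons (.kr (nat_lit 4722366482869645213952) (nat_lit 72057594054705152) (nat_lit 1) (nat_lit 0)) (.cons (.rf (nat_lit 2763) (nat_lit 493750116798164994080)) .nil))) .nil))) (.cons (.ev (nat_lit 79228162532711082771076874241) (nat_lit 1)) (.cons (.br (nat_lit 10) (nat_lit 1) (.cons (.ev (nat_lit 79228162514264337597838983169) (nat_lit 1)) (.cons (.br (nat_lit 11) (nat_lit 1) (.cons (.rf (nat_lit 2648) (nat_lit 493679323568482124864)) (.cons (.ev (nat_lit 309485028340146740784005121) (nat_lit 1)) .nil))) (.cons (.br (nat_lit 11) (nat_lit 1) (.cons (.zr (nat_lit 40723276741257689137710765375488)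 (nat_lit 309485009965741736089092097) (nat_lit 5) (nat_lit 11)) (.cons (.ev (nat_lit 20282719088661563826614325739521) (nat_lit 1)) .nil))) .nil)))) .nil)))) (.cons (.br (nat_lit 10) (nat_lit 1) (.cons (.br (nat_lit 11) (nat_lit 1) (.cons (.rf (nat_lit 3124) (nat_lit 458116648011437278272)) (.cons (.br (nat_lit 9) (nat_lit 1) (.cons (.br (nat_lit 8) (nat_lit 1) (.cons (.ev (nat_lit 79228167255149623234743238913) (nat_lit 1)) .nil)) .nil)) .nil))) (.cons (.br (nat_lit 5) (nat_lit 0) (.cons (.br (nat_lit 9) (nat_lit 1) (.cons (.rf (nat_lit 2769) (nat_lit 493750116792801527840)) (.cons (.kr (nat_lit 4740813226943354765312) (nat_lit 20361637766165934761540795236352) (nat_lit 8) (nat_lit 0)) .nil))) (.cons (.ev (nat_lit 20282410812577490039680249364481) (nat_lit 1)) (.cons (.br (nat_lit 7) (nat_lit 0) (.cons (.rf (nat_lit 2772) (nat_lit 493748990899331893280)) (.cons (.ev (nat_lit 20282720302309749924113145659393) (nat_lit 1)) .nil))) .nil)))) (.cons (.br (nat_lit 11) (nat_lit 1) (.cons (.rf (nat_lit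 2648) (nat_lit 493679323637134492736)) (.cons (.br (nat_lit 9) (nat_lit 1) (.cons (.rf (nat_lit 2675) (nat_lit 458045503019568694336)) (.cons (.ev (nat_lit 20361638979814120860143438528513) (nat_lit 1)) .nil))) .nil))) .nil)))) .nil)))) .nil)))))]

theorem c112 : chkAll C T R L112 (nat_lit 3179) = true := by decide +kernel

theorem l112 : (nat_lit 3179) + L112.length = (nat_lit 3205) := by decide +kernel

/-- part of the certificates -/
def L113 : List Prf := [(.br (nat_lit 4) (nat_lit 1) (.cons (.br (nat_lit 9) (nat_lit 1) (.cons (.br (nat_lit 11) (nat_lit 1) (.cons (.br (nat_lit 7) (nat_lit 0) (.cons (.ev (nat_lit 20678550425704979422236562096900) (nat_lit 3)) .nil)) .nil)) (.cons (.rf (nat_lit 3203) (nat_lit 14242959524133701664)) .nil))) (.cons (.br (nat_lit 9) (nat_lit 1) (.cons (.br (nat_lit 7) (nat_lit 0) (.cons (.rf (nat_lit 3005) (nat_lit 458046774047492113472)) (.cons (.br (nat_lit 8) (nat_lit 1) (.cons (.ev (nat_lit 309485028340428215743938561) (nat_lit 1)) .nil)) .nil))) (.cons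 (.br (nat_lit 5) (nat_lit 0) (.cons (.rf (nat_lit 2886) (nat_lit 458043501900887852096)) (.cons (.rf (nat_lit 3149) (nat_lit 14310509222577670176)) .nil))) .nil))) .nil))),
 (.br (nat_lit 8) (nat_lit 1) (.cons (.rf (nat_lit 3205) (nat_lit 493858305440582043680)) (.cons (.br (nat_lit 11) (nat_lit 1) (.cons (.rf (nat_lit 2649) (nat_lit 493679253268392412224)) (.cons (.rf (nat_lit 3024) (nat_lit 493858200989124888608)) (.cons (.br (nat_lit 4) (nat_lit 1) (.cons (.br (nat_lit 5) (nat_lit 0) (.cons (.ev (nat_lit 79228167255149904709736726785) (nat_lit 1)) .nil)) (.cons (.br (nat_lit 9) (nat_lit 1) (.cons (.ev (nat_lit 79229376162450716571652390913) (nat_lit 1)) .nil)) .nil))) .nil)))) .nil))),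
 (.br (nat_lit 13) (nat_lit 0) (.cons (.rf (nat_lit 2870) (nat_lit 458117738729117419552)) (.cons (.rf (nat_lit 3204) (nat_lit 493858305440582043680)) (.cons (.rf (nat_lit 3179) (nat_lit 458082801744999450656)) (.cons (.br (nat_lit 8) (nat_lit 1) (.cons (.rf (nat_lit 3205) (nat_lit 493858305440582043680)) (.cons (.rf (nat_lit 3206) (nat_lit 493858305440582043680)) (.cons (.br (nat_lit 8) (nat_lit 1) (.cons (.rf (nat_lit 3205) (nat_lit 493858305440582043680)) (.cons (.rf (nat_lit 3206) (nat_lit 493858305440582043680)) .nil))) .nil)))) .nil))))),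
 (.br (nat_lit 6) (nat_lit 1) (.cons (.kr (nat_lit 256) (nat_lit 65536) (nat_lit 1) (nat_lit 0)) (.cons (.br (nat_lit 8) (nat_lit 1) (.cons (.rf (nat_lit 3181) (nat_lit 493858305440582043680)) (.cons (.rf (nat_lit 3183) (nat_lit 493858305440582043680)) (.cons (.rf (nat_lit 3186) (nat_lit 493858305440582043680)) (.cons (.br (nat_lit 8) (nat_lit 1) (.cons (.rf (nat_lit 3181) (nat_lit 493858305440582043680)) (.cons (.rf (nat_lit 3183) (nat_lit 493858305440582043680)) (.cons (.rf (nat_lit 3186) (nat_lit 493858305440582043680)) .nil)))) .nil))))) (.cons (.br (nat_lit 11) (nat_lit 1) (.cons (.rf (nat_lit 3190) (nat_lit 493858305440582043680)) (.cons (.rf (nat_lit 3194) (nat_lit 493858305440582043680)) (.cons (.rf (nat_lit 3197) (nat_lit 493858305440582043680)) (.cons (.br (nat_lit 11) (nat_lit 1) (.cons (.rf (nat_lit 3190) (nat_lit 493858305440582043680)) (.cons (.rf (nat_lit 3194) (nat_lit 493858305440582043680)) (.cons (.rf (nat_lit 3197) (nat_lit 493858305440582043680)) .nil)))) .nil))))) (.cons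 (.br (nat_lit 13) (nat_lit 0) (.cons (.rf (nat_lit 2870) (nat_lit 458117738729117419552)) (.cons (.rf (nat_lit 3204) (nat_lit 493858305440582043680)) (.cons (.rf (nat_lit 3179) (nat_lit 458082801744999450656)) (.cons (.rf (nat_lit 3207) (nat_lit 493858305440582043680)) (.cons (.br (nat_lit 13) (nat_lit 0) (.cons (.rf (nat_lit 2870) (nat_lit 458117738729117419552)) (.cons (.rf (nat_lit 3204) (nat_lit 493858305440582043680)) (.cons (.rf (nat_lit 3179) (nat_lit 458082801744999450656)) (.cons (.rf (nat_lit 3207) (nat_lit 493858305440582043680)) .nil))))) .nil)))))) .nil))))),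
 (.br (nat_lit 2) (nat_lit 0) (.cons (.br (nat_lit 1) (nat_lit 0) (.cons (.kr (nat_lit 256) (nat_lit 65536) (nat_lit 1) (nat_lit 0)) .nil)) .nil)),
 (.br (nat_lit 13) (nat_lit 0) (.cons (.rf (nat_lit 3179) (nat_lit 458117738729117419552)) (.cons (.rf (nat_lit 2915) (nat_lit 482107578403358752)) (.cons (.br (nat_lit 10) (nat_lit 1) (.cons (.rf (nat_lit 2621) (nat_lit 458005185020176730144)) (.cons (.rf (nat_lit 2621) (nat_lit 458005185020176729152)) (.cons (.br (nat_lit 7) (nat_lit 0) (.cons (.br (nat_lit 2) (nat_lit 0) (.cons (.br (nat_lit 1) (nat_lit 0) (.cons (.ev (nat_lit 79537647542604485429544616193) (nat_lit 1)) .nil)) (.cons (.br (nat_lit 1) (nat_lit 0) (.cons (.ev (nat_lit 79537647542604485429544681473) (nat_lit 1)) .nil)) .nil))) (.cons (.rf (nat_lit 3209) (nat_lit 15433072009550071840)) .nil))) (.cons (.rf (nat_lit 2652) (nat_lit 15432931269920524320)) .nil))))) .nil)))),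
 (.br (nat_lit 11) (nat_lit 1) (.cons (.ev (nat_lit 20361947251194274908277267496961) (nat_lit 1)) .nil)),
 (.br (nat_lit 13) (nat_lit 0) (.cons (.rf (nat_lit 3179) (nat_lit 458117738729117419552)) (.cons (.rf (nat_lit 2915) (nat_lit 482107578403358752)) (.cons (.br (nat_lit 7) (nat_lit 0) (.cons (.br (nat_lit 9) (nat_lit 1) (.cons (.rf (nat_lit 3024) (nat_lit 458010780436990625824)) (.cons (.rf (nat_lit 3024) (nat_lit 458010780436990624832)) (.cons (.br (nat_lit 8) (nat_lit 1) (.cons (.rf (nat_lit 3211) (nat_lit 493858305440582043680)) (.cons (.rf (nat_lit 3211) (nat_lit 493858305440582042688)) .nil))) .nil)))) (.cons (.rf (nat_lit 2652) (nat_lit 15432932369431103520)) (.cons (.br (nat_lit 5) (nat_lit 0) (.cons (.ev (nat_lit 310693935640960801722859521) (nat_lit 1)) (.cons (.rf (nat_lit 3209) (nat_lit 15433037924689610784)) .nil))) .nil)))) .nil)))),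
 (.br (nat_lit 13) (nat_lit 0) (.cons (.rf (nat_lit 3179) (nat_lit 458117738729117419552)) (.cons (.rf (nat_lit 3210) (nat_lit 493858305440582043680)) (.cons (.rf (nat_lit 3212) (nat_lit 493858305440582043680)) (.cons (.br (nat_lit 13) (nat_lit 0) (.cons (.rf (nat_lit 3179) (nat_lit 458117738729117419552)) (.cons (.rf (nat_lit 3210) (nat_lit 493858305440582043680)) (.cons (.rf (nat_lit 3212) (nat_lit 493858305440582043680)) .nil)))) .nil))))),
 (.br (nat_lit 2) (nat_lit 0) (.cons (.zr (nat_lit 79228162514336397386605265152) (nat_lit 1213648186378973830184961) (nat_lit 5) (nat_lit 0)) .nil)),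
 (.br (nat_lit 8) (nat_lit 1) (.cons (.ev (nat_lit 20680412171540828244915882623748) (nat_lit 3)) .nil)),
 (.br (nat_lit 10) (nat_lit 1) (.cons (.ev (nat_lit 79229371440156291296028262401) (nat_lit 1)) .nil)),
 (.br (nat_lit 4) (nat_lit 1) (.cons (.rf (nat_lit 3216) (nat_lit 493858305440582043680)) (.cons (.rf (nat_lit 3216) (nat_lit 493858305440582042688)) .nil))),
 (.br (nat_lit 7) (nat_lit 0) (.cons (.ev (nat_lit 20282409608392555991059132317953) (nat_lit 1)) (.cons (.zr (nat_lit 40644047369817749301775634006784) (nat_lit 310703380374206912200179713) (nat_lit 5) (nat_lit 0)) .nil))),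
 (.br (nat_lit 13) (nat_lit 0) (.cons (.rf (nat_lit 3179) (nat_lit 458117738729117419552)) (.cons (.br (nat_lit 5) (nat_lit 0) (.cons (.br (nat_lit 7) (nat_lit 0) (.cons (.rf (nat_lit 3209) (nat_lit 15429484303113881632)) (.cons (.br (nat_lit 11) (nat_lit 1) (.cons (.rf (nat_lit 3214) (nat_lit 493858305440582043680)) (.cons (.rf (nat_lit 3214) (nat_lit 493858305440582042688)) .nil))) .nil))) (.cons (.rf (nat_lit 2652) (nat_lit 14308158299210614816)) (.cons (.br (nat_lit 8) (nat_lit 1) (.cons (.rf (nat_lit 3024) (nat_lit 493858271355721582624)) (.cons (.rf (nat_lit 3024) (nat_lit 493858271355721581632)) (.cons (.ev (nat_lit 20361638975110201402818184609793) (nat_lit 1)) .nil)))) .nil)))) (.cons (.br (nat_lit 5) (nat_lit 0) (.cons (.br (nat_lit 10) (nat_lit 1) (.cons (.ev (nat_lit 79228162514264337597838917889) (nat_lit 1)) (.cons (.ev (nat_lit 79228162514264337597838983169) (nat_lit 1)) (.cons (.br (nat_lit 11) (nat_lit 1) (.cons (.rf (nat_lit 3215) (nat_lit 493858305440582043680)) (.cons (.rf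 (nat_lit 3215) (nat_lit 493858305440582042688)) .nil))) .nil)))) (.cons (.br (nat_lit 11) (nat_lit 1) (.cons (.rf (nat_lit 3024) (nat_lit 493750290517780957216)) (.cons (.rf (nat_lit 3024) (nat_lit 493750290517780956224)) (.cons (.rf (nat_lit 3217) (nat_lit 493858305440582043680)) .nil)))) (.cons (.br (nat_lit 4) (nat_lit 1) (.cons (.rf (nat_lit 3218) (nat_lit 493858305440582043680)) (.cons (.rf (nat_lit 3218) (nat_lit 493858305440582042688)) (.cons (.ev (nat_lit 20282410812577490039680249364481) (nat_lit 1)) .nil)))) (.cons (.rf (nat_lit 3136) (nat_lit 493787270394505431072)) .nil))))) .nil)))),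
 (.br (nat_lit 8) (nat_lit 1) (.cons (.kr (nat_lit 20282409603688635969697298252032) (nat_lit 79230580365903567951438610432) (nat_lit 1) (nat_lit 0)) .nil)),
 (.br (nat_lit 13) (nat_lit 0) (.cons (.rf (nat_lit 3179) (nat_lit 458117738729117419552)) (.cons (.rf (nat_lit 3219) (nat_lit 493858305440582043680)) (.cons (.br (nat_lit 5) (nat_lit 0) (.cons (.br (nat_lit 7) (nat_lit 0) (.cons (.br (nat_lit 2) (nat_lit 0) (.cons (.br (nat_lit 1) (nat_lit 0) (.cons (.zr (nat_lit 237686905394432808287469764608) (nat_lit 309489805974804250404847617) (nat_lit 5) (nat_lit 0)) .nil)) (.cons (.br (nat_lit 9) (nat_lit 1) (.cons (.zr (nat_lit 237686905394432808287469568768) (nat_lit 309489805974804250404847617) (nat_lit 5) (nat_lit 0)) .nil)) .nil))) (.cons (.ev (nat_lit 72057598349672449) (nat_lit 1)) (.cons (.br (nat_lit 1) (nat_lit 0) (.cons (.br (nat_lit 9) (nat_lit 1) (.cons (.ev (nat_lit 79538861190790582928364601345) (nat_lit 1)) .nil)) (.cons (.br (nat_lit 2) (nat_lit 0) (.cons (.ev (nat_lit 79538861190790582928364536065)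 (nat_lit 1)) .nil)) .nil))) .nil)))) (.cons (.br (nat_lit 11) (nat_lit 1) (.cons (.rf (nat_lit 3024) (nat_lit 493750290517780957216)) (.cons (.rf (nat_lit 3024) (nat_lit 493750290517780956224)) (.cons (.ev (nat_lit 79538856468352323939658104833) (nat_lit 1)) .nil)))) (.cons (.br (nat_lit 7) (nat_lit 0) (.cons (.rf (nat_lit 2923) (nat_lit 493853804042125412384)) (.cons (.ev (nat_lit 20361638975110201402818184609793) (nat_lit 1)) (.cons (.br (nat_lit 4) (nat_lit 1) (.cons (.rf (nat_lit 3220) (nat_lit 493858305440582043680)) (.cons (.rf (nat_lit 3220) (nat_lit 493858305440582042688)) .nil))) .nil)))) (.cons (.rf (nat_lit 3136) (nat_lit 493823298092012767264)) .nil))))) .nil)))),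
 (.br (nat_lit 13) (nat_lit 0) (.cons (.rf (nat_lit 3179) (nat_lit 458117738729117419552)) (.cons (.rf (nat_lit 3219) (nat_lit 493858305440582043680)) (.cons (.rf (nat_lit 3221) (nat_lit 493858305440582043680)) (.cons (.br (nat_lit 13) (nat_lit 0) (.cons (.rf (nat_lit 3179) (nat_lit 458117738729117419552)) (.cons (.rf (nat_lit 3219) (nat_lit 493858305440582043680)) (.cons (.rf (nat_lit 3221) (nat_lit 493858305440582043680)) .nil)))) .nil))))),
 (.br (nat_lit 2) (nat_lit 0) (.cons (.zr (nat_lit 79228162514336397386605199872) (nat_lit 1213648186378973830184961) (nat_lit 5) (nat_lit 0)) (.cons (.ev (nat_lit 310693935641242276682792961) (nat_lit 1)) .nil))),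
 (.br (nat_lit 8) (nat_lit 1) (.cons (.kr (nat_lit 309485028268089146729300224) (nat_lit 20361637766165934761540812079104) (nat_lit 1) (nat_lit 0)) .nil)),
 (.br (nat_lit 13) (nat_lit 0) (.cons (.rf (nat_lit 2915) (nat_lit 482107578403358752)) (.cons (.rf (nat_lit 3222) (nat_lit 493858305440582043680)) (.cons (.br (nat_lit 5) (nat_lit 0) (.cons (.br (nat_lit 7) (nat_lit 0) (.cons (.br (nat_lit 11) (nat_lit 1) (.cons (.rf (nat_lit 3223) (nat_lit 493858305440582043680)) (.cons (.rf (nat_lit 3223) (nat_lit 493858305440582042688)) .nil))) (.cons (.rf (nat_lit 3209) (nat_lit 15432862002834409504)) .nil))) (.cons (.br (nat_lit 11) (nat_lit 1) (.cons (.rf (nat_lit 3024) (nat_lit 493750290517780957216)) (.cons (.rf (nat_lit 3024) (nat_lit 493750290517780956224)) (.cons (.br (nat_lit 4) (nat_lit 1) (.cons (.rf (nat_lit 3224) (nat_lit 493858305440582043680)) (.cons (.rf (nat_lit 3224) (nat_lit 493858305440582042688)) .nil))) .nil)))) (.cons (.kr (nat_lit 309485009821345068724781056) (nat_lit 20282409603651670423947251286016)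 (nat_lit 11) (nat_lit 0)) .nil)))) .nil)))),
 (.br (nat_lit 13) (nat_lit 0) (.cons (.rf (nat_lit 3213) (nat_lit 493858305440582043680)) (.cons (.rf (nat_lit 3222) (nat_lit 493858305440582043680)) (.cons (.rf (nat_lit 3225) (nat_lit 493858305440582043680)) (.cons (.br (nat_lit 13) (nat_lit 0) (.cons (.rf (nat_lit 3213) (nat_lit 493858305440582043680)) (.cons (.rf (nat_lit 3222) (nat_lit 493858305440582043680)) (.cons (.rf (nat_lit 3225) (nat_lit 493858305440582043680)) .nil)))) .nil))))),
 (.br (nat_lit 13) (nat_lit 0) (.cons (.rf (nat_lit 3213) (nat_lit 493858305440582043680)) (.cons (.rf (nat_lit 3222) (nat_lit 493858305440582043680)) (.cons (.rf (nat_lit 3226) (nat_lit 493858305440582043680)) (.cons (.br (nat_lit 13) (nat_lit 0) (.cons (.rf (nat_lit 3213) (nat_lit 493858305440582043680)) (.cons (.rf (nat_lit 3222) (nat_lit 493858305440582043680)) (.cons (.rf (nat_lit 3226) (nat_lit 493858305440582043680)) .nil)))) .nil))))),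
 (.br (nat_lit 9) (nat_lit 1) (.cons (.ev (nat_lit 20282409608392483650894901084161) (nat_lit 1)) (.cons (.ev (nat_lit 20361637770888301525885417226241) (nat_lit 1)) (.cons (.ev (nat_lit 79228167255077846011875491841) (nat_lit 1)) .nil)))),
 (.br (nat_lit 2) (nat_lit 0) (.cons (.ev (nat_lit 79229376162450716571652390913) (nat_lit 1)) (.cons (.rf (nat_lit 3228) (nat_lit 493858305440582043680)) .nil))),
 (.br (nat_lit 4) (nat_lit 1) (.cons (.rf (nat_lit 3229) (nat_lit 493858305440582043680)) (.cons (.rf (nat_lit 3229) (nat_lit 493858305440582042688)) (.cons (.kr (nat_lit 18446744078004518912) (nat_lit 79228162514264619068520660992) (nat_lit 4) (nat_lit 0)) (.cons (.kr (nat_lit 20282409603651670423951546253312) (nat_lit 79228162514264619068520660992) (nat_lit 4) (nat_lit 0)) .nil))))),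
 (.br (nat_lit 7) (nat_lit 0) (.cons (.kr (nat_lit 20282409603651670423951546253312) (nat_lit 79228162514264619068520660992) (nat_lit 4) (nat_lit 0)) (.cons (.rf (nat_lit 3230) (nat_lit 493858305440582043680)) (.cons (.br (nat_lit 5) (nat_lit 0) (.cons (.br (nat_lit 8) (nat_lit 1) (.cons (.ev (nat_lit 20361637770888373303108284973313) (nat_lit 1)) (.cons (.ev (nat_lit 20361637770888373303108285038593) (nat_lit 1)) .nil))) (.cons (.kr (nat_lit 18446744073709551616) (nat_lit 20282409603651670423947251286016) (nat_lit 8) (nat_lit 0)) (.cons (.rf (nat_lit 2680) (nat_lit 15432932374794569760)) .nil)))) .nil)))),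
 (.br (nat_lit 9) (nat_lit 1) (.cons (.rf (nat_lit 2772) (nat_lit 457863287554565048352)) (.cons (.rf (nat_lit 2772) (nat_lit 457863287554565047360)) .nil))),
 (.br (nat_lit 7) (nat_lit 0) (.cons (.kr (nat_lit 20282409603651670423951546253312) (nat_lit 4722366764344621924352) (nat_lit 4) (nat_lit 0)) (.cons (.br (nat_lit 2) (nat_lit 0) (.cons (.rf (nat_lit 2675) (nat_lit 458045505218589852736)) (.cons (.rf (nat_lit 2648) (nat_lit 493751381231170323520)) .nil))) (.cons (.br (nat_lit 9) (nat_lit 1) (.cons (.br (nat_lit 5) (nat_lit 0) (.cons (.kr (nat_lit 20282409603651670425055352848640) (nat_lit 79228162514336958137535365120) (nat_lit 1) (nat_lit 0)) .nil)) (.cons (.ev (nat_lit 4722438823038171480321) (nat_lit 1)) .nil))) .nil))))]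

theorem c113 : chkAll C T R L113 (nat_lit 3205) = true := by decide +kernel

theorem l113 : (nat_lit 3205) + L113.length = (nat_lit 3234) := by decide +kernel

/-- part of the certificates -/
def L114 : List Prf := [(.br (nat_lit 13) (nat_lit 0) (.cons (.rf (nat_lit 2870) (nat_lit 458117738729117419552)) (.cons (.rf (nat_lit 3179) (nat_lit 458082801744999450656)) (.cons (.br (nat_lit 7) (nat_lit 0) (.cons (.kr (nat_lit 20282409603651670423951546253312) (nat_lit 79228162514264619068520660992) (nat_lit 4) (nat_lit 0)) (.cons (.rf (nat_lit 3230) (nat_lit 493858305440582043680)) (.cons (.rf (nat_lit 3231) (nat_lit 493858305440582043680)) (.cons (.br (nat_lit 7) (nat_lit 0) (.cons (.kr (nat_lit 20282409603651670423951546253312) (nat_lit 79228162514264619068520660992) (nat_lit 4) (nat_lit 0)) (.cons (.rf (nat_lit 3230) (nat_lit 493858305440582043680)) (.cons (.rf (nat_lit 3231) (nat_lit 493858305440582043680)) .nil)))) .nil))))) (.cons (.br (nat_lit 4) (nat_lit 1) (.cons (.rf (nat_lit 3208) (nat_lit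 458082801744999450656)) (.cons (.rf (nat_lit 3208) (nat_lit 458082801744999449664)) (.cons (.br (nat_lit 10) (nat_lit 1) (.cons (.ev (nat_lit 79228162514264337597838917889) (nat_lit 1)) (.cons (.ev (nat_lit 79228162514264337597838983169) (nat_lit 1)) (.cons (.br (nat_lit 7) (nat_lit 0) (.cons (.kr (nat_lit 18446744078004518912) (nat_lit 79228162514264619068520660992) (nat_lit 4) (nat_lit 0)) (.cons (.br (nat_lit 11) (nat_lit 1) (.cons (.ev (nat_lit 4722366482873940181249) (nat_lit 1)) (.cons (.ev (nat_lit 4722366482873940246529) (nat_lit 1)) .nil))) (.cons (.rf (nat_lit 3232) (nat_lit 493858305440582043680)) .nil)))) .nil)))) (.cons (.br (nat_lit 8) (nat_lit 1) (.cons (.rf (nat_lit 3233) (nat_lit 493858305440582043680)) (.cons (.rf (nat_lit 3233) (nat_lit 493858305440582042688)) (.cons (.kr (nat_lit 18446744078004518912) (nat_lit 79228162514264619068520660992) (nat_lit 4) (nat_lit 0)) (.cons (.br (nat_lit 1) (nat_lit 0) (.cons (.rf (nat_lit 3233) (nat_lit 458082801744999450656)) (.cons (.ev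 (nat_lit 18447025548686262529) (nat_lit 1)) (.cons (.ev (nat_lit 20361637766184381505618799755521) (nat_lit 1)) .nil)))) .nil))))) .nil))))) .nil))))),
 (.br (nat_lit 2) (nat_lit 0) (.cons (.kr (nat_lit 20282409603651670425055352848640) (nat_lit 79228162514336958137535365120) (nat_lit 1) (nat_lit 0)) .nil)),
 (.br (nat_lit 5) (nat_lit 0) (.cons (.br (nat_lit 8) (nat_lit 1) (.cons (.rf (nat_lit 3235) (nat_lit 493858305440582043680)) (.cons (.rf (nat_lit 3235) (nat_lit 493858305440582042688)) .nil))) (.cons (.rf (nat_lit 2009) (nat_lit 15430849896556628000)) .nil))),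
 (.br (nat_lit 7) (nat_lit 0) (.cons (.br (nat_lit 9) (nat_lit 1) (.cons (.rf (nat_lit 2674) (nat_lit 458043255617799424032)) (.cons (.rf (nat_lit 2674) (nat_lit 458043255617799423040)) (.cons (.br (nat_lit 8) (nat_lit 1) (.cons (.ev (nat_lit 20361637770888301525885417160961) (nat_lit 1)) (.cons (.ev (nat_lit 20361637770888301525885417226241) (nat_lit 1)) .nil))) .nil)))) (.cons (.rf (nat_lit 3149) (nat_lit 14316138722106640416)) (.cons (.rf (nat_lit 3236) (nat_lit 493858305440582043680)) .nil)))),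
 (.br (nat_lit 7) (nat_lit 0) (.cons (.rf (nat_lit 3237) (nat_lit 493858305440582043680)) (.cons (.br (nat_lit 4) (nat_lit 1) (.cons (.rf (nat_lit 2674) (nat_lit 457863287554565048352)) (.cons (.rf (nat_lit 2674) (nat_lit 457863287554565047360)) (.cons (.br (nat_lit 2) (nat_lit 0) (.cons (.ev (nat_lit 20361637770888373303108285038593) (nat_lit 1)) (.cons (.ev (nat_lit 4722366482873940246529) (nat_lit 1)) .nil))) .nil)))) (.cons (.ev (nat_lit 79537647524158021731300147201) (nat_lit 1)) .nil)))),
 (.br (nat_lit 4) (nat_lit 1) (.cons (.ev (nat_lit 20282409608392483932369894572033) (nat_lit 1)) (.cons (.kr (nat_lit 1103806595072) (nat_lit 72339069014638592) (nat_lit 4) (nat_lit 0)) .nil))),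
 (.br (nat_lit 7) (nat_lit 0) (.cons (.rf (nat_lit 3149) (nat_lit 14316138722106640416)) (.cons (.rf (nat_lit 3238) (nat_lit 493858305440582043680)) (.cons (.br (nat_lit 5) (nat_lit 0) (.cons (.rf (nat_lit 2009) (nat_lit 15430673911412525088)) (.cons (.br (nat_lit 8) (nat_lit 1) (.cons (.rf (nat_lit 3239) (nat_lit 493858305440582043680)) (.cons (.rf (nat_lit 3239) (nat_lit 493858305440582042688)) .nil))) .nil))) .nil)))),
 (.br (nat_lit 13) (nat_lit 0) (.cons (.rf (nat_lit 2870) (nat_lit 458117738729117419552)) (.cons (.rf (nat_lit 3234) (nat_lit 493858305440582043680)) (.cons (.rf (nat_lit 3179) (nat_lit 458082801744999450656)) (.cons (.br (nat_lit 7) (nat_lit 0) (.cons (.rf (nat_lit 3237) (nat_lit 493858305440582043680)) (.cons (.rf (nat_lit 3238) (nat_lit 493858305440582043680)) (.cons (.rf (nat_lit 3240) (nat_lit 493858305440582043680)) (.cons (.br (nat_lit 7) (nat_lit 0) (.cons (.rf (nat_lit 3236) (nat_lit 493858305440582043680)) (.cons (.ev (nat_lit 79537647524158021731300147201) (nat_lit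 1)) (.cons (.rf (nat_lit 3240) (nat_lit 493858305440582043680)) .nil)))) .nil))))) .nil))))),
 (.br (nat_lit 6) (nat_lit 1) (.cons (.rf (nat_lit 3208) (nat_lit 493858305440582043680)) (.cons (.rf (nat_lit 3208) (nat_lit 493858305440582042688)) (.cons (.br (nat_lit 13) (nat_lit 0) (.cons (.rf (nat_lit 3213) (nat_lit 493858305440582043680)) (.cons (.rf (nat_lit 3222) (nat_lit 493858305440582043680)) (.cons (.rf (nat_lit 3226) (nat_lit 493858305440582043680)) (.cons (.rf (nat_lit 3227) (nat_lit 493858305440582043680)) (.cons (.br (nat_lit 13) (nat_lit 0) (.cons (.rf (nat_lit 3213) (nat_lit 493858305440582043680)) (.cons (.rf (nat_lit 3222) (nat_lit 493858305440582043680)) (.cons (.rf (nat_lit 3226) (nat_lit 493858305440582043680)) (.cons (.rf (nat_lit 3227) (nat_lit 493858305440582043680)) .nil))))) .nil)))))) (.cons (.br (nat_lit 13) (nat_lit 0) (.cons (.rf (nat_lit 2870) (nat_lit 458117738729117419552)) (.cons (.rf (nat_lit 3234) (nat_lit 493858305440582043680)) (.cons (.rf (nat_lit 3179) (nat_lit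 458082801744999450656)) (.cons (.rf (nat_lit 3241) (nat_lit 493858305440582043680)) (.cons (.br (nat_lit 13) (nat_lit 0) (.cons (.rf (nat_lit 2870) (nat_lit 458117738729117419552)) (.cons (.rf (nat_lit 3234) (nat_lit 493858305440582043680)) (.cons (.rf (nat_lit 3179) (nat_lit 458082801744999450656)) (.cons (.rf (nat_lit 3241) (nat_lit 493858305440582043680)) .nil))))) .nil)))))) .nil))))),
 (.br (nat_lit 2) (nat_lit 0) (.cons (.ev (nat_lit 618979501342049345990755074) (nat_lit 2)) (.cons (.ev (nat_lit 79228162514264337597838983169) (nat_lit 1)) .nil))),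
 (.br (nat_lit 7) (nat_lit 0) (.cons (.kr (nat_lit 36893488151714070528) (nat_lit 20361637766165935043015771947008) (nat_lit 4) (nat_lit 0)) (.cons (.ev (nat_lit 72057598349672449) (nat_lit 1)) (.cons (.br (nat_lit 5) (nat_lit 0) (.cons (.ev (nat_lit 282574505115649) (nat_lit 1)) (.cons (.br (nat_lit 11) (nat_lit 1) (.cons (.ev (nat_lit 20520094100639197246904988598786) (nat_lit 2)) (.cons (.ev (nat_lit 20520094100639197246904988729346) (nat_lit 2)) .nil))) (.cons (.br (nat_lit 8) (nat_lit 1) (.cons (.rf (nat_lit 3243) (nat_lit 493858305440582043680)) (.cons (.rf (nat_lit 3243) (nat_lit 493858305440582042688)) .nil))) .nil)))) .nil)))),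
 (.br (nat_lit 8) (nat_lit 1) (.cons (.ev (nat_lit 1208944266641281667629313) (nat_lit 1)) (.cons (.ev (nat_lit 20282409608392555991059132317953) (nat_lit 1)) .nil))),
 (.br (nat_lit 4) (nat_lit 1) (.cons (.ev (nat_lit 1208944266641281667629313) (nat_lit 1)) (.cons (.ev (nat_lit 20361637770888373303108284973313) (nat_lit 1)) .nil))),
 (.br (nat_lit 5) (nat_lit 0) (.cons (.rf (nat_lit 3244) (nat_lit 493858305440582043680)) (.cons (.kr (nat_lit 18446744073709551616) (nat_lit 20282409603651670423947251286016) (nat_lit 8) (nat_lit 0)) (.cons (.br (nat_lit 1) (nat_lit 0) (.cons (.rf (nat_lit 3245) (nat_lit 493858305440582043680)) (.cons (.rf (nat_lit 3246) (nat_lit 493858305440582043680)) (.cons (.br (nat_lit 2) (nat_lit 0) (.cons (.rf (nat_lit 3245) (nat_lit 493858305440582042688)) (.cons (.rf (nat_lit 3246) (nat_lit 493858305440582042688)) .nil))) .nil)))) .nil)))),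
 (.br (nat_lit 13) (nat_lit 0) (.cons (.rf (nat_lit 2870) (nat_lit 458117738729117419552)) (.cons (.rf (nat_lit 3179) (nat_lit 458082801744999450656)) (.cons (.br (nat_lit 5) (nat_lit 0) (.cons (.rf (nat_lit 3244) (nat_lit 493858305440582043680)) (.cons (.kr (nat_lit 18446744073709551616) (nat_lit 20282409603651670423947251286016) (nat_lit 8) (nat_lit 0)) (.cons (.rf (nat_lit 3247) (nat_lit 493858305440582043680)) (.cons (.br (nat_lit 5) (nat_lit 0) (.cons (.rf (nat_lit 3244) (nat_lit 493858305440582043680)) (.cons (.kr (nat_lit 18446744073709551616) (nat_lit 20282409603651670423947251286016) (nat_lit 8) (nat_lit 0)) (.cons (.rf (nat_lit 3247) (nat_lit 493858305440582043680)) .nil)))) .nil))))) (.cons (.br (nat_lit 4) (nat_lit 1) (.cons (.rf (nat_lit 3208) (nat_lit 458082801744999450656)) (.cons (.rf (nat_lit 3208) (nat_lit 458082801744999449664)) (.cons (.br (nat_lit 10) (nat_lit 1) (.cons (.ev (nat_lit 79228162514264337597838917889) (nat_lit 1)) (.cons (.ev (nat_lit 79228162514264337597838983169)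 (nat_lit 1)) (.cons (.br (nat_lit 11) (nat_lit 1) (.cons (.ev (nat_lit 20282409603651670705422227996929) (nat_lit 1)) (.cons (.ev (nat_lit 20282409603651670705422228062209) (nat_lit 1)) (.cons (.br (nat_lit 8) (nat_lit 1) (.cons (.ev (nat_lit 79230580366048527577346212610) (nat_lit 2)) (.cons (.ev (nat_lit 79230580366048527577346408450) (nat_lit 2)) .nil))) .nil)))) (.cons (.br (nat_lit 11) (nat_lit 1) (.cons (.ev (nat_lit 20282409603651670705422227996929) (nat_lit 1)) (.cons (.ev (nat_lit 20282409603651670705422228062209) (nat_lit 1)) (.cons (.br (nat_lit 1) (nat_lit 0) (.cons (.ev (nat_lit 20282412021503454332443191935746) (nat_lit 2)) (.cons (.ev (nat_lit 79847132533979087532694962946) (nat_lit 2)) .nil))) .nil)))) .nil))))) (.cons (.rf (nat_lit 3242) (nat_lit 458082801744999450656)) .nil))))) .nil))))),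
 (.br (nat_lit 8) (nat_lit 1) (.cons (.kr (nat_lit 256) (nat_lit 65536) (nat_lit 1) (nat_lit 0)) (.cons (.br (nat_lit 11) (nat_lit 1) (.cons (.rf (nat_lit 1891) (nat_lit 458117738729117418560)) (.cons (.br (nat_lit 7) (nat_lit 0) (.cons (.rf (nat_lit 3097) (nat_lit 493823368458609461280)) (.cons (.ev (nat_lit 20361637770888301525885417160961) (nat_lit 1)) .nil))) (.cons (.br (nat_lit 9) (nat_lit 1) (.cons (.ev (nat_lit 20361637766166007100609826717953) (nat_lit 1)) (.cons (.br (nat_lit 4) (nat_lit 1) (.cons (.ev (nat_lit 79228167255149904709736726785) (nat_lit 1)) .nil)) .nil))) .nil)))) (.cons (.br (nat_lit 4) (nat_lit 1) (.cons (.kr (nat_lit 79228162514264337593560727808) (nat_lit 18446744078004584448) (nat_lit 1) (nat_lit 0)) (.cons (.br (nat_lit 9) (nat_lit 1) (.cons (.ev (nat_lit 72057598349738241) (nat_lit 1)) (.cons (.br (nat_lit 2) (nat_lit 0) (.cons (.ev (nat_lit 618979501342049345990558210) (nat_lit 2)) .nil)) .nil))) .nil))) .nil)))),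
 (.br (nat_lit 8) (nat_lit 1) (.cons (.rf (nat_lit 3249) (nat_lit 493858305440582043680)) (.cons (.rf (nat_lit 3249) (nat_lit 493858305440582042688)) (.cons (.br (nat_lit 5) (nat_lit 0) (.cons (.ev (nat_lit 282574505115649) (nat_lit 1)) (.cons (.ev (nat_lit 20361638975110201402818184609793) (nat_lit 1)) (.cons (.rf (nat_lit 3135) (nat_lit 493823368458609461280)) .nil)))) .nil)))),
 (.br (nat_lit 13) (nat_lit 0) (.cons (.rf (nat_lit 2870) (nat_lit 458117738729117419552)) (.cons (.rf (nat_lit 3248) (nat_lit 493858305440582043680)) (.cons (.rf (nat_lit 3179) (nat_lit 458082801744999450656)) (.cons (.br (nat_lit 8) (nat_lit 1) (.cons (.rf (nat_lit 3249) (nat_lit 493858305440582043680)) (.cons (.rf (nat_lit 3249) (nat_lit 493858305440582042688)) (.cons (.rf (nat_lit 3250) (nat_lit 493858305440582043680)) (.cons (.br (nat_lit 8) (nat_lit 1) (.cons (.rf (nat_lit 3249) (nat_lit 493858305440582043680)) (.cons (.rf (nat_lit 3249) (nat_lit 493858305440582042688)) (.cons (.rf (nat_lit 3250) (nat_lit 493858305440582043680))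 .nil)))) .nil))))) .nil))))),
 (.br (nat_lit 6) (nat_lit 1) (.cons (.rf (nat_lit 3208) (nat_lit 493858305440582043680)) (.cons (.rf (nat_lit 3208) (nat_lit 493858305440582042688)) (.cons (.rf (nat_lit 3242) (nat_lit 493858305440582043680)) (.cons (.br (nat_lit 13) (nat_lit 0) (.cons (.rf (nat_lit 2870) (nat_lit 458117738729117419552)) (.cons (.rf (nat_lit 3248) (nat_lit 493858305440582043680)) (.cons (.rf (nat_lit 3179) (nat_lit 458082801744999450656)) (.cons (.rf (nat_lit 3251) (nat_lit 493858305440582043680)) (.cons (.br (nat_lit 13) (nat_lit 0) (.cons (.rf (nat_lit 2870) (nat_lit 458117738729117419552)) (.cons (.rf (nat_lit 3248) (nat_lit 493858305440582043680)) (.cons (.rf (nat_lit 3179) (nat_lit 458082801744999450656)) (.cons (.rf (nat_lit 3251) (nat_lit 493858305440582043680)) .nil))))) .nil)))))) .nil))))),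
 (.br (nat_lit 6) (nat_lit 1) (.cons (.rf (nat_lit 3208) (nat_lit 493858305440582043680)) (.cons (.rf (nat_lit 3208) (nat_lit 493858305440582042688)) (.cons (.rf (nat_lit 3242) (nat_lit 493858305440582043680)) (.cons (.rf (nat_lit 3252) (nat_lit 493858305440582043680)) (.cons (.br (nat_lit 6) (nat_lit 1) (.cons (.rf (nat_lit 3208) (nat_lit 493858305440582043680)) (.cons (.rf (nat_lit 3208) (nat_lit 493858305440582042688)) (.cons (.rf (nat_lit 3242) (nat_lit 493858305440582043680)) (.cons (.rf (nat_lit 3252) (nat_lit 493858305440582043680)) .nil))))) .nil)))))),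
 (.br (nat_lit 8) (nat_lit 1) (.cons (.rf (nat_lit 3024) (nat_lit 493751381233315710016)) (.cons (.br (nat_lit 4) (nat_lit 1) (.cons (.br (nat_lit 11) (nat_lit 1) (.cons (.zr (nat_lit 79228162514336397386605265152) (nat_lit 309485028268089146762854401) (nat_lit 5) (nat_lit 0)) .nil)) (.cons (.rf (nat_lit 3179) (nat_lit 458117738729117419552)) .nil))) .nil))),
 (.br (nat_lit 8) (nat_lit 1) (.cons (.br (nat_lit 8) (nat_lit 1) (.cons (.ev (nat_lit 18447025548686327809) (nat_lit 1)) .nil)) (.cons (.br (nat_lit 8) (nat_lit 1) (.cons (.ev (nat_lit 18447025548686327809) (nat_lit 1)) .nil)) .nil))),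
 (.br (nat_lit 6) (nat_lit 1) (.cons (.br (nat_lit 10) (nat_lit 1) (.cons (.br (nat_lit 4) (nat_lit 1) (.cons (.br (nat_lit 8) (nat_lit 1) (.cons (.br (nat_lit 8) (nat_lit 1) .nil) .nil)) (.cons (.ev (nat_lit 1213648186380077603225601) (nat_lit 1)) .nil))) (.cons (.rf (nat_lit 2587) (nat_lit 493745751739150206016)) (.cons (.br (nat_lit 8) (nat_lit 1) (.cons (.rf (nat_lit 3024) (nat_lit 493751381233315710016)) (.cons (.rf (nat_lit 3254) (nat_lit 493858305440582043680)) (.cons (.br (nat_lit 8) (nat_lit 1) (.cons (.rf (nat_lit 3024) (nat_lit 493751381233315710016)) (.cons (.rf (nat_lit 3254) (nat_lit 493858305440582043680)) .nil))) .nil)))) .nil)))) (.cons (.br (nat_lit 4) (nat_lit 1) (.cons (.rf (nat_lit 3255) (nat_lit 493858305440582043680)) (.cons (.br (nat_lit 5) (nat_lit 0) (.cons (.br (nat_lit 10) (nat_lit 1) (.cons (.kr (nat_lit 72339069014638848) (nat_lit 1103806660608) (nat_lit 1) (nat_lit 0)) (.cons (.rf (nat_lit 2628) (nat_lit 493745753936025977920)) .nil))) (.cons (.ev (nat_lit 1213648186380077603225601)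 (nat_lit 1)) (.cons (.rf (nat_lit 3255) (nat_lit 493606103861456635936)) .nil)))) (.cons (.rf (nat_lit 2870) (nat_lit 458117738729117419552)) .nil)))) .nil))),
 (.br (nat_lit 6) (nat_lit 1) (.cons (.rf (nat_lit 3256) (nat_lit 493858305440582043680)) (.cons (.br (nat_lit 4) (nat_lit 1) (.cons (.br (nat_lit 7) (nat_lit 0) (.cons (.br (nat_lit 8) (nat_lit 1) (.cons (.ev (nat_lit 282574505115649) (nat_lit 1)) (.cons (.br (nat_lit 10) (nat_lit 1) (.cons (.ev (nat_lit 2427333338588466890473730) (nat_lit 2)) (.cons (.ev (nat_lit 20282409603651670705422228062209) (nat_lit 1)) .nil))) .nil))) (.cons (.ev (nat_lit 72057598349738241) (nat_lit 1)) (.cons (.rf (nat_lit 3255) (nat_lit 493606103792804268064)) .nil)))) (.cons (.rf (nat_lit 3255) (nat_lit 493858305371929675808)) (.cons (.rf (nat_lit 2870) (nat_lit 458117738729117419552)) .nil)))) .nil))),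
 (.br (nat_lit 6) (nat_lit 1) (.cons (.rf (nat_lit 3256) (nat_lit 493858305440582043680)) (.cons (.rf (nat_lit 3257) (nat_lit 493858305440582043680)) (.cons (.br (nat_lit 6) (nat_lit 1) (.cons (.rf (nat_lit 3256) (nat_lit 493858305440582043680)) (.cons (.rf (nat_lit 3257) (nat_lit 493858305440582043680)) .nil))) .nil))))]

theorem c114 : chkAll C T R L114 (nat_lit 3234) = true := by decide +kernel

theorem l114 : (nat_lit 3234) + L114.length = (nat_lit 3259) := by decide +kernel

/-- part of the certificates -/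
def L115 : List Prf := [(.br (nat_lit 13) (nat_lit 0) (.cons (.rf (nat_lit 2870) (nat_lit 458117738729117419552)) (.cons (.rf (nat_lit 3179) (nat_lit 458117738729117419552)) (.cons (.br (nat_lit 13) (nat_lit 0) (.cons (.rf (nat_lit 2870) (nat_lit 458117738729117419552)) (.cons (.rf (nat_lit 3179) (nat_lit 458117738729117419552)) .nil))) .nil)))),
 (.br (nat_lit 13) (nat_lit 0) (.cons (.rf (nat_lit 2870) (nat_lit 458117738729117419552)) (.cons (.br (nat_lit 13) (nat_lit 0) (.cons (.rf (nat_lit 2870) (nat_lit 458117738729117419552)) (.cons (.rf (nat_lit 3253) (nat_lit 458082801744999450656)) .nil))) (.cons (.br (nat_lit 13) (nat_lit 0) (.cons (.rf (nat_lit 2870) (nat_lit 458117738729117419552)) (.cons (.rf (nat_lit 3253) (nat_lit 458082801744999450656)) .nil))) .nil)))),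
 (.br (nat_lit 13) (nat_lit 0) (.cons (.rf (nat_lit 3179) (nat_lit 458117738729117419552)) (.cons (.rf (nat_lit 3260) (nat_lit 493858305440582043680)) (.cons (.br (nat_lit 13) (nat_lit 0) (.cons (.rf (nat_lit 3179) (nat_lit 458117738729117419552)) (.cons (.rf (nat_lit 3253) (nat_lit 458082801744999450656)) .nil))) .nil)))),
 (.br (nat_lit 13) (nat_lit 0) (.cons (.br (nat_lit 8) (nat_lit 1) (.cons (.rf (nat_lit 2769) (nat_lit 493823365157932336192)) (.cons (.kr (nat_lit 18446744073709551616) (nat_lit 20282409603651670423947251286016) (nat_lit 8) (nat_lit 0)) (.cons (.rf (nat_lit 2690) (nat_lit 493745751731641354272)) .nil)))) (.cons (.rf (nat_lit 2934) (nat_lit 493750222348060035104)) .nil))),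
 (.br (nat_lit 12) (nat_lit 0) (.cons (.kr (nat_lit 4722366482869645213696) (nat_lit 79228162514264337593543950336) (nat_lit 9) (nat_lit 0)) (.cons (.rf (nat_lit 2934) (nat_lit 455666621688381016096)) .nil))),
 (.br (nat_lit 13) (nat_lit 0) (.cons (.rf (nat_lit 3262) (nat_lit 493858305440582043680)) (.cons (.br (nat_lit 13) (nat_lit 0) (.cons (.rf (nat_lit 3262) (nat_lit 493858305440582043680)) (.cons (.kr (nat_lit 1208925819614629174706176) (nat_lit 20282409603651670423947251286016) (nat_lit 10) (nat_lit 0)) .nil))) (.cons (.rf (nat_lit 3263) (nat_lit 15433072044983552032)) .nil)))),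
 (.br (nat_lit 2) (nat_lit 0) (.cons (.rf (nat_lit 2725) (nat_lit 458046701486165034048)) (.cons (.rf (nat_lit 2725) (nat_lit 458046769655885956160)) (.cons (.kr (nat_lit 256) (nat_lit 65536) (nat_lit 1) (nat_lit 0)) .nil)))),
 (.br (nat_lit 7) (nat_lit 0) (.cons (.rf (nat_lit 3264) (nat_lit 493858305440582043680)) (.cons (.br (nat_lit 4) (nat_lit 1) (.cons (.br (nat_lit 6) (nat_lit 1) (.cons (.ev (nat_lit 1213648186380077603225601) (nat_lit 1)) (.cons (.br (nat_lit 8) (nat_lit 1) (.cons (.br (nat_lit 13) (nat_lit 0) (.cons (.ev (nat_lit 79537647542532708210955059201) (nat_lit 1)) .nil)) (.cons (.br (nat_lit 5) (nat_lit 0) (.cons (.ev (nat_lit 79537647542532708210955059201) (nat_lit 1)) .nil)) .nil))) .nil))) (.cons (.br (nat_lit 2) (nat_lit 0) (.cons (.kr (nat_lit 79229371440156009816790139136) (nat_lit 9444733529788755542016) (nat_lit 1) (nat_lit 0)) (.cons (.ev (nat_lit 72057598349738241) (nat_lit 1)) (.cons (.ev (nat_lit 79228162514264337597838983169) (nat_lit 1)) .nil)))) (.cons (.br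 (nat_lit 13) (nat_lit 0) (.cons (.rf (nat_lit 2870) (nat_lit 458117738729117419552)) (.cons (.rf (nat_lit 3179) (nat_lit 458117738729117419552)) (.cons (.rf (nat_lit 3265) (nat_lit 493858305440582043680)) .nil)))) .nil)))) (.cons (.br (nat_lit 6) (nat_lit 1) (.cons (.kr (nat_lit 72057594054705408) (nat_lit 79228162514264337593544081408) (nat_lit 1) (nat_lit 0)) (.cons (.rf (nat_lit 2680) (nat_lit 15427442515384567840)) (.cons (.br (nat_lit 13) (nat_lit 0) (.cons (.rf (nat_lit 2870) (nat_lit 458117738729117419552)) (.cons (.br (nat_lit 5) (nat_lit 0) (.cons (.ev (nat_lit 40644049787669316472349040574722) (nat_lit 2)) (.cons (.ev (nat_lit 309485009893685237251047681) (nat_lit 1)) .nil))) .nil))) .nil)))) .nil)))),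
 (.br (nat_lit 7) (nat_lit 0) (.cons (.rf (nat_lit 3264) (nat_lit 493858305440582043680)) (.cons (.rf (nat_lit 3266) (nat_lit 493858305440582043680)) (.cons (.br (nat_lit 5) (nat_lit 0) (.cons (.ev (nat_lit 1208925891673327019229441) (nat_lit 1)) (.cons (.br (nat_lit 8) (nat_lit 1) (.cons (.rf (nat_lit 2886) (nat_lit 493820096312005198912)) (.cons (.br (nat_lit 13) (nat_lit 0) (.cons (.rf (nat_lit 3179) (nat_lit 458117738729117419552)) (.cons (.ev (nat_lit 20282719088680010853258211885313) (nat_lit 1)) .nil))) .nil))) (.cons (.rf (nat_lit 2680) (nat_lit 15429694315198253088)) .nil)))) .nil)))),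
 (.br (nat_lit 10) (nat_lit 1) (.cons (.rf (nat_lit 3258) (nat_lit 493858305440582043680)) (.cons (.br (nat_lit 13) (nat_lit 0) (.cons (.rf (nat_lit 3259) (nat_lit 493858305440582043680)) (.cons (.rf (nat_lit 3260) (nat_lit 493858305440582043680)) (.cons (.rf (nat_lit 3261) (nat_lit 493858305440582043680)) (.cons (.br (nat_lit 13) (nat_lit 0) (.cons (.rf (nat_lit 3259) (nat_lit 493858305440582043680)) (.cons (.rf (nat_lit 3260) (nat_lit 493858305440582043680)) (.cons (.rf (nat_lit 3261) (nat_lit 493858305440582043680)) .nil)))) .nil))))) (.cons (.br (nat_lit 7) (nat_lit 0) (.cons (.rf (nat_lit 3264) (nat_lit 493858305440582043680)) (.cons (.rf (nat_lit 3266) (nat_lit 493858305440582043680)) (.cons (.rf (nat_lit 3267) (nat_lit 493858305440582043680)) (.cons (.br (nat_lit 7) (nat_lit 0) (.cons (.rf (nat_lit 3264) (nat_lit 493858305440582043680)) (.cons (.rf (nat_lit 3266) (nat_lit 493858305440582043680)) (.cons (.rf (nat_lit 3267) (nat_lit 493858305440582043680)) .nil)))) .nil))))) .nil)))),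
 (.br (nat_lit 8) (nat_lit 1) (.cons (.kr (nat_lit 18446744073709551616) (nat_lit 20282409603651670423947251286016) (nat_lit 8) (nat_lit 0)) (.cons (.ev (nat_lit 79229371458530696300723240961) (nat_lit 1)) .nil))),
 (.br (nat_lit 13) (nat_lit 0) (.cons (.rf (nat_lit 3269) (nat_lit 493858305440582043680)) (.cons (.br (nat_lit 8) (nat_lit 1) (.cons (.ev (nat_lit 20361947255898122872057948536833) (nat_lit 1)) (.cons (.ev (nat_lit 309489732260167011679666433) (nat_lit 1)) .nil))) .nil))),
 (.br (nat_lit 13) (nat_lit 0) (.cons (.rf (nat_lit 3269) (nat_lit 493858305440582043680)) (.cons (.br (nat_lit 8) (nat_lit 1) (.cons (.ev (nat_lit 20361637766184381505618799820801) (nat_lit 1)) (.cons (.ev (nat_lit 79229371458530696300723240961) (nat_lit 1)) .nil))) .nil))),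
 (.br (nat_lit 6) (nat_lit 1) (.cons (.br (nat_lit 13) (nat_lit 0) (.cons (.br (nat_lit 11) (nat_lit 1) (.cons (.zr (nat_lit 618970019642693435984642048) (nat_lit 1213666633123051817926657) (nat_lit 5) (nat_lit 0)) .nil)) (.cons (.ev (nat_lit 20282410812577490321150931107841) (nat_lit 1)) .nil))) (.cons (.br (nat_lit 11) (nat_lit 1) (.cons (.ev (nat_lit 79847132534051988456446427650) (nat_lit 2)) (.cons (.ev (nat_lit 20361637766166007100609826717953) (nat_lit 1)) .nil))) .nil))),
 (.br (nat_lit 2) (nat_lit 0) (.cons (.br (nat_lit 13) (nat_lit 0) (.cons (.rf (nat_lit 3270) (nat_lit 493858305440582043680)) (.cons (.rf (nat_lit 3271) (nat_lit 493858305440582043680)) (.cons (.br (nat_lit 13) (nat_lit 0) (.cons (.rf (nat_lit 3270) (nat_lit 493858305440582043680)) (.cons (.rf (nat_lit 3271) (nat_lit 493858305440582043680)) .nil))) .nil)))) (.cons (.br (nat_lit 13) (nat_lit 0) (.cons (.rf (nat_lit 3272) (nat_lit 493858305440582043680)) (.cons (.br (nat_lit 13) (nat_lit 0) (.cons (.rf (nat_lit 3272)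 (nat_lit 493858305440582043680)) (.cons (.ev (nat_lit 20282720302328124610588522381313) (nat_lit 1)) .nil))) (.cons (.br (nat_lit 13) (nat_lit 0) (.cons (.rf (nat_lit 3272) (nat_lit 493858305440582043680)) (.cons (.ev (nat_lit 20282720302328124610588522381313) (nat_lit 1)) .nil))) .nil)))) (.cons (.ev (nat_lit 79228162514264337597838983169) (nat_lit 1)) .nil)))),
 (.br (nat_lit 8) (nat_lit 1) (.cons (.ev (nat_lit 309489750634572012096389121) (nat_lit 1)) (.cons (.br (nat_lit 4) (nat_lit 1) (.cons (.br (nat_lit 6) (nat_lit 1) (.cons (.zr (nat_lit 237684487543009748512699056896) (nat_lit 310698676454186658450898945) (nat_lit 5) (nat_lit 0)) .nil)) (.cons (.rf (nat_lit 3179) (nat_lit 458117738729117419552)) .nil))) .nil))),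
 (.br (nat_lit 6) (nat_lit 1) (.cons (.br (nat_lit 4) (nat_lit 1) (.cons (.rf (nat_lit 2971) (nat_lit 493750290517780956224)) .nil)) (.cons (.ev (nat_lit 309485009893685237251047681) (nat_lit 1)) .nil))),
 (.br (nat_lit 5) (nat_lit 0) (.cons (.rf (nat_lit 3273) (nat_lit 493858305440582043680)) (.cons (.br (nat_lit 6) (nat_lit 1) (.cons (.br (nat_lit 8) (nat_lit 1) (.cons (.br (nat_lit 4) (nat_lit 1) (.cons (.ev (nat_lit 79228167255149904709736726785) (nat_lit 1)) .nil)) (.cons (.br (nat_lit 4) (nat_lit 1) (.cons (.ev (nat_lit 79229371458530696300723240961) (nat_lit 1)) (.cons (.zr (nat_lit 61005685135983539948128386940928) (nat_lit 1213685079867125510701057) (nat_lit 5) (nat_lit 4)) .nil))) .nil))) (.cons (.br (nat_lit 11) (nat_lit 1) (.cons (.br (nat_lit 8) (nat_lit 1) (.cons (.br (nat_lit 4) (nat_lit 1) (.cons (.ev (nat_lit 158458742898686987592473248002) (nat_lit 2)) .nil)) .nil)) (.cons (.br (nat_lit 13) (nat_lit 0) (.cons (.ev (nat_lit 310693935640960801722859521) (nat_lit 1)) (.cons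 (.ev (nat_lit 310693954160043940135305473) (nat_lit 1)) .nil))) .nil))) (.cons (.br (nat_lit 13) (nat_lit 0) (.cons (.rf (nat_lit 2870) (nat_lit 458117738729117419552)) (.cons (.kr (nat_lit 18446744073709551616) (nat_lit 20282409603651670423947251286016) (nat_lit 8) (nat_lit 0)) (.cons (.br (nat_lit 4) (nat_lit 1) (.cons (.br (nat_lit 8) (nat_lit 1) (.cons (.ev (nat_lit 79228167255149904709736726785) (nat_lit 1)) .nil)) (.cons (.rf (nat_lit 3236) (nat_lit 493823402543469922336)) .nil))) .nil)))) .nil)))) (.cons (.br (nat_lit 8) (nat_lit 1) (.cons (.rf (nat_lit 3274) (nat_lit 493858305440582043680)) (.cons (.rf (nat_lit 3275) (nat_lit 493858305440582043680)) (.cons (.br (nat_lit 8) (nat_lit 1) (.cons (.rf (nat_lit 3274) (nat_lit 493858305440582043680)) (.cons (.rf (nat_lit 3275) (nat_lit 493858305440582043680)) .nil))) .nil)))) .nil)))),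
 (.br (nat_lit 5) (nat_lit 0) (.cons (.rf (nat_lit 3273) (nat_lit 493858305440582043680)) (.cons (.rf (nat_lit 3276) (nat_lit 493858305440582043680)) (.cons (.br (nat_lit 4) (nat_lit 1) (.cons (.br (nat_lit 6) (nat_lit 1) (.cons (.br (nat_lit 6) (nat_lit 1) (.cons (.br (nat_lit 8) (nat_lit 1) (.cons (.ev (nat_lit 79849550515034882673941611780) (nat_lit 3)) .nil)) .nil)) (.cons (.br (nat_lit 13) (nat_lit 0) (.cons (.kr (nat_lit 18446744073709551616) (nat_lit 20282409603651670423947251286016) (nat_lit 8) (nat_lit 0)) .nil)) .nil))) (.cons (.ev (nat_lit 1208925891673327019229441) (nat_lit 1)) (.cons (.br (nat_lit 13) (nat_lit 0) (.cons (.rf (nat_lit 2870) (nat_lit 458117738729117419552)) (.cons (.rf (nat_lit 3179) (nat_lit 458117738729117419552)) .nil))) .nil)))) .nil)))),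
 (.br (nat_lit 10) (nat_lit 1) (.cons (.rf (nat_lit 3258) (nat_lit 493858305440582043680)) (.cons (.rf (nat_lit 3268) (nat_lit 493858305440582043680)) (.cons (.br (nat_lit 5) (nat_lit 0) (.cons (.rf (nat_lit 3273) (nat_lit 493858305440582043680)) (.cons (.rf (nat_lit 3276) (nat_lit 493858305440582043680)) (.cons (.rf (nat_lit 3277) (nat_lit 493858305440582043680)) (.cons (.br (nat_lit 5) (nat_lit 0) (.cons (.rf (nat_lit 3273) (nat_lit 493858305440582043680)) (.cons (.rf (nat_lit 3276) (nat_lit 493858305440582043680)) (.cons (.rf (nat_lit 3277) (nat_lit 493858305440582043680)) .nil)))) .nil))))) .nil)))),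
 (.br (nat_lit 10) (nat_lit 1) (.cons (.rf (nat_lit 3258) (nat_lit 493858305440582043680)) (.cons (.rf (nat_lit 3268) (nat_lit 493858305440582043680)) (.cons (.rf (nat_lit 3278) (nat_lit 493858305440582043680)) (.cons (.br (nat_lit 10) (nat_lit 1) (.cons (.rf (nat_lit 3258) (nat_lit 493858305440582043680)) (.cons (.rf (nat_lit 3268) (nat_lit 493858305440582043680)) (.cons (.rf (nat_lit 3278) (nat_lit 493858305440582043680)) .nil)))) .nil))))),
 (.br (nat_lit 8) (nat_lit 1) (.cons (.ev (nat_lit 20361637766184381787093793308673) (nat_lit 1)) (.cons (.br (nat_lit 1) (nat_lit 0) (.cons (.ev (nat_lit 159076518141306886126880096514) (nat_lit 2)) .nil)) .nil))),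
 (.br (nat_lit 7) (nat_lit 0) (.cons (.br (nat_lit 2) (nat_lit 0) (.cons (.rf (nat_lit 3280) (nat_lit 493858305440582043680)) (.cons (.br (nat_lit 1) (nat_lit 0) (.cons (.ev (nat_lit 20361637766184381787093793243393) (nat_lit 1)) (.cons (.ev (nat_lit 20282410812595936782650152321281) (nat_lit 1)) .nil))) (.cons (.br (nat_lit 1) (nat_lit 0) (.cons (.rf (nat_lit 3280) (nat_lit 493858305440582042688)) (.cons (.ev (nat_lit 20282410812595936782650152386561) (nat_lit 1)) .nil))) .nil)))) (.cons (.br (nat_lit 5) (nat_lit 0) (.cons (.rf (nat_lit 3209) (nat_lit 15431913124294395936)) (.cons (.br (nat_lit 2) (nat_lit 0) (.cons (.br (nat_lit 8) (nat_lit 1) (.cons (.ev (nat_lit 79228167255149904709736726785) (nat_lit 1)) .nil)) (.cons (.br (nat_lit 6) (nat_lit 1) (.cons (.ev (nat_lit 79228167255149904709736792065) (nat_lit 1)) .nil)) .nil))) .nil))) .nil))),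
 (.br (nat_lit 7) (nat_lit 0) (.cons (.rf (nat_lit 3281) (nat_lit 493858305440582043680)) (.cons (.br (nat_lit 5) (nat_lit 0) (.cons (.br (nat_lit 1) (nat_lit 0) (.cons (.br (nat_lit 2) (nat_lit 0) (.cons (.ev (nat_lit 79228167255149904709736792065) (nat_lit 1)) .nil)) (.cons (.br (nat_lit 6) (nat_lit 1) (.cons (.ev (nat_lit 79228167255149904709736726785) (nat_lit 1)) .nil)) .nil))) (.cons (.rf (nat_lit 3209) (nat_lit 15431913126441879584)) .nil))) .nil))),
 (.br (nat_lit 13) (nat_lit 0) (.cons (.rf (nat_lit 2870) (nat_lit 458117738729117419552)) (.cons (.rf (nat_lit 3179) (nat_lit 458117738729117419552)) (.cons (.br (nat_lit 7) (nat_lit 0) (.cons (.rf (nat_lit 3281) (nat_lit 493858305440582043680)) (.cons (.rf (nat_lit 3282) (nat_lit 493858305440582043680)) (.cons (.br (nat_lit 7) (nat_lit 0) (.cons (.rf (nat_lit 3281) (nat_lit 493858305440582043680)) (.cons (.rf (nat_lit 3282) (nat_lit 493858305440582043680)) .nil))) .nil)))) .nil)))),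
 (.br (nat_lit 13) (nat_lit 0) (.cons (.rf (nat_lit 2870) (nat_lit 458117738729117419552)) (.cons (.rf (nat_lit 3179) (nat_lit 458117738729117419552)) (.cons (.rf (nat_lit 3283) (nat_lit 493858305440582043680)) (.cons (.br (nat_lit 13) (nat_lit 0) (.cons (.rf (nat_lit 2870) (nat_lit 458117738729117419552)) (.cons (.rf (nat_lit 3179) (nat_lit 458117738729117419552)) (.cons (.rf (nat_lit 3283) (nat_lit 493858305440582043680)) .nil)))) .nil))))),
 (.br (nat_lit 13) (nat_lit 0) (.cons (.rf (nat_lit 2870) (nat_lit 458117738729117419552)) (.cons (.br (nat_lit 8) (nat_lit 1) (.cons (.rf (nat_lit 3279) (nat_lit 458082801744999450656)) (.cons (.rf (nat_lit 3279) (nat_lit 458082801744999449664)) (.cons (.kr (nat_lit 18446744073709551616) (nat_lit 20282409603651670423947251286016) (nat_lit 8) (nat_lit 0)) (.cons (.kr (nat_lit 4740813226943354765312) (nat_lit 20361637766165934761540795236352) (nat_lit 8) (nat_lit 0)) .nil))))) (.cons (.rf (nat_lit 3253) (nat_lit 458082801744999450656)) .nil)))),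
 (.br (nat_lit 8) (nat_lit 1) (.cons (.kr (nat_lit 256) (nat_lit 65536) (nat_lit 1) (nat_lit 0)) (.cons (.br (nat_lit 10) (nat_lit 1) (.cons (.br (nat_lit 4) (nat_lit 1) (.cons (.br (nat_lit 7) (nat_lit 0) (.cons (.ev (nat_lit 79230604014990044311738123780) (nat_lit 3)) .nil)) .nil)) (.cons (.br (nat_lit 2) (nat_lit 0) (.cons (.br (nat_lit 7) (nat_lit 0) (.cons (.ev (nat_lit 79228167255149904709736726785) (nat_lit 1)) .nil)) (.cons (.kr (nat_lit 20361637766165934761540795236608) (nat_lit 1213648186097498819985408) (nat_lit 1) (nat_lit 0)) .nil))) .nil))) (.cons (.br (nat_lit 10) (nat_lit 1) (.cons (.br (nat_lit 5) (nat_lit 0) (.cons (.br (nat_lit 6) (nat_lit 1) (.cons (.ev (nat_lit 316915077390396499591963084292) (nat_lit 3)) .nil)) (.cons (.br (nat_lit 4) (nat_lit 1) (.cons (.ev (nat_lit 2446222805080696368137732) (nat_lit 3)) .nil)) .nil))) (.cons (.br (nat_lit 4) (nat_lit 1) (.cons (.br (nat_lit 7) (nat_lit 0) (.cons (.ev (nat_lit 18519084246547562753) (nat_lit 1)) .nil)) (.cons (.rf (nat_lit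 2935) (nat_lit 493750222348060035104)) .nil))) (.cons (.br (nat_lit 6) (nat_lit 1) (.cons (.kr (nat_lit 20361637766165934761540795236608) (nat_lit 1213648186097498819985408) (nat_lit 1) (nat_lit 0)) (.cons (.br (nat_lit 4) (nat_lit 1) (.cons (.ev (nat_lit 79228167255149904709736726785) (nat_lit 1)) .nil)) .nil))) .nil)))) .nil))))]

theorem c115 : chkAll C T R L115 (nat_lit 3259) = true := by decide +kernel

theorem l115 : (nat_lit 3259) + L115.length = (nat_lit 3287) := by decide +kernel

/-- part of the certificates -/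
def L116 : List Prf := [(.br (nat_lit 6) (nat_lit 1) (.cons (.ev (nat_lit 20282409608392483932369894506753) (nat_lit 1)) (.cons (.ev (nat_lit 79537647542532708210954993921) (nat_lit 1)) .nil))),
 (.br (nat_lit 8) (nat_lit 1) (.cons (.rf (nat_lit 3286) (nat_lit 493858305440582043680)) (.cons (.rf (nat_lit 3286) (nat_lit 493858305440582042688)) (.cons (.br (nat_lit 4) (nat_lit 1) (.cons (.rf (nat_lit 3287) (nat_lit 493858305440582043680)) (.cons (.rf (nat_lit 3287) (nat_lit 493858305440582042688)) (.cons (.br (nat_lit 1) (nat_lit 0) (.cons (.br (nat_lit 10) (nat_lit 1) (.cons (.ev (nat_lit 20837014004362069770006343910148) (nat_lit 3)) .nil)) (.cons (.br (nat_lit 2) (nat_lit 0) (.cons (.ev (nat_lit 20837014004362069770006343910148) (nat_lit 3)) .nil)) .nil))) .nil)))) .nil)))),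
 (.br (nat_lit 13) (nat_lit 0) (.cons (.rf (nat_lit 2870) (nat_lit 458117738729117419552)) (.cons (.rf (nat_lit 3285) (nat_lit 493858305440582043680)) (.cons (.br (nat_lit 8) (nat_lit 1) (.cons (.rf (nat_lit 3286) (nat_lit 493858305440582043680)) (.cons (.rf (nat_lit 3286) (nat_lit 493858305440582042688)) (.cons (.rf (nat_lit 3288) (nat_lit 493858305440582043680)) (.cons (.br (nat_lit 8) (nat_lit 1) (.cons (.rf (nat_lit 3286) (nat_lit 493858305440582043680)) (.cons (.rf (nat_lit 3286) (nat_lit 493858305440582042688)) (.cons (.rf (nat_lit 3288) (nat_lit 493858305440582043680)) .nil)))) .nil))))) .nil)))),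
 (.br (nat_lit 13) (nat_lit 0) (.cons (.rf (nat_lit 2870) (nat_lit 458117738729117419552)) (.cons (.rf (nat_lit 3285) (nat_lit 493858305440582043680)) (.cons (.rf (nat_lit 3289) (nat_lit 493858305440582043680)) (.cons (.br (nat_lit 13) (nat_lit 0) (.cons (.rf (nat_lit 2870) (nat_lit 458117738729117419552)) (.cons (.rf (nat_lit 3253) (nat_lit 458082801744999450656)) (.cons (.rf (nat_lit 3289) (nat_lit 493858305440582043680)) .nil)))) .nil))))),
 (.br (nat_lit 8) (nat_lit 1) (.cons (.ev (nat_lit 20361948460120022465312421117953) (nat_lit 1)) (.cons (.br (nat_lit 6) (nat_lit 1) (.cons (.rf (nat_lit 2676) (nat_lit 493823368456464074784)) (.cons (.br (nat_lit 7) (nat_lit 0) (.cons (.ev (nat_lit 79228167255149623234743238913) (nat_lit 1)) .nil)) .nil))) (.cons (.br (nat_lit 2) (nat_lit 0) (.cons (.br (nat_lit 7) (nat_lit 0) (.cons (.br (nat_lit 6) (nat_lit 1) (.cons (.ev (nat_lit 79537647542532708210955059201) (nat_lit 1)) .nil)) .nil)) (.cons (.br (nat_lit 4) (nat_lit 1) (.cons (.ev (nat_lit 20282409608392483650894901084161)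 (nat_lit 1)) (.cons (.ev (nat_lit 20361637766184381505618799820801) (nat_lit 1)) .nil))) .nil))) .nil)))),
 (.br (nat_lit 13) (nat_lit 0) (.cons (.rf (nat_lit 3179) (nat_lit 458117738729117419552)) (.cons (.rf (nat_lit 3290) (nat_lit 493858305440582043680)) (.cons (.br (nat_lit 10) (nat_lit 1) (.cons (.rf (nat_lit 3291) (nat_lit 493858305440582043680)) (.cons (.rf (nat_lit 3291) (nat_lit 493858305440582042688)) (.cons (.kr (nat_lit 1208925819614629174706176) (nat_lit 20282409603651670423947251286016) (nat_lit 10) (nat_lit 0)) (.cons (.kr (nat_lit 1213648186097498819919872) (nat_lit 20361637766165934761540795236352) (nat_lit 9) (nat_lit 0)) .nil))))) .nil)))),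
 (.br (nat_lit 13) (nat_lit 0) (.cons (.rf (nat_lit 3179) (nat_lit 458117738729117419552)) (.cons (.rf (nat_lit 3290) (nat_lit 493858305440582043680)) (.cons (.rf (nat_lit 3292) (nat_lit 493858305440582043680)) (.cons (.br (nat_lit 13) (nat_lit 0) (.cons (.rf (nat_lit 3179) (nat_lit 458117738729117419552)) (.cons (.rf (nat_lit 3253) (nat_lit 458082801744999450656)) (.cons (.rf (nat_lit 3292) (nat_lit 493858305440582043680)) .nil)))) .nil))))),
 (.br (nat_lit 13) (nat_lit 0) (.cons (.rf (nat_lit 3284) (nat_lit 493858305440582043680)) (.cons (.rf (nat_lit 3290) (nat_lit 493858305440582043680)) (.cons (.rf (nat_lit 3293) (nat_lit 493858305440582043680)) (.cons (.br (nat_lit 13) (nat_lit 0) (.cons (.rf (nat_lit 3284) (nat_lit 493858305440582043680)) (.cons (.rf (nat_lit 3290) (nat_lit 493858305440582043680)) (.cons (.rf (nat_lit 3293) (nat_lit 493858305440582043680)) .nil)))) .nil))))),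
 (.br (nat_lit 7) (nat_lit 0) (.cons (.ev (nat_lit 1213648186380077603225601) (nat_lit 1)) .nil)),
 (.br (nat_lit 8) (nat_lit 1) (.cons (.rf (nat_lit 2725) (nat_lit 493823296993574881312)) (.cons (.br (nat_lit 13) (nat_lit 0) (.cons (.rf (nat_lit 3179) (nat_lit 458117738729117419552)) (.cons (.br (nat_lit 7) (nat_lit 0) (.cons (.br (nat_lit 11) (nat_lit 1) (.cons (.ev (nat_lit 158457533991242060546760048642) (nat_lit 2)) .nil)) (.cons (.br (nat_lit 4) (nat_lit 1) (.cons (.ev (nat_lit 310693935641242276682792961) (nat_lit 1)) .nil)) .nil))) (.cons (.br (nat_lit 5) (nat_lit 0) (.cons (.br (nat_lit 10) (nat_lit 1) (.cons (.ev (nat_lit 310693935641242276682792961) (nat_lit 1)) .nil)) (.cons (.rf (nat_lit 3295) (nat_lit 493858305440582043680)) .nil))) .nil)))) .nil))),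
 (.br (nat_lit 8) (nat_lit 1) (.cons (.rf (nat_lit 2725) (nat_lit 493823296993574881312)) (.cons (.rf (nat_lit 3296) (nat_lit 493858305440582043680)) (.cons (.br (nat_lit 8) (nat_lit 1) (.cons (.rf (nat_lit 2725) (nat_lit 493823296993574881312)) (.cons (.rf (nat_lit 3296) (nat_lit 493858305440582043680)) .nil))) .nil)))),
 (.br (nat_lit 8) (nat_lit 1) (.cons (.rf (nat_lit 2725) (nat_lit 493751241598560208928)) (.cons (.br (nat_lit 13) (nat_lit 0) (.cons (.rf (nat_lit 3179) (nat_lit 458117738729117419552)) (.cons (.br (nat_lit 4) (nat_lit 1) (.cons (.ev (nat_lit 79229371440084234801501962241) (nat_lit 1)) (.cons (.ev (nat_lit 79229371458530696300723175681) (nat_lit 1)) .nil))) (.cons (.br (nat_lit 2) (nat_lit 0) (.cons (.br (nat_lit 10) (nat_lit 1) (.cons (.ev (nat_lit 1213648186380077603225601) (nat_lit 1)) .nil)) (.cons (.rf (nat_lit 3297) (nat_lit 493858305440582043680)) .nil))) .nil)))) .nil))),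
 (.br (nat_lit 8) (nat_lit 1) (.cons (.rf (nat_lit 2725) (nat_lit 493751241598560208928)) (.cons (.rf (nat_lit 3298) (nat_lit 493858305440582043680)) (.cons (.br (nat_lit 8) (nat_lit 1) (.cons (.rf (nat_lit 2725) (nat_lit 493751241598560208928)) (.cons (.rf (nat_lit 3298) (nat_lit 493858305440582043680)) .nil))) .nil)))),
 (.br (nat_lit 10) (nat_lit 1) (.cons (.rf (nat_lit 3297) (nat_lit 493858305440582043680)) (.cons (.rf (nat_lit 3299) (nat_lit 493858305440582043680)) (.cons (.br (nat_lit 13) (nat_lit 0) (.cons (.rf (nat_lit 3253) (nat_lit 458117738729117419552)) (.cons (.br (nat_lit 8) (nat_lit 1) (.cons (.br (nat_lit 7) (nat_lit 0) (.cons (.br (nat_lit 11) (nat_lit 1) (.cons (.ev (nat_lit 20838244681327772281583173829380) (nat_lit 3)) .nil)) (.cons (.rf (nat_lit 3028) (nat_lit 493677003674038142016)) .nil))) (.cons (.br (nat_lit 7) (nat_lit 0) (.cons (.ev (nat_lit 79229371458530696300723175681) (nat_lit 1)) (.cons (.kr (nat_lit 79228162532711081667253502208) (nat_lit 309485009821346168253186048)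 (nat_lit 1) (nat_lit 0)) .nil))) (.cons (.br (nat_lit 5) (nat_lit 0) (.cons (.ev (nat_lit 79229371458530696300723175681) (nat_lit 1)) (.cons (.br (nat_lit 4) (nat_lit 1) (.cons (.ev (nat_lit 309485028268371721217704193) (nat_lit 1)) .nil)) .nil))) .nil)))) (.cons (.br (nat_lit 2) (nat_lit 0) (.cons (.br (nat_lit 8) (nat_lit 1) (.cons (.zr (nat_lit 158765810038350022454836134144) (nat_lit 1218370552861847770365953) (nat_lit 5) (nat_lit 0)) (.cons (.zr (nat_lit 40564819216748217928821868921600) (nat_lit 929663955283931314654281729) (nat_lit 5) (nat_lit 0)) .nil))) (.cons (.br (nat_lit 7) (nat_lit 0) (.cons (.ev (nat_lit 20282720302309749924113145725185) (nat_lit 1)) (.cons (.br (nat_lit 4) (nat_lit 1) (.cons (.zr (nat_lit 238303457562435706216616493056) (nat_lit 1227833732571660753567745) (nat_lit 5) (nat_lit 0)) .nil)) .nil))) .nil))) .nil)))) .nil)))),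
 (.br (nat_lit 8) (nat_lit 1) (.cons (.br (nat_lit 10) (nat_lit 1) (.cons (.rf (nat_lit 795) (nat_lit 13979371465443360)) (.cons (.br (nat_lit 13) (nat_lit 0) (.cons (.rf (nat_lit 3253) (nat_lit 458117738729117419552)) (.cons (.kr (nat_lit 4740813226943354765568) (nat_lit 20282409603651742481541305991168) (nat_lit 1) (nat_lit 0)) .nil))) .nil))) (.cons (.br (nat_lit 10) (nat_lit 1) (.cons (.rf (nat_lit 2725) (nat_lit 493679322542987379776)) (.cons (.br (nat_lit 5) (nat_lit 0) (.cons (.zr (nat_lit 237684487542793014979655172864) (nat_lit 1218370552861847770365953) (nat_lit 5) (nat_lit 0)) (.cons (.rf (nat_lit 3077) (nat_lit 493823368456464073792)) .nil))) (.cons (.br (nat_lit 11) (nat_lit 1) (.cons (.rf (nat_lit 2816) (nat_lit 493823368456464073792)) (.cons (.kr (nat_lit 79228162532711081667253502208) (nat_lit 20282409603651742481541305991168) (nat_lit 1) (nat_lit 0)) .nil))) .nil)))) .nil))),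
 (.br (nat_lit 8) (nat_lit 1) (.cons (.rf (nat_lit 3301) (nat_lit 493858305440582043680)) (.cons (.br (nat_lit 4) (nat_lit 1) (.cons (.br (nat_lit 13) (nat_lit 0) (.cons (.br (nat_lit 5) (nat_lit 0) (.cons (.ev (nat_lit 20838247099179411508642466693380) (nat_lit 3)) .nil)) (.cons (.br (nat_lit 10) (nat_lit 1) (.cons (.ev (nat_lit 310693935641242276682858753) (nat_lit 1)) .nil)) .nil))) (.cons (.rf (nat_lit 3179) (nat_lit 458117738729117419552)) .nil))) .nil))),
 (.br (nat_lit 8) (nat_lit 1) (.cons (.rf (nat_lit 3301) (nat_lit 493858305440582043680)) (.cons (.rf (nat_lit 3302) (nat_lit 493858305440582043680)) (.cons (.br (nat_lit 8) (nat_lit 1) (.cons (.rf (nat_lit 3301) (nat_lit 493858305440582043680)) (.cons (.rf (nat_lit 3302) (nat_lit 493858305440582043680)) .nil))) .nil)))),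
 (.br (nat_lit 10) (nat_lit 1) (.cons (.rf (nat_lit 3303) (nat_lit 493858305440582043680)) (.cons (.br (nat_lit 2) (nat_lit 0) (.cons (.rf (nat_lit 2587) (nat_lit 493750109103736326176)) (.cons (.br (nat_lit 5) (nat_lit 0) (.cons (.ev (nat_lit 1213648186098602643357953) (nat_lit 1)) (.cons (.rf (nat_lit 795) (nat_lit 13977174589671456)) (.cons (.br (nat_lit 4) (nat_lit 1) (.cons (.br (nat_lit 8) (nat_lit 1) (.cons (.ev (nat_lit 4740813509522138071041) (nat_lit 1)) .nil)) .nil)) .nil)))) (.cons (.rf (nat_lit 2587) (nat_lit 493750116798164994080)) .nil)))) (.cons (.br (nat_lit 7) (nat_lit 0) (.cons (.br (nat_lit 13) (nat_lit 0) (.cons (.br (nat_lit 2) (nat_lit 0) (.cons (.ev (nat_lit 20282409603670189507094270509313) (nat_lit 1)) (.cons (.zr (nat_lit 60847228810955227444623867904000) (nat_lit 311907583827338676007862529) (nat_lit 5) (nat_lit 0)) .nil))) (.cons (.rf (nat_lit 2943) (nat_lit 482249415403341856)) .nil))) (.cons (.br (nat_lit 8) (nat_lit 1) (.cons (.br (nat_lit 4) (nat_lit 1) (.cons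 (.ev (nat_lit 79229371440083953326542094593) (nat_lit 1)) (.cons (.ev (nat_lit 20282409603670189507094270509313) (nat_lit 1)) .nil))) (.cons (.rf (nat_lit 2886) (nat_lit 493817844514338998304)) (.cons (.br (nat_lit 4) (nat_lit 1) (.cons (.ev (nat_lit 20282409603670189507094270509313) (nat_lit 1)) (.cons (.ev (nat_lit 20282409603651742482645095809281) (nat_lit 1)) .nil))) .nil)))) (.cons (.rf (nat_lit 2949) (nat_lit 493750222348060035104)) .nil)))) .nil)))),
 (.br (nat_lit 10) (nat_lit 1) (.cons (.rf (nat_lit 3303) (nat_lit 493858305440582043680)) (.cons (.rf (nat_lit 3304) (nat_lit 493858305440582043680)) (.cons (.br (nat_lit 4) (nat_lit 1) (.cons (.br (nat_lit 11) (nat_lit 1) (.cons (.br (nat_lit 5) (nat_lit 0) (.cons (.br (nat_lit 8) (nat_lit 1) (.cons (.zr (nat_lit 237684487579686500928067928064) (nat_lit 310698658007724046816379393) (nat_lit 5) (nat_lit 4)) .nil)) .nil)) (.cons (.ev (nat_lit 20282720302309750205588105592833) (nat_lit 1)) .nil))) (.cons (.br (nat_lit 2) (nat_lit 0) (.cons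 (.br (nat_lit 11) (nat_lit 1) (.cons (.br (nat_lit 8) (nat_lit 1) (.cons (.ev (nat_lit 309485028268371721217638401) (nat_lit 1)) .nil)) (.cons (.br (nat_lit 8) (nat_lit 1) (.cons (.zr (nat_lit 238303457562435706216616297216) (nat_lit 1227833732571660753567745) (nat_lit 5) (nat_lit 0)) .nil)) .nil))) (.cons (.ev (nat_lit 79228162514264337597838983169) (nat_lit 1)) .nil))) (.cons (.rf (nat_lit 3253) (nat_lit 458117738729117419552)) .nil)))) .nil)))),
 (.br (nat_lit 6) (nat_lit 1) (.cons (.kr (nat_lit 256) (nat_lit 65536) (nat_lit 1) (nat_lit 0)) (.cons (.br (nat_lit 10) (nat_lit 1) (.cons (.rf (nat_lit 3297) (nat_lit 493858305440582043680)) (.cons (.rf (nat_lit 3299) (nat_lit 493858305440582043680)) (.cons (.rf (nat_lit 3300) (nat_lit 493858305440582043680)) (.cons (.br (nat_lit 10) (nat_lit 1) (.cons (.rf (nat_lit 3297) (nat_lit 493858305440582043680)) (.cons (.rf (nat_lit 3299) (nat_lit 493858305440582043680)) (.cons (.rf (nat_lit 3300) (nat_lit 493858305440582043680)) .nil)))) .nil))))) (.cons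 (.br (nat_lit 10) (nat_lit 1) (.cons (.rf (nat_lit 3303) (nat_lit 493858305440582043680)) (.cons (.rf (nat_lit 3304) (nat_lit 493858305440582043680)) (.cons (.rf (nat_lit 3305) (nat_lit 493858305440582043680)) (.cons (.br (nat_lit 10) (nat_lit 1) (.cons (.rf (nat_lit 3303) (nat_lit 493858305440582043680)) (.cons (.rf (nat_lit 3304) (nat_lit 493858305440582043680)) (.cons (.rf (nat_lit 3305) (nat_lit 493858305440582043680)) .nil)))) .nil))))) (.cons (.rf (nat_lit 3179) (nat_lit 458082801744999450656)) .nil))))),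
 (.br (nat_lit 4) (nat_lit 1) (.cons (.br (nat_lit 5) (nat_lit 0) (.cons (.br (nat_lit 7) (nat_lit 0) (.cons (.ev (nat_lit 79229376180897461740578603265) (nat_lit 1)) .nil)) (.cons (.br (nat_lit 8) (nat_lit 1) (.cons (.ev (nat_lit 20680407354653085758908939962116) (nat_lit 3)) .nil)) .nil))) (.cons (.ev (nat_lit 79228162514264337597838917889) (nat_lit 1)) (.cons (.rf (nat_lit 3024) (nat_lit 457865608618244671520)) .nil)))),
 (.br (nat_lit 8) (nat_lit 1) (.cons (.ev (nat_lit 79229376180897180265585049601) (nat_lit 1)) (.cons (.ev (nat_lit 79228167255077846011875426561) (nat_lit 1)) .nil))),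
 (.br (nat_lit 7) (nat_lit 0) (.cons (.rf (nat_lit 3209) (nat_lit 15429485402625509408)) (.cons (.br (nat_lit 2) (nat_lit 0) (.cons (.br (nat_lit 10) (nat_lit 1) (.cons (.kr (nat_lit 20282409613096475447280579641600) (nat_lit 79847132533907028830505205760) (nat_lit 1) (nat_lit 0)) .nil)) (.cons (.br (nat_lit 1) (nat_lit 0) (.cons (.kr (nat_lit 79847132533907028830505140480) (nat_lit 20282409613096475447280579706880) (nat_lit 1) (nat_lit 0)) .nil)) .nil))) .nil))),
 (.br (nat_lit 13) (nat_lit 0) (.cons (.rf (nat_lit 3179) (nat_lit 458117738729117419552)) (.cons (.br (nat_lit 11) (nat_lit 1) (.cons (.rf (nat_lit 3307) (nat_lit 493858305440582043680)) (.cons (.rf (nat_lit 3307) (nat_lit 493858305440582042688)) (.cons (.br (nat_lit 10) (nat_lit 1) (.cons (.rf (nat_lit 3308) (nat_lit 493858305440582043680)) (.cons (.rf (nat_lit 3308) (nat_lit 493858305440582042688)) (.cons (.br (nat_lit 2) (nat_lit 0) (.cons (.br (nat_lit 1) (nat_lit 0) (.cons (.zr (nat_lit 237684487579686504235175968768) (nat_lit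 310712825107172651524161537) (nat_lit 5) (nat_lit 0)) .nil)) (.cons (.br (nat_lit 4) (nat_lit 1) (.cons (.zr (nat_lit 237684487579686504235175772928) (nat_lit 310712825107172651524161537) (nat_lit 5) (nat_lit 0)) .nil)) .nil))) .nil)))) (.cons (.rf (nat_lit 3136) (nat_lit 458046703678750033952)) .nil))))) (.cons (.br (nat_lit 5) (nat_lit 0) (.cons (.rf (nat_lit 3309) (nat_lit 493858305440582043680)) (.cons (.rf (nat_lit 2652) (nat_lit 14308159398722242592)) (.cons (.br (nat_lit 8) (nat_lit 1) (.cons (.rf (nat_lit 3024) (nat_lit 493823368458609461280)) (.cons (.rf (nat_lit 3024) (nat_lit 493823368458609460288)) (.cons (.br (nat_lit 1) (nat_lit 0) (.cons (.ev (nat_lit 79537647542532708210954993921) (nat_lit 1)) (.cons (.ev (nat_lit 79228167255077846011875426561) (nat_lit 1)) .nil))) .nil)))) .nil)))) .nil)))),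
 (.br (nat_lit 2) (nat_lit 0) (.cons (.kr (nat_lit 20282409613096475447280579641600) (nat_lit 79847132533907028830505205760) (nat_lit 1) (nat_lit 0)) .nil))]

theorem c116 : chkAll C T R L116 (nat_lit 3287) = true := by decide +kernel

theorem l116 : (nat_lit 3287) + L116.length = (nat_lit 3312) := by decide +kernel

/-- part of the certificates -/
def L117 : List Prf := [(.br (nat_lit 7) (nat_lit 0) (.cons (.kr (nat_lit 311902861460575426585821184) (nat_lit 79228162551229883335000981504) (nat_lit 5) (nat_lit 0)) (.cons (.br (nat_lit 9) (nat_lit 1) (.cons (.rf (nat_lit 3311) (nat_lit 455774711404816336928)) (.cons (.rf (nat_lit 3311) (nat_lit 455774711404816335936)) .nil))) .nil))),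
 (.br (nat_lit 5) (nat_lit 0) (.cons (.rf (nat_lit 3312) (nat_lit 14242959524133701664)) (.cons (.rf (nat_lit 2652) (nat_lit 13119207996512110624)) (.cons (.br (nat_lit 9) (nat_lit 1) (.cons (.rf (nat_lit 3024) (nat_lit 455883953382594021408)) (.cons (.rf (nat_lit 3024) (nat_lit 455883953382594020416)) (.cons (.rf (nat_lit 3312) (nat_lit 13123641225247819808)) .nil)))) .nil)))),
 (.br (nat_lit 6) (nat_lit 1) (.cons (.rf (nat_lit 3306) (nat_lit 493858305440582043680)) (.cons (.rf (nat_lit 3306) (nat_lit 493858305440582042688)) (.cons (.br (nat_lit 13) (nat_lit 0) (.cons (.br (nat_lit 13) (nat_lit 0) (.cons (.rf (nat_lit 3179) (nat_lit 458117738729117419552)) (.cons (.rf (nat_lit 3253) (nat_lit 458117738729117419552)) (.cons (.rf (nat_lit 2915) (nat_lit 482108677914986528)) .nil)))) (.cons (.rf (nat_lit 3310) (nat_lit 493858305440582043680)) (.cons (.br (nat_lit 13) (nat_lit 0) (.cons (.rf (nat_lit 3253) (nat_lit 458117738729117419552)) (.cons (.rf (nat_lit 3310) (nat_lit 493858305440582043680))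 (.cons (.rf (nat_lit 3313) (nat_lit 15433072009550071840)) .nil)))) (.cons (.br (nat_lit 13) (nat_lit 0) (.cons (.rf (nat_lit 2915) (nat_lit 482108677914986528)) (.cons (.rf (nat_lit 3310) (nat_lit 493858305440582043680)) (.cons (.rf (nat_lit 3313) (nat_lit 15433072009550071840)) .nil)))) .nil))))) (.cons (.rf (nat_lit 3179) (nat_lit 458082801744999450656)) .nil))))),
 (.br (nat_lit 12) (nat_lit 0) (.cons (.rf (nat_lit 2870) (nat_lit 493858305440582043680)) (.cons (.rf (nat_lit 3179) (nat_lit 493858305440582043680)) (.cons (.rf (nat_lit 3253) (nat_lit 493858305440582043680)) (.cons (.br (nat_lit 9) (nat_lit 1) (.cons (.rf (nat_lit 3279) (nat_lit 493858305440582043680)) (.cons (.rf (nat_lit 3279) (nat_lit 493858305440582042688)) (.cons (.br (nat_lit 13) (nat_lit 0) (.cons (.rf (nat_lit 3284) (nat_lit 493858305440582043680)) (.cons (.rf (nat_lit 3290) (nat_lit 493858305440582043680)) (.cons (.rf (nat_lit 3293) (nat_lit 493858305440582043680)) (.cons (.rf (nat_lit 3294) (nat_lit 493858305440582043680))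 (.cons (.br (nat_lit 13) (nat_lit 0) (.cons (.rf (nat_lit 3284) (nat_lit 493858305440582043680)) (.cons (.rf (nat_lit 3290) (nat_lit 493858305440582043680)) (.cons (.rf (nat_lit 3293) (nat_lit 493858305440582043680)) (.cons (.rf (nat_lit 3294) (nat_lit 493858305440582043680)) .nil))))) .nil)))))) (.cons (.kr (nat_lit 4722366482869645213696) (nat_lit 79228162514264337593543950336) (nat_lit 9) (nat_lit 0)) (.cons (.br (nat_lit 6) (nat_lit 1) (.cons (.rf (nat_lit 3306) (nat_lit 493858305440582043680)) (.cons (.rf (nat_lit 3306) (nat_lit 493858305440582042688)) (.cons (.rf (nat_lit 3314) (nat_lit 493858305440582043680)) (.cons (.br (nat_lit 6) (nat_lit 1) (.cons (.rf (nat_lit 3306) (nat_lit 493858305440582043680)) (.cons (.rf (nat_lit 3306) (nat_lit 493858305440582042688)) (.cons (.rf (nat_lit 3314) (nat_lit 493858305440582043680)) (.cons (.rf (nat_lit 3179) (nat_lit 458082801744999450656)) .nil))))) (.cons (.rf (nat_lit 3179) (nat_lit 458082801744999450656)) .nil)))))) .nil)))))) .nil))))),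
 (.br (nat_lit 13) (nat_lit 0) (.cons (.rf (nat_lit 3179) (nat_lit 458117738729117419552)) (.cons (.rf (nat_lit 3315) (nat_lit 458082801744999450656)) (.cons (.br (nat_lit 4) (nat_lit 1) (.cons (.ev (nat_lit 20361948460101575722342518161665) (nat_lit 1)) (.cons (.br (nat_lit 5) (nat_lit 0) (.cons (.zr (nat_lit 237686905394432245337516147456) (nat_lit 1237944780098888697542344705) (nat_lit 5) (nat_lit 0)) .nil)) .nil))) .nil)))),
 (.br (nat_lit 8) (nat_lit 1) (.cons (.rf (nat_lit 2725) (nat_lit 493679287359689033760)) (.cons (.br (nat_lit 13) (nat_lit 0) (.cons (.rf (nat_lit 3179) (nat_lit 458117738729117419552)) (.cons (.rf (nat_lit 3315) (nat_lit 458082801744999450656)) (.cons (.rf (nat_lit 3316) (nat_lit 493858305440582043680)) (.cons (.br (nat_lit 13) (nat_lit 0) (.cons (.ev (nat_lit 20282719088679938513093980651521) (nat_lit 1)) (.cons (.kr (nat_lit 20282409603651670423947268063488) (nat_lit 4722366764344621989888) (nat_lit 1) (nat_lit 0)) (.cons (.rf (nat_lit 3316) (nat_lit 493858305440582043680))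 .nil)))) .nil))))) .nil))),
 (.br (nat_lit 8) (nat_lit 1) (.cons (.rf (nat_lit 2725) (nat_lit 493679287359689033760)) (.cons (.rf (nat_lit 3317) (nat_lit 493858305440582043680)) (.cons (.br (nat_lit 8) (nat_lit 1) (.cons (.rf (nat_lit 2725) (nat_lit 493679287359689033760)) (.cons (.rf (nat_lit 3317) (nat_lit 493858305440582043680)) .nil))) .nil)))),
 (.br (nat_lit 8) (nat_lit 1) (.cons (.rf (nat_lit 2725) (nat_lit 493751342754703706144)) (.cons (.br (nat_lit 6) (nat_lit 1) (.cons (.rf (nat_lit 3318) (nat_lit 493858305440582043680)) (.cons (.br (nat_lit 4) (nat_lit 1) (.cons (.br (nat_lit 11) (nat_lit 1) (.cons (.br (nat_lit 10) (nat_lit 1) (.cons (.zr (nat_lit 237686905394432245337516147456) (nat_lit 1237944780098888697542344705) (nat_lit 5) (nat_lit 0)) .nil)) .nil)) (.cons (.rf (nat_lit 3179) (nat_lit 458117738729117419552)) .nil))) (.cons (.rf (nat_lit 3315) (nat_lit 458082801744999450656)) .nil)))) .nil))),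
 (.br (nat_lit 8) (nat_lit 1) (.cons (.rf (nat_lit 2725) (nat_lit 493751342754703706144)) (.cons (.rf (nat_lit 3319) (nat_lit 493858305440582043680)) (.cons (.br (nat_lit 8) (nat_lit 1) (.cons (.rf (nat_lit 2725) (nat_lit 493751342754703706144)) (.cons (.rf (nat_lit 3319) (nat_lit 493858305440582043680)) .nil))) .nil)))),
 (.br (nat_lit 13) (nat_lit 0) (.cons (.rf (nat_lit 2870) (nat_lit 458117738729117419552)) (.cons (.rf (nat_lit 3315) (nat_lit 458082801744999450656)) (.cons (.br (nat_lit 7) (nat_lit 0) (.cons (.rf (nat_lit 3081) (nat_lit 15429691149941573664)) (.cons (.ev (nat_lit 20361637766166007100609826652161) (nat_lit 1)) .nil))) .nil)))),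
 (.br (nat_lit 6) (nat_lit 1) (.cons (.rf (nat_lit 3318) (nat_lit 493858305440582043680)) (.cons (.rf (nat_lit 3320) (nat_lit 493858305440582043680)) (.cons (.br (nat_lit 13) (nat_lit 0) (.cons (.rf (nat_lit 2870) (nat_lit 458117738729117419552)) (.cons (.rf (nat_lit 3315) (nat_lit 458082801744999450656)) (.cons (.rf (nat_lit 3321) (nat_lit 493858305440582043680)) (.cons (.br (nat_lit 13) (nat_lit 0) (.cons (.rf (nat_lit 2870) (nat_lit 458117738729117419552)) (.cons (.rf (nat_lit 3315) (nat_lit 458082801744999450656)) (.cons (.rf (nat_lit 3321) (nat_lit 493858305440582043680)) .nil)))) .nil))))) .nil)))),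
 (.br (nat_lit 6) (nat_lit 1) (.cons (.rf (nat_lit 2725) (nat_lit 493787268197629658176)) (.cons (.br (nat_lit 8) (nat_lit 1) (.cons (.br (nat_lit 4) (nat_lit 1) (.cons (.ev (nat_lit 72057598349672449) (nat_lit 1)) (.cons (.ev (nat_lit 79228167255077846016187236353) (nat_lit 1)) .nil))) .nil)) (.cons (.br (nat_lit 8) (nat_lit 1) (.cons (.br (nat_lit 4) (nat_lit 1) (.cons (.br (nat_lit 11) (nat_lit 1) (.cons (.br (nat_lit 10) (nat_lit 1) (.cons (.ev (nat_lit 310693935713017296249225473) (nat_lit 1)) .nil)) .nil)) (.cons (.ev (nat_lit 79228167255077846016187236353) (nat_lit 1)) .nil))) (.cons (.rf (nat_lit 3315) (nat_lit 458082801744999450656)) .nil))) .nil)))),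
 (.br (nat_lit 8) (nat_lit 1) (.cons (.rf (nat_lit 3323) (nat_lit 493858305440582043680)) (.cons (.br (nat_lit 4) (nat_lit 1) (.cons (.br (nat_lit 6) (nat_lit 1) (.cons (.br (nat_lit 10) (nat_lit 1) (.cons (.br (nat_lit 13) (nat_lit 0) (.cons (.ev (nat_lit 310693935713017296249225473) (nat_lit 1)) .nil)) .nil)) (.cons (.ev (nat_lit 79228167255077846016187236353) (nat_lit 1)) .nil))) (.cons (.rf (nat_lit 3179) (nat_lit 458117738729117419552)) .nil))) .nil))),
 (.br (nat_lit 8) (nat_lit 1) (.cons (.rf (nat_lit 3323) (nat_lit 493858305440582043680)) (.cons (.rf (nat_lit 3324) (nat_lit 493858305440582043680)) (.cons (.br (nat_lit 8) (nat_lit 1) (.cons (.rf (nat_lit 3323) (nat_lit 493858305440582043680)) (.cons (.rf (nat_lit 3324) (nat_lit 493858305440582043680)) .nil))) .nil)))),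
 (.br (nat_lit 8) (nat_lit 1) (.cons (.rf (nat_lit 2725) (nat_lit 493787336367350580288)) (.cons (.br (nat_lit 4) (nat_lit 1) (.cons (.br (nat_lit 10) (nat_lit 1) (.cons (.br (nat_lit 11) (nat_lit 1) (.cons (.ev (nat_lit 20520096518528089413366460121860) (nat_lit 3)) .nil)) .nil)) (.cons (.rf (nat_lit 2870) (nat_lit 458117738729117419552)) .nil))) (.cons (.rf (nat_lit 3315) (nat_lit 458082801744999450656)) .nil)))),
 (.br (nat_lit 6) (nat_lit 1) (.cons (.rf (nat_lit 3325) (nat_lit 493858305440582043680)) (.cons (.br (nat_lit 2) (nat_lit 0) (.cons (.rf (nat_lit 2587) (nat_lit 493745711057226270752)) (.cons (.br (nat_lit 8) (nat_lit 1) (.cons (.rf (nat_lit 795) (nat_lit 13977170297849888)) (.cons (.br (nat_lit 4) (nat_lit 1) (.cons (.ev (nat_lit 72057598349672449) (nat_lit 1)) (.cons (.rf (nat_lit 3179) (nat_lit 458117738729117419552)) .nil))) .nil))) (.cons (.rf (nat_lit 2587) (nat_lit 493745717654289745952)) (.cons (.rf (nat_lit 2587) (nat_lit 493745718752727631904)) .nil))))) (.cons (.br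 (nat_lit 8) (nat_lit 1) (.cons (.rf (nat_lit 3326) (nat_lit 493858305440582043680)) (.cons (.rf (nat_lit 2886) (nat_lit 493677108125495298080)) (.cons (.br (nat_lit 8) (nat_lit 1) (.cons (.rf (nat_lit 3326) (nat_lit 493858305440582043680)) (.cons (.rf (nat_lit 2886) (nat_lit 493677108125495298080)) (.cons (.rf (nat_lit 3315) (nat_lit 458082801744999450656)) .nil)))) (.cons (.rf (nat_lit 3315) (nat_lit 458082801744999450656)) .nil))))) .nil)))),
 (.br (nat_lit 6) (nat_lit 1) (.cons (.rf (nat_lit 3325) (nat_lit 493858305440582043680)) (.cons (.rf (nat_lit 3327) (nat_lit 493858305440582043680)) (.cons (.br (nat_lit 4) (nat_lit 1) (.cons (.br (nat_lit 8) (nat_lit 1) (.cons (.br (nat_lit 8) (nat_lit 1) (.cons (.rf (nat_lit 3315) (nat_lit 458082801744999450656)) .nil)) (.cons (.rf (nat_lit 3315) (nat_lit 458082801744999450656)) .nil))) (.cons (.ev (nat_lit 72057598349672449) (nat_lit 1)) (.cons (.rf (nat_lit 2870) (nat_lit 458117738729117419552)) .nil)))) .nil)))),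
 (.br (nat_lit 8) (nat_lit 1) (.cons (.kr (nat_lit 18446744073709551872) (nat_lit 20282409603651670423947251351552) (nat_lit 1) (nat_lit 0)) (.cons (.br (nat_lit 4) (nat_lit 1) (.cons (.br (nat_lit 6) (nat_lit 1) (.cons (.ev (nat_lit 20361637770888301525889728905473) (nat_lit 1)) (.cons (.ev (nat_lit 79228167255077846016187236353) (nat_lit 1)) .nil))) (.cons (.br (nat_lit 6) (nat_lit 1) (.cons (.ev (nat_lit 79228167255077846016187236353) (nat_lit 1)) .nil)) .nil))) .nil))),
 (.br (nat_lit 6) (nat_lit 1) (.cons (.rf (nat_lit 3329) (nat_lit 493858305440582043680)) (.cons (.br (nat_lit 5) (nat_lit 0) (.cons (.br (nat_lit 11) (nat_lit 1) (.cons (.br (nat_lit 8) (nat_lit 1) (.cons (.zr (nat_lit 80156631710828948408072667136) (nat_lit 1208981159846863221818114) (nat_lit 10) (nat_lit 11)) .nil)) (.cons (.rf (nat_lit 3135) (nat_lit 458082731376257370144)) .nil))) (.cons (.rf (nat_lit 3024) (nat_lit 493751347148455249952)) (.cons (.br (nat_lit 4) (nat_lit 1) (.cons (.ev (nat_lit 20282719093383858533364909801473)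 (nat_lit 1)) (.cons (.ev (nat_lit 79537647524157740260618403841) (nat_lit 1)) .nil))) .nil)))) .nil))),
 (.br (nat_lit 6) (nat_lit 1) (.cons (.kr (nat_lit 20282409603651670423947268063232) (nat_lit 4722366764344621924352) (nat_lit 3) (nat_lit 0)) (.cons (.br (nat_lit 10) (nat_lit 1) (.cons (.br (nat_lit 8) (nat_lit 1) (.cons (.br (nat_lit 4) (nat_lit 1) (.cons (.ev (nat_lit 79228167255077846016187236353) (nat_lit 1)) .nil)) (.cons (.br (nat_lit 4) (nat_lit 1) (.cons (.ev (nat_lit 79228167255077846016187236353) (nat_lit 1)) .nil)) .nil))) (.cons (.br (nat_lit 4) (nat_lit 1) (.cons (.br (nat_lit 8) (nat_lit 1) (.cons (.ev (nat_lit 18518802771554074881) (nat_lit 1)) .nil)) .nil)) .nil))) .nil))),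
 (.br (nat_lit 6) (nat_lit 1) (.cons (.kr (nat_lit 20282409603651670423947268063232) (nat_lit 4722366764344621924352) (nat_lit 3) (nat_lit 0)) (.cons (.br (nat_lit 7) (nat_lit 0) (.cons (.br (nat_lit 10) (nat_lit 1) (.cons (.rf (nat_lit 3024) (nat_lit 457866699333779424320)) (.cons (.ev (nat_lit 20282410812577490039680249364481) (nat_lit 1)) .nil))) (.cons (.br (nat_lit 5) (nat_lit 0) (.cons (.br (nat_lit 2) (nat_lit 0) (.cons (.zr (nat_lit 79228162514336397386605199872) (nat_lit 309485028268089146762854401) (nat_lit 5) (nat_lit 0)) .nil)) (.cons (.br (nat_lit 2) (nat_lit 0) (.cons (.ev (nat_lit 1213648186380077603225601) (nat_lit 1)) .nil)) .nil))) (.cons (.rf (nat_lit 3136) (nat_lit 458117633173858912288)) .nil)))) .nil))),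
 (.br (nat_lit 13) (nat_lit 0) (.cons (.rf (nat_lit 3179) (nat_lit 458117738729117419552)) (.cons (.rf (nat_lit 3179) (nat_lit 458082801744999450656)) (.cons (.br (nat_lit 6) (nat_lit 1) (.cons (.rf (nat_lit 3329) (nat_lit 493858305440582043680)) (.cons (.rf (nat_lit 3330) (nat_lit 493858305440582043680)) (.cons (.br (nat_lit 6) (nat_lit 1) (.cons (.rf (nat_lit 3329) (nat_lit 493858305440582043680)) (.cons (.rf (nat_lit 3330) (nat_lit 493858305440582043680)) .nil))) .nil)))) (.cons (.br (nat_lit 6) (nat_lit 1) (.cons (.rf (nat_lit 3331) (nat_lit 493858305440582043680)) (.cons (.rf (nat_lit 3332) (nat_lit 493858305440582043680)) (.cons (.br (nat_lit 6) (nat_lit 1) (.cons (.rf (nat_lit 3331) (nat_lit 493858305440582043680)) (.cons (.rf (nat_lit 3332) (nat_lit 493858305440582043680)) .nil))) .nil)))) .nil))))),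
 (.br (nat_lit 8) (nat_lit 1) (.cons (.kr (nat_lit 1208925819614629174706432) (nat_lit 309485009821345068724846592) (nat_lit 1) (nat_lit 0)) (.cons (.br (nat_lit 7) (nat_lit 0) (.cons (.rf (nat_lit 2652) (nat_lit 15430752044310431776)) (.cons (.br (nat_lit 5) (nat_lit 0) (.cons (.ev (nat_lit 310693935713017296249159681) (nat_lit 1)) (.cons (.rf (nat_lit 3024) (nat_lit 493751347148455249952)) .nil))) .nil))) .nil))),
 (.br (nat_lit 13) (nat_lit 0) (.cons (.rf (nat_lit 3315) (nat_lit 458117738729117419552)) (.cons (.rf (nat_lit 3179) (nat_lit 458082801744999450656)) (.cons (.rf (nat_lit 3333) (nat_lit 493858305440582043680)) (.cons (.br (nat_lit 8) (nat_lit 1) (.cons (.kr (nat_lit 1208925819614629174706432) (nat_lit 309485009821345068724846592) (nat_lit 1) (nat_lit 0)) (.cons (.rf (nat_lit 3334) (nat_lit 493858305440582043680)) (.cons (.br (nat_lit 8) (nat_lit 1) (.cons (.ev (nat_lit 20282409608392483650890622894081) (nat_lit 1)) (.cons (.rf (nat_lit 3334) (nat_lit 493858305440582043680)) .nil)))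 .nil)))) .nil))))),
 (.br (nat_lit 9) (nat_lit 1) (.cons (.kr (nat_lit 256) (nat_lit 65536) (nat_lit 1) (nat_lit 0)) (.cons (.br (nat_lit 6) (nat_lit 1) (.cons (.rf (nat_lit 3318) (nat_lit 493858305440582043680)) (.cons (.rf (nat_lit 3320) (nat_lit 493858305440582043680)) (.cons (.rf (nat_lit 3322) (nat_lit 493858305440582043680)) (.cons (.br (nat_lit 6) (nat_lit 1) (.cons (.rf (nat_lit 3318) (nat_lit 493858305440582043680)) (.cons (.rf (nat_lit 3320) (nat_lit 493858305440582043680)) (.cons (.rf (nat_lit 3322) (nat_lit 493858305440582043680)) .nil)))) .nil))))) (.cons (.br (nat_lit 6) (nat_lit 1) (.cons (.rf (nat_lit 3325) (nat_lit 493858305440582043680)) (.cons (.rf (nat_lit 3327) (nat_lit 493858305440582043680)) (.cons (.rf (nat_lit 3328) (nat_lit 493858305440582043680)) (.cons (.br (nat_lit 6) (nat_lit 1) (.cons (.rf (nat_lit 3325) (nat_lit 493858305440582043680)) (.cons (.rf (nat_lit 3327) (nat_lit 493858305440582043680)) (.cons (.rf (nat_lit 3328) (nat_lit 493858305440582043680)) .nil))))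 .nil))))) (.cons (.br (nat_lit 13) (nat_lit 0) (.cons (.rf (nat_lit 3315) (nat_lit 458117738729117419552)) (.cons (.rf (nat_lit 3179) (nat_lit 458082801744999450656)) (.cons (.rf (nat_lit 3333) (nat_lit 493858305440582043680)) (.cons (.rf (nat_lit 3335) (nat_lit 493858305440582043680)) (.cons (.br (nat_lit 13) (nat_lit 0) (.cons (.rf (nat_lit 3315) (nat_lit 458117738729117419552)) (.cons (.rf (nat_lit 3179) (nat_lit 458082801744999450656)) (.cons (.rf (nat_lit 3333) (nat_lit 493858305440582043680)) (.cons (.rf (nat_lit 3335) (nat_lit 493858305440582043680)) .nil))))) .nil)))))) .nil)))))]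

theorem c117 : chkAll C T R L117 (nat_lit 3312) = true := by decide +kernel

theorem l117 : (nat_lit 3312) + L117.length = (nat_lit 3337) := by decide +kernel

end Pool.Agent.H93.Neg.Q14_6_0_0_7_1
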