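import Pool.Agent.H93.Neg.Sem

/-!
The rules.
-/

set_option autoImplicit false
set_option linter.unusedSectionVars false
set_option linter.unusedVariables false

namespace Pool.Agent.H93.Neg

open Finset Classical

theorem land_one (a : ℕ) : Nat.land a 1 = a % 2 := Nat.and_one_is_mod a

theorem land_mask (a n : ℕ) : Nat.land a (2 ^ n - 1) = a % 2 ^ n := Nat.and_two_pow_sub_one_eq_mod a n

theorem shr (a n : ℕ) : Nat.shiftRight a n = a / 2 ^ n := Nat.shiftRight_eq_div_pow a n

theorem row_lt (B : ℕ → Prop) (k : ℕ) : (∑ j ∈ range k, if B j then 4096 ^ j else 0) < 4096 ^ k := by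
  induction k with
  | zero => simp
  | succ k ih =>
    rw [Finset.sum_range_succ, pow_succ]
    split_ifs <;> omega

theorem row_bit (B : ℕ → Prop) (k u : ℕ) :
    (∑ j ∈ range k, if B j then 4096 ^ j else 0) / 4096 ^ u % 2 = if u < k ∧ B u then 1 else 0 := by
  induction k with
  | zero => simp
  | succ k ih =>
    rw [Finset.sum_range_succ]
    have hlt := row_lt B k
    rcases lt_trichotomy u k with h1 | h1 | h1
    · obtain ⟨d, rfl⟩ : ∃ d, k = u + 1 + d := ⟨k - u - 1, by omega⟩
      have e1 : (if B (u + 1 + d) then 4096 ^ (u + 1 + d) else 0) =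
          4096 ^ u * (2 * (if B (u + 1 + d) then 2048 * 4096 ^ d else 0)) := by
        split_ifs
        · ring
        · ring
      rw [e1, Nat.add_mul_div_left _ _ (by positivity), Nat.add_mul_mod_self_left, ih]
      have h2 : u < u + 1 + d + 1 := by omega
      simp only [h1, h2, true_and]
    · subst h1
      have e1 : (if B u then 4096 ^ u else 0) = 4096 ^ u * (if B u then 1 else 0) := by
        split_ifs <;> simp
      rw [e1, Nat.add_mul_div_left _ _ (by positivity), Nat.div_eq_of_lt hlt, zero_add]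
      have h2 : u < u + 1 := by omega
      simp only [h2, true_and]
      split_ifs <;> rfl
    · have h2 : (∑ j ∈ range k, if B j then 4096 ^ j else 0) + (if B k then 4096 ^ k else 0)
          < 4096 ^ u := by
        have h3 := row_lt B (k + 1)
        rw [Finset.sum_range_succ] at h3
        exact lt_of_lt_of_le h3 (Nat.pow_le_pow_right (by norm_num) h1)
      rw [Nat.div_eq_of_lt h2, if_neg]
      rintro ⟨a, -⟩
      omega

theorem digits_unique {m : ℕ} {s t : ℕ → ℕ} (hs : ∀ k < m, s k < 4096) (ht : ∀ k < m, t k < 4096)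
    (h : ∑ k ∈ range m, s k * 4096 ^ k = ∑ k ∈ range m, t k * 4096 ^ k) :
    ∀ k < m, s k = t k := by
  induction m generalizing s t with
  | zero => intro k hk; omega
  | succ m ih =>
    rw [Finset.sum_range_succ', Finset.sum_range_succ'] at h
    have e : ∀ f : ℕ → ℕ, ∑ k ∈ range m, f (k + 1) * 4096 ^ (k + 1) =
        4096 * ∑ k ∈ range m, f (k + 1) * 4096 ^ k := by
      intro f
      rw [Finset.mul_sum]
      apply Finset.sum_congr rfl
      intro k _
      ring
    rw [e, e, pow_zero, mul_one, mul_one] at h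
    have h1 := hs 0 (by omega)
    have h2 := ht 0 (by omega)
    have h3 := ih (s := fun k => s (k + 1)) (t := fun k => t (k + 1))
      (fun k hk => hs _ (by omega)) (fun k hk => ht _ (by omega)) (by
        show ∑ k ∈ range m, s (k + 1) * 4096 ^ k = ∑ k ∈ range m, t (k + 1) * 4096 ^ k
        omega)
    intro k hk
    cases k with
    | zero => omega
    | succ k => exact h3 k (by omega)

theorem digit_sum {m : ℕ} {s : ℕ → ℕ} (hs : ∀ k < m, s k < 4096) {j : ℕ} (hj : j < m) :
    (∑ k ∈ range m, s k * 4096 ^ k) / 4096 ^ j % 4096 = s j := by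
  induction m generalizing s j with
  | zero => omega
  | succ m ih =>
    rw [Finset.sum_range_succ']
    have e : ∑ k ∈ range m, s (k + 1) * 4096 ^ (k + 1) =
        4096 * ∑ k ∈ range m, s (k + 1) * 4096 ^ k := by
      rw [Finset.mul_sum]
      apply Finset.sum_congr rfl
      intro k _
      ring
    rw [e, pow_zero, mul_one]
    have h1 := hs 0 (by omega)
    cases j with
    | zero =>
      rw [pow_zero, Nat.div_one]
      omega
    | succ j =>
      have h3 := ih (s := fun k => s (k + 1)) (fun k hk => hs _ (by omega)) (j := j) (by omega)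
      rw [pow_succ, mul_comm (4096 ^ j) 4096, ← Nat.div_div_eq_div_mul]
      have h4 : (4096 * ∑ k ∈ range m, s (k + 1) * 4096 ^ k + s 0) / 4096 =
          ∑ k ∈ range m, s (k + 1) * 4096 ^ k := by
        omega
      rw [h4]
      exact h3

section

variable {V : Type} [Fintype V] {C : Cl} {Nb : V → Finset V} {x : V → ℤ}

/-- the value of a function at a closed neighbourhood -/
noncomputable def E (Nb : V → Finset V) (y : V → ℤ) (v : V) : ℤ := y v + ∑ w ∈ Nb v, y w

/-- the matrix of the partial graph -/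
noncomputable def mt (A : ℕ → ℕ → Prop) (i j : ℕ) : ℕ :=
  (if j = i then 1 else 0) + (if A i j then 1 else 0)

theorem Sem.mt_le (H : Hyp C Nb x) {k R : ℕ} {S : List Rc} {φ : ℕ → V} {A : ℕ → ℕ → Prop}
    (h : Sem Nb x k R S φ A) (i j : ℕ) : mt A i j ≤ 1 := by
  unfold mt
  by_cases h1 : j = i
  · subst h1
    rw [if_pos rfl, if_neg]
    intro hA
    exact H.irr _ (h.adj _ _ hA)
  · rw [if_neg h1]
    split_ifs <;> omega

theorem Sem.closed (H : Hyp C Nb x) {k R : ℕ} {S : List Rc} {φ : ℕ → V} {A : ℕ → ℕ → Prop}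
    (h : Sem Nb x k R S φ A) {i : ℕ} (hi : i < k)
    (hc : (rcd Nb x φ A k i).e + (rcd Nb x φ A k i).o = 0) (y : V → ℤ) :
    E Nb y (φ i) = ∑ j ∈ range k, (mt A i j : ℤ) * y (φ j) := by
  have h0 : (U Nb x φ A 0 i).card + (U Nb x φ A 1 i).card = 0 := hc
  have hU : ∀ l < 2, U Nb x φ A l i = ∅ := by
    intro l hl
    rw [← Finset.card_eq_zero]
    rcases Nat.lt_succ_iff_lt_or_eq.1 hl with h1 | h1
    · have : l = 0 := by omega
      subst this
      omega
    · subst h1; omega
  have h1 : Nb (φ i) = ((range k).filter (fun j => A i j)).image φ := by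
    ext w
    rw [Finset.mem_image]
    constructor
    · intro hw
      by_contra hcon
      push Not at hcon
      have : w ∈ U Nb x φ A (lab x w) i := by
        unfold U
        rw [Finset.mem_filter]
        exact ⟨hw, rfl, fun j hj => hcon j (by
          rw [Finset.mem_filter, Finset.mem_range]; exact ⟨(h.lt i j hj).2, hj⟩)⟩
      rw [hU _ (lab_lt w)] at this
      exact absurd this (Finset.notMem_empty _)
    · rintro ⟨j, hj, rfl⟩
      exact h.adj i j (Finset.mem_filter.1 hj).2
  have h2 : ∑ w ∈ Nb (φ i), y w = ∑ j ∈ range k, if A i j then y (φ j) else 0 := by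
    rw [h1, Finset.sum_image, Finset.sum_filter]
    intro a ha b hb hab
    rw [Finset.mem_coe, Finset.mem_filter, Finset.mem_range] at ha hb
    exact h.inj a ha.1 b hb.1 hab
  unfold E mt
  rw [h2]
  push_cast
  simp only [add_mul, ite_mul, one_mul, zero_mul, Finset.sum_add_distrib]
  rw [Finset.sum_ite_eq' (range k) i, if_pos (Finset.mem_range.2 hi)]

theorem run_spec {p : ℕ} {S : List Rc} {K : ℕ → ℕ → ℕ → Bool} {a n g : ℕ}
    (h : run p S K a n g = true) :
    (∀ c ∈ S, cf p c.i ≠ 0 → c.e + c.o = 0) ∧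
    K (a + (S.map fun c => cf p c.i * (c.r + 4096 ^ c.i)).sum) (n + (S.map fun c => cf p c.i).sum)
      (g + (S.map fun c => cf p c.i * (c.t / 2 + c.t % 2)).sum) = true := by
  induction S generalizing a n g with
  | nil =>
    have h' : K a n g = true := h
    exact ⟨fun c hc => absurd hc List.not_mem_nil, by simpa using h'⟩
  | cons c S ih =>
    have h' : Bool.rec (Bool.rec false (run p S K (Nat.add a (Nat.mul (cf p c.i)
        (Nat.add c.r (Nat.pow 4096 c.i)))) (Nat.add n (cf p c.i))
        (Nat.add g (Nat.mul (cf p c.i) (Nat.add (Nat.div c.t 2) (Nat.land c.t 1)))))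
        (Nat.beq (Nat.add c.e c.o) 0)) (run p S K a n g) (Nat.beq (cf p c.i) 0) = true := h
    by_cases h0 : cf p c.i = 0
    · rw [show Nat.beq (cf p c.i) 0 = true by rw [Nat.beq_eq]; exact h0] at h'
      obtain ⟨h1, h2⟩ := ih h'
      refine ⟨?_, ?_⟩
      · intro d hd
        rcases List.mem_cons.1 hd with e | e
        · rw [e]; exact fun k => absurd h0 k
        · exact h1 d e
      · simpa [List.map_cons, List.sum_cons, h0] using h2
    · rw [show Nat.beq (cf p c.i) 0 = false by rw [← Bool.not_eq_true, Nat.beq_eq]; exact h0] at h'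
      by_cases h3 : c.e + c.o = 0
      · rw [show Nat.beq (Nat.add c.e c.o) 0 = true by rw [Nat.beq_eq]; exact h3] at h'
        obtain ⟨h1, h2⟩ := ih h'
        refine ⟨?_, ?_⟩
        · intro d hd
          rcases List.mem_cons.1 hd with e | e
          · rw [e]; exact fun _ => h3
          · exact h1 d e
        · rw [land_one] at h2
          have e1 : ∀ s : ℕ, Nat.add a (Nat.mul (cf p c.i) (Nat.add c.r (Nat.pow 4096 c.i))) + s =
              a + (cf p c.i * (c.r + 4096 ^ c.i) + s) := fun s => add_assoc _ _ _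
          have e2 : ∀ s : ℕ, Nat.add n (cf p c.i) + s = n + (cf p c.i + s) := fun s => add_assoc _ _ _
          have e3 : ∀ s : ℕ, Nat.add g (Nat.mul (cf p c.i) (Nat.add (Nat.div c.t 2) (c.t % 2))) + s =
              g + (cf p c.i * (c.t / 2 + c.t % 2) + s) := fun s => add_assoc _ _ _
          rw [e1, e2, e3] at h2
          rw [List.map_cons, List.map_cons, List.map_cons, List.sum_cons, List.sum_cons,
            List.sum_cons]
          exact h2
      · rw [show Nat.beq (Nat.add c.e c.o) 0 = false by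
          rw [← Bool.not_eq_true, Nat.beq_eq]; exact h3] at h'
        exact absurd h' (by simp)

theorem sum_map_range (f : ℕ → ℕ) (k : ℕ) : ((List.range k).map f).sum = ∑ i ∈ range k, f i := by
  induction k with
  | zero => rfl
  | succ k ih =>
    rw [List.range_succ, List.map_append, List.sum_append, ih, Finset.sum_range_succ]
    simp

/-- the column sums -/
noncomputable def col (A : ℕ → ℕ → Prop) (k p j : ℕ) : ℕ := ∑ i ∈ range k, cf p i * mt A i j

theorem Sem.run (H : Hyp C Nb x) {k R : ℕ} {S : List Rc} {φ : ℕ → V} {A : ℕ → ℕ → Prop}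
    (h : Sem Nb x k R S φ A) {p : ℕ} {K : ℕ → ℕ → ℕ → Bool} (hr : run p S K 0 0 0 = true) :
    ∃ n g, n = ∑ i ∈ range k, cf p i ∧
      g = ∑ i ∈ range k, cf p i * (ty Nb x (φ i) / 2 + ty Nb x (φ i) % 2) ∧
      K (∑ j ∈ range k, col A k p j * 4096 ^ j) n g = true ∧
      (∀ j, col A k p j ≤ n) ∧
      (∀ y : V → ℤ, ∑ i ∈ range k, (cf p i : ℤ) * E Nb y (φ i) =
        ∑ j ∈ range k, (col A k p j : ℤ) * y (φ j)) := by
  obtain ⟨h1, h2⟩ := run_spec hr
  rw [h.eq, List.map_map, List.map_map, List.map_map, sum_map_range, sum_map_range,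
    sum_map_range, zero_add, zero_add, zero_add] at h2
  have h3 : ∀ i < k, cf p i ≠ 0 → (rcd Nb x φ A k i).e + (rcd Nb x φ A k i).o = 0 := by
    intro i hi hc
    refine h1 (rcd Nb x φ A k i) ?_ hc
    rw [h.eq, List.mem_map]
    exact ⟨i, List.mem_range.2 hi, rfl⟩
  refine ⟨_, _, rfl, rfl, ?_, ?_, ?_⟩
  · have e1 : ∀ i ∈ range k, ((fun c : Rc => cf p c.i * (c.r + 4096 ^ c.i)) ∘ rcd Nb x φ A k) i =
        ∑ j ∈ range k, cf p i * mt A i j * 4096 ^ j := by
      intro i hi
      show cf p i * ((∑ j ∈ range k, if A i j then 4096 ^ j else 0) + 4096 ^ i) = _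
      simp only [mul_assoc]
      rw [← Finset.mul_sum]
      congr 1
      unfold mt
      simp only [add_mul, ite_mul, one_mul, zero_mul, Finset.sum_add_distrib]
      rw [Finset.sum_ite_eq' (range k) i, if_pos hi, add_comm]
    have e2 : ∑ j ∈ range k, col A k p j * 4096 ^ j =
        ∑ i ∈ range k, ((fun c : Rc => cf p c.i * (c.r + 4096 ^ c.i)) ∘ rcd Nb x φ A k) i := by
      rw [Finset.sum_congr rfl e1, Finset.sum_comm]
      apply Finset.sum_congr rfl
      intro j _
      unfold col
      rw [Finset.sum_mul]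
    rw [e2]
    exact h2
  · intro j
    unfold col
    apply Finset.sum_le_sum
    intro i _
    calc cf p i * mt A i j ≤ cf p i * 1 := Nat.mul_le_mul_left _ (h.mt_le H i j)
      _ = cf p i := mul_one _
  · intro y
    have e1 : ∀ i ∈ range k, (cf p i : ℤ) * E Nb y (φ i) =
        ∑ j ∈ range k, (cf p i : ℤ) * (mt A i j : ℤ) * y (φ j) := by
      intro i hi
      by_cases h0 : cf p i = 0
      · rw [h0]; simp
      · rw [h.closed H (Finset.mem_range.1 hi) (h3 i (Finset.mem_range.1 hi) h0), Finset.mul_sum]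
        apply Finset.sum_congr rfl
        intro j _
        ring
    rw [Finset.sum_congr rfl e1, Finset.sum_comm]
    apply Finset.sum_congr rfl
    intro j _
    unfold col
    push_cast
    rw [Finset.sum_mul]

theorem bcase {b : Bool} {t : Bool} (h : Bool.rec false t b = true) : b = true ∧ t = true := by
  cases b with
  | false => exact absurd h (by simp)
  | true => exact ⟨rfl, h⟩

theorem bnot {b : Bool} {t : Bool} (h : Bool.rec t false b = true) : b = false ∧ t = true := by
  cases b with
  | false => exact ⟨rfl, h⟩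
  | true => exact absurd h (by simp)

theorem blt_iff {a b : ℕ} : Nat.blt a b = true ↔ a < b := by
  unfold Nat.blt
  rw [Nat.ble_eq]
  exact Iff.rfl

theorem Sem.zr (H : Hyp C Nb x) {k R : ℕ} {S : List Rc} {φ : ℕ → V} {A : ℕ → ℕ → Prop}
    (h : Sem Nb x k R S φ A) {p q d u : ℕ}
    (hr : zrF p q d u k S = true) : False := by
  unfold zrF at hr
  obtain ⟨n, g, hn, -, h1, hle, hs⟩ := h.run H hr
  obtain ⟨m, g', hm, -, h2, hle', hs'⟩ := h.run H h1
  obtain ⟨h3, h4⟩ := bcase h2
  obtain ⟨h5, h6⟩ := bcase h4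
  obtain ⟨h7, h8⟩ := bcase h6
  obtain ⟨h9, h10⟩ := bcase h8
  rw [blt_iff] at h5 h7 h9 h10
  rw [Nat.beq_eq] at h3
  have h5' : m + d < 4096 := h5
  have h3' : ∑ j ∈ range k, col A k p j * 4096 ^ j =
      ∑ j ∈ range k, (col A k q j + if j = u then d else 0) * 4096 ^ j := by
    rw [h3]
    simp only [add_mul, ite_mul, zero_mul, Finset.sum_add_distrib]
    rw [Finset.sum_ite_eq' (range k) u, if_pos (Finset.mem_range.2 h10)]
    rfl
  have h11 := digits_unique (s := fun j => col A k p j)
    (t := fun j => col A k q j + if j = u then d else 0)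
    (fun j _ => by have := hle j; show col A k p j < 4096; omega)
    (fun j _ => by
      have := hle' j
      show col A k q j + (if j = u then d else 0) < 4096
      split_ifs <;> omega) h3'
  have e1 : ∀ p : ℕ, ∑ i ∈ range k, (cf p i : ℤ) * E Nb x (φ i) = 0 := by
    intro p
    apply Finset.sum_eq_zero
    intro i _
    have : E Nb x (φ i) = 0 := H.ker _
    rw [this, mul_zero]
  have h12 := hs x
  have h13 := hs' x
  rw [e1] at h12 h13
  have h14 : ∑ j ∈ range k, (col A k p j : ℤ) * x (φ j) =
      ∑ j ∈ range k, (col A k q j : ℤ) * x (φ j) + d * x (φ u) := by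
    have h15 : ∀ j ∈ range k, (col A k p j : ℤ) * x (φ j) =
        (col A k q j : ℤ) * x (φ j) + (if j = u then (d : ℤ) * x (φ j) else 0) := by
      intro j hj
      rw [h11 j (Finset.mem_range.1 hj)]
      push_cast
      split_ifs <;> ring
    rw [Finset.sum_congr rfl h15, Finset.sum_add_distrib, Finset.sum_ite_eq' (range k) u,
      if_pos (Finset.mem_range.2 h10)]
  rw [← h12, ← h13, zero_add] at h14
  have h16 : (d : ℤ) ≠ 0 := by exact_mod_cast h9.ne'
  rcases mul_eq_zero.1 h14.symm with h | h
  · exact h16 h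
  · exact H.nz _ h

theorem Sem.kr (H : Hyp C Nb x) {k R : ℕ} {S : List Rc} {φ : ℕ → V} {A : ℕ → ℕ → Prop}
    (h : Sem Nb x k R S φ A) {p q u z : ℕ}
    (hr : krF C p q u z k S = true) : False := by
  unfold krF at hr
  obtain ⟨n, g, hn, -, h1, hle, hs⟩ := h.run H hr
  obtain ⟨m, g', hm, -, h2, hle', hs'⟩ := h.run H h1
  obtain ⟨h3, h4⟩ := bcase h2
  obtain ⟨h5, h6⟩ := bcase h4
  obtain ⟨h7, h8⟩ := bcase h6
  obtain ⟨h9, h10⟩ := bcase h8
  rw [Bool.and_eq_true, blt_iff, blt_iff] at h5
  rw [blt_iff] at h9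
  obtain ⟨h7', -⟩ := bnot h7
  rw [← Bool.not_eq_true, Nat.beq_eq] at h7'
  rw [Nat.beq_eq] at h3
  have h11 := digits_unique (s := fun j => col A k p j) (t := fun j => col A k q j)
    (fun j _ => by have := hle j; show col A k p j < 4096; omega)
    (fun j _ => by have := hle' j; show col A k q j < 4096; omega) h3
  -- the kernel vector
  let y : V → ℤ := fun w => ∑ i ∈ range k, ((cf p i : ℤ) - cf q i) * (if φ i = w then 1 else 0)
  have hker : ∀ w, y w + ∑ v ∈ Nb w, y v = 0 := by
    intro w
    let δ : V → ℤ := fun v => if v = w then 1 else 0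
    have e1 : ∀ i, E Nb δ (φ i) = (if φ i = w then 1 else 0) + (if φ i ∈ Nb w then 1 else 0) := by
      intro i
      unfold E
      show (if φ i = w then (1 : ℤ) else 0) + ∑ v ∈ Nb (φ i), (if v = w then 1 else 0) = _
      rw [Finset.sum_ite_eq']
      have : w ∈ Nb (φ i) ↔ φ i ∈ Nb w := ⟨fun hh => H.sym _ _ hh, fun hh => H.sym _ _ hh⟩
      simp only [this]
    have e2 : y w + ∑ v ∈ Nb w, y v = ∑ i ∈ range k, ((cf p i : ℤ) - cf q i) * E Nb δ (φ i) := by
      simp only [y]
      rw [Finset.sum_comm, ← Finset.sum_add_distrib]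
      apply Finset.sum_congr rfl
      intro i _
      rw [e1, ← Finset.mul_sum, Finset.sum_ite_eq, mul_add]
    rw [e2]
    simp only [sub_mul, Finset.sum_sub_distrib]
    rw [hs δ, hs' δ, ← Finset.sum_sub_distrib]
    apply Finset.sum_eq_zero
    intro j hj
    rw [h11 j (Finset.mem_range.1 hj), sub_self]
  have hval : ∀ i < k, y (φ i) = (cf p i : ℤ) - cf q i := by
    intro i hi
    simp only [y]
    rw [Finset.sum_eq_single i]
    · rw [if_pos rfl, mul_one]
    · intro j hj hji
      rw [if_neg, mul_zero]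
      intro e
      exact hji (h.inj j (Finset.mem_range.1 hj) i hi e)
    · intro hh
      exact absurd (Finset.mem_range.2 hi) hh
  rcases H.uniq y hker with h12 | h12
  · have := h12 (φ u)
    rw [hval u h9, sub_eq_zero] at this
    exact h7' (by exact_mod_cast this)
  · by_cases hkN : k < C.N
    · -- there is a vertex outside
      obtain ⟨w, hw⟩ : ∃ w, ∀ i < k, φ i ≠ w := by
        by_contra hcon
        push Not at hcon
        have : Function.Surjective (fun i : Fin k => φ i.val) := by
          intro w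
          obtain ⟨i, hi, e⟩ := hcon w
          exact ⟨⟨i, hi⟩, e⟩
        have := Fintype.card_le_of_surjective _ this
        rw [Fintype.card_fin, H.card] at this
        omega
      apply h12 w
      simp only [y]
      apply Finset.sum_eq_zero
      intro i hi
      rw [if_neg (hw i (Finset.mem_range.1 hi)), mul_zero]
    · have h13 : Nat.blt k C.N = false := by
        rw [← Bool.not_eq_true, blt_iff]; exact hkN
      rw [h13] at h10
      obtain ⟨h14, h15⟩ := bcase h10
      rw [Nat.beq_eq] at h14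
      rw [blt_iff] at h15
      apply h12 (φ z)
      rw [hval z h15, h14, sub_self]

theorem msk_bit : ∀ s < 6, ∀ j < 32, ∀ b < s, (msk s).testBit (12 * j + b) = true := by
  unfold msk
  decide +kernel

theorem land_msk {a s j : ℕ} (h : Nat.land a (msk s) = 0) (hs : s < 6) (hj : j < 32) :
    2 ^ s ∣ a / 4096 ^ j % 4096 := by
  apply Nat.dvd_of_mod_eq_zero
  apply Nat.eq_of_testBit_eq
  intro b
  rw [Nat.zero_testBit, Nat.testBit_mod_two_pow]
  by_cases hb : b < s
  · have h1 : (4096 : ℕ) = 2 ^ 12 := by norm_num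
    have h2 : (a / 4096 ^ j % 4096).testBit b = a.testBit (12 * j + b) := by
      rw [h1, Nat.testBit_mod_two_pow, ← pow_mul, Nat.testBit_div_two_pow]
      have : b < 12 := by omega
      simp only [this, decide_true, Bool.true_and]
      congr 1
      omega
    have h3 : (Nat.land a (msk s)).testBit (12 * j + b) = false := by
      rw [h, Nat.zero_testBit]
    have h4 : (a &&& msk s).testBit (12 * j + b) = false := h3
    rw [Nat.testBit_and, msk_bit s hs j hj b hb, Bool.and_true] at h4
    rw [h2, h4, Bool.and_false]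
  · simp only [hb, decide_false, Bool.false_and]

theorem Sem.ev (H : Hyp C Nb x) {k R : ℕ} {S : List Rc} {φ : ℕ → V} {A : ℕ → ℕ → Prop}
    (h : Sem Nb x k R S φ A) {p s : ℕ}
    (hr : evF p s S = true) : False := by
  unfold evF at hr
  obtain ⟨n, g, hn, hg, h1, hle, hs⟩ := h.run H hr
  obtain ⟨h3, h4⟩ := bcase h1
  obtain ⟨h5, h6⟩ := bcase h4
  obtain ⟨h7, -⟩ := bnot h6
  rw [Bool.and_eq_true, blt_iff, blt_iff] at h5
  rw [Nat.beq_eq] at h3
  rw [← Bool.not_eq_true, Nat.beq_eq] at h7
  apply h7
  show g % 2 ^ (s + 1) = 0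
  have hdv : ∀ j < k, 2 ^ s ∣ col A k p j := by
    intro j hj
    have h8 := land_msk (j := j) h3 h5.2 (by have := h.le H; have := H.N32; omega)
    rwa [digit_sum (fun j _ => by have := hle j; omega) hj] at h8
  -- halves
  have hx : ∀ w, x w = (lab x w : ℤ) + 2 * ((x w - lab x w) / 2) := by
    intro w
    unfold lab
    omega
  let y : V → ℤ := fun w => (x w - lab x w) / 2
  have hE : ∀ v, E Nb x v = E Nb (fun w => (lab x w : ℤ)) v + 2 * E Nb y v := by
    intro v
    unfold E
    rw [mul_add, Finset.mul_sum]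
    have : ∑ w ∈ Nb v, x w = ∑ w ∈ Nb v, (lab x w : ℤ) + ∑ w ∈ Nb v, 2 * y w := by
      rw [← Finset.sum_add_distrib]
      apply Finset.sum_congr rfl
      intro w _
      exact hx w
    rw [this]
    have h9 := hx v
    show x v + _ = (lab x v : ℤ) + _ + (2 * ((x v - lab x v) / 2) + _)
    linarith
  have hL : ∀ v, E Nb (fun w => (lab x w : ℤ)) v = ((ty Nb x v / 2 + ty Nb x v % 2 : ℕ) : ℤ) := by
    intro v
    unfold E
    rw [ty_div, ty_mod, Finset.card_filter]
    push_cast
    have : ∑ w ∈ Nb v, (lab x w : ℤ) = ∑ w ∈ Nb v, if lab x w = 1 then (1 : ℤ) else 0 := by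
      apply Finset.sum_congr rfl
      intro w _
      have := lab_lt (x := x) w
      split_ifs with h10
      · rw [h10]; rfl
      · have : lab x w = 0 := by omega
        rw [this]; rfl
    rw [this]
    ring
  have h10 : (0 : ℤ) = g + 2 * ∑ j ∈ range k, (col A k p j : ℤ) * y (φ j) := by
    rw [← hs y, hg]
    push_cast
    rw [Finset.mul_sum, ← Finset.sum_add_distrib]
    symm
    apply Finset.sum_eq_zero
    intro i _
    have h11 : E Nb x (φ i) = 0 := H.ker _
    rw [hE, hL] at h11
    push_cast at h11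
    linear_combination (cf p i : ℤ) * h11
  have h12 : (2 ^ s : ℤ) ∣ ∑ j ∈ range k, (col A k p j : ℤ) * y (φ j) := by
    apply Finset.dvd_sum
    intro j hj
    apply Dvd.dvd.mul_right
    exact_mod_cast hdv j (Finset.mem_range.1 hj)
  have h13 : (2 ^ (s + 1) : ℤ) ∣ g := by
    obtain ⟨c, hc⟩ := h12
    rw [hc] at h10
    exact ⟨-c, by rw [pow_succ]; linarith⟩
  exact Nat.mod_eq_zero_of_dvd (by exact_mod_cast h13)

end

end Pool.Agent.H93.Neg
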