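import Pool.Agent.H93.Neg.Defs
import Mathlib.Algebra.Order.BigOperators.Group.Finset
import Mathlib.Algebra.BigOperators.Ring.Finset

/-!
Meaning of partial graphs.
-/

set_option autoImplicit false
set_option linter.unusedSectionVars false
set_option linter.unusedVariables false

namespace Pool.Agent.H93.Neg

open Finset Classical

section

variable {V : Type} [Fintype V]

/-- the label: the parity of the value -/
def lab (x : V → ℤ) (v : V) : ℕ := (x v).natAbs % 2

/-- the type -/
noncomputable def ty (Nb : V → Finset V) (x : V → ℤ) (v : V) : ℕ :=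
  2 * ((Nb v).filter (fun w => lab x w = 1)).card + lab x v

/-- a regular graph whose closed neighbourhood matrix has a kernel spanned by a vector without zeros -/
structure Hyp (C : Cl) (Nb : V → Finset V) (x : V → ℤ) : Prop where
  sym : ∀ v w, w ∈ Nb v → v ∈ Nb w
  irr : ∀ v, v ∉ Nb v
  deg : ∀ v, (Nb v).card = C.Q
  card : Fintype.card V = C.N
  N32 : C.N ≤ 32
  opt : ∀ v, ty Nb x v ∈ C.O
  nz : ∀ v, x v ≠ 0
  ker : ∀ v, x v + ∑ w ∈ Nb v, x w = 0
  uniq : ∀ y : V → ℤ, (∀ v, y v + ∑ w ∈ Nb v, y w = 0) → (∀ v, y v = 0) ∨ (∀ v, y v ≠ 0)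

variable {C : Cl} {Nb : V → Finset V} {x : V → ℤ}

theorem lab_lt (v : V) : lab x v < 2 := Nat.mod_lt _ (by norm_num)

theorem ty_div (v : V) : ty Nb x v / 2 = ((Nb v).filter (fun w => lab x w = 1)).card := by
  unfold ty
  have := lab_lt (x := x) v
  omega

theorem ty_mod (v : V) : ty Nb x v % 2 = lab x v := by
  unfold ty
  have := lab_lt (x := x) v
  omega

/-- the unknown neighbours of label `l` -/
noncomputable def U (Nb : V → Finset V) (x : V → ℤ) (φ : ℕ → V) (A : ℕ → ℕ → Prop) (l i : ℕ) :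
    Finset V :=
  (Nb (φ i)).filter (fun w => lab x w = l ∧ ∀ j, A i j → φ j ≠ w)

/-- the record of a vertex -/
noncomputable def rcd (Nb : V → Finset V) (x : V → ℤ) (φ : ℕ → V) (A : ℕ → ℕ → Prop) (k i : ℕ) :
    Rc :=
  ⟨i, ty Nb x (φ i), (U Nb x φ A 0 i).card, (U Nb x φ A 1 i).card,
    ∑ j ∈ range k, if A i j then 4096 ^ j else 0⟩

/-- the partial graph is part of the graph -/
structure Sem (Nb : V → Finset V) (x : V → ℤ) (k R : ℕ) (S : List Rc) (φ : ℕ → V)
    (A : ℕ → ℕ → Prop) : Prop where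
  eq : S = (List.range k).map (rcd Nb x φ A k)
  inj : ∀ i < k, ∀ j < k, φ i = φ j → i = j
  lt : ∀ i j, A i j → i < k ∧ j < k
  symm : ∀ i j, A i j → A j i
  adj : ∀ i j, A i j → φ j ∈ Nb (φ i)
  bud : ∀ t, (univ.filter (fun w => ty Nb x w = t ∧ ∀ i < k, φ i ≠ w)).card ≤ R / 16 ^ t % 16

theorem Sem.congr {k R : ℕ} {S : List Rc} {φ φ' : ℕ → V} {A : ℕ → ℕ → Prop}
    (h : Sem Nb x k R S φ A) (he : ∀ i < k, φ i = φ' i) : Sem Nb x k R S φ' A := by
  refine ⟨?_, ?_, h.lt, h.symm, ?_, ?_⟩
  · rw [h.eq]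
    apply List.map_congr_left
    intro i hi
    rw [List.mem_range] at hi
    have hU : ∀ l, U Nb x φ A l i = U Nb x φ' A l i := by
      intro l
      unfold U
      rw [he i hi]
      apply Finset.filter_congr
      intro w _
      constructor
      · rintro ⟨a, b⟩
        exact ⟨a, fun j hj => by rw [← he j (h.lt i j hj).2]; exact b j hj⟩
      · rintro ⟨a, b⟩
        exact ⟨a, fun j hj => by rw [he j (h.lt i j hj).2]; exact b j hj⟩
    unfold rcd
    rw [he i hi, hU, hU]
  · intro i hi j hj hij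
    rw [← he i hi, ← he j hj] at hij
    exact h.inj i hi j hj hij
  · intro i j hij
    rw [← he i (h.lt i j hij).1, ← he j (h.lt i j hij).2]
    exact h.adj i j hij
  · intro t
    refine le_trans (le_of_eq ?_) (h.bud t)
    congr 1
    apply Finset.filter_congr
    intro w _
    constructor
    · rintro ⟨a, b⟩
      exact ⟨a, fun j hj => by rw [he j hj]; exact b j hj⟩
    · rintro ⟨a, b⟩
      exact ⟨a, fun j hj => by rw [← he j hj]; exact b j hj⟩

theorem Sem.le (H : Hyp C Nb x) {k R : ℕ} {S : List Rc} {φ : ℕ → V} {A : ℕ → ℕ → Prop}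
    (h : Sem Nb x k R S φ A) : k ≤ C.N := by
  rw [← H.card]
  have : Function.Injective (fun i : Fin k => φ i.val) := by
    intro i j hij
    exact Fin.ext (h.inj i.val i.isLt j.val j.isLt hij)
  simpa using Fintype.card_le_of_injective _ this

/-- digits after a subtraction -/
theorem dig_sub {N p p' : ℕ} (h : N / 16 ^ p % 16 ≠ 0) :
    (N - 16 ^ p) / 16 ^ p' % 16 = N / 16 ^ p' % 16 - if p' = p then 1 else 0 := by
  obtain ⟨a, c, ha, hN, hcl⟩ : ∃ a c, a = N / 16 ^ p ∧ N = 16 ^ p * a + c ∧ c < 16 ^ p :=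
    ⟨_, _, rfl, (Nat.div_add_mod N (16 ^ p)).symm, Nat.mod_lt _ (by positivity)⟩
  rw [← ha] at h
  have ha1 : 1 ≤ a := by
    rcases Nat.eq_zero_or_pos a with h0 | h0
    · rw [h0] at h; simp at h
    · exact h0
  obtain ⟨a', rfl⟩ : ∃ a', a = a' + 1 := ⟨a - 1, by omega⟩
  have hN' : N - 16 ^ p = 16 ^ p * a' + c := by
    rw [hN, mul_add, mul_one]; omega
  rcases lt_trichotomy p' p with h1 | h1 | h1
  · obtain ⟨d, rfl⟩ : ∃ d, p = p' + 1 + d := ⟨p - p' - 1, by omega⟩
    rw [if_neg (by omega), hN', hN, Nat.sub_zero]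
    have e1 : 16 ^ (p' + 1 + d) * a' + c = c + 16 ^ p' * (16 * (16 ^ d * a')) := by ring
    have e2 : 16 ^ (p' + 1 + d) * (a' + 1) + c = c + 16 ^ p' * (16 * (16 ^ d * (a' + 1))) := by ring
    rw [e1, e2, Nat.add_mul_div_left _ _ (by positivity), Nat.add_mul_div_left _ _ (by positivity),
      Nat.add_mul_mod_self_left, Nat.add_mul_mod_self_left]
  · subst h1
    rw [if_pos rfl, hN']
    have e3 : (16 ^ p' * a' + c) / 16 ^ p' = a' := by
      rw [Nat.mul_add_div (by positivity), Nat.div_eq_of_lt hcl, add_zero]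
    have e4 : N / 16 ^ p' = a' + 1 := ha.symm
    rw [e3, e4]
    omega
  · obtain ⟨d, rfl⟩ : ∃ d, p' = p + (1 + d) := ⟨p' - p - 1, by omega⟩
    rw [if_neg (by omega), pow_add, ← Nat.div_div_eq_div_mul, ← Nat.div_div_eq_div_mul, hN',
      Nat.sub_zero]
    have e3 : (16 ^ p * a' + c) / 16 ^ p = a' := by
      rw [Nat.mul_add_div (by positivity), Nat.div_eq_of_lt hcl, add_zero]
    have e4 : N / 16 ^ p = a' + 1 := ha.symm
    rw [e3, e4, pow_add, pow_one, ← Nat.div_div_eq_div_mul, ← Nat.div_div_eq_div_mul]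
    congr 2
    omega

/-- a new vertex -/
theorem Sem.vertex (H : Hyp C Nb x) {k R : ℕ} {S : List Rc} {φ : ℕ → V} {A : ℕ → ℕ → Prop}
    (h : Sem Nb x k R S φ A) (hk : ∀ i < k, φ i ≠ φ k) :
    Sem Nb x (k + 1) (R - 16 ^ (ty Nb x (φ k))) (S ++ [newR C k (ty Nb x (φ k))]) φ A := by
  refine ⟨?_, ?_, ?_, h.symm, h.adj, ?_⟩
  · rw [List.range_succ, List.map_append, h.eq]
    congr 1
    · apply List.map_congr_left
      intro i hi
      rw [List.mem_range] at hi
      unfold rcd
      rw [Finset.sum_range_succ, if_neg (fun hA => absurd (h.lt i k hA).2 (lt_irrefl k)), add_zero]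
    · rw [List.map_singleton]
      congr 1
      have nA : ∀ j, ¬ A k j := fun j hA => absurd (h.lt k j hA).1 (lt_irrefl k)
      have e1 : (U Nb x φ A 1 k).card = ty Nb x (φ k) / 2 := by
        rw [ty_div]
        congr 1
        unfold U
        apply Finset.filter_congr
        intro w _
        constructor
        · exact fun a => a.1
        · exact fun a => ⟨a, fun j hj => absurd hj (nA j)⟩
      have e0 : (U Nb x φ A 0 k).card = C.Q - ty Nb x (φ k) / 2 := by
        rw [ty_div]
        have h1 : (U Nb x φ A 0 k) = (Nb (φ k)).filter (fun w => ¬ lab x w = 1) := by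
          unfold U
          apply Finset.filter_congr
          intro w _
          have := lab_lt (x := x) w
          constructor
          · rintro ⟨a, -⟩; omega
          · exact fun a => ⟨by omega, fun j hj => absurd hj (nA j)⟩
        have h2 := Finset.card_filter_add_card_filter_not (s := Nb (φ k)) (fun w => lab x w = 1)
        rw [H.deg] at h2
        rw [h1]
        omega
      unfold rcd newR
      rw [e0, e1]
      congr 1
      symm
      apply Finset.sum_eq_zero
      intro j _
      rw [if_neg (nA j)]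
  · intro i hi j hj hij
    rcases Nat.lt_succ_iff_lt_or_eq.1 hi with h1 | h1 <;>
      rcases Nat.lt_succ_iff_lt_or_eq.1 hj with h2 | h2
    · exact h.inj i h1 j h2 hij
    · subst h2; exact absurd hij (hk i h1)
    · subst h1; exact absurd hij.symm (hk j h2)
    · rw [h1, h2]
  · intro i j hij
    have := h.lt i j hij
    omega
  · intro t
    set w := φ k with hw
    have hmem : w ∈ univ.filter (fun u => ty Nb x u = ty Nb x w ∧ ∀ i < k, φ i ≠ u) := by
      rw [Finset.mem_filter]
      exact ⟨Finset.mem_univ _, rfl, hk⟩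
    have hd : R / 16 ^ ty Nb x w % 16 ≠ 0 := by
      have h1 := h.bud (ty Nb x w)
      have h2 := Finset.card_pos.2 ⟨w, hmem⟩
      omega
    rw [dig_sub hd]
    have hb := h.bud t
    by_cases ht : t = ty Nb x w
    · subst ht
      rw [if_pos rfl]
      have h3 : univ.filter (fun u => ty Nb x u = ty Nb x w ∧ ∀ i < k + 1, φ i ≠ u) =
          (univ.filter (fun u => ty Nb x u = ty Nb x w ∧ ∀ i < k, φ i ≠ u)).erase w := by
        ext u
        simp only [Finset.mem_filter, Finset.mem_univ, true_and, Finset.mem_erase]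
        constructor
        · rintro ⟨a, b⟩
          exact ⟨fun e => b k (by omega) (by rw [e]), a, fun i hi => b i (by omega)⟩
        · rintro ⟨a, b, c⟩
          refine ⟨b, fun i hi => ?_⟩
          rcases Nat.lt_succ_iff_lt_or_eq.1 hi with h1 | h1
          · exact c i h1
          · rw [h1]; exact fun e => a e.symm
      rw [h3, Finset.card_erase_of_mem hmem]
      omega
    · rw [if_neg ht, Nat.sub_zero]
      refine le_trans (Finset.card_le_card ?_) hb
      intro u hu
      simp only [Finset.mem_filter, Finset.mem_univ, true_and] at hu ⊢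
      exact ⟨hu.1, fun i hi => hu.2 i (by omega)⟩

/-- a new edge -/
theorem Sem.edge (H : Hyp C Nb x) {k R : ℕ} {S : List Rc} {φ : ℕ → V} {A : ℕ → ℕ → Prop}
    (h : Sem Nb x k R S φ A) {v u : ℕ} (hv : v < k) (hu : u < k) (hA : ¬ A v u)
    (hm : φ u ∈ Nb (φ v)) :
    Sem Nb x k R (S.map (upd v u (lab x (φ v)) (lab x (φ u)))) φ
      (fun i j => A i j ∨ (i = v ∧ j = u) ∨ (i = u ∧ j = v)) := by
  have hvu : v ≠ u := by
    rintro rfl
    exact H.irr _ hm
  have hA' : ¬ A u v := fun hh => hA (h.symm _ _ hh)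
  have hm' : φ v ∈ Nb (φ u) := H.sym _ _ hm
  -- the set of unknown neighbours
  have key : ∀ (A' : ℕ → ℕ → Prop) (p q : ℕ), p < k → q < k → p ≠ q → ¬ A p q → φ q ∈ Nb (φ p) →
      (∀ j, A' p j ↔ (A p j ∨ j = q)) →
      ∀ l, (U Nb x φ A' l p).card =
        (U Nb x φ A l p).card - if lab x (φ q) = l then 1 else 0 := by
    intro A' p q hp hq hpq hApq hmem hiff l
    have h1 : U Nb x φ A' l p = (U Nb x φ A l p).erase (φ q) := by
      ext w
      unfold U
      rw [Finset.mem_erase, Finset.mem_filter, Finset.mem_filter]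
      constructor
      · rintro ⟨a, b, c⟩
        exact ⟨fun e => c q ((hiff q).2 (Or.inr rfl)) e.symm, a, b,
          fun j hj => c j ((hiff j).2 (Or.inl hj))⟩
      · rintro ⟨a, b, c, d⟩
        refine ⟨b, c, fun j hj => ?_⟩
        rcases (hiff j).1 hj with h2 | h2
        · exact d j h2
        · rw [h2]; exact fun e => a e.symm
    rw [h1]
    by_cases hl : lab x (φ q) = l
    · rw [if_pos hl, Finset.card_erase_of_mem]
      unfold U
      rw [Finset.mem_filter]
      refine ⟨hmem, hl, fun j hj e => ?_⟩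
      have := h.inj j (h.lt p j hj).2 q hq e
      rw [this] at hj
      exact hApq hj
    · rw [if_neg hl, Nat.sub_zero, Finset.erase_eq_of_notMem]
      unfold U
      rw [Finset.mem_filter]
      rintro ⟨-, b, -⟩
      exact hl b
  have row : ∀ (A' : ℕ → ℕ → Prop) (p q : ℕ), p < k → q < k → ¬ A p q →
      (∀ j, A' p j ↔ (A p j ∨ j = q)) →
      (∑ j ∈ range k, if A' p j then 4096 ^ j else 0) =
      (∑ j ∈ range k, if A p j then 4096 ^ j else 0) + 4096 ^ q := by
    intro A' p q hp hq hApq hiff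
    have h1 : ∀ j ∈ range k, (if A' p j then 4096 ^ j else 0) =
        (if A p j then 4096 ^ j else 0) + (if j = q then 4096 ^ j else 0) := by
      intro j _
      by_cases hj : A p j
      · have hjq : j ≠ q := by rintro rfl; exact hApq hj
        rw [if_pos ((hiff j).2 (Or.inl hj)), if_pos hj, if_neg hjq, add_zero]
      · by_cases hjq : j = q
        · rw [if_pos ((hiff j).2 (Or.inr hjq)), if_neg hj, if_pos hjq, zero_add]
        · rw [if_neg (fun hh => by rcases (hiff j).1 hh with h2 | h2; exacts [hj h2, hjq h2]),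
            if_neg hj, if_neg hjq]
    rw [Finset.sum_congr rfl h1, Finset.sum_add_distrib, Finset.sum_ite_eq',
      if_pos (Finset.mem_range.2 hq)]
  refine ⟨?_, h.inj, ?_, ?_, ?_, h.bud⟩
  · rw [h.eq, List.map_map]
    apply List.map_congr_left
    intro i hi
    rw [List.mem_range] at hi
    show upd v u (lab x (φ v)) (lab x (φ u)) (rcd Nb x φ A k i) = _
    have hadd : ∀ q l, lab x (φ q) = l → i < k → q < k → i ≠ q → ¬ A i q → φ q ∈ Nb (φ i) →
        (∀ j, (A i j ∨ (i = v ∧ j = u) ∨ (i = u ∧ j = v)) ↔ (A i j ∨ j = q)) →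
        addb (rcd Nb x φ A k i) q l =
        rcd Nb x φ (fun i j => A i j ∨ (i = v ∧ j = u) ∨ (i = u ∧ j = v)) k i := by
      intro q l hl hi hq hiq hAiq hmem hiff
      have k0 := key (fun i j => A i j ∨ (i = v ∧ j = u) ∨ (i = u ∧ j = v)) i q hi hq hiq hAiq hmem
        hiff 0
      have k1 := key (fun i j => A i j ∨ (i = v ∧ j = u) ∨ (i = u ∧ j = v)) i q hi hq hiq hAiq hmem
        hiff 1
      have kr := row (fun i j => A i j ∨ (i = v ∧ j = u) ∨ (i = u ∧ j = v)) i q hi hq hAiq hiff
      unfold rcd addb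
      rw [k0, k1, kr]
      have h2 := lab_lt (x := x) (φ q)
      rw [hl] at h2 ⊢
      rcases Nat.lt_succ_iff_lt_or_eq.1 h2 with h3 | h3
      · have : l = 0 := by omega
        subst this
        rfl
      · subst h3
        rfl
    unfold upd
    by_cases h1 : i = v
    · have e1 : Nat.beq (rcd Nb x φ A k i).i v = true := by rw [Nat.beq_eq]; exact h1
      rw [e1]
      subst h1
      exact hadd u _ rfl hi hu hvu hA hm (fun j => by
        constructor
        · rintro (a | ⟨-, a⟩ | ⟨a, -⟩)
          · exact Or.inl a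
          · exact Or.inr a
          · exact absurd a hvu
        · rintro (a | a)
          · exact Or.inl a
          · exact Or.inr (Or.inl ⟨rfl, a⟩))
    · have e1 : Nat.beq (rcd Nb x φ A k i).i v = false := by
        rw [← Bool.not_eq_true, Nat.beq_eq]; exact h1
      rw [e1]
      by_cases h2 : i = u
      · have e2 : Nat.beq (rcd Nb x φ A k i).i u = true := by rw [Nat.beq_eq]; exact h2
        rw [e2]
        subst h2
        exact hadd v _ rfl hi hv hvu.symm hA' hm' (fun j => by
          constructor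
          · rintro (a | ⟨a, -⟩ | ⟨-, a⟩)
            · exact Or.inl a
            · exact absurd a.symm hvu
            · exact Or.inr a
          · rintro (a | a)
            · exact Or.inl a
            · exact Or.inr (Or.inr ⟨rfl, a⟩))
      · have e2 : Nat.beq (rcd Nb x φ A k i).i u = false := by
          rw [← Bool.not_eq_true, Nat.beq_eq]; exact h2
        rw [e2]
        show rcd Nb x φ A k i = _
        have hiff : ∀ j, (A i j ∨ (i = v ∧ j = u) ∨ (i = u ∧ j = v)) ↔ A i j := by
          intro j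
          constructor
          · rintro (a | ⟨a, -⟩ | ⟨a, -⟩)
            · exact a
            · exact absurd a h1
            · exact absurd a h2
          · exact Or.inl
        unfold rcd U
        simp only [hiff]
  · rintro i j (a | ⟨rfl, rfl⟩ | ⟨rfl, rfl⟩)
    · exact h.lt i j a
    · exact ⟨hv, hu⟩
    · exact ⟨hu, hv⟩
  · rintro i j (a | ⟨rfl, rfl⟩ | ⟨rfl, rfl⟩)
    · exact Or.inl (h.symm i j a)
    · exact Or.inr (Or.inr ⟨rfl, rfl⟩)
    · exact Or.inr (Or.inl ⟨rfl, rfl⟩)
  · rintro i j (a | ⟨rfl, rfl⟩ | ⟨rfl, rfl⟩)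
    · exact h.adj i j a
    · exact hm
    · exact hm'

end

end Pool.Agent.H93.Neg
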