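import Pool.Agent.H93.Neg.Sem
import Mathlib.Combinatorics.SimpleGraph.AdjMatrix
import Mathlib.Algebra.GCDMonoid.Finset
import Mathlib.Algebra.GCDMonoid.Nat
import Mathlib.Data.ZMod.Basic

/-!
From a nut graph to an integral kernel vector of the closed neighbourhood matrix of its complement,
and the numbers of vertices of each type.
-/

set_option autoImplicit false
set_option linter.unusedSectionVars false
set_option linter.unusedVariables false

namespace Pool.Agent.H93.Neg

open Finset Classical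

section

variable {V : Type} [Fintype V]

theorem sum_nb {M : Type} [AddCommMonoid M] {Nb : V → Finset V}
    (hs : ∀ v w, w ∈ Nb v → v ∈ Nb w) (f : V → V → M) :
    ∑ v, ∑ w ∈ Nb v, f v w = ∑ v, ∑ w ∈ Nb v, f w v := by
  have h1 : ∀ g : V → V → M, ∑ v, ∑ w ∈ Nb v, g v w = ∑ v, ∑ w, if w ∈ Nb v then g v w else 0 := by
    intro g
    refine Finset.sum_congr rfl fun v _ => ?_
    rw [← Finset.sum_filter, Finset.filter_mem_eq_inter, Finset.univ_inter]
  rw [h1, h1 (fun v w => f w v), Finset.sum_comm]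
  refine Finset.sum_congr rfl fun v _ => Finset.sum_congr rfl fun w _ => ?_
  have : v ∈ Nb w ↔ w ∈ Nb v := ⟨hs _ _, hs _ _⟩
  simp only [this]

theorem sum_nb_const {M : Type} [AddCommMonoid M] {Nb : V → Finset V}
    (hs : ∀ v w, w ∈ Nb v → v ∈ Nb w) {k : ℕ} (hd : ∀ v, (Nb v).card = k) (f : V → M) :
    ∑ v, ∑ w ∈ Nb v, f w = k • ∑ v, f v := by
  rw [sum_nb hs (fun _ w => f w), Finset.smul_sum]
  refine Finset.sum_congr rfl fun v _ => ?_
  rw [Finset.sum_const, hd]

/-- the complement of a nut graph -/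
theorem exists_nb (G : SimpleGraph V) {ρ k : ℕ} (hc : Fintype.card V = ρ + 1 + k)
    (h0 : 1 ≤ ρ) (hr : G.IsRegularOfDegree ρ) {x : V → ℝ}
    (hk : LinearMap.ker (Matrix.toLin' (G.adjMatrix ℝ)) = Submodule.span ℝ {x}) :
    ∃ Nb : V → Finset V, (∀ v w, w ∈ Nb v → v ∈ Nb w) ∧ (∀ v, v ∉ Nb v) ∧
      (∀ v, (Nb v).card = k) ∧ (∀ v, x v + ∑ w ∈ Nb v, x w = 0) ∧
      ∀ y : V → ℝ, (∀ v, y v + ∑ w ∈ Nb v, y w = 0) → ∃ c : ℝ, ∀ v, y v = c * x v := by
  set Nb : V → Finset V := fun v => univ.filter (fun w => w ≠ v ∧ ¬ G.Adj v w) with hNb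
  have hs : ∀ v w, w ∈ Nb v → v ∈ Nb w := by
    intro v w h
    simp only [hNb, Finset.mem_filter, Finset.mem_univ, true_and] at h ⊢
    exact ⟨h.1.symm, fun hh => h.2 hh.symm⟩
  have hi : ∀ v, v ∉ Nb v := by
    intro v h
    simp only [hNb, Finset.mem_filter, Finset.mem_univ, true_and] at h
    exact h.1 rfl
  have hsplit : ∀ (y : V → ℝ) (v : V),
      ∑ w, y w = (y v + ∑ w ∈ Nb v, y w) + ∑ w ∈ G.neighborFinset v, y w := by
    intro y v
    have h1 : (univ : Finset V) = insert v (Nb v) ∪ G.neighborFinset v := by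
      ext w
      simp only [hNb, Finset.mem_univ, Finset.mem_union, Finset.mem_insert, Finset.mem_filter,
        true_and, SimpleGraph.mem_neighborFinset, true_iff]
      tauto
    rw [h1, Finset.sum_union, Finset.sum_insert (hi v)]
    rw [Finset.disjoint_left]
    intro w hw hw'
    rw [SimpleGraph.mem_neighborFinset] at hw'
    rcases Finset.mem_insert.1 hw with e | e
    · subst e
      exact G.loopless.irrefl _ hw'
    · simp only [hNb, Finset.mem_filter, Finset.mem_univ, true_and] at e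
      exact e.2 hw'
  have hcard : ∀ v, (Nb v).card = k := by
    intro v
    have h1 := hsplit (fun _ => 1) v
    simp only [Finset.sum_const, nsmul_eq_mul, mul_one, Finset.card_univ] at h1
    have h2 : (G.neighborFinset v).card = ρ := by
      rw [SimpleGraph.card_neighborFinset_eq_degree]
      exact hr v
    rw [h2, hc] at h1
    have h3 : ((ρ + 1 + k : ℕ) : ℝ) = ((1 + (Nb v).card + ρ : ℕ) : ℝ) := by
      rw [h1]; push_cast; ring
    have := Nat.cast_injective h3
    omega
  have hker : ∀ y : V → ℝ, (∀ v, ∑ w ∈ G.neighborFinset v, y w = 0) ↔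
      y ∈ LinearMap.ker (Matrix.toLin' (G.adjMatrix ℝ)) := by
    intro y
    rw [LinearMap.mem_ker, Matrix.toLin'_apply, funext_iff]
    simp only [SimpleGraph.adjMatrix_mulVec_apply, Pi.zero_apply]
  have hGs : ∀ v w, w ∈ G.neighborFinset v → v ∈ G.neighborFinset w := by
    intro v w h
    rw [SimpleGraph.mem_neighborFinset] at h ⊢
    exact h.symm
  refine ⟨Nb, hs, hi, hcard, ?_, ?_⟩
  · have h1 : ∀ v, ∑ w ∈ G.neighborFinset v, x w = 0 := by
      rw [hker, hk]
      exact Submodule.mem_span_singleton_self x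
    have h2 : ∑ v, x v = 0 := by
      have h3 := sum_nb_const hGs (k := ρ) (fun v => by
        rw [SimpleGraph.card_neighborFinset_eq_degree]; exact hr v) x
      rw [Finset.sum_congr rfl (fun v _ => h1 v), Finset.sum_const_zero, nsmul_eq_mul] at h3
      have h4 : (ρ : ℝ) ≠ 0 := by
        have : ρ ≠ 0 := by omega
        exact_mod_cast this
      rcases mul_eq_zero.1 h3.symm with h5 | h5
      · exact absurd h5 h4
      · exact h5
    intro v
    have h3 := hsplit x v
    rw [h2, h1 v, add_zero] at h3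
    exact h3.symm
  · intro y hy
    have h2 : ∑ v, y v = 0 := by
      have h3 := sum_nb_const hs hcard y
      have h4 : ∑ v, (y v + ∑ w ∈ Nb v, y w) = 0 := Finset.sum_eq_zero fun v _ => hy v
      rw [Finset.sum_add_distrib, h3, nsmul_eq_mul] at h4
      have h5 : ((k : ℝ) + 1) * ∑ v, y v = 0 := by linarith
      rcases mul_eq_zero.1 h5 with h6 | h6
      · exact absurd h6 (by positivity)
      · exact h6
    have h3 : y ∈ LinearMap.ker (Matrix.toLin' (G.adjMatrix ℝ)) := by
      rw [← hker]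
      intro v
      have h4 := hsplit y v
      rw [h2, hy v, zero_add] at h4
      exact h4.symm
    rw [hk, Submodule.mem_span_singleton] at h3
    obtain ⟨c, hc⟩ := h3
    refine ⟨c, fun v => ?_⟩
    rw [← hc]
    rfl

/-- an integral kernel vector -/
theorem exists_int [Nonempty V] {Nb : V → Finset V} {x : V → ℝ} (hx : ∀ v, x v ≠ 0)
    (hk : ∀ v, x v + ∑ w ∈ Nb v, x w = 0)
    (hu : ∀ y : V → ℝ, (∀ v, y v + ∑ w ∈ Nb v, y w = 0) → ∃ c : ℝ, ∀ v, y v = c * x v) :
    ∃ z : V → ℤ, (∀ v, z v ≠ 0) ∧ (∀ v, z v + ∑ w ∈ Nb v, z w = 0) ∧ (∃ v, lab z v = 1) ∧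
      ∀ y : V → ℤ, (∀ v, y v + ∑ w ∈ Nb v, y w = 0) → (∀ v, y v = 0) ∨ (∀ v, y v ≠ 0) := by
  obtain ⟨v0⟩ := (inferInstance : Nonempty V)
  -- rational vector
  obtain ⟨g, hg⟩ := LinearMap.exists_leftInverse_of_injective
    (Algebra.linearMap ℚ ℝ) (by
      rw [LinearMap.ker_eq_bot]
      exact (algebraMap ℚ ℝ).injective)
  have hg1 : g 1 = 1 := by
    have := LinearMap.congr_fun hg 1
    simpa using this
  set q : V → ℚ := fun v => g (x v / x v0) with hq
  have hq0 : q v0 = 1 := by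
    simp only [hq]
    rw [div_self (hx v0), hg1]
  have hqk : ∀ v, q v + ∑ w ∈ Nb v, q w = 0 := by
    intro v
    simp only [hq]
    rw [← map_sum, ← map_add, ← Finset.sum_div, ← add_div, hk v, zero_div, map_zero]
  have hqn : ∀ v, q v ≠ 0 := by
    obtain ⟨c, hc⟩ := hu (fun v => (q v : ℝ)) (fun v => by
      have := hqk v
      have h2 : ((q v + ∑ w ∈ Nb v, q w : ℚ) : ℝ) = 0 := by rw [this]; simp
      push_cast at h2
      exact h2)
    have h0 : c ≠ 0 := by
      intro h0
      have := hc v0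
      rw [h0, hq0] at this
      simp at this
    intro v hv
    have := hc v
    simp only [hv] at this
    have h3 : c * x v = 0 := by rw [← this]; simp
    rcases mul_eq_zero.1 h3 with h4 | h4
    · exact h0 h4
    · exact hx v h4
  -- integral vector
  set D : ℚ := ∏ v, ((q v).den : ℚ) with hD
  have hD0 : D ≠ 0 := by
    rw [hD, Finset.prod_ne_zero_iff]
    intro v _
    exact_mod_cast (q v).den_ne_zero
  set m : V → ℤ := fun v => (q v).num * ∏ w ∈ univ.erase v, ((q w).den : ℤ) with hm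
  have hmq : ∀ v, (m v : ℚ) = q v * D := by
    intro v
    simp only [hm, hD]
    rw [← Finset.mul_prod_erase univ (fun v => ((q v).den : ℚ)) (Finset.mem_univ v), ← mul_assoc,
      Rat.mul_den_eq_num]
    push_cast
    rfl
  have hmn : ∀ v, m v ≠ 0 := by
    intro v hv
    have := hmq v
    rw [hv] at this
    have h3 : q v * D = 0 := by rw [← this]; simp
    rcases mul_eq_zero.1 h3 with h4 | h4
    · exact hqn v h4
    · exact hD0 h4
  have hmk : ∀ v, m v + ∑ w ∈ Nb v, m w = 0 := by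
    intro v
    have h1 : ((m v + ∑ w ∈ Nb v, m w : ℤ) : ℚ) = 0 := by
      push_cast
      rw [hmq v, Finset.sum_congr rfl (fun w _ => hmq w), ← Finset.sum_mul, ← add_mul, hqk v,
        zero_mul]
    exact_mod_cast h1
  obtain ⟨z, hz1, hz2⟩ := Finset.extract_gcd (s := (univ : Finset V)) m ⟨v0, Finset.mem_univ _⟩
  have hg0 : (univ : Finset V).gcd m ≠ 0 := by
    intro h0
    have := hz1 v0 (Finset.mem_univ _)
    rw [h0, zero_mul] at this
    exact hmn v0 this
  have hz3 : ∀ v, m v = (univ : Finset V).gcd m * z v := fun v => hz1 v (Finset.mem_univ _)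
  refine ⟨z, ?_, ?_, ?_, ?_⟩
  · intro v hv
    have := hz3 v
    rw [hv, mul_zero] at this
    exact hmn v this
  · intro v
    have h1 := hmk v
    rw [hz3 v, Finset.sum_congr rfl (fun w _ => hz3 w), ← Finset.mul_sum, ← mul_add] at h1
    rcases mul_eq_zero.1 h1 with h2 | h2
    · exact absurd h2 hg0
    · exact h2
  · by_contra hcon
    push Not at hcon
    have h2 : (2 : ℤ) ∣ (univ : Finset V).gcd z := by
      apply Finset.dvd_gcd
      intro v _
      have h1 : lab z v = 0 := by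
        have := hcon v
        have := lab_lt (x := z) v
        omega
      unfold lab at h1
      omega
    rw [hz2] at h2
    norm_num at h2
  · intro y hy
    obtain ⟨c, hc⟩ := hu (fun v => (y v : ℝ)) (fun v => by
      have := hy v
      have h2 : ((y v + ∑ w ∈ Nb v, y w : ℤ) : ℝ) = 0 := by rw [this]; simp
      push_cast at h2
      exact h2)
    by_cases h0 : c = 0
    · left
      intro v
      have := hc v
      rw [h0, zero_mul] at this
      exact_mod_cast this
    · right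
      intro v hv
      have := hc v
      simp only [hv] at this
      have h3 : c * x v = 0 := by rw [← this]; simp
      rcases mul_eq_zero.1 h3 with h4 | h4
      · exact h0 h4
      · exact hx v h4

variable {Nb : V → Finset V} {z : V → ℤ}

/-- the number of neighbours of label one -/
noncomputable def od (Nb : V → Finset V) (x : V → ℤ) (v : V) : ℕ :=
  ((Nb v).filter (fun w => lab x w = 1)).card

theorem ty_od (v : V) : ty Nb z v = 2 * od Nb z v + lab z v := rfl

theorem od_sum (v : V) : (od Nb z v : ℤ) = ∑ w ∈ Nb v, (lab z w : ℤ) := by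
  unfold od
  rw [Finset.card_filter]
  push_cast
  refine Finset.sum_congr rfl fun w _ => ?_
  have := lab_lt (x := z) w
  by_cases h : lab z w = 1
  · rw [if_pos h, h]; rfl
  · rw [if_neg h]
    have : lab z w = 0 := by omega
    rw [this]; rfl

theorem od_le {k : ℕ} (hd : ∀ v, (Nb v).card = k) (v : V) : od Nb z v ≤ k := by
  rw [← hd v]
  exact Finset.card_le_card (Finset.filter_subset _ _)

/-- half of the difference -/
noncomputable def hf (z : V → ℤ) (v : V) : ℤ := ((lab z v : ℤ) - z v) / 2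

theorem hf_spec (v : V) : (lab z v : ℤ) = z v + 2 * hf z v := by
  unfold hf lab
  omega

theorem par (hk : ∀ v, z v + ∑ w ∈ Nb v, z w = 0) (v : V) :
    (lab z v : ℤ) + od Nb z v = 2 * (hf z v + ∑ w ∈ Nb v, hf z w) := by
  rw [od_sum, hf_spec v, Finset.sum_congr rfl (fun w _ => hf_spec w), Finset.sum_add_distrib,
    ← Finset.mul_sum]
  have := hk v
  linarith

theorem par_mod (hk : ∀ v, z v + ∑ w ∈ Nb v, z w = 0) (v : V) :
    (lab z v + od Nb z v) % 2 = 0 := by
  have := par hk v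
  omega

theorem even_pairs (hs : ∀ v w, w ∈ Nb v → v ∈ Nb w) (hi : ∀ v, v ∉ Nb v) (f : V → ℤ) :
    (2 : ℤ) ∣ ∑ v, ∑ w ∈ Nb v, f v * f w := by
  have key := ZMod.intCast_zmod_eq_zero_iff_dvd (∑ v, ∑ w ∈ Nb v, f v * f w) 2
  rw [Nat.cast_ofNat] at key
  rw [← key]
  push_cast
  rw [Finset.sum_sigma']
  refine Finset.sum_involution (fun p _ => ⟨p.2, p.1⟩) ?_ ?_ ?_ ?_
  · rintro ⟨v, w⟩ _
    have h : ∀ a b : ZMod 2, a * b + b * a = 0 := by decide
    exact h _ _
  · rintro ⟨v, w⟩ h _ e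
    simp only [Finset.mem_sigma, Finset.mem_univ, true_and] at h
    have : w = v := by
      have := congrArg Sigma.fst e
      exact this
    subst this
    exact hi _ h
  · rintro ⟨v, w⟩ h
    simp only [Finset.mem_sigma, Finset.mem_univ, true_and] at h ⊢
    exact hs _ _ h
  · rintro ⟨v, w⟩ _
    rfl

theorem sum_z {k : ℕ} (hs : ∀ v w, w ∈ Nb v → v ∈ Nb w) (hd : ∀ v, (Nb v).card = k)
    (hk : ∀ v, z v + ∑ w ∈ Nb v, z w = 0) : ∑ v, z v = 0 := by
  have h3 := sum_nb_const hs hd z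
  have h4 : ∑ v, (z v + ∑ w ∈ Nb v, z w) = 0 := Finset.sum_eq_zero fun v _ => hk v
  rw [Finset.sum_add_distrib, h3, nsmul_eq_mul] at h4
  have h5 : ((k : ℤ) + 1) * ∑ v, z v = 0 := by linarith
  rcases mul_eq_zero.1 h5 with h6 | h6
  · exact absurd h6 (by positivity)
  · exact h6

theorem sum_lab {k : ℕ} (hs : ∀ v w, w ∈ Nb v → v ∈ Nb w) (hd : ∀ v, (Nb v).card = k)
    (hk : ∀ v, z v + ∑ w ∈ Nb v, z w = 0) : ∑ v, (lab z v : ℤ) = 2 * ∑ v, hf z v := by
  rw [Finset.sum_congr rfl (fun v _ => hf_spec v), Finset.sum_add_distrib, sum_z hs hd hk,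
    ← Finset.mul_sum, zero_add]

theorem eight {k : ℕ} (hs : ∀ v w, w ∈ Nb v → v ∈ Nb w) (hi : ∀ v, v ∉ Nb v)
    (hd : ∀ v, (Nb v).card = k) (hk : ∀ v, z v + ∑ w ∈ Nb v, z w = 0) :
    (8 : ℤ) ∣ ∑ v, (lab z v : ℤ) * (lab z v + od Nb z v) - 2 * ∑ v, (lab z v : ℤ) := by
  have h1 : ∑ v, (lab z v : ℤ) * (lab z v + od Nb z v) =
      4 * ∑ v, hf z v * (hf z v + ∑ w ∈ Nb v, hf z w) := by
    have h2 : ∑ v, (lab z v : ℤ) * (lab z v + od Nb z v) =
        2 * ∑ v, (lab z v : ℤ) * (hf z v + ∑ w ∈ Nb v, hf z w) := by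
      rw [Finset.mul_sum]
      refine Finset.sum_congr rfl fun v _ => ?_
      rw [par hk v]
      ring
    have h3 : ∑ v, (lab z v : ℤ) * (hf z v + ∑ w ∈ Nb v, hf z w) =
        ∑ v, hf z v * ((lab z v : ℤ) + od Nb z v) := by
      simp only [mul_add, Finset.sum_add_distrib, od_sum, Finset.mul_sum]
      congr 1
      · exact Finset.sum_congr rfl fun v _ => mul_comm _ _
      · rw [sum_nb hs (fun v w => (lab z v : ℤ) * hf z w)]
        exact Finset.sum_congr rfl fun v _ => Finset.sum_congr rfl fun w _ => mul_comm _ _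
    have h4 : ∑ v, hf z v * ((lab z v : ℤ) + od Nb z v) =
        2 * ∑ v, hf z v * (hf z v + ∑ w ∈ Nb v, hf z w) := by
      rw [Finset.mul_sum]
      refine Finset.sum_congr rfl fun v _ => ?_
      rw [par hk v]
      ring
    rw [h2, h3, h4]
    ring
  have h5 : ∑ v, hf z v * (hf z v + ∑ w ∈ Nb v, hf z w) =
      ∑ v, hf z v * hf z v + ∑ v, ∑ w ∈ Nb v, hf z v * hf z w := by
    simp only [mul_add, Finset.sum_add_distrib, Finset.mul_sum]
  obtain ⟨a, ha⟩ := even_pairs hs hi (hf z)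
  have h6 : (2 : ℤ) ∣ ∑ v, hf z v * hf z v - ∑ v, hf z v := by
    rw [← Finset.sum_sub_distrib]
    apply Finset.dvd_sum
    intro v _
    have : hf z v * hf z v - hf z v = (hf z v - 1) * (hf z v - 1 + 1) := by ring
    rw [this]
    exact (Int.even_mul_succ_self _).two_dvd
  obtain ⟨b, hb⟩ := h6
  rw [h1, h5, ha, sum_lab hs hd hk]
  refine ⟨a + b, ?_⟩
  linarith

theorem sum_od {k : ℕ} (hs : ∀ v w, w ∈ Nb v → v ∈ Nb w) (hd : ∀ v, (Nb v).card = k) :
    ∑ v, (od Nb z v : ℤ) = k * ∑ v, (lab z v : ℤ) := by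
  rw [Finset.sum_congr rfl (fun v _ => od_sum v), sum_nb_const hs hd (fun w => (lab z w : ℤ)),
    nsmul_eq_mul]

/-- the number of vertices of type `t` -/
noncomputable def cnt (Nb : V → Finset V) (x : V → ℤ) (t : ℕ) : ℕ :=
  (univ.filter (fun w => ty Nb x w = t)).card

theorem sum_ty {O : List ℕ} (hO : O.Nodup) (ho : ∀ v, ty Nb z v ∈ O) (F : ℕ → ℤ) :
    ∑ v, F (ty Nb z v) = (O.map (fun t => (cnt Nb z t : ℤ) * F t)).sum := by
  rw [← Finset.sum_fiberwise_of_maps_to (s := univ) (t := O.toFinset) (g := ty Nb z)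
    (fun v _ => List.mem_toFinset.2 (ho v)), List.sum_toFinset _ hO]
  congr 1
  apply List.map_congr_left
  intro t _
  rw [Finset.sum_congr rfl (fun v hv => by rw [(Finset.mem_filter.1 hv).2]), Finset.sum_const,
    nsmul_eq_mul]
  rfl

end

end Pool.Agent.H93.Neg
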